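import Pool.Agent.MP_b29402_an.Stmt

-- part MP_b29402_an.Flow
section

/-! Definitions of the spectral layer: almost everywhere defined flows, filters, symbols. -/

open MeasureTheory Set Filter Topology ProbabilityTheory
open scoped ComplexConjugate ENNReal

namespace Pool.Agent.MP_b29402_an

variable {X : Type*} [MeasurableSpace X]

/-- a measurable measure preserving flow, which is a genuine flow on the invariant conull set `X0` -/
structure AEFlow (μ : Measure X) (φ : ℝ → X → X) (X0 : Set X) : Prop where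
  meas : Measurable (fun p : ℝ × X => φ p.1 p.2)
  mp : ∀ t, MeasurePreserving (φ t) μ μ
  ae : ∀ᵐ x ∂μ, x ∈ X0
  inv : ∀ t, ∀ x ∈ X0, φ t x ∈ X0
  add : ∀ s t, ∀ x ∈ X0, φ s (φ t x) = φ (s + t) x
  zero : ∀ x, φ 0 x = x

/-- `e^{it}` -/
noncomputable def ex (t : ℝ) : ℂ := Complex.exp (t * Complex.I)

/-- measurable, and bounded by `B` on `X0` -/
def BM (X0 : Set X) (B : ℝ) (f : X → ℂ) : Prop := Measurable f ∧ ∀ x ∈ X0, ‖f x‖ ≤ B

/-- measurable, and bounded by `B` almost everywhere -/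
def AB (μ : Measure X) (B : ℝ) (f : X → ℂ) : Prop := Measurable f ∧ ∀ᵐ x ∂μ, ‖f x‖ ≤ B

/-- squared `L²` norm -/
noncomputable def nsq (μ : Measure X) (f : X → ℂ) : ℝ := ∫ x, ‖f x‖ ^ 2 ∂μ

/-- the spectral measure of `f` for the flow `φ` is `‖κ‖ ^ 2 τ` -/
def SpecW (μ : Measure X) (φ : ℝ → X → X) (f : X → ℂ) (τ : Measure ℝ) (κ : ℝ → ℂ) : Prop :=
  ∀ t : ℝ, ∫ x, f (φ t x) * conj (f x) ∂μ = ∫ y, ex (t * y) * ((‖κ y‖ ^ 2 : ℝ) : ℂ) ∂τ

/-- general filter -/
noncomputable def Op (φ : ℝ → X → X) (ϱ : Measure ℝ) (k : ℝ → ℂ) (f : X → ℂ) (x : X) : ℂ :=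
  ∫ s, k s * f (φ s x) ∂ϱ

/-- symbol of the general filter -/
noncomputable def sym (ϱ : Measure ℝ) (k : ℝ → ℂ) (y : ℝ) : ℂ := ∫ s, k s * ex (s * y) ∂ϱ

/-- `(e^{iz} - 1) / (iz)` -/
noncomputable def Dk (z : ℝ) : ℂ := ∫ s in (0 : ℝ)..1, ex (s * z)

/-- modulated time average over `[0, L]`; its symbol is `Dk (L * (y - c))` -/
noncomputable def Av (φ : ℝ → X → X) (L c : ℝ) (f : X → ℂ) (x : X) : ℂ :=
  (L : ℂ)⁻¹ * ∫ s in (0 : ℝ)..L, ex (-(c * s)) * f (φ s x)

/-- finite combination of translates; its symbol is `tp a t` -/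
noncomputable def FS (φ : ℝ → X → X) {n : ℕ} (a : Fin n → ℂ) (t : Fin n → ℝ) (f : X → ℂ)
    (x : X) : ℂ := ∑ i, a i * f (φ (t i) x)

/-- trigonometric polynomial -/
noncomputable def tp {n : ℕ} (a : Fin n → ℂ) (t : Fin n → ℝ) (y : ℝ) : ℂ :=
  ∑ i, a i * ex (t i * y)

/-- Lebesgue measure on the set of directions -/
noncomputable def PP : Measure ℝ := volume.restrict (Ico (0 : ℝ) 1)

instance PP_prob : IsProbabilityMeasure PP := ⟨by simp [PP]⟩

/-- joint spectral measure on directions times frequencies -/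
noncomputable def mJ (σ : Kernel ℝ ℝ) : Measure (ℝ × ℝ) := PP ⊗ₘ σ

/-- averaged spectral measure -/
noncomputable def Sg (σ : Kernel ℝ ℝ) : Measure ℝ := (mJ σ).snd

/-- product measure -/
noncomputable def nJ (σ : Kernel ℝ ℝ) : Measure (ℝ × ℝ) := PP.prod (Sg σ)

instance mJ_fin (σ : Kernel ℝ ℝ) [IsFiniteKernel σ] : IsFiniteMeasure (mJ σ) := by
  unfold mJ; infer_instance

instance Sg_fin (σ : Kernel ℝ ℝ) [IsFiniteKernel σ] : IsFiniteMeasure (Sg σ) := by
  unfold Sg; infer_instance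

instance nJ_fin (σ : Kernel ℝ ℝ) [IsFiniteKernel σ] : IsFiniteMeasure (nJ σ) := by
  unfold nJ; infer_instance

/-- `min (1, R² / (y - c)²)` -/
noncomputable def K1 (R c y : ℝ) : ℝ := R ^ 2 / max ((y - c) ^ 2) (R ^ 2)

/-- `min ((y - c)² / R², R² / (y - c)²)` -/
noncomputable def K2 (R c y : ℝ) : ℝ := min ((y - c) ^ 2) (R ^ 2) / max ((y - c) ^ 2) (R ^ 2)

/-- the closed interval of radius `r` around `c` -/
def Iv (c r : ℝ) : Set ℝ := Icc (c - r) (c + r)

/-- symbol of the first average of the base function (`u = 0` main window, `u = 1` side window) -/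
noncomputable def gsym (L c u y : ℝ) : ℂ := Dk (L * (y - c)) * ((u : ℂ) * ex (L * (y - c)) - 1)

/-- symbol of the normalised window function -/
noncomputable def wsym (L c u m0 y : ℝ) : ℂ :=
  ((Real.sqrt m0 : ℝ) : ℂ)⁻¹ * (Dk (L * (y - c)) * gsym L c u y)

/-- the spectral facts about one window of radius `r * R` around `cen` -/
def WinFacts (σ : Kernel ℝ ℝ) (G : Set (ℝ × ℝ)) (Θg : Set ℝ) (Kr : ℝ → ℝ)
    (K A η M R cen r : ℝ) : Prop :=
  M * R ^ 2 ≤ (Sg σ).real (Iv cen (r * R)) ∧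
  ∫ y, Kr y ∂(Sg σ) ≤ K * (Sg σ).real (Iv cen (r * R)) ∧
  (Sg σ).real (Iv cen (7 * r / 4 * R)) ≤ K * (Sg σ).real (Iv cen (r * R)) ∧
  ∀ θ ∈ Θg, (mJ σ + nJ σ).real ((Iv θ (A * R ^ 2) ×ˢ Iv cen (7 * r / 4 * R)) \ G) ≤
    η * R ^ 2 * (Sg σ).real (Iv cen (r * R))

/-- mean square over the time interval `[t0, t0 + N]` -/
noncomputable def ces (b : ℝ → ℂ) (t0 N : ℝ) : ℝ := N⁻¹ * ∫ s in t0..t0 + N, ‖b s‖ ^ 2

/-- mean inner product over the time interval `[t0, t0 + N]` -/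
noncomputable def cin (b b' : ℝ → ℂ) (t0 N : ℝ) : ℂ :=
  (N : ℂ)⁻¹ * ∫ s in t0..t0 + N, b s * conj (b' s)

end Pool.Agent.MP_b29402_an

end

-- part MP_b29402_an.Flat
section

/-! Abstract flat surfaces of area one, described through the exponential maps `mv x : D x → X` at
the regular points. Vectors live in `P2 = ℝ × ℝ` with the sup norm. -/

open MeasureTheory Set Filter Topology ProbabilityTheory
open scoped ComplexConjugate ENNReal

namespace Pool.Agent.MP_b29402_an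

/-- the plane, with the sup norm -/
abbrev P2 := ℝ × ℝ

/-- `w` is the first point outside `D` on its ray -/
def Vis (D : Set P2) (w : P2) : Prop := w ∉ D ∧ ∀ t : ℝ, 0 ≤ t → t < 1 → t • w ∈ D

/-- `D x` is the set of vectors `v` such that the straight segment from `x` with holonomy `v` meets no
singular point, `mv x v` is its end point. `x` is regular iff `0 ∈ D x`. -/
structure Flat (X : Type*) [MeasurableSpace X] where
  μ : Measure X
  D : X → Set P2
  mv : X → P2 → X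
  N : ℕ
  prob : IsProbabilityMeasure μ
  ae_reg : ∀ᵐ x ∂μ, (0 : P2) ∈ D x
  mv_zero : ∀ x, mv x 0 = x
  open_D : ∀ x, IsOpen (D x)
  star : ∀ x, ∀ v ∈ D x, ∀ t : ℝ, 0 ≤ t → t ≤ 1 → t • v ∈ D x
  conv : ∀ x (K : Set P2), Convex ℝ K → (0 : P2) ∈ K → K ⊆ D x → ∀ a ∈ K, ∀ b ∈ K,
    b - a ∈ D (mv x a) ∧ mv (mv x a) (b - a) = mv x b
  thick0 : ∃ ρ : ℝ, 0 < ρ ∧ ∀ x, ({w | Vis (D x) w} ∩ Metric.ball 0 ρ).Subsingleton
  card : ∀ w, {x | Vis (D x) w}.encard ≤ N
  exV : ∃ x w, Vis (D x) w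
  conn : ∀ A : Set X, (∃ x ∈ A, (0 : P2) ∈ D x) → (∀ x ∈ A, ∀ v ∈ D x, mv x v ∈ A) →
    ∀ x, (0 : P2) ∈ D x → x ∈ A
  charts : ∃ (c : ℕ → X) (K : ℕ → Set P2),
    (∀ i, IsOpen (K i) ∧ Convex ℝ (K i) ∧ (0 : P2) ∈ K i ∧ K i ⊆ D (c i) ∧ InjOn (mv (c i)) (K i) ∧
      ∀ A ⊆ K i, MeasurableSet A →
        MeasurableSet (mv (c i) '' A) ∧ μ (mv (c i) '' A) = volume A) ∧
    ∀ x, (0 : P2) ∈ D x → ∃ i, x ∈ mv (c i) '' K i
  meas_mv : Measurable fun p : X × P2 => mv p.1 p.2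
  meas_D : MeasurableSet {p : X × P2 | p.2 ∈ D p.1}

/-- determinant -/
def det2 (a b : P2) : ℝ := a.1 * b.2 - a.2 * b.1

/-- euclidean inner product -/
def ip (a b : P2) : ℝ := a.1 * b.1 + a.2 * b.2

/-- closed triangle -/
def ctri (a b p : P2) : Set P2 :=
  {c | ∃ α β γ : ℝ, 0 ≤ α ∧ 0 ≤ β ∧ 0 ≤ γ ∧ α + β + γ = 1 ∧ c = α • a + β • b + γ • p}

/-- closed triangle without its vertices -/
def tri (a b p : P2) : Set P2 :=
  {c | ∃ α β γ : ℝ, 0 ≤ α ∧ 0 ≤ β ∧ 0 ≤ γ ∧ α < 1 ∧ β < 1 ∧ γ < 1 ∧ α + β + γ = 1 ∧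
    c = α • a + β • b + γ • p}

/-- unit vector in direction `θ` -/
noncomputable def ev (θ : ℝ) : P2 := (-Real.sin (2 * Real.pi * θ), Real.cos (2 * Real.pi * θ))

/-- unit normal vector; `(nv θ, ev θ)` is a positive orthonormal basis -/
noncomputable def nv (θ : ℝ) : P2 := (Real.cos (2 * Real.pi * θ), Real.sin (2 * Real.pi * θ))

/-- length after renormalisation in direction `θ` at level `T` -/
noncomputable def rlen (T θ : ℝ) (q : P2) : ℝ := max (T * |ip q (nv θ)|) (|ip q (ev θ)| / T)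

/-- length after the shear of slope `u` and renormalisation at level `T` -/
noncomputable def slen (T u : ℝ) (q : P2) : ℝ := max (T * |q.1 - u * q.2|) (|q.2| / T)

/-- rectangle in the frame of direction `θ` -/
def rect (θ a b c d : ℝ) : Set P2 :=
  {v | a ≤ ip v (nv θ) ∧ ip v (nv θ) ≤ b ∧ c ≤ ip v (ev θ) ∧ ip v (ev θ) ≤ d}

/-- the linear map with matrix `(a b; c d)` of determinant one -/
noncomputable def sl (a b c d : ℝ) (h : a * d - b * c = 1) : P2 ≃L[ℝ] P2 where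
  toFun v := (a * v.1 + b * v.2, c * v.1 + d * v.2)
  invFun v := (d * v.1 - b * v.2, -c * v.1 + a * v.2)
  map_add' u v := by ext <;> simp <;> ring
  map_smul' r v := by ext <;> simp <;> ring
  left_inv v := by
    ext
    · simp only; linear_combination v.1 * h
    · simp only; linear_combination v.2 * h
  right_inv v := by
    ext
    · simp only; linear_combination v.1 * h
    · simp only; linear_combination v.2 * h
  continuous_toFun := by fun_prop
  continuous_invFun := by fun_prop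

namespace Flat

variable {X : Type*} [MeasurableSpace X] (Z : Flat X)

instance μ_prob : IsProbabilityMeasure Z.μ := Z.prob

/-- regular point -/
def reg (x : X) : Prop := (0 : P2) ∈ Z.D x

/-- the singular points visible from `x` -/
def V (x : X) : Set P2 := {w | Vis (Z.D x) w}

/-- saddle connection given by its midpoint and half its holonomy -/
def SC (δ : X × P2) : Prop := δ.2 ∈ Z.V δ.1 ∧ -δ.2 ∈ Z.V δ.1

/-- the open segment of a saddle connection -/
def seg (δ : X × P2) : Set X := {z | ∃ t : ℝ, |t| < 1 ∧ z = Z.mv δ.1 (t • δ.2)}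

/-- transverse intersection -/
def Cross (δ γ : X × P2) : Prop := (Z.seg δ ∩ Z.seg γ).Nonempty ∧ det2 δ.2 γ.2 ≠ 0

/-- no short saddle connection -/
def Thick (ε : ℝ) : Prop := ∀ δ, Z.SC δ → ε ≤ ‖δ.2‖

/-- no short saddle connection after renormalisation -/
def ThickAt (T θ ε : ℝ) : Prop := ∀ δ, Z.SC δ → ε ≤ rlen T θ δ.2

/-- the points on a closed geodesic of holonomy `v` -/
def Per (v : P2) : Set X := {x | v ∈ Z.D x ∧ Z.mv x v = x}

/-- a finite family of pairwise disjoint saddle connections -/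
def Disj (F : Finset (X × P2)) : Prop :=
  (∀ δ ∈ F, Z.SC δ) ∧ ∀ δ ∈ F, ∀ γ ∈ F, δ ≠ γ → Disjoint (Z.seg δ) (Z.seg γ)

/-- the union of the segments of the family -/
def walls (F : Finset (X × P2)) : Set X := {z | ∃ γ ∈ F, z ∈ Z.seg γ}

/-- on the side `0 < det2 q ·` of the saddle connection `(y, q)` there is a flat triangle whose two
other sides lie in the walls -/
def Tri (F : Finset (X × P2)) (L : ℝ) (y : X) (q : P2) : Prop :=
  ∃ p, 0 < det2 q p ∧ ‖p‖ ≤ 3 * L ∧ p ∈ Z.V y ∧ tri (-q) q p ⊆ Z.D y ∧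
    ∀ t : ℝ, 0 < t → t < 1 → Z.mv y ((1 - t) • (-q) + t • p) ∈ Z.walls F ∧
      Z.mv y ((1 - t) • q + t • p) ∈ Z.walls F

/-- the unit speed flow in direction `θ` -/
noncomputable def fl (θ t : ℝ) (x : X) : X := Z.mv x (t • ev θ)

/-- the points whose orbit in direction `θ` is defined for all times -/
def X0 (θ : ℝ) : Set X := {x | ∀ t : ℝ, t • ev θ ∈ Z.D x}

/-- Lipschitz along segments -/
def SegLip (L : ℝ) (h : X → ℂ) : Prop := ∀ x, ∀ v ∈ Z.D x, ‖h (Z.mv x v) - h x‖ ≤ L * ‖v‖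

/-- a family of functions indexed by directions in `Θ`, each depending only on the forward orbit up
to time `S`, in a Lipschitz way -/
structure Fam (Θ : Set ℝ) (S Λ B : ℝ) (F : ℝ → X → ℂ) : Prop where
  hS : 0 ≤ S
  hΛ : 0 ≤ Λ
  hB : 0 ≤ B
  meas : ∀ θ, Measurable (F θ)
  bd : ∀ θ ∈ Θ, ∀ x, S • ev θ ∈ Z.D x → ‖F θ x‖ ≤ B
  lip : ∀ θ₁ ∈ Θ, ∀ θ₂ ∈ Θ, ∀ (x : X) (a : P2) (K : Set P2), Convex ℝ K → K ⊆ Z.D x →
    (0 : P2) ∈ K → S • ev θ₁ ∈ K → a ∈ K → a + S • ev θ₂ ∈ K →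
    ‖F θ₁ x - F θ₂ (Z.mv x a)‖ ≤ Λ * (‖a‖ + S * ‖ev θ₁ - ev θ₂‖)

/-- time average of a family -/
noncomputable def AvF (L c : ℝ) (F : ℝ → X → ℂ) : ℝ → X → ℂ := fun θ => Av (Z.fl θ) L c (F θ)

/-- finite combination of translates of a family -/
noncomputable def FSF {n : ℕ} (a : Fin n → ℂ) (t : Fin n → ℝ) (F : ℝ → X → ℂ) : ℝ → X → ℂ :=
  fun θ => FS (Z.fl θ) a t (F θ)

/-- The data of one spectral window of radius `r / T` around `cen`, for the directions within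
`1 / T²` of `θ1`. -/
structure Datum (T θ1 cen r B c C K ω : ℝ) (f : ℝ → X → ℂ) (τ : ℝ → Measure ℝ)
    (S : Measure ℝ) : Prop where
  fam : Z.Fam (Iv θ1 (1 / T ^ 2)) T (ω * T) B f
  fin : ∀ θ, IsFiniteMeasure (τ θ)
  finS : IsFiniteMeasure S
  spec : ∀ θ ∈ Iv θ1 (1 / T ^ 2), SpecW Z.μ (Z.fl θ) (f θ) (τ θ) (fun _ => 1)
  low : 1 ≤ S.real (Iv cen (r / T))
  tot : S.real univ ≤ K
  dminus : ∀ θ α : ℝ, 0 < α → Icc θ (θ + α / T ^ 2) ⊆ Iv θ1 (1 / T ^ 2) → ∀ ψ : ℝ → ℝ,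
    Measurable ψ → (∀ y, 0 ≤ ψ y) → (∀ y, ψ y ≤ 1) →
    ∃ θ' ∈ Icc θ (θ + α / T ^ 2), c * ∫ y, ψ y ∂S - ω / α ≤ ∫ y, ψ y ∂(τ θ')
  dplus : ∀ θ α : ℝ, 0 < α → Icc θ (θ + α / T ^ 2) ⊆ Iv θ1 (1 / T ^ 2) → ∀ ψ : ℝ → ℝ,
    Measurable ψ → (∀ y, 0 ≤ ψ y) → (∀ y, ψ y ≤ 1) →
    ∃ θ' ∈ Icc θ (θ + α / T ^ 2),
      ∫ y in Iv cen (7 * r / 4 / T), ψ y ∂(τ θ') ≤ C * ∫ y, ψ y ∂S + ω / α

end Flat

end Pool.Agent.MP_b29402_an

end

-- part MP_b29402_an.Inst
section

/-! From translation surfaces to abstract flat surfaces: definitions. -/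

open MeasureTheory Set Filter Topology ProbabilityTheory
open scoped ComplexConjugate ENNReal

namespace Pool.Agent.MP_b29402_an

/-- the complex number attached to a vector; `sc` is the square root of the area normalisation -/
noncomputable def io (sc : ℝ) (w : P2) : ℂ := ((w.1 : ℂ) + (w.2 : ℂ) * Complex.I) / (sc : ℂ)

namespace TransSurf

variable {X : Type*} [TopologicalSpace X] (S : TransSurf X)

/-- the vectors along which one can go straight from `x` -/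
def Dom (sc : ℝ) (x : X) : Set P2 :=
  {w | ∃ γ : ℝ → X, γ 0 = x ∧ S.Straight (io sc w) γ (Icc 0 1)}

open Classical in
/-- the end point -/
noncomputable def mov (sc : ℝ) (x : X) (w : P2) : X :=
  if h : w ∈ S.Dom sc x then h.choose 1 else x

/-- `φ` is a chart centred at `z` in which the flat charts are locally `φ ^ k + c` -/
def ConeAt (z : X) (k : ℕ) (φ : OpenPartialHomeomorph X ℂ) : Prop :=
  1 ≤ k ∧ z ∈ φ.source ∧ φ z = 0 ∧
    ∀ x ∈ φ.source, x ≠ z → ∃ e ∈ S.atlas, x ∈ e.source ∧ ∃ c : ℂ, ∀ᶠ y in 𝓝 x, e y = φ y ^ k + c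

end TransSurf

end Pool.Agent.MP_b29402_an

end

-- part MP_b29402_an.Pl1
section

/-! Plane geometry: frames, renormalised lengths, linear maps of determinant one. -/

open MeasureTheory Set Filter Topology ProbabilityTheory
open scoped ComplexConjugate ENNReal

namespace Pool.Agent.MP_b29402_an

theorem Pl1_abs_two_pi (x : ℝ) : |2 * Real.pi * x| ≤ 7 * |x| := by
  rw [abs_mul, abs_of_pos (by positivity : 0 < 2 * Real.pi)]
  exact mul_le_mul_of_nonneg_right (by linarith [Real.pi_lt_d2]) (abs_nonneg x)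

theorem Pl1_le_rlen1 (T θ : ℝ) (q : P2) : T * |ip q (nv θ)| ≤ rlen T θ q := le_max_left _ _

theorem Pl1_le_rlen2 (T θ : ℝ) (q : P2) : |ip q (ev θ)| / T ≤ rlen T θ q := le_max_right _ _

theorem Pl1_sq_pos {a : P2} (ha : a ≠ 0) : 0 < a.1 ^ 2 + a.2 ^ 2 := by
  rcases (add_nonneg (sq_nonneg a.1) (sq_nonneg a.2)).eq_or_lt with h | h
  · exfalso
    apply ha
    ext
    · have : a.1 ^ 2 = 0 := by nlinarith [sq_nonneg a.1, sq_nonneg a.2]
      simpa using this
    · have : a.2 ^ 2 = 0 := by nlinarith [sq_nonneg a.1, sq_nonneg a.2]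
      simpa using this
  · exact h

theorem Pl1_mat_bound {a b c d κ : ℝ} (ha : |a| ≤ κ) (hb : |b| ≤ κ) (hc : |c| ≤ κ) (hd : |d| ≤ κ)
    (v : P2) : ‖((a * v.1 + b * v.2, c * v.1 + d * v.2) : P2)‖ ≤ 2 * κ * ‖v‖ := by
  have h1 : |v.1| ≤ ‖v‖ := norm_fst_le v
  have h2 : |v.2| ≤ ‖v‖ := norm_snd_le v
  have hκ : 0 ≤ κ := (abs_nonneg a).trans ha
  have key : ∀ x y : ℝ, |x| ≤ κ → |y| ≤ κ → |x * v.1 + y * v.2| ≤ 2 * κ * ‖v‖ := by
    intro x y hx hy
    refine (abs_add_le _ _).trans ?_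
    rw [abs_mul, abs_mul]
    have := mul_le_mul hx h1 (abs_nonneg _) hκ
    have := mul_le_mul hy h2 (abs_nonneg _) hκ
    linarith
  rw [Prod.norm_def]
  exact max_le (key _ _ ha hb) (key _ _ hc hd)

theorem ip_ev_ev (θ : ℝ) : ip (ev θ) (ev θ) = 1 := by
  simp only [ip, ev]
  nlinarith [Real.sin_sq_add_cos_sq (2 * Real.pi * θ)]

theorem ip_nv_nv (θ : ℝ) : ip (nv θ) (nv θ) = 1 := by
  simp only [ip, nv]
  nlinarith [Real.sin_sq_add_cos_sq (2 * Real.pi * θ)]

theorem ip_nv_ev (θ : ℝ) : ip (nv θ) (ev θ) = 0 := by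
  simp only [ip, nv, ev]; ring

theorem ip_ev_nv (θ : ℝ) : ip (ev θ) (nv θ) = 0 := by
  simp only [ip, nv, ev]; ring

theorem ip_add (a b c : P2) : ip (a + b) c = ip a c + ip b c := by
  simp only [ip, Prod.fst_add, Prod.snd_add]; ring

theorem ip_sub (a b c : P2) : ip (a - b) c = ip a c - ip b c := by
  simp only [ip, Prod.fst_sub, Prod.snd_sub]; ring

theorem ip_smul (t : ℝ) (a c : P2) : ip (t • a) c = t * ip a c := by
  simp only [ip, Prod.smul_fst, Prod.smul_snd, smul_eq_mul]; ring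

theorem ip_neg (a c : P2) : ip (-a) c = -ip a c := by
  simp only [ip, Prod.fst_neg, Prod.snd_neg]; ring

theorem frame_decomp (θ : ℝ) (v : P2) : v = ip v (nv θ) • nv θ + ip v (ev θ) • ev θ := by
  have h := Real.sin_sq_add_cos_sq (2 * Real.pi * θ)
  ext
  · simp only [ip, nv, ev, Prod.fst_add, Prod.smul_fst, smul_eq_mul]
    linear_combination (-v.1) * h
  · simp only [ip, nv, ev, Prod.snd_add, Prod.smul_snd, smul_eq_mul]
    linear_combination (-v.2) * h

theorem norm_ev_le (θ : ℝ) : ‖ev θ‖ ≤ 1 := by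
  rw [Prod.norm_def]
  simp only [ev, Real.norm_eq_abs, abs_neg]
  exact max_le (Real.abs_sin_le_one _) (Real.abs_cos_le_one _)

theorem norm_nv_le (θ : ℝ) : ‖nv θ‖ ≤ 1 := by
  rw [Prod.norm_def]
  simp only [nv, Real.norm_eq_abs]
  exact max_le (Real.abs_cos_le_one _) (Real.abs_sin_le_one _)

theorem ev_ne_zero (θ : ℝ) : ev θ ≠ 0 := by
  intro h
  have h1 := ip_ev_ev θ
  rw [h] at h1
  simp [ip] at h1

theorem norm_le_ip (θ : ℝ) (v : P2) : ‖v‖ ≤ |ip v (nv θ)| + |ip v (ev θ)| := by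
  calc ‖v‖ = ‖ip v (nv θ) • nv θ + ip v (ev θ) • ev θ‖ := by rw [← frame_decomp]
    _ ≤ ‖ip v (nv θ) • nv θ‖ + ‖ip v (ev θ) • ev θ‖ := norm_add_le _ _
    _ ≤ |ip v (nv θ)| + |ip v (ev θ)| := by
      rw [norm_smul, norm_smul, Real.norm_eq_abs, Real.norm_eq_abs]
      have h1 := mul_le_mul_of_nonneg_left (norm_nv_le θ) (abs_nonneg (ip v (nv θ)))
      have h2 := mul_le_mul_of_nonneg_left (norm_ev_le θ) (abs_nonneg (ip v (ev θ)))
      linarith

theorem continuous_ev : Continuous ev := by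
  unfold ev; fun_prop

theorem continuous_nv : Continuous nv := by
  unfold nv; fun_prop

theorem ev_add (θ φ : ℝ) :
    ev (θ + φ) = Real.cos (2 * Real.pi * φ) • ev θ - Real.sin (2 * Real.pi * φ) • nv θ := by
  ext
  · simp only [ev, nv, Prod.fst_sub, Prod.smul_fst, smul_eq_mul, mul_add, Real.sin_add]; ring
  · simp only [ev, nv, Prod.snd_sub, Prod.smul_snd, smul_eq_mul, mul_add, Real.cos_add]; ring

theorem nv_add (θ φ : ℝ) :
    nv (θ + φ) = Real.cos (2 * Real.pi * φ) • nv θ + Real.sin (2 * Real.pi * φ) • ev θ := by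
  ext
  · simp only [ev, nv, Prod.fst_add, Prod.smul_fst, smul_eq_mul, mul_add, Real.cos_add]; ring
  · simp only [ev, nv, Prod.snd_add, Prod.smul_snd, smul_eq_mul, mul_add, Real.sin_add]; ring

theorem ip_ev_nv' (θ θ' : ℝ) : ip (ev θ') (nv θ) = -Real.sin (2 * Real.pi * (θ' - θ)) := by
  simp only [ip, ev, nv, mul_sub, Real.sin_sub]; ring

theorem ip_ev_ev' (θ θ' : ℝ) : ip (ev θ') (ev θ) = Real.cos (2 * Real.pi * (θ' - θ)) := by
  simp only [ip, ev, mul_sub, Real.cos_sub]; ring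

/-- `sin` and `cos` are 1-Lipschitz, `2 π ≤ 7` -/
theorem norm_ev_sub_le (θ θ' : ℝ) : ‖ev θ - ev θ'‖ ≤ 7 * |θ - θ'| := by
  have h : |2 * Real.pi * θ - 2 * Real.pi * θ'| ≤ 7 * |θ - θ'| := by
    rw [← mul_sub]; exact Pl1_abs_two_pi _
  rw [Prod.norm_def]
  simp only [ev, Prod.fst_sub, Prod.snd_sub, Real.norm_eq_abs]
  refine max_le ?_ ((Real.abs_cos_sub_cos_le _ _).trans h)
  rw [show -Real.sin (2 * Real.pi * θ) - -Real.sin (2 * Real.pi * θ') =
    -(Real.sin (2 * Real.pi * θ) - Real.sin (2 * Real.pi * θ')) by ring, abs_neg]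
  exact (Real.abs_sin_sub_sin_le _ _).trans h

theorem abs_ip_ev_nv_le (θ θ' : ℝ) : |ip (ev θ') (nv θ)| ≤ 7 * |θ' - θ| := by
  rw [ip_ev_nv', abs_neg]
  exact Real.abs_sin_le_abs.trans (Pl1_abs_two_pi _)

theorem rlen_neg (T θ : ℝ) (q : P2) : rlen T θ (-q) = rlen T θ q := by
  simp only [rlen, ip_neg, abs_neg]

theorem rlen_smul {T : ℝ} (hT : 0 < T) (θ c : ℝ) (q : P2) :
    rlen T θ (c • q) = |c| * rlen T θ q := by
  simp only [rlen, ip_smul, abs_mul]
  rw [mul_max_of_nonneg _ _ (abs_nonneg c)]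
  congr 1 <;> ring

theorem rlen_sub_le {T : ℝ} (hT : 0 < T) (θ : ℝ) (a b : P2) :
    rlen T θ (a - b) ≤ rlen T θ a + rlen T θ b := by
  have a1 := Pl1_le_rlen1 T θ a
  have a2 := Pl1_le_rlen2 T θ a
  have b1 := Pl1_le_rlen1 T θ b
  have b2 := Pl1_le_rlen2 T θ b
  refine max_le ?_ ?_
  · rw [ip_sub]
    have := mul_le_mul_of_nonneg_left (abs_sub (ip a (nv θ)) (ip b (nv θ))) hT.le
    linarith
  · rw [ip_sub]
    have := div_le_div_of_nonneg_right (abs_sub (ip a (ev θ)) (ip b (ev θ))) hT.le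
    rw [add_div] at this
    linarith

theorem rlen_level {T Λ : ℝ} (hT : 0 < T) (hΛ : 1 ≤ Λ) (θ : ℝ) (q : P2) :
    rlen T θ q ≤ Λ * rlen (T * Λ) θ q := by
  have a1 := Pl1_le_rlen1 (T * Λ) θ q
  have a2 := Pl1_le_rlen2 (T * Λ) θ q
  have hΛ0 : 0 < Λ := by linarith
  refine max_le ?_ ?_
  · have h0 : 0 ≤ T * |ip q (nv θ)| := by positivity
    have h1 : T * |ip q (nv θ)| ≤ Λ * (T * Λ * |ip q (nv θ)|) := by
      have : 1 ≤ Λ * Λ := by nlinarith
      nlinarith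
    exact h1.trans (mul_le_mul_of_nonneg_left a1 hΛ0.le)
  · have h1 : |ip q (ev θ)| / T = Λ * (|ip q (ev θ)| / (T * Λ)) := by field_simp
    rw [h1]
    exact mul_le_mul_of_nonneg_left a2 hΛ0.le

/-- write `θ = θ' + φ`, `nv_add`, `ev_add` -/
theorem rlen_near {T A θ θ' : ℝ} (hT : 1 ≤ T) (hA : 0 ≤ A) (h : |θ' - θ| ≤ A / T ^ 2) (q : P2) :
    rlen T θ q ≤ (2 + 7 * A) * rlen T θ' q := by
  have hT0 : 0 < T := by linarith
  have a1 := Pl1_le_rlen1 T θ' q
  have a2 := Pl1_le_rlen2 T θ' q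
  obtain ⟨φ, rfl⟩ : ∃ φ, θ = θ' + φ := ⟨θ - θ', by ring⟩
  have hφ : |φ| ≤ A / T ^ 2 := by
    rwa [show θ' - (θ' + φ) = -φ by ring, abs_neg] at h
  have hs : |Real.sin (2 * Real.pi * φ)| ≤ 7 * (A / T ^ 2) :=
    (Real.abs_sin_le_abs.trans (Pl1_abs_two_pi _)).trans (by linarith)
  have hs1 := Real.abs_sin_le_one (2 * Real.pi * φ)
  have hc1 := Real.abs_cos_le_one (2 * Real.pi * φ)
  have e1 : ip q (nv (θ' + φ)) = Real.cos (2 * Real.pi * φ) * ip q (nv θ') +
      Real.sin (2 * Real.pi * φ) * ip q (ev θ') := by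
    rw [nv_add]; simp only [ip, Prod.fst_add, Prod.snd_add, Prod.smul_fst, Prod.smul_snd,
      smul_eq_mul]; ring
  have e2 : ip q (ev (θ' + φ)) = Real.cos (2 * Real.pi * φ) * ip q (ev θ') -
      Real.sin (2 * Real.pi * φ) * ip q (nv θ') := by
    rw [ev_add]; simp only [ip, Prod.fst_sub, Prod.snd_sub, Prod.smul_fst, Prod.smul_snd,
      smul_eq_mul]; ring
  set x := ip q (nv θ')
  set y := ip q (ev θ')
  set r := rlen T θ' q
  have hx := abs_nonneg x
  have hy := abs_nonneg y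
  have hr : 0 ≤ r := le_trans (by positivity) a1
  refine max_le ?_ ?_
  · rw [e1]
    have h1 : |Real.cos (2 * Real.pi * φ) * x + Real.sin (2 * Real.pi * φ) * y| ≤
        |x| + 7 * (A / T ^ 2) * |y| := by
      refine (abs_add_le _ _).trans ?_
      rw [abs_mul, abs_mul]
      have := mul_le_mul_of_nonneg_right hc1 hx
      have := mul_le_mul_of_nonneg_right hs hy
      linarith
    have h2 : T * (|x| + 7 * (A / T ^ 2) * |y|) = T * |x| + 7 * A * (|y| / T) := by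
      field_simp
    have h3 := mul_le_mul_of_nonneg_left h1 hT0.le
    have h4 := mul_le_mul_of_nonneg_left a2 (by positivity : 0 ≤ 7 * A)
    nlinarith
  · rw [e2]
    have h1 : |Real.cos (2 * Real.pi * φ) * y - Real.sin (2 * Real.pi * φ) * x| ≤ |y| + |x| := by
      refine (abs_sub _ _).trans ?_
      rw [abs_mul, abs_mul]
      have := mul_le_mul_of_nonneg_right hc1 hy
      have := mul_le_mul_of_nonneg_right hs1 hx
      linarith
    have h2 := div_le_div_of_nonneg_right h1 hT0.le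
    rw [add_div] at h2
    have h3 : |x| / T ≤ T * |x| := by
      rw [div_le_iff₀ hT0]
      have : 1 ≤ T * T := by nlinarith
      nlinarith
    have h4 : 0 ≤ 7 * A * r := by positivity
    nlinarith

theorem norm_le_rlen_one (θ : ℝ) (q : P2) : ‖q‖ ≤ 2 * rlen 1 θ q := by
  have a1 := Pl1_le_rlen1 1 θ q
  have a2 := Pl1_le_rlen2 1 θ q
  have := norm_le_ip θ q
  rw [one_mul] at a1
  rw [div_one] at a2
  linarith

theorem continuous_rlen (T : ℝ) (q : P2) : Continuous fun θ => rlen T θ q := by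
  unfold rlen ip ev nv
  fun_prop

theorem convex_rlen_lt {T : ℝ} (hT : 0 < T) (θ ε : ℝ) : Convex ℝ {v | rlen T θ v < ε} := by
  intro a ha b hb s t hs ht hst
  simp only [mem_ofPred_eq] at ha hb ⊢
  have h1 : s • a + t • b = s • a - (-t) • b := by rw [neg_smul, sub_neg_eq_add]
  have h2 := rlen_sub_le hT θ (s • a) ((-t) • b)
  rw [rlen_smul hT, rlen_smul hT, abs_neg, abs_of_nonneg hs, abs_of_nonneg ht] at h2
  rw [h1]
  refine h2.trans_lt ?_
  rcases hs.eq_or_lt with h0 | h0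
  · have : t = 1 := by linarith
    rw [← h0, this]; linarith
  · have := mul_lt_mul_of_pos_left ha h0
    have := mul_le_mul_of_nonneg_left hb.le ht
    have e : s * ε + t * ε = ε := by rw [← add_mul, hst, one_mul]
    linarith

/-- `v ↦ (v.1 / T) • nv θ + (v.2 * T) • ev θ` -/
noncomputable def ren (T θ : ℝ) (hT : 0 < T) : P2 ≃L[ℝ] P2 :=
  sl (Real.cos (2 * Real.pi * θ) / T) (-(Real.sin (2 * Real.pi * θ) * T))
    (Real.sin (2 * Real.pi * θ) / T) (Real.cos (2 * Real.pi * θ) * T)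
    (by field_simp; nlinarith [Real.sin_sq_add_cos_sq (2 * Real.pi * θ)])

theorem ren_apply {T : ℝ} (θ : ℝ) (hT : 0 < T) (v : P2) :
    ren T θ hT v = (v.1 / T) • nv θ + (v.2 * T) • ev θ := by
  ext
  · change _ * v.1 + _ * v.2 = _
    simp only [ev, nv, Prod.fst_add, Prod.smul_fst, smul_eq_mul]; ring
  · change _ * v.1 + _ * v.2 = _
    simp only [ev, nv, Prod.snd_add, Prod.smul_snd, smul_eq_mul]; ring

theorem norm_ren_symm {T : ℝ} (θ : ℝ) (hT : 0 < T) (q : P2) :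
    ‖(ren T θ hT).symm q‖ = rlen T θ q := by
  have e : (ren T θ hT).symm q = (T * ip q (nv θ), ip q (ev θ) / T) := by
    ext
    · change _ * q.1 - _ * q.2 = _
      simp only [ip, nv]; ring
    · change -_ * q.1 + _ * q.2 = _
      simp only [ip, ev]; ring
  rw [e, Prod.norm_def]
  simp only [rlen, Real.norm_eq_abs, abs_mul, abs_div, abs_of_pos hT]

/-- `v ↦ (v.1 / T + u T v.2, T v.2)` -/
noncomputable def shr (T u : ℝ) (hT : 0 < T) : P2 ≃L[ℝ] P2 :=
  sl (1 / T) (u * T) 0 T (by field_simp; ring)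

theorem norm_shr_symm {T : ℝ} (u : ℝ) (hT : 0 < T) (q : P2) :
    ‖(shr T u hT).symm q‖ = slen T u q := by
  have e : (shr T u hT).symm q = (T * (q.1 - u * q.2), q.2 / T) := by
    ext
    · change _ * q.1 - _ * q.2 = _
      ring
    · change -_ * q.1 + _ * q.2 = _
      ring
  rw [e, Prod.norm_def]
  simp only [slen, Real.norm_eq_abs, abs_mul, abs_div, abs_of_pos hT]

theorem sl_apply (a b c d : ℝ) (h : a * d - b * c = 1) (v : P2) :
    sl a b c d h v = (a * v.1 + b * v.2, c * v.1 + d * v.2) := rfl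

theorem sl_symm_apply (a b c d : ℝ) (h : a * d - b * c = 1) (v : P2) :
    (sl a b c d h).symm v = (d * v.1 - b * v.2, -c * v.1 + a * v.2) := rfl

/-- `Measure.map_linearMap_addHaar_eq_smul_addHaar` with determinant computed in the basis
`Basis.finTwoProd ℝ` (`LinearMap.det_toMatrix`, `Matrix.det_fin_two`). -/
theorem sl_mp (a b c d : ℝ) (h : a * d - b * c = 1) :
    MeasurePreserving (sl a b c d h) volume volume := by
  have hd : LinearMap.det ((sl a b c d h).toLinearEquiv : P2 →ₗ[ℝ] P2) = 1 := by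
    rw [← LinearMap.det_toMatrix (Module.Basis.finTwoProd ℝ), Matrix.det_fin_two]
    simp [LinearMap.toMatrix_apply, sl_apply]
    linarith
  refine ⟨(sl a b c d h).continuous.measurable, ?_⟩
  have := Measure.map_linearMap_addHaar_eq_smul_addHaar (volume : Measure P2)
    (f := ((sl a b c d h).toLinearEquiv : P2 →ₗ[ℝ] P2)) (by rw [hd]; exact one_ne_zero)
  rw [hd] at this
  simpa using this

theorem det2_eq_zero {a b : P2} (ha : a ≠ 0) (h : det2 a b = 0) : ∃ t : ℝ, b = t • a := by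
  have hN := Pl1_sq_pos ha
  unfold det2 at h
  refine ⟨(a.1 * b.1 + a.2 * b.2) / (a.1 ^ 2 + a.2 ^ 2), ?_⟩
  ext
  · simp only [Prod.smul_fst, smul_eq_mul]
    field_simp
    linear_combination (-a.2) * h
  · simp only [Prod.smul_snd, smul_eq_mul]
    field_simp
    linear_combination a.1 * h

theorem det2_smul_self (a : P2) (t : ℝ) : det2 a (t • a) = 0 := by
  simp only [det2, Prod.smul_fst, Prod.smul_snd, smul_eq_mul]; ring

theorem Pl1_det_map (L : P2 ≃L[ℝ] P2) (a b : P2) (h : det2 a b = 0) : det2 (L a) (L b) = 0 := by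
  by_cases ha : a = 0
  · simp [ha, det2]
  · obtain ⟨t, rfl⟩ := det2_eq_zero ha h
    rw [map_smul, det2_smul_self]

theorem det2_map_ne_zero (L : P2 ≃L[ℝ] P2) (a b : P2) : det2 (L a) (L b) ≠ 0 ↔ det2 a b ≠ 0 := by
  refine not_congr ⟨fun h => ?_, Pl1_det_map L a b⟩
  have := Pl1_det_map L.symm _ _ h
  simpa using this

/-- coordinates in a basis -/
theorem exists_coords {a b : P2} (h : det2 a b ≠ 0) (v : P2) : ∃ s t : ℝ, v = s • a + t • b := by
  refine ⟨det2 v b / det2 a b, det2 a v / det2 a b, ?_⟩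
  ext
  · simp only [Prod.fst_add, Prod.smul_fst, smul_eq_mul]
    field_simp
    simp only [det2]; ring
  · simp only [Prod.snd_add, Prod.smul_snd, smul_eq_mul]
    field_simp
    simp only [det2]; ring

theorem coords_unique {a b : P2} (h : det2 a b ≠ 0) {s t s' t' : ℝ}
    (he : s • a + t • b = s' • a + t' • b) : s = s' ∧ t = t' := by
  have h1 := congrArg Prod.fst he
  have h2 := congrArg Prod.snd he
  simp only [Prod.fst_add, Prod.snd_add, Prod.smul_fst, Prod.smul_snd, smul_eq_mul] at h1 h2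
  constructor
  · apply mul_right_cancel₀ h
    simp only [det2]
    linear_combination b.2 * h1 - b.1 * h2
  · apply mul_right_cancel₀ h
    simp only [det2]
    linear_combination a.1 * h2 - a.2 * h1

/-- a contraction by the factor `κ` in the direction of `q`: for the inverse map take
`a = (q.1²/κ + κ q.2²)/|q|²`, `b = c = q.1 q.2 (1/κ - κ)/|q|²`, `d = (q.2²/κ + κ q.1²)/|q|²`; all entries are
at most `κ` in absolute value. -/
theorem exists_contraction {q : P2} (hq : q ≠ 0) {κ : ℝ} (hκ : 1 ≤ κ) :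
    ∃ B : P2 ≃L[ℝ] P2, MeasurePreserving B volume volume ∧ B.symm q = κ⁻¹ • q ∧
      ∀ v, ‖B v‖ ≤ 2 * κ * ‖v‖ ∧ ‖B.symm v‖ ≤ 2 * κ * ‖v‖ := by
  have hN := Pl1_sq_pos hq
  have hκ0 : 0 < κ := by linarith
  have hi : 1 / κ ≤ κ := by
    rw [div_le_iff₀ hκ0]; nlinarith
  have hi0 : 0 < 1 / κ := by positivity
  obtain ⟨a, ha⟩ : ∃ a, a = (q.1 ^ 2 / κ + κ * q.2 ^ 2) / (q.1 ^ 2 + q.2 ^ 2) := ⟨_, rfl⟩
  obtain ⟨b, hb⟩ : ∃ b, b = q.1 * q.2 * (1 / κ - κ) / (q.1 ^ 2 + q.2 ^ 2) := ⟨_, rfl⟩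
  obtain ⟨d, hd⟩ : ∃ d, d = (q.2 ^ 2 / κ + κ * q.1 ^ 2) / (q.1 ^ 2 + q.2 ^ 2) := ⟨_, rfl⟩
  have hdet : d * a - -b * -b = 1 := by
    rw [ha, hb, hd]; field_simp; ring
  have diag : ∀ x y : ℝ, 0 < x ^ 2 + y ^ 2 →
      |(x ^ 2 / κ + κ * y ^ 2) / (x ^ 2 + y ^ 2)| ≤ κ := by
    intro x y hxy
    rw [abs_of_nonneg (by positivity), div_le_iff₀ hxy]
    have : x ^ 2 / κ ≤ κ * x ^ 2 := by
      rw [div_eq_mul_one_div, mul_comm]
      exact mul_le_mul_of_nonneg_right hi (sq_nonneg x)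
    linarith
  have ba : |a| ≤ κ := ha ▸ diag _ _ hN
  have bd : |d| ≤ κ := by
    rw [hd, add_comm (q.1 ^ 2)]
    exact diag _ _ (by linarith)
  have bb : |b| ≤ κ := by
    rw [hb, abs_div, abs_of_pos hN, div_le_iff₀ hN, abs_mul]
    have h1 : |1 / κ - κ| ≤ κ := abs_le.mpr ⟨by linarith, by linarith⟩
    have h2 : |q.1 * q.2| ≤ q.1 ^ 2 + q.2 ^ 2 :=
      abs_le.mpr ⟨by nlinarith [sq_nonneg (q.1 + q.2)], by nlinarith [sq_nonneg (q.1 - q.2)]⟩
    calc _ ≤ (q.1 ^ 2 + q.2 ^ 2) * κ := mul_le_mul h2 h1 (abs_nonneg _) hN.le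
      _ = _ := mul_comm _ _
  refine ⟨sl d (-b) (-b) a hdet, sl_mp _ _ _ _ _, ?_, fun v => ⟨?_, ?_⟩⟩
  · rw [sl_symm_apply]
    ext
    · simp only [Prod.smul_fst, smul_eq_mul]
      rw [ha, hb]; field_simp; ring
    · simp only [Prod.smul_snd, smul_eq_mul]
      rw [hd, hb]; field_simp; ring
  · rw [sl_apply]
    exact Pl1_mat_bound bd (by rwa [abs_neg]) (by rwa [abs_neg]) ba v
  · rw [sl_symm_apply, neg_neg, neg_mul, sub_neg_eq_add]
    exact Pl1_mat_bound ba bb bb bd v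

end Pool.Agent.MP_b29402_an

end

-- part MP_b29402_an.Pl2
section

/-! Plane geometry: rectangles, triangles, volumes. -/

open MeasureTheory Set Filter Topology ProbabilityTheory
open scoped ComplexConjugate ENNReal

namespace Pool.Agent.MP_b29402_an

theorem Pl2_ge {a x y s t : ℝ} (hs : 0 ≤ s) (ht : 0 ≤ t) (hst : s + t = 1) (hx : a ≤ x)
    (hy : a ≤ y) : a ≤ s * x + t * y := by
  have h1 := mul_le_mul_of_nonneg_left hx hs
  have h2 := mul_le_mul_of_nonneg_left hy ht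
  have h3 : s * a + t * a = a := by rw [← add_mul, hst, one_mul]
  linarith

theorem Pl2_le {a x y s t : ℝ} (hs : 0 ≤ s) (ht : 0 ≤ t) (hst : s + t = 1) (hx : x ≤ a)
    (hy : y ≤ a) : s * x + t * y ≤ a := by
  have h1 := mul_le_mul_of_nonneg_left hx hs
  have h2 := mul_le_mul_of_nonneg_left hy ht
  have h3 : s * a + t * a = a := by rw [← add_mul, hst, one_mul]
  linarith

theorem Pl2_lt {a x y s t : ℝ} (hs : 0 ≤ s) (ht : 0 ≤ t) (hst : s + t = 1) (hx : x < a)
    (hy : y < a) : s * x + t * y < a :=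
  (Pl2_le hs ht hst (le_max_left x y) (le_max_right x y)).trans_lt (max_lt hx hy)

theorem convex_rect (θ a b c d : ℝ) : Convex ℝ (rect θ a b c d) := by
  rintro x ⟨x1, x2, x3, x4⟩ y ⟨y1, y2, y3, y4⟩ s t hs ht hst
  simp only [rect, mem_ofPred_eq, ip_add, ip_smul]
  exact ⟨Pl2_ge hs ht hst x1 y1, Pl2_le hs ht hst x2 y2, Pl2_ge hs ht hst x3 y3,
    Pl2_le hs ht hst x4 y4⟩

theorem measurableSet_rect (θ a b c d : ℝ) : MeasurableSet (rect θ a b c d) := by
  have h : ∀ w : P2, Measurable fun v : P2 => ip v w := fun w => by unfold ip; fun_prop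
  exact (measurableSet_le measurable_const (h _)).inter
    ((measurableSet_le (h _) measurable_const).inter
      ((measurableSet_le measurable_const (h _)).inter (measurableSet_le (h _) measurable_const)))

theorem Pl2_ren (θ : ℝ) (v : P2) : ren 1 θ one_pos v = v.1 • nv θ + v.2 • ev θ := by
  rw [ren_apply, div_one, mul_one]

theorem Pl2_pre (θ a b c d : ℝ) :
    ren 1 θ one_pos ⁻¹' rect θ a b c d = Icc a b ×ˢ Icc c d := by
  ext v
  simp only [mem_preimage, rect, mem_ofPred_eq, Pl2_ren, ip_add, ip_smul, ip_nv_nv, ip_ev_nv,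
    ip_nv_ev, ip_ev_ev, mul_one, mul_zero, add_zero, zero_add, mem_prod, mem_Icc, and_assoc]

theorem Pl2_mp (θ : ℝ) : MeasurePreserving (ren 1 θ one_pos) volume volume := sl_mp _ _ _ _ _

theorem Pl2_vol (θ a b c d : ℝ) :
    volume (rect θ a b c d) = ENNReal.ofReal (b - a) * ENNReal.ofReal (d - c) := by
  rw [← (Pl2_mp θ).measure_preimage (measurableSet_rect θ a b c d).nullMeasurableSet, Pl2_pre,
    Measure.volume_eq_prod, Measure.prod_prod, Real.volume_Icc, Real.volume_Icc]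

theorem rect_eq_image (θ a b c d : ℝ) :
    rect θ a b c d = ren 1 θ one_pos '' (Icc a b ×ˢ Icc c d) := by
  rw [← Pl2_pre θ, image_preimage_eq _ (ren 1 θ one_pos).surjective]

theorem volume_rect (θ : ℝ) {a b c d : ℝ} (hab : a ≤ b) (hcd : c ≤ d) :
    volume.real (rect θ a b c d) = (b - a) * (d - c) := by
  rw [measureReal_def, Pl2_vol, ENNReal.toReal_mul, ENNReal.toReal_ofReal (sub_nonneg.2 hab),
    ENNReal.toReal_ofReal (sub_nonneg.2 hcd)]

theorem volume_rect_ne_top (θ a b c d : ℝ) : volume (rect θ a b c d) ≠ ∞ := by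
  rw [Pl2_vol]
  exact ENNReal.mul_ne_top ENNReal.ofReal_ne_top ENNReal.ofReal_ne_top

/-- change of variables by the rotation `ren 1 θ` and Fubini -/
theorem integral_rect (θ : ℝ) {a b c d : ℝ} (hab : a ≤ b) (hcd : c ≤ d) {F : P2 → ℝ}
    (hF : IntegrableOn F (rect θ a b c d)) :
    ∫ v in rect θ a b c d, F v = ∫ r in a..b, ∫ s in c..d, F (r • nv θ + s • ev θ) := by
  have he : MeasurableEmbedding (ren 1 θ one_pos) :=
    (ren 1 θ one_pos).toHomeomorph.measurableEmbedding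
  have h1 := ((Pl2_mp θ).integrableOn_comp_preimage he).2 hF
  rw [← (Pl2_mp θ).setIntegral_preimage_emb he F]
  rw [Pl2_pre, Measure.volume_eq_prod] at h1 ⊢
  refine (setIntegral_prod _ h1).trans ?_
  rw [intervalIntegral.integral_of_le hab, integral_Icc_eq_integral_Ioc]
  refine integral_congr_ae (ae_of_all _ fun r => ?_)
  simp only [Function.comp, Pl2_ren]
  rw [intervalIntegral.integral_of_le hcd, integral_Icc_eq_integral_Ioc]

theorem convex_ctri (a b p : P2) : Convex ℝ (ctri a b p) := by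
  rintro _ ⟨α, β, γ, h1, h2, h3, h4, rfl⟩ _ ⟨α', β', γ', k1, k2, k3, k4, rfl⟩ s t hs ht hst
  refine ⟨s * α + t * α', s * β + t * β', s * γ + t * γ', by positivity, by positivity,
    by positivity, by linear_combination s * h4 + t * k4 + hst, by module⟩

theorem convex_tri (a b p : P2) : Convex ℝ (tri a b p) := by
  rintro _ ⟨α, β, γ, h1, h2, h3, h5, h6, h7, h4, rfl⟩ _
    ⟨α', β', γ', k1, k2, k3, k5, k6, k7, k4, rfl⟩ s t hs ht hst
  refine ⟨s * α + t * α', s * β + t * β', s * γ + t * γ', by positivity, by positivity,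
    by positivity, Pl2_lt hs ht hst h5 k5, Pl2_lt hs ht hst h6 k6, Pl2_lt hs ht hst h7 k7,
    by linear_combination s * h4 + t * k4 + hst, by module⟩

theorem isCompact_ctri (a b p : P2) : IsCompact (ctri a b p) := by
  have e : ctri a b p = (fun z : ℝ × ℝ => z.1 • a + z.2 • b + (1 - z.1 - z.2) • p) ''
      ((Icc 0 1 ×ˢ Icc 0 1) ∩ {z : ℝ × ℝ | z.1 + z.2 ≤ 1}) := by
    ext c
    constructor
    · rintro ⟨α, β, γ, h1, h2, h3, h4, rfl⟩
      refine ⟨(α, β), ⟨⟨⟨h1, ?_⟩, h2, ?_⟩, ?_⟩, ?_⟩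
      · change α ≤ 1; linarith
      · change β ≤ 1; linarith
      · change α + β ≤ 1; linarith
      · have : 1 - α - β = γ := by linarith
        simp only [this]
    · rintro ⟨⟨α, β⟩, ⟨⟨⟨h1, -⟩, h2, -⟩, h3⟩, rfl⟩
      change α + β ≤ 1 at h3
      exact ⟨α, β, 1 - α - β, h1, h2, by linarith, by ring, rfl⟩
  rw [e]
  exact ((isCompact_Icc.prod isCompact_Icc).inter_right
    (isClosed_le (by fun_prop) continuous_const)).image (by fun_prop)

theorem tri_subset_ctri (a b p : P2) : tri a b p ⊆ ctri a b p := by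
  rintro _ ⟨α, β, γ, h1, h2, h3, -, -, -, h4, rfl⟩
  exact ⟨α, β, γ, h1, h2, h3, h4, rfl⟩

theorem left_mem_ctri (a b p : P2) : a ∈ ctri a b p :=
  ⟨1, 0, 0, zero_le_one, le_rfl, le_rfl, by ring, by module⟩

theorem mid_mem_ctri (a b p : P2) : b ∈ ctri a b p :=
  ⟨0, 1, 0, le_rfl, zero_le_one, le_rfl, by ring, by module⟩

theorem right_mem_ctri (a b p : P2) : p ∈ ctri a b p :=
  ⟨0, 0, 1, le_rfl, le_rfl, zero_le_one, by ring, by module⟩

theorem ctri_subset {K : Set P2} (hK : Convex ℝ K) {a b p : P2} (ha : a ∈ K) (hb : b ∈ K)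
    (hp : p ∈ K) : ctri a b p ⊆ K := by
  rintro _ ⟨α, β, γ, h1, h2, h3, h4, rfl⟩
  have := hK.sum_mem (t := (Finset.univ : Finset (Fin 3))) (w := ![α, β, γ]) (z := ![a, b, p])
    (fun i _ => by fin_cases i <;> assumption) (by simpa [Fin.sum_univ_three] using h4)
    (fun i _ => by fin_cases i <;> assumption)
  simpa [Fin.sum_univ_three] using this

theorem eq_vertex_of_not_mem_tri {a b p c : P2} (h : c ∈ ctri a b p) (h' : c ∉ tri a b p) :
    c = a ∨ c = b ∨ c = p := by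
  obtain ⟨α, β, γ, h1, h2, h3, h4, rfl⟩ := h
  by_cases k1 : α < 1
  · by_cases k2 : β < 1
    · by_cases k3 : γ < 1
      · exact absurd ⟨α, β, γ, h1, h2, h3, k1, k2, k3, h4, rfl⟩ h'
      · obtain rfl : α = 0 := by linarith
        obtain rfl : β = 0 := by linarith
        obtain rfl : γ = 1 := by linarith
        simp
    · obtain rfl : α = 0 := by linarith
      obtain rfl : γ = 0 := by linarith
      obtain rfl : β = 1 := by linarith
      simp
  · obtain rfl : β = 0 := by linarith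
    obtain rfl : γ = 0 := by linarith
    obtain rfl : α = 1 := by linarith
    simp

theorem tri_toward {a b p c w : P2} (hc : c ∈ tri a b p) (hw : w ∈ ctri a b p) {t : ℝ}
    (h0 : 0 ≤ t) (h1 : t < 1) : c + t • (w - c) ∈ tri a b p := by
  obtain ⟨α, β, γ, a1, a2, a3, a5, a6, a7, a4, rfl⟩ := hc
  obtain ⟨α', β', γ', b1, b2, b3, b4, rfl⟩ := hw
  have ht : 0 < 1 - t := by linarith
  have key : ∀ x y : ℝ, x < 1 → y ≤ 1 → (1 - t) * x + t * y < 1 := fun x y hx hy => by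
    have := mul_lt_mul_of_pos_left hx ht
    have := mul_le_mul_of_nonneg_left hy h0
    linarith
  exact ⟨(1 - t) * α + t * α', (1 - t) * β + t * β', (1 - t) * γ + t * γ', by positivity,
    by positivity, by positivity, key _ _ a5 (by linarith), key _ _ a6 (by linarith),
    key _ _ a7 (by linarith), by linear_combination (1 - t) * a4 + t * b4, by module⟩

theorem norm_le_of_mem_ctri {a b p c : P2} {M : ℝ} (h : c ∈ ctri a b p) (ha : ‖a‖ ≤ M)
    (hb : ‖b‖ ≤ M) (hp : ‖p‖ ≤ M) : ‖c‖ ≤ M :=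
  mem_closedBall_zero_iff.1 (ctri_subset (convex_closedBall 0 M) (mem_closedBall_zero_iff.2 ha)
    (mem_closedBall_zero_iff.2 hb) (mem_closedBall_zero_iff.2 hp) h)

theorem Pl2_small {q p : P2} (h : 0 < det2 q p) {ε : ℝ} (hε : 0 < ε) :
    ∃ δ : ℝ, 0 < δ ∧ ∀ a : P2, ‖a‖ < δ → ∃ s t : ℝ, |s| < ε ∧ |t| < ε ∧
      t = det2 q a / det2 q p ∧ a = s • q + t • p := by
  have hc : Continuous fun a : P2 => (det2 a p / det2 q p, det2 q a / det2 q p) := by
    unfold det2; fun_prop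
  obtain ⟨δ, hδ, H⟩ := Metric.continuousAt_iff.1 (hc.continuousAt (x := 0)) ε hε
  refine ⟨δ, hδ, fun a ha => ?_⟩
  have h1 := H (x := a) (by rwa [dist_zero_right])
  have e1 : det2 0 p = 0 := by simp [det2]
  have e2 : det2 q 0 = 0 := by simp [det2]
  rw [e1, e2, zero_div, Prod.dist_eq, max_lt_iff, dist_zero_right, dist_zero_right] at h1
  refine ⟨_, _, h1.1, h1.2, rfl, ?_⟩
  have h0 := h.ne'
  ext
  · simp only [Prod.fst_add, Prod.smul_fst, smul_eq_mul]
    field_simp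
    unfold det2
    ring
  · simp only [Prod.snd_add, Prod.smul_snd, smul_eq_mul]
    field_simp
    unfold det2
    ring

/-- a point of the base of a nondegenerate triangle has a half neighbourhood in the triangle -/
theorem half_ball_subset_tri {q p : P2} (h : 0 < det2 q p) {τ : ℝ} (hτ : |τ| < 1) :
    ∃ δ : ℝ, 0 < δ ∧ ∀ a : P2, ‖a‖ < δ → 0 ≤ det2 q a → τ • q + a ∈ tri (-q) q p := by
  obtain ⟨δ, hδ, H⟩ := Pl2_small h (ε := (1 - |τ|) / 2) (by linarith)
  refine ⟨δ, hδ, fun a ha h0 => ?_⟩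
  obtain ⟨s, t, hs, ht, e1, e2⟩ := H a ha
  have t0 : 0 ≤ t := e1 ▸ div_nonneg h0 h.le
  obtain ⟨s1, s2⟩ := abs_lt.1 hs
  obtain ⟨t1, t2⟩ := abs_lt.1 ht
  have := le_abs_self τ
  have := neg_abs_le τ
  have := abs_nonneg τ
  refine ⟨(1 - t - τ - s) / 2, (1 - t + τ + s) / 2, t, by linarith, by linarith, t0, by linarith,
    by linarith, by linarith, by ring, ?_⟩
  rw [e2]
  module

/-- an interior point of a nondegenerate triangle has a neighbourhood in the triangle -/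
theorem ball_subset_tri {q p : P2} (h : 0 < det2 q p) {α β γ : ℝ} (hα : 0 < α) (hβ : 0 < β)
    (hγ : 0 < γ) (hs : α + β + γ = 1) :
    ∃ δ : ℝ, 0 < δ ∧ ∀ a : P2, ‖a‖ < δ → α • (-q) + β • q + γ • p + a ∈ tri (-q) q p := by
  obtain ⟨δ, hδ, H⟩ := Pl2_small h (ε := min α (min β γ)) (by positivity)
  refine ⟨δ, hδ, fun a ha => ?_⟩
  obtain ⟨s, t, hs', ht, -, e2⟩ := H a ha
  obtain ⟨s1, s2⟩ := abs_lt.1 hs'
  obtain ⟨t1, t2⟩ := abs_lt.1 ht
  have m1 := min_le_left α (min β γ)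
  have m2 := (min_le_right α (min β γ)).trans (min_le_left β γ)
  have m3 := (min_le_right α (min β γ)).trans (min_le_right β γ)
  refine ⟨α - s / 2 - t / 2, β + s / 2 - t / 2, γ + t, by linarith, by linarith, by linarith,
    by linarith, by linarith, by linarith, by linarith, ?_⟩
  rw [e2]
  module

/-- the open convex neighbourhood of a segment -/
theorem exists_tube {U : Set P2} (hU : IsOpen U) {v : P2}
    (h : ∀ t : ℝ, 0 ≤ t → t ≤ 1 → t • v ∈ U) :
    ∃ δ : ℝ, 0 < δ ∧ {w | ∃ t : ℝ, 0 ≤ t ∧ t ≤ 1 ∧ ‖w - t • v‖ < δ} ⊆ U := by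
  have hK : IsCompact ((fun t : ℝ => t • v) '' Icc 0 1) := isCompact_Icc.image (by fun_prop)
  obtain ⟨δ, hδ, H⟩ := hK.exists_thickening_subset_open hU (by
    rintro _ ⟨t, ht, rfl⟩
    exact h t ht.1 ht.2)
  refine ⟨δ, hδ, ?_⟩
  rintro w ⟨t, h0, h1, hw⟩
  exact H (Metric.mem_thickening_iff.2 ⟨t • v, ⟨t, ⟨h0, h1⟩, rfl⟩, by rwa [dist_eq_norm]⟩)

theorem convex_tube (v : P2) (δ : ℝ) :
    Convex ℝ {w : P2 | ∃ t : ℝ, 0 ≤ t ∧ t ≤ 1 ∧ ‖w - t • v‖ < δ} := by
  rintro x ⟨r, r0, r1, hx⟩ y ⟨u, u0, u1, hy⟩ s t hs ht hst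
  refine ⟨s * r + t * u, by positivity, Pl2_le hs ht hst r1 u1, ?_⟩
  have e : s • x + t • y - (s * r + t * u) • v = s • (x - r • v) + t • (y - u • v) := by module
  rw [e]
  exact mem_ball_zero_iff.1 (convex_ball 0 δ (mem_ball_zero_iff.2 hx) (mem_ball_zero_iff.2 hy)
    hs ht hst)

theorem volume_line (v : P2) : volume (range fun t : ℝ => t • v) = 0 := by
  have e : (range fun t : ℝ => t • v) = (Submodule.span ℝ {v} : Submodule ℝ P2) := by
    ext w
    simp [Submodule.mem_span_singleton]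
  rw [e]
  refine Measure.addHaar_submodule _ _ fun h => ?_
  obtain ⟨s, hs⟩ := Submodule.mem_span_singleton.1 (h ▸ Submodule.mem_top (x := ((1, 0) : P2)))
  obtain ⟨t, ht⟩ := Submodule.mem_span_singleton.1 (h ▸ Submodule.mem_top (x := ((0, 1) : P2)))
  have s1 : s * v.1 = 1 := congrArg Prod.fst hs
  have s2 : s * v.2 = 0 := congrArg Prod.snd hs
  have t1 : t * v.1 = 0 := congrArg Prod.fst ht
  have t2 : t * v.2 = 1 := congrArg Prod.snd ht
  have : (s * v.1) * (t * v.2) = (s * v.2) * (t * v.1) := by ring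
  rw [s1, s2, t1, t2] at this
  norm_num at this

theorem volume_ball_P2 (a : P2) {r : ℝ} (hr : 0 ≤ r) :
    volume (Metric.ball a r) = ENNReal.ofReal (4 * r ^ 2) := by
  obtain ⟨x, y⟩ := a
  rw [← ball_prod_same, Measure.volume_eq_prod, Measure.prod_prod, Real.volume_ball,
    Real.volume_ball, ← ENNReal.ofReal_mul (by positivity)]
  congr 1
  ring

theorem volume_closedBall_P2 (a : P2) {r : ℝ} (hr : 0 ≤ r) :
    volume (Metric.closedBall a r) = ENNReal.ofReal (4 * r ^ 2) := by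
  obtain ⟨x, y⟩ := a
  rw [← closedBall_prod_same, Measure.volume_eq_prod, Measure.prod_prod, Real.volume_closedBall,
    Real.volume_closedBall, ← ENNReal.ofReal_mul (by positivity)]
  congr 1
  ring

/-- write `w = r • ev θ0`, or: the zero set of `θ ↦ a cos (2πθ) + b sin (2πθ)`; two zeros differ by a
multiple of `1/2` (`Real.sin_eq_zero_iff`) -/
theorem countable_dir {w : P2} (hw : w ≠ 0) : {θ : ℝ | det2 (ev θ) w = 0}.Countable := by
  rcases {θ : ℝ | det2 (ev θ) w = 0}.eq_empty_or_nonempty with h | ⟨θ0, h0⟩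
  · rw [h]; exact countable_empty
  refine (countable_range fun n : ℤ => θ0 + n / 2).mono fun θ h => ?_
  simp only [mem_ofPred_eq, det2, ev] at h h0
  have hs : Real.sin (2 * Real.pi * θ - 2 * Real.pi * θ0) = 0 := by
    rw [Real.sin_sub]
    by_contra hne
    refine hw (Prod.ext ?_ ?_)
    · refine (mul_eq_zero.1 ?_).resolve_left hne
      linear_combination Real.sin (2 * Real.pi * θ0) * h - Real.sin (2 * Real.pi * θ) * h0
    · refine (mul_eq_zero.1 ?_).resolve_left hne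
      linear_combination Real.cos (2 * Real.pi * θ) * h0 - Real.cos (2 * Real.pi * θ0) * h
  obtain ⟨n, hn⟩ := Real.sin_eq_zero_iff.1 hs
  refine ⟨n, mul_left_cancel₀ Real.pi_ne_zero ?_⟩
  linear_combination hn / 2

/-- finitely many nonzero vectors miss a direction -/
theorem exists_transverse (s : Finset P2) (hs : ∀ q ∈ s, q ≠ 0) :
    ∃ n : P2, ∀ q ∈ s, det2 q n ≠ 0 := by
  have hc : (⋃ q ∈ (s : Set P2), {θ : ℝ | det2 (ev θ) q = 0}).Countable :=
    s.countable_toSet.biUnion fun q hq => countable_dir (hs q hq)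
  obtain ⟨θ, hθ⟩ := (hc.dense_compl ℝ).nonempty
  refine ⟨ev θ, fun q hq h => hθ (mem_iUnion₂.2 ⟨q, hq, ?_⟩)⟩
  simp only [mem_ofPred_eq, det2] at h ⊢
  linarith

end Pool.Agent.MP_b29402_an

end
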