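import Pool.Agent.MP_b29402_an.Mg.DkB
import Pool.Agent.MP_b29402_an.Mg.Pl2

-- part MP_b29402_an.PE1
section

/-! Poincare inequality, part 1: local averages. -/

open MeasureTheory Set Filter Topology ProbabilityTheory
open scoped ComplexConjugate ENNReal

namespace Pool.Agent.MP_b29402_an

namespace Flat

variable {X : Type*} [MeasurableSpace X] {Z : Flat X}

/-- near invariance under horizontal and vertical moves of length at most one -/
structure NearInv (Z : Flat X) (B η : ℝ) (G : X → ℝ) : Prop where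
  meas : Measurable G
  bd : ∀ x, |G x| ≤ B
  hor : ∀ a : ℝ, |a| ≤ 1 → ∫ x, (G (Z.mv x (a, 0)) - G x) ^ 2 ∂Z.μ ≤ η ^ 2
  ver : ∀ s : ℝ, 0 ≤ s → s ≤ 1 → ∫ x, (G (Z.mv x (0, s)) - G x) ^ 2 ∂Z.μ ≤ η ^ 2

/-- the average of `G` over the box of radius `t` -/
noncomputable def lavg (Z : Flat X) (t : ℝ) (G : X → ℝ) (x : X) : ℝ :=
  (4 * t ^ 2)⁻¹ * ∫ v in Metric.ball (0 : P2) t, G (Z.mv x v)

/-- the set of points with an empty box of radius `r` -/
def Good (Z : Flat X) (r : ℝ) : Set X := {x | Metric.ball (0 : P2) r ⊆ Z.D x}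

theorem PE1_int {Y : Type*} [MeasurableSpace Y] (ν : Measure Y) [IsFiniteMeasure ν] {f : Y → ℝ}
    (hf : Measurable f) {C : ℝ} (h : ∀ y, |f y| ≤ C) : Integrable f ν :=
  Integrable.of_bound hf.aestronglyMeasurable C (Eventually.of_forall fun y => by
    simpa [Real.norm_eq_abs] using h y)

theorem PE1_sq_bd {B a b : ℝ} (ha : |a| ≤ B) (hb : |b| ≤ B) : |(a - b) ^ 2| ≤ 4 * B ^ 2 := by
  rw [abs_of_nonneg (sq_nonneg _)]
  have h1 := abs_le.1 ha
  have h2 := abs_le.1 hb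
  nlinarith [h1.1, h1.2, h2.1, h2.2]

theorem PE1_sub_bd {B a b : ℝ} (ha : |a| ≤ B) (hb : |b| ≤ B) : |a - b| ≤ 2 * B := by
  have h1 := abs_le.1 ha
  have h2 := abs_le.1 hb
  exact abs_le.2 ⟨by linarith [h1.1, h2.2], by linarith [h1.2, h2.1]⟩

/-- Cauchy-Schwarz against the constant one -/
theorem PE1_cs {Y : Type*} [MeasurableSpace Y] (ν : Measure Y) [IsFiniteMeasure ν] {f : Y → ℝ}
    (hf : Measurable f) {C : ℝ} (h : ∀ y, |f y| ≤ C) {m : ℝ} (hm : 0 < m) (hν : ν.real univ = m) :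
    (m⁻¹ * ∫ y, f y ∂ν) ^ 2 ≤ m⁻¹ * ∫ y, (f y) ^ 2 ∂ν := by
  have i1 : Integrable f ν := PE1_int ν hf h
  have i2 : Integrable (fun y => (f y) ^ 2) ν :=
    PE1_int ν (hf.pow_const 2) (C := C ^ 2) fun y => by
      rw [abs_pow]; exact pow_le_pow_left₀ (abs_nonneg _) (h y) 2
  set c : ℝ := m⁻¹ * ∫ y, f y ∂ν with hc
  have h0 : 0 ≤ ∫ y, (f y - c) ^ 2 ∂ν := integral_nonneg fun y => sq_nonneg _
  have h1 : ∫ y, (f y - c) ^ 2 ∂ν = ∫ y, (f y) ^ 2 ∂ν - 2 * c * ∫ y, f y ∂ν + c ^ 2 * m := by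
    have e : (fun y => (f y - c) ^ 2) = fun y => ((f y) ^ 2 - 2 * c * f y) + c ^ 2 := by
      funext y; ring
    have i3 : Integrable (fun y => (f y) ^ 2 - 2 * c * f y) ν := i2.sub (i1.const_mul _)
    rw [e, integral_add i3 (integrable_const _),
      integral_sub i2 (i1.const_mul _), integral_const_mul, integral_const, hν, smul_eq_mul]
    ring
  have h2 : ∫ y, f y ∂ν = m * c := by
    rw [hc]; field_simp
  rw [h1, h2] at h0
  have h3 : m * c ^ 2 ≤ ∫ y, (f y) ^ 2 ∂ν := by nlinarith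
  calc c ^ 2 = m⁻¹ * (m * c ^ 2) := by field_simp
    _ ≤ m⁻¹ * ∫ y, (f y) ^ 2 ∂ν := mul_le_mul_of_nonneg_left h3 (inv_nonneg.2 hm.le)

theorem PE1_real_ball {t : ℝ} (ht : 0 < t) :
    (volume : Measure P2).real (Metric.ball (0 : P2) t) = 4 * t ^ 2 := by
  rw [Measure.real, volume_ball_P2 _ ht.le, ENNReal.toReal_ofReal (by positivity)]

theorem PE1_fin_ball (t : ℝ) :
    IsFiniteMeasure ((volume : Measure P2).restrict (Metric.ball (0 : P2) t)) :=
  ⟨by rw [Measure.restrict_apply_univ]; exact measure_ball_lt_top⟩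

theorem PE1_real_univ {t : ℝ} (ht : 0 < t) :
    ((volume : Measure P2).restrict (Metric.ball (0 : P2) t)).real univ = 4 * t ^ 2 := by
  rw [← PE1_real_ball ht, Measure.real, Measure.real, Measure.restrict_apply_univ]

theorem PE1_closed (Z : Flat X) {q : ℝ} (hq : 0 ≤ q) :
    MeasurableSet {x | Metric.closedBall (0 : P2) q ⊆ Z.D x} := by
  refine measurableSet_of_open (Z := Z) (fun x hx => hx (Metric.mem_closedBall_self hq)) ?_
  intro x hx
  obtain ⟨δ, hδ, h⟩ := (isCompact_closedBall (0 : P2) q).exists_cthickening_subset_open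
    (Z.open_D x) hx
  rw [cthickening_closedBall hδ.le hq] at h
  have h' : Metric.ball (0 : P2) (δ + q) ⊆ Z.D x := Metric.ball_subset_closedBall.trans h
  refine ⟨δ, hδ, fun a ha _ => ?_⟩
  have h2 := ball_shift h' (a := a) (by linarith)
  exact (Metric.closedBall_subset_ball (by linarith)).trans h2

theorem PE1_comp (Z : Flat X) (v : P2) {f : X → ℝ} (hf : Measurable f) :
    ∫ x, f (Z.mv x v) ∂Z.μ = ∫ x, f x ∂Z.μ := by
  have h := integral_map (μ := Z.μ) (φ := fun x => Z.mv x v) (f := f)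
    (Z.measurable_mv_left v).aemeasurable hf.aestronglyMeasurable
  rw [(Z.mp_mv v).map_eq] at h
  exact h.symm

theorem PE1_meas {G : X → ℝ} (hG : Measurable G) (v : P2) :
    Measurable fun x => (G (Z.mv x v) - G x) ^ 2 :=
  ((hG.comp (Z.measurable_mv_left v)).sub hG).pow_const 2

theorem PE1_intsq {B η : ℝ} {G : X → ℝ} (h : Z.NearInv B η G) (v : P2) :
    Integrable (fun x => (G (Z.mv x v) - G x) ^ 2) Z.μ :=
  PE1_int _ (PE1_meas h.meas v) fun x => PE1_sq_bd (h.bd _) (h.bd _)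

theorem PE1_mv_add {x : X} {r : ℝ} (hx : Metric.ball (0 : P2) r ⊆ Z.D x) {a b : P2}
    (ha : ‖a‖ < r) (hab : ‖a + b‖ < r) : Z.mv (Z.mv x a) b = Z.mv x (a + b) := by
  have hr : 0 < r := (norm_nonneg a).trans_lt ha
  have h := (Z.conv x _ (convex_ball 0 r) (Metric.mem_ball_self hr) hx a
    (mem_ball_zero_iff.2 ha) (a + b) (mem_ball_zero_iff.2 hab)).2
  rwa [add_sub_cancel_left] at h

/-- `measurableSet_of_open` for the sets `{x | closedBall 0 r' ⊆ D x}`, `r' = r - r/(n+2)` (compactness of the closed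
ball in the open set `D x`, `IsCompact.exists_cthickening_subset_open`, `ball_shift`), and intersect. -/
theorem measurableSet_good (Z : Flat X) {r : ℝ} (hr : 0 < r) : MeasurableSet (Z.Good r) := by
  have e : Z.Good r = ⋂ q ∈ {q : ℚ | 0 ≤ (q : ℝ) ∧ (q : ℝ) < r},
      {x | Metric.closedBall (0 : P2) (q : ℝ) ⊆ Z.D x} := by
    ext x
    simp only [Good, mem_ofPred_eq, mem_iInter]
    constructor
    · intro h q hq
      exact (Metric.closedBall_subset_ball hq.2).trans h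
    · intro h v hv
      obtain ⟨q, h1, h2⟩ := exists_rat_btwn (mem_ball_zero_iff.1 hv)
      exact h q ⟨(norm_nonneg v).trans h1.le, h2⟩ (mem_closedBall_zero_iff.2 h1.le)
  rw [e]
  exact MeasurableSet.biInter (to_countable _) fun q hq => PE1_closed Z hq.1

/-- `measureReal_sees_le`, `vfree`, `ae_reg` -/
theorem measure_not_good (Z : Flat X) {r : ℝ} (hr : 0 < r) :
    Z.μ.real (Z.Good r)ᶜ ≤ Z.N * (4 * r ^ 2) := by
  have h1 := Z.measureReal_sees_le (B := Metric.ball (0 : P2) r) measurableSet_ball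
    measure_ball_lt_top.ne
  rw [PE1_real_ball hr] at h1
  refine le_trans ?_ h1
  refine ENNReal.toReal_mono (measure_ne_top _ _) (measure_mono_ae ?_)
  filter_upwards [Z.ae_reg] with x hx hg
  by_contra hne
  refine hg (vfree hx (convex_ball 0 r) (Metric.mem_ball_self hr) fun w hw hV => hne ⟨w, hV, hw⟩)

/-- negative `s`: substitute `x = mv x' (0, -s)` (`mp_mv`, `ae_line`, `back`) -/
theorem NearInv.ver' {B η : ℝ} {G : X → ℝ} (h : Z.NearInv B η G) {s : ℝ} (hs : |s| ≤ 1) :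
    ∫ x, (G (Z.mv x (0, s)) - G x) ^ 2 ∂Z.μ ≤ η ^ 2 := by
  rcases le_total 0 s with h0 | h0
  · exact h.ver s h0 (abs_le.1 hs).2
  · have h1 := h.ver (-s) (by linarith) (by linarith [(abs_le.1 hs).1])
    rw [← PE1_comp Z ((0 : ℝ), -s) (PE1_meas h.meas (0, s))]
    refine le_trans (le_of_eq (integral_congr_ae ?_)) h1
    filter_upwards [Z.ae_line ((0 : ℝ), -s)] with x hx
    have h2 := hx 1
    rw [one_smul] at h2
    have h3 := (back h2).2
    have e : -((0 : ℝ), -s) = ((0 : ℝ), s) := by simp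
    rw [e] at h3
    rw [h3]
    ring

/-- on `Good r`, `mv x v = mv (mv x (v.1, 0)) (0, v.2)` (`conv` in the ball); `(a + b)² ≤ 2 a² + 2 b²`, `mp_mv` -/
theorem NearInv.move {B η r : ℝ} {G : X → ℝ} (h : Z.NearInv B η G) {v : P2} (hv : ‖v‖ < r)
    (hv1 : ‖v‖ ≤ 1) : ∫ x in Z.Good r, (G (Z.mv x v) - G x) ^ 2 ∂Z.μ ≤ 4 * η ^ 2 := by
  have hr : 0 < r := (norm_nonneg v).trans_lt hv
  have n1 : |v.1| ≤ ‖v‖ := by simpa [Real.norm_eq_abs] using norm_fst_le v
  have n2 : |v.2| ≤ ‖v‖ := by simpa [Real.norm_eq_abs] using norm_snd_le v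
  have hA := h.hor v.1 (n1.trans hv1)
  have hB := h.ver' (s := v.2) (n2.trans hv1)
  rw [← PE1_comp Z (v.1, (0 : ℝ)) (PE1_meas h.meas (0, v.2))] at hB
  have iA := PE1_intsq h (v.1, (0 : ℝ))
  have iB : Integrable (fun x => (G (Z.mv (Z.mv x (v.1, (0 : ℝ))) (0, v.2)) -
      G (Z.mv x (v.1, (0 : ℝ)))) ^ 2) Z.μ :=
    PE1_int _ ((PE1_meas h.meas (0, v.2)).comp (Z.measurable_mv_left (v.1, (0 : ℝ))))
      fun x => PE1_sq_bd (h.bd _) (h.bd _)
  have iS := (iA.const_mul 2).add (iB.const_mul 2)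
  calc ∫ x in Z.Good r, (G (Z.mv x v) - G x) ^ 2 ∂Z.μ
      ≤ ∫ x in Z.Good r, (2 * (G (Z.mv x (v.1, (0 : ℝ))) - G x) ^ 2 +
          2 * (G (Z.mv (Z.mv x (v.1, (0 : ℝ))) (0, v.2)) - G (Z.mv x (v.1, (0 : ℝ)))) ^ 2) ∂Z.μ := by
        refine setIntegral_mono_on (PE1_intsq h v).integrableOn iS.integrableOn
          (Z.measurableSet_good hr) fun x hx => ?_
        have e : ((v.1, (0 : ℝ)) : P2) + ((0 : ℝ), v.2) = v := by simp
        have h1 : ‖((v.1, (0 : ℝ)) : P2)‖ < r := by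
          rw [Prod.norm_def]
          simp only [norm_zero, Real.norm_eq_abs]
          exact max_lt (n1.trans_lt hv) hr
        have h2 := PE1_mv_add hx (a := (v.1, (0 : ℝ))) (b := ((0 : ℝ), v.2)) h1 (by rw [e]; exact hv)
        rw [e] at h2
        rw [h2]
        nlinarith [sq_nonneg (G (Z.mv x v) - 2 * G (Z.mv x (v.1, (0 : ℝ))) + G x)]
    _ ≤ ∫ x, (2 * (G (Z.mv x (v.1, (0 : ℝ))) - G x) ^ 2 +
          2 * (G (Z.mv (Z.mv x (v.1, (0 : ℝ))) (0, v.2)) - G (Z.mv x (v.1, (0 : ℝ)))) ^ 2) ∂Z.μ :=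
        setIntegral_le_integral iS (Eventually.of_forall fun x => by positivity)
    _ ≤ 4 * η ^ 2 := by
        rw [integral_add (iA.const_mul 2) (iB.const_mul 2), integral_const_mul, integral_const_mul]
        linarith

theorem measurable_lavg {G : X → ℝ} (hG : Measurable G) (t : ℝ) : Measurable (Z.lavg t G) := by
  have h1 : StronglyMeasurable fun p : X × P2 => G (Z.mv p.1 p.2) :=
    (hG.comp Z.meas_mv).stronglyMeasurable
  have h2 := (h1.integral_prod_right'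
    (ν := (volume : Measure P2).restrict (Metric.ball (0 : P2) t))).measurable
  exact h2.const_mul _

theorem NearInv.abs_lavg_le {B η t : ℝ} {G : X → ℝ} (h : Z.NearInv B η G) (ht : 0 < t) (x : X) :
    |Z.lavg t G x| ≤ B := by
  have h1 : ‖∫ v in Metric.ball (0 : P2) t, G (Z.mv x v)‖ ≤
      B * (volume : Measure P2).real (Metric.ball (0 : P2) t) :=
    norm_setIntegral_le_of_norm_le_const measure_ball_lt_top fun v _ => by
      simpa [Real.norm_eq_abs] using h.bd _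
  rw [PE1_real_ball ht, Real.norm_eq_abs] at h1
  have h2 : 0 < 4 * t ^ 2 := by positivity
  rw [lavg, abs_mul, abs_of_pos (inv_pos.2 h2)]
  calc (4 * t ^ 2)⁻¹ * |∫ v in Metric.ball (0 : P2) t, G (Z.mv x v)|
      ≤ (4 * t ^ 2)⁻¹ * (B * (4 * t ^ 2)) := mul_le_mul_of_nonneg_left h1 (inv_nonneg.2 h2.le)
    _ = B := by field_simp

/-- Jensen in `v`, Fubini, `NearInv.move` -/
theorem NearInv.sub_lavg {B η t r : ℝ} {G : X → ℝ} (h : Z.NearInv B η G) (ht : 0 < t)
    (ht1 : t ≤ 1) (hr : t ≤ r) :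
    ∫ x in Z.Good r, (G x - Z.lavg t G x) ^ 2 ∂Z.μ ≤ 4 * η ^ 2 := by
  have := PE1_fin_ball t
  have h4 : 0 < 4 * t ^ 2 := by positivity
  have hF : Measurable fun p : X × P2 => (G (Z.mv p.1 p.2) - G p.1) ^ 2 :=
    ((h.meas.comp Z.meas_mv).sub (h.meas.comp measurable_fst)).pow_const 2
  have iF : Integrable (Function.uncurry fun (x : X) (v : P2) => (G (Z.mv x v) - G x) ^ 2)
      ((Z.μ.restrict (Z.Good r)).prod
        ((volume : Measure P2).restrict (Metric.ball (0 : P2) t))) :=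
    PE1_int _ hF fun p => PE1_sq_bd (h.bd _) (h.bd _)
  have hp : ∀ x, (G x - Z.lavg t G x) ^ 2 ≤
      (4 * t ^ 2)⁻¹ * ∫ v in Metric.ball (0 : P2) t, (G (Z.mv x v) - G x) ^ 2 := by
    intro x
    have hm : Measurable fun v : P2 => G (Z.mv x v) := h.meas.comp (Z.measurable_mv x)
    have h1 := PE1_cs ((volume : Measure P2).restrict (Metric.ball (0 : P2) t))
      (f := fun v => G (Z.mv x v) - G x) (hm.sub measurable_const)
      (fun v => PE1_sub_bd (h.bd _) (h.bd _)) h4 (PE1_real_univ ht)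
    refine le_trans (le_of_eq ?_) h1
    rw [integral_sub (PE1_int _ hm fun v => h.bd _) (integrable_const _), integral_const,
      PE1_real_univ ht, smul_eq_mul, lavg]
    field_simp
    ring
  calc ∫ x in Z.Good r, (G x - Z.lavg t G x) ^ 2 ∂Z.μ
      ≤ ∫ x in Z.Good r, (4 * t ^ 2)⁻¹ *
          (∫ v in Metric.ball (0 : P2) t, (G (Z.mv x v) - G x) ^ 2) ∂Z.μ := by
        refine integral_mono ?_ (iF.integral_prod_left.const_mul _) hp
        exact PE1_int _ ((h.meas.sub (measurable_lavg h.meas t)).pow_const 2)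
          fun x => PE1_sq_bd (h.bd _) (h.abs_lavg_le ht x)
    _ = (4 * t ^ 2)⁻¹ * ∫ v in Metric.ball (0 : P2) t,
          ∫ x in Z.Good r, (G (Z.mv x v) - G x) ^ 2 ∂Z.μ := by
        rw [integral_const_mul, integral_integral_swap iF]
    _ ≤ (4 * t ^ 2)⁻¹ * ∫ _v in Metric.ball (0 : P2) t, 4 * η ^ 2 := by
        refine mul_le_mul_of_nonneg_left ?_ (inv_nonneg.2 h4.le)
        refine setIntegral_mono_on iF.integral_prod_right (integrable_const _) measurableSet_ball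
          fun v hv => ?_
        have hv' := mem_ball_zero_iff.1 hv
        exact h.move (hv'.trans_le hr) (hv'.le.trans ht1)
    _ = 4 * η ^ 2 := by
        rw [integral_const, PE1_real_univ ht, smul_eq_mul]
        field_simp

/-- For `‖v‖ < t`, `z = mv x v ∈ Good (3 t)` and `mv (mv x a) v = mv x (a + v) = mv z a`. So the difference is the
average over `v` of `G z - G (mv z a)`; Jensen; `setIntegral_le` with
`g = indicator (Good (3 t)) (fun z => (G (mv z a) - G z)²)` and `U = ball 0 t` (`Thick.inj`), `NearInv.move`: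
the square is at most `4 η² / (4 t²)`. -/
theorem NearInv.lavg_close {B η t ε : ℝ} {G : X → ℝ} (h : Z.NearInv B η G) (hη : 0 ≤ η)
    (hT : Z.Thick ε) (ht : 0 < t) (ht1 : 2 * t ≤ 1) (hε : t ≤ ε) {x : X}
    (hx : x ∈ Z.Good (4 * t)) {a : P2} (ha : ‖a‖ ≤ 2 * t) :
    |Z.lavg t G x - Z.lavg t G (Z.mv x a)| ≤ η / t := by
  have := PE1_fin_ball t
  have h4 : 0 < 4 * t ^ 2 := by positivity
  have hG3 := Z.measurableSet_good (r := 3 * t) (by positivity)
  have hm1 : Measurable fun v : P2 => G (Z.mv x v) := h.meas.comp (Z.measurable_mv x)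
  have hm2 : Measurable fun v : P2 => G (Z.mv (Z.mv x a) v) :=
    h.meas.comp (Z.measurable_mv (Z.mv x a))
  have h1 := PE1_cs ((volume : Measure P2).restrict (Metric.ball (0 : P2) t))
    (f := fun v => G (Z.mv x v) - G (Z.mv (Z.mv x a) v)) (hm1.sub hm2)
    (fun v => PE1_sub_bd (h.bd _) (h.bd _)) h4 (PE1_real_univ ht)
  rw [integral_sub (PE1_int _ hm1 fun v => h.bd _) (PE1_int _ hm2 fun v => h.bd _), mul_sub] at h1
  have hD : Metric.ball (0 : P2) t ⊆ Z.D x := (Metric.ball_subset_ball (by linarith)).trans hx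
  have hi : InjOn (Z.mv x) (Metric.ball (0 : P2) t) := by
    intro u hu w hw he
    refine hT.inj (convex_ball 0 t) (Metric.mem_ball_self ht) hD hu hw ?_ he
    have := norm_sub_le w u
    linarith [mem_ball_zero_iff.1 hu, mem_ball_zero_iff.1 hw]
  have h2 := (setIntegral_le hD hi measurableSet_ball
    (g := (Z.Good (3 * t)).indicator fun z => (G (Z.mv z a) - G z) ^ 2)
    ((PE1_meas h.meas a).indicator hG3)
    (fun z => indicator_nonneg (fun z _ => sq_nonneg _) z)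
    ((PE1_intsq h a).indicator hG3)).2
  rw [integral_indicator hG3] at h2
  have h3 := h.move (r := 3 * t) (v := a) (by linarith) (by linarith)
  have h5 : ∫ v in Metric.ball (0 : P2) t, (G (Z.mv x v) - G (Z.mv (Z.mv x a) v)) ^ 2 =
      ∫ v in Metric.ball (0 : P2) t,
        (Z.Good (3 * t)).indicator (fun z => (G (Z.mv z a) - G z) ^ 2) (Z.mv x v) := by
    refine setIntegral_congr_fun measurableSet_ball fun v hv => ?_
    have hv' := mem_ball_zero_iff.1 hv
    have hz : Z.mv x v ∈ Z.Good (3 * t) :=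
      (Metric.ball_subset_ball (by linarith)).trans (ball_shift hx (a := v) (by linarith))
    have n1 := norm_add_le a v
    have e1 := PE1_mv_add hx (a := a) (b := v) (by linarith) (by linarith)
    have e2 := PE1_mv_add hx (a := v) (b := a) (by linarith) (by rw [add_comm]; linarith)
    simp only [indicator_of_mem hz]
    rw [e1, e2, add_comm v a]
    ring
  rw [h5] at h1
  have h6 : (Z.lavg t G x - Z.lavg t G (Z.mv x a)) ^ 2 ≤ (η / t) ^ 2 := by
    refine le_trans h1 ?_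
    calc _ ≤ (4 * t ^ 2)⁻¹ * (4 * η ^ 2) :=
          mul_le_mul_of_nonneg_left (h2.trans h3) (inv_nonneg.2 h4.le)
      _ = (η / t) ^ 2 := by field_simp
  exact abs_le_of_sq_le_sq' h6 (by positivity) |> abs_le.2

end Flat

end Pool.Agent.MP_b29402_an

end

-- part MP_b29402_an.PE2
section

/-! Poincare inequality, part 2: retraction away from the singular points, nets, gap argument. -/

open MeasureTheory Set Filter Topology ProbabilityTheory
open scoped ComplexConjugate ENNReal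

namespace Pool.Agent.MP_b29402_an

namespace Flat

variable {X : Type*} [MeasurableSpace X] {Z : Flat X}

/-- the push away from a singular point at `w` -/
noncomputable def PE2_beta (R : ℝ) (w : P2) : P2 := min 0 (1 - R / ‖w‖) • w

/-- the part of the ball strictly below `w` -/
def PE2_K (R : ℝ) (w : P2) : Set P2 := Metric.ball 0 (2 * R) ∩ {u | ip u w < ip w w}

theorem PE2_ip_pos {w : P2} (hw : w ≠ 0) : 0 < ip w w := by
  unfold ip
  by_contra hc
  apply hw
  have h1 : w.1 = 0 := by nlinarith [mul_self_nonneg w.1, mul_self_nonneg w.2]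
  have h2 : w.2 = 0 := by nlinarith [mul_self_nonneg w.1, mul_self_nonneg w.2]
  exact Prod.ext h1 h2

theorem PE2_K_open (R : ℝ) (w : P2) : IsOpen (PE2_K R w) := by
  refine Metric.isOpen_ball.inter (isOpen_lt ?_ continuous_const)
  unfold ip
  fun_prop

theorem PE2_K_convex (R : ℝ) (w : P2) : Convex ℝ (PE2_K R w) := by
  refine (convex_ball _ _).inter (convex_halfSpace_lt (f := fun u : P2 => ip u w) ⟨?_, ?_⟩ _)
  · intro a b; simp only [ip, Prod.fst_add, Prod.snd_add]; ring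
  · intro c a; simp only [ip, Prod.smul_fst, Prod.smul_snd, smul_eq_mul]; ring

theorem PE2_K_zero {R : ℝ} (hR : 0 < R) {w : P2} (hw : w ≠ 0) : (0 : P2) ∈ PE2_K R w := by
  refine ⟨Metric.mem_ball_self (by linarith), ?_⟩
  have := PE2_ip_pos hw
  simpa [ip] using this

theorem PE2_K_seg {R : ℝ} {w a : P2} (hw : ‖w‖ < 2 * R) (ha : a ∈ PE2_K R w) {t : ℝ} (h0 : 0 ≤ t)
    (h1 : t < 1) : a + t • (w - a) ∈ PE2_K R w := by
  refine ⟨(convex_ball (0 : P2) (2 * R)).add_smul_sub_mem ha.1 (mem_ball_zero_iff.2 hw)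
    ⟨h0, h1.le⟩, ?_⟩
  have h2 : ip a w < ip w w := ha.2
  change ip (a + t • (w - a)) w < ip w w
  have : ip (a + t • (w - a)) w = ip w w - (1 - t) * (ip w w - ip a w) := by
    simp only [ip, Prod.fst_add, Prod.snd_add, Prod.smul_fst, Prod.smul_snd, Prod.fst_sub,
      Prod.snd_sub, smul_eq_mul]
    ring
  rw [this]
  nlinarith [mul_pos (sub_pos.2 h1) (sub_pos.2 h2)]

theorem PE2_K_sub {ε R : ℝ} (hT : Z.Thick ε) (hR : 0 < R) (hε : 2 * R ≤ ε) {x : X} {w : P2}
    (hw : w ∈ Z.V x) (hn : ‖w‖ < 2 * R) : PE2_K R w ⊆ Z.D x := by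
  refine vfree (reg_of_V hw) (PE2_K_convex R w) (PE2_K_zero hR (V_ne_zero hw)) fun u hu hV => ?_
  have h1 : u = w := hT.sub x ⟨hV, Metric.ball_subset_ball hε hu.1⟩
    ⟨hw, mem_ball_zero_iff.2 (by linarith)⟩
  have h2 : ip u w < ip w w := hu.2
  rw [h1] at h2
  exact lt_irrefl _ h2

theorem PE2_vis {ε R : ℝ} (hT : Z.Thick ε) (hR : 0 < R) (hε : 2 * R ≤ ε) {x : X} {w a : P2}
    (hw : w ∈ Z.V x) (hn : ‖w‖ < 2 * R) (ha : a ∈ PE2_K R w) : w - a ∈ Z.V (Z.mv x a) :=
  vc_convex hw (PE2_K_convex R w) (PE2_K_zero hR (V_ne_zero hw)) (PE2_K_sub hT hR hε hw hn)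
    fun _ h0 h1 => PE2_K_seg hn ha h0 h1

theorem PE2_beta_zero {R : ℝ} {w : P2} (hw : w ≠ 0) (h : R ≤ ‖w‖) : PE2_beta R w = 0 := by
  have hp : 0 < ‖w‖ := norm_pos_iff.2 hw
  have : 0 ≤ 1 - R / ‖w‖ := sub_nonneg.2 ((div_le_one hp).2 h)
  rw [PE2_beta, min_eq_left this, zero_smul]

theorem PE2_beta_spec {R : ℝ} (hR : 0 < R) {w : P2} (hw : w ≠ 0) (hn : ‖w‖ < 2 * R) :
    PE2_beta R w ∈ PE2_K R w ∧ R ≤ ‖w - PE2_beta R w‖ ∧ ‖w - PE2_beta R w‖ < 2 * R := by
  have hp : 0 < ‖w‖ := norm_pos_iff.2 hw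
  rcases le_or_gt R ‖w‖ with h | h
  · rw [PE2_beta_zero hw h, sub_zero]
    exact ⟨PE2_K_zero hR hw, h, hn⟩
  · have h1 : 1 - R / ‖w‖ < 0 := sub_neg.2 ((one_lt_div hp).2 h)
    have h2 : PE2_beta R w = (1 - R / ‖w‖) • w := by rw [PE2_beta, min_eq_right h1.le]
    have h3 : w - PE2_beta R w = (R / ‖w‖) • w := by rw [h2, sub_smul, one_smul, sub_sub_cancel]
    have h4 : ‖w - PE2_beta R w‖ = R := by
      rw [h3, norm_smul, Real.norm_eq_abs, abs_of_pos (div_pos hR hp), div_mul_cancel₀ _ hp.ne']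
    refine ⟨⟨mem_ball_zero_iff.2 ?_, ?_⟩, h4.ge, by linarith⟩
    · rw [h2, norm_smul, Real.norm_eq_abs, abs_of_neg h1, neg_sub, sub_mul,
        div_mul_cancel₀ _ hp.ne']
      linarith
    · change ip (PE2_beta R w) w < ip w w
      have h5 : ip (PE2_beta R w) w = (1 - R / ‖w‖) * ip w w := by
        rw [h2]
        simp only [ip, Prod.smul_fst, Prod.smul_snd, smul_eq_mul]
        ring
      rw [h5]
      nlinarith [PE2_ip_pos hw]

theorem PE2_beta_cont (R : ℝ) {w : P2} (hw : w ≠ 0) :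
    ContinuousAt (fun a : P2 => a + PE2_beta R (w - a)) 0 := by
  have h1 : ContinuousAt (fun a : P2 => w - a) 0 := by fun_prop
  have h2 : ContinuousAt (fun a : P2 => R / ‖w - a‖) 0 :=
    continuousAt_const.div h1.norm (by simpa using hw)
  exact continuousAt_id.add ((continuousAt_const.min (continuousAt_const.sub h2)).smul h1)

open Classical in
/-- the displacement of the retraction -/
noncomputable def PE2_b (Z : Flat X) (R : ℝ) (x : X) : P2 :=
  if h : ∃ w ∈ Z.V x, ‖w‖ < 2 * R then PE2_beta R h.choose else 0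

theorem PE2_b_eq {ε R : ℝ} (hT : Z.Thick ε) (hε : 2 * R ≤ ε) {x : X} {w : P2}
    (hw : w ∈ Z.V x) (hn : ‖w‖ < 2 * R) : Z.PE2_b R x = PE2_beta R w := by
  have h : ∃ w ∈ Z.V x, ‖w‖ < 2 * R := ⟨w, hw, hn⟩
  rw [PE2_b, dif_pos h]
  congr 1
  exact hT.sub x ⟨h.choose_spec.1, mem_ball_zero_iff.2 (by linarith [h.choose_spec.2])⟩
    ⟨hw, mem_ball_zero_iff.2 (by linarith)⟩

theorem PE2_b_good {R : ℝ} {x : X} (hx : x ∈ Z.Good R) : Z.PE2_b R x = 0 := by
  rw [PE2_b]
  split_ifs with h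
  · refine PE2_beta_zero (V_ne_zero h.choose_spec.1) (not_lt.1 fun hc => ?_)
    exact V_not_mem h.choose_spec.1 (hx (mem_ball_zero_iff.2 hc))
  · rfl

theorem PE2_good_of_none {R : ℝ} (hR : 0 < R) {x : X} (hx : Z.reg x)
    (h : ¬ ∃ w ∈ Z.V x, ‖w‖ < 2 * R) : x ∈ Z.Good (2 * R) :=
  vfree hx (convex_ball _ _) (Metric.mem_ball_self (by linarith))
    fun w hw hV => h ⟨w, hV, mem_ball_zero_iff.1 hw⟩

/-- Put `β w = min 0 (1 - R / ‖w‖) • w` (continuous for `w ≠ 0`), `b x = β w` if there is `w ∈ V x` with `‖w‖ < 2 R`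
(unique by `Thick.sub`), `b x = 0` otherwise, `π x = mv x (b x)`. `b x ∈ D x` (`vfree` on the segment);
`π x ∈ Good R`: `w - b ∈ V (π x)` has norm `≥ R` and is the only visible point in `ball 0 ε`, `vfree`.
For small `a`: if `w` exists then `w - a ∈ V (mv x a)` (`sheet`), `b (mv x a) = β (w - a)`; the tube of radius
`< ‖w‖` around `[0, b x]` misses `w`, lies in `ball 0 ε`, hence in `D x`, and contains `a`, `a + β (w - a)`; `conv`.
Otherwise `ball 0 (2 R) ⊆ D x`, `ball 0 (2 R - ‖a‖) ⊆ D (mv x a)`, so `b (mv x a) = 0 = b x`. -/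
theorem exists_retraction {ε R t : ℝ} (hT : Z.Thick ε) (hR : 0 < R) (hε : 2 * R ≤ ε) (ht : 0 < t) :
    ∃ π : X → X, (∀ x, Z.reg x → π x ∈ Z.Good R) ∧ (∀ x ∈ Z.Good R, π x = x) ∧
      ∀ x, Z.reg x → ∃ δ : ℝ, 0 < δ ∧ ∀ a : P2, ‖a‖ < δ → a ∈ Z.D x →
        ∃ a' : P2, ‖a'‖ ≤ t ∧ π (Z.mv x a) = Z.mv (π x) a' := by
  have hfix : ∀ x ∈ Z.Good R, Z.mv x (Z.PE2_b R x) = x := fun x hx => by
    rw [PE2_b_good hx, Z.mv_zero]
  have hmono : ∀ x ∈ Z.Good (2 * R), x ∈ Z.Good R := fun x hx =>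
    (Metric.ball_subset_ball (by linarith)).trans hx
  refine ⟨fun x => Z.mv x (Z.PE2_b R x), fun x hx => ?_, hfix, fun x hx => ?_⟩
  · dsimp only
    by_cases h : ∃ w ∈ Z.V x, ‖w‖ < 2 * R
    · obtain ⟨w, hw, hn⟩ := h
      obtain ⟨h1, h2, h3⟩ := PE2_beta_spec hR (V_ne_zero hw) hn
      rw [PE2_b_eq hT hε hw hn]
      have h4 := PE2_vis hT hR hε hw hn h1
      refine vfree (reg_of_V h4) (convex_ball _ _) (Metric.mem_ball_self hR) fun u hu hV => ?_
      have h5 : u = w - PE2_beta R w := hT.sub _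
        ⟨hV, Metric.ball_subset_ball (by linarith) hu⟩ ⟨h4, mem_ball_zero_iff.2 (by linarith)⟩
      have h6 := mem_ball_zero_iff.1 hu
      rw [h5] at h6
      linarith
    · have h1 := hmono x (PE2_good_of_none hR hx h)
      rw [hfix x h1]
      exact h1
  · by_cases h : ∃ w ∈ Z.V x, ‖w‖ < 2 * R
    · obtain ⟨w, hw, hn⟩ := h
      have hw0 := V_ne_zero hw
      obtain ⟨h1, -, -⟩ := PE2_beta_spec hR hw0 hn
      have hc := PE2_beta_cont R hw0
      have e1 : ∀ᶠ a in 𝓝 (0 : P2), a ∈ PE2_K R w := (PE2_K_open R w).mem_nhds (PE2_K_zero hR hw0)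
      have e2 : ∀ᶠ a in 𝓝 (0 : P2), a + PE2_beta R (w - a) ∈ PE2_K R w :=
        hc.eventually ((PE2_K_open R w).mem_nhds (by simpa using h1))
      have e3 : ∀ᶠ a in 𝓝 (0 : P2), a + PE2_beta R (w - a) ∈ Metric.ball (PE2_beta R w) t :=
        hc.eventually (Metric.isOpen_ball.mem_nhds (by simpa using ht))
      have e4 : ∀ᶠ a in 𝓝 (0 : P2), ‖w - a‖ < 2 * R := by
        have : ContinuousAt (fun a : P2 => ‖w - a‖) 0 := by fun_prop
        exact this.eventually (gt_mem_nhds (by simpa using hn))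
      obtain ⟨δ, hδ, hall⟩ := Metric.eventually_nhds_iff.1 (e1.and (e2.and (e3.and e4)))
      refine ⟨δ, hδ, fun a ha _ => ?_⟩
      obtain ⟨f1, f2, f3, f4⟩ := hall (show dist a 0 < δ by rwa [dist_zero_right])
      have hK := PE2_K_sub hT hR hε hw hn
      refine ⟨a + PE2_beta R (w - a) - PE2_beta R w, ?_, ?_⟩
      · rw [← dist_eq_norm]; exact (Metric.mem_ball.1 f3).le
      · have g1 := (Z.conv x _ (PE2_K_convex R w) (PE2_K_zero hR hw0) hK a f1 _ f2).2
        have g2 := (Z.conv x _ (PE2_K_convex R w) (PE2_K_zero hR hw0) hK _ h1 _ f2).2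
        rw [add_sub_cancel_left] at g1
        dsimp only
        rw [PE2_b_eq hT hε hw hn, PE2_b_eq hT hε (PE2_vis hT hR hε hw hn f1) f4, g1, g2]
    · have h1 := PE2_good_of_none hR hx h
      refine ⟨min R t, lt_min hR ht, fun a ha _ => ⟨a, (ha.trans_le (min_le_right _ _)).le, ?_⟩⟩
      have h2 : ‖a‖ < R := ha.trans_le (min_le_left _ _)
      have h3 : Z.mv x a ∈ Z.Good R :=
        (Metric.ball_subset_ball (by linarith)).trans (ball_shift h1 (by linarith : ‖a‖ < 2 * R))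
      dsimp only
      rw [hfix _ h3, hfix x (hmono x h1)]

theorem PE2_volume_ball {t : ℝ} (ht : 0 < t) :
    volume (Metric.ball (0 : P2) (t / 2)) = ENNReal.ofReal (t ^ 2) := by
  rw [show (0 : P2) = ((0 : ℝ), (0 : ℝ)) from rfl, ← ball_prod_same, Measure.volume_eq_prod,
    Measure.prod_prod, Real.volume_ball, ← ENNReal.ofReal_mul (by linarith)]
  congr 1
  ring

/-- separated finite sets of good points -/
def PE2_Sep (Z : Flat X) (t : ℝ) (s : Finset X) : Prop :=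
  (∀ y ∈ s, y ∈ Z.Good (4 * t)) ∧
    ∀ y ∈ s, ∀ y' ∈ s, y ≠ y' → ∀ a : P2, ‖a‖ < t → y' ≠ Z.mv y a

theorem PE2_card_le {ε t : ℝ} (hT : Z.Thick ε) (ht : 0 < t) (hε : t ≤ ε) {s : Finset X}
    (hs : Z.PE2_Sep t s) : (s.card : ℝ) ≤ 1 / t ^ 2 := by
  have hsub : ∀ y ∈ s, Metric.ball (0 : P2) (t / 2) ⊆ Z.D y := fun y hy =>
    (Metric.ball_subset_ball (by linarith)).trans (hs.1 y hy)
  have hm : ∀ y ∈ s, MeasurableSet (Z.mv y '' Metric.ball (0 : P2) (t / 2)) ∧
      Z.μ (Z.mv y '' Metric.ball (0 : P2) (t / 2)) = ENNReal.ofReal (t ^ 2) := fun y hy => by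
    rw [← PE2_volume_ball ht]
    refine measure_image_mv (hsub y hy) (fun a ha b hb he => ?_) measurableSet_ball
    refine hT.inj (convex_ball _ _) (Metric.mem_ball_self (by linarith)) (hsub y hy) ha hb ?_ he
    have := norm_sub_le b a
    have := mem_ball_zero_iff.1 ha
    have := mem_ball_zero_iff.1 hb
    linarith
  have hd : (s : Set X).PairwiseDisjoint fun y => Z.mv y '' Metric.ball (0 : P2) (t / 2) := by
    intro y hy y' hy' hne
    rw [Function.onFun, Set.disjoint_left]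
    rintro _ ⟨a, ha, rfl⟩ ⟨a', ha', he⟩
    have h1 := mem_ball_zero_iff.1 ha
    have h2 := mem_ball_zero_iff.1 ha'
    have h3 : ‖a - a'‖ < t := by linarith [norm_sub_le a a']
    refine hs.2 y hy y' hy' hne (a - a') h3 ?_
    have h4 := (Z.conv y _ (convex_ball (0 : P2) (4 * t)) (Metric.mem_ball_self (by linarith))
      (hs.1 y hy) a (mem_ball_zero_iff.2 (by linarith)) (a - a')
      (mem_ball_zero_iff.2 (by linarith))).2
    rw [← h4, ← he, sub_sub_cancel_left, (back (hsub y' hy' ha')).2]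
  have h1 := measure_biUnion_finset (μ := Z.μ) hd fun y hy => (hm y hy).1
  rw [Finset.sum_congr rfl fun y hy => (hm y hy).2, Finset.sum_const, nsmul_eq_mul] at h1
  have h2 : (s.card : ℝ≥0∞) * ENNReal.ofReal (t ^ 2) ≤ 1 := h1 ▸ prob_le_one
  rw [← ENNReal.ofReal_natCast, ← ENNReal.ofReal_mul (Nat.cast_nonneg _),
    ENNReal.ofReal_le_one] at h2
  rwa [le_div_iff₀ (by positivity)]

/-- Call a finset `s ⊆ Good (4 t)` separated if `y' ≠ mv y a` for `y ≠ y'` in `s`, `‖a‖ < t`. The sets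
`mv y '' ball 0 (t/2)` are pairwise disjoint (`conv`, `back`) of measure `t²` (`Thick.inj`, `measure_image_mv`), so
`card * t² ≤ 1`. Take a separated set of maximal cardinality; the relation is symmetric (`back`). -/
theorem exists_net {ε t : ℝ} (hT : Z.Thick ε) (ht : 0 < t) (hε : t ≤ ε) :
    ∃ s : Finset X, (s.card : ℝ) ≤ 1 / t ^ 2 ∧ (∀ y ∈ s, y ∈ Z.Good (4 * t)) ∧
      ∀ x ∈ Z.Good (4 * t), ∃ y ∈ s, ∃ a : P2, ‖a‖ ≤ t ∧ x = Z.mv y a := by
  classical
  let P : ℕ → Prop := fun n => ∃ s : Finset X, Z.PE2_Sep t s ∧ s.card = n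
  have hP0 : P 0 := ⟨∅, ⟨by simp, by simp⟩, rfl⟩
  obtain ⟨s, hs, hc⟩ : P (Nat.findGreatest P ⌈1 / t ^ 2⌉₊) :=
    Nat.findGreatest_spec (Nat.zero_le _) hP0
  refine ⟨s, PE2_card_le hT ht hε hs, hs.1, fun x hx => ?_⟩
  by_contra hn
  push Not at hn
  have hxs : x ∉ s := fun h => hn x h 0 (by simpa using ht.le) (Z.mv_zero x).symm
  have hs' : Z.PE2_Sep t (insert x s) := by
    refine ⟨fun y hy => ?_, fun y hy y' hy' hne a ha he => ?_⟩
    · rcases Finset.mem_insert.1 hy with rfl | hy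
      · exact hx
      · exact hs.1 y hy
    · rcases Finset.mem_insert.1 hy with e1 | hy1
      · rcases Finset.mem_insert.1 hy' with e2 | hy2
        · exact hne (e1.trans e2.symm)
        · refine hn y' hy2 (-a) (by rw [norm_neg]; exact ha.le) ?_
          rw [he, e1, (back (hx (mem_ball_zero_iff.2 (by linarith)))).2]
      · rcases Finset.mem_insert.1 hy' with e2 | hy2
        · exact hn y hy1 a ha.le (e2 ▸ he)
        · exact hs.2 y hy1 y' hy2 hne a ha he
  have h1 := PE2_card_le hT ht hε hs'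
  have h2 : (insert x s).card ≤ ⌈1 / t ^ 2⌉₊ := by
    have := h1.trans (Nat.le_ceil _)
    exact_mod_cast this
  have h3 := Nat.le_findGreatest (P := P) h2 ⟨_, hs', rfl⟩
  rw [Finset.card_insert_of_notMem hxs] at h3
  omega

/-- If `Φ x - Φ y > 4 Δ (m + 1)`, `m = card`, one of the `m + 1` intervals `[Φ y + 4 Δ k, Φ y + 4 Δ (k + 1))`
contains no point of `s`; with `τ` its midpoint no value of `Φ` at a regular point lies in `[τ - Δ, τ + Δ)`, so
`A = {z | Φ z < τ}` satisfies the hypothesis of `loc_const`, contains `y` but not `x`. -/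
theorem gap {Φ : X → ℝ} {Δ : ℝ} (hΔ : 0 < Δ) (s : Finset ℝ)
    (h1 : ∀ x, Z.reg x → ∃ g ∈ s, |Φ x - g| ≤ Δ)
    (h2 : ∀ x, Z.reg x → ∃ δ : ℝ, 0 < δ ∧ ∀ a : P2, ‖a‖ < δ → a ∈ Z.D x →
      |Φ x - Φ (Z.mv x a)| ≤ Δ / 2)
    {x y : X} (hx : Z.reg x) (hy : Z.reg y) : Φ x - Φ y ≤ 4 * Δ * (s.card + 1) := by
  obtain ⟨k, hk, hfree⟩ : ∃ k : ℕ, k < s.card + 1 ∧
      ∀ g ∈ s, g < Φ y + 4 * Δ * k ∨ Φ y + 4 * Δ * (k + 1) ≤ g := by
    by_contra hc
    push Not at hc
    choose! g hg using hc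
    have := Finset.card_le_card_of_injOn (s := Finset.range (s.card + 1)) (t := s) g
      (fun k hk => (hg k (Finset.mem_range.1 hk)).1) fun k hk l hl he => by
        obtain ⟨-, a1, a2⟩ := hg k (Finset.mem_range.1 hk)
        obtain ⟨-, b1, b2⟩ := hg l (Finset.mem_range.1 hl)
        rw [he] at a1 a2
        have c1 : (k : ℝ) < l + 1 := by nlinarith
        have c2 : (l : ℝ) < k + 1 := by nlinarith
        have d1 : k < l + 1 := by exact_mod_cast c1
        have d2 : l < k + 1 := by exact_mod_cast c2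
        omega
    rw [Finset.card_range] at this
    omega
  set τ := Φ y + 4 * Δ * k + 2 * Δ with hτ
  have hsep : ∀ z, Z.reg z → Φ z < τ - Δ ∨ τ + Δ ≤ Φ z := fun z hz => by
    obtain ⟨g, hg, h⟩ := h1 z hz
    obtain ⟨h3, h4⟩ := abs_le.1 h
    rcases hfree g hg with h5 | h5
    · left; linarith
    · right; linarith
  have hk0 : (0 : ℝ) ≤ 4 * Δ * k := by positivity
  have hmem : x ∈ {z | Φ z < τ} := by
    refine loc_const (fun z hz => ?_) hy (show Φ y < τ by linarith) hx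
    obtain ⟨δ, hδ, h⟩ := h2 z hz
    refine ⟨δ, hδ, fun a ha hD => ?_⟩
    obtain ⟨h3, h4⟩ := abs_le.1 (h a ha hD)
    change Φ z < τ ↔ Φ (Z.mv z a) < τ
    rcases hsep z hz with h5 | h5
    · exact ⟨fun _ => by linarith, fun _ => by linarith⟩
    · exact ⟨fun _ => by linarith, fun _ => by linarith⟩
  have h3 : Φ x < τ := hmem
  have h4 : (k : ℝ) ≤ s.card := by exact_mod_cast Nat.lt_succ_iff.1 hk
  nlinarith

end Flat

end Pool.Agent.MP_b29402_an

end

-- part MP_b29402_an.Act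
section

/-! The action of area preserving linear maps. `L` maps the new coordinates to the old ones. -/

open MeasureTheory Set Filter Topology ProbabilityTheory
open scoped ComplexConjugate ENNReal

namespace Pool.Agent.MP_b29402_an

namespace Flat

variable {X : Type*} [MeasurableSpace X]

theorem vis_preimage (L : P2 ≃L[ℝ] P2) (D : Set P2) (w : P2) : Vis (L ⁻¹' D) w ↔ Vis D (L w) := by
  simp only [Vis, mem_preimage, map_smul]

theorem Act_image (Z : Flat X) (L : P2 ≃L[ℝ] P2) (x : X) (A : Set P2) :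
    (fun v => Z.mv x (L v)) '' A = Z.mv x '' (L '' A) := by
  rw [image_image]

theorem Act_vol (L : P2 ≃L[ℝ] P2) (hL : MeasurePreserving L volume volume) {A : Set P2}
    (hA : MeasurableSet A) : MeasurableSet (L '' A) ∧ volume (L '' A) = volume A := by
  have hm : MeasurableSet (L '' A) := by
    rw [L.image_eq_preimage_symm]
    exact L.symm.continuous.measurable hA
  refine ⟨hm, ?_⟩
  rw [← hL.measure_preimage hm.nullMeasurableSet, preimage_image_eq _ L.injective]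

theorem Act_thick0 (Z : Flat X) (L : P2 ≃L[ℝ] P2) :
    ∃ ρ : ℝ, 0 < ρ ∧ ∀ x, ({w | Vis (L ⁻¹' Z.D x) w} ∩ Metric.ball 0 ρ).Subsingleton := by
  obtain ⟨ρ, hρ, h⟩ := Z.thick0
  have h1 : L ⁻¹' Metric.ball 0 ρ ∈ 𝓝 (0 : P2) :=
    L.continuous.continuousAt.preimage_mem_nhds (by rw [map_zero]; exact Metric.ball_mem_nhds _ hρ)
  obtain ⟨ρ', hρ', h2⟩ := Metric.mem_nhds_iff.1 h1
  refine ⟨ρ', hρ', fun x a ha b hb => L.injective ?_⟩
  exact h x ⟨(vis_preimage L _ _).1 ha.1, h2 ha.2⟩ ⟨(vis_preimage L _ _).1 hb.1, h2 hb.2⟩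

theorem Act_charts (Z : Flat X) (L : P2 ≃L[ℝ] P2) (hL : MeasurePreserving L volume volume) :
    ∃ (c : ℕ → X) (K : ℕ → Set P2),
    (∀ i, IsOpen (K i) ∧ Convex ℝ (K i) ∧ (0 : P2) ∈ K i ∧ K i ⊆ L ⁻¹' Z.D (c i) ∧
      InjOn (fun v => Z.mv (c i) (L v)) (K i) ∧
      ∀ A ⊆ K i, MeasurableSet A →
        MeasurableSet ((fun v => Z.mv (c i) (L v)) '' A) ∧
          Z.μ ((fun v => Z.mv (c i) (L v)) '' A) = volume A) ∧
    ∀ x, (0 : P2) ∈ L ⁻¹' Z.D x → ∃ i, x ∈ (fun v => Z.mv (c i) (L v)) '' K i := by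
  obtain ⟨c, K, h1, h2⟩ := Z.charts
  refine ⟨c, fun i => L ⁻¹' K i, fun i => ?_, fun x hx => ?_⟩
  · obtain ⟨a1, a2, a3, a4, a5, a6⟩ := h1 i
    refine ⟨a1.preimage L.continuous, a2.linear_preimage (L : P2 →ₗ[ℝ] P2), ?_,
      preimage_mono a4, fun a ha b hb hab => L.injective (a5 ha hb hab), fun A hA hm => ?_⟩
    · rwa [mem_preimage, map_zero]
    · obtain ⟨b1, b2⟩ := Act_vol L hL hm
      rw [Act_image, ← b2]
      exact a6 _ (image_subset_iff.2 hA) b1
  · rw [mem_preimage, map_zero] at hx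
    obtain ⟨i, hi⟩ := h2 x hx
    refine ⟨i, ?_⟩
    rwa [Act_image, image_preimage_eq _ L.surjective]

/-- the surface seen in the coordinates given by `L` -/
noncomputable def act (Z : Flat X) (L : P2 ≃L[ℝ] P2) (hL : MeasurePreserving L volume volume) :
    Flat X where
  μ := Z.μ
  D x := L ⁻¹' Z.D x
  mv x v := Z.mv x (L v)
  N := Z.N
  prob := Z.prob
  ae_reg := by simpa only [mem_preimage, map_zero] using Z.ae_reg
  mv_zero := fun x => by rw [map_zero, Z.mv_zero]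
  open_D := fun x => (Z.open_D x).preimage L.continuous
  star := fun x v hv t h0 h1 => by
    rw [mem_preimage, map_smul]
    exact Z.star x _ hv t h0 h1
  conv := fun x K hK h0 hD a ha b hb => by
    rw [mem_preimage, map_sub]
    exact Z.conv x (L '' K) (hK.linear_image (L : P2 →ₗ[ℝ] P2)) ⟨0, h0, map_zero L⟩
      (image_subset_iff.2 hD) _ (mem_image_of_mem _ ha) _ (mem_image_of_mem _ hb)
  thick0 := Act_thick0 Z L
  card := fun w => by simpa only [vis_preimage] using Z.card (L w)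
  exV := by
    obtain ⟨x, w, h⟩ := Z.exV
    exact ⟨x, L.symm w, by rwa [vis_preimage, L.apply_symm_apply]⟩
  conn := fun A h1 h2 x hx => by
    simp only [mem_preimage, map_zero] at h1 h2 hx
    refine Z.conn A h1 (fun y hy v hv => ?_) x hx
    have := h2 y hy (L.symm v) (by rwa [L.apply_symm_apply])
    rwa [L.apply_symm_apply] at this
  charts := Act_charts Z L hL
  meas_mv := Z.meas_mv.comp (measurable_fst.prodMk (L.continuous.measurable.comp measurable_snd))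
  meas_D := (measurable_fst.prodMk (L.continuous.measurable.comp measurable_snd)) Z.meas_D

variable {Z : Flat X} {L : P2 ≃L[ℝ] P2} {hL : MeasurePreserving L volume volume}

theorem act_μ : (Z.act L hL).μ = Z.μ := rfl

theorem act_N : (Z.act L hL).N = Z.N := rfl

theorem act_mv (x : X) (v : P2) : (Z.act L hL).mv x v = Z.mv x (L v) := rfl

theorem act_D (x : X) (v : P2) : v ∈ (Z.act L hL).D x ↔ L v ∈ Z.D x := Iff.rfl

theorem act_reg (x : X) : (Z.act L hL).reg x ↔ Z.reg x := by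
  rw [reg, act_D, map_zero, reg]

theorem act_V (x : X) (w : P2) : w ∈ (Z.act L hL).V x ↔ L w ∈ Z.V x := vis_preimage L _ w

theorem act_SC (δ : X × P2) : (Z.act L hL).SC δ ↔ Z.SC (δ.1, L δ.2) := by
  rw [SC, act_V, act_V, map_neg, SC]

theorem act_SC' (δ : X × P2) : (Z.act L hL).SC (δ.1, L.symm δ.2) ↔ Z.SC δ := by
  rw [act_SC, L.apply_symm_apply]

theorem act_seg (δ : X × P2) : (Z.act L hL).seg δ = Z.seg (δ.1, L δ.2) := by
  simp only [seg, act_mv, map_smul]

theorem act_seg' (δ : X × P2) : (Z.act L hL).seg (δ.1, L.symm δ.2) = Z.seg δ := by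
  rw [act_seg, L.apply_symm_apply]

theorem act_cross (δ γ : X × P2) :
    (Z.act L hL).Cross δ γ ↔ Z.Cross (δ.1, L δ.2) (γ.1, L γ.2) := by
  rw [Cross, Cross, act_seg, act_seg, det2_map_ne_zero]

theorem act_per (v : P2) : (Z.act L hL).Per v = Z.Per (L v) := rfl

theorem act_thick (ε : ℝ) : (Z.act L hL).Thick ε ↔ ∀ δ, Z.SC δ → ε ≤ ‖L.symm δ.2‖ := by
  refine ⟨fun h δ hδ => h (δ.1, L.symm δ.2) ((act_SC' δ).2 hδ), fun h δ hδ => ?_⟩
  have := h _ ((act_SC δ).1 hδ)
  rwa [L.symm_apply_apply] at this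

theorem thickAt_iff {T : ℝ} (hT : 0 < T) (θ ε : ℝ) :
    Z.ThickAt T θ ε ↔ (Z.act (ren T θ hT) (sl_mp _ _ _ _ _)).Thick ε := by
  rw [act_thick]
  simp only [norm_ren_symm, ThickAt]

open Classical in
/-- transport of a disjoint family -/
theorem Disj.act {F : Finset (X × P2)} (h : Z.Disj F) :
    (Z.act L hL).Disj (F.image fun δ => (δ.1, L.symm δ.2)) ∧
      (F.image fun δ => (δ.1, L.symm δ.2)).card = F.card := by
  refine ⟨⟨fun δ hδ => ?_, fun δ hδ γ hγ hne => ?_⟩, Finset.card_image_of_injective _ ?_⟩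
  · obtain ⟨δ, h1, rfl⟩ := Finset.mem_image.1 hδ
    exact (act_SC' δ).2 (h.1 δ h1)
  · obtain ⟨δ, h1, rfl⟩ := Finset.mem_image.1 hδ
    obtain ⟨γ, h2, rfl⟩ := Finset.mem_image.1 hγ
    rw [act_seg', act_seg']
    exact h.2 δ h1 γ h2 fun e => hne (by rw [e])
  · intro a b hab
    exact Prod.ext (Prod.ext_iff.1 hab).1 (L.symm.injective (Prod.ext_iff.1 hab).2)

end Flat

end Pool.Agent.MP_b29402_an

end
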