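import Pool.Agent.MP_b29402_an.Mg.G2
import Pool.Agent.MP_b29402_an.Mg.Pl2

-- part MP_b29402_an.MW
section

/-! Minsky-Weiss nondivergence along shears. -/

open MeasureTheory Set Filter Topology ProbabilityTheory
open scoped ComplexConjugate ENNReal

namespace Pool.Agent.MP_b29402_an

/-- the open interval of slopes where `q` is nearly vertical -/
def slopeI (T b : ℝ) (q : P2) : Set ℝ := {u | T * |q.1 - u * q.2| < b}

theorem isOpen_slopeI (T b : ℝ) (q : P2) : IsOpen (slopeI T b q) :=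
  isOpen_lt (by fun_prop) continuous_const

theorem MW_mem {T b : ℝ} (hT : 0 < T) {q : P2} (hq : 0 < q.2) (M v : ℝ) :
    v ∈ slopeI T (M * b) q ↔ |v - q.1 / q.2| < M * (b / (T * q.2)) := by
  have h1 : T * |q.1 - v * q.2| = |v - q.1 / q.2| * (T * q.2) := by
    have : q.1 - v * q.2 = -((v - q.1 / q.2) * q.2) := by field_simp; ring
    rw [this, abs_neg, abs_mul, abs_of_pos hq]
    ring
  rw [← mul_div_assoc, lt_div_iff₀ (by positivity), ← h1]
  rfl

theorem MW_eq {T : ℝ} {q : P2} (hq : 0 < q.2) (v : ℝ) :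
    T * |q.1 - v * q.2| = |v - q.1 / q.2| * (T * q.2) := by
  have : q.1 - v * q.2 = -((v - q.1 / q.2) * q.2) := by field_simp; ring
  rw [this, abs_neg, abs_mul, abs_of_pos hq]
  ring

/-- `q.2 > 0` (if `q.2 = 0` then `slen` is constant). With `r = b / (T q.2)`, `u* = q.1 / q.2`:
`slopeI T (2 b) q = Ioo (u* - 2 r) (u* + 2 r)`, `|u - u*| ≤ r`, `|u1 - u*| ≥ 2 Λ r`; the interval between `u`
and `u* ± 2 Λ r` lies in `slopeI T (2 Λ b) q ∩ Icc a c` and has length `≥ (2 Λ - 1) r ≥ Λ r`. -/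
theorem volume_slopeI_le {T b Λ a c u u1 : ℝ} (hT : 0 < T) (hb : 0 < b) (hΛ : 1 ≤ Λ) {q : P2}
    (hq : 0 ≤ q.2) (hu : u ∈ Icc a c) (hu1 : u1 ∈ Icc a c) (h : slen T u q ≤ b)
    (h1 : 2 * Λ * b ≤ slen T u1 q) :
    0 < q.2 ∧ volume (slopeI T (2 * b) q) ≤
      ENNReal.ofReal (4 / Λ) * volume (slopeI T (2 * Λ * b) q ∩ Icc a c) := by
  have h2 : T * |q.1 - u * q.2| ≤ b := (le_max_left _ _).trans h
  have h3 : |q.2| / T ≤ b := (le_max_right _ _).trans h
  have hΛb : b < 2 * Λ * b := by nlinarith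
  have h4 : 2 * Λ * b ≤ T * |q.1 - u1 * q.2| := by
    rcases le_max_iff.mp h1 with h5 | h5
    · exact h5
    · linarith
  have hq2 : 0 < q.2 := by
    refine lt_of_le_of_ne hq fun h0 => ?_
    rw [← h0, mul_zero] at h2 h4
    linarith
  refine ⟨hq2, ?_⟩
  have hTq : 0 < T * q.2 := by positivity
  rw [MW_eq hq2, ← le_div_iff₀ hTq] at h2
  rw [MW_eq hq2, ← div_le_iff₀ hTq, mul_div_assoc] at h4
  have hm := MW_mem (b := b) hT hq2
  have hr : 0 < b / (T * q.2) := by positivity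
  generalize b / (T * q.2) = r at h2 h4 hm hr
  generalize q.1 / q.2 = s at h2 h4 hm
  have e1 : slopeI T (2 * b) q = Ioo (s - 2 * r) (s + 2 * r) := by
    ext v
    rw [hm, abs_lt, mem_Ioo]
    constructor <;> rintro ⟨h5, h6⟩ <;> constructor <;> linarith
  have hΛr : r ≤ Λ * r := by nlinarith
  have e2 : ENNReal.ofReal (Λ * r) ≤ volume (slopeI T (2 * Λ * b) q ∩ Icc a c) := by
    rw [abs_le] at h2
    rcases le_abs'.mp h4 with h5 | h5
    · calc ENNReal.ofReal (Λ * r) ≤ volume (Ioo (s - 2 * Λ * r) (s - r)) := by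
            rw [Real.volume_Ioo]
            exact ENNReal.ofReal_le_ofReal (by linarith)
        _ ≤ _ := by
            refine measure_mono fun v hv => ⟨?_, ?_, ?_⟩
            · rw [hm, abs_lt]
              constructor <;> linarith [hv.1, hv.2]
            · linarith [hv.1, hu1.1]
            · linarith [hv.2, hu.2, h2.1]
    · calc ENNReal.ofReal (Λ * r) ≤ volume (Ioo (s + r) (s + 2 * Λ * r)) := by
            rw [Real.volume_Ioo]
            exact ENNReal.ofReal_le_ofReal (by linarith)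
        _ ≤ _ := by
            refine measure_mono fun v hv => ⟨?_, ?_, ?_⟩
            · rw [hm, abs_lt]
              constructor <;> linarith [hv.1, hv.2]
            · linarith [hv.1, hu.1, h2.2]
            · linarith [hv.2, hu1.2]
  have hΛ0 : 0 < Λ := by linarith
  calc volume (slopeI T (2 * b) q) = ENNReal.ofReal (4 / Λ) * ENNReal.ofReal (Λ * r) := by
        rw [e1, Real.volume_Ioo, ← ENNReal.ofReal_mul (by positivity)]
        congr 1
        field_simp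
        ring
    _ ≤ _ := by gcongr

namespace Flat

variable {X : Type*} [MeasurableSpace X] {Z : Flat X}

theorem MW_nc {T Λ b u u' u0 : ℝ} (hT : 0 < T) (hb : 0 < b) (hΛ : 1 ≤ Λ) {δ γ : X × P2}
    (hδ : Z.Mark T u (5 * Λ) b δ) (hγ : Z.Mark T u' (5 * Λ) b γ) (h2 : 0 < γ.2.2)
    (hle : γ.2.2 ≤ δ.2.2) (h3 : u0 ∈ slopeI T (2 * Λ * b) δ.2)
    (h4 : u0 ∈ slopeI T (2 * Λ * b) γ.2) : ¬ Z.Cross δ γ := by
  refine hδ.2.2 γ hγ.1 (max_le ?_ ?_)
  · have a1 : T * |δ.2.1 - u * δ.2.2| ≤ b := (le_max_left _ _).trans hδ.2.1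
    have a2 : T * |δ.2.1 - u0 * δ.2.2| < 2 * Λ * b := h3
    have a3 : T * |γ.2.1 - u0 * γ.2.2| < 2 * Λ * b := h4
    have a4 : |γ.2.1 - u * γ.2.2| ≤ |γ.2.1 - u0 * γ.2.2| + |u0 - u| * γ.2.2 := by
      have : γ.2.1 - u * γ.2.2 = (γ.2.1 - u0 * γ.2.2) + (u0 - u) * γ.2.2 := by ring
      rw [this]
      refine (abs_add_le _ _).trans ?_
      rw [abs_mul, abs_of_pos h2]
    have a5 : |u0 - u| * δ.2.2 ≤ |δ.2.1 - u * δ.2.2| + |δ.2.1 - u0 * δ.2.2| := by
      have : |u0 - u| * δ.2.2 = |(δ.2.1 - u * δ.2.2) - (δ.2.1 - u0 * δ.2.2)| := by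
        rw [← abs_of_pos (h2.trans_le hle), ← abs_mul, abs_of_pos (h2.trans_le hle)]
        congr 1
        ring
      rw [this]
      exact abs_sub _ _
    have a6 : |u0 - u| * γ.2.2 ≤ |u0 - u| * δ.2.2 := mul_le_mul_of_nonneg_left hle (abs_nonneg _)
    have a7 : T * |γ.2.1 - u * γ.2.2| ≤
        T * (|γ.2.1 - u0 * γ.2.2| + (|δ.2.1 - u * δ.2.2| + |δ.2.1 - u0 * δ.2.2|)) :=
      mul_le_mul_of_nonneg_left (by linarith) hT.le
    have a8 : b ≤ Λ * b := by nlinarith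
    linarith
  · have a1 : |γ.2.2| / T ≤ b := (le_max_right _ _).trans hγ.2.1
    nlinarith

/-- If `γ.2.2 ≤ δ.2.2`: `slen T u γ.2 ≤ 2 Λ b + T |u0 - u| γ.2.2 ≤ 5 Λ b`, so the mark of `δ` forbids the
crossing; symmetrically otherwise. If the segments meet they are parallel, `par_eq` and positivity of the
second coordinates give `δ = γ`. -/
theorem Mark.disjoint {T Λ b u u' u0 : ℝ} (hT : 0 < T) (hb : 0 < b) (hΛ : 1 ≤ Λ) {δ γ : X × P2}
    (hδ : Z.Mark T u (5 * Λ) b δ) (hγ : Z.Mark T u' (5 * Λ) b γ) (h1 : 0 < δ.2.2)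
    (h2 : 0 < γ.2.2) (h3 : u0 ∈ slopeI T (2 * Λ * b) δ.2) (h4 : u0 ∈ slopeI T (2 * Λ * b) γ.2)
    (hne : δ ≠ γ) : Disjoint (Z.seg δ) (Z.seg γ) := by
  rw [Set.disjoint_iff_inter_eq_empty]
  by_contra h
  have hn : (Z.seg δ ∩ Z.seg γ).Nonempty := Set.nonempty_iff_ne_empty.mpr h
  by_cases hd : det2 δ.2 γ.2 = 0
  · obtain ⟨e1, e2 | e2⟩ := par_eq hδ.1 hγ.1 hn hd
    · exact hne (Prod.ext e1.symm e2.symm)
    · rw [e2, Prod.snd_neg] at h2
      linarith
  · rcases le_total γ.2.2 δ.2.2 with hle | hle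
    · exact MW_nc hT hb hΛ hδ hγ h2 hle h3 h4 ⟨hn, hd⟩
    · refine MW_nc hT hb hΛ hγ hδ h1 hle h4 h3 ⟨by rwa [inter_comm], fun h0 => hd ?_⟩
      unfold det2 at h0 ⊢
      linarith

/-- at each `u0` at most `3 N` of the larger intervals overlap (`Mark.disjoint`, `Disj.card_le`); integrate the
sum of the indicators over `Icc a c` (`lintegral_finset_sum`, `lintegral_indicator_one`). -/
theorem sum_volume_le {T Λ b a c : ℝ} (hT : 0 < T) (hb : 0 < b) (hΛ : 1 ≤ Λ)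
    (F : Finset (X × P2)) (hF : ∀ δ ∈ F, 0 < δ.2.2 ∧ ∃ u, Z.Mark T u (5 * Λ) b δ) :
    ∑ δ ∈ F, volume (slopeI T (2 * Λ * b) δ.2 ∩ Icc a c) ≤ 3 * Z.N * volume (Icc a c) := by
  classical
  have hm : ∀ δ : X × P2, MeasurableSet (slopeI T (2 * Λ * b) δ.2) := fun δ =>
    (isOpen_slopeI _ _ _).measurableSet
  have h1 : ∀ δ ∈ F, volume (slopeI T (2 * Λ * b) δ.2 ∩ Icc a c)
      = ∫⁻ u in Icc a c, (slopeI T (2 * Λ * b) δ.2).indicator (1 : ℝ → ℝ≥0∞) u := by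
    intro δ _
    rw [lintegral_indicator_one (hm δ), Measure.restrict_apply (hm δ)]
  have h2 : ∀ u0 : ℝ, ∑ δ ∈ F, (slopeI T (2 * Λ * b) δ.2).indicator (1 : ℝ → ℝ≥0∞) u0
      ≤ 3 * Z.N := by
    intro u0
    have h3 : Z.Disj (F.filter fun δ => u0 ∈ slopeI T (2 * Λ * b) δ.2) := by
      refine ⟨fun δ hδ => ?_, fun δ hδ γ hγ hne => ?_⟩
      · obtain ⟨-, u, hu⟩ := hF δ (Finset.mem_filter.mp hδ).1
        exact hu.1
      · obtain ⟨hδ1, hδ2⟩ := Finset.mem_filter.mp hδ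
        obtain ⟨hγ1, hγ2⟩ := Finset.mem_filter.mp hγ
        obtain ⟨p1, u, hu⟩ := hF δ hδ1
        obtain ⟨p2, u', hu'⟩ := hF γ hγ1
        exact hu.disjoint hT hb hΛ hu' p1 p2 hδ2 hγ2 hne
    simp only [Set.indicator_apply, Pi.one_apply]
    rw [Finset.sum_boole]
    exact_mod_cast h3.card_le
  rw [Finset.sum_congr rfl h1,
    ← lintegral_finsetSum _ fun δ _ => measurable_one.indicator (hm δ)]
  calc _ ≤ ∫⁻ _ in Icc a c, (3 * Z.N : ℝ≥0∞) := lintegral_mono h2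
    _ = _ := by rw [setLIntegral_const]

theorem MW_compact {Λ ε ρ T a c : ℝ} (hΛ : 1 ≤ Λ) (hε : 0 < ε)
    (hε1 : 64 * (Z.N : ℝ) * ((4 * (5 * Λ)) ^ (3 * Z.N) * ε) ^ 2 < 1)
    (hε2 : 2 * Λ * ((4 * (5 * Λ)) ^ (3 * Z.N) * ε) ≤ ρ) (hT : 0 < T)
    (hlong : ∀ δ, Z.SC δ → ∃ u ∈ Icc a c, ρ ≤ slen T u δ.2) {K : Set ℝ}
    (hK : K ⊆ {u | u ∈ Icc a c ∧ ∃ δ, Z.SC δ ∧ slen T u δ.2 < ε}) (hKc : IsCompact K) :
    volume K ≤ ((3 * Z.N + 1 : ℕ) : ℝ≥0∞) *
      (ENNReal.ofReal (4 / Λ) * (3 * Z.N * volume (Icc a c))) := by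
  classical
  have hb : ∀ k : ℕ, 0 < (4 * (5 * Λ)) ^ k * ε := fun k => by positivity
  have hb' : ∀ k ≤ 3 * Z.N, 2 * Λ * ((4 * (5 * Λ)) ^ k * ε) ≤ ρ := fun k hk => by
    refine le_trans ?_ hε2
    have : (4 * (5 * Λ)) ^ k ≤ (4 * (5 * Λ)) ^ (3 * Z.N) := pow_le_pow_right₀ (by linarith) hk
    gcongr
  obtain ⟨G, hG, hGf, hGK⟩ := hKc.elim_finite_subcover_image
    (b := {p : ℕ × X × P2 | p.1 ≤ 3 * Z.N ∧ 0 ≤ p.2.2.2 ∧
      ∃ u ∈ Icc a c, Z.Mark T u (5 * Λ) ((4 * (5 * Λ)) ^ p.1 * ε) p.2})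
    (c := fun p => slopeI T (2 * ((4 * (5 * Λ)) ^ p.1 * ε)) p.2.2)
    (fun p _ => isOpen_slopeI _ _ _) (fun u hu => by
      obtain ⟨h1, δ, h2, h3⟩ := hK hu
      obtain ⟨k, hk, γ, h4, h5⟩ := exists_mark (Λ := 5 * Λ) (u := u) (by linarith) hε hT hε1
        ⟨δ, h2, h3.le⟩
      refine mem_biUnion (x := (k, γ)) ⟨hk, h4, u, h1, h5⟩ ?_
      have h6 : T * |γ.2.1 - u * γ.2.2| ≤ (4 * (5 * Λ)) ^ k * ε := (le_max_left _ _).trans h5.2.1
      have h7 := hb k
      change T * |γ.2.1 - u * γ.2.2| < 2 * ((4 * (5 * Λ)) ^ k * ε)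
      linarith)
  let F : ℕ → Finset (X × P2) := fun k => (hGf.toFinset.filter fun p => p.1 = k).image Prod.snd
  have hF : ∀ k, ∀ δ ∈ F k, (k, δ) ∈ G := by
    intro k δ hδ
    obtain ⟨p, hp, rfl⟩ := Finset.mem_image.mp hδ
    obtain ⟨hp1, rfl⟩ := Finset.mem_filter.mp hp
    exact hGf.mem_toFinset.mp hp1
  have hcov : K ⊆ ⋃ k ∈ Finset.range (3 * Z.N + 1), ⋃ δ ∈ F k,
      slopeI T (2 * ((4 * (5 * Λ)) ^ k * ε)) δ.2 := by
    intro u hu
    obtain ⟨p, hp, hu'⟩ := mem_iUnion₂.mp (hGK hu)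
    refine mem_iUnion₂.mpr ⟨p.1, Finset.mem_range.mpr (Nat.lt_succ_of_le (hG hp).1),
      mem_iUnion₂.mpr ⟨p.2, Finset.mem_image.mpr ⟨p, ?_, rfl⟩, hu'⟩⟩
    exact Finset.mem_filter.mpr ⟨hGf.mem_toFinset.mpr hp, rfl⟩
  have hk : ∀ k ∈ Finset.range (3 * Z.N + 1),
      volume (⋃ δ ∈ F k, slopeI T (2 * ((4 * (5 * Λ)) ^ k * ε)) δ.2) ≤
        ENNReal.ofReal (4 / Λ) * (3 * Z.N * volume (Icc a c)) := by
    intro k _
    have h1 : ∀ δ ∈ F k, 0 < δ.2.2 ∧ volume (slopeI T (2 * ((4 * (5 * Λ)) ^ k * ε)) δ.2) ≤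
        ENNReal.ofReal (4 / Λ) *
          volume (slopeI T (2 * Λ * ((4 * (5 * Λ)) ^ k * ε)) δ.2 ∩ Icc a c) := by
      intro δ hδ
      obtain ⟨p1, p2, u, hu, p3⟩ := hG (hF k δ hδ)
      obtain ⟨u1, hu1, p4⟩ := hlong δ p3.1
      exact volume_slopeI_le hT (hb k) hΛ p2 hu hu1 p3.2.1 ((hb' k p1).trans p4)
    refine (measure_biUnion_finset_le _ _).trans ?_
    refine (Finset.sum_le_sum fun δ hδ => (h1 δ hδ).2).trans ?_
    rw [← Finset.mul_sum]
    refine mul_le_mul_right (sum_volume_le hT (hb k) hΛ (F k) fun δ hδ => ⟨(h1 δ hδ).1, ?_⟩) _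
    obtain ⟨-, -, u, -, p3⟩ := hG (hF k δ hδ)
    exact ⟨u, p3⟩
  refine (measure_mono hcov).trans ((measure_biUnion_finset_le _ _).trans ?_)
  refine (Finset.sum_le_sum hk).trans ?_
  rw [Finset.sum_const, Finset.card_range, nsmul_eq_mul]

/-- Take `Λ ≥ 1` with `12 N (3 N + 1) / Λ ≤ η`, then `ε` with `64 N ((20 Λ) ^ (3 N) ε)² < 1` and
`2 Λ (20 Λ) ^ (3 N) ε ≤ ρ`. The set is `Icc a c ∩` an open set, hence measurable; bound the measure of a compact
subset `K` (`MeasurableSet.measure_eq_iSup_isCompact`): each `u ∈ K` has a mark `(k, δ)` (`exists_mark` with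
`5 Λ`), `u ∈ slopeI T (2 b k) δ.2`; finite subcover, group by `k` (images as finsets of `δ`),
`volume_slopeI_le`, `sum_volume_le`. -/
theorem nondiv_shear (N : ℕ) {ρ η : ℝ} (hρ : 0 < ρ) (hη : 0 < η) :
    ∃ ε : ℝ, 0 < ε ∧ ∀ Z : Flat X, Z.N = N → ∀ T a c : ℝ, 0 < T → a < c →
      (∀ δ, Z.SC δ → ∃ u ∈ Icc a c, ρ ≤ slen T u δ.2) →
      volume {u | u ∈ Icc a c ∧ ∃ δ, Z.SC δ ∧ slen T u δ.2 < ε} ≤
        ENNReal.ofReal (η * (c - a)) := by
  obtain ⟨Λ, hΛ, hΛη⟩ : ∃ Λ : ℝ, 1 ≤ Λ ∧ (3 * N + 1) * (4 / Λ * (3 * N)) ≤ η := by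
    have h0 : 0 ≤ (3 * (N : ℝ) + 1) * (12 * N) / η := by positivity
    refine ⟨1 + (3 * N + 1) * (12 * N) / η, by linarith, ?_⟩
    have h1 : (3 * (N : ℝ) + 1) * (4 / (1 + (3 * N + 1) * (12 * N) / η) * (3 * N))
        = (3 * N + 1) * (12 * N) / (1 + (3 * N + 1) * (12 * N) / η) := by ring
    rw [h1, div_le_iff₀ (by linarith), mul_add, mul_div_cancel₀ _ hη.ne']
    linarith
  have hR : 1 ≤ (4 * (5 * Λ)) ^ (3 * N) := one_le_pow₀ (by linarith)
  obtain ⟨ε, hε, hε1, hε2⟩ : ∃ ε : ℝ, 0 < ε ∧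
      64 * (N : ℝ) * ((4 * (5 * Λ)) ^ (3 * N) * ε) ^ 2 < 1 ∧
      2 * Λ * ((4 * (5 * Λ)) ^ (3 * N) * ε) ≤ ρ := by
    generalize (4 * (5 * Λ)) ^ (3 * N) = R at hR
    have hN : (0 : ℝ) ≤ N := Nat.cast_nonneg N
    have hx : 0 < min (1 / (8 * ((N : ℝ) + 1))) (ρ / (2 * Λ)) := by positivity
    have hx1 := min_le_left (1 / (8 * ((N : ℝ) + 1))) (ρ / (2 * Λ))
    have hx2 := min_le_right (1 / (8 * ((N : ℝ) + 1))) (ρ / (2 * Λ))
    generalize min (1 / (8 * ((N : ℝ) + 1))) (ρ / (2 * Λ)) = x at hx hx1 hx2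
    have hRx : R * (x / R) = x := by field_simp
    refine ⟨x / R, by positivity, ?_, ?_⟩
    · rw [hRx]
      rw [le_div_iff₀ (by positivity)] at hx1
      have h1 : (x * (8 * ((N : ℝ) + 1))) ^ 2 ≤ 1 := pow_le_one₀ (by positivity) hx1
      have h2 : 0 < x ^ 2 := by positivity
      nlinarith [mul_nonneg h2.le (sq_nonneg (N : ℝ)), mul_nonneg h2.le hN]
    · rw [hRx]
      rw [le_div_iff₀ (by positivity)] at hx2
      linarith
  refine ⟨ε, hε, fun Z hZ T a c hT hac hlong => ?_⟩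
  subst hZ
  have hA : MeasurableSet {u | u ∈ Icc a c ∧ ∃ δ, Z.SC δ ∧ slen T u δ.2 < ε} := by
    refine measurableSet_Icc.inter (IsOpen.measurableSet ?_)
    have : {u | ∃ δ, Z.SC δ ∧ slen T u δ.2 < ε} = ⋃ δ ∈ {δ | Z.SC δ}, {u | slen T u δ.2 < ε} := by
      ext u
      simp
    change IsOpen {u | ∃ δ, Z.SC δ ∧ slen T u δ.2 < ε}
    rw [this]
    refine isOpen_biUnion fun δ _ => isOpen_lt ?_ continuous_const
    unfold slen
    fun_prop
  rw [hA.measure_eq_iSup_isCompact]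
  refine iSup_le fun K => iSup_le fun hK => iSup_le fun hKc => ?_
  refine (MW_compact hΛ hε hε1 hε2 hT hlong hK hKc).trans ?_
  have hΛ0 : 0 < Λ := by linarith
  have h1 : ((3 * Z.N + 1 : ℕ) : ℝ≥0∞) = ENNReal.ofReal (3 * Z.N + 1) := by
    rw [← ENNReal.ofReal_natCast]
    push_cast
    rfl
  have h2 : (3 * Z.N : ℝ≥0∞) = ENNReal.ofReal (3 * Z.N) := by
    rw [ENNReal.ofReal_mul (by norm_num), ENNReal.ofReal_natCast, ENNReal.ofReal_ofNat]
  rw [Real.volume_Icc, h1, h2, ← ENNReal.ofReal_mul (by positivity),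
    ← ENNReal.ofReal_mul (by positivity), ← ENNReal.ofReal_mul (by positivity)]
  refine ENNReal.ofReal_le_ofReal ?_
  have := mul_le_mul_of_nonneg_right hΛη (sub_pos.mpr hac).le
  linarith

end Flat

end Pool.Agent.MP_b29402_an

end

-- part MP_b29402_an.Joint
section

/-! Formulas for the joint measures, Markov's inequality, Radon-Nikodym extraction. -/

open MeasureTheory Set Filter Topology ProbabilityTheory
open scoped ComplexConjugate ENNReal

namespace Pool.Agent.MP_b29402_an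

variable (σ : Kernel ℝ ℝ) [IsFiniteKernel σ]

theorem measurable_kint {ψ : ℝ → ℝ} (hψ : Measurable ψ) :
    Measurable fun θ => ∫ y, ψ y ∂(σ θ) := by
  have h : StronglyMeasurable (Function.uncurry fun (_ : ℝ) (y : ℝ) => ψ y) :=
    (hψ.comp measurable_snd).stronglyMeasurable
  exact (h.integral_kernel_prod_right (κ := σ)).measurable

theorem Joint_integrable {Ω : Type*} [MeasurableSpace Ω] (μ : Measure Ω) [IsFiniteMeasure μ]
    {F : Ω → ℝ} (hF : Measurable F) {M : ℝ} (hM : ∀ p, |F p| ≤ M) : Integrable F μ :=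
  Integrable.of_bound hF.aestronglyMeasurable M (Eventually.of_forall fun p => by
    rw [Real.norm_eq_abs]; exact hM p)

theorem integrable_kint {ψ : ℝ → ℝ} (hψ : Measurable ψ) {M : ℝ} (hM : ∀ y, |ψ y| ≤ M) :
    Integrable (fun θ => ∫ y, ψ y ∂(σ θ)) PP := by
  have h : Integrable (fun p : ℝ × ℝ => ψ p.2) (PP ⊗ₘ σ) :=
    Joint_integrable _ (hψ.comp measurable_snd) fun p => hM p.2
  exact h.integral_compProd

/-- `Measure.integral_compProd` -/
theorem integral_mJ {F : ℝ × ℝ → ℝ} (hF : Measurable F) {M : ℝ} (hM : ∀ p, |F p| ≤ M) :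
    ∫ p, F p ∂(mJ σ) = ∫ θ, ∫ y, F (θ, y) ∂(σ θ) ∂PP :=
  Measure.integral_compProd (Joint_integrable _ hF hM)

theorem setIntegral_mJ {ψ : ℝ → ℝ} (hψ : Measurable ψ) {M : ℝ} (hM : ∀ y, |ψ y| ≤ M)
    {J W : Set ℝ} (hJ : MeasurableSet J) (hW : MeasurableSet W) :
    ∫ p in J ×ˢ W, ψ p.2 ∂(mJ σ) = ∫ θ in J, ∫ y in W, ψ y ∂(σ θ) ∂PP := by
  have h : Integrable (fun p : ℝ × ℝ => ψ p.2) (PP ⊗ₘ σ) :=
    Joint_integrable _ (hψ.comp measurable_snd) fun p => hM p.2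
  exact Measure.setIntegral_compProd hJ hW h.integrableOn

theorem integral_Sg {ψ : ℝ → ℝ} (hψ : Measurable ψ) {M : ℝ} (hM : ∀ y, |ψ y| ≤ M) :
    ∫ y, ψ y ∂(Sg σ) = ∫ θ, ∫ y, ψ y ∂(σ θ) ∂PP := by
  rw [← integral_mJ σ (F := fun p => ψ p.2) (hψ.comp measurable_snd) fun p => hM p.2]
  unfold Sg Measure.snd
  exact integral_map measurable_snd.aemeasurable hψ.aestronglyMeasurable

theorem setIntegral_nJ {ψ : ℝ → ℝ} (hψ : Measurable ψ) {M : ℝ} (hM : ∀ y, |ψ y| ≤ M)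
    (J W : Set ℝ) :
    ∫ p in J ×ˢ W, ψ p.2 ∂(nJ σ) = PP.real J * ∫ y in W, ψ y ∂(Sg σ) := by
  unfold nJ
  rw [← Measure.prod_restrict]
  have := integral_prod_mul (μ := PP.restrict J) (ν := (Sg σ).restrict W)
    (fun _ : ℝ => (1 : ℝ)) ψ
  simpa using this

theorem nJ_prod (J W : Set ℝ) : (nJ σ).real (J ×ˢ W) = PP.real J * (Sg σ).real W := by
  unfold nJ
  simp only [Measure.real, Measure.prod_prod, ENNReal.toReal_mul]

theorem Sg_noAtoms (h : ∀ᵐ θ ∂PP, ∀ a, σ θ {a} = 0) (a : ℝ) : Sg σ {a} = 0 := by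
  unfold Sg mJ
  rw [Measure.snd_apply (measurableSet_singleton a),
    Measure.compProd_apply (measurable_snd (measurableSet_singleton a))]
  rw [lintegral_congr_ae (g := fun _ => 0) ?_, lintegral_zero]
  filter_upwards [h] with θ hθ
  exact hθ a

/-- Markov's inequality -/
theorem markov_kint {ψ : ℝ → ℝ} (hψ : Measurable ψ) (h0 : ∀ y, 0 ≤ ψ y) {M : ℝ}
    (hM : ∀ y, ψ y ≤ M) {a : ℝ} (ha : 0 < a) :
    PP.real {θ | a < ∫ y, ψ y ∂(σ θ)} ≤ (∫ y, ψ y ∂(Sg σ)) / a := by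
  have hM' : ∀ y, |ψ y| ≤ M := fun y => by rw [abs_of_nonneg (h0 y)]; exact hM y
  rw [integral_Sg σ hψ hM', le_div_iff₀ ha, mul_comm]
  have h1 := mul_meas_ge_le_integral_of_nonneg (μ := PP)
    (Eventually.of_forall fun θ => integral_nonneg (μ := σ θ) h0) (integrable_kint σ hψ hM') a
  refine le_trans ?_ h1
  refine mul_le_mul_of_nonneg_left ?_ ha.le
  exact measureReal_mono (fun θ (hθ : a < _) => hθ.le)

theorem PP_le (s : Set ℝ) : PP s ≤ volume s := Measure.restrict_apply_le _ _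

theorem PP_eq {s : Set ℝ} (hs : s ⊆ Ico 0 1) : PP s = volume s := by
  unfold PP
  rw [Measure.restrict_apply' measurableSet_Ico, inter_eq_left.2 hs]

/-- `m = m.singularPart ν + ν.withDensity (m.rnDeriv ν)`. If `ν {0 < rnDeriv} = 0` then `m ⟂ ν`. So
for some `n`, `G = {1/(n+1) ≤ rnDeriv ≤ n+1} \ (nullSet complement carrying the singular part)` has
positive measure (`rnDeriv < ∞` a.e.); on `G` the singular part vanishes. -/
theorem exists_comparable {Ω : Type*} [MeasurableSpace Ω] (m ν : Measure Ω) [IsFiniteMeasure m]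
    [IsFiniteMeasure ν] (h : ¬ m ⟂ₘ ν) :
    ∃ G : Set Ω, MeasurableSet G ∧ 0 < ν G ∧ ∃ c C : ℝ, 0 < c ∧ 0 < C ∧
      ENNReal.ofReal c • ν.restrict G ≤ m.restrict G ∧
      m.restrict G ≤ ENNReal.ofReal C • ν.restrict G := by
  set f := m.rnDeriv ν with hf
  have hfm : Measurable f := Measure.measurable_rnDeriv m ν
  have hdec : m = m.singularPart ν + ν.withDensity f := (Measure.haveLebesgueDecomposition_add m ν)
  obtain ⟨S, hS, hS1, hS2⟩ := Measure.mutuallySingular_singularPart m ν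
  let G : ℕ → Set Ω := fun n =>
    {x | ENNReal.ofReal (1 / ((n : ℝ) + 1)) ≤ f x ∧ f x ≤ ENNReal.ofReal ((n : ℝ) + 1)} ∩ S
  have hG : ∀ n, MeasurableSet (G n) := fun n =>
    ((measurableSet_le measurable_const hfm).inter (measurableSet_le hfm measurable_const)).inter hS
  have hex : ∃ n, 0 < ν (G n) := by
    by_contra hcon
    push Not at hcon
    have h0 : ∀ n, ν (G n) = 0 := fun n => nonpos_iff_eq_zero.1 (hcon n)
    have hU : ν (⋃ n, G n) = 0 := measure_iUnion_null h0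
    have hf0 : f =ᵐ[ν] 0 := by
      have h1 : ∀ᵐ x ∂ν, f x < ∞ := Measure.rnDeriv_lt_top m ν
      have h2 : ∀ᵐ x ∂ν, x ∈ S := hS2
      have h3 : ∀ᵐ x ∂ν, x ∉ ⋃ n, G n := measure_eq_zero_iff_ae_notMem.1 hU
      filter_upwards [h1, h2, h3] with x h1 h2 h3
      by_contra hne
      have hpos : 0 < (f x).toReal := ENNReal.toReal_pos hne h1.ne
      obtain ⟨n, hn⟩ := exists_nat_gt (max (f x).toReal (1 / (f x).toReal))
      refine h3 (mem_iUnion.2 ⟨n, ⟨?_, ?_⟩, h2⟩)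
      · rw [← ENNReal.ofReal_toReal h1.ne]
        refine ENNReal.ofReal_le_ofReal ?_
        have h4 : 1 / (f x).toReal < n := lt_of_le_of_lt (le_max_right _ _) hn
        rw [div_lt_iff₀ hpos] at h4
        rw [div_le_iff₀ (by positivity)]
        nlinarith
      · rw [← ENNReal.ofReal_toReal h1.ne]
        refine ENNReal.ofReal_le_ofReal ?_
        have h4 : (f x).toReal < n := lt_of_le_of_lt (le_max_left _ _) hn
        linarith
    apply h
    have : ν.withDensity f = 0 := by rw [withDensity_congr_ae hf0, withDensity_zero]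
    rw [hdec, this, add_zero]
    exact Measure.mutuallySingular_singularPart m ν
  obtain ⟨n, hn⟩ := hex
  have hres : m.restrict (G n) = (ν.restrict (G n)).withDensity f := by
    have h1 : (m.singularPart ν).restrict (G n) = 0 :=
      Measure.restrict_eq_zero.2 (measure_mono_null inter_subset_right hS1)
    conv_lhs => rw [hdec]
    rw [Measure.restrict_add, h1, zero_add, restrict_withDensity (hG n)]
  refine ⟨G n, hG n, hn, 1 / ((n : ℝ) + 1), (n : ℝ) + 1, by positivity, by positivity, ?_, ?_⟩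
  · rw [hres, ← withDensity_const]
    refine withDensity_mono ?_
    filter_upwards [ae_restrict_mem (hG n)] with x hx
    exact hx.1.1
  · rw [hres, ← withDensity_const]
    refine withDensity_mono ?_
    filter_upwards [ae_restrict_mem (hG n)] with x hx
    exact hx.1.2

end Pool.Agent.MP_b29402_an

end

-- part MP_b29402_an.MWt
section

/-! Nondivergence along arcs of directions. -/

open MeasureTheory Set Filter Topology ProbabilityTheory
open scoped ComplexConjugate ENNReal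

namespace Pool.Agent.MP_b29402_an

theorem MWt_angle {φ : ℝ} (h0 : 0 ≤ φ) (h1 : φ ≤ 1 / 8) :
    0 ≤ 2 * Real.pi * φ ∧ 2 * Real.pi * φ ≤ Real.pi / 4 := by
  have hpi := Real.pi_pos
  exact ⟨by positivity, by nlinarith⟩

theorem MWt_cos {β : ℝ} (h0 : 0 ≤ β) (h1 : β ≤ Real.pi / 4) : 1 / 2 ≤ Real.cos β := by
  have hpi := Real.pi_pos
  rw [← Real.cos_pi_div_three]
  exact Real.cos_le_cos_of_nonneg_of_le_pi h0 (by linarith) (by linarith)

theorem MWt_tan_le {β : ℝ} (h0 : 0 ≤ β) (h1 : β ≤ Real.pi / 4) : Real.tan β ≤ 2 * β := by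
  have hc := MWt_cos h0 h1
  rw [Real.tan_eq_sin_div_cos, div_le_iff₀ (by linarith)]
  have := Real.sin_le h0
  nlinarith

theorem MWt_small {T α : ℝ} (hT : 1 ≤ T) (hα : 0 < α) (hα1 : α ≤ 1 / 8) : α / T ^ 2 ≤ 1 / 8 :=
  (div_le_self hα.le (one_le_pow₀ hT)).trans hα1

theorem MWt_ren_symm (θ : ℝ) (q : P2) :
    (ren 1 θ one_pos).symm q = (ip q (nv θ), ip q (ev θ)) := by
  ext
  · change _ * q.1 - _ * q.2 = _
    simp only [ip, nv]; ring
  · change -_ * q.1 + _ * q.2 = _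
    simp only [ip, ev]; ring

theorem MWt_arctan_lip : LipschitzWith 1 Real.arctan := by
  refine lipschitzWith_of_nnnorm_deriv_le Real.differentiable_arctan fun x => ?_
  rw [Real.deriv_arctan, ← NNReal.coe_le_coe, coe_nnnorm, Real.norm_eq_abs, NNReal.coe_one,
    abs_of_pos (by positivity), div_le_one (by positivity)]
  nlinarith [sq_nonneg x]

/-- with `q' = (ren 1 θ1).symm q = (ip q (nv θ1), ip q (ev θ1))`, `β = 2 π φ`, `cos β ≥ 1/2`:
`ip q (nv (θ1 + φ)) = cos β (q'.1 + tan β q'.2)` (`nv_add`) and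
`q'.2 = sin β ip q (nv (θ1 + φ)) + cos β ip q (ev (θ1 + φ))`. -/
theorem slen_le_rlen {T θ1 φ : ℝ} (hT : 1 ≤ T) (h0 : 0 ≤ φ) (h1 : φ ≤ 1 / 8) (q : P2) :
    slen T (-Real.tan (2 * Real.pi * φ)) ((ren 1 θ1 one_pos).symm q) ≤ 2 * rlen T (θ1 + φ) q := by
  have hT0 : 0 < T := by linarith
  obtain ⟨b0, b1⟩ := MWt_angle h0 h1
  have hc := MWt_cos b0 b1
  have hc0 : 0 < Real.cos (2 * Real.pi * φ) := by linarith
  have a1 : T * |ip q (nv (θ1 + φ))| ≤ rlen T (θ1 + φ) q := le_max_left _ _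
  have a2 : |ip q (ev (θ1 + φ))| / T ≤ rlen T (θ1 + φ) q := le_max_right _ _
  have e1 : ip q (nv (θ1 + φ)) = Real.cos (2 * Real.pi * φ) * ip q (nv θ1) +
      Real.sin (2 * Real.pi * φ) * ip q (ev θ1) := by
    rw [nv_add]; simp only [ip, Prod.fst_add, Prod.snd_add, Prod.smul_fst, Prod.smul_snd,
      smul_eq_mul]; ring
  have e2 : ip q (ev (θ1 + φ)) = Real.cos (2 * Real.pi * φ) * ip q (ev θ1) -
      Real.sin (2 * Real.pi * φ) * ip q (nv θ1) := by
    rw [ev_add]; simp only [ip, Prod.fst_sub, Prod.snd_sub, Prod.smul_fst, Prod.smul_snd,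
      smul_eq_mul]; ring
  rw [MWt_ren_symm]
  set X := ip q (nv (θ1 + φ))
  set Y := ip q (ev (θ1 + φ))
  have hX := abs_nonneg X
  have hY := abs_nonneg Y
  refine max_le ?_ ?_
  · have e : ip q (nv θ1) - -Real.tan (2 * Real.pi * φ) * ip q (ev θ1) =
        X / Real.cos (2 * Real.pi * φ) := by
      rw [e1, Real.tan_eq_sin_div_cos]; field_simp; ring
    have h2 : |X / Real.cos (2 * Real.pi * φ)| ≤ 2 * |X| := by
      rw [abs_div, abs_of_pos hc0, div_le_iff₀ hc0]; nlinarith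
    simp only
    rw [e]
    have := mul_le_mul_of_nonneg_left h2 hT0.le
    linarith
  · have e : ip q (ev θ1) = Real.sin (2 * Real.pi * φ) * X + Real.cos (2 * Real.pi * φ) * Y := by
      rw [e1, e2]
      linear_combination (-ip q (ev θ1)) * Real.sin_sq_add_cos_sq (2 * Real.pi * φ)
    have h2 : |ip q (ev θ1)| ≤ |X| + |Y| := by
      rw [e]
      refine (abs_add_le _ _).trans ?_
      rw [abs_mul, abs_mul]
      have := mul_le_mul_of_nonneg_right (Real.abs_sin_le_one (2 * Real.pi * φ)) hX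
      have := mul_le_mul_of_nonneg_right (Real.abs_cos_le_one (2 * Real.pi * φ)) hY
      linarith
    have h3 := div_le_div_of_nonneg_right h2 hT0.le
    rw [add_div] at h3
    have h4 : |X| / T ≤ T * |X| := by
      rw [div_le_iff₀ hT0]
      have : 1 ≤ T * T := by nlinarith
      nlinarith
    simp only
    linarith

/-- at the slopes `0` and `-tan (2 π α / T²) ≤ -α / T²`: with `x = T |q'.1|`, `y = |q'.2| / T` the two values
are at least `E x` and `E (α y - x)`, and `E ≥ 2/α ≥ 16`. -/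
theorem exists_slope_long {T E α θ1 : ℝ} (hT : 1 ≤ T) (hα : 0 < α) (hα1 : α ≤ 1 / 8)
    (hE : 2 ≤ α * E) (q : P2) :
    ∃ u ∈ Icc (-Real.tan (2 * Real.pi * (α / T ^ 2))) 0,
      rlen T θ1 q ≤ slen (T * E) u ((ren 1 θ1 one_pos).symm q) := by
  have hT0 : 0 < T := by linarith
  have hs0 : 0 ≤ α / T ^ 2 := by positivity
  have hs1 : α / T ^ 2 ≤ 1 / 8 := MWt_small hT hα hα1
  obtain ⟨b0, b1⟩ := MWt_angle hs0 hs1
  have hpi := Real.pi_gt_three
  have ht : α / T ^ 2 ≤ Real.tan (2 * Real.pi * (α / T ^ 2)) :=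
    le_trans (by nlinarith) (Real.le_tan b0 (by linarith))
  have hE1 : 16 ≤ E := by
    by_contra h
    push Not at h
    nlinarith
  rw [MWt_ren_symm]
  set τ := Real.tan (2 * Real.pi * (α / T ^ 2))
  set x := ip q (nv θ1)
  set y := ip q (ev θ1)
  have hx := abs_nonneg x
  have hy := abs_nonneg y
  have hτ : 0 ≤ τ := hs0.trans ht
  have hTx : 0 ≤ T * |x| := by positivity
  have hEx : T * |x| ≤ T * E * |x| := by nlinarith
  by_cases hc : |y| / T ≤ T * E * |x|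
  · refine ⟨0, ⟨by linarith, le_rfl⟩, le_trans (max_le hEx hc) ?_⟩
    refine le_trans (le_of_eq ?_) (le_max_left _ _)
    simp
  · push Not at hc
    refine ⟨-τ, ⟨le_rfl, by linarith⟩, le_trans (max_le (hEx.trans hc.le) le_rfl) ?_⟩
    refine le_trans ?_ (le_max_left _ _)
    simp only
    have h1 : τ * |y| - |x| ≤ |x - -τ * y| := by
      have h := abs_sub (x - -τ * y) x
      rw [show x - -τ * y - x = τ * y by ring, abs_mul, abs_of_nonneg hτ] at h
      linarith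
    have h2 : α / T ^ 2 * |y| ≤ τ * |y| := mul_le_mul_of_nonneg_right ht hy
    have hTE : 0 ≤ T * E := by positivity
    have h3 := mul_le_mul_of_nonneg_left (show α / T ^ 2 * |y| - |x| ≤ |x - -τ * y| by linarith) hTE
    have h4 : T * E * (α / T ^ 2 * |y| - |x|) = α * E * (|y| / T) - T * E * |x| := by
      field_simp
    have h5 := mul_le_mul_of_nonneg_right hE (show 0 ≤ |y| / T by positivity)
    linarith

/-- the map `u ↦ θ1 - arctan u / (2 π)` is `1/(2π)`-Lipschitz, and Lipschitz maps of the line scale outer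
measure (`LipschitzWith.hausdorffMeasure_image_le`, `hausdorffMeasure_real`). -/
theorem volume_dir_le (θ1 d : ℝ) (hd : d ≤ 1 / 8) (B : Set ℝ) :
    volume {θ | θ ∈ Icc θ1 (θ1 + d) ∧ -Real.tan (2 * Real.pi * (θ - θ1)) ∈ B} ≤
      ENNReal.ofReal (1 / (2 * Real.pi)) * volume B := by
  have hpi := Real.pi_pos
  have hK : (0 : ℝ) ≤ 1 / (2 * Real.pi) := by positivity
  have hL : LipschitzWith ⟨1 / (2 * Real.pi), hK⟩
      fun u : ℝ => θ1 - Real.arctan u / (2 * Real.pi) := by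
    refine LipschitzWith.of_dist_le_mul fun u v => ?_
    rw [Real.dist_eq, Real.dist_eq]
    have h := MWt_arctan_lip.dist_le_mul v u
    rw [Real.dist_eq, Real.dist_eq, NNReal.coe_one, one_mul, abs_sub_comm v u] at h
    have e : θ1 - Real.arctan u / (2 * Real.pi) - (θ1 - Real.arctan v / (2 * Real.pi)) =
        1 / (2 * Real.pi) * (Real.arctan v - Real.arctan u) := by ring
    rw [e, abs_mul, abs_of_nonneg hK]
    exact mul_le_mul_of_nonneg_left h hK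
  have h := hL.hausdorffMeasure_image_le zero_le_one B
  rw [hausdorffMeasure_real, ENNReal.rpow_one] at h
  rw [ENNReal.ofReal_eq_coe_nnreal hK]
  refine le_trans (measure_mono ?_) h
  rintro θ ⟨⟨h0, h1⟩, hB⟩
  refine ⟨_, hB, ?_⟩
  obtain ⟨b0, b1⟩ := MWt_angle (φ := θ - θ1) (by linarith) (by linarith)
  simp only
  rw [Real.arctan_neg, Real.arctan_tan (by linarith) (by linarith)]
  field_simp
  ring

namespace Flat

variable {X : Type*} [MeasurableSpace X]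

/-- `nondiv_shear` for `Z.act (ren 1 θ1 one_pos) (sl_mp ..)` at level `T E` on
`Icc (-tan (2 π α / T²)) 0` (length `≤ 2 * 2 π α / T²` as `tan x ≤ 2 x` on `[0, π/4]`) with `η / 2`. -/
theorem nondiv_arc (Z : Flat X) {ε0 η : ℝ} (hε : 0 < ε0) (hη : 0 < η) :
    ∃ ε : ℝ, 0 < ε ∧ ∀ T θ1 α E : ℝ, 1 ≤ T → 0 < α → α ≤ 1 / 8 → 2 ≤ α * E →
      Z.ThickAt T θ1 ε0 →
      volume.real (Icc θ1 (θ1 + α / T ^ 2) ∩ {θ | ¬ Z.ThickAt (T * E) θ ε}) ≤
        η * (α / T ^ 2) := by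
  obtain ⟨ε, hε1, H⟩ := nondiv_shear (X := X) Z.N hε (half_pos hη)
  refine ⟨ε / 2, half_pos hε1, fun T θ1 α E hT hα hα1 hE hth => ?_⟩
  have hT0 : 0 < T := by linarith
  have hpi := Real.pi_pos
  have hs0 : 0 < α / T ^ 2 := by positivity
  have hs1 : α / T ^ 2 ≤ 1 / 8 := MWt_small hT hα hα1
  obtain ⟨b0, b1⟩ := MWt_angle hs0.le hs1
  have hE1 : 16 ≤ E := by
    by_contra h
    push Not at h
    nlinarith
  have hTE : 1 ≤ T * E := by nlinarith
  have hτ0 : 0 < Real.tan (2 * Real.pi * (α / T ^ 2)) :=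
    Real.tan_pos_of_pos_of_lt_pi_div_two (by positivity) (by linarith)
  have hτ1 := MWt_tan_le b0 b1
  have hmp : MeasurePreserving (ren 1 θ1 one_pos) volume volume := sl_mp _ _ _ _ _
  have h1 := H (Z.act (ren 1 θ1 one_pos) hmp) rfl (T * E)
    (-Real.tan (2 * Real.pi * (α / T ^ 2))) 0 (by linarith) (by linarith) (fun δ hδ => by
      obtain ⟨u, hu, hle⟩ := exists_slope_long (θ1 := θ1) hT hα hα1 hE (ren 1 θ1 one_pos δ.2)
      rw [ContinuousLinearEquiv.symm_apply_apply] at hle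
      exact ⟨u, hu, (hth _ ((act_SC δ).1 hδ)).trans hle⟩)
  have h2 := volume_dir_le θ1 (α / T ^ 2) hs1
    {u | u ∈ Icc (-Real.tan (2 * Real.pi * (α / T ^ 2))) 0 ∧
      ∃ δ, (Z.act (ren 1 θ1 one_pos) hmp).SC δ ∧ slen (T * E) u δ.2 < ε}
  refine ENNReal.toReal_le_of_le_ofReal (by positivity) ?_
  refine le_trans (measure_mono ?_) (h2.trans ((mul_le_mul_right h1 _).trans ?_))
  · rintro θ ⟨⟨h0, h3⟩, hn⟩
    simp only [ThickAt, mem_ofPred_eq, not_forall, not_le] at hn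
    obtain ⟨δ, hδ, hlt⟩ := hn
    obtain ⟨c0, c1⟩ := MWt_angle (φ := θ - θ1) (by linarith) (by linarith)
    refine ⟨⟨h0, h3⟩, ⟨?_, ?_⟩, (δ.1, (ren 1 θ1 one_pos).symm δ.2), (act_SC' δ).2 hδ, ?_⟩
    · refine neg_le_neg (Real.strictMonoOn_tan.monotoneOn ⟨by linarith, by linarith⟩
        ⟨by linarith, by linarith⟩ ?_)
      exact mul_le_mul_of_nonneg_left (by linarith) (by positivity)
    · exact neg_nonpos.2 (Real.tan_nonneg_of_nonneg_of_le_pi_div_two c0 (by linarith))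
    · have := slen_le_rlen (θ1 := θ1) (φ := θ - θ1) hTE (by linarith) (by linarith) δ.2
      rw [add_sub_cancel] at this
      simp only
      linarith
  · rw [← ENNReal.ofReal_mul (by positivity)]
    refine ENNReal.ofReal_le_ofReal ?_
    have h3 := mul_le_mul_of_nonneg_left hτ1 (show 0 ≤ 1 / (2 * Real.pi) * (η / 2) by positivity)
    have e : 1 / (2 * Real.pi) * (η / 2) * (2 * (2 * Real.pi * (α / T ^ 2))) = η * (α / T ^ 2) := by
      field_simp
    rw [e] at h3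
    refine le_trans (le_of_eq ?_) h3
    ring

/-- eight arcs of length `1/8` with `T = 1`, `α = 1/8`, `E = T`; `thick_pos`, `norm_le_rlen_one`. -/
theorem nondiv_all (Z : Flat X) {η : ℝ} (hη : 0 < η) :
    ∃ ε : ℝ, 0 < ε ∧ ε ≤ 1 ∧ ∀ T : ℝ, 16 ≤ T → PP.real {θ | ¬ Z.ThickAt T θ ε} ≤ η := by
  obtain ⟨ε1, hε1, hth⟩ := Z.thick_pos
  obtain ⟨ε, hε, H⟩ := Z.nondiv_arc (half_pos hε1) hη
  refine ⟨min ε 1, lt_min hε one_pos, min_le_right _ _, fun T hT => ?_⟩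
  have h1 : ∀ k : ℕ, volume.real (Icc ((k : ℝ) / 8) ((k : ℝ) / 8 + 1 / 8 / 1 ^ 2) ∩
      {θ | ¬ Z.ThickAt (1 * T) θ ε}) ≤ η * (1 / 8 / 1 ^ 2) := fun k =>
    H 1 (k / 8) (1 / 8) T le_rfl (by norm_num) le_rfl (by linarith) fun δ hδ => by
      have := hth δ hδ
      have := norm_le_rlen_one ((k : ℝ) / 8) δ.2
      linarith
  have hsub : {θ | ¬ Z.ThickAt T θ (min ε 1)} ∩ Ico (0 : ℝ) 1 ⊆
      ⋃ k ∈ Finset.range 8, Icc ((k : ℝ) / 8) ((k : ℝ) / 8 + 1 / 8 / 1 ^ 2) ∩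
        {θ | ¬ Z.ThickAt (1 * T) θ ε} := by
    rintro θ ⟨hn, h0, h2⟩
    have hf := Nat.floor_le (show 0 ≤ 8 * θ by linarith)
    have hl := Nat.lt_floor_add_one (8 * θ)
    have hk : ⌊8 * θ⌋₊ < 8 := (Nat.floor_lt (by linarith)).2 (by push_cast; linarith)
    refine mem_iUnion₂.2 ⟨⌊8 * θ⌋₊, Finset.mem_range.2 hk, ⟨by linarith, by norm_num; linarith⟩,
      fun h => hn fun δ hδ => ?_⟩
    rw [one_mul] at h
    exact (min_le_left _ _).trans (h δ hδ)
  have hfin : volume (⋃ k ∈ Finset.range 8, Icc ((k : ℝ) / 8) ((k : ℝ) / 8 + 1 / 8 / 1 ^ 2) ∩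
      {θ | ¬ Z.ThickAt (1 * T) θ ε}) ≠ ∞ := by
    refine (measure_biUnion_lt_top (Finset.finite_toSet _) fun k _ => ?_).ne
    exact (measure_mono inter_subset_left).trans_lt measure_Icc_lt_top
  have e : PP.real {θ | ¬ Z.ThickAt T θ (min ε 1)} =
      volume.real ({θ | ¬ Z.ThickAt T θ (min ε 1)} ∩ Ico (0 : ℝ) 1) := by
    rw [PP, Measure.real, Measure.restrict_apply' measurableSet_Ico]; rfl
  rw [e]
  refine (measureReal_mono hsub hfin).trans ((measureReal_biUnion_finset_le _ _).trans ?_)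
  refine (Finset.sum_le_sum fun k _ => h1 k).trans (le_of_eq ?_)
  simp only [Finset.sum_const, Finset.card_range, nsmul_eq_mul]
  push_cast
  ring

end Flat

end Pool.Agent.MP_b29402_an

end
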