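import Pool.Agent.MP_b29402_an.Mg.DkB
import Pool.Agent.MP_b29402_an.Mg.MWt

-- part MP_b29402_an.TA1
section

/-! Mean squares over long time intervals. -/

open MeasureTheory Set Filter Topology ProbabilityTheory
open scoped ComplexConjugate ENNReal

namespace Pool.Agent.MP_b29402_an

theorem TA1_ii {f : ℝ → ℂ} {M : ℝ} (hf : Measurable f) (h : ∀ s, ‖f s‖ ≤ M) (a b : ℝ) :
    IntervalIntegrable f volume a b := by
  refine (intervalIntegrable_const (c := M)).mono_fun' hf.aestronglyMeasurable ?_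
  exact Eventually.of_forall fun s => h s

theorem TA1_iir {f : ℝ → ℝ} {M : ℝ} (hf : Measurable f) (h : ∀ s, ‖f s‖ ≤ M) (a b : ℝ) :
    IntervalIntegrable f volume a b := by
  refine (intervalIntegrable_const (c := M)).mono_fun' hf.aestronglyMeasurable ?_
  exact Eventually.of_forall fun s => h s

theorem TA1_meas_conj {f : ℝ → ℂ} (hf : Measurable f) : Measurable fun s => conj (f s) :=
  Complex.continuous_conj.measurable.comp hf

theorem TA1_ii_mul {f g : ℝ → ℂ} {M M' : ℝ} (hf : Measurable f) (hg : Measurable g)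
    (h1 : ∀ s, ‖f s‖ ≤ M) (h2 : ∀ s, ‖g s‖ ≤ M') (a b : ℝ) :
    IntervalIntegrable (fun s => f s * conj (g s)) volume a b := by
  refine TA1_ii (f := fun s => f s * conj (g s)) (M := M * M') (hf.mul (TA1_meas_conj hg))
    (fun s => ?_) a b
  rw [norm_mul, Complex.norm_conj]
  exact mul_le_mul (h1 s) (h2 s) (norm_nonneg _) ((norm_nonneg _).trans (h1 s))

theorem TA1_ii_sq {f : ℝ → ℂ} {M : ℝ} (hf : Measurable f) (h : ∀ s, ‖f s‖ ≤ M) (a b : ℝ) :
    IntervalIntegrable (fun s => ‖f s‖ ^ 2) volume a b := by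
  refine TA1_iir (M := M ^ 2) (hf.norm.pow_const 2) (fun s => ?_) a b
  rw [Real.norm_eq_abs, abs_of_nonneg (sq_nonneg _)]
  exact pow_le_pow_left₀ (norm_nonneg _) (h s) 2

theorem TA1_cs {α : Type*} [MeasurableSpace α] (ν : Measure α) {f g : α → ℝ}
    (hff : Integrable (fun x => f x ^ 2) ν) (hgg : Integrable (fun x => g x ^ 2) ν)
    (hfg : Integrable (fun x => f x * g x) ν) :
    (∫ x, f x * g x ∂ν) ^ 2 ≤ (∫ x, f x ^ 2 ∂ν) * ∫ x, g x ^ 2 ∂ν := by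
  have key : ∀ l : ℝ, 0 ≤ (∫ x, f x ^ 2 ∂ν) * (l * l) + (2 * ∫ x, f x * g x ∂ν) * l +
      ∫ x, g x ^ 2 ∂ν := by
    intro l
    have h0 : 0 ≤ ∫ x, (l * f x + g x) ^ 2 ∂ν := integral_nonneg fun x => sq_nonneg _
    have h1 : (fun x => (l * f x + g x) ^ 2) =
        fun x => ((l * l) * f x ^ 2 + (2 * l) * (f x * g x)) + g x ^ 2 := by
      funext x; ring
    have i1 : Integrable (fun x => (l * l) * f x ^ 2) ν := hff.const_mul _
    have i2 : Integrable (fun x => (2 * l) * (f x * g x)) ν := hfg.const_mul _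
    have i3 : Integrable (fun x => (l * l) * f x ^ 2 + (2 * l) * (f x * g x)) ν := i1.add i2
    rw [h1, integral_add i3 hgg, integral_add i1 i2, integral_const_mul, integral_const_mul] at h0
    linarith
  have h := discrim_le_zero key
  unfold discrim at h
  nlinarith

theorem ces_nonneg (b : ℝ → ℂ) (t0 : ℝ) {N : ℝ} (hN : 0 < N) : 0 ≤ ces b t0 N := by
  unfold ces
  exact mul_nonneg (inv_nonneg.2 hN.le)
    (intervalIntegral.integral_nonneg (by linarith) fun s _ => sq_nonneg _)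

theorem ces_le {b : ℝ → ℂ} {M : ℝ} (hM : ∀ s, ‖b s‖ ≤ M) (t0 : ℝ) {N : ℝ} (hN : 0 < N) :
    ces b t0 N ≤ M ^ 2 := by
  unfold ces
  have h1 : ‖∫ s in t0..t0 + N, ‖b s‖ ^ 2‖ ≤ M ^ 2 * |t0 + N - t0| := by
    refine intervalIntegral.norm_integral_le_of_norm_le_const fun s _ => ?_
    rw [Real.norm_eq_abs, abs_of_nonneg (sq_nonneg _)]
    exact pow_le_pow_left₀ (norm_nonneg _) (hM s) 2
  rw [add_sub_cancel_left, abs_of_pos hN] at h1
  have h2 := (le_abs_self _).trans h1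
  rw [inv_mul_le_iff₀ hN]
  linarith

theorem cin_self (b : ℝ → ℂ) (t0 N : ℝ) : cin b b t0 N = ((ces b t0 N : ℝ) : ℂ) := by
  unfold cin ces
  have h : (fun s => b s * conj (b s)) = fun s => ((‖b s‖ ^ 2 : ℝ) : ℂ) := by
    funext s
    rw [Complex.mul_conj, Complex.normSq_eq_norm_sq]
  rw [h, intervalIntegral.integral_ofReal]
  push_cast
  rfl

theorem cin_add_left {b c b' : ℝ → ℂ} {M : ℝ} (hb : Measurable b) (hc : Measurable c)
    (hb' : Measurable b') (h1 : ∀ s, ‖b s‖ ≤ M) (h2 : ∀ s, ‖c s‖ ≤ M) (h3 : ∀ s, ‖b' s‖ ≤ M)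
    (t0 N : ℝ) : cin (fun s => b s + c s) b' t0 N = cin b b' t0 N + cin c b' t0 N := by
  unfold cin
  simp only [add_mul]
  rw [intervalIntegral.integral_add (TA1_ii_mul hb hb' h1 h3 _ _) (TA1_ii_mul hc hb' h2 h3 _ _),
    mul_add]

theorem cin_sum_left {ι : Type*} (s : Finset ι) {b : ι → ℝ → ℂ} {b' : ℝ → ℂ} {M : ℝ}
    (hb : ∀ i, Measurable (b i)) (hb' : Measurable b') (h1 : ∀ i r, ‖b i r‖ ≤ M)
    (h3 : ∀ r, ‖b' r‖ ≤ M) (t0 N : ℝ) :
    cin (fun r => ∑ i ∈ s, b i r) b' t0 N = ∑ i ∈ s, cin (b i) b' t0 N := by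
  unfold cin
  simp only [Finset.sum_mul]
  rw [intervalIntegral.integral_finsetSum fun i _ => TA1_ii_mul (hb i) hb' (h1 i) h3 _ _,
    Finset.mul_sum]

/-- Cauchy-Schwarz -/
theorem norm_cin_le {b b' : ℝ → ℂ} {M : ℝ} (hb : Measurable b) (hb' : Measurable b')
    (h1 : ∀ s, ‖b s‖ ≤ M) (h2 : ∀ s, ‖b' s‖ ≤ M) (t0 : ℝ) {N : ℝ} (hN : 0 < N) :
    ‖cin b b' t0 N‖ ≤ Real.sqrt (ces b t0 N) * Real.sqrt (ces b' t0 N) := by
  have hle : t0 ≤ t0 + N := by linarith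
  have i1 := TA1_ii_sq hb h1 t0 (t0 + N)
  have i2 := TA1_ii_sq hb' h2 t0 (t0 + N)
  have i3 : IntervalIntegrable (fun s => ‖b s‖ * ‖b' s‖) volume t0 (t0 + N) := by
    refine TA1_iir (f := fun s => ‖b s‖ * ‖b' s‖) (M := M * M) (hb.norm.mul hb'.norm)
      (fun s => ?_) _ _
    rw [norm_mul, norm_norm, norm_norm]
    exact mul_le_mul (h1 s) (h2 s) (norm_nonneg _) ((norm_nonneg _).trans (h1 s))
  have hcs := TA1_cs (volume.restrict (Ioc t0 (t0 + N))) i1.1 i2.1 i3.1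
  rw [← intervalIntegral.integral_of_le hle, ← intervalIntegral.integral_of_le hle,
    ← intervalIntegral.integral_of_le hle] at hcs
  have hn : ‖∫ s in t0..t0 + N, b s * conj (b' s)‖ ≤ ∫ s in t0..t0 + N, ‖b s‖ * ‖b' s‖ := by
    refine (intervalIntegral.norm_integral_le_integral_norm hle).trans (le_of_eq ?_)
    congr 1
    funext s
    rw [norm_mul, Complex.norm_conj]
  rw [← Real.sqrt_mul (ces_nonneg b t0 hN)]
  refine Real.le_sqrt_of_sq_le ?_
  unfold cin ces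
  rw [norm_mul, norm_inv, Complex.norm_real, Real.norm_eq_abs, abs_of_pos hN, mul_pow]
  have h4 := (pow_le_pow_left₀ (norm_nonneg _) hn 2).trans hcs
  calc N⁻¹ ^ 2 * ‖∫ s in t0..t0 + N, b s * conj (b' s)‖ ^ 2
      ≤ N⁻¹ ^ 2 * ((∫ s in t0..t0 + N, ‖b s‖ ^ 2) * ∫ s in t0..t0 + N, ‖b' s‖ ^ 2) :=
        mul_le_mul_of_nonneg_left h4 (sq_nonneg _)
    _ = _ := by ring

theorem ces_add_le {b b' : ℝ → ℂ} {M : ℝ} (hb : Measurable b) (hb' : Measurable b')
    (h1 : ∀ s, ‖b s‖ ≤ M) (h2 : ∀ s, ‖b' s‖ ≤ M) (t0 : ℝ) {N : ℝ} (hN : 0 < N) :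
    ces (fun s => b s + b' s) t0 N ≤ 2 * ces b t0 N + 2 * ces b' t0 N := by
  have hle : t0 ≤ t0 + N := by linarith
  have i1 := TA1_ii_sq hb h1 t0 (t0 + N)
  have i2 := TA1_ii_sq hb' h2 t0 (t0 + N)
  have i3 : IntervalIntegrable (fun s => ‖b s + b' s‖ ^ 2) volume t0 (t0 + N) :=
    TA1_ii_sq (M := M + M) (hb.add hb')
      (fun s => (norm_add_le _ _).trans (add_le_add (h1 s) (h2 s))) _ _
  have h3 : ∫ s in t0..t0 + N, ‖b s + b' s‖ ^ 2 ≤
      ∫ s in t0..t0 + N, (2 * ‖b s‖ ^ 2 + 2 * ‖b' s‖ ^ 2) := by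
    refine intervalIntegral.integral_mono_on hle i3 ((i1.const_mul 2).add (i2.const_mul 2))
      fun s _ => ?_
    have h4 := pow_le_pow_left₀ (norm_nonneg _) (norm_add_le (b s) (b' s)) 2
    nlinarith [sq_nonneg (‖b s‖ - ‖b' s‖)]
  rw [intervalIntegral.integral_add (i1.const_mul 2) (i2.const_mul 2),
    intervalIntegral.integral_const_mul, intervalIntegral.integral_const_mul] at h3
  unfold ces
  have h5 := mul_le_mul_of_nonneg_left h3 (inv_nonneg.2 hN.le)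
  linarith

theorem TA1_shift {b b' : ℝ → ℂ} {M M' : ℝ} (hb : Measurable b) (hb' : Measurable b')
    (h1 : ∀ s, ‖b s‖ ≤ M) (h2 : ∀ s, ‖b' s‖ ≤ M') (τ t0 N : ℝ) :
    ‖(∫ s in t0..t0 + N, b (s + τ) * conj (b' s)) -
        ∫ s in t0..t0 + N, b s * conj (b' (s + -τ))‖ ≤ 2 * |τ| * M * M' := by
  set F : ℝ → ℂ := fun s => b s * conj (b' (s + -τ)) with hF
  have hFi : ∀ u v, IntervalIntegrable F volume u v := fun u v =>
    TA1_ii_mul hb (hb'.comp (measurable_add_const _)) h1 (fun s => h2 _) u v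
  have hFb : ∀ s, ‖F s‖ ≤ M * M' := fun s => by
    simp only [hF, norm_mul, Complex.norm_conj]
    exact mul_le_mul (h1 s) (h2 _) (norm_nonneg _) ((norm_nonneg _).trans (h1 s))
  have e1 : (∫ s in t0..t0 + N, b (s + τ) * conj (b' s)) =
      ∫ s in t0 + τ..t0 + N + τ, F s := by
    rw [← intervalIntegral.integral_comp_add_right F τ]
    congr 1
    funext s
    simp only [hF, add_neg_cancel_right]
  have e2 : (∫ s in t0 + τ..t0 + N + τ, F s) - ∫ s in t0..t0 + N, F s =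
      (∫ s in t0 + N..t0 + N + τ, F s) - ∫ s in t0..t0 + τ, F s := by
    have a1 := intervalIntegral.integral_add_adjacent_intervals (hFi t0 (t0 + τ))
      (hFi (t0 + τ) (t0 + N + τ))
    have a2 := intervalIntegral.integral_add_adjacent_intervals (hFi t0 (t0 + N))
      (hFi (t0 + N) (t0 + N + τ))
    linear_combination a1 - a2
  have n1 : ∀ u, ‖∫ s in u..u + τ, F s‖ ≤ M * M' * |τ| := fun u => by
    have := intervalIntegral.norm_integral_le_of_norm_le_const (a := u) (b := u + τ)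
      (f := F) (C := M * M') fun s _ => hFb s
    rwa [add_sub_cancel_left] at this
  rw [e1, e2]
  refine (norm_sub_le _ _).trans ?_
  have := n1 (t0 + N)
  have := n1 t0
  linarith

/-- moving the coefficients and the time shifts to the other side: for each `i` substitute
`s ↦ s - t i`; the two intervals `[t0, t0 + N]`, `[t0 + t i, t0 + t i + N]` differ by two pieces of
length `|t i|`. -/
theorem cin_shift {b b' : ℝ → ℂ} {M M' : ℝ} (hb : Measurable b) (hb' : Measurable b')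
    (h1 : ∀ s, ‖b s‖ ≤ M) (h2 : ∀ s, ‖b' s‖ ≤ M') {n : ℕ} (a : Fin n → ℂ) (t : Fin n → ℝ)
    (t0 : ℝ) {N : ℝ} (hN : 0 < N) :
    ‖cin (fun s => ∑ i, a i * b (s + t i)) b' t0 N -
        cin b (fun s => ∑ i, conj (a i) * b' (s + -t i)) t0 N‖ ≤
      (∑ i, ‖a i‖ * (2 * |t i|)) * M * M' / N := by
  have i1 : ∀ i, IntervalIntegrable (fun s => a i * (b (s + t i) * conj (b' s))) volume t0
      (t0 + N) := fun i =>
    (TA1_ii_mul (hb.comp (measurable_add_const _)) hb' (fun s => h1 _) h2 _ _).const_mul _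
  have i2 : ∀ i, IntervalIntegrable (fun s => a i * (b s * conj (b' (s + -t i)))) volume t0
      (t0 + N) := fun i =>
    (TA1_ii_mul hb (hb'.comp (measurable_add_const _)) h1 (fun s => h2 _) _ _).const_mul _
  have e1 : (fun s => (∑ i, a i * b (s + t i)) * conj (b' s)) =
      fun s => ∑ i, a i * (b (s + t i) * conj (b' s)) := by
    funext s
    rw [Finset.sum_mul]
    exact Finset.sum_congr rfl fun i _ => by ring
  have e2 : (fun s => b s * conj (∑ i, conj (a i) * b' (s + -t i))) =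
      fun s => ∑ i, a i * (b s * conj (b' (s + -t i))) := by
    funext s
    rw [map_sum, Finset.mul_sum]
    refine Finset.sum_congr rfl fun i _ => ?_
    rw [map_mul, Complex.conj_conj]
    ring
  unfold cin
  rw [e1, e2, intervalIntegral.integral_finsetSum fun i _ => i1 i,
    intervalIntegral.integral_finsetSum fun i _ => i2 i, ← mul_sub, ← Finset.sum_sub_distrib,
    norm_mul, norm_inv, Complex.norm_real, Real.norm_eq_abs, abs_of_pos hN, div_eq_inv_mul]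
  refine mul_le_mul_of_nonneg_left ?_ (inv_nonneg.2 hN.le)
  refine (norm_sum_le _ _).trans ?_
  rw [Finset.sum_mul, Finset.sum_mul]
  refine Finset.sum_le_sum fun i _ => ?_
  rw [intervalIntegral.integral_const_mul, intervalIntegral.integral_const_mul, ← mul_sub,
    norm_mul]
  have h := mul_le_mul_of_nonneg_left (TA1_shift hb hb' h1 h2 (t i) t0 N) (norm_nonneg (a i))
  linarith

theorem ces_start_le {b : ℝ → ℂ} {M : ℝ} (hb : Measurable b) (h1 : ∀ s, ‖b s‖ ≤ M) {t0 N : ℝ}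
    (ht : 0 ≤ t0) (hN : 0 < N) : ces b 0 N ≤ ces b t0 N + t0 * M ^ 2 / N := by
  have hi := TA1_ii_sq hb h1
  have a1 := intervalIntegral.integral_add_adjacent_intervals (hi 0 N) (hi N (t0 + N))
  have a2 := intervalIntegral.integral_add_adjacent_intervals (hi 0 t0) (hi t0 (t0 + N))
  have p1 : 0 ≤ ∫ s in N..t0 + N, ‖b s‖ ^ 2 :=
    intervalIntegral.integral_nonneg (by linarith) fun s _ => sq_nonneg _
  have p2 : ‖∫ s in (0 : ℝ)..t0, ‖b s‖ ^ 2‖ ≤ M ^ 2 * |t0 - 0| := by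
    refine intervalIntegral.norm_integral_le_of_norm_le_const fun s _ => ?_
    rw [Real.norm_eq_abs, abs_of_nonneg (sq_nonneg _)]
    exact pow_le_pow_left₀ (norm_nonneg _) (h1 s) 2
  rw [sub_zero, abs_of_nonneg ht] at p2
  have p3 := (le_abs_self _).trans p2
  unfold ces
  rw [zero_add, div_eq_inv_mul, ← mul_add]
  exact mul_le_mul_of_nonneg_left (by linarith) (inv_nonneg.2 hN.le)

/-- Cauchy-Schwarz in `θ`: `‖∫ θ in J, W θ s‖² ≤ PP J * ∫ θ in J, ‖W θ s‖²`, then Fubini. -/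
theorem ces_integral_le {W : ℝ → ℝ → ℂ} (hW : Measurable (Function.uncurry W)) {M : ℝ}
    (hM : ∀ θ s, ‖W θ s‖ ≤ M) {J : Set ℝ} (hJ : MeasurableSet J) {g : ℝ → ℝ}
    (hg : Integrable g PP) (t0 : ℝ) {N : ℝ} (hN : 0 < N)
    (h : ∀ᵐ θ ∂PP, θ ∈ J → ces (W θ) t0 N ≤ g θ) :
    ces (fun s => ∫ θ in J, W θ s ∂PP) t0 N ≤ PP.real J * ∫ θ in J, g θ ∂PP := by
  have hle : t0 ≤ t0 + N := by linarith
  have hsq : ∀ θ s, ‖‖W θ s‖ ^ 2‖ ≤ M ^ 2 := fun θ s => by
    rw [Real.norm_eq_abs, abs_of_nonneg (sq_nonneg _)]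
    exact pow_le_pow_left₀ (norm_nonneg _) (hM θ s) 2
  have hWs : ∀ s, Measurable fun θ => W θ s := fun s => hW.comp measurable_prodMk_right
  have hW2 : Measurable fun p : ℝ × ℝ => ‖W p.2 p.1‖ ^ 2 :=
    (hW.comp measurable_swap).norm.pow_const 2
  have hint : Integrable (Function.uncurry fun s θ => ‖W θ s‖ ^ 2)
      ((volume.restrict (Ioc t0 (t0 + N))).prod (PP.restrict J)) :=
    Integrable.of_bound hW2.aestronglyMeasurable (M ^ 2)
      (Eventually.of_forall fun p => hsq p.2 p.1)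
  have hpt : ∀ s, ‖∫ θ in J, W θ s ∂PP‖ ^ 2 ≤ PP.real J * ∫ θ in J, ‖W θ s‖ ^ 2 ∂PP := by
    intro s
    have j1 : Integrable (fun θ => ‖W θ s‖ ^ 2) (PP.restrict J) :=
      Integrable.of_bound ((hWs s).norm.pow_const 2).aestronglyMeasurable (M ^ 2)
        (Eventually.of_forall fun θ => hsq θ s)
    have j2 : Integrable (fun θ => (1 : ℝ) * ‖W θ s‖) (PP.restrict J) :=
      (Integrable.of_bound (hWs s).norm.aestronglyMeasurable M
        (Eventually.of_forall fun θ => by rw [norm_norm]; exact hM θ s)).const_mul 1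
    have hcs := TA1_cs (PP.restrict J) (f := fun _ => (1 : ℝ)) (g := fun θ => ‖W θ s‖)
      (integrable_const _) j1 j2
    simp only [one_mul, one_pow, integral_const, smul_eq_mul, mul_one,
      measureReal_restrict_apply_univ] at hcs
    exact (pow_le_pow_left₀ (norm_nonneg _) (norm_integral_le_integral_norm _) 2).trans hcs
  have hI : ∫ s in Ioc t0 (t0 + N), ‖∫ θ in J, W θ s ∂PP‖ ^ 2 ≤
      ∫ s in Ioc t0 (t0 + N), PP.real J * ∫ θ in J, ‖W θ s‖ ^ 2 ∂PP :=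
    integral_mono_of_nonneg (Eventually.of_forall fun s => sq_nonneg _)
      (hint.integral_prod_left.const_mul _) (Eventually.of_forall hpt)
  rw [integral_const_mul, integral_integral_swap hint] at hI
  have hJ2 : ∫ θ in J, N⁻¹ * (∫ s in Ioc t0 (t0 + N), ‖W θ s‖ ^ 2) ∂PP ≤ ∫ θ in J, g θ ∂PP := by
    refine integral_mono_ae (hint.integral_prod_right.const_mul _) hg.integrableOn ?_
    refine (ae_restrict_iff' hJ).2 (h.mono fun θ hθ hθJ => ?_)
    have := hθ hθJ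
    unfold ces at this
    rwa [intervalIntegral.integral_of_le hle] at this
  rw [integral_const_mul] at hJ2
  unfold ces
  rw [intervalIntegral.integral_of_le hle]
  have hP : 0 ≤ PP.real J := measureReal_nonneg
  calc N⁻¹ * ∫ s in Ioc t0 (t0 + N), ‖∫ θ in J, W θ s ∂PP‖ ^ 2
      ≤ N⁻¹ * (PP.real J * ∫ θ in J, (∫ s in Ioc t0 (t0 + N), ‖W θ s‖ ^ 2) ∂PP) :=
        mul_le_mul_of_nonneg_left hI (inv_nonneg.2 hN.le)
    _ = PP.real J * (N⁻¹ * ∫ θ in J, (∫ s in Ioc t0 (t0 + N), ‖W θ s‖ ^ 2) ∂PP) := by ring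
    _ ≤ _ := mul_le_mul_of_nonneg_left hJ2 hP

/-- time change `s ↦ s / κ` -/
theorem ces_rescale {b : ℝ → ℂ} {κ : ℝ} (hκ : 0 < κ)
    (h : Tendsto (fun N => ces (fun s => b (s / κ)) 0 N) atTop (𝓝 0)) :
    Tendsto (fun N => ces b 0 N) atTop (𝓝 0) := by
  have e : ∀ N : ℝ, ces b 0 N = ces (fun s => b (s / κ)) 0 (κ * N) := by
    intro N
    unfold ces
    rw [intervalIntegral.integral_comp_div (fun s => ‖b s‖ ^ 2) hκ.ne', zero_add, zero_add,
      zero_div, mul_div_cancel_left₀ _ hκ.ne', smul_eq_mul, mul_inv]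
    field_simp
  have h2 : Tendsto (fun N : ℝ => κ * N) atTop atTop := tendsto_id.const_mul_atTop hκ
  exact (h.comp h2).congr fun N => (e N).symm

end Pool.Agent.MP_b29402_an

end

-- part MP_b29402_an.TPd
section

/-! Trigonometric polynomials are dense in `L²` of a finite measure on the line. -/

open MeasureTheory Set Filter Topology ProbabilityTheory
open scoped ComplexConjugate ENNReal

namespace Pool.Agent.MP_b29402_an

theorem TPd_circle {Λ : ℝ} [Fact (0 < Λ)] (U : C(AddCircle Λ, ℂ)) {δ : ℝ} (hδ : 0 < δ) :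
    ∃ (n : ℕ) (a : Fin n → ℂ) (t : Fin n → ℝ), ∀ y : ℝ, ‖U (y : AddCircle Λ) - tp a t y‖ ≤ δ := by
  have hU : U ∈ closure ((Submodule.span ℂ (range <| @fourier Λ) : Submodule ℂ _) :
      Set C(AddCircle Λ, ℂ)) := by
    rw [← Submodule.topologicalClosure_coe, span_fourier_closure_eq_top]
    trivial
  obtain ⟨g, hg, hd⟩ := Metric.mem_closure_iff.1 hU δ hδ
  obtain ⟨c, rfl⟩ := Finsupp.mem_span_range_iff_exists_finsupp.1 hg
  let e := c.support.equivFin.symm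
  refine ⟨c.support.card, fun i => c (e i), fun i => 2 * Real.pi * ((e i : ℤ) : ℝ) / Λ,
    fun y => ?_⟩
  have h1 : tp (fun i => c (e i)) (fun i => 2 * Real.pi * ((e i : ℤ) : ℝ) / Λ) y =
      (c.sum fun i a => a • fourier i) (y : AddCircle Λ) := by
    rw [Finsupp.sum, ContinuousMap.sum_apply, ← Finset.sum_coe_sort, ← e.sum_comp, tp]
    refine Finset.sum_congr rfl fun i _ => ?_
    rw [ContinuousMap.smul_apply, fourier_coe_apply, smul_eq_mul, ex]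
    congr 2
    push_cast
    ring
  rw [h1, ← dist_eq_norm]
  exact (ContinuousMap.dist_apply_le_dist _).trans hd.le

/-- A continuous `Λ`-periodic function is a uniform limit of trigonometric polynomials: lift it to
`AddCircle Λ` (`Function.Periodic.lift` or `AddCircle.liftIco`), use `span_fourier_closure_eq_top`,
`Submodule.mem_span_range_iff_exists`-type description (`Finsupp.mem_span_range_iff_exists_finsupp`),
enumerate the finite support by `Fin n` (`Finset.equivFin`), `fourier_coe_apply`. -/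
theorem tp_uniform_periodic {Λ : ℝ} (hΛ : 0 < Λ) {u : ℝ → ℂ} (hu : Continuous u)
    (hp : Function.Periodic u Λ) {δ : ℝ} (hδ : 0 < δ) :
    ∃ (n : ℕ) (a : Fin n → ℂ) (t : Fin n → ℝ), ∀ y, ‖u y - tp a t y‖ ≤ δ := by
  have : Fact (0 < Λ) := ⟨hΛ⟩
  exact TPd_circle (Λ := Λ) ⟨hp.lift, continuous_coinduced_dom.2 hu⟩ hδ

theorem TPd_tail (τ : Measure ℝ) [IsFiniteMeasure τ] {ε : ℝ} (hε : 0 < ε) (r : ℝ) :
    ∃ R : ℝ, r < R ∧ 0 < R ∧ τ.real (Ico (-R) R)ᶜ ≤ ε := by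
  have h1 : Tendsto (fun n : ℕ => τ (Ico (-(n : ℝ)) n)ᶜ) atTop
      (𝓝 (τ (⋂ n : ℕ, (Ico (-(n : ℝ)) n)ᶜ))) := by
    refine tendsto_measure_iInter_atTop
      (fun n => measurableSet_Ico.compl.nullMeasurableSet) (fun m n h => ?_)
      ⟨0, measure_ne_top _ _⟩
    have : (m : ℝ) ≤ n := by exact_mod_cast h
    exact compl_subset_compl.2 (Ico_subset_Ico (neg_le_neg this) this)
  have h2 : (⋂ n : ℕ, (Ico (-(n : ℝ)) n)ᶜ) = ∅ := by
    refine eq_empty_of_forall_notMem fun x hx => ?_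
    obtain ⟨n, hn⟩ := exists_nat_gt |x|
    exact mem_iInter.1 hx n ⟨by linarith [neg_abs_le x], by linarith [le_abs_self x]⟩
  rw [h2, measure_empty] at h1
  have h3 := (ENNReal.tendsto_toReal ENNReal.zero_ne_top).comp h1
  obtain ⟨n, hn, hn'⟩ := ((h3.eventually (gt_mem_nhds (show (0 : ℝ≥0∞).toReal < ε from hε))).and
    (tendsto_natCast_atTop_atTop.eventually_gt_atTop (max r 0))).exists
  exact ⟨n, (le_max_left _ _).trans_lt hn', (le_max_right _ _).trans_lt hn', hn.le⟩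

/-- Let `‖u‖ ≤ M`, support in `(-r, r)`. For `Λ > 2 r` large let `v` be the `Λ`-periodic function equal
to `u` on `[-Λ/2, Λ/2]` (e.g. `v y = u (toIcoMod hΛ (-Λ/2) y)`, continuous as `u (±Λ/2) = 0`:
`AddCircle.liftIco_continuous`), `‖v‖ ≤ M`. Then `‖u - tp‖ ≤ δ'` on `[-Λ/2, Λ/2)` and `≤ 2 M + δ'`
elsewhere, and `τ {|y| ≥ Λ/2} → 0`. -/
theorem tp_dense (τ : Measure ℝ) [IsFiniteMeasure τ] {u : ℝ → ℂ} (hu : Continuous u)
    (hc : HasCompactSupport u) {δ : ℝ} (hδ : 0 < δ) :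
    ∃ (n : ℕ) (a : Fin n → ℂ) (t : Fin n → ℝ), ∫ y, ‖u y - tp a t y‖ ^ 2 ∂τ ≤ δ := by
  obtain ⟨M, hM⟩ := hu.bounded_above_of_compact_support hc
  have hM0 : 0 ≤ M := (norm_nonneg _).trans (hM 0)
  obtain ⟨r, hr⟩ := hc.isCompact.isBounded.subset_closedBall 0
  have hz : ∀ y, r < |y| → u y = 0 := fun y hy => by
    refine image_eq_zero_of_notMem_tsupport fun h => ?_
    have := hr h
    rw [mem_closedBall_zero_iff, Real.norm_eq_abs] at this
    linarith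
  have hK : 0 < (2 * M + 1) ^ 2 := by positivity
  have hm : 0 ≤ τ.real univ := measureReal_nonneg
  obtain ⟨R, hR, hR0, hτ⟩ := TPd_tail τ (show 0 < δ / 2 / (2 * M + 1) ^ 2 by positivity) r
  have : Fact (0 < 2 * R) := ⟨by linarith⟩
  have hU : Continuous (AddCircle.liftIco (2 * R) (-R) u) :=
    AddCircle.liftIco_continuous (by
      rw [hz (-R) (by rwa [abs_neg, abs_of_pos hR0]),
        hz _ (by rwa [show -R + 2 * R = R by ring, abs_of_pos hR0])]) hu.continuousOn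
  set η : ℝ := min 1 (δ / 2 / (τ.real univ + 1)) with hη
  have hη0 : 0 < η := lt_min one_pos (by positivity)
  have hη1 : η ≤ 1 := min_le_left _ _
  have hη2 : η * (τ.real univ + 1) ≤ δ / 2 := (le_div_iff₀ (by linarith)).1 (min_le_right _ _)
  obtain ⟨n, a, t, h⟩ := TPd_circle (Λ := 2 * R) ⟨_, hU⟩ hη0
  refine ⟨n, a, t, ?_⟩
  have hb : ∀ y, ‖u y - tp a t y‖ ^ 2 ≤
      η + (Ico (-R) R)ᶜ.indicator (fun _ => (2 * M + 1) ^ 2) y := fun y => by
    have h1 := h y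
    rw [ContinuousMap.coe_mk] at h1
    by_cases hy : y ∈ Ico (-R) R
    · rw [AddCircle.liftIco_coe_apply (by rwa [show -R + 2 * R = R by ring])] at h1
      rw [indicator_of_notMem (by simpa using hy), add_zero]
      nlinarith [norm_nonneg (u y - tp a t y)]
    · rw [indicator_of_mem (by simpa using hy)]
      have h2 : ‖AddCircle.liftIco (2 * R) (-R) u y‖ ≤ M := hM _
      have h3 : ‖u y - tp a t y‖ ≤ 2 * M + 1 := by
        have := norm_add_le (u y - AddCircle.liftIco (2 * R) (-R) u y)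
          (AddCircle.liftIco (2 * R) (-R) u y - tp a t y)
        have h4 := norm_sub_le (u y) (AddCircle.liftIco (2 * R) (-R) u y)
        rw [sub_add_sub_cancel] at this
        linarith [hM y]
      have := pow_le_pow_left₀ (norm_nonneg _) h3 2
      linarith
  have hi : Integrable ((Ico (-R) R)ᶜ.indicator fun _ : ℝ => (2 * M + 1) ^ 2) τ :=
    (integrable_const _).indicator measurableSet_Ico.compl
  refine (integral_mono_of_nonneg (ae_of_all _ fun y => sq_nonneg _)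
    ((integrable_const η).add hi) (ae_of_all _ hb)).trans ?_
  simp only [Pi.add_apply]
  rw [integral_add (integrable_const η) hi, integral_const,
    integral_indicator_const _ measurableSet_Ico.compl, smul_eq_mul, smul_eq_mul]
  have := (le_div_iff₀ hK).1 hτ
  nlinarith

end Pool.Agent.MP_b29402_an

end

-- part MP_b29402_an.Apx
section

/-! Approximate separation of mutually singular joint measures by piecewise trigonometric
polynomials. -/

open MeasureTheory Set Filter Topology ProbabilityTheory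
open scoped ComplexConjugate ENNReal

namespace Pool.Agent.MP_b29402_an

/-- `S` measurable with `mJ σ Sᶜ = 0`, `nJ σ S = 0`. Approximate the indicator of `S` in
`L²(mJ σ + nJ σ)` by a continuous compactly supported `u : ℝ × ℝ → ℂ`
(`MemLp.exists_hasCompactSupport_integral_rpow_sub_le`): `∫ ‖1 - u‖² dmJ ≤ δ`, `∫ ‖u‖² dnJ ≤ δ`. -/
theorem exists_sep_fun (m ν : Measure (ℝ × ℝ)) [IsFiniteMeasure m] [IsFiniteMeasure ν]
    (hs : m ⟂ₘ ν) {δ : ℝ} (hδ : 0 < δ) :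
    ∃ u : ℝ × ℝ → ℂ, Continuous u ∧ HasCompactSupport u ∧
      ∫ p, ‖1 - u p‖ ^ 2 ∂m ≤ δ ∧ ∫ p, ‖u p‖ ^ 2 ∂ν ≤ δ := by
  obtain ⟨s, hsm, hms, hνs⟩ := hs
  set f : ℝ × ℝ → ℂ := indicator sᶜ (fun _ => 1) with hf
  have hfL : MemLp f (ENNReal.ofReal 2) (m + ν) :=
    (memLp_const (1 : ℂ)).indicator hsm.compl
  obtain ⟨g, hgc, hgi, hg, hgL⟩ :=
    hfL.exists_hasCompactSupport_integral_rpow_sub_le (by norm_num : (0 : ℝ) < 2) hδ
  have hint : Integrable (fun x => ‖f x - g x‖ ^ 2) (m + ν) := by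
    have h1 := (hfL.sub hgL).integrable_norm_rpow (by simp) (by simp)
    simpa using h1
  have hgi' : ∫ x, ‖f x - g x‖ ^ 2 ∂(m + ν) ≤ δ := by simpa using hgi
  have hi1 : Integrable (fun x => ‖f x - g x‖ ^ 2) m := hint.left_of_add_measure
  have hi2 : Integrable (fun x => ‖f x - g x‖ ^ 2) ν := hint.right_of_add_measure
  rw [integral_add_measure hi1 hi2] at hgi'
  have p1 : 0 ≤ ∫ x, ‖f x - g x‖ ^ 2 ∂m := integral_nonneg fun x => by positivity
  have p2 : 0 ≤ ∫ x, ‖f x - g x‖ ^ 2 ∂ν := integral_nonneg fun x => by positivity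
  have e1 : ∫ p, ‖1 - g p‖ ^ 2 ∂m = ∫ x, ‖f x - g x‖ ^ 2 ∂m := by
    refine integral_congr_ae ?_
    have : ∀ᵐ x ∂m, x ∉ s := measure_eq_zero_iff_ae_notMem.1 hms
    filter_upwards [this] with x hx
    simp [hf, indicator_of_mem (show x ∈ sᶜ from hx)]
  have e2 : ∫ p, ‖g p‖ ^ 2 ∂ν = ∫ x, ‖f x - g x‖ ^ 2 ∂ν := by
    refine integral_congr_ae ?_
    have : ∀ᵐ x ∂ν, x ∉ sᶜ := measure_eq_zero_iff_ae_notMem.1 hνs
    filter_upwards [this] with x hx
    simp [hf, indicator_of_notMem hx]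
  exact ⟨g, hg, hgc, by linarith, by linarith⟩

theorem Apx_tp_cont {n : ℕ} (a : Fin n → ℂ) (t : Fin n → ℝ) : Continuous (tp a t) := by
  unfold tp ex
  fun_prop

theorem Apx_tp_bound {n : ℕ} (a : Fin n → ℂ) (t : Fin n → ℝ) (y : ℝ) :
    ‖tp a t y‖ ≤ ∑ i, ‖a i‖ := by
  unfold tp
  refine (norm_sum_le _ _).trans (Finset.sum_le_sum fun i _ => ?_)
  rw [norm_mul, ex, Complex.norm_exp_ofReal_mul_I, mul_one]

theorem Apx_three (x y z : ℂ) : ‖x + y + z‖ ^ 2 ≤ 3 * (‖x‖ ^ 2 + ‖y‖ ^ 2 + ‖z‖ ^ 2) := by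
  have h1 : ‖x + y + z‖ ≤ ‖x‖ + ‖y‖ + ‖z‖ := norm_add₃_le
  have h2 : ‖x + y + z‖ ^ 2 ≤ (‖x‖ + ‖y‖ + ‖z‖) ^ 2 := by gcongr
  nlinarith [sq_nonneg (‖x‖ - ‖y‖), sq_nonneg (‖x‖ - ‖z‖), sq_nonneg (‖y‖ - ‖z‖)]

theorem Apx_sq_bound {x y : ℂ} {A B : ℝ} (hx : ‖x‖ ≤ A) (hy : ‖y‖ ≤ B) :
    |‖x - y‖ ^ 2| ≤ (A + B) ^ 2 := by
  rw [abs_of_nonneg (by positivity)]
  have : ‖x - y‖ ≤ A + B := (norm_sub_le _ _).trans (add_le_add hx hy)
  gcongr

theorem Apx_int_bdd {Ω : Type*} [MeasurableSpace Ω] (τ : Measure Ω) [IsFiniteMeasure τ]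
    {F : Ω → ℝ} (hF : Measurable F) {M : ℝ} (hM : ∀ p, |F p| ≤ M) : Integrable F τ :=
  (integrable_const M).mono' hF.aestronglyMeasurable (Eventually.of_forall hM)

theorem Apx_int_kint (κ : Kernel ℝ ℝ) [IsFiniteKernel κ] {F : ℝ × ℝ → ℝ} (hF : Measurable F)
    {M : ℝ} (hM : ∀ p, |F p| ≤ M) : Integrable (fun θ => ∫ y, F (θ, y) ∂(κ θ)) PP := by
  have h1 : Integrable F (PP ⊗ₘ κ) := Apx_int_bdd _ hF hM
  exact h1.integral_compProd

/-- the estimate on one piece of the partition -/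
theorem Apx_piece (κ : Kernel ℝ ℝ) [IsFiniteKernel κ] (c : ℂ) {u : ℝ × ℝ → ℂ} (hu : Continuous u)
    {v w : ℝ → ℂ} (hv : Continuous v) (hw : Continuous w) {M W : ℝ} (huM : ∀ p, ‖u p‖ ≤ M)
    (hvM : ∀ y, ‖v y‖ ≤ M) (hwM : ∀ y, ‖w y‖ ≤ W) {J : Set ℝ} (hJ : MeasurableSet J) {ε : ℝ}
    (huv : ∀ θ ∈ J, ∀ y, ‖u (θ, y) - v y‖ ^ 2 ≤ ε) :
    ∫ θ in J, ∫ y, ‖c - w y‖ ^ 2 ∂(κ θ) ∂PP ≤
      3 * (∫ θ in J, ∫ y, (‖c - u (θ, y)‖ ^ 2 + ε) ∂(κ θ) ∂PP +
        ∫ θ, ∫ y, ‖v y - w y‖ ^ 2 ∂(κ θ) ∂PP) := by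
  have m1 : Measurable fun p : ℝ × ℝ => ‖c - w p.2‖ ^ 2 := by fun_prop
  have m2 : Measurable fun p : ℝ × ℝ => ‖c - u p‖ ^ 2 + ε := by fun_prop
  have m3 : Measurable fun p : ℝ × ℝ => ‖v p.2 - w p.2‖ ^ 2 := by fun_prop
  have b1 : ∀ p : ℝ × ℝ, |‖c - w p.2‖ ^ 2| ≤ (‖c‖ + W) ^ 2 := fun p =>
    Apx_sq_bound le_rfl (hwM _)
  have b2 : ∀ p : ℝ × ℝ, |‖c - u p‖ ^ 2 + ε| ≤ (‖c‖ + M) ^ 2 + |ε| := fun p =>
    (abs_add_le _ _).trans (add_le_add (Apx_sq_bound le_rfl (huM _)) le_rfl)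
  have b3 : ∀ p : ℝ × ℝ, |‖v p.2 - w p.2‖ ^ 2| ≤ (M + W) ^ 2 := fun p =>
    Apx_sq_bound (hvM _) (hwM _)
  have i1 := Apx_int_kint κ m1 b1
  have i2 := Apx_int_kint κ m2 b2
  have i3 := Apx_int_kint κ m3 b3
  have key : ∀ θ ∈ J, ∫ y, ‖c - w y‖ ^ 2 ∂(κ θ) ≤
      3 * (∫ y, (‖c - u (θ, y)‖ ^ 2 + ε) ∂(κ θ) + ∫ y, ‖v y - w y‖ ^ 2 ∂(κ θ)) := by
    intro θ hθ
    have j1 : Integrable (fun y => ‖c - w y‖ ^ 2) (κ θ) :=
      Apx_int_bdd _ (by fun_prop) (fun y => b1 (θ, y))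
    have j2 : Integrable (fun y => ‖c - u (θ, y)‖ ^ 2 + ε) (κ θ) :=
      Apx_int_bdd _ (by fun_prop) (fun y => b2 (θ, y))
    have j3 : Integrable (fun y => ‖v y - w y‖ ^ 2) (κ θ) :=
      Apx_int_bdd _ (by fun_prop) (fun y => b3 (θ, y))
    rw [← integral_add j2 j3, ← integral_const_mul]
    refine integral_mono j1 ((j2.add j3).const_mul 3) fun y => ?_
    have h3 := Apx_three (c - u (θ, y)) (u (θ, y) - v y) (v y - w y)
    have e : c - u (θ, y) + (u (θ, y) - v y) + (v y - w y) = c - w y := by ring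
    rw [e] at h3
    have := huv θ hθ y
    simp only
    linarith
  have h4 : ∫ θ in J, ∫ y, ‖v y - w y‖ ^ 2 ∂(κ θ) ∂PP ≤
      ∫ θ, ∫ y, ‖v y - w y‖ ^ 2 ∂(κ θ) ∂PP :=
    setIntegral_le_integral i3 (Eventually.of_forall fun θ =>
      integral_nonneg fun y => by positivity)
  have h5 : ∫ θ in J, ∫ y, ‖c - w y‖ ^ 2 ∂(κ θ) ∂PP ≤
      ∫ θ in J, 3 * (∫ y, (‖c - u (θ, y)‖ ^ 2 + ε) ∂(κ θ) + ∫ y, ‖v y - w y‖ ^ 2 ∂(κ θ)) ∂PP :=
    setIntegral_mono_on i1.integrableOn ((i2.add i3).const_mul 3).integrableOn hJ key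
  rw [integral_const_mul, integral_add i2.integrableOn i3.integrableOn] at h5
  linarith

theorem Apx_sum {n : ℕ} {J : Fin n → Set ℝ} (hJ : ∀ i, MeasurableSet (J i))
    (hd : Pairwise (fun i j => Disjoint (J i) (J j))) (hU : (⋃ i, J i) = Ico 0 1) {G : ℝ → ℝ}
    (hG : Integrable G PP) : ∑ i, ∫ θ in J i, G θ ∂PP = ∫ θ, G θ ∂PP := by
  rw [← integral_iUnion_fintype hJ hd (fun i => hG.integrableOn), hU]
  have : PP.restrict (Ico 0 1) = PP := by
    unfold PP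
    rw [Measure.restrict_restrict measurableSet_Ico, inter_self]
  rw [this]

/-- the estimate summed over the partition -/
theorem Apx_core (κ : Kernel ℝ ℝ) [IsFiniteKernel κ] (c : ℂ) {u : ℝ × ℝ → ℂ} (hu : Continuous u)
    {n : ℕ} {v w : Fin n → ℝ → ℂ} (hv : ∀ i, Continuous (v i)) (hw : ∀ i, Continuous (w i))
    {M : ℝ} {W : Fin n → ℝ} (huM : ∀ p, ‖u p‖ ≤ M)
    (hvM : ∀ i y, ‖v i y‖ ≤ M) (hwM : ∀ i y, ‖w i y‖ ≤ W i) {J : Fin n → Set ℝ}
    (hJ : ∀ i, MeasurableSet (J i))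
    (hd : Pairwise (fun i j => Disjoint (J i) (J j))) (hU : (⋃ i, J i) = Ico 0 1) {ε ε' : ℝ}
    (huv : ∀ i, ∀ θ ∈ J i, ∀ y, ‖u (θ, y) - v i y‖ ^ 2 ≤ ε)
    (hvw : ∀ i, ∫ θ, ∫ y, ‖v i y - w i y‖ ^ 2 ∂(κ θ) ∂PP ≤ ε') :
    ∑ i, ∫ θ in J i, ∫ y, ‖c - w i y‖ ^ 2 ∂(κ θ) ∂PP ≤
      3 * (∫ p, ‖c - u p‖ ^ 2 ∂(mJ κ) + ε * (mJ κ).real univ + n * ε') := by
  have m2 : Measurable fun p : ℝ × ℝ => ‖c - u p‖ ^ 2 + ε := by fun_prop
  have b2 : ∀ p : ℝ × ℝ, |‖c - u p‖ ^ 2 + ε| ≤ (‖c‖ + M) ^ 2 + |ε| := fun p =>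
    (abs_add_le _ _).trans (add_le_add (Apx_sq_bound le_rfl (huM _)) le_rfl)
  have i2 := Apx_int_kint κ m2 b2
  have h1 : ∀ i, ∫ θ in J i, ∫ y, ‖c - w i y‖ ^ 2 ∂(κ θ) ∂PP ≤
      3 * (∫ θ in J i, ∫ y, (‖c - u (θ, y)‖ ^ 2 + ε) ∂(κ θ) ∂PP + ε') := fun i => by
    have := Apx_piece κ c hu (hv i) (hw i) huM (hvM i) (hwM i) (hJ i) (huv i)
    have := hvw i
    linarith
  refine (Finset.sum_le_sum fun i _ => h1 i).trans (le_of_eq ?_)
  rw [← Finset.mul_sum, Finset.sum_add_distrib, Apx_sum hJ hd hU i2, ← integral_mJ κ m2 b2,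
    integral_add (Apx_int_bdd _ (by fun_prop) (fun p => Apx_sq_bound le_rfl (huM p)))
      (integrable_const _)]
  simp [mul_comm]

theorem Apx_partition {n : ℕ} (hn : 0 < n) :
    Pairwise (fun i j : Fin n => Disjoint (Ico (((i : ℕ) : ℝ) / n) ((((i : ℕ) : ℝ) + 1) / n))
      (Ico (((j : ℕ) : ℝ) / n) ((((j : ℕ) : ℝ) + 1) / n))) ∧
    (⋃ i : Fin n, Ico (((i : ℕ) : ℝ) / n) ((((i : ℕ) : ℝ) + 1) / n)) = Ico 0 1 := by
  have hn' : (0 : ℝ) < n := by exact_mod_cast hn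
  constructor
  · intro i j hij
    rw [Set.disjoint_left]
    rintro x ⟨h1, h2⟩ ⟨h3, h4⟩
    have a1 := lt_of_le_of_lt h1 h4
    have a2 := lt_of_le_of_lt h3 h2
    rw [div_lt_div_iff_of_pos_right hn'] at a1 a2
    have b1 : (i : ℕ) < (j : ℕ) + 1 := by exact_mod_cast a1
    have b2 : (j : ℕ) < (i : ℕ) + 1 := by exact_mod_cast a2
    exact hij (Fin.ext (by omega))
  · ext x
    simp only [mem_iUnion, mem_Ico]
    constructor
    · rintro ⟨i, h1, h2⟩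
      refine ⟨le_trans (by positivity) h1, h2.trans_le ?_⟩
      rw [div_le_one hn']
      exact_mod_cast i.2
    · rintro ⟨h0, h1⟩
      have hx : 0 ≤ x * n := by positivity
      have hlt : ⌊x * n⌋₊ < n := by
        rw [Nat.floor_lt hx]
        nlinarith
      refine ⟨⟨⌊x * n⌋₊, hlt⟩, ?_, ?_⟩
      · rw [div_le_iff₀ hn']
        exact Nat.floor_le hx
      · rw [lt_div_iff₀ hn']
        exact Nat.lt_floor_add_one _

/-- Take `u` from `exists_sep_fun`, uniformly continuous; `J i = Ico (i/n) ((i+1)/n)` with `n` so large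
that `‖u (θ, y) - u (i/n, y)‖ ≤ δ'` for `θ ∈ J i`; `tp (a i) (t i)` approximates `u (i/n, ·)` in
`L²(Sg σ)` within `δ'/n` (`tp_dense`). Use `‖x + y + z‖² ≤ 3 (‖x‖² + ‖y‖² + ‖z‖²)`, `integral_mJ`,
`integral_Sg` (so `∫ θ in J i, ∫ ψ dσ θ ≤ ∫ ψ dSg` for `ψ ≥ 0`), `integral_prod` for `nJ`, and add up over
the partition (`integral_iUnion_fintype` / `integral_finset_biUnion`). -/
theorem apx (σ : Kernel ℝ ℝ) [IsFiniteKernel σ] (hs : mJ σ ⟂ₘ nJ σ) {δ : ℝ} (hδ : 0 < δ) :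
    ∃ (n : ℕ) (J : Fin n → Set ℝ) (k : Fin n → ℕ) (a : ∀ i, Fin (k i) → ℂ)
      (t : ∀ i, Fin (k i) → ℝ),
      (∀ i, MeasurableSet (J i)) ∧ Pairwise (fun i j => Disjoint (J i) (J j)) ∧
      (⋃ i, J i) = Ico 0 1 ∧
      ∑ i, ∫ θ in J i, ∫ y, ‖1 - tp (a i) (t i) y‖ ^ 2 ∂(σ θ) ∂PP ≤ δ ∧
      ∑ i, PP.real (J i) * ∫ y, ‖tp (a i) (t i) y‖ ^ 2 ∂(Sg σ) ≤ δ := by
  set C : ℝ := (mJ σ).real univ + (nJ σ).real univ with hC
  have c1 : 0 ≤ (mJ σ).real univ := measureReal_nonneg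
  have c2 : 0 ≤ (nJ σ).real univ := measureReal_nonneg
  set ε : ℝ := δ / (3 * (2 + C)) with hε
  have hC0 : 0 < 2 + C := by positivity
  have hε0 : 0 < ε := by positivity
  have hεδ : 3 * (ε + ε * C + ε) = δ := by
    rw [hε]; field_simp; ring
  obtain ⟨u, hu, huc, hu1, hu2⟩ := exists_sep_fun (mJ σ) (nJ σ) hs hε0
  obtain ⟨M, huM⟩ := huc.exists_bound_of_continuous hu
  have huu : UniformContinuous u := huc.uniformContinuous_of_continuous hu
  obtain ⟨η, hη, hηu⟩ := Metric.uniformContinuous_iff.1 huu (Real.sqrt ε) (Real.sqrt_pos.2 hε0)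
  obtain ⟨n0, hn0⟩ := exists_nat_one_div_lt hη
  set n : ℕ := n0 + 1 with hn
  have hnpos : 0 < n := Nat.succ_pos _
  have hn' : (0 : ℝ) < n := by exact_mod_cast hnpos
  have hnη : 1 / (n : ℝ) < η := by rw [hn]; push_cast; exact hn0
  set v : Fin n → ℝ → ℂ := fun i y => u (((i : ℕ) : ℝ) / n, y) with hv
  have hvc : ∀ i, Continuous (v i) := fun i => by rw [hv]; fun_prop
  have hvs : ∀ i, HasCompactSupport (v i) := fun i =>
    huc.comp_isClosedEmbedding (g := fun y : ℝ => ((((i : ℕ) : ℝ) / n, y) : ℝ × ℝ))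
      (Isometry.isClosedEmbedding (Isometry.of_dist_eq fun a b => by simp [Prod.dist_eq]))
  have hex : ∀ i, ∃ (k : ℕ) (a : Fin k → ℂ) (t : Fin k → ℝ),
      ∫ y, ‖v i y - tp a t y‖ ^ 2 ∂(Sg σ) ≤ ε / n := fun i =>
    tp_dense (Sg σ) (hvc i) (hvs i) (by positivity)
  choose k a t hkat using hex
  obtain ⟨hd, hU⟩ := Apx_partition hnpos
  set J : Fin n → Set ℝ := fun i => Ico (((i : ℕ) : ℝ) / n) ((((i : ℕ) : ℝ) + 1) / n) with hJ
  have hJm : ∀ i, MeasurableSet (J i) := fun i => measurableSet_Ico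
  have huv : ∀ i, ∀ θ ∈ J i, ∀ y, ‖u (θ, y) - v i y‖ ^ 2 ≤ ε := by
    intro i θ hθ y
    have h1 : dist ((θ, y) : ℝ × ℝ) (((i : ℕ) : ℝ) / n, y) < η := by
      rw [Prod.dist_eq, dist_self, max_lt_iff]
      refine ⟨?_, hη⟩
      obtain ⟨h2, h3⟩ := hθ
      rw [Real.dist_eq, abs_of_nonneg (by linarith)]
      rw [add_div] at h3
      linarith
    have h2 := hηu h1
    rw [dist_eq_norm] at h2
    calc ‖u (θ, y) - v i y‖ ^ 2 ≤ Real.sqrt ε ^ 2 := by gcongr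
      _ = ε := Real.sq_sqrt hε0.le
  have hvM : ∀ i y, ‖v i y‖ ≤ M := fun i y => huM _
  have hnε : (n : ℝ) * (ε / n) = ε := by field_simp
  refine ⟨n, J, k, a, t, hJm, hd, hU, ?_, ?_⟩
  · have h := Apx_core σ 1 hu hvc (fun i => Apx_tp_cont (a i) (t i)) huM hvM
      (fun i y => Apx_tp_bound (a i) (t i) y) hJm hd hU huv (ε' := ε / n) (fun i => by
        rw [← integral_Sg σ (by have := hvc i; have := Apx_tp_cont (a i) (t i); fun_prop)
          (fun y => Apx_sq_bound (hvM i y) (Apx_tp_bound (a i) (t i) y))]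
        exact hkat i)
    have : ε * (mJ σ).real univ ≤ ε * C := by gcongr; linarith
    linarith
  · have h := Apx_core (Kernel.const ℝ (Sg σ)) 0 hu hvc (fun i => Apx_tp_cont (a i) (t i)) huM hvM
      (fun i y => Apx_tp_bound (a i) (t i) y) hJm hd hU huv (ε' := ε / n) (fun i => by
        simpa using hkat i)
    have e : mJ (Kernel.const ℝ (Sg σ)) = nJ σ := by
      unfold mJ nJ
      exact Measure.compProd_const
    rw [e] at h
    simp only [zero_sub, norm_neg, Kernel.const_apply, integral_const, smul_eq_mul,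
      measureReal_restrict_apply_univ] at h
    have : ε * (nJ σ).real univ ≤ ε * C := by gcongr; linarith
    linarith

end Pool.Agent.MP_b29402_an

end
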