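import Pool.Agent.MP_b29402_an.Mg.FB2
import Pool.Agent.MP_b29402_an.Mg.Pl2

-- part MP_b29402_an.FA2
section

/-! The measure of the set of points which see a singular point in a given set of vectors. -/

open MeasureTheory Set Filter Topology ProbabilityTheory
open scoped ComplexConjugate ENNReal

namespace Pool.Agent.MP_b29402_an

namespace Flat

variable {X : Type*} [MeasurableSpace X] {Z : Flat X}

/-- countably many sheets: for `(a, w)` with `w ∈ V (mv c a)`, `sheet` gives `δ` with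
`w + a - a' ∈ V (mv c a')` for `‖a' - a‖ < δ`, `a' ∈ K`. Index by pairs (`u = w + a`, a ball of a countable basis
around `a` inside the `δ`-ball). For a fixed basic ball `O` (centre `a0 ∈ K`) the admissible `u` are
countable as `u - a0 ∈ V (mv c a0)` (`countable_V`). -/
theorem exists_sheets {c : X} {K : Set P2} (hK : Convex ℝ K) (ho : IsOpen K) (h0 : (0 : P2) ∈ K)
    (hD : K ⊆ Z.D c) :
    ∃ S : Set (P2 × Set P2), S.Countable ∧ (∀ p ∈ S, IsOpen p.2 ∧ p.2 ⊆ K ∧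
        ∀ a ∈ p.2, p.1 - a ∈ Z.V (Z.mv c a)) ∧
      ∀ a ∈ K, ∀ w ∈ Z.V (Z.mv c a), ∃ p ∈ S, a ∈ p.2 ∧ w = p.1 - a := by
  refine ⟨{p : P2 × Set P2 | p.2 ∈ TopologicalSpace.countableBasis P2 ∧ p.2 ⊆ K ∧
    ∀ a ∈ p.2, p.1 - a ∈ Z.V (Z.mv c a)}, ?_, ?_, ?_⟩
  · have h1 : ∀ O ∈ TopologicalSpace.countableBasis P2,
        ((fun u : P2 => (u, O)) '' {u : P2 | ∀ a ∈ O, u - a ∈ Z.V (Z.mv c a)}).Countable := by
      intro O hO
      obtain ⟨a0, ha0⟩ := TopologicalSpace.nonempty_of_mem_countableBasis hO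
      refine Set.Countable.image ?_ _
      refine ((Z.countable_V (Z.mv c a0)).image fun w => w + a0).mono ?_
      intro u hu
      exact ⟨u - a0, hu a0 ha0, by simp⟩
    refine ((TopologicalSpace.countable_countableBasis P2).biUnion h1).mono ?_
    rintro ⟨u, O⟩ ⟨hO, -, h⟩
    exact mem_biUnion hO ⟨u, h, rfl⟩
  · rintro p ⟨hO, hK', h⟩
    exact ⟨TopologicalSpace.isOpen_of_mem_countableBasis hO, hK', h⟩
  · intro a ha w hw
    obtain ⟨δ, hδ, hs⟩ := sheet hw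
    obtain ⟨O, hO, haO, hOs⟩ :=
      (TopologicalSpace.isBasis_countableBasis P2).exists_subset_of_mem_open
        (show a ∈ K ∩ Metric.ball a δ from ⟨ha, Metric.mem_ball_self hδ⟩)
        (ho.inter Metric.isOpen_ball)
    refine ⟨(w + a, O), ⟨hO, fun b hb => (hOs hb).1, fun b hb => ?_⟩, haO, by simp⟩
    have hb' := hOs hb
    have h1 := (hs (b - a) (by simpa [dist_eq_norm] using hb'.2)).2
    rw [(Z.conv c K hK h0 hD a ha b hb'.1).2] at h1
    have h2 : w + a - b = w - (b - a) := by abel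
    show w + a - b ∈ _
    rw [h2]
    exact h1

/-- a countable family of measurable sets can be made disjoint -/
theorem FA2_disjointify {ι α : Type*} [Countable ι] [MeasurableSpace α] (E : ι → Set α)
    (hE : ∀ n, MeasurableSet (E n)) :
    ∃ F : ι → Set α, (∀ n, MeasurableSet (F n)) ∧ (∀ n, F n ⊆ E n) ∧
      (∀ n m, n ≠ m → Disjoint (F n) (F m)) ∧ (⋃ n, E n) ⊆ ⋃ n, F n := by
  classical
  obtain ⟨e, he⟩ := exists_injective_nat ι
  refine ⟨fun n => E n \ ⋃ m ∈ {m | e m < e n}, E m, fun n => (hE n).diff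
    (MeasurableSet.biUnion (to_countable _) fun m _ => hE m), fun n => sdiff_subset, ?_, ?_⟩
  · intro n m hnm
    rw [Set.disjoint_left]
    intro x hn hm
    rcases lt_or_gt_of_ne (fun h => hnm (he h)) with h | h
    · exact hm.2 (mem_biUnion (show n ∈ {k | e k < e m} from h) hn.1)
    · exact hn.2 (mem_biUnion (show m ∈ {k | e k < e n} from h) hm.1)
  · intro x hx
    have hx' : ∃ k, ∃ n, e n = k ∧ x ∈ E n := by
      obtain ⟨n, hn⟩ := mem_iUnion.1 hx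
      exact ⟨e n, n, rfl, hn⟩
    obtain ⟨n, hn, hxn⟩ := Nat.find_spec hx'
    refine mem_iUnion.2 ⟨n, hxn, fun h => ?_⟩
    obtain ⟨m, hm, hxm⟩ := mem_iUnion₂.1 h
    exact Nat.find_min hx' (show e m < Nat.find hx' from hn ▸ hm) ⟨m, rfl, hxm⟩

/-- sets inside `B` with multiplicity at most `N` -/
theorem FA2_tsum_le {ι : Type*} [Countable ι] (W : ι → Set P2) (hW : ∀ n, MeasurableSet (W n))
    {B : Set P2} (hB : MeasurableSet B) (hWB : ∀ n, W n ⊆ B) (N : ℕ)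
    (hN : ∀ w, {n | w ∈ W n}.encard ≤ N) : ∑' n, volume (W n) ≤ N * volume B := by
  have h1 : ∑' n, volume (W n) = ∫⁻ w, ∑' n, (W n).indicator (1 : P2 → ℝ≥0∞) w := by
    rw [lintegral_tsum fun n => (measurable_one.indicator (hW n)).aemeasurable]
    exact tsum_congr fun n => (lintegral_indicator_one (hW n)).symm
  rw [h1, ← lintegral_indicator_const hB]
  refine lintegral_mono fun w => ?_
  by_cases hw : w ∈ B
  · rw [indicator_of_mem hw]
    have h2 : ∑' n, (W n).indicator (1 : P2 → ℝ≥0∞) w = ∑' _ : {n | w ∈ W n}, (1 : ℝ≥0∞) := by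
      rw [tsum_subtype {n | w ∈ W n} (fun _ => (1 : ℝ≥0∞))]
      refine tsum_congr fun n => ?_
      by_cases hn : w ∈ W n
      · rw [indicator_of_mem hn, indicator_of_mem (show n ∈ {n | w ∈ W n} from hn)]
        rfl
      · rw [indicator_of_notMem hn, indicator_of_notMem (show n ∉ {n | w ∈ W n} from hn)]
    rw [h2, ENNReal.tsum_set_one]
    rw [← ENat.toENNReal_coe]
    exact ENat.toENNReal_le.2 (hN w)
  · have h2 : ∀ n, (W n).indicator (1 : P2 → ℝ≥0∞) w = 0 := fun n =>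
      indicator_of_notMem (fun h => hw (hWB n h)) _
    simp [h2]

/-- With `exists_partition` and `exists_sheets` the set is covered by countably many pieces
`mv (c i) '' A'`, `A' = A i ∩ O ∩ {a | u - a ∈ B}`; disjointify them inside each chart into `A n` (chart
`i n`, vector `u n`), with pairwise disjoint images. `μ ≤ ∑ volume (A n) = ∑ volume (u n - A n)
= ∫⁻ w, ∑ n, indicator (u n - A n) 1 w`, the integrand vanishes off `B` and is at most `N`: the map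
`n ↦ mv (c (i n)) (u n - w)` is injective into `{x | w ∈ V x}` (`card`). -/
theorem measure_sees_le (Z : Flat X) {B : Set P2} (hB : MeasurableSet B) :
    Z.μ {x | (Z.V x ∩ B).Nonempty} ≤ Z.N * volume B := by
  obtain ⟨c, K, A, hK, -, hcov⟩ := Z.exists_partition
  choose S hSc hS hS' using fun i =>
    exists_sheets (Z := Z) (c := c i) (hK i).2.1 (hK i).1 (hK i).2.2.1 (hK i).2.2.2.1
  have : ∀ i, Countable (S i) := fun i => (hSc i).to_subtype
  let A' : (Σ i, S i) → Set P2 := fun n => n.2.1.2 ∩ (fun a => n.2.1.1 - a) ⁻¹' B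
  have hA'm : ∀ n, MeasurableSet (A' n) := fun n =>
    (hS n.1 n.2.1 n.2.2).1.measurableSet.inter (hB.preimage (by fun_prop))
  have hA'K : ∀ n, A' n ⊆ K n.1 := fun n => inter_subset_left.trans (hS n.1 n.2.1 n.2.2).2.1
  obtain ⟨F, hFm, hFE, hFd, hFc⟩ := FA2_disjointify (fun n => Z.mv (c n.1) '' A' n) fun n =>
    (measure_image_mv ((hA'K n).trans (hK n.1).2.2.2.1) ((hK n.1).2.2.2.2.1.mono (hA'K n))
      (hA'm n)).1
  let A'' : (Σ i, S i) → Set P2 := fun n => A' n ∩ Z.mv (c n.1) ⁻¹' F n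
  have hA''m : ∀ n, MeasurableSet (A'' n) := fun n =>
    (hA'm n).inter ((hFm n).preimage (Z.measurable_mv _))
  have hA''K : ∀ n, A'' n ⊆ K n.1 := fun n => inter_subset_left.trans (hA'K n)
  have hFA : ∀ n, Z.mv (c n.1) '' A'' n = F n := fun n => by
    rw [image_inter_preimage]
    exact inter_eq_right.2 (hFE n)
  let W : (Σ i, S i) → Set P2 := fun n => (fun w => n.2.1.1 - w) ⁻¹' A'' n
  have hWm : ∀ n, MeasurableSet (W n) := fun n => (hA''m n).preimage (by fun_prop)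
  have hFW : ∀ n, Z.μ (F n) = volume (W n) := fun n => by
    rw [← hFA n, (measure_image_mv ((hA''K n).trans (hK n.1).2.2.2.1)
      ((hK n.1).2.2.2.2.1.mono (hA''K n)) (hA''m n)).2]
    exact ((Measure.measurePreserving_sub_left volume n.2.1.1).measure_preimage
      (hA''m n).nullMeasurableSet).symm
  have hsub : {x | (Z.V x ∩ B).Nonempty} ⊆ ⋃ n, F n := by
    rintro x ⟨w, hw, hwB⟩
    obtain ⟨i, a, ha, rfl⟩ := hcov x (reg_of_V hw)
    obtain ⟨p, hp, hap, rfl⟩ := hS' i a ((hK i).2.2.2.2.2.2 ha) w hw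
    exact hFc (mem_iUnion.2 ⟨⟨i, p, hp⟩, a, ⟨hap, hwB⟩, rfl⟩)
  refine (measure_mono hsub).trans ((measure_iUnion_le _).trans ?_)
  rw [tsum_congr hFW]
  refine FA2_tsum_le W hWm hB (fun n w hw => ?_) Z.N fun w => ?_
  · have h1 : n.2.1.1 - (n.2.1.1 - w) ∈ B := hw.1.2
    simpa using h1
  · refine le_trans (Set.encard_le_encard_of_injOn
      (f := fun n : (Σ i, S i) => Z.mv (c n.1) (n.2.1.1 - w)) (fun n hn => ?_)
        fun n hn m hm hnm => ?_) (Z.card w)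
    · have h1 := (hS n.1 n.2.1 n.2.2).2.2 _ hn.1.1
      rw [sub_sub_cancel] at h1
      exact h1
    · by_contra hne
      have h1 : Z.mv (c n.1) (n.2.1.1 - w) ∈ F n := hn.2
      have h2 : Z.mv (c m.1) (m.2.1.1 - w) ∈ F m := hm.2
      have h3 : Z.mv (c n.1) (n.2.1.1 - w) = Z.mv (c m.1) (m.2.1.1 - w) := hnm
      rw [← h3] at h2
      exact Set.disjoint_left.1 (hFd n m hne) h1 h2

theorem measureReal_sees_le (Z : Flat X) {B : Set P2} (hB : MeasurableSet B)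
    (hf : volume B ≠ ∞) : Z.μ.real {x | (Z.V x ∩ B).Nonempty} ≤ Z.N * volume.real B := by
  have h := ENNReal.toReal_mono (ENNReal.mul_ne_top (ENNReal.natCast_ne_top _) hf)
    (Z.measure_sees_le hB)
  rw [ENNReal.toReal_mul, ENNReal.toReal_natCast] at h
  exact h

/-- `volume_line`, `exists_vis`, `ae_reg` -/
theorem ae_line (Z : Flat X) (v : P2) : ∀ᵐ x ∂Z.μ, ∀ t : ℝ, t • v ∈ Z.D x := by
  have h1 := Z.measure_sees_le
    (measurableSet_toMeasurable volume (range fun t : ℝ => t • v))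
  rw [measure_toMeasurable, volume_line, mul_zero, nonpos_iff_eq_zero] at h1
  filter_upwards [Z.ae_reg, measure_eq_zero_iff_ae_notMem.1 h1] with x hx hx' t
  by_contra ht
  obtain ⟨s, -, -, hs⟩ := exists_vis hx ht
  exact hx' ⟨s • t • v, hs, subset_toMeasurable _ _ ⟨s * t, by simp [mul_smul]⟩⟩

theorem ae_X0 (Z : Flat X) (θ : ℝ) : ∀ᵐ x ∂Z.μ, x ∈ Z.X0 θ := Z.ae_line (ev θ)

/-- the half holonomies of saddle connections form a countable set: `2 q = u - u'` for two sheets -/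
theorem countable_hol (Z : Flat X) : {q : P2 | ∃ y, Z.SC (y, q)}.Countable := by
  obtain ⟨c, K, A, hK, -, hcov⟩ := Z.exists_partition
  choose S hSc hS hS' using fun i =>
    exists_sheets (Z := Z) (c := c i) (hK i).2.1 (hK i).1 (hK i).2.2.1 (hK i).2.2.2.1
  refine (countable_iUnion fun i => (hSc i).image2 (hSc i)
    fun p p' : P2 × Set P2 => (1 / 2 : ℝ) • (p.1 - p'.1)).mono ?_
  rintro q ⟨y, h1, h2⟩
  obtain ⟨i, a, ha, rfl⟩ := hcov y (reg_of_V h1)
  obtain ⟨p, hp, -, hq⟩ := hS' i a ((hK i).2.2.2.2.2.2 ha) _ h1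
  obtain ⟨p', hp', -, hq'⟩ := hS' i a ((hK i).2.2.2.2.2.2 ha) _ h2
  refine mem_iUnion.2 ⟨i, p, hp, p', hp', ?_⟩
  have e1 : p.1 = q + a := by
    have : q = p.1 - a := hq
    rw [this]; abel
  have e2 : p'.1 = -q + a := by
    have : -q = p'.1 - a := hq'
    rw [this]; abel
  show (1 / 2 : ℝ) • (p.1 - p'.1) = q
  rw [e1, e2]
  ext <;> simp <;> ring

theorem N_pos (Z : Flat X) : 0 < Z.N := by
  obtain ⟨x, w, h⟩ := Z.exV
  have h1 : (1 : ℕ∞) ≤ Z.N :=
    (Set.one_le_encard_iff_nonempty.2 ⟨x, h⟩).trans (Z.card w)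
  exact_mod_cast h1

end Flat

end Pool.Agent.MP_b29402_an

end

-- part MP_b29402_an.FB3
section

/-! Producing saddle connections: from two visible points, from a closed geodesic. Injectivity. -/

open MeasureTheory Set Filter Topology ProbabilityTheory
open scoped ComplexConjugate ENNReal

namespace Pool.Agent.MP_b29402_an

namespace Flat

variable {X : Type*} [MeasurableSpace X] {Z : Flat X}

theorem FB3_par {x : X} {w1 w2 : P2} (h1 : w1 ∈ Z.V x) (h2 : w2 ∈ Z.V x) {a b : ℝ} (ha : 0 < a)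
    (hb : 0 ≤ b) (h : a • w1 = b • w2) : w1 = w2 := by
  have e : w1 = (b / a) • w2 := by
    rw [div_eq_inv_mul, mul_smul, ← h, smul_smul, inv_mul_cancel₀ ha.ne', one_smul]
  rcases hb.eq_or_lt with rfl | hb
  · rw [zero_div, zero_smul] at e
    exact absurd e (V_ne_zero h1)
  · have := vis_unique h2 (div_pos hb ha) (e ▸ h1)
    rw [e, this, one_smul]

theorem FB3_convex (w1 w2 : P2) : Convex ℝ {u : P2 | ∃ α β : ℝ, 0 ≤ α ∧ 0 ≤ β ∧ α + β ≤ 1 ∧ α < 1 ∧
    β < 1 ∧ u = α • w1 + β • w2} := by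
  rintro _ ⟨α, β, a1, a2, a3, a4, a5, rfl⟩ _ ⟨α', β', b1, b2, b3, b4, b5, rfl⟩ s t hs ht hst
  have key : ∀ p q : ℝ, p < 1 → q < 1 → s * p + t * q < 1 := fun p q hp hq => by
    rcases hs.eq_or_lt with rfl | hs'
    · rw [zero_add] at hst
      rw [hst]; linarith
    · nlinarith [mul_pos hs' (sub_pos.2 hp), mul_nonneg ht (sub_pos.2 hq).le]
  refine ⟨s * α + t * α', s * β + t * β', by positivity, by positivity, ?_, key _ _ a4 b4,
    key _ _ a5 b5, ?_⟩
  · nlinarith [mul_le_mul_of_nonneg_left a3 hs, mul_le_mul_of_nonneg_left b3 ht]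
  · module

theorem FB3_rlen_nonneg {T : ℝ} (hT : 0 < T) (θ : ℝ) (q : P2) : 0 ≤ rlen T θ q :=
  le_max_of_le_left (by positivity)

/-- `K = {α w1 + β w2 | α, β ≥ 0, α + β ≤ 1, α < 1, β < 1}` is convex and contains no visible point
(`vis_unique`), so `K ⊆ D x`; `vc_convex` twice with `c` the midpoint; `conv`. -/
theorem sc_of_clean {x : X} {w1 w2 : P2} (h1 : w1 ∈ Z.V x) (h2 : w2 ∈ Z.V x) (hne : w1 ≠ w2)
    (hc : ∀ u ∈ ctri 0 w1 w2, u ∈ Z.V x → u = w1 ∨ u = w2) :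
    Z.SC (Z.mv x ((1 / 2 : ℝ) • (w1 + w2)), (1 / 2 : ℝ) • (w2 - w1)) ∧
      ∀ t : ℝ, |t| < 1 → (1 / 2 : ℝ) • (w1 + w2) + t • ((1 / 2 : ℝ) • (w2 - w1)) ∈ Z.D x ∧
        Z.mv (Z.mv x ((1 / 2 : ℝ) • (w1 + w2))) (t • ((1 / 2 : ℝ) • (w2 - w1))) =
          Z.mv x ((1 / 2 : ℝ) • (w1 + w2) + t • ((1 / 2 : ℝ) • (w2 - w1))) := by
  set K : Set P2 := {u : P2 | ∃ α β : ℝ, 0 ≤ α ∧ 0 ≤ β ∧ α + β ≤ 1 ∧ α < 1 ∧
    β < 1 ∧ u = α • w1 + β • w2} with hKdef
  have hK : Convex ℝ K := FB3_convex w1 w2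
  have h0 : (0 : P2) ∈ K := ⟨0, 0, le_rfl, le_rfl, by norm_num, by norm_num, by norm_num, by simp⟩
  have hD : K ⊆ Z.D x := by
    refine vfree (reg_of_V h1) hK h0 ?_
    rintro _ ⟨α, β, a1, a2, a3, a4, a5, rfl⟩ hu
    rcases hc _ ⟨1 - α - β, α, β, by linarith, a1, a2, by ring, by simp⟩ hu with e | e
    · refine hne (FB3_par h1 h2 (sub_pos.2 a4) a2 ?_)
      rw [sub_smul, one_smul, sub_eq_iff_eq_add']
      exact e.symm
    · refine hne (FB3_par h2 h1 (sub_pos.2 a5) a1 ?_).symm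
      rw [sub_smul, one_smul, sub_eq_iff_eq_add]
      exact e.symm
  have hm : ∀ t : ℝ, |t| < 1 →
      (1 / 2 : ℝ) • (w1 + w2) + t • ((1 / 2 : ℝ) • (w2 - w1)) ∈ K := fun t ht => by
    obtain ⟨t1, t2⟩ := abs_lt.1 ht
    exact ⟨(1 - t) / 2, (1 + t) / 2, by linarith, by linarith, by linarith, by linarith,
      by linarith, by module⟩
  have hc0 : (1 / 2 : ℝ) • (w1 + w2) ∈ K := by simpa using hm 0 (by simp)
  refine ⟨⟨?_, ?_⟩, fun t ht => ⟨hD (hm t ht), ?_⟩⟩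
  · have e : w2 - (1 / 2 : ℝ) • (w1 + w2) = (1 / 2 : ℝ) • (w2 - w1) := by module
    have := vc_convex (c := (1 / 2 : ℝ) • (w1 + w2)) h2 hK h0 hD fun t t0 t1 => by
      rw [e]; exact hm t (abs_lt.2 ⟨by linarith, t1⟩)
    rw [e] at this
    exact this
  · have e : w1 - (1 / 2 : ℝ) • (w1 + w2) = -((1 / 2 : ℝ) • (w2 - w1)) := by module
    have := vc_convex (c := (1 / 2 : ℝ) • (w1 + w2)) h1 hK h0 hD fun t t0 t1 => by
      rw [e, smul_neg, ← neg_smul]; exact hm (-t) (abs_lt.2 ⟨by linarith, by linarith⟩)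
    rw [e] at this
    exact this
  · have := (Z.conv x K hK h0 hD _ hc0 _ (hm t ht)).2
    rwa [add_sub_cancel_left] at this

/-- Strong induction on the number of points of `V x ∩ ctri 0 w1 w2`. If there is a third point
`w3 = α w1 + β w2`, pass to `(w1, w3)`: `w2 ∉ ctri 0 w1 w3` (if `det2 w1 w2 ≠ 0` compare coordinates;
otherwise `w2` is a negative multiple of `w1` and there is no third point by `vis_unique`). -/
theorem exists_clean_pair {x : X} {w1 w2 : P2} (h1 : w1 ∈ Z.V x) (h2 : w2 ∈ Z.V x)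
    (hne : w1 ≠ w2) :
    ∃ u1 ∈ ctri 0 w1 w2, ∃ u2 ∈ ctri 0 w1 w2, u1 ∈ Z.V x ∧ u2 ∈ Z.V x ∧ u1 ≠ u2 ∧
      ∀ u ∈ ctri 0 u1 u2, u ∈ Z.V x → u = u1 ∨ u = u2 := by
  obtain ⟨n, hn⟩ : ∃ n, (Z.V x ∩ ctri 0 w1 w2).ncard = n := ⟨_, rfl⟩
  induction n using Nat.strong_induction_on generalizing w2 with
  | _ n ih =>
    by_cases hc : ∀ u ∈ ctri 0 w1 w2, u ∈ Z.V x → u = w1 ∨ u = w2
    · exact ⟨w1, mid_mem_ctri _ _ _, w2, right_mem_ctri _ _ _, h1, h2, hne, hc⟩
    push Not at hc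
    obtain ⟨w3, k3, h3, n1, n2⟩ := hc
    have hsub : ctri 0 w1 w3 ⊆ ctri 0 w1 w2 :=
      ctri_subset (convex_ctri _ _ _) (left_mem_ctri _ _ _) (mid_mem_ctri _ _ _) k3
    have hnot : w2 ∉ ctri 0 w1 w3 := by
      rintro ⟨c, a, b, c0, a0, b0, hs, e⟩
      obtain ⟨γ, α, β, γ0, α0, β0, hs', e'⟩ := k3
      have b1 : b ≤ 1 := by linarith
      have β1 : β ≤ 1 := by linarith
      rcases (show b * β ≤ 1 by nlinarith).eq_or_lt with h4 | h4
      · have h5 : β = 1 := by nlinarith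
        have h6 : α = 0 := by linarith
        rw [h5, h6] at e'
        exact n2 (by simpa using e')
      · refine hne (FB3_par h2 h1 (sub_pos.2 h4) (b := a + b * α) (by positivity) ?_).symm
        rw [e'] at e
        rw [sub_smul, one_smul, sub_eq_iff_eq_add]
        refine e.trans ?_
        module
    have hlt : (Z.V x ∩ ctri 0 w1 w3).ncard < n := by
      rw [← hn]
      refine Set.ncard_lt_ncard ⟨inter_subset_inter_right _ hsub, fun h => ?_⟩
        (Z.finite_V_ctri x _ _ _)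
      exact hnot (h ⟨h2, right_mem_ctri _ _ _⟩).2
    obtain ⟨u1, a1, u2, a2, r⟩ := ih _ hlt h3 n1.symm rfl
    exact ⟨u1, hsub a1, u2, hsub a2, r⟩

theorem sc_of_two {x : X} {K : Set P2} (hK : Convex ℝ K) (h0 : (0 : P2) ∈ K) {w1 w2 : P2}
    (h1 : w1 ∈ Z.V x) (h2 : w2 ∈ Z.V x) (k1 : w1 ∈ K) (k2 : w2 ∈ K) (hne : w1 ≠ w2) :
    ∃ δ, Z.SC δ ∧ ∃ a ∈ K, ∃ b ∈ K, δ.2 = (1 / 2 : ℝ) • (b - a) := by
  obtain ⟨u1, a1, u2, a2, b1, b2, c, d⟩ := exists_clean_pair h1 h2 hne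
  have hs := ctri_subset hK h0 k1 k2
  exact ⟨_, (sc_of_clean b1 b2 c d).1, u1, hs a1, u2, hs a2, rfl⟩

theorem Thick.sub {ε : ℝ} (h : Z.Thick ε) (x : X) : (Z.V x ∩ Metric.ball 0 ε).Subsingleton := by
  intro w1 k1 w2 k2
  by_contra hne
  have hε : 0 < ε := (norm_nonneg _).trans_lt (mem_ball_zero_iff.1 k1.2)
  obtain ⟨δ, hδ, a, ha, b, hb, e⟩ := sc_of_two (convex_ball 0 ε) (Metric.mem_ball_self hε)
    k1.1 k2.1 k1.2 k2.2 hne
  have h1 := h δ hδ
  rw [e, norm_smul, Real.norm_eq_abs, abs_of_pos (by norm_num)] at h1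
  have h2 := norm_sub_le b a
  rw [mem_ball_zero_iff] at ha hb
  linarith

theorem ThickAt.sub {T θ ε : ℝ} (hT : 0 < T) (h : Z.ThickAt T θ ε) (x : X) :
    (Z.V x ∩ {v | rlen T θ v < ε}).Subsingleton := by
  intro w1 k1 w2 k2
  by_contra hne
  have hε : 0 < ε := (FB3_rlen_nonneg hT θ _).trans_lt k1.2
  have h0 : (0 : P2) ∈ {v | rlen T θ v < ε} := by
    have := rlen_smul hT θ 0 w1
    rw [zero_smul, abs_zero, zero_mul] at this
    change rlen T θ 0 < ε
    rwa [this]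
  obtain ⟨δ, hδ, a, ha, b, hb, e⟩ := sc_of_two (convex_rlen_lt hT θ ε) h0
    k1.1 k2.1 k1.2 k2.2 hne
  have h1 := h δ hδ
  rw [e, rlen_smul hT, abs_of_pos (by norm_num)] at h1
  have h2 := rlen_sub_le hT θ b a
  have ha' : rlen T θ a < ε := ha
  have hb' : rlen T θ b < ε := hb
  linarith

/-- `q` and `-q` are two different points of `V y` -/
theorem thick_pos (Z : Flat X) : ∃ ε : ℝ, 0 < ε ∧ Z.Thick ε := by
  obtain ⟨ρ, hρ, h⟩ := Z.thick0
  refine ⟨ρ, hρ, fun δ hδ => ?_⟩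
  by_contra hlt
  push Not at hlt
  have e : δ.2 = -δ.2 := h δ.1 ⟨hδ.1, mem_ball_zero_iff.2 hlt⟩
    ⟨hδ.2, mem_ball_zero_iff.2 (by rwa [norm_neg])⟩
  refine hδ.ne_zero ?_
  have h2 : (2 : ℝ) • δ.2 = 0 := by rw [two_smul]; exact add_eq_zero_iff_eq_neg.2 e
  exact (smul_eq_zero.1 h2).resolve_left two_ne_zero

theorem FB3_neg {v : P2} {x : X} (h : x ∈ Z.Per v) : x ∈ Z.Per (-v) := by
  have := back h.1
  rw [h.2] at this
  exact this

theorem FB3_ray {v : P2} {x : X} (h : x ∈ Z.Per v) {t : ℝ} (ht : 0 ≤ t) : t • v ∈ Z.D x := by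
  have h1 : ∀ n : ℕ, (n : ℝ) • v ∈ Z.D x := fun n => by
    induction n with
    | zero => rw [Nat.cast_zero, zero_smul]; exact reg_of_mem h.1
    | succ n ih =>
      have := concat h.1 (Nat.cast_nonneg n) (by rw [h.2]; exact ih)
      rwa [Nat.cast_succ, add_comm]
  obtain ⟨n, hn⟩ := exists_nat_gt t
  have hn0 : (0 : ℝ) < n := ht.trans_lt hn
  have := Z.star x _ (h1 n) (t / n) (by positivity) ((div_le_one hn0).2 hn.le)
  rwa [smul_smul, div_mul_cancel₀ _ hn0.ne'] at this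

/-- induction with `concat` for `t ≥ 0`; `-v` is a period as well (`back`) -/
theorem per_line {v : P2} {x : X} (h : x ∈ Z.Per v) (t : ℝ) : t • v ∈ Z.D x := by
  rcases le_total 0 t with ht | ht
  · exact FB3_ray h ht
  · have := FB3_ray (FB3_neg h) (neg_nonneg.2 ht)
    rwa [smul_neg, neg_smul, neg_neg] at this

theorem per_neg {v : P2} {x : X} (h : x ∈ Z.Per v) : x ∈ Z.Per (-v) := FB3_neg h

theorem FB3_succ {v : P2} {x : X} (h : x ∈ Z.Per v) (t : ℝ) :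
    Z.mv x ((t + 1) • v) = Z.mv x (t • v) := by
  have := (line_conv (per_line h) t 1).2
  rw [one_smul, h.2] at this
  exact this.symm

theorem per_mv {v : P2} {x : X} (h : x ∈ Z.Per v) (t : ℝ) : Z.mv x (t • v) ∈ Z.Per v := by
  have := line_conv (per_line h) 1 t
  rw [one_smul, add_comm, FB3_succ h] at this
  exact this

theorem per_int {v : P2} {x : X} (h : x ∈ Z.Per v) (k : ℤ) : Z.mv x ((k : ℝ) • v) = x := by
  induction k using Int.induction_on with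
  | zero => simp [Z.mv_zero]
  | succ k ih =>
    rw [Int.cast_add, Int.cast_one, FB3_succ h]
    exact ih
  | pred k ih =>
    rw [← FB3_succ h, Int.cast_sub, Int.cast_one, sub_add_cancel]
    exact ih

theorem FB3_min {v w : P2} {x : X} (hw : w ∈ Z.V x) (hd : det2 v w ≠ 0) :
    ∃ s' t' : ℝ, |s'| ≤ 2 ∧ 0 < t' ∧ t' ≤ 1 ∧ s' • v + t' • w ∈ Z.V x ∧
      ∀ s t : ℝ, |s| ≤ 2 → 0 < t → t ≤ 1 → s • v + t • w ∈ Z.V x → t' ≤ t := by
  set A : Set P2 := {u | u ∈ Z.V x ∧ ∃ s t : ℝ, |s| ≤ 2 ∧ 0 < t ∧ t ≤ 1 ∧ u = s • v + t • w}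
  have hfin : A.Finite := by
    refine (Z.locfin x (2 * ‖v‖ + ‖w‖)).subset ?_
    rintro _ ⟨hu, s, t, a1, a2, a3, rfl⟩
    refine ⟨hu, mem_closedBall_zero_iff.2 ((norm_add_le _ _).trans ?_)⟩
    rw [norm_smul, norm_smul, Real.norm_eq_abs, Real.norm_eq_abs, abs_of_pos a2]
    nlinarith [norm_nonneg v, norm_nonneg w]
  have hf : ∀ s t : ℝ, det2 v (s • v + t • w) / det2 v w = t := fun s t => by
    rw [div_eq_iff hd]
    simp only [det2, Prod.fst_add, Prod.snd_add, Prod.smul_fst, Prod.smul_snd, smul_eq_mul]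
    ring
  obtain ⟨u, ⟨hu, s', t', a1, a2, a3, rfl⟩, hmin⟩ :=
    Set.exists_min_image A (fun u => det2 v u / det2 v w) hfin
      ⟨w, hw, 0, 1, by simp, one_pos, le_rfl, by simp⟩
  refine ⟨s', t', a1, a2, a3, hu, fun s t b1 b2 b3 b4 => ?_⟩
  have := hmin _ ⟨b4, s, t, b1, b2, b3, rfl⟩
  simpa only [hf] using this

/-- Take `w ∈ V x` (`V_nonempty`); `det2 v w ≠ 0` by `per_line`. Write points as `s v + t w`. In the
parallelogram `Π = {|s| ≤ 2, 0 < t ≤ 1}` (bounded, contains `w`) take `w' = s' v + t' w ∈ V x` with minimal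
`t'` (`locfin`). For an integer `k` with `|k| ≤ 2`, `vc_tri` with `c = k v` (the other points of
`ctri 0 c w'` have `0 < t < t'` and lie in `Π`, or `t = 0`) and `per_int` give `w' - k v ∈ V x`. So there is
`w'' ∈ V x` with `0 ≤ s < 1`, `t = t'`, and `w'' - v ∈ V x`. `exists_clean_pair` for these two: both points
have `t = t'` by minimality, so their difference is `λ v` with `0 < |λ| ≤ 1`; `sc_of_clean`, `SC.neg`. -/
theorem sc_of_per {v : P2} (hv : v ≠ 0) {x : X} (h : x ∈ Z.Per v) :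
    ∃ δ, Z.SC δ ∧ ∃ l : ℝ, 0 < l ∧ l ≤ 1 ∧ δ.2 = (l / 2) • v := by
  obtain ⟨w, hw⟩ := V_nonempty (reg_of_mem h.1)
  have hd : det2 v w ≠ 0 := fun e => by
    obtain ⟨t, rfl⟩ := det2_eq_zero hv e
    exact V_not_mem hw (per_line h t)
  obtain ⟨s', t', a1, a2, a3, a4, hmin⟩ := FB3_min hw hd
  have hscale : ∀ s γ : ℝ, |s| ≤ 2 → 0 ≤ γ → γ ≤ 1 → s • v + (γ * t') • w ∈ Z.V x → γ = 1 := by
    intro s γ b1 b2 b3 b4
    rcases b2.eq_or_lt with rfl | b2
    · rw [zero_mul, zero_smul, add_zero] at b4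
      exact absurd (per_line h s) (V_not_mem b4)
    · have := hmin s _ b1 (mul_pos b2 a2) (by nlinarith) b4
      nlinarith
  have hstep : ∀ (s : ℝ) (k : ℤ), |s| ≤ 2 → |(k : ℝ)| ≤ 2 → s • v + t' • w ∈ Z.V x →
      (s - k) • v + t' • w ∈ Z.V x := by
    intro s k b1 b2 b3
    have := vc_tri b3 (per_line h k) (by
      rintro _ ⟨α, β, γ, c1, c2, c3, c4, rfl⟩ hu
      have e : α • (0 : P2) + β • (k : ℝ) • v + γ • (s • v + t' • w)
          = (β * k + γ * s) • v + (γ * t') • w := by module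
      have c5 : |β * k + γ * s| ≤ 2 := by
        obtain ⟨d1, d2⟩ := abs_le.1 b1
        obtain ⟨d3, d4⟩ := abs_le.1 b2
        exact abs_le.2 ⟨by nlinarith, by nlinarith⟩
      have c6 := hscale _ γ c5 c3 (by linarith) (e ▸ hu)
      have c7 : β = 0 := by linarith
      rw [c6, c7]; simp)
    rw [per_int h] at this
    have e : s • v + t' • w - (k : ℝ) • v = (s - k) • v + t' • w := by module
    rwa [e] at this
  obtain ⟨a5, a6⟩ := abs_le.1 a1
  have f1 : (⌊s'⌋ : ℝ) ≤ s' := Int.floor_le s'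
  have f2 : s' < (⌊s'⌋ : ℝ) + 1 := Int.lt_floor_add_one s'
  have f3 : (-2 : ℝ) ≤ (⌊s'⌋ : ℝ) := by
    exact_mod_cast (Int.le_floor.2 (by exact_mod_cast a5) : (-2 : ℤ) ≤ ⌊s'⌋)
  have g2 := hstep s' ⌊s'⌋ a1 (abs_le.2 ⟨f3, by linarith⟩) a4
  obtain ⟨s, hs⟩ : ∃ s, s = s' - (⌊s'⌋ : ℝ) := ⟨_, rfl⟩
  rw [← hs] at g2
  have s0 : 0 ≤ s := by linarith
  have s1 : s < 1 := by linarith
  have g1 := hstep s 1 (abs_le.2 ⟨by linarith, by linarith⟩) (by norm_num) g2
  rw [Int.cast_one] at g1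
  have hne : (s - 1) • v + t' • w ≠ s • v + t' • w := fun e => by
    have := (coords_unique hd e).1
    linarith
  have hpt : ∀ u ∈ ctri 0 ((s - 1) • v + t' • w) (s • v + t' • w), u ∈ Z.V x →
      ∃ β : ℝ, 0 ≤ β ∧ β ≤ 1 ∧ u = (s - β) • v + t' • w := by
    rintro _ ⟨α, β, γ, c1, c2, c3, c4, rfl⟩ hu
    have e : α • (0 : P2) + β • ((s - 1) • v + t' • w) + γ • (s • v + t' • w)
        = ((β + γ) * s - β) • v + ((β + γ) * t') • w := by module
    have c5 : |(β + γ) * s - β| ≤ 2 := abs_le.2 ⟨by nlinarith, by nlinarith⟩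
    have c6 := hscale _ (β + γ) c5 (by linarith) (by linarith) (e ▸ hu)
    refine ⟨β, c2, by linarith, ?_⟩
    rw [e, c6, one_mul, one_mul]
  obtain ⟨u1, k1, u2, k2, b1, b2, hu, hc⟩ := exists_clean_pair g1 g2 hne
  obtain ⟨β1, p1, p2, e1⟩ := hpt u1 k1 b1
  obtain ⟨β2, q1, q2, e2⟩ := hpt u2 k2 b2
  have hsc := (sc_of_clean b1 b2 hu hc).1
  rcases lt_trichotomy β1 β2 with hlt | heq | hlt
  · refine ⟨_, hsc.neg, β2 - β1, by linarith, by linarith, ?_⟩
    change -((1 / 2 : ℝ) • (u2 - u1)) = _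
    rw [e1, e2]; module
  · exact absurd (by rw [e1, e2, heq]) hu
  · refine ⟨_, hsc, β1 - β2, by linarith, by linarith, ?_⟩
    change (1 / 2 : ℝ) • (u2 - u1) = _
    rw [e1, e2]; module

theorem per_of_eq {x : X} {K : Set P2} (hK : Convex ℝ K) (h0 : (0 : P2) ∈ K) (hD : K ⊆ Z.D x)
    {a b : P2} (ha : a ∈ K) (hb : b ∈ K) (he : Z.mv x a = Z.mv x b) :
    Z.mv x a ∈ Z.Per (b - a) := by
  have := Z.conv x K hK h0 hD a ha b hb
  exact ⟨this.1, this.2.trans he.symm⟩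

theorem Thick.inj {ε : ℝ} (h : Z.Thick ε) {x : X} {K : Set P2} (hK : Convex ℝ K)
    (h0 : (0 : P2) ∈ K) (hD : K ⊆ Z.D x) {a b : P2} (ha : a ∈ K) (hb : b ∈ K)
    (hab : ‖b - a‖ < 2 * ε) (he : Z.mv x a = Z.mv x b) : a = b := by
  by_contra hne
  obtain ⟨δ, hδ, l, l0, l1, e⟩ := sc_of_per (sub_ne_zero.2 (Ne.symm hne))
    (per_of_eq hK h0 hD ha hb he)
  have h1 := h δ hδ
  rw [e, norm_smul, Real.norm_eq_abs, abs_of_pos (by positivity)] at h1
  nlinarith [norm_nonneg (b - a)]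

theorem ThickAt.inj {T θ ε : ℝ} (hT : 0 < T) (h : Z.ThickAt T θ ε) {x : X} {K : Set P2}
    (hK : Convex ℝ K) (h0 : (0 : P2) ∈ K) (hD : K ⊆ Z.D x) {a b : P2} (ha : a ∈ K) (hb : b ∈ K)
    (hab : rlen T θ (b - a) < 2 * ε) (he : Z.mv x a = Z.mv x b) : a = b := by
  by_contra hne
  obtain ⟨δ, hδ, l, l0, l1, e⟩ := sc_of_per (sub_ne_zero.2 (Ne.symm hne))
    (per_of_eq hK h0 hD ha hb he)
  have h1 := h δ hδ
  rw [e, rlen_smul hT, abs_of_pos (by positivity)] at h1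
  nlinarith [FB3_rlen_nonneg hT θ (b - a)]

theorem ThickAt.mono {T θ ε ε' : ℝ} (h : Z.ThickAt T θ ε) (hε : ε' ≤ ε) : Z.ThickAt T θ ε' := fun δ hδ => hε.trans (h δ hδ)

theorem ThickAt.level {T θ ε Λ : ℝ} (hT : 0 < T) (hΛ : 1 ≤ Λ) (h : Z.ThickAt T θ ε) :
    Z.ThickAt (T * Λ) θ (ε / Λ) := fun δ hδ => by
  rw [div_le_iff₀ (by linarith), mul_comm _ Λ]
  exact (h δ hδ).trans (rlen_level hT hΛ θ δ.2)

theorem ThickAt.near {T θ θ' ε A : ℝ} (hT : 1 ≤ T) (hA : 0 ≤ A) (h : Z.ThickAt T θ ε)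
    (hθ : |θ' - θ| ≤ A / T ^ 2) : Z.ThickAt T θ' (ε / (2 + 7 * A)) := fun δ hδ => by
  rw [div_le_iff₀ (by linarith), mul_comm _ (2 + 7 * A)]
  exact (h δ hδ).trans (rlen_near hT hA hθ δ.2)

theorem isClosed_thickAt (Z : Flat X) (T ε : ℝ) : IsClosed {θ | Z.ThickAt T θ ε} := by
  have e : {θ | Z.ThickAt T θ ε} = ⋂ δ : X × P2, ⋂ _ : Z.SC δ, {θ | ε ≤ rlen T θ δ.2} := by
    ext θ; simp [ThickAt]
  rw [e]
  exact isClosed_iInter fun δ => isClosed_iInter fun _ =>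
    isClosed_le continuous_const (continuous_rlen T δ.2)

end Flat

end Pool.Agent.MP_b29402_an

end

-- part MP_b29402_an.FA3
section

/-! Translations preserve the area measure; the directional flows; cylinders. -/

open MeasureTheory Set Filter Topology ProbabilityTheory
open scoped ComplexConjugate ENNReal

namespace Pool.Agent.MP_b29402_an

namespace Flat

variable {X : Type*} [MeasurableSpace X] {Z : Flat X}

theorem FA3_inj {v : P2} {x x' : X} (h : v ∈ Z.D x) (h' : v ∈ Z.D x')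
    (he : Z.mv x v = Z.mv x' v) : x = x' := by
  have h1 := (back h).2
  have h2 := (back h').2
  rw [he] at h1
  rw [← h1, h2]

theorem FA3_locMove {v : P2} {c : X} {K U : Set P2} (hK : Convex ℝ K) (h0 : (0 : P2) ∈ K)
    (hD : K ⊆ Z.D c) (hU : U ⊆ K) (hv : ∀ a ∈ U, v ∈ Z.D (Z.mv c a)) :
    Z.LocMove U (fun a => Z.mv (Z.mv c a) v) := by
  intro a ha
  obtain ⟨δ, hδ, h1, h2⟩ := local_mv (hv a ha)
  refine ⟨δ, hδ, Z.mv (Z.mv c a) v, fun a' ha' hn => ⟨(h1 _ hn).2.1, ?_⟩⟩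
  have h3 := (Z.conv c K hK h0 hD a (hU ha) a' (hU ha')).2
  have h4 := (h2 _ hn).2.2
  rw [h3] at h4
  exact h4

theorem FA3_le (Z : Flat X) (v : P2) {E : Set X} (hE : MeasurableSet E) :
    Z.μ ({x | v ∈ Z.D x} ∩ (fun x => Z.mv x v) ⁻¹' E) ≤ Z.μ E := by
  obtain ⟨c, K, A, hc, hdis, hcov⟩ := Z.exists_partition
  set P : Set X := {x | v ∈ Z.D x} ∩ (fun x => Z.mv x v) ⁻¹' E with hP
  have hPm : MeasurableSet P :=
    (Z.measurableSet_mem_D v).inter (Z.measurable_mv_left v hE)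
  let U : ℕ → Set P2 := fun i => A i ∩ Z.mv (c i) ⁻¹' P
  let ψ : ℕ → P2 → X := fun i a => Z.mv (Z.mv (c i) a) v
  have hUm : ∀ i, MeasurableSet (U i) := fun i =>
    (hc i).2.2.2.2.2.1.inter (Z.measurable_mv (c i) hPm)
  have hUK : ∀ i, U i ⊆ K i := fun i a ha => (hc i).2.2.2.2.2.2 ha.1
  have hUv : ∀ i, ∀ a ∈ U i, v ∈ Z.D (Z.mv (c i) a) := fun i a ha => ha.2.1
  have hψ : ∀ i, MeasurableSet (ψ i '' U i) ∧ Z.μ (ψ i '' U i) = volume (U i) := by
    intro i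
    refine LocMove.measure_image
      (FA3_locMove (hc i).2.1 (hc i).2.2.1 (hc i).2.2.2.1 (hUK i) (hUv i)) ?_ (hUm i)
    intro a ha a' ha' he
    exact (hc i).2.2.2.2.1 (hUK i ha) (hUK i ha') (FA3_inj (hUv i a ha) (hUv i a' ha') he)
  have hφ : ∀ i, Z.μ (Z.mv (c i) '' U i) = volume (U i) := fun i =>
    (measure_image_mv ((hUK i).trans (hc i).2.2.2.1) ((hc i).2.2.2.2.1.mono (hUK i)) (hUm i)).2
  have hsub : P ⊆ ⋃ i, Z.mv (c i) '' U i := by
    intro x hx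
    obtain ⟨i, a, ha, rfl⟩ := hcov x (reg_of_mem hx.1)
    exact mem_iUnion.2 ⟨i, a, ⟨ha, hx⟩, rfl⟩
  have hd : Pairwise (Function.onFun Disjoint fun i => ψ i '' U i) := by
    intro i j hij
    refine Set.disjoint_left.2 ?_
    rintro z ⟨a, ha, rfl⟩ ⟨a', ha', he⟩
    have h1 := FA3_inj (hUv j a' ha') (hUv i a ha) he
    exact Set.disjoint_left.1 (hdis hij) ⟨a, ha.1, rfl⟩ ⟨a', ha'.1, h1⟩
  have hE' : (⋃ i, ψ i '' U i) ⊆ E := by
    intro z hz
    obtain ⟨i, a, ha, rfl⟩ := mem_iUnion.1 hz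
    exact ha.2.2
  calc Z.μ P ≤ Z.μ (⋃ i, Z.mv (c i) '' U i) := measure_mono hsub
    _ ≤ ∑' i, Z.μ (Z.mv (c i) '' U i) := measure_iUnion_le _
    _ = ∑' i, Z.μ (ψ i '' U i) := tsum_congr fun i => by rw [hφ i, (hψ i).2]
    _ = Z.μ (⋃ i, ψ i '' U i) := (measure_iUnion hd fun i => (hψ i).1).symm
    _ ≤ Z.μ E := measure_mono hE'

/-- Let `T x = mv x v`, `E` measurable, `P = {x | v ∈ D x} ∩ T ⁻¹' E`. With `exists_partition`,
`U i = A i ∩ mv (c i) ⁻¹' P`, `ψ i a = T (mv (c i) a)` is `LocMove` (`local_mv`, `conv`) and injective (`back`),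
so `μ (T '' (mv (c i) '' U i)) = volume (U i) = μ (mv (c i) '' U i)`; summing, `μ P = μ (T '' P) ≤ μ E`. Thus
`μ.map T ≤ μ` (`ae_line`), and both are probability measures (apply it to the complement). -/
theorem mp_mv (Z : Flat X) (v : P2) : MeasurePreserving (fun x => Z.mv x v) Z.μ Z.μ := by
  have hm := Z.measurable_mv_left v
  refine ⟨hm, ?_⟩
  have : IsProbabilityMeasure (Z.μ.map fun x => Z.mv x v) :=
    Measure.isProbabilityMeasure_map hm.aemeasurable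
  refine Measure.eq_of_le_of_isProbabilityMeasure ?_
  rw [Measure.le_iff]
  intro E hE
  rw [Measure.map_apply hm hE]
  refine le_trans (measure_mono_ae ?_) (Z.FA3_le v hE)
  filter_upwards [Z.ae_line v] with x hx hxE
  have h1 := hx 1
  rw [one_smul] at h1
  exact ⟨h1, hxE⟩

theorem measurable_fl (Z : Flat X) :
    Measurable fun p : ℝ × ℝ × X => Z.fl p.1 p.2.1 p.2.2 := by
  have h1 : Measurable fun p : ℝ × ℝ × X => p.2.1 • ev p.1 :=
    (measurable_fst.comp measurable_snd).smul (continuous_ev.measurable.comp measurable_fst)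
  exact Z.meas_mv.comp ((measurable_snd.comp measurable_snd).prodMk h1)

theorem measurable_fl_dir (Z : Flat X) (t : ℝ) :
    Measurable fun p : ℝ × X => Z.fl p.1 t p.2 :=
  Z.measurable_fl.comp (measurable_fst.prodMk (measurable_const.prodMk measurable_snd))

/-- `line_conv` -/
theorem aeflow (Z : Flat X) (θ : ℝ) : AEFlow Z.μ (Z.fl θ) (Z.X0 θ) where
  meas := Z.measurable_fl.comp (measurable_const.prodMk measurable_id)
  mp t := Z.mp_mv (t • ev θ)
  ae := Z.ae_X0 θ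
  inv t _ hx s := (line_conv hx s t).1
  add s t _ hx := (line_conv hx s t).2
  zero x := by
    unfold fl
    rw [zero_smul, Z.mv_zero]

/-- `measurableSet_of_open`, `local_mv` -/
theorem measurableSet_per (Z : Flat X) (v : P2) : MeasurableSet (Z.Per v) := by
  refine measurableSet_of_open (fun x hx => reg_of_mem hx.1) ?_
  intro x hx
  obtain ⟨δ, hδ, -, h2⟩ := local_mv hx.1
  refine ⟨δ, hδ, fun a ha _ => ⟨(h2 a ha).2.1, ?_⟩⟩
  rw [(h2 a ha).2.2, hx.2]

theorem per_subset_X0 {θ ℓ : ℝ} (hℓ : 0 < ℓ) : Z.Per (ℓ • ev θ) ⊆ Z.X0 θ := by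
  intro x hx t
  have h := per_line hx (t / ℓ)
  rwa [smul_smul, div_mul_cancel₀ _ hℓ.ne'] at h

theorem FA3_per_fl {θ ℓ : ℝ} (hℓ : 0 < ℓ) (s : ℝ) {x : X} (hx : x ∈ Z.Per (ℓ • ev θ)) :
    Z.fl θ s x ∈ Z.Per (ℓ • ev θ) := by
  have h := per_mv hx (s / ℓ)
  rwa [smul_smul, div_mul_cancel₀ _ hℓ.ne'] at h

theorem per_fl_iff {θ ℓ : ℝ} (hℓ : 0 < ℓ) (s : ℝ) {x : X} (hx : x ∈ Z.X0 θ) :
    Z.fl θ s x ∈ Z.Per (ℓ • ev θ) ↔ x ∈ Z.Per (ℓ • ev θ) := by
  refine ⟨fun h => ?_, FA3_per_fl hℓ s⟩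
  have h1 := FA3_per_fl hℓ (-s) h
  have h2 : Z.fl θ (-s) (Z.fl θ s x) = x := by
    have h3 := (line_conv hx (-s) s).2
    rw [neg_add_cancel, zero_smul, Z.mv_zero] at h3
    exact h3
  rwa [h2] at h1

theorem per_fl_nat {θ ℓ : ℝ} {x : X} (hx : x ∈ Z.Per (ℓ • ev θ)) (j : ℕ) :
    Z.fl θ ((j : ℝ) * ℓ) x = x := by
  have h := per_int hx (j : ℤ)
  rw [smul_smul, Int.cast_natCast] at h
  exact h

theorem SegLip.flow {L : ℝ} (hL : 0 ≤ L) {h : X → ℂ} (hh : Z.SegLip L h) (θ : ℝ) {x : X}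
    (hx : x ∈ Z.X0 θ) (s t : ℝ) : ‖h (Z.fl θ s x) - h (Z.fl θ t x)‖ ≤ L * |s - t| := by
  obtain ⟨h1, h2⟩ := line_conv hx (s - t) t
  have h3 := hh _ _ h1
  rw [h2, sub_add_cancel] at h3
  refine le_trans h3 (mul_le_mul_of_nonneg_left ?_ hL)
  rw [norm_smul, Real.norm_eq_abs]
  exact mul_le_of_le_one_right (abs_nonneg _) (norm_ev_le θ)

end Flat

end Pool.Agent.MP_b29402_an

end

-- part MP_b29402_an.DkB
section

/-! Elementary bounds for `ex`, `Dk`, trigonometric polynomials. -/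

open MeasureTheory Set Filter Topology ProbabilityTheory
open scoped ComplexConjugate ENNReal

namespace Pool.Agent.MP_b29402_an

theorem ex_norm (t : ℝ) : ‖ex t‖ = 1 := by
  unfold ex; exact Complex.norm_exp_ofReal_mul_I t

theorem ex_add (s t : ℝ) : ex (s + t) = ex s * ex t := by
  unfold ex; rw [← Complex.exp_add]; congr 1; push_cast; ring

theorem ex_zero : ex 0 = 1 := by
  unfold ex; simp

theorem ex_conj (t : ℝ) : conj (ex t) = ex (-t) := by
  unfold ex; rw [← Complex.exp_conj]; congr 1; simp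

theorem DkB_pow (t : ℝ) (n : ℕ) : ex t ^ n = ex (n * t) := by
  unfold ex; rw [← Complex.exp_nat_mul]; congr 1; push_cast; ring

theorem ex_continuous : Continuous ex := by
  unfold ex; fun_prop

theorem ex_two_pi_int (j : ℤ) : ex (2 * Real.pi * j) = 1 := by
  unfold ex
  have := Complex.exp_int_mul_two_pi_mul_I j
  rw [← this]; congr 1; push_cast; ring

/-- `Complex.norm_exp_I_mul_ofReal_sub_one_le` -/
theorem ex_sub_one_le (t : ℝ) : ‖ex t - 1‖ ≤ |t| := by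
  unfold ex
  rw [mul_comm]
  exact Real.norm_exp_I_mul_ofReal_sub_one_le

theorem ex_sub_le (s t : ℝ) : ‖ex s - ex t‖ ≤ |s - t| := by
  have e : ex s - ex t = ex t * (ex (s - t) - 1) := by
    rw [mul_sub, ← ex_add, mul_one]; congr 2; ring
  rw [e, norm_mul, ex_norm, one_mul]
  exact ex_sub_one_le _

/-- `‖ex t - 1‖ = 2 |sin (t / 2)|` (`Complex.norm_exp_I_mul_ofReal_sub_one`) and Jordan's
inequality `Real.mul_abs_le_abs_sin`. -/
theorem ex_sub_one_ge (t : ℝ) (h : |t| ≤ Real.pi) : 2 / Real.pi * |t| ≤ ‖ex t - 1‖ := by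
  unfold ex
  rw [mul_comm (t : ℂ), Complex.norm_exp_I_mul_ofReal_sub_one, Real.norm_eq_abs, abs_mul,
    abs_two]
  have h1 : |t / 2| ≤ Real.pi / 2 := by rw [abs_div, abs_two]; linarith
  have h2 := Real.mul_abs_le_abs_sin h1
  rw [abs_div, abs_two] at h2
  linarith

theorem Dk_continuous : Continuous Dk := by
  unfold Dk
  have := ex_continuous
  exact intervalIntegral.continuous_parametric_intervalIntegral_of_continuous'
    (f := fun z s : ℝ => ex (s * z)) (by unfold Function.uncurry; fun_prop) 0 1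

theorem Dk_zero : Dk 0 = 1 := by
  unfold Dk; simp [ex_zero]

theorem Dk_le_one (z : ℝ) : ‖Dk z‖ ≤ 1 := by
  unfold Dk
  have := intervalIntegral.norm_integral_le_of_norm_le_const (a := 0) (b := 1) (C := 1)
    (f := fun s : ℝ => ex (s * z)) (fun s _ => (ex_norm _).le)
  simpa using this

/-- `Dk z = (ex z - 1) / (i z)` (`integral_exp_mul_complex`). -/
theorem Dk_le_div (z : ℝ) (hz : z ≠ 0) : ‖Dk z‖ ≤ 2 / |z| := by
  have hc : (z : ℂ) * Complex.I ≠ 0 := mul_ne_zero (by exact_mod_cast hz) Complex.I_ne_zero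
  have e : Dk z = (ex z - 1) / ((z : ℂ) * Complex.I) := by
    unfold Dk ex
    have := integral_exp_mul_complex (a := 0) (b := 1) hc
    simp only [Complex.ofReal_one, mul_one, Complex.ofReal_zero, mul_zero, Complex.exp_zero] at this
    rw [← this]
    congr 1; ext s; congr 1; push_cast; ring
  rw [e, norm_div, norm_mul, Complex.norm_I, mul_one, Complex.norm_real, Real.norm_eq_abs]
  refine div_le_div_of_nonneg_right ?_ (abs_nonneg _)
  have := norm_sub_le (ex z) 1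
  rw [ex_norm, norm_one] at this
  linarith

/-- `‖Dk z‖ ≥ re (ex (-z/2) * Dk z) = ∫ s in 0..1, cos ((s - 1/2) z) ≥ ∫ (1 - (s-1/2)² z² / 2)
= 1 - z² / 24` (`Real.one_sub_sq_div_two_le_cos`). -/
theorem Dk_ge (z : ℝ) (hz : |z| ≤ 2) : 5 / 6 ≤ ‖Dk z‖ := by
  have hc := ex_continuous
  have e1 : ex (-(z / 2)) * Dk z = ∫ s in (0 : ℝ)..1, ex ((s - 1 / 2) * z) := by
    unfold Dk
    rw [← intervalIntegral.integral_const_mul]
    congr 1; ext s; rw [← ex_add]; congr 1; ring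
  have e2 : ‖Dk z‖ = ‖∫ s in (0 : ℝ)..1, ex ((s - 1 / 2) * z)‖ := by
    rw [← e1, norm_mul, ex_norm, one_mul]
  have hi : IntervalIntegrable (fun s : ℝ => ex ((s - 1 / 2) * z)) volume 0 1 :=
    Continuous.intervalIntegrable (by fun_prop) _ _
  have e3 : (∫ s in (0 : ℝ)..1, ex ((s - 1 / 2) * z)).re
      = ∫ s in (0 : ℝ)..1, Real.cos ((s - 1 / 2) * z) := by
    have := (Complex.reCLM.intervalIntegral_comp_comm hi).symm
    simp only [Complex.reCLM_apply] at this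
    rw [this]
    congr 1; ext s; unfold ex; exact Complex.exp_ofReal_mul_I_re _
  have e4 : ∫ s in (0 : ℝ)..1, (1 - 2 * (s - 1 / 2) ^ 2) = 5 / 6 := by
    have : (fun s : ℝ => 1 - 2 * (s - 1 / 2) ^ 2) = fun s : ℝ => 1 / 2 + 2 * s - 2 * s ^ 2 := by
      ext s; ring
    rw [this, intervalIntegral.integral_sub, intervalIntegral.integral_add,
      intervalIntegral.integral_const_mul, intervalIntegral.integral_const_mul]
    · simp; norm_num
    all_goals exact Continuous.intervalIntegrable (by fun_prop) _ _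
  have e5 : ∫ s in (0 : ℝ)..1, (1 - 2 * (s - 1 / 2) ^ 2)
      ≤ ∫ s in (0 : ℝ)..1, Real.cos ((s - 1 / 2) * z) := by
    refine intervalIntegral.integral_mono_on zero_le_one
      (Continuous.intervalIntegrable (by fun_prop) _ _)
      (Continuous.intervalIntegrable (by fun_prop) _ _) fun s _ => ?_
    have h1 := Real.one_sub_sq_div_two_le_cos (x := (s - 1 / 2) * z)
    have h2 : z ^ 2 ≤ 4 := by
      have := abs_nonneg z
      rw [← sq_abs]; nlinarith
    have h3 : ((s - 1 / 2) * z) ^ 2 ≤ (s - 1 / 2) ^ 2 * 4 := by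
      rw [mul_pow]; exact mul_le_mul_of_nonneg_left h2 (sq_nonneg _)
    linarith
  rw [e2, ← e4]
  exact e5.trans (e3 ▸ Complex.re_le_norm _)

/-- change of variables `s = L s'` -/
theorem Dk_eq_avg (L z : ℝ) (hL : 0 < L) :
    (L : ℂ)⁻¹ * ∫ s in (0 : ℝ)..L, ex (s * z) = Dk (L * z) := by
  unfold Dk
  have := intervalIntegral.integral_comp_mul_left (a := 0) (b := 1)
    (fun s : ℝ => ex (s * z)) hL.ne'
  simp only [mul_zero, mul_one] at this
  have e : (fun s : ℝ => ex (s * (L * z))) = fun s : ℝ => ex (L * s * z) := by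
    ext s; congr 1; ring
  rw [e, this, Complex.real_smul]
  push_cast; rfl

theorem Dk_tendsto (z : ℝ) (hz : z ≠ 0) : Tendsto (fun L : ℝ => Dk (L * z)) atTop (𝓝 0) := by
  have hz' : 0 < |z| := abs_pos.2 hz
  have h1 : Tendsto (fun L : ℝ => 2 / |z| * L⁻¹) atTop (𝓝 0) := by
    simpa using tendsto_inv_atTop_zero.const_mul (2 / |z|)
  refine squeeze_zero_norm' ?_ h1
  filter_upwards [eventually_gt_atTop 0] with L hL
  refine (Dk_le_div _ (mul_ne_zero hL.ne' hz)).trans (le_of_eq ?_)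
  rw [abs_mul, abs_of_pos hL]; field_simp

theorem tp_continuous {n : ℕ} (a : Fin n → ℂ) (t : Fin n → ℝ) : Continuous (tp a t) := by
  have := ex_continuous
  unfold tp; fun_prop

theorem tp_norm_le {n : ℕ} (a : Fin n → ℂ) (t : Fin n → ℝ) (y : ℝ) :
    ‖tp a t y‖ ≤ ∑ i, ‖a i‖ := by
  unfold tp
  refine (norm_sum_le _ _).trans (le_of_eq ?_)
  simp [ex_norm]

theorem tp_shift {n : ℕ} (a : Fin n → ℂ) (t : Fin n → ℝ) (r y : ℝ) :
    ‖tp a (fun i => t i - r) y‖ = ‖tp a t y‖ := by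
  have e : tp a (fun i => t i - r) y = ex (-(r * y)) * tp a t y := by
    unfold tp
    rw [Finset.mul_sum]
    refine Finset.sum_congr rfl fun i _ => ?_
    rw [mul_left_comm, ← ex_add]; congr 2; ring
  rw [e, norm_mul, ex_norm, one_mul]

theorem tp_conj {n : ℕ} (a : Fin n → ℂ) (t : Fin n → ℝ) (y : ℝ) :
    tp (fun i => conj (a i)) (fun i => -t i) y = conj (tp a t y) := by
  unfold tp
  rw [map_sum]
  refine Finset.sum_congr rfl fun i _ => ?_
  rw [map_mul, ex_conj]; congr 2; ring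

theorem tp_cons {n : ℕ} (a : Fin n → ℂ) (t : Fin n → ℝ) (y : ℝ) :
    tp (Fin.cons 1 (fun i => -a i) : Fin (n + 1) → ℂ) (Fin.cons 0 t : Fin (n + 1) → ℝ) y
      = 1 - tp a t y := by
  unfold tp
  rw [Fin.sum_univ_succ]
  simp [ex_zero, sub_eq_add_neg]

/-- Dirichlet kernel: geometric sum, `‖∑ j < J, w ^ j‖ ≤ 2 / ‖w - 1‖` with `w = ex (ℓ y)`; reduce
`ℓ y` modulo `2 π` to `z` with `δ < |z| ≤ π` (`j = round (ℓ y / (2 π))`), then `ex_sub_one_ge`. -/
theorem dirichlet_le (J : ℕ) (hJ : 0 < J) (ℓ y δ : ℝ) (hδ : 0 < δ)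
    (h : ∀ j : ℤ, δ < |ℓ * y - 2 * Real.pi * j|) :
    ‖tp (fun _ : Fin J => (J : ℂ)⁻¹) (fun i => (i : ℝ) * ℓ) y‖ ≤ Real.pi / (J * δ) := by
  have hpi := Real.pi_pos
  set j : ℤ := round (ℓ * y / (2 * Real.pi)) with hj
  set z : ℝ := ℓ * y - 2 * Real.pi * j with hz
  have hz1 : δ < |z| := h j
  have hz2 : |z| ≤ Real.pi := by
    have h1 := abs_sub_round (ℓ * y / (2 * Real.pi))
    have h2 : z = 2 * Real.pi * (ℓ * y / (2 * Real.pi) - j) := by rw [hz]; field_simp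
    rw [h2, abs_mul, abs_of_pos (by positivity)]
    nlinarith
  have hw : ex (ℓ * y) = ex z := by
    have : ℓ * y = z + 2 * Real.pi * j := by rw [hz]; ring
    rw [this, ex_add, ex_two_pi_int, mul_one]
  have h3 := ex_sub_one_ge z hz2
  have h4 : 2 / Real.pi * δ ≤ ‖ex z - 1‖ :=
    (mul_le_mul_of_nonneg_left hz1.le (by positivity)).trans h3
  have h5 : 0 < 2 / Real.pi * δ := by positivity
  have hne : ex z ≠ 1 := by
    intro e; rw [e, sub_self, norm_zero] at h4; linarith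
  have e : tp (fun _ : Fin J => (J : ℂ)⁻¹) (fun i => (i : ℝ) * ℓ) y
      = (J : ℂ)⁻¹ * ((ex z ^ J - 1) / (ex z - 1)) := by
    unfold tp
    rw [← Finset.mul_sum, ← geom_sum_eq hne, Finset.sum_range]
    congr 1
    refine Finset.sum_congr rfl fun i _ => ?_
    rw [← hw, DkB_pow]; congr 1; ring
  have h6 : ‖ex z ^ J - 1‖ ≤ 2 := by
    have := norm_sub_le (ex z ^ J) 1
    rw [norm_pow, ex_norm, one_pow, norm_one] at this
    linarith
  have hJ' : (0 : ℝ) < J := by exact_mod_cast hJ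
  rw [e, norm_mul, norm_inv, Complex.norm_natCast, norm_div]
  calc (J : ℝ)⁻¹ * (‖ex z ^ J - 1‖ / ‖ex z - 1‖) ≤ (J : ℝ)⁻¹ * (2 / (2 / Real.pi * δ)) := by
        gcongr
    _ = Real.pi / (J * δ) := by field_simp

theorem dirichlet_le_one (J : ℕ) (ℓ y : ℝ) :
    ‖tp (fun _ : Fin J => (J : ℂ)⁻¹) (fun i => (i : ℝ) * ℓ) y‖ ≤ 1 := by
  refine (tp_norm_le _ _ _).trans ?_
  rcases Nat.eq_zero_or_pos J with rfl | hJ
  · simp
  · have hJ' : (J : ℝ) ≠ 0 := by exact_mod_cast hJ.ne'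
    simp [hJ']

end Pool.Agent.MP_b29402_an

end
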