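import Pool.Agent.MP_b29402_an.Mg.GW
import Pool.Agent.MP_b29402_an.Mg.DkB

-- part MP_b29402_an.GT
section

/-! Attaching a triangle to a saddle connection. -/

open MeasureTheory Set Filter Topology ProbabilityTheory
open scoped ComplexConjugate ENNReal

namespace Pool.Agent.MP_b29402_an

namespace Flat

variable {X : Type*} [MeasurableSpace X] {Z : Flat X}

theorem GT_convex (a p : P2) : Convex ℝ {u : P2 | ∃ α β : ℝ, 0 ≤ α ∧ 0 ≤ β ∧ α + β < 1 ∧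
    u = α • a + β • p} := by
  rintro _ ⟨α, β, a1, a2, a3, rfl⟩ _ ⟨α', β', b1, b2, b3, rfl⟩ s t hs ht hst
  refine ⟨s * α + t * α', s * β + t * β', by positivity, by positivity, ?_, by module⟩
  rcases hs.eq_or_lt with rfl | hs'
  · rw [zero_add] at hst
    rw [hst]; linarith
  · nlinarith [mul_pos hs' (sub_pos.2 a3), mul_nonneg ht (sub_pos.2 b3).le]

theorem GT_D {z : X} (hz : Z.reg z) {a p : P2}
    (h : ∀ α β : ℝ, 0 ≤ α → 0 ≤ β → α + β < 1 → α • a + β • p ∉ Z.V z) (α β : ℝ) (h1 : 0 ≤ α)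
    (h2 : 0 ≤ β) (h3 : α + β < 1) : α • a + β • p ∈ Z.D z := by
  refine vfree hz (GT_convex a p) ⟨0, 0, le_rfl, le_rfl, by norm_num, by simp⟩ ?_
    ⟨α, β, h1, h2, h3, rfl⟩
  rintro _ ⟨α', β', b1, b2, b3, rfl⟩
  exact h α' β' b1 b2 b3

theorem GT_mem (a p : P2) {α β : ℝ} (h1 : 0 ≤ α) (h2 : 0 ≤ β) (h3 : α + β ≤ 1) :
    α • a + β • p ∈ ctri 0 a p :=
  ⟨1 - α - β, α, β, by linarith, h1, h2, by ring, by simp⟩

theorem GT_det_smul (c : ℝ) (a b : P2) : det2 (c • a) b = c * det2 a b := by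
  simp only [det2, Prod.smul_fst, Prod.smul_snd, smul_eq_mul]; ring

theorem GT_det_comb (q p : P2) (c γ : ℝ) : det2 q (c • q + γ • p) = γ * det2 q p := by
  simp only [det2, Prod.fst_add, Prod.snd_add, Prod.smul_fst, Prod.smul_snd, smul_eq_mul]; ring

theorem GT_ne {a p : P2} (hap : det2 a p ≠ 0) {α β : ℝ} (h1 : α < 1) (h2 : β < 1) :
    α • a + β • p ≠ a ∧ α • a + β • p ≠ p := by
  constructor
  · intro e
    have := (coords_unique hap (s' := 1) (t' := 0) (by simpa using e)).1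
    linarith
  · intro e
    have := (coords_unique hap (s' := 0) (t' := 1) (by simpa using e)).2
    linarith

/-- If `ctri 0 a p` contained a visible point `u = α a + β p` other than `a, p` (then `α, β > 0`, `β < 1` by
`vis_unique`), take one with minimal `s = α / (1 - β) ∈ (0, 1]` (`finite_V_ctri`). The set
`{α' (s a) + β' p | α' + β' < 1}` has no visible point, so lies in `D z` (`vfree`), and `empty_tri` (with `s a`
for `a`) shows that no wall meets `t u = (t α / s) (s a) + t β p`, `0 < t < 1`. -/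
theorem lower_visible {F : Finset (X × P2)} (hF : ∀ γ ∈ F, Z.SC γ) {z : X} {a p : P2}
    (ha : a ∈ Z.V z) (hp : p ∈ Z.V z) (hap : det2 a p ≠ 0)
    (hside : ∀ α : ℝ, 0 ≤ α → α < 1 → ∀ γ ∈ F, Z.mv z (α • a) ∈ Z.seg γ → det2 a γ.2 = 0)
    (hvis : ∀ β : ℝ, 0 < β → β < 1 → Z.mv z (β • p) ∉ Z.walls F)
    (h : ∃ u ∈ ctri 0 a p, u ∈ Z.V z ∧ u ≠ a ∧ u ≠ p) :
    ∃ α β : ℝ, 0 < α ∧ 0 < β ∧ β < 1 ∧ α + β ≤ 1 ∧ α • a + β • p ∈ Z.V z ∧
      ∀ t : ℝ, 0 < t → t < 1 → Z.mv z (t • (α • a + β • p)) ∉ Z.walls F := by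
  set S : Set P2 := {u | u ∈ Z.V z ∧ ∃ α β : ℝ, 0 < α ∧ 0 < β ∧ α + β ≤ 1 ∧ u = α • a + β • p}
  have hS : ∀ u ∈ ctri 0 a p, u ∈ Z.V z → u ≠ a → u ≠ p → u ∈ S := by
    rintro _ ⟨γ, α, β, c1, c2, c3, c4, rfl⟩ hu n1 n2
    rw [smul_zero, zero_add] at hu n1 n2 ⊢
    have key : ∀ (w : P2) (t : ℝ), w ∈ Z.V z → 0 ≤ t → t • w ∈ Z.V z → t • w = w := by
      intro w t hw t0 ht
      rcases t0.eq_or_lt with rfl | t0
      · exact absurd (zero_smul ℝ w) (V_ne_zero ht)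
      · rw [vis_unique hw t0 ht, one_smul]
    refine ⟨hu, α, β, c2.lt_of_ne ?_, c3.lt_of_ne ?_, by linarith, rfl⟩
    · rintro rfl
      rw [zero_smul, zero_add] at hu n2
      exact n2 (key p β hp c3 hu)
    · rintro rfl
      rw [zero_smul, add_zero] at hu n1
      exact n1 (key a α ha c2 hu)
  have hfin : S.Finite := by
    refine (Z.finite_V_ctri z 0 a p).subset ?_
    rintro _ ⟨hu, α, β, c1, c2, c3, rfl⟩
    exact ⟨hu, GT_mem a p c1.le c2.le c3⟩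
  have hf : ∀ α β : ℝ, det2 (α • a + β • p) p / det2 a p / (1 - det2 a (α • a + β • p) / det2 a p)
      = α / (1 - β) := fun α β => by
    have e1 : det2 (α • a + β • p) p = α * det2 a p := by
      simp only [det2, Prod.fst_add, Prod.snd_add, Prod.smul_fst, Prod.smul_snd, smul_eq_mul]; ring
    rw [e1, GT_det_comb, mul_div_cancel_right₀ _ hap, mul_div_cancel_right₀ _ hap]
  obtain ⟨u, k, hu, n1, n2⟩ := h
  obtain ⟨u0, ⟨hu0, α, β, c1, c2, c3, rfl⟩, hmin⟩ := Set.exists_min_image S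
    (fun u => det2 u p / det2 a p / (1 - det2 a u / det2 a p)) hfin ⟨u, hS u k hu n1 n2⟩
  have β1 : β < 1 := by linarith
  refine ⟨α, β, c1, c2, β1, c3, hu0, fun t t0 t1 => ?_⟩
  obtain ⟨s, hs⟩ : ∃ s, s = α / (1 - β) := ⟨_, rfl⟩
  have s0 : 0 < s := hs ▸ div_pos c1 (by linarith)
  have s1 : s ≤ 1 := hs ▸ (div_le_one (by linarith)).2 (by linarith)
  have hsα : s * (1 - β) = α := by rw [hs]; exact div_mul_cancel₀ _ (by linarith)
  have hD := GT_D (reg_of_V ha) (a := s • a) (p := p) fun α' β' b1 b2 b3 hv => by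
    rw [smul_smul] at hv
    have b4 : α' * s ≤ α' := by nlinarith
    have b5 : 0 ≤ α' * s := by positivity
    obtain ⟨m1, m2⟩ := GT_ne hap (α := α' * s) (β := β') (by linarith) (by linarith)
    have := hmin _ (hS _ (GT_mem a p b5 b2 (by linarith)) hv m1 m2)
    simp only [hf] at this
    rw [← hs, le_div_iff₀ (by linarith)] at this
    nlinarith
  have := empty_tri hF (a := s • a) (p := p) (by rw [GT_det_smul]; exact mul_ne_zero s0.ne' hap) hD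
    (fun α' b1 b2 γ hγ hm => by
      rw [smul_smul] at hm
      rw [GT_det_smul, hside _ (by positivity) (by nlinarith) γ hγ hm, mul_zero]) hvis
    (α := t * (1 - β)) (β := t * β) (mul_pos t0 (by linarith)) (mul_pos t0 c2) (by linarith)
  have e : (t * (1 - β)) • s • a + (t * β) • p = t • (α • a + β • p) := by
    rw [← hsα]; module
  rwa [e] at this

theorem GT_hside {F : Finset (X × P2)} {y : X} {q : P2} (hq : Z.SC (y, q))
    (hnc : ∀ γ ∈ F, (Z.seg γ ∩ Z.seg (y, q)).Nonempty → det2 q γ.2 = 0) {τ σ : ℝ} (hτ : |τ| < 1)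
    (hσ : σ = 1 ∨ σ = -1) (α : ℝ) (h0 : 0 ≤ α) (h1 : α < 1) (γ : X × P2) (hγ : γ ∈ F)
    (h : Z.mv (Z.mv y (τ • q)) (α • (σ - τ) • q) ∈ Z.seg γ) : det2 ((σ - τ) • q) γ.2 = 0 := by
  obtain ⟨t1, t2⟩ := abs_lt.1 hτ
  have ht : |τ + α * (σ - τ)| < 1 := by
    rcases hσ with rfl | rfl
    · exact abs_lt.2 ⟨by nlinarith, by nlinarith⟩
    · exact abs_lt.2 ⟨by nlinarith, by nlinarith⟩
  have := (hq.move hτ ht).2
  rw [add_sub_cancel_left] at this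
  rw [smul_smul] at h
  rw [GT_det_smul, hnc γ hγ ⟨_, h, _, ht, this⟩, mul_zero]

/-- the lowest visible point seen from a point of the base -/
theorem GT_low {F : Finset (X × P2)} (hF : ∀ γ ∈ F, Z.SC γ) {y : X} {q : P2} (hq : Z.SC (y, q))
    (hnc : ∀ γ ∈ F, (Z.seg γ ∩ Z.seg (y, q)).Nonempty → det2 q γ.2 = 0) {τ : ℝ} (hτ : |τ| < 1)
    {w : P2} (hw : w ∈ Z.V (Z.mv y (τ • q))) (hqw : 0 < det2 q w)
    (hv : ∀ t : ℝ, 0 < t → t < 1 → Z.mv (Z.mv y (τ • q)) (t • w) ∉ Z.walls F) :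
    ∃ p ∈ ctri ((-1 - τ) • q) ((1 - τ) • q) w, p ∈ Z.V (Z.mv y (τ • q)) ∧ 0 < det2 q p ∧
      (∀ t : ℝ, 0 < t → t < 1 → Z.mv (Z.mv y (τ • q)) (t • p) ∉ Z.walls F) ∧
      ∀ σ : ℝ, σ = 1 ∨ σ = -1 → ∀ u ∈ ctri 0 ((σ - τ) • q) p, u ∈ Z.V (Z.mv y (τ • q)) →
        u = (σ - τ) • q ∨ u = p := by
  obtain ⟨t1, t2⟩ := abs_lt.1 hτ
  set z := Z.mv y (τ • q)
  set S : Set P2 := {p | p ∈ ctri ((-1 - τ) • q) ((1 - τ) • q) w ∧ p ∈ Z.V z ∧ 0 < det2 q p ∧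
      ∀ t : ℝ, 0 < t → t < 1 → Z.mv z (t • p) ∉ Z.walls F}
  have hfin : S.Finite := (Z.finite_V_ctri z _ _ w).subset fun p hp => ⟨hp.2.1, hp.1⟩
  obtain ⟨p, ⟨k, hp, hd, hvis⟩, hmin⟩ := Set.exists_min_image S (fun p => det2 q p) hfin
    ⟨w, right_mem_ctri _ _ _, hw, hqw, hv⟩
  refine ⟨p, k, hp, hd, hvis, fun σ hσ => ?_⟩
  by_contra hc
  push Not at hc
  have h0 : (0 : P2) ∈ ctri ((-1 - τ) • q) ((1 - τ) • q) w :=
    ⟨(1 - τ) / 2, (1 + τ) / 2, 0, by linarith, by linarith, le_rfl, by ring, by module⟩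
  have he : (σ - τ) • q ∈ Z.V z ∧ σ - τ ≠ 0 ∧
      (σ - τ) • q ∈ ctri ((-1 - τ) • q) ((1 - τ) • q) w := by
    rcases hσ with rfl | rfl
    · exact ⟨(hq.ends hτ).1, by linarith, mid_mem_ctri _ _ _⟩
    · exact ⟨(hq.ends hτ).2, by linarith, left_mem_ctri _ _ _⟩
  obtain ⟨u, k1, hu, n⟩ := hc
  obtain ⟨α, β, c1, c2, c3, c4, c5, c6⟩ := lower_visible hF he.1 hp
    (by rw [GT_det_smul]; exact mul_ne_zero he.2.1 hd.ne') (GT_hside hq hnc hτ hσ) hvis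
    ⟨u, k1, hu, n⟩
  have e : det2 q (α • (σ - τ) • q + β • p) = β * det2 q p := by rw [smul_smul, GT_det_comb]
  have := hmin _ ⟨ctri_subset (convex_ctri _ _ _) h0 he.2.2 k (GT_mem _ _ c1.le c2.le c4), c5,
    by rw [e]; positivity, c6⟩
  simp only [e] at this
  nlinarith

/-- The lowest visible point. `z = mv y (τ q)`, `a = (-1 - τ) q`, `b = (1 - τ) q ∈ V z` (`SC.ends`), `w1` from
`exists_visible`. Among the finitely many `p ∈ V z ∩ ctri a b w1` with `0 < det2 q p` and no wall on `(0, p)`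
take one with minimal `det2 q p`. By `lower_visible` (`ctri_subset`, `0 ∈ ctri a b w1`) the triangles
`ctri 0 a p`, `ctri 0 b p` contain no other visible point. `tri a b p` is contained in their union and avoids
`a, b, p`, so `tri a b p ⊆ D z`; `empty_tri` twice and visibility of `p` show that no wall meets the interior.
Finally translate to the base point `y` (`conv` in `tri a b p`, `y = mv z (-τ q)`, `vc_convex`). -/
theorem exists_clean_tri {F : Finset (X × P2)} (hF : Z.Disj F) {L M : ℝ}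
    (hL : ∀ γ ∈ F, ‖γ.2‖ ≤ L) {y : X} {q : P2} (hq : Z.SC (y, q)) (hqL : ‖q‖ ≤ L)
    (hnc : ∀ γ ∈ F, (Z.seg γ ∩ Z.seg (y, q)).Nonempty → det2 q γ.2 = 0) {τ : ℝ} (hτ : |τ| < 1)
    {w : P2} (hw : w ∈ Z.V (Z.mv y (τ • q))) (hqw : 0 < det2 q w) (hM : ‖w‖ ≤ M) :
    ∃ p ∈ Z.V y, 0 < det2 q p ∧ ‖p‖ ≤ M + 3 * L ∧ tri (-q) q p ⊆ Z.D y ∧
      ∀ α β γ : ℝ, 0 < α → 0 < β → 0 < γ → α + β + γ = 1 →
        Z.mv y (α • (-q) + β • q + γ • p) ∉ Z.walls F := by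
  obtain ⟨t1, t2⟩ := abs_lt.1 hτ
  have hL0 : 0 ≤ L := (norm_nonneg _).trans hqL
  have hM0 : 0 ≤ M := (norm_nonneg _).trans hM
  obtain ⟨w1, hw1, hd1, hn1, hv1⟩ := exists_visible hF hL0 hL (z := Z.mv y (τ • q)) (q := q)
    (fun γ hγ h => hnc γ hγ ⟨_, h, τ, hτ, rfl⟩) hw hqw
  obtain ⟨p, k, hp, hd, hvis, hcl⟩ := GT_low hF.1 hq hnc hτ hw1 hd1 hv1
  have hy : Z.mv (Z.mv y (τ • q)) ((-τ) • q) = y := by
    have := (hq.move hτ (t := 0) (by simp)).2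
    rwa [zero_sub, zero_smul, Z.mv_zero] at this
  set z := Z.mv y (τ • q) with hz
  have hreg : Z.reg z := reg_of_V hp
  have hdet : ∀ σ : ℝ, σ - τ ≠ 0 → det2 ((σ - τ) • q) p ≠ 0 := fun σ h => by
    rw [GT_det_smul]; exact mul_ne_zero h hd.ne'
  have hpos : (1 : ℝ) - τ ≠ 0 := by linarith
  have hneg : (-1 : ℝ) - τ ≠ 0 := by linarith
  -- every point of the big triangle in one of the two halves
  have hsplit : ∀ α β : ℝ, 0 ≤ α → 0 ≤ β → ∃ σ c : ℝ, (σ = 1 ∨ σ = -1) ∧ σ - τ ≠ 0 ∧ 0 ≤ c ∧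
      c ≤ α + β ∧ (α < 1 → β < 1 → c < 1) ∧ (0 < α → 0 < β → c < α + β) ∧
      α • (-1 - τ) • q + β • (1 - τ) • q = c • (σ - τ) • q := by
    intro α β a0 b0
    rcases le_total (α * (1 + τ)) (β * (1 - τ)) with h | h
    · obtain ⟨c, hc⟩ : ∃ c, c * (1 - τ) = β * (1 - τ) - α * (1 + τ) :=
        ⟨_, div_mul_cancel₀ _ hpos⟩
      have c1 : 0 ≤ c := by nlinarith
      have c2 : c ≤ β := by nlinarith
      refine ⟨1, c, Or.inl rfl, hpos, c1, by linarith, fun _ _ => by linarith,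
        fun _ _ => by linarith, ?_⟩
      rw [smul_smul c, hc]; module
    · obtain ⟨c, hc⟩ : ∃ c, c * (-1 - τ) = β * (1 - τ) - α * (1 + τ) :=
        ⟨_, div_mul_cancel₀ _ hneg⟩
      have c1 : 0 ≤ c := by nlinarith
      have c2 : c ≤ α := by nlinarith
      refine ⟨-1, c, Or.inr rfl, hneg, c1, by linarith, fun _ _ => by linarith,
        fun _ _ => by linarith, ?_⟩
      rw [smul_smul c, hc]; module
  have h0 : (0 : P2) ∈ tri ((-1 - τ) • q) ((1 - τ) • q) p :=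
    ⟨(1 - τ) / 2, (1 + τ) / 2, 0, by linarith, by linarith, le_rfl, by linarith, by linarith,
      by norm_num, by ring, by module⟩
  have hc0 : (-τ) • q ∈ tri ((-1 - τ) • q) ((1 - τ) • q) p :=
    ⟨1 / 2, 1 / 2, 0, by norm_num, by norm_num, le_rfl, by norm_num, by norm_num,
      by norm_num, by norm_num, by module⟩
  have hD : tri ((-1 - τ) • q) ((1 - τ) • q) p ⊆ Z.D z := by
    refine vfree hreg (convex_tri _ _ _) h0 ?_
    rintro _ ⟨α, β, γ, a0, b0, g0, a1, b1, g1, hs, rfl⟩ hu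
    obtain ⟨σ, c, hσ, hσ', c0, c1, c2, -, e⟩ := hsplit α β a0 b0
    rw [e] at hu
    obtain ⟨m1, m2⟩ := GT_ne (hdet σ hσ') (c2 a1 b1) g1
    rcases hcl σ hσ _ (GT_mem _ _ c0 g0 (by linarith)) hu with h | h
    exacts [m1 h, m2 h]
  have hint : ∀ α β γ : ℝ, 0 < α → 0 < β → 0 < γ → α + β + γ = 1 →
      Z.mv z (α • (-1 - τ) • q + β • (1 - τ) • q + γ • p) ∉ Z.walls F := by
    intro α β γ a0 b0 g0 hs
    obtain ⟨σ, c, hσ, hσ', c0, -, -, c3, e⟩ := hsplit α β a0.le b0.le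
    rw [e]
    rcases c0.eq_or_lt with rfl | c0
    · rw [zero_smul, zero_add]
      exact hvis γ g0 (by linarith)
    · refine empty_tri hF.1 (hdet σ hσ') (GT_D hreg fun α' β' d1 d2 d3 hu => ?_)
        (GT_hside hq hnc hτ hσ) hvis c0 g0 (by linarith [c3 a0 b0])
      obtain ⟨m1, m2⟩ := GT_ne (hdet σ hσ') (α := α') (β := β') (by linarith) (by linarith)
      rcases hcl σ hσ _ (GT_mem _ _ d1 d2 d3.le) hu with h | h
      exacts [m1 h, m2 h]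
  have hp' := vc_convex hp (convex_tri _ _ _) h0 hD fun t u0 u1 =>
    tri_toward hc0 (right_mem_ctri _ _ _) u0 u1
  rw [hy] at hp'
  have hsh : ∀ α β γ : ℝ, ∀ r : P2, α + β + γ = 1 →
      α • (-1 - τ) • q + β • (1 - τ) • q + γ • r - (-τ) • q
        = α • (-q) + β • q + γ • (r - (-τ) • q) := by
    intro α β γ r hs
    obtain rfl : γ = 1 - α - β := by linarith
    module
  refine ⟨p - (-τ) • q, hp', ?_, ?_, ?_, ?_⟩
  · have e : p - (-τ) • q = τ • q + (1 : ℝ) • p := by module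
    rwa [e, GT_det_comb, one_mul]
  · obtain ⟨α, β, γ, a0, b0, g0, hs, e⟩ := k
    refine norm_le_of_mem_ctri (a := -q) (b := q) (p := w1 - (-τ) • q)
      ⟨α, β, γ, a0, b0, g0, hs, by rw [e, hsh _ _ _ _ hs]⟩ (by rw [norm_neg]; linarith)
      (by linarith) ((norm_sub_le _ _).trans ?_)
    rw [norm_smul, norm_neg, Real.norm_eq_abs]
    nlinarith [norm_nonneg q, abs_nonneg τ]
  · rintro _ ⟨α, β, γ, a0, b0, g0, a1, b1, g1, hs, rfl⟩
    have := (Z.conv z _ (convex_tri _ _ _) h0 hD _ hc0 _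
      ⟨α, β, γ, a0, b0, g0, a1, b1, g1, hs, rfl⟩).1
    rwa [hy, hsh _ _ _ _ hs] at this
  · intro α β γ a0 b0 g0 hs
    have := (Z.conv z _ (convex_tri _ _ _) h0 hD _ hc0 _
      ⟨α, β, γ, a0.le, b0.le, g0.le, by linarith, by linarith, by linarith, hs, rfl⟩).2
    rw [hy, hsh _ _ _ _ hs] at this
    rw [this]
    exact hint α β γ a0 b0 g0 hs

theorem GT_side {F : Finset (X × P2)} (hF : ∀ γ ∈ F, Z.SC γ) {L : ℝ}
    (hL : ∀ γ ∈ F, ‖γ.2‖ ≤ L) {y : X} {p e : P2} (he : e ∈ Z.V y) (hp : p ∈ Z.V y)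
    (hd : det2 e p ≠ 0) (hD : tri (-e) e p ⊆ Z.D y)
    (hint : ∀ α β γ : ℝ, 0 < α → 0 < β → 0 < γ → α + β + γ = 1 →
        Z.mv y (α • (-e) + β • e + γ • p) ∉ Z.walls F) :
    (∃ γ, Z.SC γ ∧ γ.2 = (1 / 2 : ℝ) • (p - e) ∧ ∀ γ' ∈ F, Disjoint (Z.seg γ) (Z.seg γ')) ∨
      (‖p - e‖ ≤ 2 * L ∧ ∀ t : ℝ, 0 < t → t < 1 → Z.mv y ((1 - t) • e + t • p) ∈ Z.walls F) := by
  have hne : e ≠ p := by
    rintro rfl
    exact hd (by simp only [det2]; ring)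
  have h0 : (0 : P2) ∈ tri (-e) e p :=
    ⟨1 / 2, 1 / 2, 0, by norm_num, by norm_num, le_rfl, by norm_num, by norm_num,
      by norm_num, by norm_num, by module⟩
  have hc : ∀ u ∈ ctri 0 e p, u ∈ Z.V y → u = e ∨ u = p := by
    intro u k hu
    have k' := ctri_subset (convex_ctri (-e) e p) (tri_subset_ctri _ _ _ h0) (mid_mem_ctri _ _ _)
      (right_mem_ctri _ _ _) k
    rcases eq_vertex_of_not_mem_tri k' (fun h => V_not_mem hu (hD h)) with h | h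
    · obtain ⟨α, β, γ, a0, b0, g0, hs, e1⟩ := k
      rw [h, smul_zero, zero_add] at e1
      have := (coords_unique hd (s := -1) (t := 0) (by simpa using e1)).1
      linarith
    · exact h
  obtain ⟨hsc, hm⟩ := sc_of_clean he hp hne hc
  by_cases hdis : ∀ γ' ∈ F, Disjoint
    (Z.seg (Z.mv y ((1 / 2 : ℝ) • (e + p)), (1 / 2 : ℝ) • (p - e))) (Z.seg γ')
  · exact Or.inl ⟨_, hsc, rfl, hdis⟩
  right
  push Not at hdis
  obtain ⟨γ', hγ', hnd⟩ := hdis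
  obtain ⟨x, hx1, hx2⟩ := Set.not_disjoint_iff.1 hnd
  have hpar : det2 ((1 / 2 : ℝ) • (p - e)) γ'.2 = 0 := by
    by_contra hn
    obtain ⟨A, B, hAB⟩ := exists_coords hd γ'.2
    have hκ : A + B ≠ 0 := fun h => hn (by
      obtain rfl : B = -A := by linarith
      rw [hAB]
      simp only [det2, Prod.fst_add, Prod.snd_add, Prod.smul_fst, Prod.smul_snd, Prod.fst_sub,
        Prod.snd_sub, smul_eq_mul]
      ring)
    obtain ⟨t, ht, rfl⟩ := hx1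
    obtain ⟨t1, t2⟩ := abs_lt.1 ht
    have hx3 : Z.mv y ((1 / 2 : ℝ) • (e + p) + t • ((1 / 2 : ℝ) • (p - e))) ∈ Z.seg γ' := by
      rw [← (hm t ht).2]; exact hx2
    have ev1 : ∀ᶠ ε : ℝ in 𝓝 0, 0 < (1 - t) / 2 + -(ε * (A + B)) * (A - B) / 2 :=
      ContinuousAt.eventually_lt continuousAt_const (by fun_prop) (by simp; linarith)
    have ev2 : ∀ᶠ ε : ℝ in 𝓝 0, 0 < (1 + t) / 2 + -(ε * (A + B)) * B :=
      ContinuousAt.eventually_lt continuousAt_const (by fun_prop) (by simp; linarith)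
    obtain ⟨ε, ⟨e1, e2⟩, e3⟩ :=
      (((ev1.and ev2).filter_mono nhdsWithin_le_nhds).and (self_mem_nhdsWithin (s := Ioi 0))).exists
    have e4 : 0 < ε * (A + B) * (A + B) / 2 := by
      have : 0 < ε := e3
      have := mul_self_pos.2 hκ
      rw [mul_assoc]; positivity
    have e5 : ε * (A + B) * (A + B) / 2 + ((1 - t) / 2 + -(ε * (A + B)) * (A - B) / 2)
        + ((1 + t) / 2 + -(ε * (A + B)) * B) = 1 := by ring
    have e6 : (1 / 2 : ℝ) • (e + p) + t • ((1 / 2 : ℝ) • (p - e)) + (-(ε * (A + B))) • γ'.2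
        = (ε * (A + B) * (A + B) / 2) • (-e) + ((1 - t) / 2 + -(ε * (A + B)) * (A - B) / 2) • e
          + ((1 + t) / 2 + -(ε * (A + B)) * B) • p := by
      rw [hAB]; module
    have := wall_prop (hF γ' hγ') (convex_tri _ _ _) h0 hD (t := -(ε * (A + B)))
      ⟨0, (1 - t) / 2, (1 + t) / 2, le_rfl, by linarith, by linarith, by norm_num, by linarith,
        by linarith, by ring, by module⟩
      ⟨_, _, _, e4.le, e1.le, e2.le, by linarith, by linarith, by linarith, e5, e6⟩ hx3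
    rw [e6] at this
    exact hint _ _ _ e4 e1 e2 e5 ⟨γ', hγ', this⟩
  obtain ⟨q1, q2⟩ := par_eq hsc (hF γ' hγ') ⟨x, hx1, hx2⟩ hpar
  have hn : ‖γ'.2‖ = ‖(1 / 2 : ℝ) • (p - e)‖ := by
    rcases q2 with h | h
    · rw [h]
    · rw [h, norm_neg]
  have hseg : Z.seg γ' = Z.seg (Z.mv y ((1 / 2 : ℝ) • (e + p)), (1 / 2 : ℝ) • (p - e)) := by
    rcases q2 with h | h
    · exact congrArg Z.seg (Prod.ext q1 h)
    · rw [← seg_neg (Z.mv y ((1 / 2 : ℝ) • (e + p)), (1 / 2 : ℝ) • (p - e))]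
      exact congrArg Z.seg (Prod.ext q1 h)
  refine ⟨?_, fun t t0 t1 => ⟨γ', hγ', ?_⟩⟩
  · have := hL γ' hγ'
    rw [hn, norm_smul, Real.norm_eq_abs, abs_of_pos (by norm_num)] at this
    linarith
  · have ht : |2 * t - 1| < 1 := abs_lt.2 ⟨by linarith, by linarith⟩
    rw [hseg]
    refine ⟨2 * t - 1, ht, ?_⟩
    rw [(hm _ ht).2]
    congr 1; module

/-- One side `[e, p]` (`e = q` or `e = -q`) of a clean triangle is a saddle connection `γ1` (`sc_of_clean`: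
`ctri 0 e p ⊆ tri ∪ vertices`). If a wall `γ'` meets `seg γ1` transversally, `wall_prop` in `K = tri` moves the
common point slightly into the interior: impossible. So they are parallel and `par_eq` applies: same
segment and `‖p - e‖ = 2 ‖γ'.2‖ ≤ 2 L`. -/
theorem side_alt {F : Finset (X × P2)} (hF : ∀ γ ∈ F, Z.SC γ) {L : ℝ}
    (hL : ∀ γ ∈ F, ‖γ.2‖ ≤ L) {y : X} {q p e : P2} (hq : Z.SC (y, q)) (hp : p ∈ Z.V y)
    (hqp : 0 < det2 q p) (hD : tri (-q) q p ⊆ Z.D y)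
    (hint : ∀ α β γ : ℝ, 0 < α → 0 < β → 0 < γ → α + β + γ = 1 →
        Z.mv y (α • (-q) + β • q + γ • p) ∉ Z.walls F) (he : e = q ∨ e = -q) :
    (∃ γ, Z.SC γ ∧ γ.2 = (1 / 2 : ℝ) • (p - e) ∧ ∀ γ' ∈ F, Disjoint (Z.seg γ) (Z.seg γ')) ∨
      (‖p - e‖ ≤ 2 * L ∧ ∀ t : ℝ, 0 < t → t < 1 → Z.mv y ((1 - t) • e + t • p) ∈ Z.walls F) := by
  rcases he with rfl | rfl
  · exact GT_side hF hL hq.1 hp hqp.ne' hD hint
  · refine GT_side hF hL hq.2 hp ?_ ?_ ?_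
    · rw [← neg_one_smul ℝ q, GT_det_smul]; linarith
    · rintro _ ⟨α, β, γ, a0, b0, g0, a1, b1, g1, hs, rfl⟩
      exact hD ⟨β, α, γ, b0, a0, g0, b1, a1, g1, by linarith, by module⟩
    · intro α β γ a0 b0 g0 hs
      have e : α • (- -q) + β • (-q) + γ • p = β • (-q) + α • q + γ • p := by module
      rw [e]
      exact hint β α γ b0 a0 g0 (by linarith)

/-- `exists_clean_tri` and `side_alt` for both sides -/
theorem attach {F : Finset (X × P2)} (hF : Z.Disj F) {L M : ℝ}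
    (hL : ∀ γ ∈ F, ‖γ.2‖ ≤ L) {y : X} {q : P2} (hq : Z.SC (y, q)) (hqL : ‖q‖ ≤ L)
    (hnc : ∀ γ ∈ F, (Z.seg γ ∩ Z.seg (y, q)).Nonempty → det2 q γ.2 = 0) {τ : ℝ} (hτ : |τ| < 1)
    {w : P2} (hw : w ∈ Z.V (Z.mv y (τ • q))) (hqw : 0 < det2 q w) (hM : ‖w‖ ≤ M) :
    (∃ γ, Z.SC γ ∧ ‖γ.2‖ ≤ M + 2 * L ∧ ∀ γ' ∈ F, Disjoint (Z.seg γ) (Z.seg γ')) ∨
      Z.Tri F L y q := by
  have hM0 : 0 ≤ M := (norm_nonneg _).trans hM
  obtain ⟨p, hp, hd, hn, hD, hint⟩ := exists_clean_tri hF hL hq hqL hnc hτ hw hqw hM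
  have key : ∀ e : P2, ‖e‖ ≤ L → ‖(1 / 2 : ℝ) • (p - e)‖ ≤ M + 2 * L := fun e he => by
    rw [norm_smul, Real.norm_eq_abs, abs_of_pos (by norm_num)]
    have := norm_sub_le p e
    linarith
  rcases side_alt hF.1 hL hq hp hd hD hint (Or.inl rfl) with ⟨γ, h1, h2, h3⟩ | ⟨h1, h2⟩
  · exact Or.inl ⟨γ, h1, h2 ▸ key q hqL, h3⟩
  rcases side_alt hF.1 hL hq hp hd hD hint (Or.inr rfl) with ⟨γ, h3, h4, h5⟩ | ⟨-, h4⟩
  · exact Or.inl ⟨γ, h3, h4 ▸ key (-q) (by rwa [norm_neg]), h5⟩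
  refine Or.inr ⟨p, hd, ?_, hp, hD, fun t t0 t1 => ⟨h4 t t0 t1, h2 t t0 t1⟩⟩
  have := norm_add_le (p - q) q
  rw [sub_add_cancel] at this
  linarith

open Classical in
theorem Disj.insert {F : Finset (X × P2)} (hF : Z.Disj F) {γ : X × P2} (hγ : Z.SC γ)
    (h : ∀ γ' ∈ F, Disjoint (Z.seg γ) (Z.seg γ')) :
    Z.Disj (insert γ F) ∧ (insert γ F).card = F.card + 1 := by
  have hn : γ ∉ F := fun hm =>
    Set.disjoint_left.1 (h γ hm) (mid_mem_seg γ) (mid_mem_seg γ)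
  refine ⟨⟨fun δ hδ => ?_, fun δ hδ δ' hδ' hne => ?_⟩, Finset.card_insert_of_notMem hn⟩
  · rcases Finset.mem_insert.1 hδ with rfl | hδ
    exacts [hγ, hF.1 δ hδ]
  · rcases Finset.mem_insert.1 hδ with rfl | h1 <;> rcases Finset.mem_insert.1 hδ' with rfl | h2
    · exact absurd rfl hne
    · exact h _ h2
    · exact (h _ h1).symm
    · exact hF.2 _ h1 _ h2 hne

/-- a member of a disjoint family (with either orientation) is crossed by no wall -/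
theorem Disj.nc {F : Finset (X × P2)} (hF : Z.Disj F) {δ : X × P2} (hδ : δ ∈ F) {q : P2}
    (hq : q = δ.2 ∨ q = -δ.2) :
    ∀ γ ∈ F, (Z.seg γ ∩ Z.seg (δ.1, q)).Nonempty → det2 q γ.2 = 0 := by
  intro γ hγ hne
  have hseg : Z.seg (δ.1, q) = Z.seg δ := by
    rcases hq with rfl | rfl
    · rfl
    · exact seg_neg δ
  rw [hseg] at hne
  by_cases e : γ = δ
  · subst e
    rcases hq with rfl | rfl
    · simp only [det2]; ring
    · simp only [det2, Prod.fst_neg, Prod.snd_neg]; ring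
  · exact absurd (hF.2 γ hγ δ hδ e) (Set.not_disjoint_iff_nonempty_inter.2 hne)

end Flat

end Pool.Agent.MP_b29402_an

end

-- part MP_b29402_an.GU
section

/-! If every side of every wall carries a triangle, the triangles cover the surface. -/

open MeasureTheory Set Filter Topology ProbabilityTheory
open scoped ComplexConjugate ENNReal

namespace Pool.Agent.MP_b29402_an

namespace Flat

variable {X : Type*} [MeasurableSpace X] {Z : Flat X}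

/-- a point of a wall has a neighbourhood covered by the two triangles of the wall -/
theorem GU_wall {y : X} {q p p' : P2} (hq : Z.SC (y, q)) (hp : 0 < det2 q p)
    (hp' : 0 < det2 (-q) p') {x : X} (hx : x ∈ Z.seg (y, q)) :
    ∃ δ : ℝ, 0 < δ ∧ ∀ a : P2, ‖a‖ < δ → Z.mv x a ∈ Z.mv y '' tri (-q) q p ∨
      Z.mv x a ∈ Z.mv y '' tri (-(-q)) (-q) p' := by
  obtain ⟨τ, hτ, rfl⟩ := hx
  obtain ⟨δ0, h0, hmv, -⟩ := local_mv (hq.mem_D hτ)
  obtain ⟨δ1, h1, hb1⟩ := half_ball_subset_tri hp hτ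
  obtain ⟨δ2, h2, hb2⟩ := half_ball_subset_tri hp' (τ := -τ) (by rwa [abs_neg])
  refine ⟨min δ0 (min δ1 δ2), by positivity, fun a ha => ?_⟩
  simp only [lt_min_iff] at ha
  have he := (hmv a ha.1).2.2
  rcases le_total 0 (det2 q a) with h | h
  · exact Or.inl ⟨_, hb1 a ha.2.1 h, he.symm⟩
  · refine Or.inr ⟨_, hb2 a ha.2.2 (by simp only [det2, Prod.fst_neg, Prod.snd_neg] at h ⊢; linarith), ?_⟩
    rw [he]
    simp

/-- a point of a triangle is on its base, on a wall, or interior -/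
theorem GU_cases {F : Finset (X × P2)} {y : X} {q p : P2} (hp : 0 < det2 q p)
    (hD : tri (-q) q p ⊆ Z.D y)
    (hw : ∀ t : ℝ, 0 < t → t < 1 → Z.mv y ((1 - t) • (-q) + t • p) ∈ Z.walls F ∧
      Z.mv y ((1 - t) • q + t • p) ∈ Z.walls F) {x : X} (hx : x ∈ Z.mv y '' tri (-q) q p) :
    x ∈ Z.seg (y, q) ∨ x ∈ Z.walls F ∨
      ∃ δ : ℝ, 0 < δ ∧ ∀ a : P2, ‖a‖ < δ → Z.mv x a ∈ Z.mv y '' tri (-q) q p := by
  obtain ⟨c, hc, rfl⟩ := hx
  have hcD := hD hc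
  obtain ⟨α, β, γ, hα, hβ, hγ, hα1, hβ1, hγ1, hs, rfl⟩ := hc
  rcases hγ.eq_or_lt with rfl | hγ
  · refine Or.inl ⟨β - α, abs_lt.2 ⟨by linarith, by linarith⟩, ?_⟩
    congr 1
    simp only
    module
  rcases hα.eq_or_lt with rfl | hα
  · refine Or.inr (Or.inl ?_)
    have := (hw γ hγ hγ1).2
    rwa [show (1 - γ) • q + γ • p = (0 : ℝ) • (-q) + β • q + γ • p by
      rw [show β = 1 - γ by linarith]; module] at this
  rcases hβ.eq_or_lt with rfl | hβ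
  · refine Or.inr (Or.inl ?_)
    have := (hw γ hγ hγ1).1
    rwa [show (1 - γ) • (-q) + γ • p = α • (-q) + (0 : ℝ) • q + γ • p by
      rw [show α = 1 - γ by linarith]; module] at this
  obtain ⟨δ0, h0, hmv, -⟩ := local_mv hcD
  obtain ⟨δ1, h1, hb⟩ := ball_subset_tri hp hα hβ hγ hs
  refine Or.inr (Or.inr ⟨min δ0 δ1, by positivity, fun a ha => ?_⟩)
  simp only [lt_min_iff] at ha
  exact ⟨_, hb a ha.2, (hmv a ha.1).2.2.symm⟩

/-- a point of a triangle sees a vertex -/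
theorem GU_sees {y : X} {q p : P2} (hq : Z.SC (y, q)) (hD : tri (-q) q p ⊆ Z.D y) {L : ℝ}
    (hqL : ‖q‖ ≤ L) (hpL : ‖p‖ ≤ 3 * L) {x : X} (hx : x ∈ Z.mv y '' tri (-q) q p) :
    (Z.V x ∩ Metric.closedBall 0 (4 * L)).Nonempty := by
  obtain ⟨c, hc, rfl⟩ := hx
  have h0 : (0 : P2) ∈ tri (-q) q p :=
    ⟨1 / 2, 1 / 2, 0, by norm_num, by norm_num, le_rfl, by norm_num, by norm_num, by norm_num,
      by norm_num, by module⟩
  have hL0 : 0 ≤ L := (norm_nonneg q).trans hqL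
  have hc3 : ‖c‖ ≤ 3 * L := norm_le_of_mem_ctri (tri_subset_ctri _ _ _ hc)
    (by rw [norm_neg]; linarith) (by linarith) hpL
  refine ⟨q - c, vc_convex hq.1 (convex_tri _ _ _) h0 hD
    fun t ht0 ht1 => tri_toward hc (mid_mem_ctri _ _ _) ht0 ht1, ?_⟩
  rw [mem_closedBall_zero_iff]
  exact (norm_sub_le q c).trans (by linarith)

/-- Choose `p δ`, `p' δ` for the two sides and let `U` be the union over `δ ∈ F` of
`mv δ.1 '' tri (-q) q (p δ)` and `mv δ.1 '' tri q (-q) (p' δ)` (`q = δ.2`). Apply `loc_const` to `U`.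
Closedness: `local_tri` for the finitely many triangles. Openness: a point of `tri` has `γ = 0` (on
`seg δ`), or `α = 0` or `β = 0` (on a wall by `Tri`), or is interior (`ball_subset_tri`, `conv`). For
`x = mv y (τ q) ∈ seg γ`, `γ ∈ F`: `local_mv` and `half_ball_subset_tri` for both sides. Finally for
`x = mv y c`, `c ∈ tri`: `q - c ∈ V x` (`vc_convex`, `tri_toward`), `‖q - c‖ ≤ 4 L`. -/
theorem near_V_of_tri {F : Finset (X × P2)} (hF : Z.Disj F) (hne : F.Nonempty) {L : ℝ}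
    (hL : ∀ δ ∈ F, ‖δ.2‖ ≤ L) (hT : ∀ δ ∈ F, Z.Tri F L δ.1 δ.2 ∧ Z.Tri F L δ.1 (-δ.2)) {x : X}
    (hx : Z.reg x) : (Z.V x ∩ Metric.closedBall 0 (4 * L)).Nonempty := by
  classical
  set G : Finset (X × P2) := F ∪ F.image (fun δ => (δ.1, -δ.2)) with hG
  have hG1 : ∀ δ ∈ F, δ ∈ G := fun δ h => Finset.mem_union_left _ h
  have hG2 : ∀ δ ∈ F, (δ.1, -δ.2) ∈ G := fun δ h =>
    Finset.mem_union_right _ (Finset.mem_image_of_mem _ h)
  have hGa : ∀ ε ∈ G, Z.SC ε ∧ ‖ε.2‖ ≤ L ∧ Z.seg ε ⊆ Z.walls F ∧ Z.Tri F L ε.1 ε.2 := by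
    intro ε hε
    rcases Finset.mem_union.1 hε with h | h
    · exact ⟨hF.1 ε h, hL ε h, fun z hz => ⟨ε, h, hz⟩, (hT ε h).1⟩
    · obtain ⟨δ, k, rfl⟩ := Finset.mem_image.1 h
      exact ⟨(hF.1 δ k).neg, by simpa using hL δ k, fun z hz => ⟨δ, k, by rwa [seg_neg] at hz⟩,
        (hT δ k).2⟩
  choose! P hP using fun ε hε => (hGa ε hε).2.2.2
  set U : Set X := {z | ∃ ε ∈ G, z ∈ Z.mv ε.1 '' tri (-ε.2) ε.2 (P ε)} with hU
  have hwall : ∀ z ∈ Z.walls F, ∃ δ : ℝ, 0 < δ ∧ ∀ a : P2, ‖a‖ < δ → Z.mv z a ∈ U := by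
    rintro z ⟨γ, hγ, hz⟩
    obtain ⟨δ, hδ, h⟩ := GU_wall (y := γ.1) (q := γ.2) (hF.1 γ hγ) (hP γ (hG1 γ hγ)).1
      (hP _ (hG2 γ hγ)).1 hz
    refine ⟨δ, hδ, fun a ha => ?_⟩
    rcases h a ha with h | h
    · exact ⟨γ, hG1 γ hγ, h⟩
    · exact ⟨_, hG2 γ hγ, h⟩
  have hopen : ∀ z ∈ U, ∃ δ : ℝ, 0 < δ ∧ ∀ a : P2, ‖a‖ < δ → Z.mv z a ∈ U := by
    rintro z ⟨ε, hε, hz⟩
    obtain ⟨h1, -, -, h4, h5⟩ := hP ε hε
    rcases GU_cases h1 h4 h5 hz with h | h | ⟨δ, hδ, h⟩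
    · exact hwall z ((hGa ε hε).2.2.1 h)
    · exact hwall z h
    · exact ⟨δ, hδ, fun a ha => ⟨ε, hε, h a ha⟩⟩
  have hclosed : ∀ z, Z.reg z → ∃ δ : ℝ, 0 < δ ∧ ∀ a : P2, ‖a‖ < δ → Z.mv z a ∈ U → z ∈ U := by
    intro z hz
    have h1 : ∀ᶠ a in 𝓝 (0 : P2), ∀ ε ∈ G, Z.mv z a ∈ Z.mv ε.1 '' tri (-ε.2) ε.2 (P ε) →
        z ∈ Z.mv ε.1 '' tri (-ε.2) ε.2 (P ε) := by
      refine (Filter.eventually_all_finset G).2 fun ε hε => ?_
      obtain ⟨-, -, h3, h4, -⟩ := hP ε hε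
      obtain ⟨δ, hδ, h⟩ := local_tri (y := ε.1) (q := ε.2) (hGa ε hε).1 h3 h4 hz
      exact Metric.eventually_nhds_iff.2 ⟨δ, hδ, fun a ha => (h a (by simpa using ha)).2⟩
    obtain ⟨δ, hδ, h⟩ := Metric.eventually_nhds_iff.1 h1
    refine ⟨δ, hδ, fun a ha => ?_⟩
    rintro ⟨ε, hε, h'⟩
    exact ⟨ε, hε, h (by simpa using ha) ε hε h'⟩
  obtain ⟨δ0, hδ0⟩ := hne
  have h0U : δ0.1 ∈ U := by
    obtain ⟨δ, hδ, h⟩ := hwall δ0.1 ⟨δ0, hδ0, mid_mem_seg δ0⟩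
    simpa [Z.mv_zero] using h 0 (by simpa using hδ)
  have hxU : x ∈ U := by
    refine loc_const (fun z hz => ?_) (reg_of_V (hF.1 δ0 hδ0).1) h0U hx
    by_cases hzU : z ∈ U
    · obtain ⟨δ, hδ, h⟩ := hopen z hzU
      exact ⟨δ, hδ, fun a ha _ => ⟨fun _ => h a ha, fun _ => hzU⟩⟩
    · obtain ⟨δ, hδ, h⟩ := hclosed z hz
      exact ⟨δ, hδ, fun a ha _ => ⟨fun h' => absurd h' hzU, h a ha⟩⟩
  obtain ⟨ε, hε, hxε⟩ := hxU
  obtain ⟨-, h2, -, h4, -⟩ := hP ε hε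
  exact GU_sees (y := ε.1) (q := ε.2) (hGa ε hε).1 h4 (hGa ε hε).2.1 h2 hxε

/-- `measure_sees_le`, `volume_closedBall_P2`, `ae_reg` -/
theorem one_le_of_tri {F : Finset (X × P2)} (hF : Z.Disj F) (hne : F.Nonempty) {L : ℝ}
    (hL : ∀ δ ∈ F, ‖δ.2‖ ≤ L) (hT : ∀ δ ∈ F, Z.Tri F L δ.1 δ.2 ∧ Z.Tri F L δ.1 (-δ.2)) :
    1 ≤ 64 * (Z.N : ℝ) * L ^ 2 := by
  obtain ⟨δ0, hδ0⟩ := id hne
  have hL0 : 0 ≤ L := (norm_nonneg _).trans (hL δ0 hδ0)
  have h1 := Z.measure_sees_le (B := Metric.closedBall 0 (4 * L)) measurableSet_closedBall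
  rw [volume_closedBall_P2 _ (by positivity)] at h1
  have h2 : Z.μ univ ≤ Z.μ {x | (Z.V x ∩ Metric.closedBall 0 (4 * L)).Nonempty} := by
    refine measure_mono_ae ?_
    filter_upwards [Z.ae_reg] with x hx _
    exact near_V_of_tri hF hne hL hT hx
  rw [measure_univ] at h2
  have h3 := h2.trans h1
  rw [← ENNReal.ofReal_natCast, ← ENNReal.ofReal_mul (by positivity), ENNReal.one_le_ofReal] at h3
  linarith

/-- if `64 N L² < 1` some side has no triangle; `attach` -/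
theorem exists_new {F : Finset (X × P2)} (hF : Z.Disj F) (hne : F.Nonempty) {L M : ℝ}
    (hL : ∀ δ ∈ F, ‖δ.2‖ ≤ L) (hs : 64 * (Z.N : ℝ) * L ^ 2 < 1)
    (hM : ∀ δ ∈ F, ∀ q, q = δ.2 ∨ q = -δ.2 → ∃ τ : ℝ, |τ| < 1 ∧
      ∃ w ∈ Z.V (Z.mv δ.1 (τ • q)), 0 < det2 q w ∧ ‖w‖ ≤ M) :
    ∃ γ, Z.SC γ ∧ ‖γ.2‖ ≤ M + 2 * L ∧ ∀ γ' ∈ F, Disjoint (Z.seg γ) (Z.seg γ') := by
  by_contra hc
  have key : ∀ δ ∈ F, ∀ q, q = δ.2 ∨ q = -δ.2 → Z.Tri F L δ.1 q := by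
    intro δ hδ q hq
    obtain ⟨τ, hτ, w, hw, hqw, hwM⟩ := hM δ hδ q hq
    have h1 : Z.SC (δ.1, q) ∧ ‖q‖ ≤ L := by
      rcases hq with rfl | rfl
      · exact ⟨hF.1 δ hδ, hL δ hδ⟩
      · exact ⟨(hF.1 δ hδ).neg, by simpa using hL δ hδ⟩
    exact (attach hF hL h1.1 h1.2 (hF.nc hδ hq) hτ hw hqw hwM).resolve_left hc
  have := one_le_of_tri hF hne hL fun δ hδ => ⟨key δ hδ _ (Or.inl rfl), key δ hδ _ (Or.inr rfl)⟩
  linarith

end Flat

end Pool.Agent.MP_b29402_an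

end
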