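import Pool.Agent.MP_b29402_an.Mg.GW
import Pool.Agent.MP_b29402_an.Mg.GU
import Pool.Agent.MP_b29402_an.Mg.Act

-- part MP_b29402_an.G1a
section

/-! Counting disjoint saddle connections: definitions and the two injections. -/

open MeasureTheory Set Filter Topology ProbabilityTheory
open scoped ComplexConjugate ENNReal

namespace Pool.Agent.MP_b29402_an

namespace Flat

variable {X : Type*} [MeasurableSpace X] {Z : Flat X}

/-- from a point of the segment the ray in direction `n` reaches a singular point before any wall -/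
def Cut (Z : Flat X) (F : Finset (X × P2)) (n : P2) (δ : X × P2) : Prop :=
  ∃ s h : ℝ, |s| < 1 ∧ 0 < h ∧ h • n ∈ Z.V (Z.mv δ.1 (s • δ.2)) ∧
    ∀ h' : ℝ, 0 < h' → h' < h → Z.mv (Z.mv δ.1 (s • δ.2)) (h' • n) ∉ Z.walls F

/-- the wall `γ` leaves the end point `-q` of `(y, q)` in the direction `q + l n` -/
def WallAt (Z : Flat X) (n : P2) (y : X) (q : P2) (γ : X × P2) (l : ℝ) : Prop :=
  0 < l ∧ det2 (q + l • n) γ.2 = 0 ∧ ∃ η : ℝ, 0 < η ∧ ∀ s : ℝ, 0 < s → s < η →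
    -q + s • (q + l • n) ∈ Z.D y ∧ Z.mv y (-q + s • (q + l • n)) ∈ Z.seg γ

theorem G1a_small {ι : Type*} (S : Finset ι) (f : ι → ℝ) (hf : ∀ i ∈ S, 0 < f i) :
    ∃ t : ℝ, 0 < t ∧ ∀ i ∈ S, t < f i := by
  classical
  induction S using Finset.induction_on with
  | empty => exact ⟨1, one_pos, by simp⟩
  | insert a S ha ih =>
    obtain ⟨t, ht, h⟩ := ih fun i hi => hf i (Finset.mem_insert_of_mem hi)
    have h0 := hf a (Finset.mem_insert_self a S)
    refine ⟨min t (f a / 2), lt_min ht (by linarith), fun i hi => ?_⟩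
    rcases Finset.mem_insert.1 hi with rfl | hi
    · exact (min_le_right _ _).trans_lt (by linarith)
    · exact (min_le_left _ _).trans_lt (h i hi)

theorem G1a_card {ι : Type*} (S : Finset ι) (φ : ι → X) (w : P2) (h1 : ∀ i ∈ S, w ∈ Z.V (φ i))
    (h2 : ∀ i ∈ S, ∀ j ∈ S, φ i = φ j → i = j) : S.card ≤ Z.N := by
  have h := (Set.encard_le_encard_of_injOn (s := (S : Set ι)) (t := {x | Vis (Z.D x) w}) (f := φ)
    (fun i hi => h1 i hi) fun i hi j hj hij => h2 i hi j hj hij).trans (Z.card w)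
  rw [Set.encard_coe_eq_coe_finsetCard] at h
  exact_mod_cast h

theorem G1a_back {z z' : X} {n : P2} {a a' : ℝ} (ha : 0 < a) (haa : a ≤ a')
    (hz : a • n ∈ Z.D z) (hz' : a' • n ∈ Z.D z') (he : Z.mv z (a • n) = Z.mv z' (a' • n)) :
    z = Z.mv z' ((a' - a) • n) := by
  have ha' : 0 < a' := ha.trans_le haa
  have h1 := (back hz).2
  have h2 := (seg_conv hz' (s := 1) (t := (a' - a) / a') zero_le_one le_rfl
    (div_nonneg (by linarith) ha'.le) ((div_le_one ha').2 (by linarith))).2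
  have e1 : ((a' - a) / a' - 1) • a' • n = -(a • n) := by
    rw [smul_smul, ← neg_smul]
    congr 1
    field_simp
    ring
  have e2 : ((a' - a) / a') • a' • n = (a' - a) • n := by
    rw [smul_smul, div_mul_cancel₀ _ ha'.ne']
  rw [one_smul, e1, e2, ← he, h1] at h2
  exact h2

theorem G1a_convex (w c : P2) :
    Convex ℝ {p : P2 | ∃ α γ : ℝ, 0 ≤ α ∧ 0 ≤ γ ∧ α + γ ≤ 1 ∧ α < 1 ∧ p = α • w + γ • c} := by
  rintro _ ⟨α, γ, h1, h2, h3, h4, rfl⟩ _ ⟨α', γ', h1', h2', h3', h4', rfl⟩ a b ha hb hab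
  refine ⟨a * α + b * α', a * γ + b * γ', by positivity, by positivity, by nlinarith,
    convex_Iio (1 : ℝ) h4 h4' ha hb hab, ?_⟩
  ext <;> simp <;> ring

open Classical in
/-- Choose `s δ, h δ`, `z δ = mv δ.1 (s δ • δ.2)` and `t > 0` below all `h δ`. The map
`δ ↦ mv (z δ) ((h δ - t) n)` goes into `{x | t n ∈ V x}` (`vc_ray`), which has at most `N` points (`card`), and
is injective: for equal images with `h δ ≤ h δ'`, `z δ = mv (z δ') ((h δ' - h δ) n)` (`back`, `seg_conv`); if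
`h δ < h δ'` this is a wall point, excluded by `Cut`; else `z δ = z δ'` and disjointness. -/
theorem card_cut_le {F : Finset (X × P2)} (hF : Z.Disj F) (n : P2) :
    (F.filter fun δ => Z.Cut F n δ).card ≤ Z.N := by
  have hch : ∀ δ : X × P2, ∃ s h : ℝ, Z.Cut F n δ → |s| < 1 ∧ 0 < h ∧
      h • n ∈ Z.V (Z.mv δ.1 (s • δ.2)) ∧
      ∀ h' : ℝ, 0 < h' → h' < h → Z.mv (Z.mv δ.1 (s • δ.2)) (h' • n) ∉ Z.walls F := by
    intro δ
    by_cases hδ : Z.Cut F n δ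
    · obtain ⟨s, h, H⟩ := hδ
      exact ⟨s, h, fun _ => H⟩
    · exact ⟨0, 0, fun h => absurd h hδ⟩
  choose s h H using hch
  obtain ⟨t, ht, hth⟩ := G1a_small (F.filter fun δ => Z.Cut F n δ) h
    fun δ hδ => (H δ (Finset.mem_filter.1 hδ).2).2.1
  have hD : ∀ δ ∈ F.filter fun δ => Z.Cut F n δ,
      (h δ - t) • n ∈ Z.D (Z.mv δ.1 (s δ • δ.2)) := by
    intro δ hδ
    obtain ⟨-, h0, hV, -⟩ := H δ (Finset.mem_filter.1 hδ).2
    have h1 := hth δ hδ
    have h2 := hV.2 ((h δ - t) / h δ) (div_nonneg (by linarith) h0.le)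
      ((div_lt_one h0).2 (by linarith))
    rwa [smul_smul, div_mul_cancel₀ _ h0.ne'] at h2
  have key : ∀ δ ∈ F.filter fun δ => Z.Cut F n δ, ∀ γ ∈ F.filter fun δ => Z.Cut F n δ,
      h δ ≤ h γ → Z.mv (Z.mv δ.1 (s δ • δ.2)) ((h δ - t) • n) =
        Z.mv (Z.mv γ.1 (s γ • γ.2)) ((h γ - t) • n) → δ = γ := by
    intro δ hδ γ hγ hle he
    have h1 := hth δ hδ
    have h2 := G1a_back (by linarith) (by linarith) (hD δ hδ) (hD γ hγ) he
    have hδF := (Finset.mem_filter.1 hδ).1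
    have hγF := (Finset.mem_filter.1 hγ).1
    obtain ⟨hs, -, -, -⟩ := H δ (Finset.mem_filter.1 hδ).2
    obtain ⟨hs', -, -, hw⟩ := H γ (Finset.mem_filter.1 hγ).2
    have hm : Z.mv δ.1 (s δ • δ.2) ∈ Z.seg δ := ⟨s δ, hs, rfl⟩
    rcases hle.eq_or_lt with heq | hlt
    · by_contra hne
      rw [heq, sub_self, zero_smul, Z.mv_zero] at h2
      exact Set.disjoint_left.1 (hF.2 δ hδF γ hγF hne) hm ⟨s γ, hs', h2⟩
    · exfalso
      refine hw (h γ - t - (h δ - t)) (by linarith) (by linarith) ⟨δ, hδF, ?_⟩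
      rw [← h2]
      exact hm
  refine G1a_card _ (fun δ => Z.mv (Z.mv δ.1 (s δ • δ.2)) ((h δ - t) • n)) (t • n)
    (fun δ hδ => ?_) fun δ hδ γ hγ he => ?_
  · obtain ⟨-, h0, hV, -⟩ := H δ (Finset.mem_filter.1 hδ).2
    have h1 := hth δ hδ
    have h2 := vc_ray hV (t := (h δ - t) / h δ) (div_nonneg (by linarith) h0.le)
      ((div_lt_one h0).2 (by linarith))
    have e1 : (1 - (h δ - t) / h δ) * h δ = t := by
      field_simp
      ring
    rwa [smul_smul, smul_smul, div_mul_cancel₀ _ h0.ne', e1] at h2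
  · rcases le_total (h δ) (h γ) with hle | hle
    · exact key δ hδ γ hγ hle he
    · exact (key γ hγ δ hδ hle he.symm).symm

/-- near the end point `-q`, on a small triangle, the chart at `y` is valid: `near_seg` (for `w = -q`),
`vfree` for the convex set `{α (-q) + γ (-q + t n) | α, γ ≥ 0, α + γ ≤ 1, α < 1}`, `vc_convex`. -/
theorem near_end {y : X} {q n : P2} (hq : Z.SC (y, q)) (hn : det2 q n ≠ 0) :
    ∃ η : ℝ, 0 < η ∧ ∀ t : ℝ, 0 < t → t < η →
      (∀ α γ : ℝ, 0 ≤ α → 0 ≤ γ → α + γ ≤ 1 → α < 1 → α • (-q) + γ • (-q + t • n) ∈ Z.D y) ∧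
      -(t • n) ∈ Z.V (Z.mv y (-q + t • n)) := by
  have hV : -q ∈ Z.V y := hq.2
  obtain ⟨δ, hδ, hns⟩ := near_seg hV
  have hn1 : 0 < ‖n‖ + 1 := by positivity
  refine ⟨δ / (‖n‖ + 1), by positivity, fun t ht htη => ?_⟩
  have htn : t * ‖n‖ < δ := by
    have := (lt_div_iff₀ hn1).1 htη
    nlinarith
  have h0 : (0 : P2) ∈ {p : P2 | ∃ α γ : ℝ, 0 ≤ α ∧ 0 ≤ γ ∧ α + γ ≤ 1 ∧ α < 1 ∧
      p = α • (-q) + γ • (-q + t • n)} := ⟨0, 0, le_rfl, le_rfl, by simp, by simp, by simp⟩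
  have hK := vfree (reg_of_V hV) (G1a_convex (-q) (-q + t • n)) h0 (by
    rintro _ ⟨α, γ, h1, h2, h3, h4, rfl⟩ hu
    have h5 := hns _ hu (α + γ) (by linarith) h3 (by
      have e : α • (-q) + γ • (-q + t • n) - (α + γ) • (-q) = (γ * t) • n := by
        ext <;> simp <;> ring
      rw [e, norm_smul, Real.norm_eq_abs, abs_of_nonneg (by positivity)]
      have h6 : 0 ≤ t * ‖n‖ := by positivity
      nlinarith)
    have h6 := congrArg Prod.fst h5
    have h7 := congrArg Prod.snd h5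
    simp only [Prod.fst_add, Prod.snd_add, Prod.smul_fst, Prod.smul_snd, Prod.fst_neg,
      Prod.snd_neg, smul_eq_mul] at h6 h7
    have h8 : γ * t * det2 q n = 0 := by
      unfold det2
      linear_combination q.1 * h7 - q.2 * h6
    have h9 : γ = 0 := by
      rcases mul_eq_zero.1 h8 with h | h
      · exact (mul_eq_zero.1 h).resolve_right ht.ne'
      · exact absurd h hn
    have h10 : (1 - α) * det2 q n = 0 := by
      unfold det2
      rw [h9] at h6 h7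
      linear_combination n.2 * h6 - n.1 * h7
    rcases mul_eq_zero.1 h10 with h | h
    · linarith
    · exact hn h)
  refine ⟨fun α γ h1 h2 h3 h4 => hK ⟨α, γ, h1, h2, h3, h4, rfl⟩, ?_⟩
  have h1 := vc_convex (c := -q + t • n) hV (G1a_convex (-q) (-q + t • n)) h0 hK
    fun τ h1 h2 => ⟨τ, 1 - τ, h1, by linarith, by linarith, h2, by ext <;> simp <;> ring⟩
  have e : -q - (-q + t • n) = -(t • n) := by abel
  rwa [e] at h1

theorem G1a_key {y y' : X} {q q' n : P2} {t a l : ℝ} (ht : 0 < t) (ha : 0 < a) (hl : 0 ≤ l)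
    (hq : q' = a • (q + l • n))
    (h : ∀ α γ : ℝ, 0 ≤ α → 0 ≤ γ → α + γ ≤ 1 → α < 1 → α • (-q) + γ • (-q + t • n) ∈ Z.D y)
    (h' : ∀ α γ : ℝ, 0 ≤ α → 0 ≤ γ → α + γ ≤ 1 → α < 1 → α • (-q') + γ • (-q' + t • n) ∈ Z.D y')
    (he : Z.mv y (-q + t • n) = Z.mv y' (-q' + t • n)) :
    ∃ η : ℝ, 0 < η ∧ η ≤ 1 ∧ ∀ s : ℝ, 0 < s → s < η →
      -q + s • (q + l • n) ∈ Z.D y ∧ Z.mv y (-q + s • (q + l • n)) ∈ Z.seg (y', q') := by
  have hlt : 0 ≤ l / t := div_nonneg hl ht.le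
  have h1 : 0 < 1 + l / t := by linarith
  refine ⟨min a (1 / (1 + l / t)), lt_min ha (by positivity),
    (min_le_right _ _).trans ((div_le_one h1).2 (by linarith)), fun s hs hsη => ?_⟩
  have hsa : s < a := hsη.trans_le (min_le_left _ _)
  have hs1 : s * (1 + l / t) < 1 := (lt_div_iff₀ h1).1 (hsη.trans_le (min_le_right _ _))
  have hsl : 0 ≤ s * (l / t) := by positivity
  have hp : -q + s • (q + l • n) ∈ {p : P2 | ∃ α γ : ℝ, 0 ≤ α ∧ 0 ≤ γ ∧ α + γ ≤ 1 ∧ α < 1 ∧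
      p = α • (-q) + γ • (-q + t • n)} := by
    refine ⟨1 - s * (1 + l / t), s * (l / t), by linarith, hsl, by nlinarith, by nlinarith, ?_⟩
    ext <;> simp <;> field_simp <;> ring
  have hsa' : s / a < 1 := (div_lt_one ha).2 hsa
  have hsa0 : 0 < s / a := div_pos hs ha
  have hp' : (s / a - 1) • q' ∈ {p : P2 | ∃ α γ : ℝ, 0 ≤ α ∧ 0 ≤ γ ∧ α + γ ≤ 1 ∧ α < 1 ∧
      p = α • (-q') + γ • (-q' + t • n)} :=
    ⟨1 - s / a, 0, by linarith, le_rfl, by linarith, by linarith, by ext <;> simp <;> ring⟩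
  have hK : {p : P2 | ∃ α γ : ℝ, 0 ≤ α ∧ 0 ≤ γ ∧ α + γ ≤ 1 ∧ α < 1 ∧
      p = α • (-q) + γ • (-q + t • n)} ⊆ Z.D y := by
    rintro _ ⟨α, γ, h1, h2, h3, h4, rfl⟩
    exact h α γ h1 h2 h3 h4
  have hK' : {p : P2 | ∃ α γ : ℝ, 0 ≤ α ∧ 0 ≤ γ ∧ α + γ ≤ 1 ∧ α < 1 ∧
      p = α • (-q') + γ • (-q' + t • n)} ⊆ Z.D y' := by
    rintro _ ⟨α, γ, h1, h2, h3, h4, rfl⟩
    exact h' α γ h1 h2 h3 h4
  have c1 := (Z.conv y _ (G1a_convex (-q) (-q + t • n))
    ⟨0, 0, le_rfl, le_rfl, by simp, by simp, by simp⟩ hK (-q + t • n)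
    ⟨0, 1, le_rfl, zero_le_one, by simp, by simp, by simp⟩ _ hp).2
  have c2 := (Z.conv y' _ (G1a_convex (-q') (-q' + t • n))
    ⟨0, 0, le_rfl, le_rfl, by simp, by simp, by simp⟩ hK' (-q' + t • n)
    ⟨0, 1, le_rfl, zero_le_one, by simp, by simp, by simp⟩ _ hp').2
  have e : -q + s • (q + l • n) - (-q + t • n) = (s / a - 1) • q' - (-q' + t • n) := by
    rw [hq]
    ext <;> simp <;> field_simp <;> ring
  refine ⟨hK hp, s / a - 1, abs_lt.2 ⟨by linarith, by linarith⟩, ?_⟩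
  rw [← c1, he, e, c2]

open Classical in
/-- Take `t > 0` small for all `δ ∈ F` (`near_end`). The map `δ ↦ x δ = mv δ.1 (-o δ + t n)` goes into
`{x | -(t n) ∈ V x}`. If `x δ = x δ' = x`, `δ ≠ δ'`, write `o δ' = m (o δ + l n)` with
`m = det2 (o δ') n / det2 (o δ) n > 0`; by symmetry `l ≥ 0`. For small `s > 0` the point
`-o δ + s (o δ + l n)` lies in the triangle of `near_end`, and `conv` at `δ.1` and at `δ'.1` (both based at `x`)
give `mv δ.1 (-o δ + s (o δ + l n)) = mv x (s (o δ + l n) - t n) = mv δ'.1 ((s / m - 1) o δ') ∈ seg δ'`.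
If `l = 0` the segments meet; if `l > 0` this is `WallAt n δ.1 (o δ) δ' l`. -/
theorem card_top_le {F : Finset (X × P2)} (hF : Z.Disj F) {n : P2} (o : X × P2 → P2) {e : ℝ}
    (ho : ∀ δ ∈ F, (o δ = δ.2 ∨ o δ = -δ.2) ∧ 0 < e * det2 (o δ) n) :
    (F.filter fun δ => ¬ ∃ γ ∈ F, ∃ l, Z.WallAt n δ.1 (o δ) γ l).card ≤ Z.N := by
  have hSC : ∀ δ ∈ F, Z.SC (δ.1, o δ) := by
    intro δ hδ
    rcases (ho δ hδ).1 with h | h <;> rw [h]
    · exact hF.1 δ hδ
    · exact (hF.1 δ hδ).neg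
  have hseg : ∀ δ ∈ F, Z.seg (δ.1, o δ) = Z.seg δ := by
    intro δ hδ
    rcases (ho δ hδ).1 with h | h <;> rw [h]
    exact seg_neg δ
  have hdet : ∀ δ ∈ F, det2 (o δ) n ≠ 0 := by
    intro δ hδ h
    have := (ho δ hδ).2
    rw [h, mul_zero] at this
    exact lt_irrefl _ this
  have hch : ∀ δ : X × P2, ∃ η : ℝ, δ ∈ F → 0 < η ∧ ∀ t : ℝ, 0 < t → t < η →
      (∀ α γ : ℝ, 0 ≤ α → 0 ≤ γ → α + γ ≤ 1 → α < 1 →
        α • (-o δ) + γ • (-o δ + t • n) ∈ Z.D δ.1) ∧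
      -(t • n) ∈ Z.V (Z.mv δ.1 (-o δ + t • n)) := by
    intro δ
    by_cases hδ : δ ∈ F
    · obtain ⟨η, H⟩ := near_end (hSC δ hδ) (hdet δ hδ)
      exact ⟨η, fun _ => H⟩
    · exact ⟨0, fun h => absurd h hδ⟩
  choose η H using hch
  obtain ⟨t, ht, hth⟩ := G1a_small F η fun δ hδ => (H δ hδ).1
  have key : ∀ δ ∈ F, ∀ γ ∈ F, δ ≠ γ → ∀ a l : ℝ, 0 < a → 0 ≤ l → o γ = a • (o δ + l • n) →
      Z.mv δ.1 (-o δ + t • n) = Z.mv γ.1 (-o γ + t • n) →
      ∃ γ ∈ F, ∃ l, Z.WallAt n δ.1 (o δ) γ l := by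
    intro δ hδ γ hγ hne a l ha hl hq he
    obtain ⟨ζ, hζ, hζ1, hs⟩ := G1a_key ht ha hl hq ((H δ hδ).2 t ht (hth δ hδ)).1
      ((H γ hγ).2 t ht (hth γ hγ)).1 he
    rw [hseg γ hγ] at hs
    rcases hl.eq_or_lt with rfl | hl'
    · exfalso
      have h1 := (hs (ζ / 2) (by linarith) (by linarith)).2
      refine Set.disjoint_left.1 (hF.2 δ hδ γ hγ hne) ?_ h1
      rw [← hseg δ hδ]
      refine ⟨ζ / 2 - 1, abs_lt.2 ⟨by linarith, by linarith⟩, ?_⟩
      congr 1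
      ext <;> simp <;> ring
    · refine ⟨γ, hγ, l, hl', ?_, ζ, hζ, hs⟩
      have h1 := det2_smul_self (o δ + l • n) a
      rw [← hq] at h1
      rcases (ho γ hγ).1 with h | h
      · rwa [h] at h1
      · rw [h] at h1
        unfold det2 at h1 ⊢
        simp only [Prod.fst_neg, Prod.snd_neg] at h1
        linarith
  refine G1a_card _ (fun δ => Z.mv δ.1 (-o δ + t • n)) (-(t • n))
    (fun δ hδ => ?_) fun δ hδ γ hγ he => ?_
  · have hδF := (Finset.mem_filter.1 hδ).1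
    exact ((H δ hδF).2 t ht (hth δ hδF)).2
  · obtain ⟨hδF, hδ'⟩ := Finset.mem_filter.1 hδ
    obtain ⟨hγF, hγ'⟩ := Finset.mem_filter.1 hγ
    by_contra hne
    obtain ⟨a, b, hab⟩ := exists_coords (hdet δ hδF) (o γ)
    have h1 : det2 (o γ) n = a * det2 (o δ) n := by
      rw [hab]
      unfold det2
      simp only [Prod.fst_add, Prod.snd_add, Prod.smul_fst, Prod.smul_snd, smul_eq_mul]
      ring
    have ha : 0 < a := by
      have h2 := (ho γ hγF).2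
      have h3 := (ho δ hδF).2
      rw [h1] at h2
      by_contra hcon
      nlinarith [not_lt.1 hcon]
    rcases le_total 0 b with hb | hb
    · refine hδ' (key δ hδF γ hγF hne a (b / a) ha (div_nonneg hb ha.le) ?_ he)
      rw [hab]
      ext <;> simp <;> field_simp
    · refine hγ' (key γ hγF δ hδF (Ne.symm hne) (1 / a) (-b) (by positivity) (by linarith) ?_
        he.symm)
      rw [hab]
      ext <;> simp <;> field_simp

end Flat

end Pool.Agent.MP_b29402_an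

end

-- part MP_b29402_an.G1b
section

/-! Counting disjoint saddle connections: at most `3 N`. -/

open MeasureTheory Set Filter Topology ProbabilityTheory
open scoped ComplexConjugate ENNReal

namespace Pool.Agent.MP_b29402_an

namespace Flat

variable {X : Type*} [MeasurableSpace X] {Z : Flat X}

theorem G1b_convex {C : Set (ℝ × ℝ)} (hC : Convex ℝ C) (s0 : ℝ) (q n : P2) :
    Convex ℝ {w : P2 | ∃ p ∈ C, w = (p.1 - s0) • q + p.2 • n} := by
  rintro _ ⟨p1, h1, rfl⟩ _ ⟨p2, h2, rfl⟩ a b ha hb hab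
  refine ⟨a • p1 + b • p2, hC h1 h2 ha hb hab, ?_⟩
  have hb' : b = 1 - a := by linarith
  subst hb'
  ext <;> simp <;> ring

theorem G1b_det_add (q n w : P2) (l : ℝ) : det2 (q + l • n) w = det2 q w + l * det2 n w := by
  simp [det2]; ring

theorem G1b_det_swap (a b : P2) : det2 a b = -det2 b a := by
  simp [det2]; ring

theorem G1b_det_self (a : P2) : det2 a a = 0 := by
  simp [det2]; ring

theorem G1b_det_smul (t : ℝ) (a b : P2) : det2 (t • a) b = t * det2 a b := by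
  simp [det2]; ring

theorem G1b_det_smul' (t : ℝ) (a b : P2) : det2 a (t • b) = t * det2 a b := by
  simp [det2]; ring

theorem G1b_det_neg (a b : P2) : det2 (-a) b = -det2 a b := by
  simp [det2]; ring

/-- wall propagation in coordinates -/
theorem G1b_prop {γ : X × P2} (hγ : Z.SC γ) {z : X} {q n : P2} {s0 : ℝ} {C : Set (ℝ × ℝ)}
    (hC : Convex ℝ C) (h0 : (s0, (0 : ℝ)) ∈ C) (hD : ∀ p ∈ C, (p.1 - s0) • q + p.2 • n ∈ Z.D z)
    {a m : ℝ} (ha : a ≠ 0) (hγ2 : γ.2 = a • (q + m • n)) {s h s' h' : ℝ} (h1 : (s, h) ∈ C)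
    (h2 : (s', h') ∈ C) (he : h' = h + m * (s' - s))
    (hin : Z.mv z ((s - s0) • q + h • n) ∈ Z.seg γ) :
    Z.mv z ((s' - s0) • q + h' • n) ∈ Z.seg γ := by
  have e : (s - s0) • q + h • n + ((s' - s) / a) • γ.2 = (s' - s0) • q + h' • n := by
    rw [hγ2, smul_smul, div_mul_cancel₀ _ ha, he]
    ext <;> simp <;> ring
  have := wall_prop hγ (G1b_convex hC s0 q n) ⟨_, h0, by simp⟩
    (by rintro _ ⟨p, hp, rfl⟩; exact hD p hp) (c := (s - s0) • q + h • n) (t := (s' - s) / a)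
    ⟨_, h1, rfl⟩ (by rw [e]; exact ⟨_, h2, rfl⟩) hin
  rwa [e] at this

/-- change of base point in coordinates -/
theorem G1b_conv {z : X} {q n : P2} {s0 : ℝ} {C : Set (ℝ × ℝ)}
    (hC : Convex ℝ C) (h0 : (s0, (0 : ℝ)) ∈ C) (hD : ∀ p ∈ C, (p.1 - s0) • q + p.2 • n ∈ Z.D z)
    {s h s' h' : ℝ} (h1 : (s, h) ∈ C) (h2 : (s', h') ∈ C) :
    (s' - s) • q + (h' - h) • n ∈ Z.D (Z.mv z ((s - s0) • q + h • n)) ∧
      Z.mv (Z.mv z ((s - s0) • q + h • n)) ((s' - s) • q + (h' - h) • n) =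
        Z.mv z ((s' - s0) • q + h' • n) := by
  have e : (s' - s0) • q + h' • n - ((s - s0) • q + h • n) = (s' - s) • q + (h' - h) • n := by
    ext <;> simp <;> ring
  have := Z.conv z _ (G1b_convex hC s0 q n) ⟨_, h0, by simp⟩
    (by rintro _ ⟨p, hp, rfl⟩; exact hD p hp) _ ⟨_, h1, rfl⟩ _ ⟨_, h2, rfl⟩
  simp only at this
  rwa [e] at this

/-- the bottom side -/
theorem G1b_bottom {y : X} {q : P2} (hq : Z.SC (y, q)) (n : P2) {s0 s : ℝ} (h0 : 0 < s0)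
    (h1 : s0 < 1) (hs0 : 0 < s) (hs2 : s < 2) :
    (s - s0) • q + (0 : ℝ) • n ∈ Z.D (Z.mv y ((s0 - 1) • q)) ∧
      Z.mv (Z.mv y ((s0 - 1) • q)) ((s - s0) • q + (0 : ℝ) • n) = Z.mv y ((s - 1) • q) := by
  have := hq.move (s := s0 - 1) (t := s - 1) (abs_lt.2 ⟨by linarith, by linarith⟩)
    (abs_lt.2 ⟨by linarith, by linarith⟩)
  have e : s - 1 - (s0 - 1) = s - s0 := by ring
  simp only [e] at this
  simpa using this

/-- change of base point near the end point `-q`: for `s0 > 0` small and `z0 = mv y ((s0 - 1) q)`, the part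
`0 < s ≤ s0`, `0 ≤ h ≤ l s` of the sector is seen from `y` and from `z0` in the same way. Let `δ` be from
`near_seg` (`w = -q`); `K0 = {-q + s q + h n | 0 < s ≤ 1, 0 ≤ h ≤ l s, h ≤ l s0}` is convex, contains `0`, is
within `l s0 ‖n‖ < δ` of the segment `[0, -q]` and misses `-q`, so `K0 ⊆ D y` (`vfree`); `conv`. -/
theorem base_change {y : X} {q n : P2} (hq : Z.SC (y, q)) (hn : det2 q n ≠ 0) {l : ℝ}
    (hl : 0 < l) :
    ∃ s0 : ℝ, 0 < s0 ∧ s0 < 1 ∧ ∀ s h : ℝ, 0 < s → s ≤ s0 → 0 ≤ h → h ≤ l * s →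
      -q + s • q + h • n ∈ Z.D y ∧ (s - s0) • q + h • n ∈ Z.D (Z.mv y ((s0 - 1) • q)) ∧
      Z.mv (Z.mv y ((s0 - 1) • q)) ((s - s0) • q + h • n) = Z.mv y (-q + s • q + h • n) := by
  obtain ⟨δ0, hδ0, hnear⟩ := near_seg hq.2
  have hpos : 0 < l * ‖n‖ + 1 := by positivity
  set s0 : ℝ := min (1 / 2) (δ0 / (l * ‖n‖ + 1)) with hs0
  have s0pos : 0 < s0 := lt_min (by norm_num) (by positivity)
  have s0lt : s0 < 1 := (min_le_left _ _).trans_lt (by norm_num)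
  have s0δ : s0 * (l * ‖n‖ + 1) ≤ δ0 := by
    rw [← le_div_iff₀ hpos]; exact min_le_right _ _
  set C : Set (ℝ × ℝ) := {p | 0 < p.1 ∧ p.1 ≤ 1 ∧ 0 ≤ p.2 ∧ p.2 ≤ l * s0} with hC
  have hCc : Convex ℝ C := by
    have : C = Ioc (0 : ℝ) 1 ×ˢ Icc 0 (l * s0) := by
      ext p; simp [hC, and_assoc]
    rw [this]
    exact (convex_Ioc _ _).prod (convex_Icc _ _)
  have h0 : ((1 : ℝ), (0 : ℝ)) ∈ C := ⟨one_pos, le_rfl, le_rfl, by positivity⟩
  have hD : ∀ p ∈ C, (p.1 - 1) • q + p.2 • n ∈ Z.D y := by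
    intro p hp
    refine vfree (reg_of_V hq.2) (G1b_convex hCc 1 q n) ⟨_, h0, by simp⟩ ?_ ⟨p, hp, rfl⟩
    rintro _ ⟨r, ⟨r1, r2, r3, r4⟩, rfl⟩ hV
    have e : (r.1 - 1) • q + r.2 • n - (1 - r.1) • (-q) = r.2 • n := by
      ext <;> simp <;> ring
    have h2 := hnear _ hV (1 - r.1) (by linarith) (by linarith) (by
      simp only
      rw [e, norm_smul, Real.norm_eq_abs, abs_of_nonneg r3]
      have : r.2 * ‖n‖ ≤ l * s0 * ‖n‖ := by gcongr
      nlinarith)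
    have h3 : (r.1 - 1) • q + r.2 • n = (-1 : ℝ) • q + (0 : ℝ) • n := by
      rw [h2]; simp
    have := (coords_unique hn h3).1
    linarith
  refine ⟨s0, s0pos, s0lt, fun s h hs hss hh hhl => ?_⟩
  have m1 : (s, h) ∈ C := ⟨hs, by linarith, hh, hhl.trans (by gcongr)⟩
  have m0 : (s0, (0 : ℝ)) ∈ C := ⟨s0pos, s0lt.le, le_rfl, by positivity⟩
  have e : (s - 1) • q + h • n = -q + s • q + h • n := by
    ext <;> simp <;> ring
  have h4 := G1b_conv hCc h0 hD m0 m1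
  have h5 := hD _ m1
  simp only [zero_smul, add_zero, sub_zero, e] at h4 h5
  exact ⟨h5, h4⟩

/-- no wall passes strictly between the segment and the lowest left wall -/
theorem G1b_free {F : Finset (X × P2)} (hF : Z.Disj F) {n : P2}
    (hn : ∀ γ ∈ F, det2 γ.2 n ≠ 0) {y : X} {q : P2} (hδ : (y, q) ∈ F) {γ1 : X × P2} (h1 : γ1 ∈ F)
    {l1 : ℝ} (hw : Z.WallAt n y q γ1 l1) (hmin : ∀ γ ∈ F, ∀ l, Z.WallAt n y q γ l → l1 ≤ l)
    {s0 : ℝ} (hs0 : 0 < s0) (hs1 : s0 < 1)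
    (hb : ∀ s h : ℝ, 0 < s → s ≤ s0 → 0 ≤ h → h ≤ l1 * s →
      -q + s • q + h • n ∈ Z.D y ∧ (s - s0) • q + h • n ∈ Z.D (Z.mv y ((s0 - 1) • q)) ∧
      Z.mv (Z.mv y ((s0 - 1) • q)) ((s - s0) • q + h • n) = Z.mv y (-q + s • q + h • n))
    {C : Set (ℝ × ℝ)} (hC : Convex ℝ C) (h0 : (s0, (0 : ℝ)) ∈ C)
    (hD : ∀ p ∈ C, (p.1 - s0) • q + p.2 • n ∈ Z.D (Z.mv y ((s0 - 1) • q)))
    {s h : ℝ} (hm : (s, h) ∈ C) (hs2 : s < 2)
    (hleft : ∀ s' h' : ℝ, 0 < s' → s' < s → 0 ≤ h' → h' ≤ l1 * s' → (s', h') ∈ C)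
    (hh0 : 0 < h) (hh1 : h < l1 * s) :
    Z.mv (Z.mv y ((s0 - 1) • q)) ((s - s0) • q + h • n) ∉ Z.walls F := by
  rintro ⟨γ, hγ, hin⟩
  have hq : Z.SC (y, q) := hF.1 _ hδ
  have hqn : det2 q n ≠ 0 := hn _ hδ
  obtain ⟨hl1, hd1, η, hη, hwall⟩ := hw
  have hs : 0 < s := by
    by_contra hc
    nlinarith
  obtain ⟨a, b, hab⟩ := exists_coords hqn γ.2
  have ha : a ≠ 0 := by
    rintro rfl
    apply hn γ hγ
    rw [hab, zero_smul, zero_add, G1b_det_smul, G1b_det_self, mul_zero]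
  set m : ℝ := b / a with hm'
  have hγ2 : γ.2 = a • (q + m • n) := by
    rw [hab, smul_add, smul_smul, hm', mul_div_cancel₀ _ ha]
  rcases lt_trichotomy (h - m * s) 0 with hc | hc | hc
  · have hmpos : 0 < m := by
      by_contra hc'
      nlinarith
    have e1 : m * (h / m) = h := mul_div_cancel₀ _ hmpos.ne'
    have p1 : 0 < h / m := by positivity
    have p2 : h / m < s := by rw [div_lt_iff₀ hmpos]; linarith
    have h2 : (s - h / m, (0 : ℝ)) ∈ C :=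
      hleft _ _ (by linarith) (by linarith) le_rfl (by nlinarith)
    have h3 := G1b_prop (hF.1 γ hγ) hC h0 hD ha hγ2 hm h2 (by linarith) hin
    rw [(G1b_bottom hq n hs0 hs1 (by linarith) (by linarith)).2] at h3
    have h4 : Z.mv y ((s - h / m - 1) • q) ∈ Z.seg (y, q) :=
      ⟨s - h / m - 1, abs_lt.2 ⟨by linarith, by linarith⟩, rfl⟩
    have h5 : γ = (y, q) := by
      by_contra hne
      exact Set.disjoint_left.1 (hF.2 γ hγ _ hδ hne) h3 h4
    have h6 : a • q + (a * m) • n = (1 : ℝ) • q + (0 : ℝ) • n := by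
      rw [← smul_smul, ← smul_add, ← hγ2, h5]; simp
    obtain ⟨h7, h8⟩ := coords_unique hqn h6
    rw [h7] at h8
    linarith
  · have hms : m * s = h := by linarith
    have hmpos : 0 < m := by
      by_contra hc'
      nlinarith
    have hml : m < l1 := by
      by_contra hc'
      nlinarith
    have : Z.WallAt n y q γ m := by
      refine ⟨hmpos, by rw [hγ2, G1b_det_smul', G1b_det_self, mul_zero], min s0 s,
        lt_min hs0 hs, fun s' k0 k1 => ?_⟩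
      have k2 : s' < s0 := k1.trans_le (min_le_left _ _)
      have k3 : s' < s := k1.trans_le (min_le_right _ _)
      have k4 : m * s' ≤ l1 * s' := by gcongr
      have k5 := hb s' (m * s') k0 k2.le (by positivity) k4
      have e : -q + s' • (q + m • n) = -q + s' • q + (m * s') • n := by
        rw [smul_add, smul_smul, mul_comm, add_assoc]
      rw [e]
      refine ⟨k5.1, ?_⟩
      rw [← k5.2.2]
      exact G1b_prop (hF.1 γ hγ) hC h0 hD ha hγ2 hm (hleft _ _ k0 k3 (by positivity) k4)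
        (by linarith) hin
    exact absurd (hmin γ hγ m this) (not_le.2 hml)
  · have hml : 0 < l1 - m := by
      by_contra hc'
      nlinarith
    set s1 : ℝ := (h - m * s) / (l1 - m) with hs1'
    have e1 : (l1 - m) * s1 = h - m * s := mul_div_cancel₀ _ hml.ne'
    have p1 : 0 < s1 := by positivity
    have p2 : s1 < s := by rw [hs1', div_lt_iff₀ hml]; linarith
    have h2 : (s1, l1 * s1) ∈ C := hleft _ _ p1 p2 (by positivity) le_rfl
    have h3 := G1b_prop (hF.1 γ hγ) hC h0 hD ha hγ2 hm h2 (by linarith) hin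
    have hne0 : q + l1 • n ≠ 0 := by
      intro h0'
      have := G1b_det_add q n n l1
      rw [h0', G1b_det_self] at this
      apply hqn
      simp only [det2, Prod.fst_zero, Prod.snd_zero, zero_mul, sub_zero, mul_zero, add_zero] at this
      simp only [det2]
      linarith
    obtain ⟨a1, ha1⟩ := det2_eq_zero hne0 hd1
    have ha10 : a1 ≠ 0 := by
      rintro rfl
      exact (hF.1 γ1 h1).ne_zero (by rw [ha1, zero_smul])
    set s2 : ℝ := min (min s0 s) η / 2 with hs2'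
    have q0 : 0 < min (min s0 s) η := lt_min (lt_min hs0 hs) hη
    have q1 : min (min s0 s) η ≤ s0 := (min_le_left _ _).trans (min_le_left _ _)
    have q2 : min (min s0 s) η ≤ s := (min_le_left _ _).trans (min_le_right _ _)
    have q3 : min (min s0 s) η ≤ η := min_le_right _ _
    have q4 : 0 < s2 := by positivity
    have k5 := hb s2 (l1 * s2) q4 (by linarith) (by positivity) le_rfl
    have k6 := (hwall s2 q4 (by linarith)).2
    have e : -q + s2 • (q + l1 • n) = -q + s2 • q + (l1 * s2) • n := by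
      rw [smul_add, smul_smul, mul_comm, add_assoc]
    rw [e, ← k5.2.2] at k6
    have h4 := G1b_prop (hF.1 γ1 h1) hC h0 hD ha10 ha1
      (hleft _ _ q4 (by linarith) (by positivity) le_rfl) h2 (by ring) k6
    have h5 : γ = γ1 := by
      by_contra hne
      exact Set.disjoint_left.1 (hF.2 γ hγ _ h1 hne) h3 h4
    have h6 : a • q + (a * m) • n = a1 • q + (a1 * l1) • n := by
      rw [← smul_smul, ← smul_add, ← hγ2, h5, ha1, smul_add, smul_smul]
    obtain ⟨h7, h8⟩ := coords_unique hqn h6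
    rw [h7] at h8
    have := mul_left_cancel₀ ha10 h8
    linarith

/-- there is a lowest left wall -/
theorem G1b_lowest {F : Finset (X × P2)} {n : P2} (hn : ∀ γ ∈ F, det2 γ.2 n ≠ 0) {y : X} {q : P2}
    (h1 : ∃ γ ∈ F, ∃ l, Z.WallAt n y q γ l) :
    ∃ γ1 ∈ F, ∃ l1, Z.WallAt n y q γ1 l1 ∧ ∀ γ ∈ F, ∀ l, Z.WallAt n y q γ l → l1 ≤ l := by
  classical
  have key : ∀ γ ∈ F, ∀ l, Z.WallAt n y q γ l → l = det2 q γ.2 / det2 γ.2 n := by
    intro γ hγ l hl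
    have h := hl.2.1
    rw [G1b_det_add, G1b_det_swap n] at h
    rw [eq_div_iff (hn γ hγ)]
    linarith
  obtain ⟨γ0, hγ0, l0, hl0⟩ := h1
  obtain ⟨γ1, hγ1, hmin⟩ := (F.filter fun γ => ∃ l, Z.WallAt n y q γ l).exists_min_image
    (fun γ => det2 q γ.2 / det2 γ.2 n) ⟨γ0, Finset.mem_filter.2 ⟨hγ0, l0, hl0⟩⟩
  obtain ⟨m1, l1, hl1⟩ := Finset.mem_filter.1 hγ1
  refine ⟨γ1, m1, l1, hl1, fun γ hγ l hl => ?_⟩
  rw [key γ1 m1 l1 hl1, key γ hγ l hl]
  exact hmin γ (Finset.mem_filter.2 ⟨hγ, l, hl⟩)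

theorem G1b_convex_R (l : ℝ) :
    Convex ℝ {p : ℝ × ℝ | 0 < p.1 ∧ p.1 < 2 ∧ 0 ≤ p.2 ∧ p.2 ≤ l * p.1} := by
  rw [convex_iff_forall_pos]
  rintro p ⟨p1, p2, p3, p4⟩ r ⟨r1, r2, r3, r4⟩ a b ha hb hab
  simp only [mem_ofPred_eq, Prod.fst_add, Prod.smul_fst, smul_eq_mul, Prod.snd_add, Prod.smul_snd]
  refine ⟨by positivity, by nlinarith, by positivity, by nlinarith⟩

theorem G1b_convex_C (l sp hp : ℝ) :
    Convex ℝ {p : ℝ × ℝ | 0 < p.1 ∧ p.1 ≤ sp ∧ 0 ≤ p.2 ∧ p.2 ≤ l * p.1 ∧ (p.1 = sp → p.2 < hp)} := by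
  rw [convex_iff_forall_pos]
  rintro p ⟨p1, p2, p3, p4, p5⟩ r ⟨r1, r2, r3, r4, r5⟩ a b ha hb hab
  simp only [mem_ofPred_eq, Prod.fst_add, Prod.smul_fst, smul_eq_mul, Prod.snd_add, Prod.smul_snd]
  refine ⟨by positivity, by nlinarith, by positivity, by nlinarith, fun he => ?_⟩
  have e : a * (sp - p.1) + b * (sp - r.1) = 0 := by
    have : a * (sp - p.1) + b * (sp - r.1) = (a + b) * sp - (a * p.1 + b * r.1) := by ring
    rw [this, hab, he]; ring
  have k1 : 0 ≤ a * (sp - p.1) := mul_nonneg ha.le (by linarith)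
  have k2 : 0 ≤ b * (sp - r.1) := mul_nonneg hb.le (by linarith)
  have k3 : a * (sp - p.1) = 0 := by linarith
  have k4 : b * (sp - r.1) = 0 := by linarith
  have k5 := p5 (by have := (mul_eq_zero.1 k3).resolve_left ha.ne'; linarith)
  have k6 := r5 (by have := (mul_eq_zero.1 k4).resolve_left hb.ne'; linarith)
  nlinarith

theorem G1b_finite (Z : Flat X) (z : X) {q n : P2} (hqn : det2 q n ≠ 0) {s0 l : ℝ} (h0 : 0 < s0)
    (h1 : s0 < 1) (hl : 0 < l) :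
    {p : ℝ × ℝ | (0 < p.1 ∧ p.1 < 2 ∧ 0 ≤ p.2 ∧ p.2 ≤ l * p.1) ∧
      (p.1 - s0) • q + p.2 • n ∈ Z.V z}.Finite := by
  have hfin := locfin Z z (2 * ‖q‖ + l * 2 * ‖n‖)
  have hinj : Function.Injective fun p : ℝ × ℝ => (p.1 - s0) • q + p.2 • n := by
    intro p r h
    obtain ⟨k1, k2⟩ := coords_unique hqn h
    exact Prod.ext (by linarith) k2
  refine (hfin.preimage hinj.injOn).subset ?_
  rintro p ⟨⟨p1, p2, p3, p4⟩, hV⟩
  refine ⟨hV, ?_⟩
  rw [mem_closedBall_zero_iff]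
  refine (norm_add_le _ _).trans ?_
  rw [norm_smul, norm_smul, Real.norm_eq_abs, Real.norm_eq_abs, abs_of_nonneg p3]
  have k1 : |p.1 - s0| ≤ 2 := abs_le.2 ⟨by linarith, by linarith⟩
  have k2 : p.2 ≤ l * 2 := p4.trans (by gcongr)
  gcongr

/-- `l` is determined by `γ` (`det2 q γ.2 + l det2 n γ.2 = 0`), so there is a lowest left wall `γ1` with slope
`l1`. Coordinates `(s, h)` for `(s - s0) q + h n` seen from `z0` (`base_change`),
`R = {0 < s < 2, 0 ≤ h ≤ l1 s}` (bounded, `locfin`).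
Case `V z0 ∩ R = ∅`: `K = R ⊆ D z0`; it contains `y` (`s = 1, h = 0`), so `conv` transports the right wall `γ3`,
through `(2 - t, l3 t)`; follow it (`wall_prop`) to the top side `h = l1 s`, which lies in `seg γ1`
(`wall_prop` from a point near the vertex); so `γ3 = γ1`, but `(-1, l3)` and `(1, l1)` are not parallel.
Other case: `p = (sp, hp) ∈ V z0 ∩ R` with minimal `s`, then minimal `h`; `sp > s0`, `hp > 0`,
`K = {s < sp} ∪ {s = sp, h < hp}` (inside `R`) is convex, `⊆ D z0`, `hp n ∈ V (mv y ((sp - 1) q))` by `vc_convex`. A wall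
`γ'` through `(sp, h)`, `0 < h < hp`, followed in the direction of decreasing `s`, hits `h = 0` (then `γ' = δ`,
so `h` is constant), or the top side (then `γ' = γ1`, so `l1 s - h` is constant), or both at `s = 0` (then
`WallAt` with slope `h / sp < l1`): contradiction. This gives `Cut`. -/
theorem cut_of_walls {F : Finset (X × P2)} (hF : Z.Disj F) {n : P2}
    (hn : ∀ γ ∈ F, det2 γ.2 n ≠ 0) {δ : X × P2} (hδ : δ ∈ F)
    (h1 : ∃ γ ∈ F, ∃ l, Z.WallAt n δ.1 δ.2 γ l) (h2 : ∃ γ ∈ F, ∃ l, Z.WallAt n δ.1 (-δ.2) γ l) :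
    Z.Cut F n δ := by
  obtain ⟨y, q⟩ := δ
  simp only at h1 h2
  have hq : Z.SC (y, q) := hF.1 _ hδ
  have hqn : det2 q n ≠ 0 := hn _ hδ
  obtain ⟨γ1, m1, l1, hw, hmin⟩ := G1b_lowest hn h1
  have hl1 : 0 < l1 := hw.1
  obtain ⟨s0, hs0, hs1, hb⟩ := base_change hq hqn hl1
  have hreg : Z.reg (Z.mv y ((s0 - 1) • q)) :=
    reg_mv (hq.mem_D (t := s0 - 1) (abs_lt.2 ⟨by linarith, by linarith⟩))
  have hfin := G1b_finite Z (Z.mv y ((s0 - 1) • q)) hqn hs0 hs1 hl1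
  set S := {p : ℝ × ℝ | (0 < p.1 ∧ p.1 < 2 ∧ 0 ≤ p.2 ∧ p.2 ≤ l1 * p.1) ∧
      (p.1 - s0) • q + p.2 • n ∈ Z.V (Z.mv y ((s0 - 1) • q))} with hS
  rcases S.eq_empty_or_nonempty with hE | hE
  · exfalso
    obtain ⟨γ3, m3, l3, hl3, -, η, hη, hwall⟩ := h2
    have hC := G1b_convex_R l1
    have h0 : (s0, (0 : ℝ)) ∈ {p : ℝ × ℝ | 0 < p.1 ∧ p.1 < 2 ∧ 0 ≤ p.2 ∧ p.2 ≤ l1 * p.1} :=
      ⟨hs0, by simp only; linarith, le_rfl, by positivity⟩
    have hD : ∀ p ∈ {p : ℝ × ℝ | 0 < p.1 ∧ p.1 < 2 ∧ 0 ≤ p.2 ∧ p.2 ≤ l1 * p.1},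
        (p.1 - s0) • q + p.2 • n ∈ Z.D (Z.mv y ((s0 - 1) • q)) := by
      intro p hp
      refine vfree hreg (G1b_convex hC s0 q n) ⟨_, h0, by simp⟩ ?_ ⟨p, hp, rfl⟩
      rintro _ ⟨r, hr, rfl⟩ hV
      have : r ∈ S := ⟨hr, hV⟩
      rw [hE] at this
      exact this
    set t : ℝ := min (min η 1) (l1 / l3) / 2 with ht
    have q0 : 0 < min (min η 1) (l1 / l3) := lt_min (lt_min hη one_pos) (by positivity)
    have q1 : min (min η 1) (l1 / l3) ≤ η := (min_le_left _ _).trans (min_le_left _ _)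
    have q2 : min (min η 1) (l1 / l3) ≤ 1 := (min_le_left _ _).trans (min_le_right _ _)
    have q3 : min (min η 1) (l1 / l3) ≤ l1 / l3 := min_le_right _ _
    have q4 : 0 < t := by positivity
    have q5 : t * l3 < l1 := by
      rw [← lt_div_iff₀ hl3]; linarith
    have q6 : l3 * t < l1 * (2 - t) := by nlinarith
    have m2 : (2 - t, l3 * t) ∈ {p : ℝ × ℝ | 0 < p.1 ∧ p.1 < 2 ∧ 0 ≤ p.2 ∧ p.2 ≤ l1 * p.1} :=
      ⟨by simp only; linarith, by simp only; linarith, by positivity, q6.le⟩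
    have m0 : ((1 : ℝ), (0 : ℝ)) ∈ {p : ℝ × ℝ | 0 < p.1 ∧ p.1 < 2 ∧ 0 ≤ p.2 ∧ p.2 ≤ l1 * p.1} :=
      ⟨one_pos, by norm_num, le_rfl, by positivity⟩
    have k1 := (G1b_conv hC h0 hD m0 m2).2
    rw [(G1b_bottom hq n hs0 hs1 one_pos (by norm_num)).2, sub_self, zero_smul, Z.mv_zero] at k1
    have k2 := (hwall t q4 (by linarith)).2
    have e : - -q + t • (-q + l3 • n) = (2 - t - 1) • q + (l3 * t - 0) • n := by
      ext <;> simp <;> ring
    rw [e, k1] at k2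
    exact G1b_free hF hn hδ m1 hw hmin hs0 hs1 hb hC h0 hD m2 (by linarith)
      (fun s' h' a1 a2 a3 a4 => ⟨a1, by simp only; linarith, a3, a4⟩) (by positivity) q6
      ⟨γ3, m3, k2⟩
  · obtain ⟨p0, hp0, hmin0⟩ := Set.exists_min_image S (fun p => p.1) hfin hE
    obtain ⟨p, ⟨hp, hpp⟩, hmin1⟩ := Set.exists_min_image (S ∩ {p | p.1 = p0.1}) (fun p => p.2)
      (hfin.subset inter_subset_left) ⟨p0, hp0, rfl⟩
    obtain ⟨sp, hp'⟩ := p
    obtain ⟨⟨p1, p2, p3, p4⟩, hV⟩ := hp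
    simp only [mem_ofPred_eq] at hpp p1 p2 p3 p4 hV
    have k1 : s0 < sp := by
      by_contra hc
      exact V_not_mem hV (hb sp hp' p1 (not_lt.1 hc) p3 p4).2.1
    have k2 : 0 < hp' := by
      refine lt_of_le_of_ne p3 fun hc => ?_
      rw [← hc] at hV
      exact V_not_mem hV (G1b_bottom hq n hs0 hs1 p1 p2).1
    have hC := G1b_convex_C l1 sp hp'
    set C := {p : ℝ × ℝ | 0 < p.1 ∧ p.1 ≤ sp ∧ 0 ≤ p.2 ∧ p.2 ≤ l1 * p.1 ∧ (p.1 = sp → p.2 < hp')}
      with hCdef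
    have h0 : (s0, (0 : ℝ)) ∈ C := ⟨hs0, k1.le, le_rfl, by positivity, fun _ => k2⟩
    have hD : ∀ p ∈ C, (p.1 - s0) • q + p.2 • n ∈ Z.D (Z.mv y ((s0 - 1) • q)) := by
      intro p hp
      refine vfree hreg (G1b_convex hC s0 q n) ⟨_, h0, by simp⟩ ?_ ⟨p, hp, rfl⟩
      rintro _ ⟨r, ⟨r1, r2, r3, r4, r5⟩, rfl⟩ hV'
      have hr : r ∈ S := ⟨⟨r1, by linarith, r3, r4⟩, hV'⟩
      have a1 := hmin0 r hr
      have a2 : r.1 = sp := by linarith
      have a3 := hmin1 r ⟨hr, by simp only [mem_ofPred_eq]; linarith⟩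
      have a4 := r5 a2
      simp only at a3
      linarith
    have mem : ∀ h' : ℝ, 0 ≤ h' → h' < hp' → (sp, h') ∈ C := fun h' a1 a2 =>
      ⟨p1, le_rfl, a1, by simp only; linarith, fun _ => a2⟩
    have hbot := (G1b_bottom hq n hs0 hs1 p1 p2).2
    refine ⟨sp - 1, hp', abs_lt.2 ⟨by linarith, by linarith⟩, k2, ?_, fun h' a1 a2 => ?_⟩
    · have := vc_convex hV (G1b_convex hC s0 q n) ⟨_, h0, by simp⟩
        (by rintro _ ⟨p, hp, rfl⟩; exact hD p hp) (c := (sp - s0) • q + (0 : ℝ) • n)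
        (fun t t0 t1 => ⟨(sp, t * hp'), mem _ (by positivity) (by nlinarith), by
          ext <;> simp <;> ring⟩)
      rw [hbot] at this
      simpa using this
    · have k3 := (G1b_conv hC h0 hD (mem 0 le_rfl k2) (mem h' a1.le a2)).2
      rw [hbot, sub_self, zero_smul, zero_add, sub_zero] at k3
      simp only
      rw [k3]
      exact G1b_free hF hn hδ m1 hw hmin hs0 hs1 hb hC h0 hD (mem h' a1.le a2) p2
        (fun s' h'' b1 b2 b3 b4 => ⟨b1, b2.le, b3, b4, fun b5 => absurd b5 b2.ne⟩) a1 (by linarith)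

/-- `exists_transverse`; orientations `o δ = ± δ.2` with `0 < det2 (o δ) n`, and `-o`; every `δ` is in one of
the three sets of `card_cut_le`, `card_top_le` (`e = 1`, `e = -1`). -/
theorem Disj.card_le {F : Finset (X × P2)} (hF : Z.Disj F) : F.card ≤ 3 * Z.N := by
  classical
  obtain ⟨n, hn'⟩ := exists_transverse (F.image Prod.snd) (by
    intro q hq
    obtain ⟨δ, hδ, rfl⟩ := Finset.mem_image.1 hq
    exact (hF.1 δ hδ).ne_zero)
  have hn : ∀ γ ∈ F, det2 γ.2 n ≠ 0 := fun γ hγ => hn' _ (Finset.mem_image_of_mem _ hγ)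
  set o : X × P2 → P2 := fun δ => if 0 < det2 δ.2 n then δ.2 else -δ.2 with ho
  have ho1 : ∀ δ ∈ F, (o δ = δ.2 ∨ o δ = -δ.2) ∧ 0 < 1 * det2 (o δ) n := by
    intro δ hδ
    by_cases h : 0 < det2 δ.2 n
    · simp [ho, h]
    · have := lt_of_le_of_ne (not_lt.1 h) (hn δ hδ)
      simp [ho, h, G1b_det_neg, this]
  have ho2 : ∀ δ ∈ F, (-o δ = δ.2 ∨ -o δ = -δ.2) ∧ 0 < (-1) * det2 (-o δ) n := by
    intro δ hδ
    obtain ⟨h1, h2⟩ := ho1 δ hδ
    refine ⟨?_, by rw [G1b_det_neg]; linarith⟩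
    rcases h1 with h1 | h1
    · exact Or.inr (by rw [h1])
    · exact Or.inl (by rw [h1, neg_neg])
  have c1 := card_cut_le hF n
  have c2 := card_top_le hF o ho1
  have c3 := card_top_le hF (fun δ => -o δ) ho2
  have hsub : F ⊆ (F.filter fun δ => Z.Cut F n δ) ∪
      ((F.filter fun δ => ¬ ∃ γ ∈ F, ∃ l, Z.WallAt n δ.1 (o δ) γ l) ∪
        (F.filter fun δ => ¬ ∃ γ ∈ F, ∃ l, Z.WallAt n δ.1 (-o δ) γ l)) := by
    intro δ hδ
    simp only [Finset.mem_union, Finset.mem_filter]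
    by_cases a1 : ∃ γ ∈ F, ∃ l, Z.WallAt n δ.1 (o δ) γ l
    · by_cases a2 : ∃ γ ∈ F, ∃ l, Z.WallAt n δ.1 (-o δ) γ l
      · refine Or.inl ⟨hδ, ?_⟩
        rcases (ho1 δ hδ).1 with h | h
        · rw [h] at a1 a2
          exact cut_of_walls hF hn hδ a1 a2
        · rw [h] at a1 a2
          rw [neg_neg] at a2
          exact cut_of_walls hF hn hδ a2 a1
      · exact Or.inr (Or.inr ⟨hδ, a2⟩)
    · exact Or.inr (Or.inl ⟨hδ, a1⟩)
  have c4 := Finset.card_le_card hsub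
  have c5 := (Finset.card_union_le _ _).trans' c4
  have c6 := Finset.card_union_le
    (F.filter fun δ => ¬ ∃ γ ∈ F, ∃ l, Z.WallAt n δ.1 (o δ) γ l)
    (F.filter fun δ => ¬ ∃ γ ∈ F, ∃ l, Z.WallAt n δ.1 (-o δ) γ l)
  omega

end Flat

end Pool.Agent.MP_b29402_an

end

-- part MP_b29402_an.G2
section

/-! A short saddle connection which is crossed by no comparably short one; marking. -/

open MeasureTheory Set Filter Topology ProbabilityTheory
open scoped ComplexConjugate ENNReal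

namespace Pool.Agent.MP_b29402_an

namespace Flat

variable {X : Type*} [MeasurableSpace X] {Z : Flat X}

/-- at the common point `z = mv δ.1 (τ q) = mv γ.1 (τ' γ.2)` the two ends of `γ` (`SC.ends`) are visible, on
opposite sides, of norm `≤ 2 ‖γ.2‖` -/
theorem Cross.sides {δ γ : X × P2} (hγ : Z.SC γ) (h : Z.Cross δ γ) {q : P2}
    (hq : q = δ.2 ∨ q = -δ.2) :
    ∃ τ : ℝ, |τ| < 1 ∧ ∃ w ∈ Z.V (Z.mv δ.1 (τ • q)), 0 < det2 q w ∧ ‖w‖ ≤ 2 * ‖γ.2‖ := by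
  obtain ⟨⟨z, ⟨t, ht, hz⟩, ⟨t', ht', hz'⟩⟩, hd⟩ := h
  have he := hγ.ends ht'
  rw [← hz', hz] at he
  obtain ⟨τ, hτ, hτe⟩ : ∃ τ : ℝ, |τ| < 1 ∧ τ • q = t • δ.2 := by
    rcases hq with rfl | rfl
    · exact ⟨t, ht, rfl⟩
    · exact ⟨-t, by rwa [abs_neg], by simp⟩
  have hdq : det2 q γ.2 ≠ 0 := by
    rcases hq with rfl | rfl
    · exact hd
    · intro h0
      apply hd
      simp only [det2, Prod.fst_neg, Prod.snd_neg] at h0 ⊢
      linarith
  have hsm : ∀ c : ℝ, det2 q (c • γ.2) = c * det2 q γ.2 := by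
    intro c
    simp only [det2, Prod.smul_fst, Prod.smul_snd, smul_eq_mul]
    ring
  obtain ⟨h1, h2⟩ := abs_lt.1 ht'
  refine ⟨τ, hτ, ?_⟩
  rw [hτe]
  rcases lt_or_gt_of_ne hdq with hlt | hgt
  · refine ⟨_, he.2, ?_, ?_⟩
    · rw [hsm]
      nlinarith
    · rw [norm_smul, Real.norm_eq_abs]
      have : |-1 - t'| ≤ 2 := abs_le.2 ⟨by linarith, by linarith⟩
      exact mul_le_mul_of_nonneg_right this (norm_nonneg _)
  · refine ⟨_, he.1, ?_, ?_⟩
    · rw [hsm]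
      nlinarith
    · rw [norm_smul, Real.norm_eq_abs]
      have : |1 - t'| ≤ 2 := abs_le.2 ⟨by linarith, by linarith⟩
      exact mul_le_mul_of_nonneg_right this (norm_nonneg _)

/-- Suppose not. By induction on `k ≤ 3 N` there is a disjoint family of `k + 1` saddle connections of
length `≤ b k = (4 Λ) ^ k L`: every member is crossed by some `γ` with `‖γ.2‖ ≤ Λ b k`, so `exists_new` with
`M = 2 Λ b k` gives a new one of length `≤ (2 Λ + 2) b k ≤ b (k + 1)` (`Disj.insert`). For `k = 3 N` this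
contradicts `Disj.card_le`. -/
theorem exists_uncrossed {Λ L : ℝ} (hΛ : 1 ≤ Λ) (hL : 0 < L)
    (hs : 64 * (Z.N : ℝ) * ((4 * Λ) ^ (3 * Z.N) * L) ^ 2 < 1) (h : ∃ δ, Z.SC δ ∧ ‖δ.2‖ ≤ L) :
    ∃ k ≤ 3 * Z.N, ∃ δ, Z.SC δ ∧ ‖δ.2‖ ≤ (4 * Λ) ^ k * L ∧
      ∀ γ, Z.SC γ → ‖γ.2‖ ≤ Λ * ((4 * Λ) ^ k * L) → ¬ Z.Cross δ γ := by
  classical
  by_contra hcon
  have hcr : ∀ k ≤ 3 * Z.N, ∀ δ, Z.SC δ → ‖δ.2‖ ≤ (4 * Λ) ^ k * L →
      ∃ γ, Z.SC γ ∧ ‖γ.2‖ ≤ Λ * ((4 * Λ) ^ k * L) ∧ Z.Cross δ γ := by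
    intro k hk δ hδ hn
    by_contra h2
    exact hcon ⟨k, hk, δ, hδ, hn, fun γ hγ hl hc => h2 ⟨γ, hγ, hl, hc⟩⟩
  have h4 : (1 : ℝ) ≤ 4 * Λ := by linarith
  have key : ∀ k ≤ 3 * Z.N, ∃ F : Finset (X × P2), Z.Disj F ∧ F.card = k + 1 ∧
      ∀ δ ∈ F, ‖δ.2‖ ≤ (4 * Λ) ^ k * L := by
    intro k
    induction k with
    | zero =>
      intro _
      obtain ⟨δ, hδ, hn⟩ := h
      refine ⟨{δ}, ⟨?_, ?_⟩, by simp, ?_⟩
      · intro γ hγ
        rw [Finset.mem_singleton.1 hγ]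
        exact hδ
      · intro a ha b hb hab
        rw [Finset.mem_singleton.1 ha, Finset.mem_singleton.1 hb] at hab
        exact absurd rfl hab
      · intro γ hγ
        rw [Finset.mem_singleton.1 hγ]
        simpa using hn
    | succ k ih =>
      intro hk
      obtain ⟨F, hF, hc, hn⟩ := ih (by omega)
      have hb0 : 0 < (4 * Λ) ^ k * L := by positivity
      have hbk : (4 * Λ) ^ k * L ≤ (4 * Λ) ^ (3 * Z.N) * L :=
        mul_le_mul_of_nonneg_right (pow_le_pow_right₀ h4 (by omega)) hL.le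
      have hs' : 64 * (Z.N : ℝ) * ((4 * Λ) ^ k * L) ^ 2 < 1 := by
        refine lt_of_le_of_lt ?_ hs
        have : ((4 * Λ) ^ k * L) ^ 2 ≤ ((4 * Λ) ^ (3 * Z.N) * L) ^ 2 :=
          pow_le_pow_left₀ hb0.le hbk 2
        exact mul_le_mul_of_nonneg_left this (by positivity)
      have hne : F.Nonempty := Finset.card_pos.1 (by omega)
      obtain ⟨γ, hγ, hγn, hdis⟩ := exists_new (M := 2 * (Λ * ((4 * Λ) ^ k * L))) hF hne hn hs' (by
        intro δ hδ q hq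
        obtain ⟨γ, hγ, hl, hcross⟩ := hcr k (by omega) δ (hF.1 δ hδ) (hn δ hδ)
        obtain ⟨τ, hτ, w, hw, hd, hwn⟩ := Cross.sides hγ hcross hq
        exact ⟨τ, hτ, w, hw, hd, by linarith⟩)
      have hstep : (4 * Λ) ^ (k + 1) * L = 4 * Λ * ((4 * Λ) ^ k * L) := by ring
      have hΛb : (4 * Λ) ^ k * L ≤ Λ * ((4 * Λ) ^ k * L) := le_mul_of_one_le_left hb0.le hΛ
      obtain ⟨hF', hc'⟩ := hF.insert hγ hdis
      refine ⟨_, hF', by rw [hc', hc], ?_⟩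
      intro δ hδ
      rw [hstep]
      rcases Finset.mem_insert.1 hδ with rfl | hδ
      · linarith
      · have := hn δ hδ
        linarith
  obtain ⟨F, hF, hc, -⟩ := key (3 * Z.N) le_rfl
  have := hF.card_le
  omega

/-- `δ` is short at slope `u` and is crossed by no comparably short saddle connection -/
def Mark (Z : Flat X) (T u Λ b : ℝ) (δ : X × P2) : Prop :=
  Z.SC δ ∧ slen T u δ.2 ≤ b ∧ ∀ γ, Z.SC γ → slen T u γ.2 ≤ Λ * b → ¬ Z.Cross δ γ

/-- `exists_uncrossed` for `Z.act (shr T u hT) (sl_mp ..)` (`norm_shr_symm`, `act_SC'`, `act_cross`); replace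
`δ` by its negative if `δ.2.2 < 0` (`seg_neg`). -/
theorem exists_mark {Λ L T u : ℝ} (hΛ : 1 ≤ Λ) (hL : 0 < L) (hT : 0 < T)
    (hs : 64 * (Z.N : ℝ) * ((4 * Λ) ^ (3 * Z.N) * L) ^ 2 < 1)
    (h : ∃ δ, Z.SC δ ∧ slen T u δ.2 ≤ L) :
    ∃ k ≤ 3 * Z.N, ∃ δ, 0 ≤ δ.2.2 ∧ Z.Mark T u Λ ((4 * Λ) ^ k * L) δ := by
  have hA : MeasurePreserving (shr T u hT) volume volume := sl_mp _ _ _ _ _
  obtain ⟨δ0, hδ0, hl0⟩ := h
  obtain ⟨k, hk, δ, hδ, hn, hun⟩ := exists_uncrossed (Z := Z.act (shr T u hT) hA) hΛ hL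
    (by rw [act_N]; exact hs) ⟨(δ0.1, (shr T u hT).symm δ0.2), (act_SC' δ0).2 hδ0, by
      rw [norm_shr_symm]; exact hl0⟩
  rw [act_N] at hk
  have hm : Z.Mark T u Λ ((4 * Λ) ^ k * L) (δ.1, shr T u hT δ.2) := by
    refine ⟨(act_SC δ).1 hδ, ?_, ?_⟩
    · rw [← norm_shr_symm u hT]
      simpa using hn
    · intro γ hγ hl hc
      refine hun (γ.1, (shr T u hT).symm γ.2) ((act_SC' γ).2 hγ) (by
        rw [norm_shr_symm]; exact hl) ?_
      rw [act_cross]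
      simpa using hc
  have hneg : ∀ (b : ℝ) (ε : X × P2), Z.Mark T u Λ b ε → Z.Mark T u Λ b (ε.1, -ε.2) := by
    intro b ε hε
    refine ⟨hε.1.neg, ?_, ?_⟩
    · have h2 := hε.2.1
      have : slen T u (-ε.2) = slen T u ε.2 := by
        rw [← norm_shr_symm u hT, ← norm_shr_symm u hT, map_neg, norm_neg]
      exact this ▸ h2
    · intro γ hγ hl hc
      refine hε.2.2 γ hγ hl ⟨?_, ?_⟩
      · have := hc.1
        rwa [seg_neg] at this
      · intro h0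
        apply hc.2
        simp only [det2, Prod.fst_neg, Prod.snd_neg] at h0 ⊢
        linarith
  refine ⟨k, hk, ?_⟩
  rcases le_total 0 (shr T u hT δ.2).2 with h0 | h0
  · exact ⟨_, h0, hm⟩
  · refine ⟨_, ?_, hneg _ _ hm⟩
    simpa using h0

end Flat

end Pool.Agent.MP_b29402_an

end
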