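import Pool.Agent.MP_b29402_an.Mg.GU
import Pool.Agent.MP_b29402_an.Mg.G2
import Pool.Agent.MP_b29402_an.Mg.Act
import Pool.Agent.MP_b29402_an.Mg.DkB

-- part MP_b29402_an.CL0
section

/-! A large empty box at bounded distance in the orbit of the linear group. -/

open MeasureTheory Set Filter Topology ProbabilityTheory
open scoped ComplexConjugate ENNReal

namespace Pool.Agent.MP_b29402_an

namespace Flat

variable {X : Type*} [MeasurableSpace X] {Z : Flat X}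

/-- `L` and its inverse have norm at most `R` -/
def Bdd (L : P2 ≃L[ℝ] P2) (R : ℝ) : Prop := ∀ v, ‖L v‖ ≤ R * ‖v‖ ∧ ‖L.symm v‖ ≤ R * ‖v‖

/-- no empty box of radius 2 -/
def NoBox (Z : Flat X) : Prop := ∀ x, ¬ Metric.ball (0 : P2) 2 ⊆ Z.D x

theorem CL0_det_add (q a b : P2) : det2 q (a + b) = det2 q a + det2 q b := by
  simp only [det2, Prod.fst_add, Prod.snd_add]; ring

theorem CL0_det_smul (q a : P2) (t : ℝ) : det2 q (t • a) = t * det2 q a := by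
  simp only [det2, Prod.smul_fst, Prod.smul_snd, smul_eq_mul]; ring

theorem CL0_det_abs (q a : P2) : |det2 q a| ≤ 2 * ‖q‖ * ‖a‖ := by
  have h1 : |q.1| ≤ ‖q‖ := by simpa using norm_fst_le q
  have h2 : |q.2| ≤ ‖q‖ := by simpa using norm_snd_le q
  have h3 : |a.1| ≤ ‖a‖ := by simpa using norm_fst_le a
  have h4 : |a.2| ≤ ‖a‖ := by simpa using norm_snd_le a
  have h5 : |q.1 * a.2| ≤ ‖q‖ * ‖a‖ := by
    rw [abs_mul]; exact mul_le_mul h1 h4 (abs_nonneg _) (norm_nonneg _)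
  have h6 : |q.2 * a.1| ≤ ‖q‖ * ‖a‖ := by
    rw [abs_mul]; exact mul_le_mul h2 h3 (abs_nonneg _) (norm_nonneg _)
  have h7 := abs_sub (q.1 * a.2) (q.2 * a.1)
  unfold det2
  linarith

theorem CL0_norm_rot (q : P2) : ‖((-q.2, q.1) : P2)‖ = ‖q‖ := by
  rw [Prod.norm_def, Prod.norm_def]
  simp only [norm_neg]
  exact max_comm _ _

theorem CL0_det_rot (q : P2) : ‖q‖ ^ 2 ≤ det2 q (-q.2, q.1) := by
  have h : det2 q (-q.2, q.1) = q.1 ^ 2 + q.2 ^ 2 := by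
    simp only [det2]; ring
  rw [h, Prod.norm_def]
  simp only [Real.norm_eq_abs]
  rcases le_total |q.1| |q.2| with h1 | h1
  · rw [max_eq_right h1, sq_abs]; nlinarith [sq_nonneg q.1]
  · rw [max_eq_left h1, sq_abs]; nlinarith [sq_nonneg q.2]

theorem CL0_convex (q : P2) :
    Convex ℝ {v : P2 | ‖v‖ < 7 ∧ (v = 0 ∨ 0 < det2 q v)} := by
  intro x hx y hy a b ha hb hab
  refine ⟨?_, ?_⟩
  · have := (convex_ball (0 : P2) 7) (x := x) (by simpa using hx.1) (y := y)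
      (by simpa using hy.1) ha hb hab
    simpa using this
  · have hd : det2 q (a • x + b • y) = a * det2 q x + b * det2 q y := by
      rw [CL0_det_add, CL0_det_smul, CL0_det_smul]
    have h0 : det2 q (0 : P2) = 0 := by simp [det2]
    rcases hx.2 with hx0 | hx0
    · rcases hy.2 with hy0 | hy0
      · left; simp [hx0, hy0]
      · rcases hb.eq_or_lt with hb0 | hb0
        · left; simp [hx0, ← hb0]
        · right; rw [hd, hx0, h0]; nlinarith [mul_pos hb0 hy0]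
    · rcases hy.2 with hy0 | hy0
      · rcases ha.eq_or_lt with ha0 | ha0
        · left; simp [hy0, ← ha0]
        · right; rw [hd, hy0, h0]; nlinarith [mul_pos ha0 hx0]
      · right; rw [hd]
        rcases ha.eq_or_lt with ha0 | ha0
        · have : b = 1 := by linarith
          rw [← ha0, this]; linarith
        · nlinarith [mul_pos ha0 hx0, mul_nonneg hb hy0.le]

/-- Let `c = (5 / ‖q‖) • (-q.2, q.1)`: `‖c‖ = 5` and
`0 < det2 q (c + a)` for all `‖a‖ < 2` (`|det2 q a| ≤ 2 ‖q‖ ‖a‖`, `det2 q c ≥ 5 ‖q‖`). If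
`K = {0} ∪ {v | 0 < det2 q v ∧ ‖v‖ < 7}` (convex) had no visible point then `K ⊆ D z` (`vfree`) and
`ball 0 2 ⊆ D (mv z c)` (`shift_subset`). -/
theorem NoBox.exists_side (h : Z.NoBox) {z : X} (hz : Z.reg z) {q : P2} (hq : q ≠ 0) :
    ∃ w ∈ Z.V z, 0 < det2 q w ∧ ‖w‖ ≤ 7 := by
  by_contra hcon
  have hq0 : 0 < ‖q‖ := norm_pos_iff.2 hq
  have h0 : (0 : P2) ∈ {v : P2 | ‖v‖ < 7 ∧ (v = 0 ∨ 0 < det2 q v)} := ⟨by simp, Or.inl rfl⟩
  have hD : {v : P2 | ‖v‖ < 7 ∧ (v = 0 ∨ 0 < det2 q v)} ⊆ Z.D z := by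
    refine vfree hz (CL0_convex q) h0 ?_
    intro w hw hV
    rcases hw.2 with h1 | h1
    · exact V_ne_zero hV h1
    · exact hcon ⟨w, hV, h1, hw.1.le⟩
  set c : P2 := (5 / ‖q‖) • ((-q.2, q.1) : P2) with hc
  have hcn : ‖c‖ = 5 := by
    rw [hc, norm_smul, CL0_norm_rot, Real.norm_eq_abs, abs_of_pos (by positivity)]
    field_simp
  have hcd : 5 * ‖q‖ ≤ det2 q c := by
    rw [hc, CL0_det_smul]
    have h1 := CL0_det_rot q
    have h2 : 5 / ‖q‖ * ‖q‖ ^ 2 = 5 * ‖q‖ := by field_simp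
    rw [← h2]
    exact mul_le_mul_of_nonneg_left h1 (by positivity)
  have key : ∀ a : P2, ‖a‖ < 2 →
      c + a ∈ {v : P2 | ‖v‖ < 7 ∧ (v = 0 ∨ 0 < det2 q v)} := by
    intro a ha
    refine ⟨?_, Or.inr ?_⟩
    · have := norm_add_le c a
      linarith
    · rw [CL0_det_add]
      have h1 := CL0_det_abs q a
      have h2 := neg_abs_le (det2 q a)
      have h3 : 2 * ‖q‖ * ‖a‖ ≤ 2 * ‖q‖ * 2 :=
        mul_le_mul_of_nonneg_left ha.le (by positivity)
      linarith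
  have hcK : c ∈ {v : P2 | ‖v‖ < 7 ∧ (v = 0 ∨ 0 < det2 q v)} := by
    simpa using key 0 (by simp)
  refine h (Z.mv z c) ?_
  intro a ha
  exact shift_subset (CL0_convex q) h0 hD hcK (key a (by simpa using ha))

/-- two visible points on opposite sides of a line, `sc_of_two` in the closed ball of radius 7 -/
theorem NoBox.exists_sc (h : Z.NoBox) : ∃ δ, Z.SC δ ∧ ‖δ.2‖ ≤ 7 := by
  obtain ⟨z, w, hw⟩ := Z.exV
  have hz : Z.reg z := reg_of_V (w := w) hw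
  have hq : ((1, 0) : P2) ≠ 0 := by simp
  have hq' : ((-1, 0) : P2) ≠ 0 := by simp
  obtain ⟨w1, h1, d1, n1⟩ := h.exists_side hz hq
  obtain ⟨w2, h2, d2, n2⟩ := h.exists_side hz hq'
  have hne : w1 ≠ w2 := by
    rintro rfl
    simp only [det2] at d1 d2
    linarith
  obtain ⟨δ, hδ, a, ha, b, hb, he⟩ := sc_of_two (convex_closedBall (0 : P2) 7)
    (Metric.mem_closedBall_self (by norm_num)) h1 h2 (by simpa using n1) (by simpa using n2) hne
  refine ⟨δ, hδ, ?_⟩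
  have ha' : ‖a‖ ≤ 7 := by simpa using ha
  have hb' : ‖b‖ ≤ 7 := by simpa using hb
  rw [he, norm_smul]
  have := norm_sub_le b a
  have h12 : ‖(1 / 2 : ℝ)‖ = 1 / 2 := by norm_num
  rw [h12]
  linarith

/-- a new saddle connection of length at most nine -/
theorem CL0_new (h : Z.NoBox) {F : Finset (X × P2)} (hF : Z.Disj F) {l : ℝ} (hl1 : l ≤ 1)
    (hL : ∀ δ ∈ F, ‖δ.2‖ ≤ l) (hs : 64 * (Z.N : ℝ) * l ^ 2 < 1) :
    ∃ γ, Z.SC γ ∧ ‖γ.2‖ ≤ 9 ∧ ∀ γ' ∈ F, Disjoint (Z.seg γ) (Z.seg γ') := by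
  rcases F.eq_empty_or_nonempty with hF0 | hne
  · obtain ⟨γ, h1, h2⟩ := h.exists_sc
    refine ⟨γ, h1, by linarith, ?_⟩
    intro γ' hγ'
    rw [hF0] at hγ'
    simp at hγ'
  · obtain ⟨γ, h1, h2, h3⟩ := exists_new (M := 7) hF hne hL hs (by
      intro δ hδ q hq
      have hsc := hF.1 δ hδ
      have hq0 : q ≠ 0 := by
        rcases hq with rfl | rfl
        · exact hsc.ne_zero
        · exact neg_ne_zero.2 hsc.ne_zero
      refine ⟨0, by simp, ?_⟩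
      rw [zero_smul, Z.mv_zero]
      exact h.exists_side (reg_of_V hsc.1) hq0)
    exact ⟨γ, h1, by linarith, h3⟩

theorem CL0_bdd_mono {L : P2 ≃L[ℝ] P2} {R R' : ℝ} (h : Bdd L R) (hR : R ≤ R') : Bdd L R' := by
  intro v
  have := mul_le_mul_of_nonneg_right hR (norm_nonneg v)
  exact ⟨(h v).1.trans this, (h v).2.trans this⟩

theorem CL0_small (N : ℕ) {l : ℝ} (h0 : 0 < l) (h : l ≤ 1 / (8 * ((N : ℝ) + 1))) :
    64 * (N : ℝ) * l ^ 2 < 1 := by
  have hN : (0 : ℝ) ≤ N := Nat.cast_nonneg N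
  have h1 : l * (8 * ((N : ℝ) + 1)) ≤ 1 := by
    rwa [le_div_iff₀ (by positivity)] at h
  have h2 : (l * (8 * ((N : ℝ) + 1))) ^ 2 ≤ 1 := by
    have : 0 ≤ l * (8 * ((N : ℝ) + 1)) := by positivity
    nlinarith
  have h3 : 0 < l ^ 2 := by positivity
  nlinarith [mul_nonneg hN h3.le, mul_nonneg (mul_nonneg hN hN) h3.le]

/-- Induction on `k`. Given `lam ≤ 1` (w.l.o.g. also `64 N lam² < 1`) put `κ = 9 / lam`, `lam' = lam / (2 κ)`, take
`R', L', F` for `(k, lam')`; `Z' = Z.act L' hL'` has `NoBox`; `Disj.act`; for `k = 0` use `NoBox.exists_sc`,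
otherwise `exists_new` with `M = 7` (`NoBox.exists_side` at the midpoints, `τ = 0`): a new `γ` of length `≤ 9` in
`Z'`. `B` from `exists_contraction` for `γ.2`; `L = B.trans L'` (`v ↦ L' (B v)`), `R = 2 κ R'`. Transport `γ` back
to `Z` (`act_SC`, `act_seg`), `Disj.insert`. -/
theorem exists_short_family (N k : ℕ) {lam : ℝ} (hl : 0 < lam) :
    ∃ R : ℝ, 1 ≤ R ∧ ∀ Z : Flat X, Z.N = N →
      (∀ (L : P2 ≃L[ℝ] P2) (hL : MeasurePreserving L volume volume), Bdd L R →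
        (Z.act L hL).NoBox) →
      ∃ (L : P2 ≃L[ℝ] P2), MeasurePreserving L volume volume ∧ Bdd L R ∧
        ∃ F : Finset (X × P2), Z.Disj F ∧ F.card = k ∧ ∀ δ ∈ F, ‖L.symm δ.2‖ ≤ lam := by
  classical
  induction k generalizing lam with
  | zero =>
    refine ⟨1, le_rfl, fun Z _ _ => ⟨ContinuousLinearEquiv.refl ℝ P2, ?_, ?_, ∅, ?_, rfl, ?_⟩⟩
    · exact MeasurePreserving.id volume
    · intro v; simp
    · exact ⟨by simp, by simp⟩
    · simp
  | succ k ih =>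
    have hN : (0 : ℝ) ≤ N := Nat.cast_nonneg N
    obtain ⟨m, hm0, hml, hmN⟩ : ∃ m : ℝ, 0 < m ∧ m ≤ lam ∧ m ≤ 1 / (8 * ((N : ℝ) + 1)) :=
      ⟨min lam (1 / (8 * ((N : ℝ) + 1))), lt_min hl (by positivity), min_le_left _ _,
        min_le_right _ _⟩
    have hm1 : m ≤ 1 := by
      refine hmN.trans ?_
      rw [div_le_one (by positivity)]
      linarith
    obtain ⟨κ, hκ1, hκm⟩ : ∃ κ : ℝ, 1 ≤ κ ∧ κ * m = 9 := by
      refine ⟨9 / m, ?_, by field_simp⟩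
      rw [le_div_iff₀ hm0]
      linarith
    have hκ0 : 0 < κ := by linarith
    obtain ⟨l, hl0, hlm, hle⟩ : ∃ l : ℝ, 0 < l ∧ l ≤ m ∧ 2 * κ * l = m := by
      refine ⟨m / (2 * κ), by positivity, ?_, by field_simp⟩
      rw [div_le_iff₀ (by positivity)]
      nlinarith
    obtain ⟨R', hR', hfam⟩ := ih hl0
    have hRR : R' ≤ 2 * κ * R' := by nlinarith
    refine ⟨2 * κ * R', hR'.trans hRR, fun Z hZ hbox => ?_⟩
    obtain ⟨L', hL', hB', F, hF, hcard, hlen⟩ :=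
      hfam Z hZ (fun L hL hb => hbox L hL (CL0_bdd_mono hb hRR))
    have hnb : (Z.act L' hL').NoBox := hbox L' hL' (CL0_bdd_mono hB' hRR)
    obtain ⟨hF', -⟩ := Disj.act (L := L') (hL := hL') hF
    obtain ⟨γ, hγ, hγ9, hγd⟩ := CL0_new hnb hF' (l := l) (hlm.trans hm1) (by
      intro δ hδ
      obtain ⟨δ0, hδ0, rfl⟩ := Finset.mem_image.1 hδ
      exact hlen δ0 hδ0) (by
      rw [act_N, hZ]
      exact CL0_small N hl0 (hlm.trans hmN))
    obtain ⟨B, hB, hBq, hBn⟩ := exists_contraction hγ.ne_zero hκ1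
    have hγZ : Z.SC (γ.1, L' γ.2) := (act_SC γ).1 hγ
    have hdisj : ∀ γ' ∈ F, Disjoint (Z.seg (γ.1, L' γ.2)) (Z.seg γ') := by
      intro γ' hγ'
      have := hγd (γ'.1, L'.symm γ'.2) (Finset.mem_image.2 ⟨γ', hγ', rfl⟩)
      rwa [act_seg, act_seg'] at this
    obtain ⟨hI, hIc⟩ := hF.insert hγZ hdisj
    refine ⟨B.trans L', hL'.comp hB, ?_, _, hI, by rw [hIc, hcard], ?_⟩
    · intro v
      constructor
      · have h1 := (hB' (B v)).1
        have h2 := mul_le_mul_of_nonneg_left (hBn v).1 (by linarith : (0 : ℝ) ≤ R')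
        have h3 : (B.trans L') v = L' (B v) := rfl
        rw [h3]
        linarith
      · have h1 := (hBn (L'.symm v)).2
        have h2 := mul_le_mul_of_nonneg_left (hB' v).2 (by positivity : (0 : ℝ) ≤ 2 * κ)
        have h3 : (B.trans L').symm v = B.symm (L'.symm v) := rfl
        rw [h3]
        linarith
    · intro δ hδ
      have h3 : (B.trans L').symm δ.2 = B.symm (L'.symm δ.2) := rfl
      rw [h3]
      rcases Finset.mem_insert.1 hδ with rfl | hδ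
      · simp only [ContinuousLinearEquiv.symm_apply_apply]
        rw [hBq, norm_smul, Real.norm_eq_abs, abs_of_pos (inv_pos.2 hκ0)]
        have h4 : κ⁻¹ * ‖γ.2‖ ≤ κ⁻¹ * (κ * m) := by
          rw [hκm]
          exact mul_le_mul_of_nonneg_left hγ9 (inv_pos.2 hκ0).le
        have h5 : κ⁻¹ * (κ * m) = m := by field_simp
        linarith
      · have h1 := (hBn (L'.symm δ.2)).2
        have h2 := mul_le_mul_of_nonneg_left (hlen δ hδ) (by positivity : (0 : ℝ) ≤ 2 * κ)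
        linarith

/-- `k = 3 N + 1` contradicts `Disj.card_le` -/
theorem exists_box (N : ℕ) :
    ∃ R : ℝ, 1 ≤ R ∧ ∀ Z : Flat X, Z.N = N →
      ∃ (L : P2 ≃L[ℝ] P2) (hL : MeasurePreserving L volume volume), Bdd L R ∧
        ∃ x, Metric.ball (0 : P2) 2 ⊆ (Z.act L hL).D x := by
  obtain ⟨R, hR, h⟩ := exists_short_family (X := X) N (3 * N + 1) one_pos
  refine ⟨R, hR, fun Z hZ => ?_⟩
  by_contra hcon
  obtain ⟨L, -, -, F, hF, hc, -⟩ := h Z hZ (fun L hL hb x hx => hcon ⟨L, hL, hb, x, hx⟩)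
  have := hF.card_le
  omega

end Flat

end Pool.Agent.MP_b29402_an

end

-- part MP_b29402_an.CL
section

/-! Fat cylinders near thick directions. -/

open MeasureTheory Set Filter Topology ProbabilityTheory
open scoped ComplexConjugate ENNReal

namespace Pool.Agent.MP_b29402_an

namespace Flat

variable {X : Type*} [MeasurableSpace X]

/-- `mv x` is not injective on `ball 0 1` (area `4 > 1`, `volume_le_one`): `mv x a = mv x b`, `v = b - a`. For
`‖c‖ < 1`, `mv x (a + c) = mv (mv x a) c = mv (mv x b) c = mv x (b + c)`, so `mv x (a + c) ∈ Per v`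
(`per_of_eq`). `mv x` is injective on `ball a s`, `s = min 1 ε` (`Thick.inj`), `measure_image_mv`. -/
theorem cyl_of_box {Z : Flat X} {ε : ℝ} (hε : 0 < ε) (h : Z.Thick ε) {x : X}
    (hx : Metric.ball (0 : P2) 2 ⊆ Z.D x) :
    ∃ v : P2, v ≠ 0 ∧ ‖v‖ ≤ 2 ∧ 4 * (min 1 ε) ^ 2 ≤ Z.μ.real (Z.Per v) := by
  have hK : Convex ℝ (Metric.ball (0 : P2) 2) := convex_ball _ _
  have h0 : (0 : P2) ∈ Metric.ball (0 : P2) 2 := Metric.mem_ball_self two_pos
  have hni : ¬ InjOn (Z.mv x) (Metric.ball 0 1) := fun hi => by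
    have := volume_le_one ((Metric.ball_subset_ball one_le_two).trans hx) hi measurableSet_ball
    rw [volume_ball_P2 _ zero_le_one, ENNReal.ofReal_le_one] at this
    norm_num at this
  simp only [InjOn, not_forall] at hni
  obtain ⟨a, ha, b, hb, he, hab⟩ := hni
  rw [mem_ball_zero_iff] at ha hb
  have hm : ∀ {a c : P2}, ‖a‖ < 1 → ‖c‖ < 1 → a + c ∈ Metric.ball (0 : P2) 2 := fun h1 h2 =>
    mem_ball_zero_iff.2 ((norm_add_le _ _).trans_lt (by linarith))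
  have hmv : ∀ {a c : P2}, ‖a‖ < 1 → ‖c‖ < 1 → Z.mv (Z.mv x a) c = Z.mv x (a + c) := by
    intro a c h1 h2
    have := (Z.conv x _ hK h0 hx a (mem_ball_zero_iff.2 (by linarith)) _ (hm h1 h2)).2
    rwa [add_sub_cancel_left] at this
  have hs : 0 < min 1 ε := lt_min one_pos hε
  have hsub : ∀ p ∈ Metric.ball a (min 1 ε), ‖p - a‖ < 1 := fun p hp =>
    (mem_ball_iff_norm.1 hp).trans_le (min_le_left _ _)
  have hin : Metric.ball a (min 1 ε) ⊆ Metric.ball (0 : P2) 2 := fun p hp => by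
    simpa using hm ha (hsub p hp)
  refine ⟨b - a, sub_ne_zero.2 (Ne.symm hab), (norm_sub_le _ _).trans (by linarith), ?_⟩
  have hi : InjOn (Z.mv x) (Metric.ball a (min 1 ε)) := fun p hp q hq e => by
    refine h.inj hK h0 hx (hin hp) (hin hq) ?_ e
    have := norm_sub_le (q - a) (p - a)
    rw [sub_sub_sub_cancel_right] at this
    linarith [mem_ball_iff_norm.1 hp, mem_ball_iff_norm.1 hq, min_le_right 1 ε]
  have h1 := (measure_image_mv (hin.trans hx) hi measurableSet_ball).2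
  rw [volume_ball_P2 _ hs.le] at h1
  rw [Measure.real, ← ENNReal.ofReal_le_iff_le_toReal (measure_ne_top _ _), ← h1]
  refine measure_mono ?_
  rintro _ ⟨p, hp, rfl⟩
  have h2 := per_of_eq hK h0 hx (hm ha (hsub p hp)) (hm hb (hsub p hp))
    (by rw [← hmv ha (hsub p hp), ← hmv hb (hsub p hp), he])
  rwa [add_sub_add_right_eq_sub, add_sub_cancel] at h2

/-- `R` from `exists_box`, `κ = max 1 (2 R / ε)`, `B = shr κ 0` (`v ↦ (v.1 / κ, κ v.2)`), `Z1 = Z.act B`,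
`Z2 = Z1.act L` is thick with constant `ε / (κ R)` (`act_thick`), `cyl_of_box` gives `v''`, `v = B (L v'')`
(`act_per`): `|v.1| ≤ 2 R / κ ≤ ε`, `|v.2| ≤ 2 R κ`. `Per v` is nonempty, so `sc_of_per` gives `2 ε ≤ ‖v‖`, hence
`|v.2| ≥ 2 ε`. Replace `v` by `-v` if needed (`per_neg`). -/
theorem exists_cyl (N : ℕ) {ε : ℝ} (hε : 0 < ε) :
    ∃ R2 a0 : ℝ, 1 ≤ R2 ∧ 0 < a0 ∧ ∀ Z : Flat X, Z.N = N → Z.Thick ε →
      ∃ v : P2, |v.1| ≤ v.2 ∧ ε ≤ v.2 ∧ v.2 ≤ R2 ∧ a0 ≤ Z.μ.real (Z.Per v) := by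
  obtain ⟨R, hR, hbox⟩ := exists_box (X := X) N
  obtain ⟨κ, hκ1, hκ2⟩ : ∃ κ : ℝ, 1 ≤ κ ∧ 2 * R ≤ κ * ε :=
    ⟨max 1 (2 * R / ε), le_max_left _ _, (div_le_iff₀ hε).1 (le_max_right _ _)⟩
  have hκ : 0 < κ := by linarith
  have hR0 : 0 < R := by linarith
  have hε' : 0 < ε / (κ * R) := by positivity
  have ha0 : 0 < 4 * (min 1 (ε / (κ * R))) ^ 2 := by positivity
  refine ⟨2 * R * κ, _, by nlinarith, ha0, fun Z hN hZ => ?_⟩
  obtain ⟨L, hL, hB, x, hx⟩ := hbox (Z.act (shr κ 0 hκ) (sl_mp _ _ _ _ _)) hN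
  have t1 : (Z.act (shr κ 0 hκ) (sl_mp _ _ _ _ _)).Thick (ε / κ) := by
    rw [act_thick]
    intro δ hδ
    have := hZ δ hδ
    rw [norm_shr_symm, slen, zero_mul, sub_zero]
    rw [Prod.norm_def, le_max_iff, Real.norm_eq_abs, Real.norm_eq_abs] at this
    rcases this with h | h
    · refine le_max_of_le_left ((div_le_self hε.le hκ1).trans ?_)
      nlinarith [abs_nonneg δ.2.1]
    · exact le_max_of_le_right (by gcongr)
  have t2 : ((Z.act (shr κ 0 hκ) (sl_mp _ _ _ _ _)).act L hL).Thick (ε / (κ * R)) := by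
    rw [act_thick]
    intro δ hδ
    have h1 := t1 δ hδ
    have h2 := (hB (L.symm δ.2)).1
    rw [L.apply_symm_apply] at h2
    rw [← div_div, div_le_iff₀ hR0]
    linarith
  obtain ⟨w, hw0, hw, hm⟩ := cyl_of_box hε' t2 hx
  rw [act_per, act_per, act_μ, act_μ] at hm
  have hL2 : ‖L w‖ ≤ 2 * R := (hB w).1.trans (by nlinarith)
  have hv0 : shr κ 0 hκ (L w) ≠ 0 := by simpa using hw0
  have e1 : (shr κ 0 hκ (L w)).1 = (L w).1 / κ := by simp [shr, sl_apply, div_eq_inv_mul]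
  have e2 : (shr κ 0 hκ (L w)).2 = κ * (L w).2 := by simp [shr, sl_apply]
  generalize shr κ 0 hκ (L w) = v at *
  have b1 : |v.1| ≤ ε := by
    rw [e1, abs_div, abs_of_pos hκ, div_le_iff₀ hκ]
    linarith [norm_fst_le (L w), Real.norm_eq_abs (L w).1]
  have b2 : |v.2| ≤ 2 * R * κ := by
    rw [e2, abs_mul, abs_of_pos hκ, mul_comm]
    gcongr
    linarith [norm_snd_le (L w), Real.norm_eq_abs (L w).2]
  obtain ⟨y, hy⟩ : (Z.Per v).Nonempty := by
    rw [nonempty_iff_ne_empty]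
    intro e
    rw [e, measureReal_empty] at hm
    linarith
  obtain ⟨δ, hδ, l, l0, l1, e⟩ := sc_of_per hv0 hy
  have b3 : ε ≤ |v.2| := by
    have := hZ δ hδ
    rw [e, norm_smul, Real.norm_eq_abs, abs_of_pos (by positivity), Prod.norm_def,
      Real.norm_eq_abs, Real.norm_eq_abs] at this
    by_contra hlt
    have h3 : max |v.1| |v.2| ≤ ε := max_le b1 (not_le.1 hlt).le
    nlinarith [le_max_left |v.1| |v.2|, abs_nonneg v.1]
  rcases le_total 0 v.2 with h | h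
  · rw [abs_of_nonneg h] at b2 b3
    exact ⟨v, b1.trans b3, b3, b2, hm⟩
  · rw [abs_of_nonpos h] at b2 b3
    refine ⟨-v, ?_, b3, b2, hm.trans (measureReal_mono fun z hz => per_neg hz)⟩
    rw [Prod.fst_neg, abs_neg]
    exact b1.trans b3

theorem CL_arctan (t : ℝ) : |Real.arctan t| ≤ |t| := by
  have key : ∀ t : ℝ, 0 ≤ t → |Real.arctan t| ≤ |t| := fun t ht => by
    have h0 := Real.arctan_nonneg.2 ht
    have := Real.le_tan h0 (Real.arctan_lt_pi_div_two t)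
    rw [Real.tan_arctan] at this
    rwa [abs_of_nonneg h0, abs_of_nonneg ht]
  rcases le_total 0 t with h | h
  · exact key t h
  · simpa [Real.arctan_neg] using key (-t) (by linarith)

/-- `exists_cyl` for `Z.act (ren T θ hT)` (`thickAt_iff`, `act_per`). With `β = arctan (-v.1 / (T² v.2))`,
`|β| ≤ 1 / T²`, `θv = θ + β / (2 π)`, `ℓ = T v.2 / cos β` one has `ren T θ hT v = ℓ • ev θv` (`ren_apply`, `ev_add`,
`Real.cos_arctan`, `Real.sin_arctan`), `1/2 ≤ cos β ≤ 1`. -/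
theorem exists_cyl_dir (Z : Flat X) {ε : ℝ} (hε : 0 < ε) :
    ∃ R2 a0 : ℝ, 1 ≤ R2 ∧ 0 < a0 ∧ ∀ T θ : ℝ, 1 ≤ T → Z.ThickAt T θ ε →
      ∃ θv ℓ : ℝ, |θv - θ| ≤ 1 / T ^ 2 ∧ ε * T ≤ ℓ ∧ ℓ ≤ R2 * T ∧
        a0 ≤ Z.μ.real (Z.Per (ℓ • ev θv)) := by
  obtain ⟨R2, a0, hR, ha, h⟩ := exists_cyl (X := X) Z.N hε
  refine ⟨2 * R2, a0, by linarith, ha, fun T θ hT hth => ?_⟩
  have hT0 : 0 < T := by linarith
  obtain ⟨v, h1, h2, h3, h4⟩ := h _ act_N ((thickAt_iff hT0 θ ε).1 hth)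
  rw [act_per, act_μ, ren_apply] at h4
  have hv : 0 < v.2 := by linarith
  set t := -v.1 / (T ^ 2 * v.2) with ht
  have t1 : |t| ≤ 1 / T ^ 2 := by
    rw [ht, abs_div, abs_neg, abs_of_pos (by positivity : 0 < T ^ 2 * v.2),
      div_le_div_iff₀ (by positivity) (by positivity)]
    nlinarith [sq_nonneg T]
  have t2 : 1 / T ^ 2 ≤ 1 := by
    rw [div_le_one (by positivity)]
    nlinarith
  have b1 : |Real.arctan t| ≤ |t| := CL_arctan t
  have c1 : 1 / 2 ≤ Real.cos (Real.arctan t) := by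
    have := Real.one_sub_sq_div_two_le_cos (x := Real.arctan t)
    have h5 : Real.arctan t ^ 2 ≤ 1 := by
      rw [sq_le_one_iff_abs_le_one]
      linarith
    linarith
  have c0 : 0 < Real.cos (Real.arctan t) := by linarith
  have c2 := Real.cos_le_one (Real.arctan t)
  have s1 : Real.sin (Real.arctan t) = t * Real.cos (Real.arctan t) := by
    have := Real.tan_arctan t
    rwa [Real.tan_eq_sin_div_cos, div_eq_iff c0.ne'] at this
  have hπ := Real.pi_gt_three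
  refine ⟨θ + Real.arctan t / (2 * Real.pi), T * v.2 / Real.cos (Real.arctan t), ?_, ?_, ?_, ?_⟩
  · rw [add_sub_cancel_left, abs_div, abs_of_pos (by positivity : 0 < 2 * Real.pi)]
    exact (div_le_self (abs_nonneg _) (by linarith)).trans (b1.trans t1)
  · rw [le_div_iff₀ c0]
    nlinarith [mul_le_mul h2 c2 c0.le hv.le]
  · rw [div_le_iff₀ c0]
    nlinarith [mul_le_mul h3 c1 (by norm_num) (by linarith : 0 ≤ R2)]
  · convert h4 using 3
    rw [ev_add, mul_div_cancel₀ _ (by positivity), s1, smul_sub, smul_smul, smul_smul,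
      sub_eq_neg_add, ← neg_smul]
    congr 2
    · rw [ht]
      field_simp
    · field_simp

end Flat

end Pool.Agent.MP_b29402_an

end

-- part MP_b29402_an.DkC
section

/-! Elementary facts on the kernels `K1`, `K2` and the symbols `gsym`, `wsym`. -/

open MeasureTheory Set Filter Topology ProbabilityTheory
open scoped ComplexConjugate ENNReal

namespace Pool.Agent.MP_b29402_an

theorem mem_Iv {c r y : ℝ} : y ∈ Iv c r ↔ |y - c| ≤ r := by
  rw [Iv, mem_Icc, abs_le]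
  constructor <;> rintro ⟨h1, h2⟩ <;> constructor <;> linarith

theorem measurableSet_Iv (c r : ℝ) : MeasurableSet (Iv c r) := measurableSet_Icc

theorem Iv_eq_closedBall (c r : ℝ) : Iv c r = Metric.closedBall c r := (Real.closedBall_eq_Icc).symm

theorem DkC_max_pos {R : ℝ} (hR : 0 < R) (c y : ℝ) : 0 < max ((y - c) ^ 2) (R ^ 2) :=
  lt_max_of_lt_right (by positivity)

theorem DkC_K1_le {R c y : ℝ} (hR : 0 < R) (h : (y - c) ^ 2 ≤ R ^ 2) : K1 R c y = 1 := by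
  rw [K1, max_eq_right h, div_self (by positivity)]

theorem DkC_K1_ge {R c y : ℝ} (h : R ^ 2 ≤ (y - c) ^ 2) : K1 R c y = R ^ 2 / (y - c) ^ 2 := by
  rw [K1, max_eq_left h]

theorem DkC_K2_le {R c y : ℝ} (h : (y - c) ^ 2 ≤ R ^ 2) : K2 R c y = (y - c) ^ 2 / R ^ 2 := by
  rw [K2, max_eq_right h, min_eq_left h]

theorem DkC_K2_ge {R c y : ℝ} (h : R ^ 2 ≤ (y - c) ^ 2) : K2 R c y = R ^ 2 / (y - c) ^ 2 := by
  rw [K2, max_eq_left h, min_eq_right h]

theorem K1_continuous {R : ℝ} (hR : 0 < R) (c : ℝ) : Continuous (K1 R c) := by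
  unfold K1
  exact continuous_const.div (by fun_prop) fun y => (DkC_max_pos hR c y).ne'

theorem K2_continuous {R : ℝ} (hR : 0 < R) (c : ℝ) : Continuous (K2 R c) := by
  unfold K2
  exact Continuous.div (by fun_prop) (by fun_prop) fun y => (DkC_max_pos hR c y).ne'

theorem K1_nonneg (R c y : ℝ) : 0 ≤ K1 R c y := div_nonneg (sq_nonneg _) (le_max_of_le_left (sq_nonneg _))

theorem K2_nonneg (R c y : ℝ) : 0 ≤ K2 R c y :=   div_nonneg (le_min (sq_nonneg _) (sq_nonneg _)) (le_max_of_le_left (sq_nonneg _))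

theorem K1_le_one {R : ℝ} (hR : 0 < R) (c y : ℝ) : K1 R c y ≤ 1 :=   (div_le_one (DkC_max_pos hR c y)).2 (le_max_right _ _)

theorem K2_le_one {R : ℝ} (hR : 0 < R) (c y : ℝ) : K2 R c y ≤ 1 :=   (div_le_one (DkC_max_pos hR c y)).2 min_le_max

theorem K1_ge {R a : ℝ} (hR : 0 < R) (ha : 1 ≤ a) {c y : ℝ} (h : |y - c| ≤ a * R) :
    1 / a ^ 2 ≤ K1 R c y := by
  have h2 : (y - c) ^ 2 ≤ (a * R) ^ 2 := by
    rw [← sq_abs]; exact pow_le_pow_left₀ (abs_nonneg _) h 2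
  have ha2 : 1 ≤ a ^ 2 := one_le_pow₀ ha
  rw [K1, div_le_div_iff₀ (by positivity) (DkC_max_pos hR c y), one_mul]
  refine max_le (by nlinarith) (by nlinarith [sq_nonneg R])

theorem K2_ge {R a : ℝ} (hR : 0 < R) (ha : 1 ≤ a) {c y : ℝ} (h1 : R / a ≤ |y - c|)
    (h2 : |y - c| ≤ a * R) : 1 / a ^ 2 ≤ K2 R c y := by
  have ha0 : 0 < a := by linarith
  rcases le_total ((y - c) ^ 2) (R ^ 2) with h | h
  · have h3 : (R / a) ^ 2 ≤ (y - c) ^ 2 := by
      rw [← sq_abs (y - c)]; exact pow_le_pow_left₀ (by positivity) h1 2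
    rw [DkC_K2_le h, le_div_iff₀ (by positivity)]
    calc 1 / a ^ 2 * R ^ 2 = (R / a) ^ 2 := by ring
      _ ≤ _ := h3
  · rw [DkC_K2_ge h, ← DkC_K1_ge h]; exact K1_ge hR ha h2

/-- if `|y - c| ≤ 2 ^ k R` for no smaller `k` then `K1 ≤ 4 ^ (1 - k)`: `K1` is bounded by a series of
indicators of intervals. -/
theorem K1_le_tsum {R : ℝ} (hR : 0 < R) (c y : ℝ) :
    ENNReal.ofReal (K1 R c y) ≤
      ∑' k : ℕ, (Iv c (2 ^ k * R)).indicator (fun _ => ENNReal.ofReal (4 / 4 ^ k)) y := by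
  classical
  have hex : ∃ k : ℕ, |y - c| ≤ 2 ^ k * R := by
    obtain ⟨k, hk⟩ := pow_unbounded_of_one_lt (|y - c| / R) (one_lt_two (α := ℝ))
    exact ⟨k, ((div_lt_iff₀ hR).1 hk).le⟩
  refine le_trans ?_ (ENNReal.le_tsum (Nat.find hex))
  rw [indicator_of_mem (mem_Iv.2 (Nat.find_spec hex))]
  refine ENNReal.ofReal_le_ofReal ?_
  rcases h : Nat.find hex with _ | m
  · have := K1_le_one hR c y
    norm_num; linarith
  · have h1 : 2 ^ m * R < |y - c| := not_le.1 (Nat.find_min hex (by omega))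
    have h2 : (2 ^ m * R) ^ 2 ≤ (y - c) ^ 2 := by
      rw [← sq_abs (y - c)]; exact pow_le_pow_left₀ (by positivity) h1.le 2
    have h4 : ((2 : ℝ) ^ m * R) ^ 2 = 4 ^ m * R ^ 2 := by
      rw [mul_pow, ← pow_mul, mul_comm m 2, pow_mul]; norm_num
    rw [K1, div_le_div_iff₀ (DkC_max_pos hR c y) (by positivity), pow_succ (4 : ℝ) m]
    have := le_max_left ((y - c) ^ 2) (R ^ 2)
    nlinarith

/-- potential for the telescoping bound -/
noncomputable def DkC_phi (D R : ℝ) : ℝ :=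
  if R ^ 2 ≤ D then 4 / 3 * (R ^ 2 / D) else 2 - 1 / 3 * (D / R ^ 2)

theorem DkC_phi_nonneg {D R : ℝ} (hD : 0 < D) (hR : 0 < R) : 0 ≤ DkC_phi D R := by
  unfold DkC_phi
  split_ifs with h
  · positivity
  · have : D / R ^ 2 ≤ 1 := (div_le_one (by positivity)).2 (not_le.1 h).le
    linarith

theorem DkC_step {c y R : ℝ} (hD : 0 < (y - c) ^ 2) (hR : 0 < R) :
    DkC_phi ((y - c) ^ 2) (R / 2) + K2 R c y ≤ DkC_phi ((y - c) ^ 2) R := by
  have hR2 : 0 < R ^ 2 := by positivity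
  have e1 : (R / 2) ^ 2 / (y - c) ^ 2 = 1 / 4 * (R ^ 2 / (y - c) ^ 2) := by ring
  have e2 : (y - c) ^ 2 / (R / 2) ^ 2 = 4 * ((y - c) ^ 2 / R ^ 2) := by
    field_simp; norm_num
  unfold DkC_phi
  by_cases h : R ^ 2 ≤ (y - c) ^ 2
  · rw [if_pos h, if_pos (by nlinarith), DkC_K2_ge h, e1]; linarith
  · have h' := (not_le.1 h).le
    have h1 : (y - c) ^ 2 / R ^ 2 ≤ 1 := (div_le_one hR2).2 h'
    rw [if_neg h, DkC_K2_le h']
    split_ifs with h2
    · have h3 : R ^ 2 / (y - c) ^ 2 ≤ 4 := (div_le_iff₀ hD).2 (by nlinarith)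
      have h4 : 1 ≤ R ^ 2 / (y - c) ^ 2 := (one_le_div hD).2 h'
      have h5 : (y - c) ^ 2 / R ^ 2 * (R ^ 2 / (y - c) ^ 2) = 1 := by
        rw [div_mul_div_comm, mul_comm]; exact div_self (mul_pos hR2 hD).ne'
      rw [e1]
      have h6 : 0 ≤ (y - c) ^ 2 / R ^ 2 := by positivity
      nlinarith [mul_nonneg h6 (mul_nonneg (sub_nonneg.2 h3) (sub_nonneg.2 h4))]
    · rw [e2]; linarith

theorem DkC_sum {c y : ℝ} (hD : 0 < (y - c) ^ 2) (n : ℕ) : ∀ {s : ℝ}, 0 < s →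
    ∑ j ∈ Finset.range n, K2 (s / 2 ^ j) c y ≤ DkC_phi ((y - c) ^ 2) s := by
  induction n with
  | zero => intro s hs; simpa using DkC_phi_nonneg hD hs
  | succ n ih =>
    intro s hs
    have e : ∀ j : ℕ, s / 2 ^ (j + 1) = s / 2 / 2 ^ j := fun j => by rw [pow_succ]; ring
    rw [Finset.sum_range_succ']
    simp only [e, pow_zero, div_one]
    linarith [ih (half_pos hs), DkC_step hD hs]

/-- with `d = |y - c|` and `R j = s / 2 ^ j`: for `d ≥ s` the sum is at most `(4/3) s² / d²`; for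
`d < s` split according to `R j ≥ d` or `R j < d`, two geometric series, each at most `4/3`. -/
theorem sum_K2_le {s : ℝ} (hs : 0 < s) (c y : ℝ) (n : ℕ) :
    ∑ j ∈ Finset.range n, K2 (s / 2 ^ j) c y ≤ 4 * K1 s c y := by
  rcases eq_or_lt_of_le (sq_nonneg (y - c)) with h0 | h0
  · have : ∀ j ∈ Finset.range n, K2 (s / 2 ^ j) c y = 0 := fun j _ => by
      rw [DkC_K2_le (by rw [← h0]; positivity), ← h0, zero_div]
    rw [Finset.sum_congr rfl this]
    have := K1_nonneg s c y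
    simpa using this
  · refine (DkC_sum h0 n hs).trans ?_
    unfold DkC_phi
    split_ifs with h
    · rw [DkC_K1_ge h]
      have : 0 ≤ s ^ 2 / (y - c) ^ 2 := by positivity
      linarith
    · rw [DkC_K1_le hs (not_le.1 h).le]
      have : 0 ≤ (y - c) ^ 2 / s ^ 2 := by positivity
      linarith

theorem gsym_continuous (L c u : ℝ) : Continuous (gsym L c u) := by
  unfold gsym
  have := Dk_continuous
  have := ex_continuous
  fun_prop

theorem wsym_continuous (L c u m0 : ℝ) : Continuous (wsym L c u m0) := by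
  unfold wsym
  have := Dk_continuous
  have := gsym_continuous L c u
  fun_prop

theorem gsym_le (L c y : ℝ) {u : ℝ} (h0 : 0 ≤ u) (h1 : u ≤ 1) : ‖gsym L c u y‖ ≤ 2 := by
  have h2 : ‖(u : ℂ) * ex (L * (y - c)) - 1‖ ≤ 2 := by
    refine (norm_sub_le _ _).trans ?_
    rw [norm_mul, ex_norm, norm_one, Complex.norm_real, Real.norm_eq_abs, abs_of_nonneg h0]
    linarith
  rw [gsym, norm_mul]
  calc _ ≤ 1 * 2 := mul_le_mul (Dk_le_one _) h2 (norm_nonneg _) zero_le_one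
    _ = 2 := one_mul _

theorem DkC_gsym0 (L c y : ℝ) : ‖gsym L c 0 y‖ = ‖Dk (L * (y - c))‖ := by
  simp [gsym]

theorem DkC_gsym1 (L c y : ℝ) :
    ‖gsym L c 1 y‖ = ‖Dk (L * (y - c))‖ * ‖ex (L * (y - c)) - 1‖ := by
  simp [gsym]

theorem DkC_far {e T c y : ℝ} (he : 0 < e) (hT : 0 < T) (h : (1 / T) ^ 2 ≤ (y - c) ^ 2) :
    ‖Dk (e * T * (y - c))‖ ^ 2 ≤ 4 / e ^ 2 * ((1 / T) ^ 2 / (y - c) ^ 2) := by
  have hy : y - c ≠ 0 := by
    intro h0
    rw [h0] at h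
    have : 0 < (1 / T) ^ 2 := by positivity
    linarith [zero_pow (M₀ := ℝ) two_ne_zero]
  have hz : e * T * (y - c) ≠ 0 := mul_ne_zero (mul_pos he hT).ne' hy
  refine (pow_le_pow_left₀ (norm_nonneg _) (Dk_le_div _ hz) 2).trans (le_of_eq ?_)
  rw [div_pow, sq_abs]
  field_simp
  norm_num

/-- case `T |y - c| ≤ 1`: `Dk_le_one`; otherwise `Dk_le_div`. -/
theorem gsym_main {e T : ℝ} (he : 0 < e) (he1 : e ≤ 1) (hT : 0 < T) (c y : ℝ) :
    ‖gsym (e * T) c 0 y‖ ^ 2 ≤ 16 / e ^ 2 * K1 (1 / T) c y := by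
  rw [DkC_gsym0]
  rcases le_total ((y - c) ^ 2) ((1 / T) ^ 2) with h | h
  · rw [DkC_K1_le (by positivity) h, mul_one, le_div_iff₀ (by positivity)]
    have h1 : ‖Dk (e * T * (y - c))‖ ^ 2 ≤ 1 := pow_le_one₀ (norm_nonneg _) (Dk_le_one _)
    have h2 : e ^ 2 ≤ 1 := pow_le_one₀ he.le he1
    nlinarith [sq_nonneg e, sq_nonneg ‖Dk (e * T * (y - c))‖]
  · rw [DkC_K1_ge h]
    have h1 := DkC_far he hT h
    have h2 : 0 ≤ 4 / e ^ 2 * ((1 / T) ^ 2 / (y - c) ^ 2) := by positivity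
    calc _ ≤ 4 * (4 / e ^ 2 * ((1 / T) ^ 2 / (y - c) ^ 2)) := by linarith
      _ = _ := by ring

/-- case `T |y - c| ≤ 1`: `Dk_le_one` and `ex_sub_one_le`; otherwise `Dk_le_div`. -/
theorem gsym_side {e T : ℝ} (he : 0 < e) (he1 : e ≤ 1) (hT : 0 < T) (c y : ℝ) :
    ‖gsym (e * T) c 1 y‖ ^ 2 ≤ 16 / e ^ 2 * K2 (1 / T) c y := by
  rw [DkC_gsym1, mul_pow]
  rcases le_total ((y - c) ^ 2) ((1 / T) ^ 2) with h | h
  · rw [DkC_K2_le h]
    have h1 : ‖Dk (e * T * (y - c))‖ ^ 2 ≤ 1 := pow_le_one₀ (norm_nonneg _) (Dk_le_one _)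
    have h2 : ‖ex (e * T * (y - c)) - 1‖ ^ 2 ≤ (e * T * (y - c)) ^ 2 := by
      rw [← sq_abs (e * T * (y - c))]
      exact pow_le_pow_left₀ (norm_nonneg _) (ex_sub_one_le _) 2
    have h3 : e ^ 2 ≤ 16 / e ^ 2 := by
      have h4 : e ^ 2 ≤ 1 := pow_le_one₀ he.le he1
      rw [le_div_iff₀ (by positivity)]
      nlinarith [sq_nonneg e]
    calc _ ≤ 1 * (e * T * (y - c)) ^ 2 := mul_le_mul h1 h2 (sq_nonneg _) zero_le_one
      _ = e ^ 2 * ((y - c) ^ 2 / (1 / T) ^ 2) := by field_simp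
      _ ≤ _ := mul_le_mul_of_nonneg_right h3 (by positivity)
  · rw [DkC_K2_ge h]
    have h2 : ‖ex (e * T * (y - c)) - 1‖ ≤ 2 := by
      refine (norm_sub_le _ _).trans ?_
      rw [ex_norm, norm_one]; norm_num
    calc _ ≤ 4 / e ^ 2 * ((1 / T) ^ 2 / (y - c) ^ 2) * 2 ^ 2 :=
          mul_le_mul (DkC_far he hT h) (pow_le_pow_left₀ (norm_nonneg _) h2 2) (sq_nonneg _)
            (by positivity)
      _ = _ := by ring

theorem DkC_wsym (L c u y : ℝ) {m0 : ℝ} (hm : 0 < m0) :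
    m0 * ‖wsym L c u m0 y‖ ^ 2 = (‖Dk (L * (y - c))‖ * ‖gsym L c u y‖) ^ 2 := by
  rw [wsym, norm_mul, norm_mul, norm_inv, Complex.norm_real, Real.norm_eq_abs,
    abs_of_nonneg (Real.sqrt_nonneg _), mul_pow, inv_pow, Real.sq_sqrt hm.le, ← mul_assoc,
    mul_inv_cancel₀ hm.ne', one_mul]

theorem DkC_abs {e T : ℝ} (he : 0 < e) (hT : 0 < T) (d : ℝ) : |e * T * d| = e * (T * |d|) := by
  rw [abs_mul, abs_of_pos (mul_pos he hT), mul_assoc]

theorem wsym_le (L c y : ℝ) {u m0 : ℝ} (h0 : 0 ≤ u) (h1 : u ≤ 1) (hm : 0 < m0) :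
    m0 * ‖wsym L c u m0 y‖ ^ 2 ≤ 4 := by
  rw [DkC_wsym L c u y hm]
  have h : ‖Dk (L * (y - c))‖ * ‖gsym L c u y‖ ≤ 1 * 2 :=
    mul_le_mul (Dk_le_one _) (gsym_le L c y h0 h1) (norm_nonneg _) zero_le_one
  calc _ ≤ ((1 : ℝ) * 2) ^ 2 := pow_le_pow_left₀ (by positivity) h 2
    _ = 4 := by norm_num

/-- `Dk_ge` twice: `(5/6) ^ 4 ≥ e² / 100`. -/
theorem wsym_ge_main {e T m0 : ℝ} (he : 0 < e) (he1 : e ≤ 1) (hT : 0 < T) (hm : 0 < m0)
    {c y : ℝ} (h : y ∈ Iv c (7 * (1 / 4) / 4 * (1 / T))) :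
    e ^ 2 / 100 ≤ m0 * ‖wsym (e * T) c 0 m0 y‖ ^ 2 := by
  rw [DkC_wsym _ c 0 y hm, DkC_gsym0]
  have hT1 : T * (1 / T) = 1 := by field_simp
  have h1 : T * |y - c| ≤ 1 := by
    have := mul_le_mul_of_nonneg_left (mem_Iv.1 h) hT.le
    nlinarith
  have h0 : 0 ≤ T * |y - c| := by positivity
  have h2 := Dk_ge (e * T * (y - c)) (by rw [DkC_abs he hT]; nlinarith)
  have h3 : (5 / 6 : ℝ) * (5 / 6) ≤ ‖Dk (e * T * (y - c))‖ * ‖Dk (e * T * (y - c))‖ :=
    mul_le_mul h2 h2 (by norm_num) (norm_nonneg _)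
  have h4 : e ^ 2 ≤ 1 := pow_le_one₀ he.le he1
  calc e ^ 2 / 100 ≤ ((5 / 6 : ℝ) * (5 / 6)) ^ 2 := by linarith
    _ ≤ _ := pow_le_pow_left₀ (by norm_num) h3 2

/-- `z = e T (y - c)` has `0.47 e ≤ |z| ≤ 1.03`; `Dk_ge` twice and `ex_sub_one_ge`
(`2 / π ≥ 0.63`): `(5/6) ^ 4 (0.63 * 0.47 e)² ≥ e² / 100`. -/
theorem wsym_ge_side {e T m0 : ℝ} (he : 0 < e) (he1 : e ≤ 1) (hT : 0 < T) (hm : 0 < m0)
    {c s y : ℝ} (h1 : 1 / T / 2 < |s - c|) (h2 : |s - c| ≤ 1 / T)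
    (h : y ∈ Iv s (7 * (1 / 64) / 4 * (1 / T))) :
    e ^ 2 / 100 ≤ m0 * ‖wsym (e * T) c 1 m0 y‖ ^ 2 := by
  rw [DkC_wsym _ c 1 y hm, DkC_gsym1]
  have hT1 : T * (1 / T) = 1 := by field_simp
  have a1 := mul_le_mul_of_nonneg_left (mem_Iv.1 h) hT.le
  have a2 := mul_le_mul_of_nonneg_left h1.le hT.le
  have a3 := mul_le_mul_of_nonneg_left h2 hT.le
  have t1 : |y - c| ≤ |y - s| + |s - c| := abs_sub_le y s c
  have t2 : |s - c| ≤ |y - s| + |y - c| := by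
    have := abs_sub_le s y c
    rwa [abs_sub_comm s y] at this
  have b1 := mul_le_mul_of_nonneg_left t1 hT.le
  have b2 := mul_le_mul_of_nonneg_left t2 hT.le
  have u1 : T * |y - c| ≤ 2 := by nlinarith
  have u2 : 2 / 5 ≤ T * |y - c| := by nlinarith
  have hz : |e * T * (y - c)| ≤ 2 := by rw [DkC_abs he hT]; nlinarith
  have hz' : 2 / 5 * e ≤ |e * T * (y - c)| := by rw [DkC_abs he hT]; nlinarith
  have d1 := Dk_ge _ hz
  have d2 := ex_sub_one_ge _ (hz.trans (by linarith [Real.pi_gt_three]))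
  have hp : 1 / 2 ≤ 2 / Real.pi := by
    rw [le_div_iff₀ Real.pi_pos]; linarith [Real.pi_le_four]
  have d3 : 1 / 2 * (2 / 5 * e) ≤ ‖ex (e * T * (y - c)) - 1‖ :=
    (mul_le_mul hp hz' (by positivity) (by positivity)).trans d2
  have d4 : 5 / 6 * (5 / 6 * (1 / 2 * (2 / 5 * e))) ≤ ‖Dk (e * T * (y - c))‖ *
      (‖Dk (e * T * (y - c))‖ * ‖ex (e * T * (y - c)) - 1‖) :=
    mul_le_mul d1 (mul_le_mul d1 d3 (by positivity) (norm_nonneg _)) (by positivity)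
      (norm_nonneg _)
  calc e ^ 2 / 100 ≤ (5 / 6 * (5 / 6 * (1 / 2 * (2 / 5 * e)))) ^ 2 := by nlinarith [sq_nonneg e]
    _ ≤ _ := pow_le_pow_left₀ (by positivity) d4 2

end Pool.Agent.MP_b29402_an

end
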