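import Pool.Agent.MP_b29402_an.Mg.Pl2
import Pool.Agent.MP_b29402_an.Mg.DkB

-- part MP_b29402_an.L2a
section

/-! `L²` bookkeeping for measurable almost everywhere bounded functions on a probability space. -/

open MeasureTheory Set Filter Topology ProbabilityTheory
open scoped ComplexConjugate ENNReal

namespace Pool.Agent.MP_b29402_an

variable {X : Type*} [MeasurableSpace X] {μ : Measure X} [IsProbabilityMeasure μ]

omit [IsProbabilityMeasure μ] in
theorem BM.ab {X0 : Set X} {B : ℝ} {f : X → ℂ} (hX : ∀ᵐ x ∂μ, x ∈ X0) (hf : BM X0 B f) :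
    AB μ B f := ⟨hf.1, hX.mono fun x hx => hf.2 x hx⟩

theorem AB.nonneg {B : ℝ} {f : X → ℂ} (hf : AB μ B f) : 0 ≤ B := by
  obtain ⟨x, hx⟩ := hf.2.exists
  exact (norm_nonneg _).trans hx

omit [IsProbabilityMeasure μ] in
theorem AB.mono {B B' : ℝ} {f : X → ℂ} (hf : AB μ B f) (h : B ≤ B') : AB μ B' f :=
  ⟨hf.1, hf.2.mono fun _ hx => hx.trans h⟩

theorem AB.integrable {B : ℝ} {f : X → ℂ} (hf : AB μ B f) : Integrable f μ :=
  Integrable.of_bound hf.1.aestronglyMeasurable B hf.2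

theorem AB.integrable_sq {B : ℝ} {f : X → ℂ} (hf : AB μ B f) :
    Integrable (fun x => ‖f x‖ ^ 2) μ := by
  refine Integrable.of_bound (hf.1.norm.pow_const 2).aestronglyMeasurable (B ^ 2) ?_
  filter_upwards [hf.2] with x hx
  rw [Real.norm_of_nonneg (sq_nonneg _)]
  exact pow_le_pow_left₀ (norm_nonneg _) hx 2

theorem AB.memLp {B : ℝ} {f : X → ℂ} (hf : AB μ B f) : MemLp f 2 μ :=
  MemLp.of_bound hf.1.aestronglyMeasurable B hf.2

omit [IsProbabilityMeasure μ] in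
theorem AB.add {B B' : ℝ} {f g : X → ℂ} (hf : AB μ B f) (hg : AB μ B' g) :
    AB μ (B + B') (fun x => f x + g x) := by
  refine ⟨hf.1.add hg.1, ?_⟩
  filter_upwards [hf.2, hg.2] with x h1 h2
  exact (norm_add_le _ _).trans (add_le_add h1 h2)

omit [IsProbabilityMeasure μ] in
theorem AB.sub {B B' : ℝ} {f g : X → ℂ} (hf : AB μ B f) (hg : AB μ B' g) :
    AB μ (B + B') (fun x => f x - g x) := by
  refine ⟨hf.1.sub hg.1, ?_⟩
  filter_upwards [hf.2, hg.2] with x h1 h2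
  exact (norm_sub_le _ _).trans (add_le_add h1 h2)

omit [IsProbabilityMeasure μ] in
theorem AB.const_mul {B : ℝ} {f : X → ℂ} (hf : AB μ B f) (z : ℂ) :
    AB μ (‖z‖ * B) (fun x => z * f x) := by
  refine ⟨hf.1.const_mul z, ?_⟩
  filter_upwards [hf.2] with x h1
  rw [norm_mul]
  exact mul_le_mul_of_nonneg_left h1 (norm_nonneg _)

omit [IsProbabilityMeasure μ] in
theorem AB.const (z : ℂ) : AB μ ‖z‖ (fun _ => z) :=
  ⟨measurable_const, Eventually.of_forall fun _ => le_rfl⟩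

omit [IsProbabilityMeasure μ] in
theorem AB.normsq {B : ℝ} {f : X → ℂ} (hf : AB μ B f) :
    AB μ (B ^ 2) (fun x => ((‖f x‖ ^ 2 : ℝ) : ℂ)) := by
  refine ⟨Complex.measurable_ofReal.comp (hf.1.norm.pow_const 2), ?_⟩
  filter_upwards [hf.2] with x hx
  rw [Complex.norm_real, Real.norm_of_nonneg (sq_nonneg _)]
  exact pow_le_pow_left₀ (norm_nonneg _) hx 2

omit [IsProbabilityMeasure μ] in
theorem AB.comp {B : ℝ} {f : X → ℂ} (hf : AB μ B f) {T : X → X} (hT : MeasurePreserving T μ μ) :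
    AB μ B (fun x => f (T x)) :=
  ⟨hf.1.comp hT.measurable, hT.quasiMeasurePreserving.ae hf.2⟩

theorem AB.norm_integral_le {B : ℝ} {f : X → ℂ} (hf : AB μ B f) : ‖∫ x, f x ∂μ‖ ≤ B := by
  simpa using norm_integral_le_of_norm_le_const hf.2

omit [IsProbabilityMeasure μ] in
theorem nsq_nonneg (f : X → ℂ) : 0 ≤ nsq μ f := integral_nonneg fun _ => sq_nonneg _

theorem AB.nsq_le {B : ℝ} {f : X → ℂ} (hf : AB μ B f) : nsq μ f ≤ B ^ 2 := by
  have h : ∫ x, ‖f x‖ ^ 2 ∂μ ≤ ∫ _x, B ^ 2 ∂μ := by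
    refine integral_mono_ae hf.integrable_sq (integrable_const _) ?_
    filter_upwards [hf.2] with x hx
    exact pow_le_pow_left₀ (norm_nonneg _) hx 2
  simpa [nsq] using h

omit [IsProbabilityMeasure μ] in
theorem nsq_comp {f : X → ℂ} (hf : Measurable f) {T : X → X} (hT : MeasurePreserving T μ μ) :
    nsq μ (fun x => f (T x)) = nsq μ f := by
  unfold nsq
  have h := integral_map (μ := μ) (φ := T) (f := fun x => ‖f x‖ ^ 2) hT.measurable.aemeasurable
    (hf.norm.pow_const 2).aestronglyMeasurable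
  rw [hT.map_eq] at h
  exact h.symm

omit [IsProbabilityMeasure μ] in
theorem nsq_congr {f g : X → ℂ} (h : f =ᵐ[μ] g) : nsq μ f = nsq μ g := by
  unfold nsq
  refine integral_congr_ae ?_
  filter_upwards [h] with x hx
  rw [hx]

omit [IsProbabilityMeasure μ] in
theorem nsq_const_mul (z : ℂ) (f : X → ℂ) : nsq μ (fun x => z * f x) = ‖z‖ ^ 2 * nsq μ f := by
  unfold nsq
  rw [← integral_const_mul]
  refine integral_congr_ae (Eventually.of_forall fun x => ?_)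
  simp only [norm_mul, mul_pow]

omit [IsProbabilityMeasure μ] in
theorem nsq_sub_comm (f g : X → ℂ) :
    nsq μ (fun x => f x - g x) = nsq μ (fun x => g x - f x) := by
  unfold nsq
  refine integral_congr_ae (Eventually.of_forall fun x => ?_)
  simp only [norm_sub_rev (f x)]

theorem nsq_add_le {B B' : ℝ} {f g : X → ℂ} (hf : AB μ B f) (hg : AB μ B' g) :
    nsq μ (fun x => f x + g x) ≤ 2 * nsq μ f + 2 * nsq μ g := by
  unfold nsq
  rw [← integral_const_mul, ← integral_const_mul,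
    ← integral_add (hf.integrable_sq.const_mul 2) (hg.integrable_sq.const_mul 2)]
  refine integral_mono (hf.add hg).integrable_sq
    ((hf.integrable_sq.const_mul 2).add (hg.integrable_sq.const_mul 2)) fun x => ?_
  have h := norm_add_le (f x) (g x)
  have h2 : ‖f x + g x‖ ^ 2 ≤ (‖f x‖ + ‖g x‖) ^ 2 := pow_le_pow_left₀ (norm_nonneg _) h 2
  simp only
  nlinarith [sq_nonneg (‖f x‖ - ‖g x‖)]

omit [IsProbabilityMeasure μ] in
theorem integral_normsq (f : X → ℂ) :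
    ∫ x, ((‖f x‖ ^ 2 : ℝ) : ℂ) ∂μ = ((nsq μ f : ℝ) : ℂ) := integral_ofReal

/-- Cauchy-Schwarz: `∫ ‖f‖ ≤ √(∫ ‖f‖²)` (e.g. from `0 ≤ ∫ (‖f‖ - a)²` or Jensen). -/
theorem AB.integral_norm_le {B : ℝ} {f : X → ℂ} (hf : AB μ B f) :
    ∫ x, ‖f x‖ ∂μ ≤ Real.sqrt (nsq μ f) := by
  set a := ∫ x, ‖f x‖ ∂μ with ha
  refine Real.le_sqrt_of_sq_le ?_
  have i1 := hf.integrable.norm
  have h : ∫ x, (2 * a * ‖f x‖ - a ^ 2) ∂μ ≤ ∫ x, ‖f x‖ ^ 2 ∂μ := by
    refine integral_mono ((i1.const_mul _).sub (integrable_const _)) hf.integrable_sq fun x => ?_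
    simp only
    nlinarith [sq_nonneg (‖f x‖ - a)]
  rw [integral_sub (i1.const_mul _) (integrable_const _), integral_const_mul, ← ha] at h
  simp only [integral_const, probReal_univ, smul_eq_mul, one_mul] at h
  unfold nsq
  nlinarith

theorem AB.norm_setIntegral_le {B : ℝ} {f : X → ℂ} (hf : AB μ B f) (P : Set X) :
    ‖∫ x in P, f x ∂μ‖ ≤ Real.sqrt (nsq μ f) :=
  (norm_integral_le_integral_norm _).trans
    ((setIntegral_le_integral hf.integrable.norm
      (Eventually.of_forall fun _ => norm_nonneg _)).trans hf.integral_norm_le)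

theorem L2a_pt {B : ℝ} {u v ω : ℂ} (hu : ‖u‖ ≤ B) (hv : ‖v‖ ≤ B) (hω : ‖ω‖ = 1) :
    |‖u‖ ^ 2 - ‖v‖ ^ 2| ≤ 2 * B * ‖u - ω * v‖ := by
  have h1 : |‖u‖ - ‖v‖| ≤ ‖u - ω * v‖ := by
    have := abs_norm_sub_norm_le u (ω * v)
    rwa [norm_mul, hω, one_mul] at this
  have h2 : ‖u‖ ^ 2 - ‖v‖ ^ 2 = (‖u‖ + ‖v‖) * (‖u‖ - ‖v‖) := by ring
  rw [h2, abs_mul, abs_of_nonneg (by positivity)]
  exact mul_le_mul (by linarith) h1 (abs_nonneg _) (by linarith [norm_nonneg u])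

/-- `|‖f‖² - ‖g‖²| ≤ 2 B ‖f - g‖` pointwise, then `AB.integral_norm_le`. -/
theorem abs_nsq_sub_le {B : ℝ} {f g : X → ℂ} (hf : AB μ B f) (hg : AB μ B g) :
    |nsq μ f - nsq μ g| ≤ 2 * B * Real.sqrt (nsq μ (fun x => f x - g x)) := by
  have hB := hf.nonneg
  have h0 : nsq μ f - nsq μ g = ∫ x, (‖f x‖ ^ 2 - ‖g x‖ ^ 2) ∂μ :=
    (integral_sub hf.integrable_sq hg.integrable_sq).symm
  have h1 : |∫ x, (‖f x‖ ^ 2 - ‖g x‖ ^ 2) ∂μ| ≤ ∫ x, 2 * B * ‖f x - g x‖ ∂μ := by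
    rw [← Real.norm_eq_abs]
    refine norm_integral_le_of_norm_le ((hf.sub hg).integrable.norm.const_mul _) ?_
    filter_upwards [hf.2, hg.2] with x h1 h2
    have := L2a_pt (ω := 1) h1 h2 norm_one
    rwa [one_mul] at this
  rw [h0]
  refine h1.trans ?_
  rw [integral_const_mul]
  exact mul_le_mul_of_nonneg_left (hf.sub hg).integral_norm_le (by positivity)

/-- pointwise `|‖f‖² - ‖g‖²| ≤ 2 B ‖f - ω g‖`. -/
theorem nsq_normsq_sub_le {B : ℝ} {f g : X → ℂ} (hf : AB μ B f) (hg : AB μ B g) {ω : ℂ}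
    (hω : ‖ω‖ = 1) :
    nsq μ (fun x => ((‖f x‖ ^ 2 : ℝ) : ℂ) - ((‖g x‖ ^ 2 : ℝ) : ℂ)) ≤
      4 * B ^ 2 * nsq μ (fun x => f x - ω * g x) := by
  unfold nsq
  rw [← integral_const_mul]
  refine integral_mono_ae (hf.normsq.sub hg.normsq).integrable_sq
    ((hf.sub (hg.const_mul ω)).integrable_sq.const_mul _) ?_
  filter_upwards [hf.2, hg.2] with x h1 h2
  have h := L2a_pt h1 h2 hω
  rw [← Complex.ofReal_sub, Complex.norm_real, Real.norm_eq_abs]
  calc |‖f x‖ ^ 2 - ‖g x‖ ^ 2| ^ 2 ≤ (2 * B * ‖f x - ω * g x‖) ^ 2 :=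
        pow_le_pow_left₀ (abs_nonneg _) h 2
    _ = 4 * B ^ 2 * ‖f x - ω * g x‖ ^ 2 := by ring

/-- `∫_P H1 = μ P * ∫ H2 + ∫_P (H2 - ∫ H2) + ∫_P (H1 - H2)` and `AB.norm_setIntegral_le`. -/
theorem re_setIntegral_ge {B B' δ : ℝ} {H1 H2 : X → ℂ} (h1 : AB μ B H1) (h2 : AB μ B' H2)
    (hδ : 0 ≤ δ) (hc : nsq μ (fun x => H2 x - ∫ z, H2 z ∂μ) ≤ δ ^ 2)
    (hd : nsq μ (fun x => H1 x - H2 x) ≤ δ ^ 2) {P : Set X} (hP : MeasurableSet P) :
    μ.real P * (∫ z, H2 z ∂μ).re - 2 * δ ≤ (∫ x in P, H1 x ∂μ).re := by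
  set c := ∫ z, H2 z ∂μ with hcdef
  have a1 := (h2.sub (AB.const c)).norm_setIntegral_le P
  have a2 := (h1.sub h2).norm_setIntegral_le P
  have b1 : Real.sqrt (nsq μ (fun x => H2 x - c)) ≤ δ := Real.sqrt_le_iff.2 ⟨hδ, hc⟩
  have b2 : Real.sqrt (nsq μ (fun x => H1 x - H2 x)) ≤ δ := Real.sqrt_le_iff.2 ⟨hδ, hd⟩
  rw [integral_sub h2.integrable.integrableOn (integrable_const _)] at a1
  rw [integral_sub h1.integrable.integrableOn h2.integrable.integrableOn] at a2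
  have e : ∫ _x in P, c ∂μ = (μ.real P : ℂ) * c := by
    rw [setIntegral_const, Complex.real_smul]
  rw [e] at a1
  have r1 := (Complex.abs_re_le_norm _).trans (a1.trans b1)
  have r2 := (Complex.abs_re_le_norm _).trans (a2.trans b2)
  rw [Complex.sub_re, Complex.re_ofReal_mul] at r1
  rw [Complex.sub_re] at r2
  linarith [(abs_le.1 r1).1, (abs_le.1 r2).1]

/-- off a bad set `E` (any set, outer measure) the function is bounded by `d`: use the measurable
hull `toMeasurable μ E`. -/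
theorem AB.nsq_le_of_bad {B d : ℝ} {f : X → ℂ} (hf : AB μ B f) (E : Set X)
    (h : ∀ᵐ x ∂μ, x ∉ E → ‖f x‖ ≤ d) : nsq μ f ≤ d ^ 2 + B ^ 2 * μ.real E := by
  have hm := measurableSet_toMeasurable μ E
  have i2 : Integrable ((toMeasurable μ E).indicator fun _ : X => B ^ 2) μ :=
    (integrable_const _).indicator hm
  have h1 : ∫ x, ‖f x‖ ^ 2 ∂μ ≤
      ∫ x, (d ^ 2 + (toMeasurable μ E).indicator (fun _ : X => B ^ 2) x) ∂μ := by
    refine integral_mono_ae hf.integrable_sq ((integrable_const _).add i2) ?_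
    filter_upwards [hf.2, h] with x hx hx'
    by_cases hE : x ∈ toMeasurable μ E
    · rw [indicator_of_mem hE]
      have := pow_le_pow_left₀ (norm_nonneg _) hx 2
      nlinarith [sq_nonneg d]
    · rw [indicator_of_notMem hE, add_zero]
      exact pow_le_pow_left₀ (norm_nonneg _) (hx' fun h => hE (subset_toMeasurable μ E h)) 2
  rw [integral_add (integrable_const _) i2, integral_indicator hm, setIntegral_const] at h1
  simp only [integral_const, probReal_univ, smul_eq_mul, one_mul] at h1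
  have e : μ.real (toMeasurable μ E) = μ.real E := by
    simp only [Measure.real, measure_toMeasurable]
  rw [e, mul_comm] at h1
  exact h1

/-- the mean minimises the quadratic deviation -/
theorem AB.nsq_sub_mean_le {B : ℝ} {f : X → ℂ} (hf : AB μ B f) (z : ℂ) :
    nsq μ (fun x => f x - ∫ y, f y ∂μ) ≤ nsq μ (fun x => f x - z) := by
  set c := ∫ y, f y ∂μ with hcdef
  have hg := hf.sub (AB.const (μ := μ) c)
  have i0 : Integrable (fun x => (f x - c) * conj (c - z)) μ := hg.integrable.mul_const _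
  have i1 : Integrable (fun x => 2 * ((f x - c) * conj (c - z)).re) μ := i0.re.const_mul 2
  have e0 : ∫ x, (f x - c) * conj (c - z) ∂μ = 0 := by
    rw [integral_mul_const, integral_sub hf.integrable (integrable_const _)]
    simp [← hcdef]
  have e1 : ∫ x, 2 * ((f x - c) * conj (c - z)).re ∂μ = 0 := by
    rw [integral_const_mul]
    have := integral_re i0
    simp only [RCLike.re_to_complex] at this
    rw [this, e0]
    simp
  have h1 : ∫ x, (‖f x - c‖ ^ 2 + 2 * ((f x - c) * conj (c - z)).re) ∂μ ≤ ∫ x, ‖f x - z‖ ^ 2 ∂μ := by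
    refine integral_mono (hg.integrable_sq.add i1) (hf.sub (AB.const z)).integrable_sq fun x => ?_
    have e : f x - z = (f x - c) + (c - z) := by ring
    simp only
    rw [e, Complex.sq_norm, Complex.sq_norm, Complex.normSq_add]
    linarith [Complex.normSq_nonneg (c - z)]
  rw [integral_add hg.integrable_sq i1, e1, add_zero] at h1
  exact h1

theorem AB.setIntegral_sq_le {B : ℝ} {f : X → ℂ} (hf : AB μ B f) (P : Set X) :
    ∫ x in P, ‖f x‖ ^ 2 ∂μ ≤ nsq μ f :=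
  setIntegral_le_integral hf.integrable_sq (Eventually.of_forall fun _ => sq_nonneg _)

end Pool.Agent.MP_b29402_an

end

-- part MP_b29402_an.SpecA
section

/-! Filters along an almost everywhere defined flow: measurability, bounds, invariance. -/

open MeasureTheory Set Filter Topology ProbabilityTheory
open scoped ComplexConjugate ENNReal

namespace Pool.Agent.MP_b29402_an

variable {X : Type*} [MeasurableSpace X] {μ : Measure X} [IsProbabilityMeasure μ]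
  {φ : ℝ → X → X} {X0 : Set X}

theorem SpecA_me (c : ℝ) : Measurable fun s : ℝ => ex (-(c * s)) :=
  (ex_continuous.comp (by fun_prop)).measurable

theorem SpecA_mk (L c : ℝ) : Measurable fun s : ℝ => (L : ℂ)⁻¹ * ex (-(c * s)) :=
  (SpecA_me c).const_mul _

theorem SpecA_mx (hm : Measurable (fun p : ℝ × X => φ p.1 p.2)) (t : ℝ) : Measurable (φ t) :=
  hm.comp measurable_prodMk_left

theorem SpecA_ms (hm : Measurable (fun p : ℝ × X => φ p.1 p.2)) (x : X) :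
    Measurable fun s => φ s x :=
  hm.comp measurable_prodMk_right

theorem SpecA_ii {E : Type*} [NormedAddCommGroup E] [MeasurableSpace E] [BorelSpace E]
    [SecondCountableTopology E] {g : ℝ → E} (hg : Measurable g) {a b C : ℝ}
    (hC : ∀ s ∈ uIoc a b, ‖g s‖ ≤ C) : IntervalIntegrable g volume a b := by
  rw [intervalIntegrable_iff]
  refine Measure.integrableOn_of_bounded (M := C) ?_ hg.aestronglyMeasurable
    ((ae_restrict_iff' measurableSet_uIoc).2 (Eventually.of_forall hC))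
  rw [uIoc, Real.volume_Ioc]
  exact ENNReal.ofReal_ne_top

theorem SpecA_int {E : Type*} [NormedAddCommGroup E] [MeasurableSpace E] [BorelSpace E]
    [SecondCountableTopology E] {ν : Measure X} [IsFiniteMeasure ν] (hν : ∀ᵐ x ∂ν, x ∈ X0)
    {F : X → ℝ → E} (hF : Measurable (Function.uncurry F)) {ϱ : Measure ℝ} [IsFiniteMeasure ϱ]
    {C : ℝ} (hC : ∀ x ∈ X0, ∀ s, ‖F x s‖ ≤ C) : Integrable (Function.uncurry F) (ν.prod ϱ) := by
  refine Integrable.of_bound hF.aestronglyMeasurable C ?_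
  rw [Measure.ae_prod_iff_ae_ae (measurableSet_le hF.norm measurable_const)]
  exact hν.mono fun x hx => Eventually.of_forall (hC x hx)

omit [IsProbabilityMeasure μ] in
theorem BM.comp (h : AEFlow μ φ X0) {B : ℝ} {f : X → ℂ} (hf : BM X0 B f) (t : ℝ) :
    BM X0 B (fun x => f (φ t x)) := ⟨hf.1.comp (h.mp t).measurable, fun x hx => hf.2 _ (h.inv t x hx)⟩

/-- `StronglyMeasurable.integral_prod_left` -/
theorem measurable_Op (hm : Measurable (fun p : ℝ × X => φ p.1 p.2)) (ϱ : Measure ℝ) [SFinite ϱ]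
    {k : ℝ → ℂ} (hk : Measurable k) {f : X → ℂ} (hf : Measurable f) :
    Measurable (Op φ ϱ k f) := by
  have h : Measurable fun p : ℝ × X => k p.1 * f (φ p.1 p.2) :=
    (hk.comp measurable_fst).mul (hf.comp hm)
  exact (StronglyMeasurable.integral_prod_left (μ := ϱ) (f := fun s x => k s * f (φ s x))
    h.stronglyMeasurable).measurable

theorem Av_eq_Op {L : ℝ} (hL : 0 < L) (c : ℝ) (f : X → ℂ) :
    Av φ L c f = Op φ (volume.restrict (Ioc 0 L)) (fun s => (L : ℂ)⁻¹ * ex (-(c * s))) f := by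
  funext x
  simp only [Av, Op, intervalIntegral.integral_of_le hL.le, mul_assoc, integral_const_mul]

theorem sym_av {L : ℝ} (hL : 0 < L) (c y : ℝ) :
    sym (volume.restrict (Ioc 0 L)) (fun s => (L : ℂ)⁻¹ * ex (-(c * s))) y = Dk (L * (y - c)) := by
  rw [← Dk_eq_avg L (y - c) hL, sym, intervalIntegral.integral_of_le hL.le, ← integral_const_mul]
  refine integral_congr_ae (Eventually.of_forall fun s => ?_)
  simp only [mul_assoc, ← ex_add]
  congr 2
  ring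

theorem measurable_Av (hm : Measurable (fun p : ℝ × X => φ p.1 p.2)) {L : ℝ} (hL : 0 < L) (c : ℝ)
    {f : X → ℂ} (hf : Measurable f) : Measurable (Av φ L c f) := by
  rw [Av_eq_Op hL]
  exact measurable_Op hm _ (SpecA_mk L c) hf

theorem measurable_FS (hm : Measurable (fun p : ℝ × X => φ p.1 p.2)) {n : ℕ} (a : Fin n → ℂ)
    (t : Fin n → ℝ) {f : X → ℂ} (hf : Measurable f) : Measurable (FS φ a t f) :=
  Finset.measurable_sum _ fun i _ => measurable_const.mul (hf.comp (SpecA_mx hm (t i)))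

omit [IsProbabilityMeasure μ] in
theorem BM.op (h : AEFlow μ φ X0) {B C : ℝ} {f : X → ℂ} (hf : BM X0 B f) (ϱ : Measure ℝ)
    [IsFiniteMeasure ϱ] {k : ℝ → ℂ} (hk : Measurable k) (hC : ∀ s, ‖k s‖ ≤ C) :
    BM X0 (C * B * ϱ.real univ) (Op φ ϱ k f) := by
  refine ⟨measurable_Op h.meas ϱ hk hf.1, fun x hx => ?_⟩
  refine norm_integral_le_of_norm_le_const (Eventually.of_forall fun s => ?_)
  rw [norm_mul]
  exact mul_le_mul (hC s) (hf.2 _ (h.inv s x hx)) (norm_nonneg _) ((norm_nonneg _).trans (hC s))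

omit [IsProbabilityMeasure μ] in
theorem BM.av (h : AEFlow μ φ X0) {B L : ℝ} {f : X → ℂ} (hf : BM X0 B f) (hL : 0 < L) (c : ℝ) :
    BM X0 B (Av φ L c f) := by
  have h1 := hf.op h (volume.restrict (Ioc 0 L)) (SpecA_mk L c) (C := L⁻¹) fun s => by
    rw [norm_mul, ex_norm, mul_one, norm_inv, Complex.norm_real, Real.norm_of_nonneg hL.le]
  have h2 : L⁻¹ * B * (volume.restrict (Ioc 0 L)).real univ = B := by
    rw [measureReal_restrict_apply_univ, Real.volume_real_Ioc_of_le hL.le, sub_zero]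
    field_simp
  rw [h2] at h1
  rw [Av_eq_Op hL]
  exact h1

omit [IsProbabilityMeasure μ] in
theorem BM.fs (h : AEFlow μ φ X0) {B : ℝ} {f : X → ℂ} (hf : BM X0 B f) {n : ℕ} (a : Fin n → ℂ)
    (t : Fin n → ℝ) : BM X0 ((∑ i, ‖a i‖) * B) (FS φ a t f) := by
  refine ⟨measurable_FS h.meas a t hf.1, fun x hx => ?_⟩
  rw [FS, Finset.sum_mul]
  refine (norm_sum_le _ _).trans (Finset.sum_le_sum fun i _ => ?_)
  rw [norm_mul]
  exact mul_le_mul_of_nonneg_left (hf.2 _ (h.inv _ x hx)) (norm_nonneg _)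

/-- pointwise Cauchy-Schwarz for the average (no flow property is needed) -/
theorem norm_Av_sq_le (hm : Measurable (fun p : ℝ × X => φ p.1 p.2)) {B L : ℝ} (hL : 0 < L)
    (c : ℝ) {f : X → ℂ} (hf : Measurable f) (x : X) (hB : ∀ s ∈ Icc 0 L, ‖f (φ s x)‖ ≤ B) :
    ‖Av φ L c f x‖ ^ 2 ≤ L⁻¹ * ∫ s in (0 : ℝ)..L, ‖f (φ s x)‖ ^ 2 := by
  have hg : Measurable fun s => ‖f (φ s x)‖ := (hf.comp (SpecA_ms hm x)).norm
  have hI : uIoc 0 L ⊆ Icc 0 L := by
    rw [uIoc_of_le hL.le]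
    exact Ioc_subset_Icc_self
  have i1 : IntervalIntegrable (fun s => ‖f (φ s x)‖) volume 0 L :=
    SpecA_ii hg (C := B) fun s hs => by
      rw [norm_norm]
      exact hB s (hI hs)
  have i2 : IntervalIntegrable (fun s => ‖f (φ s x)‖ ^ 2) volume 0 L :=
    SpecA_ii (hg.pow_const 2) (C := B ^ 2) fun s hs => by
      rw [norm_pow, norm_norm]
      exact pow_le_pow_left₀ (norm_nonneg _) (hB s (hI hs)) 2
  obtain ⟨a, ha⟩ : ∃ a, a = L⁻¹ * ∫ s in (0 : ℝ)..L, ‖f (φ s x)‖ := ⟨_, rfl⟩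
  have h1 : ‖Av φ L c f x‖ ≤ a := by
    rw [ha, Av, norm_mul, norm_inv, Complex.norm_real, Real.norm_of_nonneg hL.le]
    refine mul_le_mul_of_nonneg_left ?_ (inv_nonneg.2 hL.le)
    refine (intervalIntegral.norm_integral_le_integral_norm hL.le).trans_eq ?_
    simp only [norm_mul, ex_norm, one_mul]
  have h2 : ∫ s in (0 : ℝ)..L, ‖f (φ s x)‖ = a * L := by
    rw [ha]
    field_simp
  have h3 : 0 ≤ ∫ s in (0 : ℝ)..L, (‖f (φ s x)‖ ^ 2 - 2 * a * ‖f (φ s x)‖ + a ^ 2) :=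
    intervalIntegral.integral_nonneg hL.le fun s _ => by nlinarith [sq_nonneg (‖f (φ s x)‖ - a)]
  rw [intervalIntegral.integral_add (i2.sub (i1.const_mul _)) intervalIntegrable_const,
    intervalIntegral.integral_sub i2 (i1.const_mul _), intervalIntegral.integral_const_mul, h2,
    intervalIntegral.integral_const, sub_zero, smul_eq_mul] at h3
  refine (pow_le_pow_left₀ (norm_nonneg _) h1 2).trans ?_
  rw [inv_mul_eq_div, le_div_iff₀ hL]
  nlinarith

omit [IsProbabilityMeasure μ] in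
theorem AEFlow.integral_comp (h : AEFlow μ φ X0) {f : X → ℂ} (hf : Measurable f) (t : ℝ) :
    ∫ x, f (φ t x) ∂μ = ∫ x, f x ∂μ := by
  rw [← integral_map (h.mp t).measurable.aemeasurable hf.aestronglyMeasurable, (h.mp t).map_eq]

omit [IsProbabilityMeasure μ] in
/-- write `f (φ s x) = f (φ (s - t) (φ t x))` on `X0` and use that `φ t` preserves `μ` -/
theorem AEFlow.corr (h : AEFlow μ φ X0) {f g : X → ℂ} (hf : Measurable f) (hg : Measurable g)
    (s t : ℝ) :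
    ∫ x, f (φ s x) * conj (g (φ t x)) ∂μ = ∫ x, f (φ (s - t) x) * conj (g x) ∂μ := by
  have h1 : Measurable fun x => f (φ (s - t) x) * conj (g x) :=
    (hf.comp (h.mp _).measurable).mul (Complex.continuous_conj.measurable.comp hg)
  rw [← h.integral_comp h1 t]
  refine integral_congr_ae (h.ae.mono fun x hx => ?_)
  simp only [h.add _ _ x hx, sub_add_cancel]

/-- `norm_Av_sq_le`, Fubini, `nsq_comp` -/
theorem nsq_av_le (h : AEFlow μ φ X0) {B L : ℝ} {f : X → ℂ} (hf : BM X0 B f) (hL : 0 < L)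
    (c : ℝ) : nsq μ (Av φ L c f) ≤ nsq μ f := by
  have hi : Integrable (Function.uncurry fun x s => ‖f (φ s x)‖ ^ 2)
      (μ.prod (volume.restrict (Ioc 0 L))) :=
    SpecA_int h.ae ((hf.1.comp (h.meas.comp measurable_swap)).norm.pow_const 2) (C := B ^ 2)
      fun x hx s => by
        rw [norm_pow, norm_norm]
        exact pow_le_pow_left₀ (norm_nonneg _) (hf.2 _ (h.inv s x hx)) 2
  have h1 : nsq μ (Av φ L c f) ≤ ∫ x, L⁻¹ * (∫ s in Ioc 0 L, ‖f (φ s x)‖ ^ 2) ∂μ := by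
    refine integral_mono_of_nonneg (Eventually.of_forall fun x => sq_nonneg _)
      (hi.integral_prod_left.const_mul _) (h.ae.mono fun x hx => ?_)
    have h2 := norm_Av_sq_le h.meas hL c hf.1 x fun s _ => hf.2 _ (h.inv s x hx)
    rwa [intervalIntegral.integral_of_le hL.le] at h2
  refine h1.trans_eq ?_
  have h3 : ∀ s, ∫ x, ‖f (φ s x)‖ ^ 2 ∂μ = nsq μ f := fun s => nsq_comp hf.1 (h.mp s)
  rw [integral_const_mul, integral_integral_swap hi]
  simp only [h3]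
  rw [setIntegral_const, Real.volume_real_Ioc_of_le hL.le, sub_zero, smul_eq_mul,
    inv_mul_cancel_left₀ hL.ne']

theorem SpecA_av {ν : Measure X} [IsFiniteMeasure ν] (h : AEFlow ν φ X0) {B L : ℝ} {f : X → ℂ}
    (hf : BM X0 B f) (hL : 0 < L) (c : ℝ) :
    ∫ x, Av φ L c f x ∂ν = Dk (L * (-c)) * ∫ x, f x ∂ν := by
  have hi : Integrable (Function.uncurry fun x s => ex (-(c * s)) * f (φ s x))
      (ν.prod (volume.restrict (Ioc 0 L))) :=
    SpecA_int (F := fun x s => ex (-(c * s)) * f (φ s x)) h.ae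
      (((SpecA_me c).comp measurable_snd).mul
      (hf.1.comp (h.meas.comp measurable_swap))) (C := B) fun x hx s => by
        rw [norm_mul, ex_norm, one_mul]
        exact hf.2 _ (h.inv s x hx)
  simp only [Av, intervalIntegral.integral_of_le hL.le]
  rw [integral_const_mul, integral_integral_swap hi]
  simp only [integral_const_mul, h.integral_comp hf.1]
  rw [integral_mul_const, ← mul_assoc, ← Dk_eq_avg L (-c) hL, intervalIntegral.integral_of_le hL.le]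
  simp only [mul_neg, mul_comm c]

/-- Fubini -/
theorem integral_av (h : AEFlow μ φ X0) {B L : ℝ} {f : X → ℂ} (hf : BM X0 B f) (hL : 0 < L)
    (c : ℝ) : ∫ x, Av φ L c f x ∂μ = Dk (L * (-c)) * ∫ x, f x ∂μ := SpecA_av h hf hL c

/-- `φ s` preserves `μ.restrict P` (`MeasurePreserving.restrict_preimage` and
`φ s ⁻¹' P =ᵐ P`), then Fubini. -/
theorem setIntegral_av0 (h : AEFlow μ φ X0) {B L : ℝ} {f : X → ℂ} (hf : BM X0 B f) (hL : 0 < L)
    {P : Set X} (hP : MeasurableSet P) (hinv : ∀ s, ∀ x ∈ X0, φ s x ∈ P ↔ x ∈ P) :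
    ∫ x in P, Av φ L 0 f x ∂μ = ∫ x in P, f x ∂μ := by
  have h1 : AEFlow (μ.restrict P) φ X0 := by
    refine ⟨h.meas, fun t => ?_, ae_restrict_of_ae h.ae, h.inv, h.add, h.zero⟩
    have h2 := (h.mp t).restrict_preimage hP
    have h3 : φ t ⁻¹' P =ᵐ[μ] P := h.ae.mono fun x hx => propext (hinv t x hx)
    rwa [Measure.restrict_congr_set h3] at h2
  rw [SpecA_av h1 hf hL 0, neg_zero, mul_zero, Dk_zero, one_mul]

omit [IsProbabilityMeasure μ] in
/-- for `x ∈ X0` the two averages are integrals of the same function over `[t, L + t]` and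
`[0, L]`. -/
theorem Av_shift_le (h : AEFlow μ φ X0) {B L : ℝ} {f : X → ℂ} (hf : BM X0 B f) (hL : 0 < L)
    (c t : ℝ) {x : X} (hx : x ∈ X0) :
    ‖Av φ L c f (φ t x) - ex (c * t) * Av φ L c f x‖ ≤ 2 * |t| * B / L := by
  obtain ⟨G, hG⟩ : ∃ G : ℝ → ℂ, G = fun u => ex (-(c * u)) * f (φ u x) := ⟨_, rfl⟩
  have hb : ∀ u, ‖G u‖ ≤ B := fun u => by
    rw [hG, norm_mul, ex_norm, one_mul]
    exact hf.2 _ (h.inv u x hx)
  have hm : Measurable G := by
    rw [hG]
    exact (SpecA_me c).mul (hf.1.comp (SpecA_ms h.meas x))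
  have hi : ∀ a b, IntervalIntegrable G volume a b := fun a b => SpecA_ii hm fun s _ => hb s
  have h1 : Av φ L c f (φ t x) = ex (c * t) * ((L : ℂ)⁻¹ * ∫ u in t..L + t, G u) := by
    have h2 := intervalIntegral.integral_comp_add_right G (a := 0) (b := L) t
    rw [zero_add] at h2
    rw [← h2, mul_left_comm, ← intervalIntegral.integral_const_mul, Av]
    congr 1
    refine intervalIntegral.integral_congr fun s _ => ?_
    simp only [hG, h.add _ _ x hx, ← mul_assoc, ← ex_add]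
    congr 2
    ring
  have h3 : Av φ L c f x = (L : ℂ)⁻¹ * ∫ u in (0 : ℝ)..L, G u := by rw [hG, Av]
  rw [h1, h3, ← mul_sub, ← mul_sub, norm_mul, norm_mul, ex_norm, one_mul, norm_inv,
    Complex.norm_real, Real.norm_of_nonneg hL.le,
    intervalIntegral.integral_interval_sub_interval_comm' (hi _ _) (hi _ _) (hi _ _),
    inv_mul_eq_div]
  refine div_le_div_of_nonneg_right ((norm_sub_le _ _).trans ?_) hL.le
  have h4 := intervalIntegral.norm_integral_le_of_norm_le_const (a := L) (b := L + t)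
    fun s _ => hb s
  have h5 := intervalIntegral.norm_integral_le_of_norm_le_const (a := 0) (b := t) fun s _ => hb s
  rw [add_sub_cancel_left] at h4
  rw [sub_zero] at h5
  linarith

end Pool.Agent.MP_b29402_an

end

-- part MP_b29402_an.Fam1
section

/-! Closure properties of families. -/

open MeasureTheory Set Filter Topology ProbabilityTheory
open scoped ComplexConjugate ENNReal

namespace Pool.Agent.MP_b29402_an

theorem Fam1_scale {S S' : ℝ} (h0 : 0 ≤ S) (h : S ≤ S') (v : P2) :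
    ∃ t : ℝ, 0 ≤ t ∧ t ≤ 1 ∧ S • v = t • S' • v := by
  rcases (h0.trans h).eq_or_lt with e | e
  · exact ⟨1, zero_le_one, le_rfl, by rw [one_smul, le_antisymm h (e ▸ h0)]⟩
  · exact ⟨S / S', by positivity, (div_le_one e).2 h, by rw [smul_smul, div_mul_cancel₀ _ e.ne']⟩

theorem Fam1_conv {K : Set P2} (hK : Convex ℝ K) {p v : P2} (hp : p ∈ K) {S S' : ℝ} (h0 : 0 ≤ S)
    (h : S ≤ S') (hv : p + S' • v ∈ K) : p + S • v ∈ K := by
  obtain ⟨t, t0, t1, e⟩ := Fam1_scale h0 h v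
  rw [e]
  exact hK.add_smul_mem hp hv ⟨t0, t1⟩

theorem Fam1_conv0 {K : Set P2} (hK : Convex ℝ K) {v : P2} (hp : (0 : P2) ∈ K) {S S' : ℝ}
    (h0 : 0 ≤ S) (h : S ≤ S') (hv : S' • v ∈ K) : S • v ∈ K := by
  simpa using Fam1_conv hK hp h0 h (v := v) (by simpa using hv)

theorem Fam1_avg {L C : ℝ} (hL : 0 < L) (c : ℝ) {g : ℝ → ℂ}
    (hg : ∀ s, 0 ≤ s → s ≤ L → ‖g s‖ ≤ C) :
    ‖(L : ℂ)⁻¹ * ∫ s in (0 : ℝ)..L, ex (-(c * s)) * g s‖ ≤ C := by
  have h := intervalIntegral.norm_integral_le_of_norm_le_const (a := 0) (b := L) (C := C)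
    (f := fun s => ex (-(c * s)) * g s) fun s hs => by
      rw [uIoc_of_le hL.le] at hs
      rw [norm_mul, ex_norm, one_mul]
      exact hg s hs.1.le hs.2
  rw [sub_zero, abs_of_pos hL] at h
  rw [norm_mul, norm_inv, Complex.norm_real, Real.norm_eq_abs, abs_of_pos hL,
    inv_mul_le_iff₀ hL, mul_comm]
  exact h

theorem Fam1_int {L C : ℝ} (hL : 0 < L) (c : ℝ) {g : ℝ → ℂ} (hm : Measurable g)
    (hg : ∀ s, 0 ≤ s → s ≤ L → ‖g s‖ ≤ C) :
    IntervalIntegrable (fun s => ex (-(c * s)) * g s) volume 0 L := by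
  rw [intervalIntegrable_iff_integrableOn_Ioc_of_le hL.le]
  have hc : Continuous fun s : ℝ => ex (-(c * s)) := ex_continuous.comp (by fun_prop)
  refine Measure.integrableOn_of_bounded (M := C) measure_Ioc_lt_top.ne
    (hc.measurable.mul hm).aestronglyMeasurable ?_
  refine (ae_restrict_mem measurableSet_Ioc).mono fun s hs => ?_
  rw [norm_mul, ex_norm, one_mul]
  exact hg s hs.1.le hs.2

theorem Fam1_sum {n : ℕ} (a : Fin n → ℂ) {g : Fin n → ℂ} {C : ℝ} (hg : ∀ i, ‖g i‖ ≤ C) :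
    ‖∑ i, a i * g i‖ ≤ (∑ i, ‖a i‖) * C := by
  rw [Finset.sum_mul]
  refine norm_sum_le_of_le _ fun i _ => ?_
  rw [norm_mul]
  exact mul_le_mul_of_nonneg_left (hg i) (norm_nonneg _)

namespace Flat

variable {X : Type*} [MeasurableSpace X] {Z : Flat X} {Θ : Set ℝ} {S Λ B : ℝ} {F : ℝ → X → ℂ}

theorem Fam1_short {x : X} {v : P2} {S S' : ℝ} (h0 : 0 ≤ S) (h : S ≤ S') (hv : S' • v ∈ Z.D x) :
    S • v ∈ Z.D x := by
  obtain ⟨t, t0, t1, e⟩ := Fam1_scale h0 h v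
  rw [e]
  exact Z.star x _ hv t t0 t1

theorem Fam1_move {x : X} {K : Set P2} (hK : Convex ℝ K) (hD : K ⊆ Z.D x) (h0 : (0 : P2) ∈ K)
    {a v : P2} (ha : a ∈ K) (hv : a + v ∈ K) :
    v ∈ Z.D (Z.mv x a) ∧ Z.mv (Z.mv x a) v = Z.mv x (a + v) := by
  simpa using Z.conv x K hK h0 hD a ha _ hv

theorem Fam.mono_set (h : Z.Fam Θ S Λ B F) {Θ' : Set ℝ} (hΘ : Θ' ⊆ Θ) : Z.Fam Θ' S Λ B F :=
  ⟨h.hS, h.hΛ, h.hB, h.meas, fun θ hθ => h.bd θ (hΘ hθ),
    fun θ₁ h1 θ₂ h2 => h.lip θ₁ (hΘ h1) θ₂ (hΘ h2)⟩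

/-- shorter segments lie in `D x` (`star`) and in `K` (convexity) -/
theorem Fam.mono (h : Z.Fam Θ S Λ B F) {S' Λ' B' : ℝ} (hS : S ≤ S') (hΛ : Λ ≤ Λ') (hB : B ≤ B') :
    Z.Fam Θ S' Λ' B' F := by
  refine ⟨h.hS.trans hS, h.hΛ.trans hΛ, h.hB.trans hB, h.meas, fun θ hθ x hx =>
    (h.bd θ hθ x (Fam1_short h.hS hS hx)).trans hB, ?_⟩
  intro θ₁ h1 θ₂ h2 x a K hK hD h0 k1 ha k2
  refine (h.lip θ₁ h1 θ₂ h2 x a K hK hD h0 (Fam1_conv0 hK h0 h.hS hS k1) ha
    (Fam1_conv hK ha h.hS hS k2)).trans ?_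
  have hs := h.hS
  exact mul_le_mul hΛ (by gcongr) (by positivity) (h.hΛ.trans hΛ)

theorem Fam.improve (h : Z.Fam Θ S Λ B F) {B' : ℝ} (hB : 0 ≤ B')
    (hb : ∀ θ ∈ Θ, ∀ x, S • ev θ ∈ Z.D x → ‖F θ x‖ ≤ B') : Z.Fam Θ S Λ B' F :=
  ⟨h.hS, h.hΛ, hB, h.meas, hb, h.lip⟩

theorem Fam.bm (h : Z.Fam Θ S Λ B F) {θ : ℝ} (hθ : θ ∈ Θ) : BM (Z.X0 θ) B (F θ) :=
  ⟨h.meas θ, fun x hx => h.bd θ hθ x (hx S)⟩

theorem Fam.ab (h : Z.Fam Θ S Λ B F) {θ : ℝ} (hθ : θ ∈ Θ) : AB Z.μ B (F θ) :=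
  ⟨h.meas θ, (Z.aeflow θ).ae.mono fun x hx => h.bd θ hθ x (hx S)⟩

theorem fam_of_segLip {L : ℝ} (hL : 0 ≤ L) (hB : 0 ≤ B) {h : X → ℂ} (hm : Measurable h)
    (hb : ∀ x, ‖h x‖ ≤ B) (hl : Z.SegLip L h) (Θ : Set ℝ) : Z.Fam Θ 0 L B (fun _ => h) := by
  refine ⟨le_rfl, hL, hB, fun _ => hm, fun _ _ x _ => hb x, ?_⟩
  intro θ₁ _ θ₂ _ x a K _ hD _ _ ha _
  rw [zero_mul, add_zero, norm_sub_rev]
  exact hl x a (hD ha)

theorem Fam.smul (h : Z.Fam Θ S Λ B F) (z : ℂ) :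
    Z.Fam Θ S (‖z‖ * Λ) (‖z‖ * B) (fun θ x => z * F θ x) := by
  have h1 := h.hΛ
  have h2 := h.hB
  refine ⟨h.hS, by positivity, by positivity, fun θ => (h.meas θ).const_mul z,
    fun θ hθ x hx => ?_, ?_⟩
  · rw [norm_mul]
    exact mul_le_mul_of_nonneg_left (h.bd θ hθ x hx) (norm_nonneg z)
  · intro θ₁ t1 θ₂ t2 x a K hK hD h0 k1 ha k2
    rw [← mul_sub, norm_mul, mul_assoc]
    exact mul_le_mul_of_nonneg_left (h.lip θ₁ t1 θ₂ t2 x a K hK hD h0 k1 ha k2) (norm_nonneg z)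

/-- `|‖u‖² - ‖v‖²| ≤ 2 B ‖u - v‖`; the bound at `mv x a` holds as `S • ev θ₂ ∈ D (mv x a)` (`conv`). -/
theorem Fam.normsq (h : Z.Fam Θ S Λ B F) :
    Z.Fam Θ S (2 * B * Λ) (B ^ 2) (fun θ x => ((‖F θ x‖ ^ 2 : ℝ) : ℂ)) := by
  have h1 := h.hΛ
  have h2 := h.hB
  refine ⟨h.hS, by positivity, by positivity, fun θ => ?_, fun θ hθ x hx => ?_, ?_⟩
  · exact Complex.measurable_ofReal.comp ((h.meas θ).norm.pow_const 2)
  · rw [Complex.norm_real, Real.norm_eq_abs, abs_of_nonneg (by positivity)]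
    exact pow_le_pow_left₀ (norm_nonneg _) (h.bd θ hθ x hx) 2
  · intro θ₁ t1 θ₂ t2 x a K hK hD h0 k1 ha k2
    have b1 := h.bd θ₁ t1 x (hD k1)
    have b2 := h.bd θ₂ t2 _ (Fam1_move hK hD h0 ha k2).1
    have b3 := h.lip θ₁ t1 θ₂ t2 x a K hK hD h0 k1 ha k2
    have b4 := abs_norm_sub_norm_le (F θ₁ x) (F θ₂ (Z.mv x a))
    rw [← Complex.ofReal_sub, Complex.norm_real, Real.norm_eq_abs, sq_sub_sq, abs_mul,
      abs_of_nonneg (by positivity), mul_assoc]
    exact mul_le_mul (by linarith) (b4.trans b3) (abs_nonneg _) (by positivity)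

/-- The key step. `x' = mv x (s • ev θ₁)`, `a' = a + s • ev θ₂ - s • ev θ₁`, `K' = {w | s • ev θ₁ + w ∈ K}`
(`shift_subset`), `mv x' a' = mv x (a + s • ev θ₂) = mv (mv x a) (s • ev θ₂)` (`conv`). -/
theorem Fam.shift (h : Z.Fam Θ S Λ B F) {s S' : ℝ} (h0 : 0 ≤ s) (hs : s ≤ S') :
    Z.Fam Θ (S + S') Λ B (fun θ x => F θ (Z.fl θ s x)) := by
  have hS := h.hS
  refine ⟨by linarith, h.hΛ, h.hB, fun θ => (h.meas θ).comp (Z.measurable_mv_left _),
    fun θ hθ x hx => ?_, ?_⟩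
  · exact h.bd θ hθ _ (ray_conv hS h0 (Fam1_short (by linarith) (by linarith) hx)).1
  · intro θ₁ t1 θ₂ t2 x a K hK hD k0 k1 ha k2
    have m1 : s • ev θ₁ ∈ K := Fam1_conv0 hK k0 h0 (by linarith) k1
    have m2 : a + s • ev θ₂ ∈ K := Fam1_conv hK ha h0 (by linarith) k2
    have m3 : (s + S) • ev θ₁ ∈ K := Fam1_conv0 hK k0 (by linarith) (by linarith) k1
    have m4 : a + (s + S) • ev θ₂ ∈ K := Fam1_conv hK ha (by linarith) (by linarith) k2
    have hK' : Convex ℝ {w | s • ev θ₁ + w ∈ K} := hK.translate_preimage_right _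
    have key := h.lip θ₁ t1 θ₂ t2 (Z.mv x (s • ev θ₁)) (a + s • ev θ₂ - s • ev θ₁) _ hK'
      (shift_subset hK k0 hD m1) (by simpa using m1) (by simpa [add_smul] using m3)
      (by simpa using m2) (by
        have e : s • ev θ₁ + (a + s • ev θ₂ - s • ev θ₁ + S • ev θ₂) = a + (s + S) • ev θ₂ := by
          rw [add_smul]; abel
        change _ + _ ∈ K
        rw [e]; exact m4)
    rw [(Z.conv x K hK k0 hD _ m1 _ m2).2] at key
    change ‖F θ₁ (Z.mv x (s • ev θ₁)) - F θ₂ (Z.mv (Z.mv x a) (s • ev θ₂))‖ ≤ _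
    rw [(Fam1_move hK hD k0 ha m2).2]
    refine key.trans (mul_le_mul_of_nonneg_left ?_ h.hΛ)
    have e : a + s • ev θ₂ - s • ev θ₁ = a - s • (ev θ₁ - ev θ₂) := by
      rw [smul_sub]; abel
    have n1 := norm_sub_le a (s • (ev θ₁ - ev θ₂))
    rw [norm_smul, Real.norm_eq_abs, abs_of_nonneg h0] at n1
    have n2 := mul_le_mul_of_nonneg_right hs (norm_nonneg (ev θ₁ - ev θ₂))
    rw [e]
    linarith

/-- `Fam.shift` under the integral, `measurable_Av`; integrability from measurability and the bound -/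
theorem Fam.av (h : Z.Fam Θ S Λ B F) {L : ℝ} (hL : 0 < L) (c : ℝ) :
    Z.Fam Θ (S + L) Λ B (Z.AvF L c F) := by
  have hS := h.hS
  have hm : ∀ θ x, Measurable fun s => F θ (Z.fl θ s x) := fun θ x =>
    (h.meas θ).comp ((Z.aeflow θ).meas.comp (measurable_id.prodMk measurable_const))
  refine ⟨by linarith, h.hΛ, h.hB, fun θ => measurable_Av (Z.aeflow θ).meas hL c (h.meas θ),
    fun θ hθ x hx => ?_, ?_⟩
  · exact Fam1_avg hL c fun s s0 s1 => (h.shift s0 s1).bd θ hθ x hx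
  · intro θ₁ t1 θ₂ t2 x a K hK hD k0 k1 ha k2
    have i1 := Fam1_int hL c (hm θ₁ x) fun s s0 s1 => (h.shift s0 s1).bd θ₁ t1 x (hD k1)
    have i2 := Fam1_int hL c (hm θ₂ (Z.mv x a)) fun s s0 s1 =>
      (h.shift s0 s1).bd θ₂ t2 _ (Fam1_move hK hD k0 ha k2).1
    simp only [AvF, Av]
    rw [← mul_sub, ← intervalIntegral.integral_sub i1 i2]
    simp only [← mul_sub]
    exact Fam1_avg hL c fun s s0 s1 => (h.shift s0 s1).lip θ₁ t1 θ₂ t2 x a K hK hD k0 k1 ha k2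

theorem Fam.av_iter (h : Z.Fam Θ S Λ B F) {L : ℝ} (hL : 0 < L) (c : ℝ) (n : ℕ) :
    Z.Fam Θ (S + n * L) Λ B ((Z.AvF L c)^[n] F) := by
  induction n with
  | zero => simpa using h
  | succ n ih =>
    rw [Function.iterate_succ_apply', show S + ((n + 1 : ℕ) : ℝ) * L = S + n * L + L by
      push_cast; ring]
    exact ih.av hL c

theorem avF_iter_apply (L c : ℝ) (n : ℕ) (F : ℝ → X → ℂ) (θ : ℝ) :
    (Z.AvF L c)^[n] F θ = (Av (Z.fl θ) L c)^[n] (F θ) := by
  induction n with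
  | zero => rfl
  | succ n ih => rw [Function.iterate_succ_apply', Function.iterate_succ_apply', ← ih]; rfl

theorem Fam.fs (h : Z.Fam Θ S Λ B F) {n : ℕ} (a : Fin n → ℂ) {t : Fin n → ℝ} {S' : ℝ}
    (hS : 0 ≤ S') (h0 : ∀ i, 0 ≤ t i) (ht : ∀ i, t i ≤ S') :
    Z.Fam Θ (S + S') ((∑ i, ‖a i‖) * Λ) ((∑ i, ‖a i‖) * B) (Z.FSF a t F) := by
  have h1 := h.hS
  have h2 := h.hΛ
  have h3 := h.hB
  have h4 : 0 ≤ ∑ i, ‖a i‖ := Finset.sum_nonneg fun i _ => norm_nonneg _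
  refine ⟨by linarith, by positivity, by positivity,
    fun θ => measurable_FS (Z.aeflow θ).meas a t (h.meas θ), fun θ hθ x hx => ?_, ?_⟩
  · exact Fam1_sum a fun i => (h.shift (h0 i) (ht i)).bd θ hθ x hx
  · intro θ₁ t1 θ₂ t2 x b K hK hD k0 k1 hb k2
    simp only [FSF, FS]
    rw [← Finset.sum_sub_distrib, mul_assoc]
    simp only [← mul_sub]
    exact Fam1_sum a fun i => (h.shift (h0 i) (ht i)).lip θ₁ t1 θ₂ t2 x b K hK hD k0 k1 hb k2

end Flat

end Pool.Agent.MP_b29402_an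

end
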