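import Pool.Agent.MP_b29402_an.Mg.Act
import Pool.Agent.MP_b29402_an.Mg.Fam1

-- part MP_b29402_an.PE3
section

/-! Poincare inequality on thick surfaces. -/

open MeasureTheory Set Filter Topology ProbabilityTheory
open scoped ComplexConjugate ENNReal

namespace Pool.Agent.MP_b29402_an

namespace Flat

variable {X : Type*} [MeasurableSpace X]

/-- `π` from `exists_retraction` with `R = 4 t`, `s` from `exists_net`, `Φ = lavg t G ∘ π`, `Δ = 2 η / t`,
`gap` with the values of `lavg` on the net (`NearInv.lavg_close`). -/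
theorem NearInv.osc {Z : Flat X} {B η t ε : ℝ} {G : X → ℝ} (h : Z.NearInv B η G) (hη : 0 < η)
    (hT : Z.Thick ε) (ht : 0 < t) (ht1 : 2 * t ≤ 1) (hε : 8 * t ≤ ε) {x y : X}
    (hx : x ∈ Z.Good (4 * t)) (hy : y ∈ Z.Good (4 * t)) :
    |Z.lavg t G x - Z.lavg t G y| ≤ 8 * η / t * (1 / t ^ 2 + 1) := by
  classical
  have hε' : t ≤ ε := by linarith
  obtain ⟨π, p1, p2, p3⟩ := exists_retraction (R := 4 * t) hT (by positivity) (by linarith) ht
  obtain ⟨s, s1, s2, s3⟩ := exists_net hT ht hε'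
  have hq : 0 < η / t := by positivity
  have key : ∀ {x y : X}, x ∈ Z.Good (4 * t) → y ∈ Z.Good (4 * t) →
      Z.lavg t G x - Z.lavg t G y ≤ 8 * η / t * (1 / t ^ 2 + 1) := by
    intro x y hx hy
    have r : ∀ {z : X}, z ∈ Z.Good (4 * t) → Z.reg z := fun hz =>
      hz (Metric.mem_ball_self (by positivity))
    have g := gap (Z := Z) (Φ := fun z => Z.lavg t G (π z)) (Δ := 2 * (η / t)) (by positivity)
      (s.image (Z.lavg t G)) (fun z hz => by
        obtain ⟨w, hw, a, ha, e⟩ := s3 _ (p1 z hz)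
        refine ⟨_, Finset.mem_image_of_mem _ hw, ?_⟩
        have := h.lavg_close hη.le hT ht ht1 hε' (s2 w hw) (a := a) (by linarith)
        rw [e, abs_sub_comm]
        linarith) (fun z hz => by
        obtain ⟨d, hd, hd'⟩ := p3 z hz
        refine ⟨d, hd, fun a ha ha' => ?_⟩
        obtain ⟨a', h1, h2⟩ := hd' a ha ha'
        have := h.lavg_close hη.le hT ht ht1 hε' (p1 z hz) (a := a') (by linarith)
        rw [h2]
        linarith) (r hx) (r hy)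
    simp only [p2 x hx, p2 y hy] at g
    have c : ((s.image (Z.lavg t G)).card : ℝ) ≤ 1 / t ^ 2 :=
      le_trans (by exact_mod_cast Finset.card_image_le) s1
    calc _ ≤ 4 * (2 * (η / t)) * (((s.image (Z.lavg t G)).card : ℝ) + 1) := g
      _ ≤ 4 * (2 * (η / t)) * (1 / t ^ 2 + 1) := by gcongr
      _ = _ := by ring
  exact abs_sub_le_iff.2 ⟨key hx hy, key hy hx⟩

theorem PE3_int {μ : Measure X} [IsFiniteMeasure μ] {f : X → ℝ} (hf : Measurable f) (C : ℝ)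
    (h : ∀ x, |f x| ≤ C) : Integrable f μ :=
  Integrable.of_bound hf.aestronglyMeasurable C (Eventually.of_forall h)

theorem PE3_sq {a b B : ℝ} (ha : |a| ≤ B) (hb : |b| ≤ B) : |(a - b) ^ 2| ≤ 4 * B ^ 2 := by
  rw [abs_of_nonneg (sq_nonneg _)]
  obtain ⟨h1, h2⟩ := abs_le.1 ha
  obtain ⟨h3, h4⟩ := abs_le.1 hb
  nlinarith

theorem PE3_var {μ : Measure X} [IsProbabilityMeasure μ] {G : X → ℝ} {B κ : ℝ} (hG : Measurable G)
    (hb : ∀ x, |G x| ≤ B) (hκ : |κ| ≤ B) :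
    ∫ x, (G x - ∫ z, G z ∂μ) ^ 2 ∂μ ≤ ∫ x, (G x - κ) ^ 2 ∂μ := by
  have i1 : Integrable G μ := PE3_int hG B hb
  have i2 : Integrable (fun x => (G x - κ) ^ 2) μ :=
    PE3_int ((hG.sub_const κ).pow_const 2) _ fun x => PE3_sq (hb x) hκ
  set m := ∫ z, G z ∂μ with hm
  have e : (fun x => (G x - m) ^ 2) =
      fun x => ((G x - κ) ^ 2 + (2 * (κ - m)) * G x) + (m ^ 2 - κ ^ 2) := by
    funext x; ring
  have i3 : Integrable (fun x => (2 * (κ - m)) * G x) μ := i1.const_mul _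
  have i4 : Integrable (fun x => (G x - κ) ^ 2 + (2 * (κ - m)) * G x) μ := i2.add i3
  rw [e, integral_add i4 (integrable_const _), integral_add i2 i3, integral_const_mul,
    integral_const, ← hm]
  simp only [probReal_univ, smul_eq_mul, one_mul]
  nlinarith [sq_nonneg (κ - m)]

/-- Choose `t ≤ min (1/2) (ε/8)` with `256 (B² + 1) (N + 1) t² ≤ min (δ²/2) (1/2)` (then `Good (4 t)` is nonempty,
`measure_not_good`), then `η` with `8 η² + 2 (8 η / t (1/t² + 1))² ≤ δ²/2`. With `κ = lavg t G x0`: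
`∫ (G - ∫ G)² ≤ ∫ (G - κ)² ≤ ∫_{Good} (2 (G - lavg)² + 2 osc²) + 4 B² μ (Goodᶜ)`. -/
theorem poincare (N : ℕ) {ε B δ : ℝ} (hε : 0 < ε) (hδ : 0 < δ) :
    ∃ η : ℝ, 0 < η ∧ ∀ Z : Flat X, Z.N = N → Z.Thick ε → ∀ G : X → ℝ, Z.NearInv B η G →
      ∫ x, (G x - ∫ z, G z ∂Z.μ) ^ 2 ∂Z.μ ≤ δ ^ 2 := by
  obtain ⟨M, hM⟩ : ∃ M : ℝ, M = 256 * (B ^ 2 + 1) * (N + 1) := ⟨_, rfl⟩
  have M0 : 0 < M := by rw [hM]; positivity
  obtain ⟨c, hc⟩ : ∃ c : ℝ, c = min (δ ^ 2 / 2) (1 / 2) := ⟨_, rfl⟩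
  have c0 : 0 < c := by rw [hc]; positivity
  have c1 : c ≤ δ ^ 2 / 2 := hc ▸ min_le_left _ _
  have c2 : c ≤ 1 / 2 := hc ▸ min_le_right _ _
  obtain ⟨t, ht⟩ : ∃ t : ℝ, t = min (min (1 / 2) (ε / 8)) (c / M) := ⟨_, rfl⟩
  have t0 : 0 < t := by rw [ht]; positivity
  have t1 : t ≤ 1 / 2 := ht ▸ (min_le_left _ _).trans (min_le_left _ _)
  have t2 : t ≤ ε / 8 := ht ▸ (min_le_left _ _).trans (min_le_right _ _)
  have t3 : t ≤ c / M := ht ▸ min_le_right _ _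
  have t4 : M * t ^ 2 ≤ c := by
    have := (le_div_iff₀ M0).1 t3
    nlinarith [mul_pos t0 M0]
  obtain ⟨K, hK⟩ : ∃ K : ℝ, K = 8 / t * (1 / t ^ 2 + 1) := ⟨_, rfl⟩
  have K0 : 0 < K := by rw [hK]; positivity
  obtain ⟨η, hη⟩ : ∃ η : ℝ, η = δ / (2 * (K + 2)) := ⟨_, rfl⟩
  have η0 : 0 < η := by rw [hη]; positivity
  have η1 : 8 * η ^ 2 + 2 * (K * η) ^ 2 ≤ δ ^ 2 / 2 := by
    have : η * (2 * (K + 2)) = δ := by rw [hη]; field_simp
    rw [← this]
    nlinarith [mul_pos K0 (pow_pos η0 2)]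
  refine ⟨η, η0, fun Z hN hT G h => ?_⟩
  have N0 : (0 : ℝ) ≤ N := Nat.cast_nonneg N
  have hb := Z.measure_not_good (r := 4 * t) (by positivity)
  rw [hN] at hb
  have t5 : 0 ≤ t ^ 2 := sq_nonneg t
  have b1 : Z.μ.real (Z.Good (4 * t))ᶜ ≤ 1 / 2 := by
    have : (N : ℝ) * (4 * (4 * t) ^ 2) ≤ M * t ^ 2 := by
      rw [hM]
      nlinarith [mul_nonneg N0 t5, mul_nonneg (sq_nonneg B) t5,
        mul_nonneg (mul_nonneg (sq_nonneg B) N0) t5]
    linarith
  have b2 : 4 * B ^ 2 * Z.μ.real (Z.Good (4 * t))ᶜ ≤ δ ^ 2 / 2 := by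
    have : 4 * B ^ 2 * ((N : ℝ) * (4 * (4 * t) ^ 2)) ≤ M * t ^ 2 := by
      rw [hM]
      nlinarith [mul_nonneg N0 t5, mul_nonneg (sq_nonneg B) t5]
    have := mul_le_mul_of_nonneg_left hb (show 0 ≤ 4 * B ^ 2 by positivity)
    linarith
  have hm := Z.measurableSet_good (r := 4 * t) (by positivity)
  obtain ⟨x0, hx0⟩ : (Z.Good (4 * t)).Nonempty := by
    by_contra hne
    rw [not_nonempty_iff_eq_empty.1 hne, compl_empty, probReal_univ] at b1
    linarith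
  have k0 := h.abs_lavg_le t0 x0
  refine (PE3_var h.meas h.bd k0).trans ?_
  have i2 : Integrable (fun x => (G x - Z.lavg t G x0) ^ 2) Z.μ :=
    PE3_int ((h.meas.sub_const _).pow_const 2) _ fun x => PE3_sq (h.bd x) k0
  have i3 : Integrable (fun x => (G x - Z.lavg t G x) ^ 2) Z.μ :=
    PE3_int ((h.meas.sub (measurable_lavg h.meas t)).pow_const 2) _ fun x =>
      PE3_sq (h.bd x) (h.abs_lavg_le t0 x)
  rw [← integral_add_compl hm i2]
  have e1 : ∫ x in Z.Good (4 * t), (G x - Z.lavg t G x0) ^ 2 ∂Z.μ ≤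
      8 * η ^ 2 + 2 * (K * η) ^ 2 := by
    have i4 : Integrable (fun x => 2 * (G x - Z.lavg t G x) ^ 2) Z.μ := i3.const_mul 2
    calc _ ≤ ∫ x in Z.Good (4 * t), (2 * (G x - Z.lavg t G x) ^ 2 + 2 * (K * η) ^ 2) ∂Z.μ := by
          refine setIntegral_mono_on i2.integrableOn (i4.add (integrable_const _)).integrableOn hm
            fun x hx => ?_
          have o := h.osc η0 hT t0 (by linarith) (by linarith) hx hx0
          rw [show 8 * η / t * (1 / t ^ 2 + 1) = K * η by rw [hK]; ring] at o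
          have o2 : (Z.lavg t G x - Z.lavg t G x0) ^ 2 ≤ (K * η) ^ 2 :=
            sq_le_sq' (abs_le.1 o).1 (abs_le.1 o).2
          nlinarith [sq_nonneg (G x - Z.lavg t G x - (Z.lavg t G x - Z.lavg t G x0))]
      _ = 2 * ∫ x in Z.Good (4 * t), (G x - Z.lavg t G x) ^ 2 ∂Z.μ +
            Z.μ.real (Z.Good (4 * t)) * (2 * (K * η) ^ 2) := by
          rw [integral_add i4.integrableOn (integrable_const _), integral_const_mul,
            setIntegral_const, smul_eq_mul]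
      _ ≤ 2 * (4 * η ^ 2) + 1 * (2 * (K * η) ^ 2) := by
          have := h.sub_lavg (r := 4 * t) t0 (by linarith) (by linarith)
          gcongr
          exact measureReal_le_one
      _ = _ := by ring
  have e2 : ∫ x in (Z.Good (4 * t))ᶜ, (G x - Z.lavg t G x0) ^ 2 ∂Z.μ ≤
      4 * B ^ 2 * Z.μ.real (Z.Good (4 * t))ᶜ := by
    calc _ ≤ ∫ _ in (Z.Good (4 * t))ᶜ, 4 * B ^ 2 ∂Z.μ :=
          setIntegral_mono_on i2.integrableOn (integrable_const _) hm.compl fun x _ =>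
            (le_abs_self _).trans (PE3_sq (h.bd x) k0)
      _ = _ := by rw [setIntegral_const, smul_eq_mul, mul_comm]
  linarith

theorem PE3_trunc {B a b : ℝ} : |max (-B) (min B a) - max (-B) (min B b)| ≤ |a - b| := by
  refine (abs_max_sub_max_le_max _ _ _ _).trans (max_le (by simp) ?_)
  exact (abs_min_sub_min_le_max _ _ _ _).trans (max_le (by simp) le_rfl)

/-- one real component -/
theorem PE3_comp {Z : Flat X} {B η δ T θ : ℝ} (hT : 0 < T) (p : ℂ →L[ℝ] ℝ)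
    (hp : ∀ z, |p z| ≤ ‖z‖) {H : X → ℂ} (hH : AB Z.μ B H)
    (h0 : ∀ G : X → ℝ, (Z.act (ren T θ hT) (sl_mp _ _ _ _ _)).NearInv B η G →
      ∫ x, (G x - ∫ z, G z ∂Z.μ) ^ 2 ∂Z.μ ≤ δ ^ 2)
    (h1 : ∀ a : ℝ, |a| ≤ 1 / T → nsq Z.μ (fun x => H (Z.mv x (a • nv θ)) - H x) ≤ η ^ 2)
    (h2 : ∀ s : ℝ, 0 ≤ s → s ≤ T → nsq Z.μ (fun x => H (Z.fl θ s x) - H x) ≤ η ^ 2) :
    ∫ x, p (H x - ∫ z, H z ∂Z.μ) ^ 2 ∂Z.μ ≤ δ ^ 2 := by
  have B0 := hH.nonneg
  have cmp : ∀ v : P2, ∫ x, (max (-B) (min B (p (H (Z.mv x v)))) - max (-B) (min B (p (H x)))) ^ 2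
      ∂Z.μ ≤ nsq Z.μ (fun x => H (Z.mv x v) - H x) := fun v => by
    refine integral_mono_of_nonneg (Eventually.of_forall fun x => sq_nonneg _)
      ((hH.comp (Z.mp_mv v)).sub hH).integrable_sq (Eventually.of_forall fun x => ?_)
    have q : |p (H (Z.mv x v)) - p (H x)| ≤ ‖H (Z.mv x v) - H x‖ := by
      rw [← map_sub]; exact hp _
    have := (PE3_trunc (B := B) (a := p (H (Z.mv x v))) (b := p (H x))).trans q
    exact sq_le_sq' (abs_le.1 this).1 (abs_le.1 this).2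
  have key := h0 (fun x => max (-B) (min B (p (H x))))
    { meas := measurable_const.max (measurable_const.min (p.continuous.measurable.comp hH.1))
      bd := fun x => abs_le.2 ⟨le_max_left _ _, max_le (by linarith) (min_le_left _ _)⟩
      hor := fun a ha => by
        have e : ren T θ hT (a, 0) = (a / T) • nv θ := by rw [ren_apply]; simp
        simp only [act_mv, act_μ, e]
        refine (cmp _).trans (h1 _ ?_)
        rw [abs_div, abs_of_pos hT]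
        gcongr
      ver := fun s hs hs1 => by
        have e : ren T θ hT (0, s) = (s * T) • ev θ := by rw [ren_apply]; simp
        simp only [act_mv, act_μ, e]
        exact (cmp _).trans (h2 (s * T) (by positivity) (by nlinarith)) }
  have ae : (fun x => max (-B) (min B (p (H x)))) =ᵐ[Z.μ] fun x => p (H x) := by
    filter_upwards [hH.2] with x hx
    obtain ⟨a1, a2⟩ := abs_le.1 ((hp _).trans hx)
    rw [min_eq_right a2, max_eq_right a1]
  rw [integral_congr_ae ae, p.integral_comp_comm hH.integrable] at key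
  refine le_trans (le_of_eq (integral_congr_ae ?_)) key
  filter_upwards [ae] with x hx
  rw [hx, map_sub]

/-- Apply `poincare` (with `δ / 2`) on `Z.act (ren T θ hT) (sl_mp ..)` (`thickAt_iff`, `ren_apply`) to the truncations
`max (-B) (min B ·)` of the real and imaginary parts of `H` (equal to them a.e.; truncation is 1-Lipschitz), and
`‖z‖² = re² + im²`. -/
theorem poincare_dir (Z : Flat X) {ε B δ : ℝ} (hε : 0 < ε) (hδ : 0 < δ) :
    ∃ η : ℝ, 0 < η ∧ ∀ T θ : ℝ, 0 < T → Z.ThickAt T θ ε → ∀ H : X → ℂ, AB Z.μ B H →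
      (∀ a : ℝ, |a| ≤ 1 / T → nsq Z.μ (fun x => H (Z.mv x (a • nv θ)) - H x) ≤ η ^ 2) →
      (∀ s : ℝ, 0 ≤ s → s ≤ T → nsq Z.μ (fun x => H (Z.fl θ s x) - H x) ≤ η ^ 2) →
      nsq Z.μ (fun x => H x - ∫ z, H z ∂Z.μ) ≤ δ ^ 2 := by
  obtain ⟨η, η0, hη⟩ := poincare (X := X) (B := B) Z.N hε (half_pos hδ)
  refine ⟨η, η0, fun T θ hT hth H hH h1 h2 => ?_⟩
  have h0 := hη (Z.act (ren T θ hT) (sl_mp _ _ _ _ _)) rfl ((thickAt_iff hT θ ε).1 hth)
  have r := PE3_comp hT Complex.reCLM (fun z => Complex.abs_re_le_norm z) hH h0 h1 h2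
  have i := PE3_comp hT Complex.imCLM (fun z => Complex.abs_im_le_norm z) hH h0 h1 h2
  have hA := hH.sub (AB.const (μ := Z.μ) (∫ z, H z ∂Z.μ))
  have ig : ∀ p : ℂ →L[ℝ] ℝ, (∀ z, |p z| ≤ ‖z‖) →
      Integrable (fun x => p (H x - ∫ z, H z ∂Z.μ) ^ 2) Z.μ := fun p hp =>
    hA.integrable_sq.mono' ((p.continuous.measurable.comp hA.1).pow_const 2).aestronglyMeasurable
      (Eventually.of_forall fun x => by
        rw [Real.norm_eq_abs, abs_of_nonneg (sq_nonneg _)]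
        exact sq_le_sq' (abs_le.1 (hp _)).1 (abs_le.1 (hp _)).2)
  have e : nsq Z.μ (fun x => H x - ∫ z, H z ∂Z.μ) =
      ∫ x, Complex.reCLM (H x - ∫ z, H z ∂Z.μ) ^ 2 ∂Z.μ +
        ∫ x, Complex.imCLM (H x - ∫ z, H z ∂Z.μ) ^ 2 ∂Z.μ := by
    rw [← integral_add (ig _ fun z => Complex.abs_re_le_norm z)
      (ig _ fun z => Complex.abs_im_le_norm z)]
    refine integral_congr_ae (Eventually.of_forall fun x => ?_)
    simp only [Complex.reCLM_apply, Complex.imCLM_apply]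
    rw [Complex.sq_norm, Complex.normSq_apply]
    ring
  rw [e]
  nlinarith [sq_nonneg δ]

end Flat

end Pool.Agent.MP_b29402_an

end

-- part MP_b29402_an.CMP
section

/-! Comparison of a family in nearby directions and at nearby points, in the mean. -/

open MeasureTheory Set Filter Topology ProbabilityTheory
open scoped ComplexConjugate ENNReal

namespace Pool.Agent.MP_b29402_an

namespace Flat

variable {X : Type*} [MeasurableSpace X] {Z : Flat X} {Θ : Set ℝ} {S Λ B : ℝ} {F : ℝ → X → ℂ}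

/-- `AB.nsq_le_of_bad` with `E = {x | (V x ∩ K).Nonempty}` (`vfree`, `measureReal_sees_le`, `AB.comp`, `mp_mv`) -/
theorem Fam.cmp (h : Z.Fam Θ S Λ B F) {θ₁ θ₂ : ℝ} (h1 : θ₁ ∈ Θ) (h2 : θ₂ ∈ Θ) {a : P2}
    {K : Set P2} (hK : Convex ℝ K) (hm : MeasurableSet K) (hf : volume K ≠ ∞) (k0 : (0 : P2) ∈ K)
    (k1 : S • ev θ₁ ∈ K) (k2 : a ∈ K) (k3 : a + S • ev θ₂ ∈ K) :
    nsq Z.μ (fun x => F θ₁ x - F θ₂ (Z.mv x a)) ≤
      (Λ * (‖a‖ + S * ‖ev θ₁ - ev θ₂‖)) ^ 2 + 4 * B ^ 2 * (Z.N * volume.real K) := by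
  have hab : AB Z.μ (B + B) (fun x => F θ₁ x - F θ₂ (Z.mv x a)) :=
    (h.ab h1).sub ((h.ab h2).comp (Z.mp_mv a))
  have hb := hab.nsq_le_of_bad (d := Λ * (‖a‖ + S * ‖ev θ₁ - ev θ₂‖))
    {x | (Z.V x ∩ K).Nonempty} (by
      filter_upwards [Z.ae_reg] with x hx hE
      have hD : K ⊆ Z.D x := vfree hx hK k0 (fun w hw hv => hE ⟨w, hv, hw⟩)
      exact h.lip θ₁ h1 θ₂ h2 x a K hK hD k0 k1 k2 k3)
  have hs := Z.measureReal_sees_le hm hf
  have h4 : (B + B) ^ 2 * Z.μ.real {x | (Z.V x ∩ K).Nonempty} ≤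
      4 * B ^ 2 * (Z.N * volume.real K) := by
    have e : (B + B) ^ 2 = 4 * B ^ 2 := by ring
    rw [e]
    exact mul_le_mul_of_nonneg_left hs (by positivity)
  linarith

/-- `K = rect θ₁ (-(7 S d)) (7 S d) 0 S`, `a = 0` (`abs_ip_ev_nv_le`, `ip_ev_ev'`, `norm_ev_sub_le`) -/
theorem Fam.cu (h : Z.Fam Θ S Λ B F) {θ₁ θ₂ d : ℝ} (h1 : θ₁ ∈ Θ) (h2 : θ₂ ∈ Θ)
    (hd : |θ₂ - θ₁| ≤ d) (hd1 : d ≤ 1 / 8) :
    nsq Z.μ (fun x => F θ₁ x - F θ₂ x) ≤
      (7 * Λ * S * d) ^ 2 + 56 * B ^ 2 * Z.N * S ^ 2 * d := by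
  have hS := h.hS
  have hΛ := h.hΛ
  have hd0 : 0 ≤ d := (abs_nonneg _).trans hd
  have hw : 0 ≤ 7 * S * d := by positivity
  have z1 : ip (0 : P2) (nv θ₁) = 0 := by simp [ip]
  have z2 : ip (0 : P2) (ev θ₁) = 0 := by simp [ip]
  have k0 : (0 : P2) ∈ rect θ₁ (-(7 * S * d)) (7 * S * d) 0 S := by
    refine ⟨?_, ?_, ?_, ?_⟩
    · rw [z1]; linarith
    · rw [z1]; linarith
    · rw [z2]
    · rw [z2]; exact hS
  have k1 : S • ev θ₁ ∈ rect θ₁ (-(7 * S * d)) (7 * S * d) 0 S := by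
    refine ⟨?_, ?_, ?_, ?_⟩
    · rw [ip_smul, ip_ev_nv]; linarith
    · rw [ip_smul, ip_ev_nv]; linarith
    · rw [ip_smul, ip_ev_ev]; linarith
    · rw [ip_smul, ip_ev_ev]; linarith
  have k3 : (0 : P2) + S • ev θ₂ ∈ rect θ₁ (-(7 * S * d)) (7 * S * d) 0 S := by
    rw [zero_add]
    have a1 := abs_ip_ev_nv_le θ₁ θ₂
    have a2 : |ip (ev θ₂) (nv θ₁)| ≤ 7 * d := by linarith
    have a3 := abs_le.1 a2
    have hpi := Real.pi_pos
    have b1 := abs_le.1 (hd.trans hd1)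
    have c0 : 0 ≤ Real.cos (2 * Real.pi * (θ₂ - θ₁)) := by
      apply Real.cos_nonneg_of_neg_pi_div_two_le_of_le
      · nlinarith [b1.1]
      · nlinarith [b1.2]
    have c1 := Real.cos_le_one (2 * Real.pi * (θ₂ - θ₁))
    refine ⟨?_, ?_, ?_, ?_⟩
    · rw [ip_smul]; nlinarith [a3.1]
    · rw [ip_smul]; nlinarith [a3.2]
    · rw [ip_smul, ip_ev_ev']; positivity
    · rw [ip_smul, ip_ev_ev']; nlinarith
  have hc := h.cmp h1 h2 (convex_rect θ₁ _ _ _ _) (measurableSet_rect θ₁ _ _ _ _)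
    (volume_rect_ne_top θ₁ _ _ _ _) k0 k1 k0 k3
  rw [volume_rect θ₁ (by linarith) hS] at hc
  simp only [Z.mv_zero, norm_zero, zero_add] at hc
  have n1 : ‖ev θ₁ - ev θ₂‖ ≤ 7 * d := by
    have := norm_ev_sub_le θ₁ θ₂
    rw [abs_sub_comm] at this
    linarith
  have n2 : Λ * (S * ‖ev θ₁ - ev θ₂‖) ≤ 7 * Λ * S * d := by
    have : Λ * (S * ‖ev θ₁ - ev θ₂‖) ≤ Λ * (S * (7 * d)) := by gcongr
    linarith
  have n3 : (Λ * (S * ‖ev θ₁ - ev θ₂‖)) ^ 2 ≤ (7 * Λ * S * d) ^ 2 :=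
    pow_le_pow_left₀ (by positivity) n2 2
  have e : 4 * B ^ 2 * (Z.N * ((7 * S * d - -(7 * S * d)) * (S - 0))) =
      56 * B ^ 2 * Z.N * S ^ 2 * d := by ring
  linarith

/-- `K = rect θ (min a 0) (max a 0) 0 S` -/
theorem Fam.hi (h : Z.Fam Θ S Λ B F) {θ : ℝ} (h1 : θ ∈ Θ) (a : ℝ) :
    nsq Z.μ (fun x => F θ (Z.mv x (a • nv θ)) - F θ x) ≤
      (Λ * |a|) ^ 2 + 4 * B ^ 2 * Z.N * |a| * S := by
  have hS := h.hS
  have hΛ := h.hΛ
  have z1 : ip (0 : P2) (nv θ) = 0 := by simp [ip]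
  have z2 : ip (0 : P2) (ev θ) = 0 := by simp [ip]
  have k0 : (0 : P2) ∈ rect θ (min a 0) (max a 0) 0 S := by
    refine ⟨?_, ?_, ?_, ?_⟩
    · rw [z1]; exact min_le_right _ _
    · rw [z1]; exact le_max_right _ _
    · rw [z2]
    · rw [z2]; exact hS
  have k1 : S • ev θ ∈ rect θ (min a 0) (max a 0) 0 S := by
    refine ⟨?_, ?_, ?_, ?_⟩
    · rw [ip_smul, ip_ev_nv, mul_zero]; exact min_le_right _ _
    · rw [ip_smul, ip_ev_nv, mul_zero]; exact le_max_right _ _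
    · rw [ip_smul, ip_ev_ev]; linarith
    · rw [ip_smul, ip_ev_ev]; linarith
  have k2 : a • nv θ ∈ rect θ (min a 0) (max a 0) 0 S := by
    refine ⟨?_, ?_, ?_, ?_⟩
    · rw [ip_smul, ip_nv_nv, mul_one]; exact min_le_left _ _
    · rw [ip_smul, ip_nv_nv, mul_one]; exact le_max_left _ _
    · rw [ip_smul, ip_nv_ev]; linarith
    · rw [ip_smul, ip_nv_ev]; linarith
  have k3 : a • nv θ + S • ev θ ∈ rect θ (min a 0) (max a 0) 0 S := by
    refine ⟨?_, ?_, ?_, ?_⟩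
    · rw [ip_add, ip_smul, ip_smul, ip_nv_nv, ip_ev_nv, mul_one, mul_zero, add_zero]
      exact min_le_left _ _
    · rw [ip_add, ip_smul, ip_smul, ip_nv_nv, ip_ev_nv, mul_one, mul_zero, add_zero]
      exact le_max_left _ _
    · rw [ip_add, ip_smul, ip_smul, ip_nv_ev, ip_ev_ev]; linarith
    · rw [ip_add, ip_smul, ip_smul, ip_nv_ev, ip_ev_ev]; linarith
  have hc := h.cmp h1 h1 (convex_rect θ _ _ _ _) (measurableSet_rect θ _ _ _ _)
    (volume_rect_ne_top θ _ _ _ _) k0 k1 k2 k3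
  rw [volume_rect θ (min_le_max) hS, max_sub_min_eq_abs', sub_zero, sub_zero] at hc
  simp only [sub_self, norm_zero, mul_zero, add_zero] at hc
  rw [nsq_sub_comm]
  have n1 : ‖a • nv θ‖ ≤ |a| := by
    rw [norm_smul, Real.norm_eq_abs]
    exact mul_le_of_le_one_right (abs_nonneg _) (norm_nv_le θ)
  have n3 : (Λ * ‖a • nv θ‖) ^ 2 ≤ (Λ * |a|) ^ 2 :=
    pow_le_pow_left₀ (by positivity) (mul_le_mul_of_nonneg_left n1 hΛ) 2
  have e : 4 * B ^ 2 * (Z.N * (|a| * S)) = 4 * B ^ 2 * Z.N * |a| * S := by ring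
  linarith

theorem CMP_rlen_lt {T ε A S θ0 : ℝ} {q : P2} (hT : 1 ≤ T) (hA : 0 ≤ A) (hS0 : 0 ≤ S)
    (hS : (2 + 7 * A) * S < ε * T) (h1 : |ip q (nv θ0)| ≤ S * (7 * (A / T ^ 2)))
    (h2 : |ip q (ev θ0)| ≤ 2 * S) : rlen T θ0 q < ε := by
  have hT0 : 0 < T := by linarith
  have hAS : 0 ≤ A * S := by positivity
  unfold rlen
  refine max_lt ?_ ?_
  · have e1 : T * |ip q (nv θ0)| ≤ T * (S * (7 * (A / T ^ 2))) :=
      mul_le_mul_of_nonneg_left h1 hT0.le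
    have e2 : T * (S * (7 * (A / T ^ 2))) = 7 * A * S / T := by field_simp
    have e3 : 7 * A * S / T < ε := by
      rw [div_lt_iff₀ hT0]; nlinarith
    linarith
  · rw [div_lt_iff₀ hT0]; nlinarith

theorem CMP_alt {T ε A S θ0 θ' : ℝ} (hT : 1 ≤ T) (hA : 0 ≤ A) (hS0 : 0 ≤ S)
    (hth : Z.ThickAt T θ0 ε) (hθ : |θ' - θ0| ≤ A / T ^ 2)
    (hS : (2 + 7 * A) * S < ε * T) {x : X} (hx : x ∈ Z.X0 θ') :
    ctri 0 (S • ev θ') (S • ev θ0) ⊆ Z.D x ∨
      ctri 0 (S • ev θ') (S • (ev θ' - ev θ0)) ⊆ Z.D x := by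
  have hT0 : 0 < T := by linarith
  have hq : 0 ≤ S * (7 * (A / T ^ 2)) := by positivity
  have hreg : Z.reg x := reg_of_mem (hx 0)
  have a1 : |ip (ev θ') (nv θ0)| ≤ 7 * (A / T ^ 2) := by
    have := abs_ip_ev_nv_le θ0 θ'
    linarith
  have c1 : |ip (ev θ') (ev θ0)| ≤ 1 := by
    rw [ip_ev_ev']; exact Real.abs_cos_le_one _
  have r0 : rlen T θ0 0 < ε := by
    apply CMP_rlen_lt hT hA hS0 hS
    · simpa [ip] using hq
    · simpa [ip] using hS0
  have r1 : rlen T θ0 (S • ev θ') < ε := by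
    apply CMP_rlen_lt hT hA hS0 hS
    · rw [ip_smul, abs_mul, abs_of_nonneg hS0]
      exact mul_le_mul_of_nonneg_left a1 hS0
    · rw [ip_smul, abs_mul, abs_of_nonneg hS0]
      nlinarith
  have r2 : rlen T θ0 (S • ev θ0) < ε := by
    apply CMP_rlen_lt hT hA hS0 hS
    · rw [ip_smul, ip_ev_nv, mul_zero, abs_zero]; exact hq
    · rw [ip_smul, ip_ev_ev, mul_one, abs_of_nonneg hS0]; linarith
  have r3 : rlen T θ0 (S • (ev θ' - ev θ0)) < ε := by
    apply CMP_rlen_lt hT hA hS0 hS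
    · rw [ip_smul, ip_sub, ip_ev_nv, sub_zero, abs_mul, abs_of_nonneg hS0]
      exact mul_le_mul_of_nonneg_left a1 hS0
    · rw [ip_smul, ip_sub, ip_ev_ev, abs_mul, abs_of_nonneg hS0]
      have b := abs_le.1 c1
      have : |ip (ev θ') (ev θ0) - 1| ≤ 2 := abs_le.2 ⟨by linarith [b.1], by linarith [b.2]⟩
      nlinarith
  have s1 : ctri 0 (S • ev θ') (S • ev θ0) ⊆ {v | rlen T θ0 v < ε} :=
    ctri_subset (convex_rlen_lt hT0 θ0 ε) r0 r1 r2
  have s2 : ctri 0 (S • ev θ') (S • (ev θ' - ev θ0)) ⊆ {v | rlen T θ0 v < ε} :=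
    ctri_subset (convex_rlen_lt hT0 θ0 ε) r0 r1 r3
  by_contra hcon
  rw [not_or] at hcon
  obtain ⟨n1, n2⟩ := hcon
  have e1 : ∃ w ∈ ctri 0 (S • ev θ') (S • ev θ0), w ∈ Z.V x := by
    by_contra hn
    exact n1 (vfree hreg (convex_ctri _ _ _) (left_mem_ctri _ _ _)
      (fun w hw hv => hn ⟨w, hw, hv⟩))
  have e2 : ∃ w ∈ ctri 0 (S • ev θ') (S • (ev θ' - ev θ0)), w ∈ Z.V x := by
    by_contra hn
    exact n2 (vfree hreg (convex_ctri _ _ _) (left_mem_ctri _ _ _)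
      (fun w hw hv => hn ⟨w, hw, hv⟩))
  obtain ⟨w1, k1, v1⟩ := e1
  obtain ⟨w2, k2, v2⟩ := e2
  have hw : w1 = w2 := hth.sub hT0 x ⟨v1, s1 k1⟩ ⟨v2, s2 k2⟩
  obtain ⟨α, β, γ, -, -, hγ, -, q1⟩ := k1
  obtain ⟨α', β', γ', -, -, hγ', -, q2⟩ := k2
  have p1 : w1 = (β * S) • ev θ' + (γ * S) • ev θ0 := by
    rw [q1]; module
  have p2 : w2 = ((β' + γ') * S) • ev θ' + (-(γ' * S)) • ev θ0 := by
    rw [q2]; module
  apply V_not_mem v1
  by_cases hdet : det2 (ev θ') (ev θ0) = 0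
  · obtain ⟨t, ht⟩ := det2_eq_zero (ev_ne_zero θ') hdet
    have : w1 = (β * S + γ * S * t) • ev θ' := by
      rw [p1, ht]; module
    rw [this]
    exact hx _
  · have hu := coords_unique hdet (p1.symm.trans (hw.trans p2))
    have g1 : 0 ≤ γ * S := by positivity
    have g2 : 0 ≤ γ' * S := by positivity
    have g3 : γ * S = 0 := by linarith [hu.2]
    rw [p1, g3, zero_smul, add_zero]
    exact hx _

/-- Shift comparison. `a = S • (ev θ' - ev θ0)`, `K1 = ctri 0 (S • ev θ') (S • ev θ0)`, `K2 = ctri 0 (S • ev θ') a`.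
All their points have `rlen T θ0 · < ε`, so (`ThickAt.sub`) there is at most one visible point in `K1 ∪ K2`; for
`x ∈ X0 θ' ∩ X0 θ0` it is not on the lines through `ev θ'`, `ev θ0`, and `K1 ∩ K2` lies on the line through `ev θ'`
(`coords_unique`; if `det2 (ev θ') (ev θ0) = 0` then `K1` lies on one line). So `K1 ⊆ D x` or `K2 ⊆ D x`, and
`‖F θ' x‖ ≤ ‖F θ0 x‖ + d` or `≤ ‖F θ0 (mv x a)‖ + d`; square, integrate, `nsq_comp`, `mp_mv`. -/
theorem Fam.sh (h : Z.Fam Θ S Λ B F) {T ε A θ0 θ' : ℝ} (hT : 1 ≤ T) (hA : 0 ≤ A)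
    (hth : Z.ThickAt T θ0 ε) (h0 : θ0 ∈ Θ) (h1 : θ' ∈ Θ) (hθ : |θ' - θ0| ≤ A / T ^ 2)
    (hS : (2 + 7 * A) * S < ε * T) :
    nsq Z.μ (F θ') ≤ 4 * nsq Z.μ (F θ0) + 2 * (14 * Λ * S * A / T ^ 2) ^ 2 := by
  have hS0 := h.hS
  have hΛ := h.hΛ
  have hT0 : 0 < T := by linarith
  set a : P2 := S • (ev θ' - ev θ0) with ha
  set d : ℝ := 14 * Λ * S * A / T ^ 2 with hd
  have n1 : ‖ev θ' - ev θ0‖ ≤ 7 * (A / T ^ 2) := by
    have := norm_ev_sub_le θ' θ0
    linarith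
  have n2 : Λ * (S * ‖ev θ' - ev θ0‖) ≤ d / 2 := by
    have e1 : Λ * (S * ‖ev θ' - ev θ0‖) ≤ Λ * (S * (7 * (A / T ^ 2))) := by gcongr
    have e2 : Λ * (S * (7 * (A / T ^ 2))) = d / 2 := by rw [hd]; ring
    linarith
  have n3 : 0 ≤ Λ * (S * ‖ev θ' - ev θ0‖) := by positivity
  have na : ‖a‖ = S * ‖ev θ' - ev θ0‖ := by
    rw [ha, norm_smul, Real.norm_eq_abs, abs_of_nonneg hS0]
  have key : ∀ u v : ℂ, ‖u - v‖ ≤ d → ‖u‖ ^ 2 ≤ 2 * ‖v‖ ^ 2 + 2 * d ^ 2 := by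
    intro u v huv
    have t1 : ‖u‖ ≤ ‖v‖ + d := by
      have := norm_sub_norm_le u v
      linarith
    have t2 : ‖u‖ ^ 2 ≤ (‖v‖ + d) ^ 2 := pow_le_pow_left₀ (norm_nonneg _) t1 2
    nlinarith [sq_nonneg (‖v‖ - d)]
  have hpt : ∀ᵐ x ∂Z.μ, ‖F θ' x‖ ^ 2 ≤
      2 * ‖F θ0 x‖ ^ 2 + 2 * ‖F θ0 (Z.mv x a)‖ ^ 2 + 2 * d ^ 2 := by
    filter_upwards [Z.ae_X0 θ'] with x hx
    rcases CMP_alt hT hA hS0 hth hθ hS hx with hD | hD
    · have l := h.lip θ' h1 θ0 h0 x 0 _ (convex_ctri _ _ _) hD (left_mem_ctri _ _ _)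
        (mid_mem_ctri _ _ _) (left_mem_ctri _ _ _) (by rw [zero_add]; exact right_mem_ctri _ _ _)
      rw [Z.mv_zero, norm_zero, zero_add] at l
      have := key _ _ (l.trans (by linarith))
      nlinarith [sq_nonneg ‖F θ0 (Z.mv x a)‖]
    · have e : a + S • ev θ0 = S • ev θ' := by rw [ha]; module
      have l := h.lip θ' h1 θ0 h0 x a _ (convex_ctri _ _ _) hD (left_mem_ctri _ _ _)
        (mid_mem_ctri _ _ _) (right_mem_ctri _ _ _) (by rw [e]; exact mid_mem_ctri _ _ _)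
      rw [na] at l
      have := key _ _ (l.trans (by linarith))
      nlinarith [sq_nonneg ‖F θ0 x‖]
  have i0 := (h.ab h0).integrable_sq
  have i1 := (h.ab h1).integrable_sq
  have i2 := ((h.ab h0).comp (Z.mp_mv a)).integrable_sq
  have c2 : nsq Z.μ (fun x => F θ0 (Z.mv x a)) = nsq Z.μ (F θ0) :=
    nsq_comp (h.meas θ0) (Z.mp_mv a)
  have hI := integral_mono_ae i1
    (((i0.const_mul 2).add (i2.const_mul 2)).add (integrable_const (2 * d ^ 2))) hpt
  have eI : ∫ x, (2 * ‖F θ0 x‖ ^ 2 + 2 * ‖F θ0 (Z.mv x a)‖ ^ 2 + 2 * d ^ 2) ∂Z.μ =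
      2 * nsq Z.μ (F θ0) + 2 * nsq Z.μ (fun x => F θ0 (Z.mv x a)) + 2 * d ^ 2 := by
    have i3 : Integrable (fun x => 2 * ‖F θ0 x‖ ^ 2 + 2 * ‖F θ0 (Z.mv x a)‖ ^ 2) Z.μ :=
      (i0.const_mul 2).add (i2.const_mul 2)
    rw [integral_add i3 (integrable_const _),
      integral_add (i0.const_mul 2) (i2.const_mul 2), integral_const_mul, integral_const_mul]
    simp [nsq]
  have hI' : nsq Z.μ (F θ') ≤
      ∫ x, (2 * ‖F θ0 x‖ ^ 2 + 2 * ‖F θ0 (Z.mv x a)‖ ^ 2 + 2 * d ^ 2) ∂Z.μ := hI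
  rw [eI, c2] at hI'
  linarith

/-- `poincare_dir` at level `T E` and `Fam.hi` with `|a| ≤ 1 / (T E)`:
`(ω T / (T E))² + 4 B² N S T / (T E) ≤ η² + 4 B² N η ≤ ηP²`. -/
theorem near_const (Z : Flat X) {ε B δ : ℝ} (hε : 0 < ε) (hδ : 0 < δ) :
    ∃ η : ℝ, 0 < η ∧ ∀ (T E θ S ω : ℝ) (Θ : Set ℝ) (H : ℝ → X → ℂ), 1 ≤ T → 1 ≤ E →
      Z.ThickAt (T * E) θ ε → θ ∈ Θ → Z.Fam Θ (S * T) (ω * T) B H → ω ≤ η → S ≤ η * E →
      (∀ s : ℝ, 0 ≤ s → s ≤ T * E → nsq Z.μ (fun x => H θ (Z.fl θ s x) - H θ x) ≤ η ^ 2) →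
      nsq Z.μ (fun x => H θ x - ∫ z, H θ z ∂Z.μ) ≤ δ ^ 2 := by
  obtain ⟨ηP, hP, hPo⟩ := Z.poincare_dir (B := B) hε hδ
  have hc : 0 ≤ 4 * B ^ 2 * (Z.N : ℝ) := by positivity
  set c : ℝ := 4 * B ^ 2 * (Z.N : ℝ) with hcdef
  refine ⟨min (ηP / 2) (ηP ^ 2 / (2 * (c + 1))), lt_min (by positivity) (by positivity), ?_⟩
  set η : ℝ := min (ηP / 2) (ηP ^ 2 / (2 * (c + 1))) with hη
  have η0 : 0 < η := lt_min (by positivity) (by positivity)
  have η1 : η ≤ ηP / 2 := min_le_left _ _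
  have η2 : η ≤ ηP ^ 2 / (2 * (c + 1)) := min_le_right _ _
  have η3 : η ^ 2 ≤ ηP ^ 2 / 4 := by nlinarith
  have η4 : c * η ≤ ηP ^ 2 / 2 := by
    rw [le_div_iff₀ (by positivity)] at η2
    nlinarith
  intro T E θ S ω Θ H hT hE hth hθ hF hω hS hfl
  have hT0 : 0 < T := by linarith
  have hE0 : 0 < E := by linarith
  have hS0 : 0 ≤ S := by
    have := hF.hS
    by_contra hn
    nlinarith [not_le.1 hn]
  have hω0 : 0 ≤ ω := by
    have := hF.hΛ
    by_contra hn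
    nlinarith [not_le.1 hn]
  refine hPo (T * E) θ (by positivity) hth (H θ) (hF.ab hθ) ?_ ?_
  · intro a ha
    have h1 := hF.hi hθ a
    have a1 : |a| * T * E ≤ 1 := by
      rw [le_div_iff₀ (by positivity)] at ha
      linarith
    have a0 : 0 ≤ |a| * T := by positivity
    have a2 : |a| * T ≤ 1 := by nlinarith
    have b1 : ω * T * |a| ≤ η := by nlinarith
    have b2 : (ω * T * |a|) ^ 2 ≤ η ^ 2 := pow_le_pow_left₀ (by positivity) b1 2
    have b3 : |a| * (S * T) ≤ η := by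
      have : |a| * T * S ≤ |a| * T * (η * E) := mul_le_mul_of_nonneg_left hS a0
      nlinarith
    have b4 : c * (|a| * (S * T)) ≤ c * η := mul_le_mul_of_nonneg_left b3 hc
    have e : 4 * B ^ 2 * (Z.N : ℝ) * |a| * (S * T) = c * (|a| * (S * T)) := by rw [hcdef]; ring
    nlinarith [sq_nonneg ηP]
  · intro s h0 h1
    have := hfl s h0 h1
    nlinarith [sq_nonneg ηP]

end Flat

end Pool.Agent.MP_b29402_an

end

-- part MP_b29402_an.SpecM
section

/-! Metastable averages: a small drop of the norm under averaging gives near invariance. -/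

open MeasureTheory Set Filter Topology ProbabilityTheory
open scoped ComplexConjugate ENNReal

namespace Pool.Agent.MP_b29402_an

variable {X : Type*} [MeasurableSpace X] {μ : Measure X} [IsProbabilityMeasure μ]
  {φ : ℝ → X → X} {X0 : Set X}

omit [IsProbabilityMeasure μ] in
theorem SpecM_bd {X0 : Set X} {B : ℝ} {f : X → ℂ} (h : AEFlow μ φ X0) (hf : BM X0 B f) (s : ℝ)
    {x : X} (hx : x ∈ X0) : ‖f (φ s x)‖ ≤ B := hf.2 _ (h.inv s x hx)

/-- the quadratic form of the correlation function is the square norm of the filtered function -/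
theorem SpecM_quad (h : AEFlow μ φ X0) {B : ℝ} {f : X → ℂ} (hf : BM X0 B f) (ϱ : Measure ℝ)
    [SFinite ϱ] {g : ℝ → ℂ} (mg : Measurable g) (ig : Integrable g ϱ) :
    ∫ s, ∫ s', g s * conj (g s') * ∫ x, f (φ (s - s') x) * conj (f x) ∂μ ∂ϱ ∂ϱ =
      (nsq μ (Op φ ϱ g f) : ℂ) := by
  have hX : ∀ᵐ q : ℝ × X ∂(ϱ.prod μ), q.2 ∈ X0 := Measure.quasiMeasurePreserving_snd.ae h.ae
  have mF : Measurable fun q : ℝ × X => f (φ q.1 q.2) := hf.1.comp h.meas
  have iF : Integrable (fun q : ℝ × X => g q.1 * f (φ q.1 q.2)) (ϱ.prod μ) :=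
    (ig.comp_fst μ).mul_bdd mF.aestronglyMeasurable (hX.mono fun q hq => SpecM_bd h hf q.1 hq)
  have iC : Integrable (fun q : ℝ × X => conj (g q.1 * f (φ q.1 q.2))) (ϱ.prod μ) :=
    Complex.conjCLE.toContinuousLinearMap.integrable_comp iF
  have mO := measurable_Op h.meas ϱ mg hf.1
  have bO : ∀ x ∈ X0, ‖Op φ ϱ g f x‖ ≤ ∫ s, ‖g s‖ * B ∂ϱ := fun x hx =>
    norm_integral_le_of_norm_le (ig.norm.mul_const B) (ae_of_all _ fun s => by
      rw [norm_mul]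
      exact mul_le_mul_of_nonneg_left (SpecM_bd h hf s hx) (norm_nonneg _))
  have e1 : ∀ s, ∫ s', g s * conj (g s') * ∫ x, f (φ (s - s') x) * conj (f x) ∂μ ∂ϱ =
      ∫ x, g s * f (φ s x) * conj (Op φ ϱ g f x) ∂μ := fun s => by
    have i1 : Integrable (Function.uncurry fun s' x =>
        g s * f (φ s x) * conj (g s' * f (φ s' x))) (ϱ.prod μ) :=
      iC.bdd_mul (c := ‖g s‖ * B)
        (measurable_const.mul ((hf.comp h s).1.comp measurable_snd)).aestronglyMeasurable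
        (hX.mono fun q hq => by
          rw [norm_mul]
          exact mul_le_mul_of_nonneg_left (SpecM_bd h hf s hq) (norm_nonneg _))
    have e2 := integral_integral_swap i1
    simp only [integral_const_mul, integral_conj] at e2
    refine Eq.trans (integral_congr_ae (ae_of_all _ fun s' => ?_)) e2
    beta_reduce
    rw [← h.corr hf.1 hf.1, ← integral_const_mul]
    refine integral_congr_ae (ae_of_all _ fun x => ?_)
    simp only [map_mul]
    ring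
  have i2 : Integrable (Function.uncurry fun s x => g s * f (φ s x) * conj (Op φ ϱ g f x))
      (ϱ.prod μ) :=
    iF.mul_bdd (c := ∫ s, ‖g s‖ * B ∂ϱ)
      (Complex.continuous_conj.measurable.comp (mO.comp measurable_snd)).aestronglyMeasurable
      (hX.mono fun q hq => by
        rw [RCLike.norm_conj]
        exact bO _ hq)
  simp only [e1]
  rw [integral_integral_swap i2, ← integral_normsq]
  refine integral_congr_ae (ae_of_all _ fun x => ?_)
  beta_reduce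
  rw [integral_mul_const, Complex.ofReal_pow, ← Complex.mul_conj']
  rfl

theorem SpecM_corr (h : AEFlow μ φ X0) {B : ℝ} {f : X → ℂ} (hf : BM X0 B f) :
    (Measurable fun t => ∫ x, f (φ t x) * conj (f x) ∂μ) ∧
    (∀ t, Integrable (fun x => f (φ t x) * conj (f x)) μ) ∧
    ∀ t, ‖∫ x, f (φ t x) * conj (f x) ∂μ‖ ≤ B * B := by
  have mc : Measurable fun x => conj (f x) := Complex.continuous_conj.measurable.comp hf.1
  have hB := (hf.ab h.ae).nonneg
  have ab : ∀ t, AB μ (B * B) fun x => f (φ t x) * conj (f x) := fun t =>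
    ⟨(hf.comp h t).1.mul mc, h.ae.mono fun x hx => by
      rw [norm_mul, RCLike.norm_conj]
      exact mul_le_mul (SpecM_bd h hf t hx) (hf.2 x hx) (norm_nonneg _) hB⟩
  exact ⟨(StronglyMeasurable.integral_prod_right'
    (f := fun q : ℝ × X => f (φ q.1 q.2) * conj (f q.2))
    ((hf.1.comp h.meas).mul (mc.comp measurable_snd)).stronglyMeasurable).measurable,
    fun t => (ab t).integrable, fun t => (ab t).norm_integral_le⟩

theorem SpecM_psi (h : AEFlow μ φ X0) {B : ℝ} {f : X → ℂ} (hf : BM X0 B f) (t : ℝ) :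
    nsq μ (fun x => f (φ t x) - f x) =
      2 * nsq μ f - 2 * (∫ x, f (φ t x) * conj (f x) ∂μ).re := by
  have i1 := ((hf.comp h t).ab h.ae).integrable_sq
  have i2 := (hf.ab h.ae).integrable_sq
  have i3 := (SpecM_corr h hf).2.1 t
  have e1 : ∫ x, ‖f (φ t x)‖ ^ 2 ∂μ = nsq μ f := nsq_comp hf.1 (h.mp t)
  have e2 : ∫ x, (f (φ t x) * conj (f x)).re ∂μ = (∫ x, f (φ t x) * conj (f x) ∂μ).re :=
    integral_re i3
  have i4 : Integrable (fun x => ‖f (φ t x)‖ ^ 2 + ‖f x‖ ^ 2) μ := i1.add i2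
  have i5 : Integrable (fun x => (f (φ t x) * conj (f x)).re) μ := i3.re
  have e3 : nsq μ (fun x => f (φ t x) - f x) =
      ∫ x, (‖f (φ t x)‖ ^ 2 + ‖f x‖ ^ 2 - 2 * (f (φ t x) * conj (f x)).re) ∂μ :=
    integral_congr_ae (ae_of_all _ fun x => by
      simp only [Complex.sq_norm, Complex.normSq_sub])
  rw [e3, integral_sub i4 (i5.const_mul 2), integral_add i1 i2, integral_const_mul, e1, e2]
  unfold nsq
  ring

theorem SpecM_ii {G : Type} [NormedAddCommGroup G] [MeasurableSpace G] [BorelSpace G]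
    [SecondCountableTopology G] {u : ℝ → G} (hu : Measurable u) {M : ℝ} (hb : ∀ s, ‖u s‖ ≤ M)
    (a b : ℝ) : IntervalIntegrable u volume a b :=
  (intervalIntegrable_const (c := M)).mono_fun' hu.aestronglyMeasurable (ae_of_all _ hb)

theorem SpecM_inner {G : Type} [NormedAddCommGroup G] [NormedSpace ℝ G] [MeasurableSpace G]
    [BorelSpace G] [SecondCountableTopology G] {u : ℝ → G} (hu : Measurable u) {M L : ℝ}
    (hb : ∀ s, ‖u s‖ ≤ M) (hL : 0 < L) :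
    (Measurable fun s => ∫ s' in (0 : ℝ)..L, u (s - s')) ∧
      ∀ s, ‖∫ s' in (0 : ℝ)..L, u (s - s')‖ ≤ M * |L - 0| := by
  refine ⟨?_, fun s => intervalIntegral.norm_integral_le_of_norm_le_const fun s' _ => hb _⟩
  simp only [intervalIntegral.integral_of_le hL.le]
  exact (StronglyMeasurable.integral_prod_right' (f := fun q : ℝ × ℝ => u (q.1 - q.2))
    (hu.comp (measurable_fst.sub measurable_snd)).stronglyMeasurable).measurable

theorem SpecM_add (h : AEFlow μ φ X0) {B : ℝ} {f : X → ℂ} (hf : BM X0 B f) (a b : ℝ) :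
    nsq μ (fun x => f (φ (a - b) x) - f x) ≤
      2 * nsq μ (fun x => f (φ a x) - f x) + 2 * nsq μ (fun x => f (φ b x) - f x) := by
  have a1 := (hf.comp h a).ab h.ae
  have a2 := (hf.comp h b).ab h.ae
  have a3 := hf.ab h.ae
  have h1 := nsq_add_le (a1.sub a3) (a3.sub a2)
  rw [nsq_sub_comm f] at h1
  refine le_of_eq_of_le ?_ h1
  rw [← nsq_comp (f := fun x => f (φ (a - b) x) - f x) ((hf.comp h (a - b)).1.sub hf.1) (h.mp b)]
  refine nsq_congr (h.ae.mono fun x hx => ?_)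
  beta_reduce
  rw [h.add _ _ x hx, sub_add_cancel]
  ring

/-- Put `ψ r = nsq (f ∘ φ r - f)`. Variance identity: pointwise
`L⁻² ∫∫ ‖a s - a s'‖² = 2 L⁻¹ ∫ ‖a s‖² - 2 ‖L⁻¹ ∫ a s‖²` for `a s = f (φ s x)`; integrate in `x`
(Fubini), `nsq (f ∘ φ s - f ∘ φ s') = ψ (s - s')`. -/
theorem variance_identity (h : AEFlow μ φ X0) {B L : ℝ} {f : X → ℂ} (hf : BM X0 B f)
    (hL : 0 < L) :
    ∫ s in (0 : ℝ)..L, ∫ s' in (0 : ℝ)..L, nsq μ (fun x => f (φ (s - s') x) - f x) =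
      2 * L ^ 2 * (nsq μ f - nsq μ (Av φ L 0 f)) := by
  obtain ⟨m1, -, b1⟩ := SpecM_corr h hf
  obtain ⟨m2, b2⟩ := SpecM_inner m1 b1 hL
  have q := SpecM_quad h hf (volume.restrict (Ioc 0 L)) (g := fun _ => 1) measurable_const
    (integrable_const _)
  simp only [map_one, one_mul, ← intervalIntegral.integral_of_le hL.le] at q
  have e0 : nsq μ (Op φ (volume.restrict (Ioc 0 L)) (fun _ => 1) f) =
      L ^ 2 * nsq μ (Av φ L 0 f) := by
    have h1 := nsq_const_mul (μ := μ) (L : ℂ) (Av φ L 0 f)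
    rw [Complex.norm_real, Real.norm_eq_abs, sq_abs] at h1
    rw [← h1]
    congr 1
    funext x
    have h2 : (L : ℂ) ≠ 0 := by exact_mod_cast hL.ne'
    simp only [Op, Av, zero_mul, neg_zero, ex_zero, intervalIntegral.integral_of_le hL.le]
    rw [mul_inv_cancel_left₀ h2]
  have re : ∀ {u : ℝ → ℂ}, IntervalIntegrable u volume 0 L →
      IntervalIntegrable (fun s => (u s).re) volume 0 L ∧
      ∫ s in (0 : ℝ)..L, (u s).re = (∫ s in (0 : ℝ)..L, u s).re := fun hu =>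
    ⟨⟨hu.1.re, hu.2.re⟩, Complex.reCLM.intervalIntegral_comp_comm hu⟩
  have e1 : ∀ s, ∫ s' in (0 : ℝ)..L, nsq μ (fun x => f (φ (s - s') x) - f x) =
      L * (2 * nsq μ f) -
        2 * (∫ s' in (0 : ℝ)..L, ∫ x, f (φ (s - s') x) * conj (f x) ∂μ).re := fun s => by
    obtain ⟨h1, h2⟩ := re (SpecM_ii (u := fun s' => ∫ x, f (φ (s - s') x) * conj (f x) ∂μ)
      (m1.comp (measurable_const.sub measurable_id)) (fun s' => b1 (s - s')) 0 L)
    simp only [SpecM_psi h hf]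
    rw [intervalIntegral.integral_sub intervalIntegrable_const (h1.const_mul 2),
      intervalIntegral.integral_const, intervalIntegral.integral_const_mul, h2, sub_zero,
      smul_eq_mul]
  obtain ⟨h1, h2⟩ := re (SpecM_ii m2 b2 0 L)
  simp only [e1]
  rw [intervalIntegral.integral_sub intervalIntegrable_const (h1.const_mul 2),
    intervalIntegral.integral_const, intervalIntegral.integral_const_mul, h2, q, e0,
    Complex.ofReal_re, sub_zero, smul_eq_mul]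
  ring

/-- `ψ t ≤ 2 ψ (s + t - s') + 2 ψ (s - s')` for all `s s'` (triangle inequality through
`f ∘ φ (s' - s)`..., `ψ` is even and `f ∘ φ t - f = (f ∘ φ (s + t - s') - f) ∘ φ (s' - s) +
(f ∘ φ (s' - s) - f)` on `X0`). Integrate over `s ∈ [0, L/2]`, `s' ∈ [0, L]`: both double integrals
are at most the one of `variance_identity` (`ψ ≥ 0`, measurable and bounded), so
`(L²/2) ψ t ≤ 4 * 2 L² * drop`. -/
theorem metastable (h : AEFlow μ φ X0) {B L : ℝ} {f : X → ℂ} (hf : BM X0 B f) (hL : 0 < L)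
    {t : ℝ} (ht0 : 0 ≤ t) (ht : t ≤ L / 2) :
    nsq μ (fun x => f (φ t x) - f x) ≤ 16 * (nsq μ f - nsq μ (Av φ L 0 f)) := by
  have v := variance_identity h hf hL
  obtain ⟨ψ, hψ⟩ : ∃ ψ : ℝ → ℝ, ∀ r, nsq μ (fun x => f (φ r x) - f x) = ψ r := ⟨_, fun _ => rfl⟩
  have p0 : ∀ r, 0 ≤ ψ r := fun r => hψ r ▸ nsq_nonneg _
  have m1 : Measurable ψ := by
    have e : ψ = fun r => 2 * nsq μ f - 2 * (∫ x, f (φ r x) * conj (f x) ∂μ).re :=
      funext fun r => (hψ r).symm.trans (SpecM_psi h hf r)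
    rw [e]
    exact measurable_const.sub ((Complex.measurable_re.comp (SpecM_corr h hf).1).const_mul 2)
  have b1 : ∀ r, ‖ψ r‖ ≤ (B + B) ^ 2 := fun r => by
    rw [Real.norm_eq_abs, abs_of_nonneg (p0 r), ← hψ]
    exact (((hf.comp h r).ab h.ae).sub (hf.ab h.ae)).nsq_le
  have ad := SpecM_add h hf
  simp only [hψ] at v ad ⊢
  obtain ⟨m2, b2⟩ := SpecM_inner m1 b1 hL
  have i1 : ∀ s, IntervalIntegrable (fun s' => ψ (s - s')) volume 0 L := fun s =>
    SpecM_ii (m1.comp (measurable_const.sub measurable_id)) (fun s' => b1 (s - s')) 0 L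
  obtain ⟨Ψ, hΨ⟩ : ∃ Ψ : ℝ → ℝ, ∀ s, ∫ s' in (0 : ℝ)..L, ψ (s - s') = Ψ s := ⟨_, fun _ => rfl⟩
  have p1 : ∀ s, 0 ≤ Ψ s := fun s =>
    hΨ s ▸ intervalIntegral.integral_nonneg hL.le fun s' _ => p0 _
  have k1 : ∀ s, L * ψ t ≤ 2 * Ψ (s + t) + 2 * Ψ s := fun s => by
    have h1 := intervalIntegral.integral_mono hL.le (intervalIntegrable_const (c := ψ t))
      (((i1 (s + t)).const_mul 2).add ((i1 s).const_mul 2)) fun s' => by
        have h2 := ad (s + t - s') (s - s')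
        rwa [show s + t - s' - (s - s') = t by ring] at h2
    rwa [intervalIntegral.integral_add ((i1 (s + t)).const_mul 2) ((i1 s).const_mul 2),
      intervalIntegral.integral_const, intervalIntegral.integral_const_mul,
      intervalIntegral.integral_const_mul, hΨ, hΨ, sub_zero, smul_eq_mul] at h1
  simp only [hΨ] at v m2 b2
  have i2 := SpecM_ii m2 b2
  have i3 : IntervalIntegrable (fun s => Ψ (s + t)) volume 0 (L / 2) :=
    SpecM_ii (m2.comp (measurable_id.add_const t)) (fun s => b2 (s + t)) _ _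
  have k2 := intervalIntegral.integral_mono (by linarith : 0 ≤ L / 2)
    (intervalIntegrable_const (c := L * ψ t)) ((i3.const_mul 2).add ((i2 _ _).const_mul 2)) k1
  rw [intervalIntegral.integral_add (i3.const_mul 2) ((i2 _ _).const_mul 2),
    intervalIntegral.integral_const, intervalIntegral.integral_const_mul,
    intervalIntegral.integral_const_mul, intervalIntegral.integral_comp_add_right, sub_zero,
    smul_eq_mul] at k2
  have k3 := intervalIntegral.integral_mono_interval (a := 0 + t) (b := L / 2 + t)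
    (by linarith) (by linarith) (by linarith) (ae_of_all _ p1) (i2 0 L)
  have k4 := intervalIntegral.integral_mono_interval (a := 0) (b := L / 2)
    le_rfl (by linarith) (by linarith) (ae_of_all _ p1) (i2 0 L)
  refine le_of_mul_le_mul_left (a := L ^ 2) ?_ (by positivity)
  linarith

end Pool.Agent.MP_b29402_an

end
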