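import Pool.Agent.MP_b29402_an.Mg.DkC
import Pool.Agent.MP_b29402_an.Mg.SpecM
import Pool.Agent.MP_b29402_an.Mg.MWt
import Pool.Agent.MP_b29402_an.Mg.Fam1

-- part MP_b29402_an.PureA
section

/-! Pigeonhole lemmas and symbol estimates used in the core argument. -/

open MeasureTheory Set Filter Topology ProbabilityTheory
open scoped ComplexConjugate ENNReal

namespace Pool.Agent.MP_b29402_an

/-- Otherwise for each `θ ∈ J` the number of `k < P` with `θ ∉ Bad k` is at most `M / d ≤ P / 2`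
(telescoping sum of the nonnegative drops), so `∑ k < P, indicator (Bad k) θ ≥ P / 2` on `J`; integrate
over `J = Icc a (a + l)`: `P l / 2 ≤ P l / 4`. -/
theorem exists_thick_small_drop {a l d M : ℝ} (hl : 0 < l) (hd : 0 < d) {P : ℕ} (hP0 : 0 < P)
    (hP : 2 * M ≤ P * d) (Bad : ℕ → Set ℝ) (hB : ∀ k, MeasurableSet (Bad k))
    (hv : ∀ k, volume.real (Icc a (a + l) ∩ Bad k) ≤ l / 4) (u : ℝ → ℕ → ℝ)
    (h0 : ∀ θ ∈ Icc a (a + l), ∀ k, 0 ≤ u θ k) (hM : ∀ θ ∈ Icc a (a + l), u θ 0 ≤ M)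
    (hmono : ∀ θ ∈ Icc a (a + l), ∀ k, u θ (k + 1) ≤ u θ k) :
    ∃ θ ∈ Icc a (a + l), ∃ k < P, θ ∉ Bad k ∧ u θ k - u θ (k + 1) ≤ d := by
  classical
  by_contra hcon
  push Not at hcon
  have key : ∀ θ ∈ Icc a (a + l), (P : ℝ) / 2 ≤
      ∑ k ∈ Finset.range P, (Bad k).indicator (fun _ => (1 : ℝ)) θ := by
    intro θ hθ
    have h1 : ∀ k ∈ Finset.range P,
        d * (1 - (Bad k).indicator (fun _ => (1 : ℝ)) θ) ≤ u θ k - u θ (k + 1) := by
      intro k hk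
      by_cases hb : θ ∈ Bad k
      · rw [indicator_of_mem hb]
        have := hmono θ hθ k
        linarith
      · rw [indicator_of_notMem hb]
        have := hcon θ hθ k (Finset.mem_range.1 hk) hb
        linarith
    have h2 := Finset.sum_le_sum h1
    rw [Finset.sum_range_sub', ← Finset.mul_sum, Finset.sum_sub_distrib, Finset.sum_const,
      Finset.card_range, nsmul_eq_mul, mul_one] at h2
    have h3 := h0 θ hθ P
    have h4 := hM θ hθ
    by_contra h5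
    push Not at h5
    nlinarith
  have hint : ∀ k, Integrable ((Bad k).indicator (fun _ => (1 : ℝ)))
      (volume.restrict (Icc a (a + l))) := fun k => (integrable_const _).indicator (hB k)
  have h1 : ∫ _ in Icc a (a + l), (P : ℝ) / 2 ≤
      ∫ θ in Icc a (a + l), ∑ k ∈ Finset.range P, (Bad k).indicator (fun _ => (1 : ℝ)) θ :=
    setIntegral_mono_on (integrable_const _) (integrable_finsetSum _ fun k _ => hint k)
      measurableSet_Icc key
  rw [integral_finsetSum _ fun k _ => hint k, setIntegral_const, Real.volume_real_Icc_of_le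
    (by linarith), smul_eq_mul] at h1
  have h2 : ∀ k ∈ Finset.range P,
      ∫ θ in Icc a (a + l), (Bad k).indicator (fun _ => (1 : ℝ)) θ ≤ l / 4 := by
    intro k _
    rw [integral_indicator_const _ (hB k), smul_eq_mul, mul_one, measureReal_restrict_apply (hB k),
      inter_comm]
    exact hv k
  have h3 := Finset.sum_le_sum h2
  rw [Finset.sum_const, Finset.card_range, nsmul_eq_mul] at h3
  have h4 : (0 : ℝ) < P := Nat.cast_pos.2 hP0
  nlinarith [mul_pos h4 hl]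

variable (τ : Measure ℝ) [IsFiniteMeasure τ]

theorem PureA_low {f : ℝ → ℝ} {C c : ℝ} (hf : Continuous f) (h0 : ∀ y, 0 ≤ f y)
    (hC : ∀ y, f y ≤ C) {S : Set ℝ} (hS : MeasurableSet S) (hc : ∀ y ∈ S, c ≤ f y) :
    c * τ.real S ≤ ∫ y, f y ∂τ := by
  have hi : Integrable f τ := Integrable.of_bound hf.aestronglyMeasurable C
    (Eventually.of_forall fun y => by rw [Real.norm_eq_abs, abs_of_nonneg (h0 y)]; exact hC y)
  have h1 : ∫ y, S.indicator (fun _ => c) y ∂τ ≤ ∫ y, f y ∂τ :=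
    integral_mono ((integrable_const c).indicator hS) hi fun y => by
      by_cases hy : y ∈ S
      · rw [indicator_of_mem hy]
        exact hc y hy
      · rw [indicator_of_notMem hy]
        exact h0 y
  rwa [integral_indicator_const _ hS, smul_eq_mul, mul_comm] at h1

theorem PureA_up {K : ℝ} (hK : τ.real univ ≤ K) {f : ℝ → ℝ} {c e : ℝ} (h0 : ∀ y, 0 ≤ f y)
    (he : 0 ≤ e) {S : Set ℝ} (hS : MeasurableSet S)
    (h : ∀ y, f y ≤ S.indicator (fun _ => c) y + e) :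
    ∫ y, f y ∂τ ≤ c * τ.real S + K * e := by
  have hi := (integrable_const (μ := τ) c).indicator hS
  have h1 : ∫ y, f y ∂τ ≤ ∫ y, (S.indicator (fun _ => c) y + e) ∂τ :=
    integral_mono_of_nonneg (Eventually.of_forall h0) (hi.add (integrable_const e))
      (Eventually.of_forall h)
  rw [integral_add hi (integrable_const e), integral_indicator_const _ hS, integral_const,
    smul_eq_mul, smul_eq_mul, mul_comm _ c] at h1
  have h2 := mul_le_mul_of_nonneg_right hK he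
  linarith

theorem PureA_ex_sub (s t : ℝ) : ‖ex s - ex t‖ ≤ 2 := by
  have := norm_sub_le (ex s) (ex t)
  rw [ex_norm, ex_norm] at this
  linarith

/-- the annuli are pairwise disjoint: telescoping `τ (Iv y (ρ i)) - τ (Iv y (ρ (i+1)))` -/
theorem exists_light_annulus {K κ : ℝ} (hK : τ.real univ ≤ K) {P : ℕ} (hP0 : 0 < P)
    (hP : K ≤ P * κ) (y : ℝ) {ρ : ℕ → ℝ} (hρ : Antitone ρ) :
    ∃ i < P, τ.real (Iv y (ρ i) \ Iv y (ρ (i + 1))) ≤ κ := by
  by_contra hcon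
  push Not at hcon
  have h1 : ∀ i, τ.real (Iv y (ρ i) \ Iv y (ρ (i + 1))) =
      τ.real (Iv y (ρ i)) - τ.real (Iv y (ρ (i + 1))) := by
    intro i
    refine measureReal_sdiff (fun z hz => ?_) (measurableSet_Iv _ _)
    rw [mem_Iv] at hz ⊢
    exact hz.trans (hρ (Nat.le_succ i))
  have h2 : ∑ _i ∈ Finset.range P, κ <
      ∑ i ∈ Finset.range P, (τ.real (Iv y (ρ i)) - τ.real (Iv y (ρ (i + 1)))) :=
    Finset.sum_lt_sum_of_nonempty (Finset.nonempty_range_iff.2 hP0.ne') fun i hi => by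
      rw [← h1]
      exact hcon i (Finset.mem_range.1 hi)
  rw [Finset.sum_range_sub' (fun i => τ.real (Iv y (ρ i))), Finset.sum_const, Finset.card_range,
    nsmul_eq_mul] at h2
  have h3 : τ.real (Iv y (ρ 0)) ≤ τ.real univ := measureReal_mono (subset_univ _)
  have h4 : 0 ≤ τ.real (Iv y (ρ P)) := measureReal_nonneg
  linarith

/-- The set is covered by the pieces `E j` (`j : ℤ` with `|2 π j - ℓ cen| ≤ 3 r ℓ / (2 T) + 1`, at most
`(3 r lp + 2)/(2 π) + 1 ≤ 3 r lp + 2` of them). One piece has mass `≥ m / (3 r lp + 2) > 0`; take `y` in it;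
the piece has diameter `≤ 2 δ / ℓ ≤ 2 δ / T`. -/
theorem exists_near_atom {T ℓ lp r cen δ m : ℝ} (hT : 0 < T) (hℓ : T ≤ ℓ) (hℓ' : ℓ ≤ lp * T)
    (hr : 0 < r) (hδ : 0 < δ) (hδ1 : δ ≤ 1) (hm : 0 < m)
    (h : m ≤ τ.real {y | |y - cen| ≤ 3 * r / (2 * T) ∧ ∃ j : ℤ, |ℓ * y - 2 * Real.pi * j| ≤ δ}) :
    ∃ y, |y - cen| ≤ 3 * r / (2 * T) ∧ m / (3 * r * lp + 2) ≤ τ.real (Iv y (2 * δ / T)) := by
  by_contra hcon
  push Not at hcon
  have hℓ0 : 0 < ℓ := hT.trans_le hℓ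
  have hlp : 1 ≤ lp := by
    by_contra h1
    push Not at h1
    nlinarith
  set X : ℝ := 3 * r * lp + 2 with hX
  have hX2 : 2 < X := by
    have : 0 < r * lp := by positivity
    linarith
  have hpi := Real.pi_gt_three
  have hpi0 : 0 < 2 * Real.pi := by linarith
  set E : ℤ → Set ℝ := fun j =>
    {y | |y - cen| ≤ 3 * r / (2 * T) ∧ |ℓ * y - 2 * Real.pi * j| ≤ δ} with hE
  set S : Finset ℤ := Finset.Icc ⌈(ℓ * cen - X / 2) / (2 * Real.pi)⌉
    ⌊(ℓ * cen + X / 2) / (2 * Real.pi)⌋ with hS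
  have hsub : {y | |y - cen| ≤ 3 * r / (2 * T) ∧ ∃ j : ℤ, |ℓ * y - 2 * Real.pi * j| ≤ δ} ⊆
      ⋃ j ∈ S, E j := by
    rintro y ⟨h1, j, h2⟩
    refine mem_biUnion (x := j) ?_ ⟨h1, h2⟩
    have h3 : ℓ * |y - cen| ≤ 3 * r * lp / 2 := by
      calc ℓ * |y - cen| ≤ (lp * T) * (3 * r / (2 * T)) :=
            mul_le_mul hℓ' h1 (abs_nonneg _) (by positivity)
        _ = 3 * r * lp / 2 := by field_simp
    have h4 : |ℓ * y - ℓ * cen| ≤ 3 * r * lp / 2 := by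
      rw [← mul_sub, abs_mul, abs_of_pos hℓ0]
      exact h3
    rw [abs_le] at h2 h4
    simp only [hS, Finset.coe_Icc, mem_Icc]
    constructor
    · rw [Int.ceil_le, div_le_iff₀ hpi0]
      linarith [h2.1, h2.2, h4.1, h4.2]
    · rw [Int.le_floor, le_div_iff₀ hpi0]
      linarith [h2.1, h2.2, h4.1, h4.2]
  have hmX : 0 < m / X := by positivity
  have hpiece : ∀ j ∈ S, τ.real (E j) ≤ m / X := by
    intro j _
    rcases (E j).eq_empty_or_nonempty with h0 | ⟨y, hy1, hy2⟩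
    · rw [h0, measureReal_empty]
      exact hmX.le
    · refine le_trans (measureReal_mono fun z hz => ?_) (hcon y hy1).le
      rw [mem_Iv, le_div_iff₀ hT]
      have h5 : |ℓ * z - ℓ * y| ≤ 2 * δ := by
        have h6 := hz.2
        rw [abs_le] at h6 hy2 ⊢
        constructor <;> linarith [h6.1, h6.2, hy2.1, hy2.2]
      rw [← mul_sub, abs_mul, abs_of_pos hℓ0] at h5
      nlinarith [abs_nonneg (z - y)]
  have hcard : (S.card : ℝ) < X := by
    have h1 := Int.floor_le ((ℓ * cen + X / 2) / (2 * Real.pi))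
    have h2 := Int.le_ceil ((ℓ * cen - X / 2) / (2 * Real.pi))
    have h3 : (ℓ * cen + X / 2) / (2 * Real.pi) - (ℓ * cen - X / 2) / (2 * Real.pi)
        = X / (2 * Real.pi) := by ring
    have h4 : X / (2 * Real.pi) ≤ X / 6 := div_le_div_of_nonneg_left (by linarith) (by norm_num)
      (by linarith)
    rw [hS, Int.card_Icc]
    rcases le_or_gt 0 (⌊(ℓ * cen + X / 2) / (2 * Real.pi)⌋ + 1 -
      ⌈(ℓ * cen - X / 2) / (2 * Real.pi)⌉) with h5 | h5
    · rw [← Int.cast_natCast, Int.toNat_of_nonneg h5]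
      push_cast
      linarith
    · rw [Int.toNat_of_nonpos h5.le]
      push_cast
      linarith
  have h1 := (measureReal_mono hsub (measure_ne_top _ _)).trans (measureReal_biUnion_finset_le (μ := τ) S E)
  have h2 := Finset.sum_le_sum hpiece
  rw [Finset.sum_const, nsmul_eq_mul] at h2
  have h3 : (S.card : ℝ) * (m / X) < X * (m / X) := mul_lt_mul_of_pos_right hcard hmX
  have h4 : X * (m / X) = m := by field_simp
  linarith

/-- `Dk_le_div` -/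
theorem filt_out {T r cen y : ℝ} (hT : 0 < T) (hr : 0 < r) (hy : 3 * r / (2 * T) < |y - cen|)
    (n : ℕ) : ‖Dk (2 * T / r * (y - cen)) ^ n‖ ^ 2 ≤ (4 / 9) ^ n := by
  have h1 : 3 < |2 * T / r * (y - cen)| := by
    rw [abs_mul, abs_of_pos (show 0 < 2 * T / r by positivity)]
    rw [div_lt_iff₀ (by positivity)] at hy
    rw [div_mul_eq_mul_div, lt_div_iff₀ hr]
    linarith
  have h2 := Dk_le_div _ (abs_pos.1 (lt_trans (by norm_num) h1))
  have h3 : ‖Dk (2 * T / r * (y - cen))‖ ≤ 2 / 3 :=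
    h2.trans (div_le_div_of_nonneg_left (by norm_num) (by norm_num) h1.le)
  rw [norm_pow, ← pow_mul, mul_comm n 2, pow_mul]
  refine pow_le_pow_left₀ (by positivity) ?_ n
  nlinarith [norm_nonneg (Dk (2 * T / r * (y - cen)))]

/-- `Dk_ge` on the window -/
theorem filt_low {T r cen : ℝ} (hT : 0 < T) (hr : 0 < r) (h : 1 ≤ τ.real (Iv cen (r / T)))
    (n : ℕ) : (25 / 36) ^ n ≤ ∫ y, ‖Dk (2 * T / r * (y - cen)) ^ n‖ ^ 2 ∂τ := by
  have h1 := PureA_low τ (f := fun y => ‖Dk (2 * T / r * (y - cen)) ^ n‖ ^ 2) (C := 1)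
    (c := (25 / 36) ^ n)
    (((Dk_continuous.comp (by fun_prop)).pow n).norm.pow 2) (fun y => by positivity)
    (fun y => by
      rw [norm_pow]
      exact pow_le_one₀ (by positivity) (pow_le_one₀ (norm_nonneg _) (Dk_le_one _)))
    (measurableSet_Iv cen (r / T)) (fun y hy => by
      rw [mem_Iv, le_div_iff₀ hT] at hy
      have h2 : |2 * T / r * (y - cen)| ≤ 2 := by
        rw [abs_mul, abs_of_pos (show 0 < 2 * T / r by positivity), div_mul_eq_mul_div,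
          div_le_iff₀ hr]
        linarith
      have h3 := Dk_ge _ h2
      rw [norm_pow, ← pow_mul, mul_comm n 2, pow_mul]
      refine pow_le_pow_left₀ (by norm_num) ?_ n
      nlinarith)
  have h2 : (0 : ℝ) ≤ (25 / 36) ^ n := by positivity
  nlinarith

/-- pointwise the integrand is at most `indicator + (4/9) ^ n + (π / (J δ))²` (`filt_out`,
`dirichlet_le`, `dirichlet_le_one`, `Dk_le_one`); the set is measurable (closed conditions,
countable union). -/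
theorem filt_dirichlet {K T r cen ℓ δ : ℝ} (hK : τ.real univ ≤ K) (hT : 0 < T) (hr : 0 < r)
    (hδ : 0 < δ) (n : ℕ) {J : ℕ} (hJ : 0 < J) :
    ∫ y, ‖tp (fun _ : Fin J => (J : ℂ)⁻¹) (fun i => (i : ℝ) * ℓ) y *
        Dk (2 * T / r * (y - cen)) ^ n‖ ^ 2 ∂τ ≤
      τ.real {y | |y - cen| ≤ 3 * r / (2 * T) ∧ ∃ j : ℤ, |ℓ * y - 2 * Real.pi * j| ≤ δ} +
        K * (4 / 9) ^ n + K * (Real.pi / (J * δ)) ^ 2 := by
  have hmeas : MeasurableSet
      {y | |y - cen| ≤ 3 * r / (2 * T) ∧ ∃ j : ℤ, |ℓ * y - 2 * Real.pi * j| ≤ δ} := by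
    rw [ofPred_and, ofPred_exists]
    exact (isClosed_le (by fun_prop) (by fun_prop)).measurableSet.inter
      (MeasurableSet.iUnion fun j => (isClosed_le (by fun_prop) (by fun_prop)).measurableSet)
  have h1 := PureA_up τ hK (c := 1) (e := (4 / 9) ^ n + (Real.pi / (J * δ)) ^ 2)
    (f := fun y => ‖tp (fun _ : Fin J => (J : ℂ)⁻¹) (fun i => (i : ℝ) * ℓ) y *
        Dk (2 * T / r * (y - cen)) ^ n‖ ^ 2) (fun y => by positivity) (by positivity) hmeas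
    (fun y => by
      have a1 := dirichlet_le_one J ℓ y
      have a2 : ‖Dk (2 * T / r * (y - cen)) ^ n‖ ≤ 1 := by
        rw [norm_pow]
        exact pow_le_one₀ (norm_nonneg _) (Dk_le_one _)
      have a3 := norm_nonneg (tp (fun _ : Fin J => (J : ℂ)⁻¹) (fun i => (i : ℝ) * ℓ) y)
      have a4 := norm_nonneg (Dk (2 * T / r * (y - cen)) ^ n)
      have a5 : ‖tp (fun _ : Fin J => (J : ℂ)⁻¹) (fun i => (i : ℝ) * ℓ) y‖ ^ 2 ≤ 1 :=
        pow_le_one₀ a3 a1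
      have a6 : ‖Dk (2 * T / r * (y - cen)) ^ n‖ ^ 2 ≤ 1 := pow_le_one₀ a4 a2
      have a7 : (0 : ℝ) ≤ (4 / 9) ^ n := by positivity
      have a8 : 0 ≤ (Real.pi / (J * δ)) ^ 2 := by positivity
      rw [norm_mul, mul_pow]
      by_cases hy : y ∈ {y | |y - cen| ≤ 3 * r / (2 * T) ∧
          ∃ j : ℤ, |ℓ * y - 2 * Real.pi * j| ≤ δ}
      · rw [indicator_of_mem hy]
        have := mul_le_one₀ a5 (by positivity) a6
        linarith
      · rw [indicator_of_notMem hy, zero_add]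
        by_cases h2 : |y - cen| ≤ 3 * r / (2 * T)
        · have h3 := dirichlet_le J hJ ℓ y δ hδ fun j => not_le.1 fun h4 => hy ⟨h2, j, h4⟩
          have h5 := pow_le_pow_left₀ a3 h3 2
          have h6 := mul_le_mul h5 a6 (by positivity) a8
          linarith
        · have h3 := filt_out hT hr (not_le.1 h2) n
          have h6 := mul_le_mul a5 h3 (by positivity) zero_le_one
          linarith)
  linarith

/-- `Dk_ge` -/
theorem atom_low {T S ρ m y0 : ℝ} (hT : 0 < T) (hS : 0 < S) (hρ : S * ρ ≤ 2)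
    (h : m ≤ τ.real (Iv y0 (ρ / T))) :
    25 / 36 * m ≤ ∫ y, ‖Dk (S * T * (y - y0))‖ ^ 2 ∂τ := by
  have h1 := PureA_low τ (f := fun y => ‖Dk (S * T * (y - y0))‖ ^ 2) (C := 1) (c := 25 / 36)
    ((Dk_continuous.comp (by fun_prop)).norm.pow 2) (fun y => by positivity)
    (fun y => pow_le_one₀ (norm_nonneg _) (Dk_le_one _))
    (measurableSet_Iv y0 (ρ / T)) (fun y hy => by
      rw [mem_Iv, le_div_iff₀ hT] at hy
      have h2 : |S * T * (y - y0)| ≤ 2 := by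
        rw [abs_mul, abs_of_pos (show 0 < S * T by positivity)]
        nlinarith
      have h3 := Dk_ge _ h2
      nlinarith)
  linarith

/-- `Dk_le_div` -/
theorem eig_out {T S d s y0 y : ℝ} (hT : 0 < T) (hS : 0 < S) (hd : 0 < d)
    (hy : d / T ≤ |y - y0|) :
    ‖(ex (s * y) - ex (s * y0)) * Dk (S * T * (y - y0))‖ ^ 2 ≤ 16 / (S * d) ^ 2 := by
  rw [div_le_iff₀ hT] at hy
  have h1 : S * d ≤ |S * T * (y - y0)| := by
    rw [abs_mul, abs_of_pos (show 0 < S * T by positivity)]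
    nlinarith
  have h0 : 0 < S * d := by positivity
  have h2 : ‖Dk (S * T * (y - y0))‖ ≤ 2 / (S * d) :=
    (Dk_le_div _ (abs_pos.1 (h0.trans_le h1))).trans
      (div_le_div_of_nonneg_left (by norm_num) h0 h1)
  have h3 := mul_le_mul (PureA_ex_sub (s * y) (s * y0)) h2 (norm_nonneg _) (by norm_num)
  rw [norm_mul]
  calc _ ≤ (2 * (2 / (S * d))) ^ 2 := pow_le_pow_left₀ (by positivity) h3 2
    _ = 16 / (S * d) ^ 2 := by field_simp; norm_num

/-- pointwise: inside `Iv y0 (ρi/T)` use `ex_sub_le`; in the annulus the bound `4`; outside `eig_out`. -/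
theorem eig_integral {K T S S' ρi ρo s y0 : ℝ} (hK : τ.real univ ≤ K) (hT : 0 < T) (hS : 0 < S)
    (hρo : 0 < ρo) (hs0 : 0 ≤ s) (hs : s ≤ S' * T) :
    ∫ y, ‖(ex (s * y) - ex (s * y0)) * Dk (S * T * (y - y0))‖ ^ 2 ∂τ ≤
      K * (S' * ρi) ^ 2 + 4 * τ.real (Iv y0 (ρo / T) \ Iv y0 (ρi / T)) +
        K * (16 / (S * ρo) ^ 2) := by
  have h1 := PureA_up τ hK (c := 4) (e := (S' * ρi) ^ 2 + 16 / (S * ρo) ^ 2)
    (f := fun y => ‖(ex (s * y) - ex (s * y0)) * Dk (S * T * (y - y0))‖ ^ 2)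
    (fun y => by positivity) (by positivity)
    ((measurableSet_Iv y0 (ρo / T)).diff (measurableSet_Iv y0 (ρi / T)))
    (fun y => by
      have a1 : 0 ≤ (S' * ρi) ^ 2 := by positivity
      have a2 : 0 ≤ 16 / (S * ρo) ^ 2 := by positivity
      have a3 : ‖(ex (s * y) - ex (s * y0)) * Dk (S * T * (y - y0))‖ ≤
          ‖ex (s * y) - ex (s * y0)‖ := by
        rw [norm_mul]
        exact mul_le_of_le_one_right (norm_nonneg _) (Dk_le_one _)
      by_cases hy : y ∈ Iv y0 (ρo / T) \ Iv y0 (ρi / T)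
      · rw [indicator_of_mem hy]
        have := pow_le_pow_left₀ (norm_nonneg _) (a3.trans (PureA_ex_sub _ _)) 2
        linarith
      · rw [indicator_of_notMem hy, zero_add]
        by_cases h2 : y ∈ Iv y0 (ρi / T)
        · rw [mem_Iv] at h2
          have h3 : ‖ex (s * y) - ex (s * y0)‖ ≤ S' * ρi := by
            refine (ex_sub_le _ _).trans ?_
            rw [← mul_sub, abs_mul, abs_of_nonneg hs0]
            calc s * |y - y0| ≤ (S' * T) * (ρi / T) :=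
                  mul_le_mul hs h2 (abs_nonneg _) (hs0.trans hs)
              _ = S' * ρi := by field_simp
          have := pow_le_pow_left₀ (norm_nonneg _) (a3.trans h3) 2
          linarith
        · have h3 : y ∉ Iv y0 (ρo / T) := fun h => hy ⟨h, h2⟩
          rw [mem_Iv, not_le] at h3
          have := eig_out (s := s) hT hS hρo h3.le
          linarith)
  linarith

/-- `ex (y ℓ) - ex (y' ℓ)` has norm `≤ 2 ζ`, while `z = (y - y') ℓ` satisfies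
`(13/128) l ≤ |z| ≤ 3/2`, so `‖ex z - 1‖ ≥ (2/π) (13/128) l > l / 25` (`ex_sub_one_ge`). -/
theorem two_windows_false {T l ℓ c s y y' : ℝ} (hT : 0 < T) (hl : 0 < l) (h1 : l * T ≤ ℓ)
    (h2 : ℓ ≤ 1 * T) (h3 : 1 / T / 2 < |s - c|) (h4 : |s - c| ≤ 1 / T)
    (h5 : |y - c| ≤ 3 * (1 / 4) / (2 * T)) (h6 : |y' - s| ≤ 3 * (1 / 64) / (2 * T))
    (h7 : ‖ex (y * ℓ) - 1‖ ≤ l / 50) (h8 : ‖ex (y' * ℓ) - 1‖ ≤ l / 50) : False := by
  have hℓ : 0 < ℓ := lt_of_lt_of_le (by positivity) h1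
  set w : ℝ := 1 / T with hw
  have hw0 : 0 < w := by positivity
  have hwT : w * T = 1 := by rw [hw]; field_simp
  have e5 : 3 * (1 / 4) / (2 * T) = 3 / 8 * w := by rw [hw]; field_simp; norm_num
  have e6 : 3 * (1 / 64) / (2 * T) = 3 / 128 * w := by rw [hw]; field_simp; norm_num
  rw [e5] at h5
  rw [e6] at h6
  have a1 : 13 / 128 * w ≤ |y - y'| := by
    have b1 : |s - c| ≤ |y' - s| + |y - y'| + |y - c| := by
      have e : s - c = -(y' - s) + -(y - y') + (y - c) := by ring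
      rw [e]
      refine (abs_add_three _ _ _).trans ?_
      rw [abs_neg, abs_neg]
    linarith
  have a2 : |y - y'| ≤ 3 / 2 * w := by
    have e : y - y' = (y - c) + -(s - c) + -(y' - s) := by ring
    rw [e]
    refine (abs_add_three _ _ _).trans ?_
    rw [abs_neg, abs_neg]
    linarith
  have a3 : |(y - y') * ℓ| = |y - y'| * ℓ := by rw [abs_mul, abs_of_pos hℓ]
  have a4 : 13 / 128 * l ≤ |(y - y') * ℓ| := by
    rw [a3]
    calc 13 / 128 * l = (13 / 128 * w) * (l * T) := by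
          rw [show 13 / 128 * w * (l * T) = 13 / 128 * l * (w * T) by ring, hwT, mul_one]
      _ ≤ |y - y'| * ℓ := mul_le_mul a1 h1 (by positivity) (abs_nonneg _)
  have a5 : |(y - y') * ℓ| ≤ Real.pi := by
    rw [a3]
    calc |y - y'| * ℓ ≤ (3 / 2 * w) * (1 * T) := mul_le_mul a2 h2 hℓ.le (by positivity)
      _ = 3 / 2 := by rw [show 3 / 2 * w * (1 * T) = 3 / 2 * (w * T) by ring, hwT, mul_one]
      _ ≤ Real.pi := by linarith [Real.pi_gt_three]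
  have a6 := ex_sub_one_ge _ a5
  have a7 : ‖ex ((y - y') * ℓ) - 1‖ = ‖ex (y * ℓ) - ex (y' * ℓ)‖ := by
    have e : ex (y * ℓ) - ex (y' * ℓ) = (ex ((y - y') * ℓ) - 1) * ex (y' * ℓ) := by
      rw [sub_mul, ← ex_add, one_mul]
      congr 2
      ring
    rw [e, norm_mul, ex_norm, mul_one]
  have a8 : ‖ex (y * ℓ) - ex (y' * ℓ)‖ ≤ l / 25 := by
    have := norm_sub_le_norm_sub_add_norm_sub (ex (y * ℓ)) 1 (ex (y' * ℓ))
    rw [norm_sub_rev 1] at this
    linarith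
  have a9 : 1 / 2 ≤ 2 / Real.pi := by
    rw [le_div_iff₀ Real.pi_pos]
    linarith [Real.pi_le_four]
  have a10 := mul_le_mul a9 a4 (by positivity) (by positivity)
  linarith

end Pool.Agent.MP_b29402_an

end

-- part MP_b29402_an.EQ
section

/-! A long fat cylinder which carries a definite part of the mass. -/

open MeasureTheory Set Filter Topology ProbabilityTheory
open scoped ComplexConjugate ENNReal

namespace Pool.Agent.MP_b29402_an

namespace Flat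

variable {X : Type*} [MeasurableSpace X]

/-- successive averages over the times `2 Γ (1 + 2 Γ) ^ k S1 T` -/
noncomputable def avSeq (Z : Flat X) (Γ S1 T : ℝ) (G : ℝ → X → ℂ) : ℕ → ℝ → X → ℂ
  | 0 => G
  | k + 1 => Z.AvF (2 * Γ * (1 + 2 * Γ) ^ k * S1 * T) 0 (avSeq Z Γ S1 T G k)

variable {Z : Flat X} {Θ : Set ℝ} {Γ S1 T Λ B : ℝ} {G : ℝ → X → ℂ}

theorem EQ_succ (k : ℕ) (θ : ℝ) : Z.avSeq Γ S1 T G (k + 1) θ =
    Av (Z.fl θ) (2 * Γ * (1 + 2 * Γ) ^ k * S1 * T) 0 (Z.avSeq Γ S1 T G k θ) := rfl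

theorem Fam.avSeq (h : Z.Fam Θ (S1 * T) Λ B G) (hΓ : 0 < Γ) (hS : 0 < S1) (hT : 0 < T) (k : ℕ) :
    Z.Fam Θ ((1 + 2 * Γ) ^ k * S1 * T) Λ B (Z.avSeq Γ S1 T G k) := by
  induction k with
  | zero => rw [pow_zero, one_mul]; exact h
  | succ k ih =>
    have h1 := ih.av (L := 2 * Γ * (1 + 2 * Γ) ^ k * S1 * T) (by positivity) 0
    have e : (1 + 2 * Γ) ^ k * S1 * T + 2 * Γ * (1 + 2 * Γ) ^ k * S1 * T =
        (1 + 2 * Γ) ^ (k + 1) * S1 * T := by ring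
    rw [e] at h1
    exact h1

theorem Fam.integral_avSeq (h : Z.Fam Θ (S1 * T) Λ B G) (hΓ : 0 < Γ) (hS : 0 < S1) (hT : 0 < T)
    {θ : ℝ} (hθ : θ ∈ Θ) (k : ℕ) :
    ∫ x, Z.avSeq Γ S1 T G k θ x ∂Z.μ = ∫ x, G θ x ∂Z.μ := by
  induction k with
  | zero => rfl
  | succ k ih =>
    rw [EQ_succ, integral_av (Z.aeflow θ) ((h.avSeq hΓ hS hT k).bm hθ) (by positivity) 0, ih,
      neg_zero, mul_zero, Dk_zero, one_mul]

/-- `setIntegral_av0`, `per_fl_iff`, `measurableSet_per` -/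
theorem Fam.setIntegral_avSeq (h : Z.Fam Θ (S1 * T) Λ B G) (hΓ : 0 < Γ) (hS : 0 < S1)
    (hT : 0 < T) {θ ℓ : ℝ} (hθ : θ ∈ Θ) (hℓ : 0 < ℓ) (k : ℕ) :
    ∫ x in Z.Per (ℓ • ev θ), Z.avSeq Γ S1 T G k θ x ∂Z.μ =
      ∫ x in Z.Per (ℓ • ev θ), G θ x ∂Z.μ := by
  induction k with
  | zero => rfl
  | succ k ih =>
    rw [EQ_succ, setIntegral_av0 (Z.aeflow θ) ((h.avSeq hΓ hS hT k).bm hθ) (by positivity)
      (Z.measurableSet_per _) (fun s x hx => per_fl_iff hℓ s hx), ih]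

theorem EQ_gamma {ε η δ c : ℝ} (hε : 0 < ε) (hη : 0 < η) (hδ : 0 < δ) (hc : 0 ≤ c) :
    ∃ Γ : ℝ, 16 ≤ Γ ∧ 1 ≤ ε * Γ ∧ 1 ≤ η * Γ ∧ c / Γ ^ 2 ≤ δ ^ 2 / 2 := by
  have h1 : 0 < 1 / ε := by positivity
  have h2 : 0 < 1 / η := by positivity
  have h3 : 0 ≤ 2 * c / δ ^ 2 := by positivity
  refine ⟨16 + 1 / ε + 1 / η + 2 * c / δ ^ 2, by linarith, ?_, ?_, ?_⟩
  · rw [mul_comm, ← div_le_iff₀ hε]; linarith
  · rw [mul_comm, ← div_le_iff₀ hη]; linarith
  · set Γ := 16 + 1 / ε + 1 / η + 2 * c / δ ^ 2 with hΓ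
    have h4 : 1 ≤ Γ := by linarith
    have h5 : 2 * c / δ ^ 2 ≤ Γ := by linarith
    rw [div_le_iff₀ (by positivity)] at h5
    rw [div_le_iff₀ (by positivity)]
    have h6 : Γ ≤ Γ ^ 2 := by nlinarith
    nlinarith [mul_le_mul_of_nonneg_right h6 (sq_nonneg δ)]

theorem EQ_nat {M d : ℝ} (hd : 0 < d) : ∃ P : ℕ, 0 < P ∧ 2 * M ≤ P * d := by
  obtain ⟨n, hn⟩ := exists_nat_ge (2 * M / d)
  refine ⟨n + 1, n.succ_pos, ?_⟩
  rw [div_le_iff₀ hd] at hn
  push_cast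
  linarith

theorem EQ_abs {a l θ : ℝ} (h : θ ∈ Icc a (a + l)) (hl : 0 ≤ l) : |θ - a| ≤ l :=
  abs_le.2 ⟨by linarith [h.1], by linarith [h.2]⟩

theorem EQ_mem {T c a θ : ℝ} (hT : 0 < T) (hc : c ≤ 1 / 2) (h : |θ - a| ≤ c / T ^ 2) :
    θ ∈ Iv a (1 / 2 / T ^ 2) := by
  have h1 : c / T ^ 2 ≤ 1 / 2 / T ^ 2 := by gcongr
  have h2 := abs_le.1 (h.trans h1)
  exact ⟨by linarith [h2.1], by linarith [h2.2]⟩

theorem EQ_small {T E : ℝ} (hT : 0 < T) (hE : 16 ≤ E) : 1 / (T * E) ^ 2 ≤ 1 / 8 / T ^ 2 := by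
  rw [div_div, mul_pow, mul_comm]
  have : 8 ≤ E ^ 2 := by nlinarith
  gcongr

theorem EQ_cu {T Γ S B ω δ N : ℝ} (hT : 0 < T) (hΓ : 16 ≤ Γ) (hS : 1 ≤ S) (hB : 0 < B)
    (hω : 0 ≤ ω) (hω2 : 28 * B * ω ≤ δ) (hc : 56 * (B ^ 2) ^ 2 * N / Γ ^ 2 ≤ δ ^ 2 / 2) :
    (7 * (2 * B * ω * T) * (S * T) * (1 / (T * (Γ * S)) ^ 2)) ^ 2 +
      56 * (B ^ 2) ^ 2 * N * (S * T) ^ 2 * (1 / (T * (Γ * S)) ^ 2) ≤ δ ^ 2 := by
  have hΓ0 : 0 < Γ := by linarith
  have hS0 : 0 < S := by linarith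
  have e1 : 7 * (2 * B * ω * T) * (S * T) * (1 / (T * (Γ * S)) ^ 2) = 14 * B * ω / (Γ ^ 2 * S) := by
    field_simp
    ring
  have e2 : 56 * (B ^ 2) ^ 2 * N * (S * T) ^ 2 * (1 / (T * (Γ * S)) ^ 2) =
      56 * (B ^ 2) ^ 2 * N / Γ ^ 2 := by
    field_simp
  have h1 : 14 * B * ω / (Γ ^ 2 * S) ≤ δ / 2 := by
    refine (div_le_self (by positivity) ?_).trans (by linarith)
    exact one_le_mul_of_one_le_of_one_le (one_le_pow₀ (by linarith)) hS
  have h2 : (14 * B * ω / (Γ ^ 2 * S)) ^ 2 ≤ (δ / 2) ^ 2 := pow_le_pow_left₀ (by positivity) h1 2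
  rw [e1, e2]
  nlinarith [sq_nonneg δ]

/-- `ε1` from `nondiv_arc` (`η = 1/4`), `R2, a0` from `exists_cyl_dir` at `ε1`, `a = a0 / 2`. Given `B S1 m0`:
`δ = a0 m0 / 4`, `η` from `near_const` for `(ε1, B², δ)`; `Γ ≥ 16`, `Γ ≥ 1/ε1`, `Γ ≥ 1/η`, `56 B⁴ N / Γ² ≤ δ²/2`;
`d = η²/16`, `P` with `2 B⁴ ≤ P d`; `lp = R2 Γ (1 + 2 Γ) ^ P S1`; `2 B ω0 ≤ η`, `(14 B ω0)² ≤ δ²/2`.
`G θ x = ‖g θ x‖²` (`Fam.normsq`), `H k = avSeq .. G k`, `S k = (1 + 2 Γ) ^ k S1`, `E k = Γ S k`,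
`Bad k = {θ | ¬ ThickAt (T * E k) θ ε1}`, `u θ k = nsq (H k θ)` (`nsq_av_le`, `AB.nsq_le`), arc of length `1/8/T²`:
`exists_thick_small_drop` gives `θ2, k`. `metastable` (`L = 2 E k T`) and `near_const` give
`nsq (H k θ2 - mean) ≤ δ²`; `exists_cyl_dir` at level `T E k` gives `θv, ℓ`; `Fam.cu` with `d = 1/(T E k)²`;
`re_setIntegral_ge`, `Fam.integral_avSeq`, `Fam.setIntegral_avSeq`, `integral_normsq`:
`∫_Per ‖g θv‖² ≥ a0 m0 - 2 δ`. -/
theorem exists_long_cyl (Z : Flat X) {ε : ℝ} (hε : 0 < ε) :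
    ∃ a : ℝ, 0 < a ∧ ∀ B S1 m0 : ℝ, 0 < B → 1 ≤ S1 → 0 < m0 → ∃ lp ω0 : ℝ, 0 < lp ∧ 0 < ω0 ∧
      ∀ (T θ1 ω : ℝ) (g : ℝ → X → ℂ), 1 ≤ T → 0 ≤ ω → ω ≤ ω0 → Z.ThickAt T θ1 ε →
        Z.Fam (Iv θ1 (1 / T ^ 2)) (S1 * T) (ω * T) B g →
        (∀ θ ∈ Iv θ1 (1 / 2 / T ^ 2), m0 ≤ nsq Z.μ (g θ)) →
        ∃ θv ∈ Iv θ1 (1 / 2 / T ^ 2), ∃ ℓ : ℝ, T ≤ ℓ ∧ ℓ ≤ lp * T ∧
          a * m0 ≤ ∫ x in Z.Per (ℓ • ev θv), ‖g θv x‖ ^ 2 ∂Z.μ := by
  obtain ⟨ε1, hε1, hnd⟩ := Z.nondiv_arc (η := 1 / 4) hε (by norm_num)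
  obtain ⟨R2, a0, hR2, ha0, hcyl⟩ := Z.exists_cyl_dir hε1
  refine ⟨a0 / 2, by positivity, fun B S1 m0 hB hS1 hm0 => ?_⟩
  have hδ : 0 < a0 * m0 / 4 := by positivity
  obtain ⟨η, hη, hnc⟩ := Z.near_const (B := B ^ 2) hε1 hδ
  set δ := a0 * m0 / 4 with hδdef
  obtain ⟨Γ, hΓ16, hΓε, hΓη, hΓδ⟩ := EQ_gamma (c := 56 * (B ^ 2) ^ 2 * Z.N) hε1 hη hδ
    (by positivity)
  have hΓ : 0 < Γ := by linarith
  obtain ⟨P, hP0, hP⟩ := EQ_nat (M := (B ^ 2) ^ 2) (d := η ^ 2 / 16) (by positivity)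
  refine ⟨R2 * Γ * (1 + 2 * Γ) ^ P * S1, min (η / (2 * B)) (δ / (28 * B)), by positivity,
    by positivity, fun T θ1 ω g hT hω0 hω hth hg hm => ?_⟩
  have hT0 : 0 < T := by linarith
  have hS0 : 0 < S1 := by linarith
  have hω1 : 2 * B * ω ≤ η := by
    have := (le_div_iff₀ (by positivity)).1 (hω.trans (min_le_left _ _))
    linarith
  have hω2 : 28 * B * ω ≤ δ := by
    have := (le_div_iff₀ (by positivity)).1 (hω.trans (min_le_right _ _))
    linarith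
  have hG := hg.normsq
  rw [← mul_assoc] at hG
  set G : ℝ → X → ℂ := fun θ x => ((‖g θ x‖ ^ 2 : ℝ) : ℂ) with hGdef
  have hH := fun k => hG.avSeq hΓ hS0 hT0 k
  have hSk : ∀ k : ℕ, 1 ≤ (1 + 2 * Γ) ^ k * S1 := fun k =>
    one_le_mul_of_one_le_of_one_le (one_le_pow₀ (by linarith)) hS1
  have hEk : ∀ k : ℕ, Γ ≤ Γ * ((1 + 2 * Γ) ^ k * S1) := fun k =>
    le_mul_of_one_le_right hΓ.le (hSk k)
  have hl : 0 < 1 / 8 / T ^ 2 := by positivity
  have hsub : ∀ θ ∈ Icc θ1 (θ1 + 1 / 8 / T ^ 2), θ ∈ Iv θ1 (1 / 2 / T ^ 2) := fun θ hθ =>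
    EQ_mem hT0 (by norm_num) (EQ_abs hθ hl.le)
  have hsub2 : ∀ θ ∈ Iv θ1 (1 / 2 / T ^ 2), θ ∈ Iv θ1 (1 / T ^ 2) := fun θ hθ => by
    have : 1 / 2 / T ^ 2 ≤ 1 / T ^ 2 := by gcongr; norm_num
    exact ⟨by linarith [hθ.1], by linarith [hθ.2]⟩
  obtain ⟨θ2, hθ2, k, hk, hbad, hdrop⟩ := exists_thick_small_drop (a := θ1) (M := (B ^ 2) ^ 2) hl
    (by positivity) hP0 hP
    (fun k => {θ | ¬ Z.ThickAt (T * (Γ * ((1 + 2 * Γ) ^ k * S1))) θ ε1})
    (fun k => (Z.isClosed_thickAt _ _).isOpen_compl.measurableSet)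
    (fun k => by
      have := hnd T θ1 (1 / 8) (Γ * ((1 + 2 * Γ) ^ k * S1)) hT (by norm_num) le_rfl
        (by linarith [hEk k]) hth
      linarith)
    (fun θ k => nsq Z.μ (Z.avSeq Γ S1 T G k θ)) (fun θ _ k => nsq_nonneg _)
    (fun θ hθ => ((hH 0).ab (hsub2 θ (hsub θ hθ))).nsq_le)
    (fun θ hθ k => nsq_av_le (Z.aeflow θ) ((hH k).bm (hsub2 θ (hsub θ hθ))) (by positivity) 0)
  have hth2 : Z.ThickAt (T * (Γ * ((1 + 2 * Γ) ^ k * S1))) θ2 ε1 := not_not.1 hbad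
  have hm2 := hsub θ2 hθ2
  have hm2' := hsub2 θ2 hm2
  have hHk := hH k
  have hSk1 := hSk k
  have hEk1 := hEk k
  have hpow : (1 + 2 * Γ) ^ k ≤ (1 + 2 * Γ) ^ P := pow_le_pow_right₀ (by linarith) hk.le
  have hmeta : ∀ s : ℝ, 0 ≤ s → s ≤ T * (Γ * ((1 + 2 * Γ) ^ k * S1)) →
      nsq Z.μ (fun x => Z.avSeq Γ S1 T G k θ2 (Z.fl θ2 s x) - Z.avSeq Γ S1 T G k θ2 x) ≤ η ^ 2 := by
    intro s hs0 hs
    have h1 := metastable (L := 2 * Γ * (1 + 2 * Γ) ^ k * S1 * T) (Z.aeflow θ2) (hHk.bm hm2')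
      (by positivity) hs0 (by linarith)
    rw [← EQ_succ] at h1
    linarith
  have hI1 := hG.integral_avSeq hΓ hS0 hT0 hm2' k
  have hI2 := fun (θ ℓ : ℝ) (hθ : θ ∈ Iv θ1 (1 / T ^ 2)) (hℓ : 0 < ℓ) =>
    hG.setIntegral_avSeq hΓ hS0 hT0 hθ hℓ k
  generalize Z.avSeq Γ S1 T G k = H at hHk hmeta hI1 hI2
  generalize hSdef : (1 + 2 * Γ) ^ k * S1 = S at hHk hmeta hth2 hSk1 hEk1
  have hSP : S ≤ (1 + 2 * Γ) ^ P * S1 := by rw [← hSdef]; gcongr
  have hc := hnc T (Γ * S) θ2 S (2 * B * ω) _ H hT (by linarith) hth2 hm2' hHk hω1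
    (by nlinarith) hmeta
  have hTE : 1 ≤ T * (Γ * S) := one_le_mul_of_one_le_of_one_le hT (by linarith)
  obtain ⟨θv, ℓ, hv1, hv2, hv3, hv4⟩ := hcyl _ θ2 hTE hth2
  have hd1 : 1 / (T * (Γ * S)) ^ 2 ≤ 1 / 8 / T ^ 2 := EQ_small hT0 (by linarith)
  have hd2 : 1 / 8 / T ^ 2 ≤ 1 / 8 := div_le_self (by norm_num) (one_le_pow₀ hT)
  have hmv : θv ∈ Iv θ1 (1 / 2 / T ^ 2) := by
    refine EQ_mem (c := 1 / 4) hT0 (by norm_num) ?_
    have h1 := EQ_abs hθ2 hl.le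
    have h2 := abs_sub_le θv θ2 θ1
    have e : 1 / 4 / T ^ 2 = 1 / 8 / T ^ 2 + 1 / 8 / T ^ 2 := by ring
    linarith
  have hTl : T ≤ ℓ := by
    have : 1 ≤ ε1 * (Γ * S) := hΓε.trans (mul_le_mul_of_nonneg_left hEk1 hε1.le)
    nlinarith
  refine ⟨θv, hmv, ℓ, hTl, ?_, ?_⟩
  · calc ℓ ≤ R2 * (T * (Γ * S)) := hv3
      _ ≤ R2 * (T * (Γ * ((1 + 2 * Γ) ^ P * S1))) := by gcongr
      _ = R2 * Γ * (1 + 2 * Γ) ^ P * S1 * T := by ring
  · have hcu := hHk.cu (hsub2 _ hmv) hm2' (by rwa [abs_sub_comm]) (hd1.trans hd2)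
    have hcu2 := hcu.trans (EQ_cu hT0 hΓ16 hSk1 hB hω0 hω2 hΓδ)
    have h1 := re_setIntegral_ge (hHk.ab (hsub2 _ hmv)) (hHk.ab hm2') hδ.le hc hcu2
      (Z.measurableSet_per (ℓ • ev θv))
    have e1 : ∫ x, G θ2 x ∂Z.μ = ((nsq Z.μ (g θ2) : ℝ) : ℂ) := integral_normsq _
    have e2 : ∫ x in Z.Per (ℓ • ev θv), G θv x ∂Z.μ =
        ((∫ x in Z.Per (ℓ • ev θv), ‖g θv x‖ ^ 2 ∂Z.μ : ℝ) : ℂ) := integral_ofReal
    rw [hI1, hI2 θv ℓ (hsub2 _ hmv) (by linarith), e1, e2, Complex.ofReal_re,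
      Complex.ofReal_re] at h1
    have h2 : a0 * m0 ≤ Z.μ.real (Z.Per (ℓ • ev θv)) * nsq Z.μ (g θ2) :=
      mul_le_mul hv4 (hm θ2 hm2) hm0.le measureReal_nonneg
    linarith

end Flat

end Pool.Agent.MP_b29402_an

end

-- part MP_b29402_an.SpecB
section

/-! The spectral calculus: how filters act on spectral measures. -/

open MeasureTheory Set Filter Topology ProbabilityTheory
open scoped ComplexConjugate ENNReal

namespace Pool.Agent.MP_b29402_an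

variable {X : Type*} [MeasurableSpace X] {μ : Measure X} [IsProbabilityMeasure μ]
  {φ : ℝ → X → X} {X0 : Set X} {τ : Measure ℝ} [IsFiniteMeasure τ]

omit [IsProbabilityMeasure μ] [IsFiniteMeasure τ] in
theorem SpecW.congr {f : X → ℂ} {κ κ' : ℝ → ℂ} (hs : SpecW μ φ f τ κ)
    (h : ∀ y, ‖κ y‖ = ‖κ' y‖) : SpecW μ φ f τ κ' := by
  intro t
  rw [hs t]
  simp only [h]

omit [IsProbabilityMeasure μ] [IsFiniteMeasure τ] in
/-- take `t = 0` -/
theorem SpecW.nsq_eq (h : AEFlow μ φ X0) {f : X → ℂ} {κ : ℝ → ℂ} (hs : SpecW μ φ f τ κ) :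
    nsq μ f = ∫ y, ‖κ y‖ ^ 2 ∂τ := by
  have h0 := hs 0
  simp only [h.zero, zero_mul, ex_zero, one_mul, Complex.mul_conj, Complex.normSq_eq_norm_sq] at h0
  rw [integral_complex_ofReal, integral_complex_ofReal] at h0
  exact_mod_cast h0

omit [IsProbabilityMeasure μ] [IsFiniteMeasure τ] in
theorem SpecW.smul {f : X → ℂ} {κ : ℝ → ℂ} (hs : SpecW μ φ f τ κ) (z : ℂ) :
    SpecW μ φ (fun x => z * f x) τ (fun y => z * κ y) := by
  intro t
  have h1 : ∀ x, z * f (φ t x) * conj (z * f x) = (z * conj z) * (f (φ t x) * conj (f x)) := by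
    intro x
    rw [map_mul]; ring
  have h2 : ∀ y, ex (t * y) * ((‖z * κ y‖ ^ 2 : ℝ) : ℂ) =
      (z * conj z) * (ex (t * y) * ((‖κ y‖ ^ 2 : ℝ) : ℂ)) := by
    intro y
    rw [Complex.mul_conj, Complex.normSq_eq_norm_sq, norm_mul]
    push_cast; ring
  simp only [h1, h2, integral_const_mul]
  rw [hs t]

theorem SpecB_gen (h : AEFlow μ φ X0) {B C M : ℝ} {f : X → ℂ} (hf : BM X0 B f) {κ : ℝ → ℂ}
    (hκ : Measurable κ) (hM : ∀ y, ‖κ y‖ ≤ M) (hs : SpecW μ φ f τ κ) {ι : Type*}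
    [MeasurableSpace ι] (ϱ : Measure ι) [IsFiniteMeasure ϱ] {k : ι → ℂ} (hk : Measurable k)
    (hC : ∀ s, ‖k s‖ ≤ C) {u : ι → ℝ} (hu : Measurable u) :
    SpecW μ φ (fun x => ∫ i, k i * f (φ (u i) x) ∂ϱ) τ
      (fun y => (∫ i, k i * ex (u i * y) ∂ϱ) * κ y) := by
  intro t
  have hcj : Measurable (fun z : ℂ => conj z) := Complex.continuous_conj.measurable
  have hfφ : Measurable fun p : ℝ × X => f (φ p.1 p.2) := hf.1.comp h.meas
  have hex : Measurable ex := ex_continuous.measurable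
  let F : X → ι × ι → ℂ := fun x p =>
    (k p.1 * conj (k p.2)) * (f (φ (u p.1 + t) x) * conj (f (φ (u p.2) x)))
  let G : ι × ι → ℝ → ℂ := fun p y =>
    (k p.1 * conj (k p.2)) * (ex ((u p.1 + t - u p.2) * y) * ((‖κ y‖ ^ 2 : ℝ) : ℂ))
  have hkk : ∀ p : ι × ι, ‖k p.1 * conj (k p.2)‖ ≤ C * C := by
    intro p
    rw [norm_mul, Complex.norm_conj]
    exact mul_le_mul (hC _) (hC _) (norm_nonneg _) ((norm_nonneg _).trans (hC p.1))
  have hFi : Integrable (Function.uncurry F) (μ.prod (ϱ.prod ϱ)) := by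
    have hm : Measurable (Function.uncurry F) := by
      refine ((hk.comp measurable_snd.fst).mul (hcj.comp (hk.comp measurable_snd.snd))).mul
        (Measurable.mul ?_ (hcj.comp ?_))
      · exact hfφ.comp (((hu.comp measurable_snd.fst).add_const t).prodMk measurable_fst)
      · exact hfφ.comp ((hu.comp measurable_snd.snd).prodMk measurable_fst)
    refine Integrable.of_bound hm.aestronglyMeasurable (C * C * (B * B)) ?_
    filter_upwards [(Measure.quasiMeasurePreserving_fst (μ := μ) (ν := ϱ.prod ϱ)).ae h.ae]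
      with z hz
    have h1 := hf.2 _ (h.inv (u z.2.1 + t) _ hz)
    have h2 := hf.2 _ (h.inv (u z.2.2) _ hz)
    change ‖(k z.2.1 * conj (k z.2.2)) *
      (f (φ (u z.2.1 + t) z.1) * conj (f (φ (u z.2.2) z.1)))‖ ≤ _
    rw [norm_mul, norm_mul (f _), Complex.norm_conj]
    exact mul_le_mul (hkk _) (mul_le_mul h1 h2 (norm_nonneg _) ((norm_nonneg _).trans h1))
      (by positivity) ((norm_nonneg _).trans (hkk z.2))
  have hGi : Integrable (Function.uncurry G) ((ϱ.prod ϱ).prod τ) := by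
    have hm : Measurable (Function.uncurry G) := by
      refine ((hk.comp measurable_fst.fst).mul (hcj.comp (hk.comp measurable_fst.snd))).mul
        (Measurable.mul (hex.comp ?_) (Complex.measurable_ofReal.comp ?_))
      · exact (((hu.comp measurable_fst.fst).add_const t).sub (hu.comp measurable_fst.snd)).mul
          measurable_snd
      · exact ((hκ.comp measurable_snd).norm).pow_const 2
    refine Integrable.of_bound hm.aestronglyMeasurable (C * C * M ^ 2) (ae_of_all _ fun z => ?_)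
    change ‖(k z.1.1 * conj (k z.1.2)) *
      (ex ((u z.1.1 + t - u z.1.2) * z.2) * ((‖κ z.2‖ ^ 2 : ℝ) : ℂ))‖ ≤ _
    rw [norm_mul, norm_mul (ex _), ex_norm, one_mul, Complex.norm_real, Real.norm_eq_abs,
      abs_of_nonneg (by positivity)]
    exact mul_le_mul (hkk _) (pow_le_pow_left₀ (norm_nonneg _) (hM _) 2) (by positivity)
      ((norm_nonneg _).trans (hkk z.1))
  have e1 : ∀ x ∈ X0, (∫ i, k i * f (φ (u i) (φ t x)) ∂ϱ) * conj (∫ i, k i * f (φ (u i) x) ∂ϱ) =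
      ∫ p, F x p ∂(ϱ.prod ϱ) := by
    intro x hx
    rw [← integral_conj, ← integral_prod_mul]
    refine integral_congr_ae (ae_of_all _ fun p => ?_)
    simp only [F, h.add _ _ _ hx, map_mul]
    ring
  have e2 : ∀ p, ∫ x, F x p ∂μ = ∫ y, G p y ∂τ := by
    intro p
    simp only [F, G, integral_const_mul]
    rw [h.corr hf.1 hf.1, hs]
  have e3 : ∀ y, ∫ p, G p y ∂(ϱ.prod ϱ) =
      ex (t * y) * ((‖(∫ i, k i * ex (u i * y) ∂ϱ) * κ y‖ ^ 2 : ℝ) : ℂ) := by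
    intro y
    have : ∀ p : ι × ι, G p y = (ex (t * y) * ((‖κ y‖ ^ 2 : ℝ) : ℂ)) *
        ((k p.1 * ex (u p.1 * y)) * conj (k p.2 * ex (u p.2 * y))) := by
      intro p
      have e : (u p.1 + t - u p.2) * y = t * y + u p.1 * y + -(u p.2 * y) := by ring
      simp only [G, map_mul, ex_conj]
      rw [e, ex_add, ex_add]
      ring
    simp only [this, integral_const_mul]
    rw [integral_prod_mul (fun i => k i * ex (u i * y)) (fun i => conj (k i * ex (u i * y))),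
      integral_conj, Complex.mul_conj, Complex.normSq_eq_norm_sq, norm_mul]
    push_cast; ring
  calc ∫ x, (∫ i, k i * f (φ (u i) (φ t x)) ∂ϱ) * conj (∫ i, k i * f (φ (u i) x) ∂ϱ) ∂μ
      = ∫ x, ∫ p, F x p ∂(ϱ.prod ϱ) ∂μ :=
        integral_congr_ae (by filter_upwards [h.ae] with x hx using e1 x hx)
    _ = ∫ p, ∫ x, F x p ∂μ ∂(ϱ.prod ϱ) := integral_integral_swap hFi
    _ = ∫ p, ∫ y, G p y ∂τ ∂(ϱ.prod ϱ) := by simp only [e2]
    _ = ∫ y, ∫ p, G p y ∂(ϱ.prod ϱ) ∂τ := integral_integral_swap hGi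
    _ = _ := by simp only [e3]

/-- On `X0`, `Op f (φ t x) * conj (Op f x) = ∫∫ k s * conj (k s') * f (φ (s + t) x) * conj (f (φ s' x))`;
Fubini (everything is bounded a.e., finite measures), `AEFlow.corr`, the hypothesis at time
`s + t - s'`, Fubini again, `ex ((s + t - s') y) = ex (t y) * ex (s y) * conj (ex (s' y))`. -/
theorem SpecW.op (h : AEFlow μ φ X0) {B C M : ℝ} {f : X → ℂ} (hf : BM X0 B f) {κ : ℝ → ℂ}
    (hκ : Measurable κ) (hM : ∀ y, ‖κ y‖ ≤ M) (hs : SpecW μ φ f τ κ) (ϱ : Measure ℝ)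
    [IsFiniteMeasure ϱ] {k : ℝ → ℂ} (hk : Measurable k) (hC : ∀ s, ‖k s‖ ≤ C) :
    SpecW μ φ (Op φ ϱ k f) τ (fun y => sym ϱ k y * κ y) :=
  SpecB_gen h hf hκ hM hs ϱ hk hC measurable_id

/-- `Av_eq_Op`, `sym_av` -/
theorem SpecW.av (h : AEFlow μ φ X0) {B M L : ℝ} {f : X → ℂ} (hf : BM X0 B f) {κ : ℝ → ℂ}
    (hκ : Measurable κ) (hM : ∀ y, ‖κ y‖ ≤ M) (hs : SpecW μ φ f τ κ) (hL : 0 < L) (c : ℝ) :
    SpecW μ φ (Av φ L c f) τ (fun y => Dk (L * (y - c)) * κ y) := by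
  have hk : Measurable fun s : ℝ => (L : ℂ)⁻¹ * ex (-(c * s)) :=
    (ex_continuous.measurable.comp (measurable_id.const_mul c).neg).const_mul _
  have := hs.op h hf hκ hM (volume.restrict (Ioc 0 L)) hk (C := ‖(L : ℂ)⁻¹‖)
    (fun s => by rw [norm_mul, ex_norm, mul_one])
  rw [Av_eq_Op hL]
  simpa only [sym_av hL] using this

/-- induction with `SpecW.av`, `BM.av` -/
theorem SpecW.av_iter (h : AEFlow μ φ X0) {B M L : ℝ} {f : X → ℂ} (hf : BM X0 B f) {κ : ℝ → ℂ}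
    (hκ : Measurable κ) (hM : ∀ y, ‖κ y‖ ≤ M) (hs : SpecW μ φ f τ κ) (hL : 0 < L) (c : ℝ) (n : ℕ) :
    SpecW μ φ ((Av φ L c)^[n] f) τ (fun y => Dk (L * (y - c)) ^ n * κ y) := by
  have hD : Measurable fun y : ℝ => Dk (L * (y - c)) :=
    Dk_continuous.measurable.comp ((measurable_id.sub_const c).const_mul L)
  have key : ∀ n : ℕ, BM X0 B ((Av φ L c)^[n] f) ∧
      SpecW μ φ ((Av φ L c)^[n] f) τ (fun y => Dk (L * (y - c)) ^ n * κ y) := by
    intro n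
    induction n with
    | zero => exact ⟨hf, by simpa using hs⟩
    | succ n ih =>
      rw [Function.iterate_succ_apply']
      refine ⟨ih.1.av h hL c, ?_⟩
      have hb : ∀ y, ‖Dk (L * (y - c)) ^ n * κ y‖ ≤ M := by
        intro y
        rw [norm_mul, norm_pow]
        exact (mul_le_of_le_one_left (norm_nonneg _)
          (pow_le_one₀ (norm_nonneg _) (Dk_le_one _))).trans (hM y)
      refine (ih.2.av h ih.1 ((hD.pow_const n).mul hκ) hb hL c).congr fun y => ?_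
      rw [pow_succ', mul_assoc]
      rfl
  exact (key n).2

/-- expand the double sum, `AEFlow.corr` -/
theorem SpecW.fs (h : AEFlow μ φ X0) {B M : ℝ} {f : X → ℂ} (hf : BM X0 B f) {κ : ℝ → ℂ}
    (hκ : Measurable κ) (hM : ∀ y, ‖κ y‖ ≤ M) (hs : SpecW μ φ f τ κ) {n : ℕ} (a : Fin n → ℂ)
    (t : Fin n → ℝ) : SpecW μ φ (FS φ a t f) τ (fun y => tp a t y * κ y) := by
  have := SpecB_gen h hf hκ hM hs (Measure.count : Measure (Fin n)) (k := a)
    (measurable_of_countable a) (C := ∑ i, ‖a i‖)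
    (fun i => Finset.single_le_sum (f := fun i => ‖a i‖) (fun j _ => norm_nonneg _)
      (Finset.mem_univ i)) (measurable_of_countable t)
  simp only [integral_count] at this
  exact this

omit [IsProbabilityMeasure μ] [IsFiniteMeasure τ] in
/-- `integral_withDensity_eq_integral_toReal_smul` -/
theorem SpecW.withDensity {f : X → ℂ} {κ : ℝ → ℂ} (hκ : Measurable κ) (hs : SpecW μ φ f τ κ) :
    SpecW μ φ f (τ.withDensity fun y => ENNReal.ofReal (‖κ y‖ ^ 2)) (fun _ => 1) := by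
  intro t
  have hm : Measurable fun y => ENNReal.ofReal (‖κ y‖ ^ 2) :=
    (hκ.norm.pow_const 2).ennreal_ofReal
  rw [hs t, integral_withDensity_eq_integral_toReal_smul hm
    (ae_of_all _ fun _ => ENNReal.ofReal_lt_top)]
  refine integral_congr_ae (ae_of_all _ fun y => ?_)
  simp only [ENNReal.toReal_ofReal (sq_nonneg ‖κ y‖), norm_one, one_pow, Complex.ofReal_one,
    mul_one, Complex.real_smul]
  ring

theorem isFiniteMeasure_withDensity_sq {κ : ℝ → ℂ} {M : ℝ} (hM : ∀ y, ‖κ y‖ ≤ M) :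
    IsFiniteMeasure (τ.withDensity fun y => ENNReal.ofReal (‖κ y‖ ^ 2)) := by
  refine isFiniteMeasure_withDensity (ne_of_lt ?_)
  calc ∫⁻ y, ENNReal.ofReal (‖κ y‖ ^ 2) ∂τ ≤ ∫⁻ _, ENNReal.ofReal (M ^ 2) ∂τ :=
        lintegral_mono fun y =>
          ENNReal.ofReal_le_ofReal (pow_le_pow_left₀ (norm_nonneg _) (hM y) 2)
    _ < ⊤ := by
        rw [lintegral_const]
        exact ENNReal.mul_lt_top ENNReal.ofReal_lt_top (measure_lt_top _ _)

end Pool.Agent.MP_b29402_an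

end
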