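import Pool.Agent.MP_b29402_an.Mg.SpecM
import Pool.Agent.MP_b29402_an.Mg.SpecB
import Pool.Agent.MP_b29402_an.Mg.DkC
import Pool.Agent.MP_b29402_an.Mg.MWt

-- part MP_b29402_an.PD
section

/-! Pointwise determinism: the averaged comparisons hold in every direction of the range. -/

open MeasureTheory Set Filter Topology ProbabilityTheory
open scoped ComplexConjugate ENNReal

namespace Pool.Agent.MP_b29402_an

namespace Flat

variable {X : Type*} [MeasurableSpace X]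

theorem PD_cmp {Z : Flat X} {B S δ α ω T θ θ' : ℝ} {Θ : Set ℝ} {g : ℝ → X → ℂ} (hB : 0 < B)
    (hδ : 0 < δ) (hα : 0 < α) (hα1 : α ≤ 1 / 8) (hT : 1 ≤ T) (hω : 0 ≤ ω) (hω1 : ω ≤ 1)
    (hE : ((14 * S) ^ 2 + 224 * B ^ 2 * Z.N * S ^ 2) * α ≤ (δ / (8 * B)) ^ 2)
    (hg : Z.Fam Θ (S * T) (2 * ω * T) (2 * B) g) (h1 : θ ∈ Θ) (h2 : θ' ∈ Θ)
    (h3 : θ' ∈ Icc θ (θ + α / T ^ 2)) : |nsq Z.μ (g θ) - nsq Z.μ (g θ')| ≤ δ / 2 := by
  have hT0 : 0 < T := by linarith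
  have hT2 : 1 ≤ T ^ 2 := one_le_pow₀ hT
  have h4 := hg.cu h1 h2 (d := α / T ^ 2) (abs_le.2 ⟨by
      have : 0 ≤ α / T ^ 2 := by positivity
      linarith [h3.1], by linarith [h3.2]⟩)
    ((div_le_self hα.le hT2).trans hα1)
  have e : (7 * (2 * ω * T) * (S * T) * (α / T ^ 2)) ^ 2 +
      56 * (2 * B) ^ 2 * Z.N * (S * T) ^ 2 * (α / T ^ 2) =
      (14 * S) ^ 2 * ((ω * ω) * (α * α)) + 224 * B ^ 2 * Z.N * S ^ 2 * α := by
    field_simp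
    ring
  have h5 : (ω * ω) * (α * α) ≤ α := by
    have a1 : ω * ω ≤ 1 := by nlinarith
    have a2 : α * α ≤ α := by nlinarith
    nlinarith [mul_pos hα hα]
  have h6 := mul_le_mul_of_nonneg_left h5 (sq_nonneg (14 * S))
  have h7 : Real.sqrt (nsq Z.μ fun x => g θ x - g θ' x) ≤ δ / (8 * B) := by
    rw [Real.sqrt_le_left (by positivity)]
    rw [e] at h4
    linarith
  refine (abs_nsq_sub_le (hg.ab h1) (hg.ab h2)).trans
    ((mul_le_mul_of_nonneg_left h7 (by positivity)).trans (le_of_eq ?_))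
  field_simp
  ring

/-- Choose `α ≤ 1/8` with `4 B √((14 S α)² + 224 B² N S² α) ≤ δ / 2`, then `ω0 ≤ 1` with
`4 ω0 / α ≤ δ / 2`. Apply `dminus` / `dplus` to `ψ = ‖κ‖² / 4` on `Icc θ (θ + α / T²)`, giving `θ'`;
`nsq (g θ') = ∫ ‖κ‖² dτ θ'` (`SpecW.nsq_eq`, `aeflow`); `abs_nsq_sub_le` and `Fam.cu` compare `θ` and `θ'`;
`(τ θ').real univ = nsq (f θ') ≤ B²` bounds the integral over the complement of the window. -/
theorem pointwise_det (Z : Flat X) {B S δ : ℝ} (hB : 0 < B) (hS : 0 < S) (hδ : 0 < δ) :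
    ∃ ω0 : ℝ, 0 < ω0 ∧ ∀ (T θ1 cen r c C K ω : ℝ) (f : ℝ → X → ℂ) (τ : ℝ → Measure ℝ)
      (Sm : Measure ℝ), 1 ≤ T → 0 ≤ ω → ω ≤ ω0 → Z.Datum T θ1 cen r B c C K ω f τ Sm →
      ∀ (g : ℝ → X → ℂ) (κ : ℝ → ℂ), Z.Fam (Iv θ1 (1 / T ^ 2)) (S * T) (2 * ω * T) (2 * B) g →
        Measurable κ → (∀ y, ‖κ y‖ ≤ 2) →
        (∀ θ ∈ Iv θ1 (1 / T ^ 2), SpecW Z.μ (Z.fl θ) (g θ) (τ θ) κ) →
        ∀ θ ∈ Iv θ1 (1 / 2 / T ^ 2),
          c * ∫ y, ‖κ y‖ ^ 2 ∂Sm - δ ≤ nsq Z.μ (g θ) ∧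
          ∀ b : ℝ, 0 ≤ b → (∀ y, y ∉ Iv cen (7 * r / 4 / T) → ‖κ y‖ ^ 2 ≤ b) →
            nsq Z.μ (g θ) ≤ C * ∫ y, ‖κ y‖ ^ 2 ∂Sm + B ^ 2 * b + δ := by
  have hE : 0 < (14 * S) ^ 2 + 224 * B ^ 2 * Z.N * S ^ 2 := by positivity
  obtain ⟨α, hα, hα1, hαE⟩ : ∃ α : ℝ, 0 < α ∧ α ≤ 1 / 8 ∧
      ((14 * S) ^ 2 + 224 * B ^ 2 * Z.N * S ^ 2) * α ≤ (δ / (8 * B)) ^ 2 :=
    ⟨min (1 / 8) ((δ / (8 * B)) ^ 2 / ((14 * S) ^ 2 + 224 * B ^ 2 * Z.N * S ^ 2)),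
      by positivity, min_le_left _ _, by
        rw [mul_comm, ← le_div_iff₀ hE]
        exact min_le_right _ _⟩
  refine ⟨min 1 (δ / 8 * α), by positivity, ?_⟩
  intro T θ1 cen r c C K ω f τ Sm hT hω hω0 hD g κ hg hκ hκ2 hs θ hθ
  have hω1 : ω ≤ 1 := hω0.trans (min_le_left _ _)
  have hω2 : ω / α ≤ δ / 8 := by
    rw [div_le_iff₀ hα]
    exact hω0.trans (min_le_right _ _)
  have hT0 : 0 < T := by linarith
  have hsub : Icc θ (θ + α / T ^ 2) ⊆ Iv θ1 (1 / T ^ 2) := fun y hy => by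
    have a1 : α / T ^ 2 ≤ 1 / 2 / T ^ 2 := by gcongr; linarith
    have a2 : 1 / T ^ 2 = 2 * (1 / 2 / T ^ 2) := by ring
    have a3 : 0 < 1 / 2 / T ^ 2 := by positivity
    exact ⟨by linarith [hθ.1, hy.1], by linarith [hθ.2, hy.2]⟩
  have hθ0 : θ ∈ Iv θ1 (1 / T ^ 2) := hsub ⟨le_rfl, le_add_of_nonneg_right (by positivity)⟩
  have hm : Measurable fun y => ‖κ y‖ ^ 2 := hκ.norm.pow_const 2
  have h4 : ∀ y, ‖κ y‖ ^ 2 ≤ 4 := fun y => by nlinarith [hκ2 y, norm_nonneg (κ y)]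
  have p1 : Measurable fun y => ‖κ y‖ ^ 2 / 4 := hm.div_const 4
  have p2 : ∀ y, 0 ≤ ‖κ y‖ ^ 2 / 4 := fun y => by positivity
  have p3 : ∀ y, ‖κ y‖ ^ 2 / 4 ≤ 1 := fun y => by linarith [h4 y]
  refine ⟨?_, fun b hb hκb => ?_⟩
  · obtain ⟨θ', h1, h2⟩ := hD.dminus θ α hα hsub _ p1 p2 p3
    have h3 := PD_cmp hB hδ hα hα1 hT hω hω1 hαE hg hθ0 (hsub h1) h1
    have h5 := (hs θ' (hsub h1)).nsq_eq (Z.aeflow θ')
    rw [integral_div, integral_div] at h2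
    linarith [(abs_le.1 h3).1]
  · obtain ⟨θ', h1, h2⟩ := hD.dplus θ α hα hsub _ p1 p2 p3
    have h3 := PD_cmp hB hδ hα hα1 hT hω hω1 hαE hg hθ0 (hsub h1) h1
    have h5 := (hs θ' (hsub h1)).nsq_eq (Z.aeflow θ')
    rw [integral_div, integral_div] at h2
    have := hD.fin θ'
    have hi : Integrable (fun y => ‖κ y‖ ^ 2) (τ θ') :=
      Integrable.of_bound hm.aestronglyMeasurable 4 (ae_of_all _ fun y => by
        rw [Real.norm_eq_abs, abs_of_nonneg (sq_nonneg _)]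
        exact h4 y)
    have h6 := integral_add_compl (measurableSet_Iv cen (7 * r / 4 / T)) hi
    have h7 : (τ θ').real univ ≤ B ^ 2 := by
      have a1 := (hD.spec θ' (hsub h1)).nsq_eq (Z.aeflow θ')
      have a2 := (hD.fam.ab (hsub h1)).nsq_le
      simp only [norm_one, one_pow, integral_const, smul_eq_mul, mul_one] at a1
      linarith
    have h8 : ∫ y in (Iv cen (7 * r / 4 / T))ᶜ, ‖κ y‖ ^ 2 ∂(τ θ') ≤ B ^ 2 * b := by
      refine (setIntegral_mono_on hi.integrableOn (integrableOn_const (measure_ne_top _ _))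
        (measurableSet_Iv _ _).compl fun y hy => hκb y hy).trans ?_
      rw [setIntegral_const, smul_eq_mul]
      exact mul_le_mul_of_nonneg_right ((measureReal_mono (subset_univ _)).trans h7) hb
    linarith [(abs_le.1 h3).2]

end Flat

end Pool.Agent.MP_b29402_an

end

-- part MP_b29402_an.AL
section

/-! The averaged spectral measure has an almost atom in the window at every resolution. -/

open MeasureTheory Set Filter Topology ProbabilityTheory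
open scoped ComplexConjugate ENNReal

namespace Pool.Agent.MP_b29402_an

namespace Flat

variable {X : Type*} [MeasurableSpace X]

/-- on `Per (ℓ • ev θ)` the Dirichlet average is `g` itself (`per_fl_nat`), `AB.setIntegral_sq_le` -/
theorem per_le_nsq_dirichlet {Z : Flat X} {θ ℓ B : ℝ} {g : X → ℂ} (hg : BM (Z.X0 θ) B g) {J : ℕ}
    (hJ : 0 < J) :
    ∫ x in Z.Per (ℓ • ev θ), ‖g x‖ ^ 2 ∂Z.μ ≤
      nsq Z.μ (FS (Z.fl θ) (fun _ : Fin J => (J : ℂ)⁻¹) (fun i => (i : ℝ) * ℓ) g) := by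
  have h1 := (BM.fs (Z.aeflow θ) hg (fun _ : Fin J => (J : ℂ)⁻¹) (fun i => (i : ℝ) * ℓ)).ab
    (Z.ae_X0 θ)
  refine le_trans (le_of_eq ?_) (h1.setIntegral_sq_le (Z.Per (ℓ • ev θ)))
  refine setIntegral_congr_fun (Z.measurableSet_per _) fun x hx => ?_
  have hJ' : (J : ℂ) ≠ 0 := by exact_mod_cast hJ.ne'
  have e : FS (Z.fl θ) (fun _ : Fin J => (J : ℂ)⁻¹) (fun i => (i : ℝ) * ℓ) g x = g x := by
    unfold FS
    simp only [per_fl_nat hx]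
    rw [Finset.sum_const, Finset.card_univ, Fintype.card_fin, nsmul_eq_mul, ← mul_assoc,
      mul_inv_cancel₀ hJ', one_mul]
  simp only [e]

theorem AL_n0 {A E : ℝ} (hA : 0 < A) (hE : 0 < E) :
    ∃ n : ℕ, E * (4 / 9) ^ n ≤ A * (25 / 36) ^ n := by
  obtain ⟨n, hn⟩ := exists_pow_lt_of_lt_one (div_pos hA hE) (by norm_num : (16 / 25 : ℝ) < 1)
  refine ⟨n, ?_⟩
  have e : (4 / 9 : ℝ) ^ n = (16 / 25) ^ n * (25 / 36) ^ n := by
    rw [← mul_pow]; norm_num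
  rw [lt_div_iff₀ hE] at hn
  rw [e, ← mul_assoc, mul_comm E]
  gcongr

theorem AL_J {A E d : ℝ} (hA : 0 < A) (hE : 0 < E) (hd : 0 < d) :
    ∃ J : ℕ, 0 < J ∧ E * (Real.pi / (J * d)) ^ 2 ≤ A := by
  obtain ⟨J, hJ⟩ := exists_nat_ge (E * (Real.pi / d) ^ 2 / A + 1)
  have h0 : 0 ≤ E * (Real.pi / d) ^ 2 / A := by positivity
  have h1 : (1 : ℝ) ≤ J := by linarith
  have h2 : (0 : ℝ) < J := by linarith
  refine ⟨J, by exact_mod_cast h2, ?_⟩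
  have e : E * (Real.pi / (J * d)) ^ 2 = E * (Real.pi / d) ^ 2 / (J : ℝ) ^ 2 := by
    field_simp
  rw [e, div_le_iff₀ (by positivity)]
  have h3 : E * (Real.pi / d) ^ 2 ≤ J * A := by
    rw [← div_le_iff₀ hA]; linarith
  have h4 : (J : ℝ) ≤ (J : ℝ) ^ 2 := by nlinarith
  nlinarith

theorem AL_sum {J : ℕ} (hJ : 0 < J) : ∑ _i : Fin J, ‖(J : ℂ)⁻¹‖ = 1 := by
  have hJ' : (J : ℝ) ≠ 0 := by exact_mod_cast hJ.ne'
  rw [Finset.sum_const, Finset.card_univ, Fintype.card_fin, nsmul_eq_mul, norm_inv,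
    Complex.norm_natCast, mul_inv_cancel₀ hJ']

theorem AL_half {θ1 T θ : ℝ} (h : θ ∈ Iv θ1 (1 / 2 / T ^ 2)) : θ ∈ Iv θ1 (1 / T ^ 2) := by
  have h1 : 1 / 2 / T ^ 2 ≤ 1 / T ^ 2 := by gcongr; norm_num
  exact ⟨by linarith [h.1], by linarith [h.2]⟩

theorem AL_pow_le (z : ℝ) (n : ℕ) : ‖Dk z ^ n‖ ≤ 1 := by
  rw [norm_pow]
  exact pow_le_one₀ (norm_nonneg _) (Dk_le_one z)

/-- `a` from `exists_long_cyl`; `n0` with `(B² + C K) (4/9) ^ n0 ≤ a c (25/36) ^ n0 / 8`; `m0 = c (25/36) ^ n0 / 2`,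
`S1 = 1 + n0 (2 / r)`, `lp, ω1` from `exists_long_cyl`, `m2 = a m0 / (4 C) / (3 r lp + 2)`.
`g = (AvF (2 T / r) cen)^[n0] f` (`Fam.av_iter`, `avF_iter_apply`, `SpecW.av_iter`); `pointwise_det` with `(S1, m0)` and
`filt_low` give `m0 ≤ nsq (g θ)` on the half range. Given `ρ`: `δ' = min 1 (ρ/2)`, `J` with
`C K (π / (J δ'))² ≤ a m0 / 4`, `g' = FSF (1/J) (i ℓ) g` (`Fam.fs`, `SpecW.fs`), `pointwise_det` with
`(S1 + J lp, a m0 / 4)` at `θv` with `b = (4/9) ^ n0` (`filt_out`, `dirichlet_le_one`), `per_le_nsq_dirichlet`,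
`filt_dirichlet`, `exists_near_atom`. -/
theorem near_atom (Z : Flat X) {ε r B c C K : ℝ} (hε : 0 < ε) (hr : 0 < r) (hB : 0 < B)
    (hc : 0 < c) (hC : 0 < C) (hK : 0 < K) :
    ∃ m2 : ℝ, 0 < m2 ∧ ∀ ρ : ℝ, 0 < ρ → ∃ ω0 : ℝ, 0 < ω0 ∧
      ∀ (T θ1 cen ω : ℝ) (f : ℝ → X → ℂ) (τ : ℝ → Measure ℝ) (Sm : Measure ℝ), 1 ≤ T → 0 ≤ ω →
        ω ≤ ω0 → Z.ThickAt T θ1 ε → Z.Datum T θ1 cen r B c C K ω f τ Sm →
        ∃ y, |y - cen| ≤ 3 * r / (2 * T) ∧ m2 ≤ Sm.real (Iv y (ρ / T)) := by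
  obtain ⟨a, ha, hcyl⟩ := Z.exists_long_cyl hε
  obtain ⟨n0, hn0⟩ := AL_n0 (A := a * c / 8) (E := B ^ 2 + C * K) (by positivity) (by positivity)
  set m0 : ℝ := c * (25 / 36) ^ n0 / 2 with hm0
  have m0pos : 0 < m0 := by positivity
  have hn0' : (B ^ 2 + C * K) * (4 / 9) ^ n0 ≤ a * m0 / 4 := by
    refine hn0.trans (le_of_eq ?_)
    rw [hm0]; ring
  set S1 : ℝ := 1 + n0 * (2 / r) with hS1
  have S1ge : 1 ≤ S1 := by
    have : 0 ≤ (n0 : ℝ) * (2 / r) := by positivity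
    linarith
  obtain ⟨lp, ω1, hlp, hω1, hcyl⟩ := hcyl B S1 m0 hB S1ge m0pos
  obtain ⟨ωA, hωA, hA⟩ := Z.pointwise_det (S := S1) hB (by linarith) m0pos
  refine ⟨a * m0 / (4 * C) / (3 * r * lp + 2), by positivity, fun ρ hρ => ?_⟩
  set d : ℝ := min 1 (ρ / 2) with hd
  have d0 : 0 < d := lt_min one_pos (by positivity)
  have d1 : d ≤ 1 := min_le_left _ _
  have d2 : d ≤ ρ / 2 := min_le_right _ _
  obtain ⟨J, hJ, hJ2⟩ := AL_J (A := a * m0 / 4) (E := C * K) (by positivity) (by positivity) d0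
  obtain ⟨ωB, hωB, hBd⟩ := Z.pointwise_det (S := S1 + J * lp) (δ := a * m0 / 4) hB
    (by positivity) (by positivity)
  refine ⟨min ω1 (min ωA ωB), lt_min hω1 (lt_min hωA hωB), ?_⟩
  intro T θ1 cen ω f τ Sm hT hω0 hω hth hD
  have T0 : 0 < T := by linarith
  have w1 : ω ≤ ω1 := hω.trans (min_le_left _ _)
  have w2 : ω ≤ ωA := hω.trans ((min_le_right _ _).trans (min_le_left _ _))
  have w3 : ω ≤ ωB := hω.trans ((min_le_right _ _).trans (min_le_right _ _))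
  have := hD.finS
  have hL : 0 < 2 * T / r := by positivity
  set g : ℝ → X → ℂ := (Z.AvF (2 * T / r) cen)^[n0] f with hg
  set κ : ℝ → ℂ := fun y => Dk (2 * T / r * (y - cen)) ^ n0 with hκ
  have hκc : Continuous κ := by
    have := Dk_continuous
    rw [hκ]; fun_prop
  have hκ1 : ∀ y, ‖κ y‖ ≤ 1 := fun y => AL_pow_le _ _
  have hgF : Z.Fam (Iv θ1 (1 / T ^ 2)) (S1 * T) (ω * T) B g := by
    have := hD.fam.av_iter hL cen n0
    have e : T + n0 * (2 * T / r) = S1 * T := by rw [hS1]; ring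
    rwa [e] at this
  have hωT : ω * T ≤ 2 * ω * T := by nlinarith [mul_nonneg hω0 T0.le]
  have hgS : ∀ θ ∈ Iv θ1 (1 / T ^ 2), SpecW Z.μ (Z.fl θ) (g θ) (τ θ) κ := by
    intro θ hθ
    have := hD.fin θ
    have := SpecW.av_iter (Z.aeflow θ) (hD.fam.bm hθ) measurable_const (M := 1) (by simp)
      (hD.spec θ hθ) hL cen n0
    rw [hg, avF_iter_apply]
    exact this.congr fun y => by simp [hκ]
  have hlow : ∀ θ ∈ Iv θ1 (1 / 2 / T ^ 2), m0 ≤ nsq Z.μ (g θ) := by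
    intro θ hθ
    have h1 := (hA T θ1 cen r c C K ω f τ Sm hT hω0 w2 hD g κ
      (hgF.mono le_rfl hωT (by linarith)) hκc.measurable (fun y => by linarith [hκ1 y]) hgS θ hθ).1
    have h2 := filt_low Sm T0 hr hD.low n0
    have h3 : c * (25 / 36) ^ n0 ≤ c * ∫ y, ‖κ y‖ ^ 2 ∂Sm := by gcongr
    linarith
  obtain ⟨θv, hθv, ℓ, hℓ1, hℓ2, hper⟩ := hcyl T θ1 ω g hT hω0 w1 hth hgF hlow
  have ℓ0 : 0 < ℓ := by linarith
  set g' : ℝ → X → ℂ := Z.FSF (fun _ : Fin J => (J : ℂ)⁻¹) (fun i => (i : ℝ) * ℓ) g with hg'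
  set κ' : ℝ → ℂ := fun y => tp (fun _ : Fin J => (J : ℂ)⁻¹) (fun i => (i : ℝ) * ℓ) y * κ y
    with hκ'
  have hκc' : Continuous κ' := (tp_continuous _ _).mul hκc
  have hκ2 : ∀ y, ‖κ' y‖ ≤ ‖κ y‖ := fun y => by
    rw [hκ']
    simp only [norm_mul]
    exact mul_le_of_le_one_left (norm_nonneg _) (dirichlet_le_one J ℓ y)
  have hgF' : Z.Fam (Iv θ1 (1 / T ^ 2)) ((S1 + J * lp) * T) (2 * ω * T) (2 * B) g' := by
    have := hgF.fs (fun _ : Fin J => (J : ℂ)⁻¹) (t := fun i => (i : ℝ) * ℓ) (S' := J * (lp * T))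
      (by positivity) (fun i => by positivity) (fun i => by
        have : ((i : ℕ) : ℝ) ≤ J := by exact_mod_cast i.2.le
        gcongr)
    rw [AL_sum hJ] at this
    exact this.mono (le_of_eq (by ring)) (by linarith) (by linarith)
  have hgS' : ∀ θ ∈ Iv θ1 (1 / T ^ 2), SpecW Z.μ (Z.fl θ) (g' θ) (τ θ) κ' := by
    intro θ hθ
    have := hD.fin θ
    exact SpecW.fs (Z.aeflow θ) (hgF.bm hθ) hκc.measurable hκ1 (hgS θ hθ) _ _
  have h1 := (hBd T θ1 cen r c C K ω f τ Sm hT hω0 w3 hD g' κ' hgF' hκc'.measurable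
    (fun y => by linarith [hκ1 y, hκ2 y]) hgS' θv hθv).2 ((4 / 9) ^ n0) (by positivity) (by
      intro y hy
      have h2 : 3 * r / (2 * T) < |y - cen| := by
        by_contra hc'
        have h3 := abs_le.1 (not_lt.1 hc')
        have h4 : 3 * r / (2 * T) ≤ 7 * r / 4 / T := by
          rw [div_le_div_iff₀ (by positivity) T0]
          nlinarith [mul_pos hr T0]
        exact hy ⟨by linarith [h3.1], by linarith [h3.2]⟩
      refine le_trans ?_ (filt_out T0 hr h2 n0)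
      have := hκ2 y
      gcongr)
  have h2 := per_le_nsq_dirichlet (ℓ := ℓ) (hgF.bm (AL_half hθv)) hJ
  have h3 := filt_dirichlet Sm (cen := cen) (ℓ := ℓ) hD.tot T0 hr d0 n0 hJ
  set E := Sm.real {y | |y - cen| ≤ 3 * r / (2 * T) ∧ ∃ j : ℤ, |ℓ * y - 2 * Real.pi * j| ≤ d}
    with hE
  have h4 : C * ∫ y, ‖κ' y‖ ^ 2 ∂Sm ≤
      C * (E + K * (4 / 9) ^ n0 + K * (Real.pi / (J * d)) ^ 2) := by gcongr
  have h5 : a * m0 ≤ nsq Z.μ (g' θv) := hper.trans h2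
  have h6 : a * m0 / (4 * C) ≤ E := by
    rw [div_le_iff₀ (by positivity)]
    nlinarith
  obtain ⟨y, hy1, hy2⟩ := exists_near_atom Sm T0 hℓ1 hℓ2 hr d0 d1 (by positivity) h6
  refine ⟨y, hy1, hy2.trans (measureReal_mono ?_)⟩
  have h7 : 2 * d / T ≤ ρ / T := by gcongr; linarith
  exact Icc_subset_Icc (by linarith) (by linarith)

end Flat

end Pool.Agent.MP_b29402_an

end

-- part MP_b29402_an.FIN
section

/-! An almost atom is an almost period of the short fat cylinder. -/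

open MeasureTheory Set Filter Topology ProbabilityTheory
open scoped ComplexConjugate ENNReal

namespace Pool.Agent.MP_b29402_an

theorem FIN_small {a b c : ℝ} (ha : 0 ≤ a) (hb : 0 < b) (hc : 0 < c) :
    ∃ x : ℝ, 0 < x ∧ x ≤ c ∧ a * x ≤ b := by
  refine ⟨min c (b / (a + 1)), lt_min hc (by positivity), min_le_left _ _, ?_⟩
  calc a * min c (b / (a + 1)) ≤ (a + 1) * (b / (a + 1)) :=
        mul_le_mul (by linarith) (min_le_right _ _) (le_min hc.le (by positivity)) (by linarith)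
    _ = b := by field_simp

theorem FIN_small2 {a b c : ℝ} (ha : 0 ≤ a) (hb : 0 < b) (hc : 0 < c) :
    ∃ x : ℝ, 0 < x ∧ x ≤ c ∧ a * x ^ 2 ≤ b := by
  obtain ⟨x, h0, h1, h2⟩ := FIN_small ha hb (lt_min hc one_pos)
  obtain ⟨h3, h4⟩ := le_min_iff.1 h1
  refine ⟨x, h0, h3, le_trans (mul_le_mul_of_nonneg_left ?_ ha) h2⟩
  nlinarith

theorem FIN_half {T θ1 : ℝ} (hT : 1 ≤ T) : Iv θ1 (1 / 2 / T ^ 2) ⊆ Iv θ1 (1 / T ^ 2) :=
  fun _ h => mem_Iv.2 ((mem_Iv.1 h).trans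
    (div_le_div_of_nonneg_right (by norm_num) (by positivity)))

theorem FIN_self {T θ1 : ℝ} (hT : 1 ≤ T) : θ1 ∈ Iv θ1 (1 / 2 / T ^ 2) :=
  mem_Iv.2 (by rw [sub_self, abs_zero]; positivity)

theorem FIN_sum (s y : ℝ) : ∑ i, ‖(![1, -ex (s * y)] : Fin 2 → ℂ) i‖ = 2 := by
  simp [Fin.sum_univ_two, ex_norm]
  norm_num

theorem FIN_tp (s y z : ℝ) : tp ![1, -ex (s * y)] ![s, 0] z = ex (s * z) - ex (s * y) := by
  simp [tp, Fin.sum_univ_two, ex_zero, sub_eq_add_neg]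

namespace Flat

variable {X : Type*} [MeasurableSpace X]

/-- on the cylinder `e (fl θ ℓ x) = e x` -/
theorem per_eig {Z : Flat X} {θ ℓ B : ℝ} {e : X → ℂ} (he : BM (Z.X0 θ) B e) (ω : ℂ) :
    ‖1 - ω‖ ^ 2 * ∫ x in Z.Per (ℓ • ev θ), ‖e x‖ ^ 2 ∂Z.μ ≤
      nsq Z.μ (fun x => e (Z.fl θ ℓ x) - ω * e x) := by
  have hab : AB Z.μ B e := he.ab (Z.aeflow θ).ae
  refine le_trans (le_of_eq ?_)
    (((hab.comp ((Z.aeflow θ).mp ℓ)).sub (hab.const_mul ω)).setIntegral_sq_le (Z.Per (ℓ • ev θ)))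
  rw [← integral_const_mul]
  refine setIntegral_congr_fun (Z.measurableSet_per _) fun x hx => ?_
  have h1 : Z.fl θ ℓ x = x := hx.2
  rw [h1, ← mul_pow, ← norm_mul, sub_mul, one_mul]

theorem FIN_thick {Z : Flat X} {T θ1 α L ε : ℝ} (hT : 1 ≤ T) (hα : 0 < α)
    (h : volume.real (Icc θ1 (θ1 + α / T ^ 2) ∩ {θ | ¬ Z.ThickAt L θ ε}) ≤
      1 / 2 * (α / T ^ 2)) : ∃ θ ∈ Icc θ1 (θ1 + α / T ^ 2), Z.ThickAt L θ ε := by
  by_contra hn
  have h1 : Icc θ1 (θ1 + α / T ^ 2) ∩ {θ | ¬ Z.ThickAt L θ ε} = Icc θ1 (θ1 + α / T ^ 2) :=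
    inter_eq_left.2 fun θ hθ ht => hn ⟨θ, hθ, ht⟩
  have h2 : 0 < α / T ^ 2 := by positivity
  rw [h1, Real.volume_real_Icc_of_le (by linarith)] at h
  linarith

/-- From almost eigenfunctions in all directions of the half range to mass on the cylinder.
`ε1` from `nondiv_arc` (`η = 1/2`), `δ = a0 m3 / 4`, `η` from `near_const` for `(ε1, B², δ)`, `η1 = η / (2 B)`.
Given `S`: `α ≤ 1/8` with `56 B⁴ N S² α ≤ δ²/2`, `E = max (2/α) (max 1 (S/η))`, `2 B ω0 ≤ η`, `(14 B ω0 S α)² ≤ δ²/2`.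
There is `θ'' ∈ [θ1, θ1 + α/T²]` thick at level `T E` (the bad set has measure `≤ α / (2 T²)`); `G = ‖e‖²`
(`Fam.normsq`), `nsq_normsq_sub_le`, `near_const`, `Fam.cu`, `re_setIntegral_ge`, `integral_normsq`. -/
theorem mass_on_cyl (Z : Flat X) {ε B a0 m3 : ℝ} (hε : 0 < ε) (hB : 0 < B) (ha : 0 < a0)
    (hm : 0 < m3) :
    ∃ η1 : ℝ, 0 < η1 ∧ ∀ S : ℝ, 0 < S → ∃ E ω0 : ℝ, 0 < E ∧ 0 < ω0 ∧
      ∀ (T θ1 ω y : ℝ) (e : ℝ → X → ℂ) (P : Set X), 1 ≤ T → 0 ≤ ω → ω ≤ ω0 →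
        Z.ThickAt T θ1 ε → Z.Fam (Iv θ1 (1 / T ^ 2)) (S * T) (ω * T) B e → MeasurableSet P →
        a0 ≤ Z.μ.real P → (∀ θ ∈ Iv θ1 (1 / 2 / T ^ 2), m3 ≤ nsq Z.μ (e θ)) →
        (∀ θ ∈ Iv θ1 (1 / 2 / T ^ 2), ∀ s : ℝ, 0 ≤ s → s ≤ E * T →
          nsq Z.μ (fun x => e θ (Z.fl θ s x) - ex (s * y) * e θ x) ≤ η1 ^ 2) →
        a0 * m3 / 2 ≤ ∫ x in P, ‖e θ1 x‖ ^ 2 ∂Z.μ := by
  obtain ⟨ε1, hε1, hnd⟩ := Z.nondiv_arc hε (η := 1 / 2) (by norm_num)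
  obtain ⟨δ, hδd⟩ : ∃ δ : ℝ, δ = a0 * m3 / 4 := ⟨_, rfl⟩
  have hδ : 0 < δ := by rw [hδd]; positivity
  obtain ⟨η, hη, hnc⟩ := Z.near_const (B := B ^ 2) hε1 hδ
  refine ⟨η / (2 * B), by positivity, fun S hS => ?_⟩
  obtain ⟨α, hα, hα1, hα2⟩ := FIN_small (a := 56 * (B ^ 2) ^ 2 * Z.N * S ^ 2) (b := δ ^ 2 / 2)
    (c := 1 / 8) (by positivity) (by positivity) (by norm_num)
  obtain ⟨ω0, hω0, hω1, hω2⟩ := FIN_small2 (a := (14 * B * S * α) ^ 2) (b := δ ^ 2 / 2)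
    (c := η / (2 * B)) (by positivity) (by positivity) (by positivity)
  obtain ⟨E, hE1, hE2, hE3⟩ : ∃ E : ℝ, 2 / α ≤ E ∧ 1 ≤ E ∧ S / η ≤ E :=
    ⟨max (2 / α) (max 1 (S / η)), le_max_left _ _, (le_max_left _ _).trans (le_max_right _ _),
      (le_max_right _ _).trans (le_max_right _ _)⟩
  refine ⟨E, ω0, by linarith, hω0, fun T θ1 ω y e P hT h0 hω hth hF hP hμ hlow heig => ?_⟩
  have hT0 : 0 < T := by linarith
  obtain ⟨θ, ⟨t1, t2⟩, hθ⟩ := FIN_thick hT hα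
    (hnd T θ1 α E hT hα hα1 (by rw [div_le_iff₀ hα] at hE1; linarith) hth)
  have hd : |θ - θ1| ≤ α / T ^ 2 := abs_le.2 ⟨by linarith, by linarith⟩
  have m1 : θ ∈ Iv θ1 (1 / 2 / T ^ 2) :=
    mem_Iv.2 (hd.trans (div_le_div_of_nonneg_right (by linarith) (by positivity)))
  have m2 := FIN_half hT m1
  have m3' := FIN_half hT (FIN_self (θ1 := θ1) hT)
  have hG := hF.normsq
  have hab := hF.ab m2
  have c1 := hnc T E θ S (2 * B * ω) _ _ hT hE2 hθ m2 (by rw [mul_assoc]; exact hG)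
    (by rw [le_div_iff₀ (by positivity)] at hω1; nlinarith)
    (by rw [div_le_iff₀ hη] at hE3; linarith) fun s s0 s1 => by
      refine (nsq_normsq_sub_le (hab.comp ((Z.aeflow θ).mp s)) hab (ex_norm (s * y))).trans ?_
      calc _ ≤ 4 * B ^ 2 * (η / (2 * B)) ^ 2 :=
            mul_le_mul_of_nonneg_left (heig θ m1 s s0 (by linarith)) (by positivity)
        _ = η ^ 2 := by field_simp; norm_num
  have c2 := hG.cu m3' m2 hd (by
    rw [div_le_iff₀ (by positivity)]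
    nlinarith [one_le_pow₀ (n := 2) hT])
  have e1 : (7 * (2 * B * (ω * T)) * (S * T) * (α / T ^ 2)) ^ 2 = (14 * B * S * α) ^ 2 * ω ^ 2 := by
    field_simp
    ring
  have e2 : 56 * (B ^ 2) ^ 2 * Z.N * (S * T) ^ 2 * (α / T ^ 2) =
      56 * (B ^ 2) ^ 2 * Z.N * S ^ 2 * α := by
    field_simp
  have e3 : (14 * B * S * α) ^ 2 * ω ^ 2 ≤ (14 * B * S * α) ^ 2 * ω0 ^ 2 :=
    mul_le_mul_of_nonneg_left (pow_le_pow_left₀ h0 hω 2) (sq_nonneg _)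
  rw [e1, e2] at c2
  have c3 := re_setIntegral_ge (hG.ab m3') (hG.ab m2) hδ.le c1 (by linarith) hP
  rw [integral_normsq, integral_complex_ofReal, Complex.ofReal_re, Complex.ofReal_re] at c3
  have c4 : a0 * m3 ≤ Z.μ.real P * nsq Z.μ (e θ) :=
    mul_le_mul hμ (hlow θ m1) hm.le measureReal_nonneg
  linarith

theorem FIN_av {Z : Flat X} {T θ1 cen r B c C K ω : ℝ} {f : ℝ → X → ℂ} {τ : ℝ → Measure ℝ}
    {Sm : Measure ℝ} (hD : Z.Datum T θ1 cen r B c C K ω f τ Sm) (hT : 1 ≤ T) {S : ℝ} (hS : 0 < S)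
    (y : ℝ) : Z.Fam (Iv θ1 (1 / T ^ 2)) ((1 + S) * T) (ω * T) B (Z.AvF (S * T) y f) ∧
      ∀ θ ∈ Iv θ1 (1 / T ^ 2),
        SpecW Z.μ (Z.fl θ) (Z.AvF (S * T) y f θ) (τ θ) fun z => Dk (S * T * (z - y)) := by
  have hL : 0 < S * T := mul_pos hS (by linarith)
  refine ⟨?_, fun θ hθ => ?_⟩
  · rw [add_mul, one_mul]
    exact hD.fam.av hL y
  · have := hD.fin θ
    refine (SpecW.av (M := 1) (Z.aeflow θ) (hD.fam.bm hθ) measurable_const (fun _ => by simp)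
      (hD.spec θ hθ) hL y).congr fun z => ?_
    rw [mul_one]

theorem FIN_fs {Z : Flat X} {T θ1 B Λ S S' y s : ℝ} {e : ℝ → X → ℂ} {τ : ℝ → Measure ℝ}
    (hτ : ∀ θ, IsFiniteMeasure (τ θ)) (hF : Z.Fam (Iv θ1 (1 / T ^ 2)) (S * T) (Λ * T) B e)
    {κ : ℝ → ℂ} (hκ : Measurable κ) (hb : ∀ z, ‖κ z‖ ≤ 1)
    (hs : ∀ θ ∈ Iv θ1 (1 / T ^ 2), SpecW Z.μ (Z.fl θ) (e θ) (τ θ) κ) (s0 : 0 ≤ s)
    (s1 : s ≤ S' * T) :
    Z.Fam (Iv θ1 (1 / T ^ 2)) ((S + S') * T) (2 * Λ * T) (2 * B)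
        (fun θ x => e θ (Z.fl θ s x) - ex (s * y) * e θ x) ∧
      ∀ θ ∈ Iv θ1 (1 / T ^ 2),
        SpecW Z.μ (Z.fl θ) (fun x => e θ (Z.fl θ s x) - ex (s * y) * e θ x) (τ θ)
          fun z => (ex (s * z) - ex (s * y)) * κ z := by
  have e1 : Z.FSF ![1, -ex (s * y)] ![s, 0] e =
      fun θ x => e θ (Z.fl θ s x) - ex (s * y) * e θ x := by
    funext θ x
    simp [FSF, FS, Fin.sum_univ_two, (Z.aeflow θ).zero, sub_eq_add_neg]
  refine ⟨?_, fun θ hθ => ?_⟩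
  · have h := hF.fs ![1, -ex (s * y)] (t := ![s, 0]) (s0.trans s1)
      (fun i => by fin_cases i <;> simp [s0]) fun i => by fin_cases i <;> simp [s1, s0.trans s1]
    rw [FIN_sum, e1, ← add_mul, ← mul_assoc] at h
    exact h
  · have := hτ θ
    have h := SpecW.fs (Z.aeflow θ) (hF.bm hθ) hκ hb (hs θ hθ) ![1, -ex (s * y)] ![s, 0]
    have e2 : FS (Z.fl θ) ![1, -ex (s * y)] ![s, 0] (e θ) =
        fun x => e θ (Z.fl θ s x) - ex (s * y) * e θ x := congrFun e1 θ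
    rw [e2] at h
    exact h.congr fun z => by rw [FIN_tp]

/-- `m3 = c m2 / 2`, `η1` from `mass_on_cyl`, `η2 = min η1 (ζ √(a0 m3 / 2))`, `κ` with `4 C κ ≤ η2²/5`. Given `ρo`:
`S' = Γ / ρo` with `16 C K / Γ² ≤ η2²/5` and `256 B² / (Γ r)² ≤ η2²/5` (note `S' ≥ Γ`), `E, ω1` from `mass_on_cyl` for
`S = 1 + S'`, `S'' = max E lp`, `ρi = min ρo (min (2 / S') ρ')` with `C K (S'' ρ')² ≤ η2²/5`.
`e = AvF (S' T) y f` (`Fam.av`, `SpecW.av`); `pointwise_det` with `(1 + S', c m2 / 6)` and `atom_low` give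
`m3 ≤ nsq (e θ)`. For `0 ≤ s ≤ S'' T`, `FSF ![1, -ex (s y)] ![s, 0] e` has symbol
`(ex (s ·) - ex (s y)) * Dk (S' T (· - y))` (`Fam.fs`, `SpecW.fs`); `pointwise_det` with `(1 + S' + S'', η2²/5)`,
`b = 16 / (S' (r/4))²` (`eig_out` with `d = r/4`), `eig_integral` give `nsq ≤ η2²`. Finally `mass_on_cyl`, `per_eig`
with `s = ℓ`. -/
theorem atom_period (Z : Flat X) {ε r B c C K a0 lp m2 ζ : ℝ} (hε : 0 < ε) (hr : 0 < r)
    (hB : 0 < B) (hc : 0 < c) (hC : 0 < C) (hK : 0 < K) (ha : 0 < a0) (hl : 0 < lp)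
    (hm : 0 < m2) (hζ : 0 < ζ) :
    ∃ κ : ℝ, 0 < κ ∧ ∀ ρo : ℝ, 0 < ρo → ρo ≤ 1 → ∃ ρi ω0 : ℝ, 0 < ρi ∧ ρi ≤ ρo ∧ 0 < ω0 ∧
      ∀ (T θ1 cen ω : ℝ) (f : ℝ → X → ℂ) (τ : ℝ → Measure ℝ) (Sm : Measure ℝ), 1 ≤ T → 0 ≤ ω →
        ω ≤ ω0 → Z.ThickAt T θ1 ε → Z.Datum T θ1 cen r B c C K ω f τ Sm →
        ∀ ℓ : ℝ, 0 < ℓ → ℓ ≤ lp * T → a0 ≤ Z.μ.real (Z.Per (ℓ • ev θ1)) →
        ∀ y : ℝ, |y - cen| ≤ 3 * r / (2 * T) → m2 ≤ Sm.real (Iv y (ρi / T)) →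
          Sm.real (Iv y (ρo / T) \ Iv y (ρi / T)) ≤ κ → ‖ex (y * ℓ) - 1‖ ≤ ζ := by
  obtain ⟨m3, hm3d⟩ : ∃ m3 : ℝ, m3 = c * m2 / 2 := ⟨_, rfl⟩
  have hm3 : 0 < m3 := by rw [hm3d]; positivity
  obtain ⟨η1, hη1, hmass⟩ := Z.mass_on_cyl hε hB ha hm3
  obtain ⟨η2, hη2, hη3, hη4⟩ := FIN_small2 (a := 1) (b := ζ ^ 2 * (a0 * m3 / 2)) (c := η1)
    one_pos.le (by positivity) hη1
  obtain ⟨q, hqd⟩ : ∃ q : ℝ, q = η2 ^ 2 / 5 := ⟨_, rfl⟩
  have hq : 0 < q := by rw [hqd]; positivity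
  obtain ⟨κ, hκ, -, hκ1⟩ := FIN_small (a := 4 * C) (by positivity) hq one_pos
  obtain ⟨u, hu, -, hu1⟩ := FIN_small2 (a := 16 * C * K + 256 * B ^ 2 / r ^ 2) (by positivity) hq
    one_pos
  refine ⟨κ, hκ, fun ρo hρo hρo1 => ?_⟩
  obtain ⟨S, hSd⟩ : ∃ S : ℝ, S = u⁻¹ / ρo := ⟨_, rfl⟩
  have hS : 0 < S := by rw [hSd]; positivity
  obtain ⟨E, ω1, hE, hω1, hmass'⟩ := hmass (1 + S) (by linarith)
  obtain ⟨S', hS1, hS2⟩ : ∃ S' : ℝ, E ≤ S' ∧ lp ≤ S' := ⟨max E lp, le_max_left _ _, le_max_right _ _⟩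
  obtain ⟨ρi, hρi, hρi1, hρi2⟩ := FIN_small2 (a := C * K * S' ^ 2) (c := min ρo (2 / S))
    (by positivity) hq (lt_min hρo (by positivity))
  obtain ⟨hρi3, hρi4⟩ := le_min_iff.1 hρi1
  obtain ⟨ω2, hω2, hpd2⟩ := Z.pointwise_det (S := 1 + S) (δ := c * m2 / 6) hB (by linarith)
    (by positivity)
  obtain ⟨ω3, hω3, hpd3⟩ := Z.pointwise_det (S := 1 + S + S') hB (by linarith) hq
  refine ⟨ρi, min ω1 (min ω2 ω3), hρi, hρi3, lt_min hω1 (lt_min hω2 hω3),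
    fun T θ1 cen ω f τ Sm hT h0 hω hth hD ℓ hℓ hℓ1 hμ y hy hin hann => ?_⟩
  simp only [le_min_iff] at hω
  obtain ⟨w1, w2, w3⟩ := hω
  have hT0 : 0 < T := by linarith
  have := hD.finS
  obtain ⟨hF, hsp⟩ := FIN_av hD hT hS y
  generalize Z.AvF (S * T) y f = e at hF hsp
  have mD : Measurable fun z => Dk (S * T * (z - y)) :=
    (Dk_continuous.comp (by fun_prop)).measurable
  have hlow : ∀ θ ∈ Iv θ1 (1 / 2 / T ^ 2), m3 ≤ nsq Z.μ (e θ) := fun θ hθ => by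
    have a1 := (hpd2 T θ1 cen r c C K ω f τ Sm hT h0 w2 hD e _
      (hF.mono le_rfl (by nlinarith [mul_nonneg h0 hT0.le]) (by linarith)) mD
      (fun z => (Dk_le_one _).trans one_le_two) hsp θ hθ).1
    have a2 := atom_low Sm hT0 hS (by rw [le_div_iff₀ hS] at hρi4; linarith) hin
    have a3 := mul_le_mul_of_nonneg_left a2 hc.le
    have a4 := mul_pos hc hm
    linarith
  have heig : ∀ θ ∈ Iv θ1 (1 / 2 / T ^ 2), ∀ s : ℝ, 0 ≤ s → s ≤ S' * T →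
      nsq Z.μ (fun x => e θ (Z.fl θ s x) - ex (s * y) * e θ x) ≤ η2 ^ 2 := fun θ hθ s s0 s1 => by
    obtain ⟨g1, g2⟩ := FIN_fs (y := y) hD.fin hF mD (fun z => Dk_le_one _) hsp s0 s1
    have mE : Measurable fun z => (ex (s * z) - ex (s * y)) * Dk (S * T * (z - y)) :=
      (((ex_continuous.comp (by fun_prop)).sub continuous_const).measurable).mul mD
    have a1 := (hpd3 T θ1 cen r c C K ω f τ Sm hT h0 w3 hD _ _ g1 mE
      (fun z => by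
        rw [norm_mul]
        have b1 := norm_sub_le (ex (s * z)) (ex (s * y))
        rw [ex_norm, ex_norm] at b1
        exact (mul_le_of_le_one_right (norm_nonneg _) (Dk_le_one _)).trans (by linarith))
      g2 θ hθ).2 (16 / (S * (r / 4)) ^ 2) (by positivity) fun z hz =>
        eig_out hT0 hS (by positivity) (by
          have b1 := not_le.1 (mt mem_Iv.2 hz)
          have b2 := abs_sub_le z y cen
          have b3 : 7 * r / 4 / T = r / 4 / T + 3 * r / (2 * T) := by field_simp; ring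
          linarith)
    have a2 := eig_integral Sm (ρi := ρi) (y0 := y) hD.tot hT0 hS hρo s0 s1
    have a3 := mul_le_mul_of_nonneg_left a2 hC.le
    have a4 : C * (K * (16 / (S * ρo) ^ 2)) = 16 * C * K * u ^ 2 := by
      rw [hSd]; field_simp
    have a5 : B ^ 2 * (16 / (S * (r / 4)) ^ 2) ≤ 256 * B ^ 2 / r ^ 2 * u ^ 2 := by
      have b1 : B ^ 2 * (16 / (S * (r / 4)) ^ 2) = 256 * B ^ 2 / r ^ 2 * u ^ 2 * ρo ^ 2 := by
        rw [hSd]; field_simp; norm_num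
      rw [b1]
      exact mul_le_of_le_one_right (by positivity) (pow_le_one₀ hρo.le hρo1)
    have a6 := mul_le_mul_of_nonneg_left hann (by positivity : 0 ≤ 4 * C)
    have a7 : C * (K * (S' * ρi) ^ 2) = C * K * S' ^ 2 * ρi ^ 2 := by ring
    rw [mul_add, mul_add, a4, a7] at a3
    rw [add_mul] at hu1
    linarith
  have b1 := hmass' T θ1 ω y e _ hT h0 w1 hth hF (Z.measurableSet_per _) hμ hlow
    fun θ hθ s s0 s1 => (heig θ hθ s s0 (s1.trans (mul_le_mul_of_nonneg_right hS1 hT0.le))).trans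
      (pow_le_pow_left₀ hη2.le hη3 2)
  have b2 := per_eig (ℓ := ℓ) (hF.bm (FIN_half hT (FIN_self hT))) (ex (ℓ * y))
  have b3 := heig θ1 (FIN_self hT) ℓ hℓ.le (hℓ1.trans (mul_le_mul_of_nonneg_right hS2 hT0.le))
  have b4 := mul_le_mul_of_nonneg_left b1 (sq_nonneg ‖1 - ex (ℓ * y)‖)
  have b5 : ‖1 - ex (ℓ * y)‖ ^ 2 ≤ ζ ^ 2 :=
    le_of_mul_le_mul_right (a := a0 * m3 / 2) (by linarith) (by positivity)
  rw [mul_comm y, norm_sub_rev]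
  exact (pow_le_pow_iff_left₀ (norm_nonneg _) hζ.le two_ne_zero).1 b5

end Flat

end Pool.Agent.MP_b29402_an

end

-- part MP_b29402_an.Core
section

/-! The core statement for one window. -/

open MeasureTheory Set Filter Topology ProbabilityTheory
open scoped ComplexConjugate ENNReal

namespace Pool.Agent.MP_b29402_an

namespace Flat

variable {X : Type*} [MeasurableSpace X]

/-- `m2` from `near_atom`, `κ` from `atom_period`, `P` with `K ≤ P κ`. Choose the functions `ρo ↦ ρi, ω0` and define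
`ρ 0 = 1`, `ρ (i + 1) = ρi (ρ i)` (antitone, in `(0, 1]`); `ω0` is the minimum of the `ω0 (ρ i)`, `i < P`, and of the
one of `near_atom` at `ρ P`. `y` from `near_atom`, `i` from `exists_light_annulus` (radii `ρ i / T`), and
`m2 ≤ Sm (Iv y (ρ P / T)) ≤ Sm (Iv y (ρ (i+1) / T))`. -/
theorem core (Z : Flat X) {ε r B c C K a0 lp ζ : ℝ} (hε : 0 < ε) (hr : 0 < r)
    (hB : 0 < B) (hc : 0 < c) (hC : 0 < C) (hK : 0 < K) (ha : 0 < a0) (hl : 0 < lp)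
    (hζ : 0 < ζ) :
    ∃ ω0 : ℝ, 0 < ω0 ∧
      ∀ (T θ1 cen ω : ℝ) (f : ℝ → X → ℂ) (τ : ℝ → Measure ℝ) (Sm : Measure ℝ), 1 ≤ T → 0 ≤ ω →
        ω ≤ ω0 → Z.ThickAt T θ1 ε → Z.Datum T θ1 cen r B c C K ω f τ Sm →
        ∀ ℓ : ℝ, 0 < ℓ → ℓ ≤ lp * T → a0 ≤ Z.μ.real (Z.Per (ℓ • ev θ1)) →
        ∃ y : ℝ, |y - cen| ≤ 3 * r / (2 * T) ∧ ‖ex (y * ℓ) - 1‖ ≤ ζ := by
  obtain ⟨m2, hm2, hna⟩ := near_atom Z hε hr hB hc hC hK
  obtain ⟨κ, hκ, hap⟩ := atom_period Z hε hr hB hc hC hK ha hl hm2 hζ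
  choose! ri om h1 h2 h3 h4 using hap
  obtain ⟨P, hP⟩ := exists_nat_gt (K / κ)
  have hP0 : 0 < P := by
    have : (0 : ℝ) < P := (div_pos hK hκ).trans hP
    exact_mod_cast this
  have hPK : K ≤ P * κ := ((div_lt_iff₀ hκ).1 hP).le
  let ρ : ℕ → ℝ := fun n => Nat.rec 1 (fun _ x => ri x) n
  have hρs : ∀ n, ρ (n + 1) = ri (ρ n) := fun _ => rfl
  have hρ : ∀ n, 0 < ρ n ∧ ρ n ≤ 1 := by
    intro n
    induction n with
    | zero => exact ⟨one_pos, le_rfl⟩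
    | succ n ih => exact ⟨h1 _ ih.1 ih.2, (h2 _ ih.1 ih.2).trans ih.2⟩
  have hanti : Antitone ρ := antitone_nat_of_succ_le fun n => h2 _ (hρ n).1 (hρ n).2
  obtain ⟨ω1, hω1, hna'⟩ := hna (ρ P) (hρ P).1
  obtain ⟨ω2, hω2, hω2'⟩ : ∃ ω2 : ℝ, 0 < ω2 ∧ ∀ i < P, ω2 ≤ om (ρ i) := by
    obtain ⟨i, -, hi⟩ := Finset.exists_min_image (Finset.range P) (fun i => om (ρ i))
      ⟨0, Finset.mem_range.2 hP0⟩
    exact ⟨om (ρ i), h3 _ (hρ i).1 (hρ i).2, fun j hj => hi j (Finset.mem_range.2 hj)⟩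
  refine ⟨min ω1 ω2, lt_min hω1 hω2, ?_⟩
  intro T θ1 cen ω f τ Sm hT hω0 hω hth hD ℓ hℓ hℓ' hper
  have hT0 : 0 < T := by linarith
  obtain ⟨y, hy, hmy⟩ := hna' T θ1 cen ω f τ Sm hT hω0 (hω.trans (min_le_left _ _)) hth hD
  have := hD.finS
  obtain ⟨i, hi, hann⟩ := exists_light_annulus Sm hD.tot hP0 hPK y (ρ := fun i => ρ i / T)
    fun a b hab => div_le_div_of_nonneg_right (hanti hab) hT0.le
  refine ⟨y, hy, h4 (ρ i) (hρ i).1 (hρ i).2 T θ1 cen ω f τ Sm hT hω0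
    ((hω.trans (min_le_right _ _)).trans (hω2' i hi)) hth hD ℓ hℓ hℓ' hper y hy ?_ hann⟩
  refine hmy.trans (measureReal_mono ?_)
  have h5 : ρ P / T ≤ ri (ρ i) / T :=
    div_le_div_of_nonneg_right (hanti (show i + 1 ≤ P from hi)) hT0.le
  exact Icc_subset_Icc (by linarith) (by linarith)

end Flat

end Pool.Agent.MP_b29402_an

end
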