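import Pool.Agent.MP_b29402_an.Mg.Fam1
import Pool.Agent.MP_b29402_an.Mg.SpecM
import Pool.Agent.MP_b29402_an.Mg.SpecB
import Pool.Agent.MP_b29402_an.Mg.DkC
import Pool.Agent.MP_b29402_an.Mg.Pl2

-- part MP_b29402_an.BX
section

/-! Box lemma: averages along a segment are controlled by the `L²` norm on thick directions. -/

open MeasureTheory Set Filter Topology ProbabilityTheory
open scoped ComplexConjugate ENNReal

namespace Pool.Agent.MP_b29402_an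

namespace Flat

variable {X : Type*} [MeasurableSpace X] {Z : Flat X} {Θ : Set ℝ} {S Λ B : ℝ} {F : ℝ → X → ℂ}

theorem BX_ip_nv (θ r s : ℝ) : ip (r • nv θ + s • ev θ) (nv θ) = r := by
  rw [ip_add, ip_smul, ip_smul, ip_nv_nv, ip_ev_nv]; ring

theorem BX_ip_ev (θ r s : ℝ) : ip (r • nv θ + s • ev θ) (ev θ) = s := by
  rw [ip_add, ip_smul, ip_smul, ip_nv_ev, ip_ev_ev]; ring

theorem BX_mem_rect {θ a b c d r s : ℝ} (h1 : a ≤ r) (h2 : r ≤ b) (h3 : c ≤ s) (h4 : s ≤ d) :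
    r • nv θ + s • ev θ ∈ rect θ a b c d := by
  refine ⟨?_, ?_, ?_, ?_⟩
  · rw [BX_ip_nv]; exact h1
  · rw [BX_ip_nv]; exact h2
  · rw [BX_ip_ev]; exact h3
  · rw [BX_ip_ev]; exact h4

theorem BX_rlen_lt {T θ ε H a b : ℝ} (hT : 0 < T) (hε : 0 < ε) (hH : H ≤ ε * T / 2)
    (ha : -(ε / (2 * T)) ≤ a) (hb : b ≤ ε / (2 * T)) {v : P2} (hv : v ∈ rect θ a b 0 H) :
    rlen T θ v < ε := by
  obtain ⟨h1, h2, h3, h4⟩ := hv
  unfold rlen
  apply max_lt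
  · have h5 : |ip v (nv θ)| ≤ ε / (2 * T) := abs_le.2 ⟨by linarith, by linarith⟩
    have h6 : T * (ε / (2 * T)) = ε / 2 := by field_simp
    have h7 := mul_le_mul_of_nonneg_left h5 hT.le
    linarith
  · rw [abs_of_nonneg h3, div_lt_iff₀ hT]
    have : 0 < ε * T := mul_pos hε hT
    linarith

theorem BX_seg {θ H s : ℝ} {x : X} (hx : H • ev θ ∈ Z.D x) (h0 : 0 ≤ s) (h1 : s ≤ H) :
    s • ev θ ∈ Z.D x := by
  rcases eq_or_lt_of_le (h0.trans h1) with h | h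
  · have hs : s = H := le_antisymm h1 (h ▸ h0)
    rw [hs]; exact hx
  · have h2 := Z.star x _ hx (s / H) (div_nonneg h0 h.le) ((div_le_one h).2 h1)
    rwa [smul_smul, div_mul_cancel₀ _ h.ne'] at h2

theorem BX_good {T θ ε H a b : ℝ} (hT : 0 < T) (hε : 0 < ε) (hth : Z.ThickAt T θ ε) (hH0 : 0 ≤ H)
    (hH : H ≤ ε * T / 2) (ha : -(ε / (2 * T)) ≤ a) (hb : b ≤ ε / (2 * T)) (ha0 : a ≤ 0)
    (hb0 : 0 ≤ b) {x : X} (hx : Z.reg x) (hv : ∀ w ∈ rect θ a b 0 H, w ∉ Z.V x) :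
    rect θ a b 0 H ⊆ Z.D x ∧ InjOn (Z.mv x) (rect θ a b 0 H) := by
  have h0 : (0 : P2) ∈ rect θ a b 0 H := by
    have := BX_mem_rect (θ := θ) ha0 hb0 (le_refl 0) hH0
    simpa using this
  have hD := vfree hx (convex_rect θ a b 0 H) h0 hv
  refine ⟨hD, fun u hu v hv' he => ?_⟩
  refine hth.inj hT (convex_rect θ a b 0 H) h0 hD hu hv' ?_ he
  have h1 := rlen_sub_le hT θ v u
  have h2 := BX_rlen_lt hT hε hH ha hb hu
  have h3 := BX_rlen_lt hT hε hH ha hb hv'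
  linarith

/-- both rectangles lie in `{rlen T θ · < ε}`, which contains at most one visible point (`ThickAt.sub`); their
intersection is the segment `[0, H • ev θ] ⊆ D x` (`frame_decomp`); `vfree`; `ThickAt.inj`. -/
theorem exists_rect {T θ ε H : ℝ} (hT : 0 < T) (hε : 0 < ε) (hth : Z.ThickAt T θ ε) (hH0 : 0 ≤ H)
    (hH : H ≤ ε * T / 2) {x : X} (hx : H • ev θ ∈ Z.D x) :
    ∃ a b : ℝ, ((a = 0 ∧ b = ε / (2 * T)) ∨ (a = -(ε / (2 * T)) ∧ b = 0)) ∧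
      rect θ a b 0 H ⊆ Z.D x ∧ InjOn (Z.mv x) (rect θ a b 0 H) := by
  have hreg : Z.reg x := reg_of_mem hx
  have hw : 0 < ε / (2 * T) := by positivity
  by_cases h1 : ∀ w ∈ rect θ 0 (ε / (2 * T)) 0 H, w ∉ Z.V x
  · exact ⟨0, ε / (2 * T), Or.inl ⟨rfl, rfl⟩,
      BX_good hT hε hth hH0 hH (by linarith) le_rfl le_rfl hw.le hreg h1⟩
  · refine ⟨-(ε / (2 * T)), 0, Or.inr ⟨rfl, rfl⟩,
      BX_good hT hε hth hH0 hH le_rfl hw.le (by linarith) le_rfl hreg ?_⟩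
    intro w2 hw2 hV2
    push Not at h1
    obtain ⟨w1, hw1, hV1⟩ := h1
    have he : w1 = w2 := hth.sub hT x
      ⟨hV1, BX_rlen_lt hT hε hH (by linarith) le_rfl hw1⟩
      ⟨hV2, BX_rlen_lt hT hε hH le_rfl hw.le hw2⟩
    subst he
    have h3 : ip w1 (nv θ) = 0 := le_antisymm hw2.2.1 hw1.1
    have h4 : w1 = ip w1 (ev θ) • ev θ := by
      have := frame_decomp θ w1
      rw [h3, zero_smul, zero_add] at this
      exact this
    apply V_not_mem hV1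
    rw [h4]
    exact BX_seg hx hw1.2.2.1 hw1.2.2.2

theorem Fam.BX_bd (h : Z.Fam Θ S Λ B F) {θ H s : ℝ} (hθ : θ ∈ Θ) {x : X}
    (hx : (S + H) • ev θ ∈ Z.D x) (h0 : 0 ≤ s) (h1 : s ≤ H) : ‖F θ (Z.fl θ s x)‖ ≤ B := by
  have h2 : (S + s) • ev θ ∈ Z.D x := BX_seg hx (add_nonneg h.hS h0) (by linarith)
  exact h.bd θ hθ _ (ray_conv h.hS h0 h2).1

theorem Fam.BX_lip (h : Z.Fam Θ S Λ B F) {θ H a b w r s : ℝ} (hθ : θ ∈ Θ) {x : X}
    (hD : rect θ a b 0 (S + H) ⊆ Z.D x) (ha0 : a ≤ 0) (hb0 : 0 ≤ b) (ha : -w ≤ a) (hb : b ≤ w)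
    (hr0 : a ≤ r) (hr1 : r ≤ b) (hs0 : 0 ≤ s) (hs1 : s ≤ H) :
    ‖F θ (Z.fl θ s x)‖ ^ 2 ≤ 2 * ‖F θ (Z.mv x (r • nv θ + s • ev θ))‖ ^ 2 + 2 * (Λ * w) ^ 2 := by
  have hS := h.hS
  have hΛ := h.hΛ
  have hc := convex_rect θ a b 0 (S + H)
  have h0 : (0 : P2) ∈ rect θ a b 0 (S + H) := by
    have := BX_mem_rect (θ := θ) ha0 hb0 (le_refl 0) (by linarith : (0 : ℝ) ≤ S + H)
    simpa using this
  have m1 : s • ev θ ∈ rect θ a b 0 (S + H) := by
    have := BX_mem_rect (θ := θ) ha0 hb0 hs0 (by linarith : s ≤ S + H)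
    simpa using this
  have m2 : r • nv θ + s • ev θ ∈ rect θ a b 0 (S + H) :=
    BX_mem_rect hr0 hr1 hs0 (by linarith)
  have hK : Convex ℝ {v | s • ev θ + v ∈ rect θ a b 0 (S + H)} :=
    hc.translate_preimage_right (s • ev θ)
  have hKD := shift_subset hc h0 hD m1
  have k0 : (0 : P2) ∈ {v | s • ev θ + v ∈ rect θ a b 0 (S + H)} := by simpa using m1
  have k1 : S • ev θ ∈ {v | s • ev θ + v ∈ rect θ a b 0 (S + H)} := by
    have := BX_mem_rect (θ := θ) ha0 hb0 (by linarith : (0 : ℝ) ≤ s + S)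
      (by linarith : s + S ≤ S + H)
    simpa [add_smul] using this
  have k2 : r • nv θ ∈ {v | s • ev θ + v ∈ rect θ a b 0 (S + H)} := by
    show s • ev θ + r • nv θ ∈ rect θ a b 0 (S + H)
    rw [add_comm (s • ev θ)]; exact m2
  have k3 : r • nv θ + S • ev θ ∈ {v | s • ev θ + v ∈ rect θ a b 0 (S + H)} := by
    show s • ev θ + (r • nv θ + S • ev θ) ∈ rect θ a b 0 (S + H)
    have := BX_mem_rect (θ := θ) hr0 hr1 (by linarith : (0 : ℝ) ≤ s + S)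
      (by linarith : s + S ≤ S + H)
    have e : s • ev θ + (r • nv θ + S • ev θ) = r • nv θ + (s + S) • ev θ := by
      rw [add_smul]; abel
    rw [e]; exact this
  have hl := h.lip θ hθ θ hθ _ (r • nv θ) _ hK hKD k0 k1 k2 k3
  have e1 := (Z.conv x _ hc h0 hD _ m1 _ m2).2
  rw [add_sub_cancel_right] at e1
  rw [e1, sub_self, norm_zero, mul_zero, add_zero] at hl
  have hn : ‖r • nv θ‖ ≤ w := by
    rw [norm_smul, Real.norm_eq_abs]
    have h1 : |r| ≤ w := abs_le.2 ⟨by linarith, by linarith⟩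
    have h2 := norm_nv_le θ
    calc |r| * ‖nv θ‖ ≤ |r| * 1 := mul_le_mul_of_nonneg_left h2 (abs_nonneg r)
      _ ≤ w := by linarith
  have hl2 : ‖F θ (Z.mv x (s • ev θ)) - F θ (Z.mv x (r • nv θ + s • ev θ))‖ ≤ Λ * w :=
    hl.trans (mul_le_mul_of_nonneg_left hn hΛ)
  have h3 : ‖F θ (Z.mv x (s • ev θ))‖ ≤ ‖F θ (Z.mv x (r • nv θ + s • ev θ))‖ + Λ * w := by
    have := norm_sub_norm_le (F θ (Z.mv x (s • ev θ))) (F θ (Z.mv x (r • nv θ + s • ev θ)))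
    linarith
  show ‖F θ (Z.mv x (s • ev θ))‖ ^ 2 ≤ _
  have h4 := pow_le_pow_left₀ (norm_nonneg _) h3 2
  nlinarith [sq_nonneg (‖F θ (Z.mv x (r • nv θ + s • ev θ))‖ - Λ * w)]

theorem Fam.BX_meas (h : Z.Fam Θ S Λ B F) (θ : ℝ) (x : X) :
    Measurable fun s : ℝ => ‖F θ (Z.fl θ s x)‖ ^ 2 := by
  have h1 : Measurable fun s : ℝ => Z.fl θ s x :=
    (Z.aeflow θ).meas.comp (measurable_id.prodMk measurable_const)
  exact (((h.meas θ).comp h1).norm).pow_const 2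

/-- With the rectangle `Q = rect θ a b 0 (S + H)` of `exists_rect`, `w = ε / (2 T)`: for `r ∈ [a, b]`, `s ∈ [0, H]`,
`Fam.lip` at `mv x (s • ev θ)` with `K = {v | s • ev θ + v ∈ Q}` and the vector `r • nv θ` gives
`‖F θ (fl θ s x)‖² ≤ 2 ‖F θ (mv x (r • nv θ + s • ev θ))‖² + 2 (Λ w)²`. Integrate over `s`, then over `r`
(`integral_rect` for `rect θ a b 0 H`, `setIntegral_le`), divide by `w`. -/
theorem Fam.box0 (h : Z.Fam Θ S Λ B F) {T θ ε H : ℝ} (hT : 0 < T) (hε : 0 < ε)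
    (hth : Z.ThickAt T θ ε) (hθ : θ ∈ Θ) (hH0 : 0 < H) (hH : S + H ≤ ε * T / 2) {x : X}
    (hx : (S + H) • ev θ ∈ Z.D x) :
    ∫ s in (0 : ℝ)..H, ‖F θ (Z.fl θ s x)‖ ^ 2 ≤
      4 * T / ε * nsq Z.μ (F θ) + 2 * H * (Λ * ε / (2 * T)) ^ 2 := by
  have hS := h.hS
  obtain ⟨a, b, hab, hD, hI⟩ := exists_rect hT hε hth (by linarith) hH hx
  set w : ℝ := ε / (2 * T) with hw
  have hw0 : 0 < w := by positivity
  have ha0 : a ≤ 0 := by rcases hab with h1 | h1 <;> linarith [h1.1]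
  have hb0 : 0 ≤ b := by rcases hab with h1 | h1 <;> linarith [h1.2]
  have ha : -w ≤ a := by rcases hab with h1 | h1 <;> linarith [h1.1]
  have hb : b ≤ w := by rcases hab with h1 | h1 <;> linarith [h1.2]
  have hba : b - a = w := by rcases hab with h1 | h1 <;> linarith [h1.1, h1.2]
  have hsub : rect θ a b 0 H ⊆ rect θ a b 0 (S + H) := fun v hv =>
    ⟨hv.1, hv.2.1, hv.2.2.1, by linarith [hv.2.2.2]⟩
  have hms := measurableSet_rect θ a b 0 H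
  obtain ⟨hG, hGle⟩ := setIntegral_le (hsub.trans hD) (hI.mono hsub) hms
    (g := fun z => ‖F θ z‖ ^ 2) ((h.meas θ).norm.pow_const 2) (fun z => sq_nonneg _)
    (h.ab hθ).integrable_sq
  have hip : Measurable fun v : P2 => ip v (ev θ) := by
    unfold ip; fun_prop
  have hG0 : IntegrableOn (fun v : P2 => ‖F θ (Z.fl θ (ip v (ev θ)) x)‖ ^ 2) (rect θ a b 0 H) := by
    refine Measure.integrableOn_of_bounded (M := B ^ 2) (volume_rect_ne_top θ a b 0 H)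
      ((h.BX_meas θ x).comp hip).aestronglyMeasurable ?_
    refine (ae_restrict_iff' hms).2 (Eventually.of_forall fun v hv => ?_)
    rw [Real.norm_eq_abs, abs_of_nonneg (sq_nonneg _)]
    exact pow_le_pow_left₀ (norm_nonneg _) (h.BX_bd hθ hx hv.2.2.1 hv.2.2.2) 2
  have e0 := integral_rect θ (ha0.trans hb0) hH0.le hG0
  simp only [BX_ip_ev] at e0
  rw [intervalIntegral.integral_const, hba, smul_eq_mul] at e0
  have hc : IntegrableOn (fun _ : P2 => 2 * (Λ * w) ^ 2) (rect θ a b 0 H) :=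
    integrableOn_const (volume_rect_ne_top θ a b 0 H)
  have hle : ∫ v in rect θ a b 0 H, ‖F θ (Z.fl θ (ip v (ev θ)) x)‖ ^ 2 ≤
      ∫ v in rect θ a b 0 H, (2 * ‖F θ (Z.mv x v)‖ ^ 2 + 2 * (Λ * w) ^ 2) := by
    refine setIntegral_mono_on hG0 ((hG.const_mul 2).add hc) hms fun v hv => ?_
    have := h.BX_lip hθ hD ha0 hb0 ha hb hv.1 hv.2.1 hv.2.2.1 hv.2.2.2
    rwa [← frame_decomp] at this
  rw [integral_add (hG.const_mul 2) hc, integral_const_mul, setIntegral_const,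
    volume_rect θ (ha0.trans hb0) hH0.le, hba, smul_eq_mul, e0] at hle
  have hn : ∫ z, ‖F θ z‖ ^ 2 ∂Z.μ = nsq Z.μ (F θ) := rfl
  rw [hn] at hGle
  have e1 : 4 * T / ε = 2 / w := by rw [hw]; field_simp; ring
  have e2 : Λ * ε / (2 * T) = Λ * w := by rw [hw]; ring
  rw [e1, e2]
  have h5 : w * (∫ s in (0 : ℝ)..H, ‖F θ (Z.fl θ s x)‖ ^ 2) ≤
      w * (2 / w * nsq Z.μ (F θ) + 2 * H * (Λ * w) ^ 2) := by
    have e3 : w * (2 / w * nsq Z.μ (F θ) + 2 * H * (Λ * w) ^ 2) =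
        2 * nsq Z.μ (F θ) + w * (H - 0) * (2 * (Λ * w) ^ 2) := by field_simp; ring
    rw [e3]; linarith
  exact le_of_mul_le_mul_left h5 hw0

/-- `norm_Av_sq_le` and `Fam.box0` -/
theorem Fam.sup_av (h : Z.Fam Θ S Λ B F) {T θ ε H : ℝ} (hT : 0 < T) (hε : 0 < ε)
    (hth : Z.ThickAt T θ ε) (hθ : θ ∈ Θ) (hH0 : 0 < H) (hH : S + H ≤ ε * T / 2) (c : ℝ) {x : X}
    (hx : (S + H) • ev θ ∈ Z.D x) :
    ‖Z.AvF H c F θ x‖ ^ 2 ≤
      4 * T / (ε * H) * nsq Z.μ (F θ) + 2 * (Λ * ε / (2 * T)) ^ 2 := by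
  have h1 := norm_Av_sq_le (φ := Z.fl θ) (Z.aeflow θ).meas hH0 c (h.meas θ) x
    (fun s hs => h.BX_bd hθ hx hs.1 hs.2)
  have h2 := h.box0 hT hε hth hθ hH0 hH hx
  have h3 := mul_le_mul_of_nonneg_left h2 (inv_pos.2 hH0).le
  have e : H⁻¹ * (4 * T / ε * nsq Z.μ (F θ) + 2 * H * (Λ * ε / (2 * T)) ^ 2) =
      4 * T / (ε * H) * nsq Z.μ (F θ) + 2 * (Λ * ε / (2 * T)) ^ 2 := by field_simp
  rw [e] at h3
  exact h1.trans h3

/-- cut `[0, n H] ⊇ [0, T]` into `n = ⌈4 / ε⌉₊ ≤ 5 / ε` pieces of length `H = ε T / 4`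
(`intervalIntegral.sum_integral_adjacent_intervals`), `Fam.box0` at the points `fl θ (k H) x` (`ray_conv`). -/
theorem Fam.box (h : Z.Fam Θ S Λ B F) {T θ ε : ℝ} (hT : 0 < T) (hε : 0 < ε) (hε1 : ε ≤ 1)
    (hth : Z.ThickAt T θ ε) (hθ : θ ∈ Θ) (hS : S ≤ ε * T / 4) {x : X}
    (hx : ∀ s : ℝ, 0 ≤ s → s • ev θ ∈ Z.D x) :
    ces (fun s => F θ (Z.fl θ s x)) 0 T ≤ 32 / ε ^ 2 * nsq Z.μ (F θ) + (Λ / T) ^ 2 := by
  set H : ℝ := ε * T / 4 with hH
  have hH0 : 0 < H := by positivity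
  set n : ℕ := ⌈4 / ε⌉₊ with hn
  have hn1 : 4 / ε ≤ (n : ℝ) := Nat.le_ceil _
  have hn2 : (n : ℝ) ≤ 5 / ε := by
    have h1 : (n : ℝ) < 4 / ε + 1 := Nat.ceil_lt_add_one (by positivity)
    have h2 : 1 ≤ 1 / ε := (one_le_div hε).2 hε1
    have h3 : 5 / ε = 4 / ε + 1 / ε := by ring
    linarith
  have hTn : T ≤ n * H := by
    have h1 : T = 4 / ε * H := by rw [hH]; field_simp
    rw [h1]
    exact mul_le_mul_of_nonneg_right hn1 hH0.le
  have hbd : ∀ s : ℝ, 0 ≤ s → ‖F θ (Z.fl θ s x)‖ ^ 2 ≤ B ^ 2 := fun s hs =>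
    pow_le_pow_left₀ (norm_nonneg _) (h.BX_bd hθ (hx _ (add_nonneg h.hS hs)) hs le_rfl) 2
  have hint : ∀ c d : ℝ, 0 ≤ c → c ≤ d →
      IntervalIntegrable (fun s => ‖F θ (Z.fl θ s x)‖ ^ 2) volume c d := by
    intro c d hc hcd
    rw [intervalIntegrable_iff_integrableOn_Ioc_of_le hcd]
    refine Measure.integrableOn_of_bounded (M := B ^ 2) measure_Ioc_lt_top.ne
      (h.BX_meas θ x).aestronglyMeasurable ?_
    refine (ae_restrict_iff' measurableSet_Ioc).2 (Eventually.of_forall fun s hs => ?_)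
    rw [Real.norm_eq_abs, abs_of_nonneg (sq_nonneg _)]
    exact hbd s (hc.trans hs.1.le)
  set M : ℝ := 4 * T / ε * nsq Z.μ (F θ) + 2 * H * (Λ * ε / (2 * T)) ^ 2 with hM
  have hpiece : ∀ k : ℕ, ∫ s in ((k : ℝ) * H)..(((k + 1 : ℕ) : ℝ) * H),
      ‖F θ (Z.fl θ s x)‖ ^ 2 ≤ M := by
    intro k
    have hk : 0 ≤ (k : ℝ) * H := by positivity
    have hSH : 0 ≤ S + H := add_nonneg h.hS hH0.le
    have h1 := h.box0 hT hε hth hθ hH0 (by rw [hH]; linarith) (x := Z.fl θ (k * H) x)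
      (ray_conv hSH hk (hx _ (add_nonneg hSH hk))).1
    have h2 : ∫ s in (0 : ℝ)..H, ‖F θ (Z.fl θ s (Z.fl θ (k * H) x))‖ ^ 2 =
        ∫ s in (0 : ℝ)..H, ‖F θ (Z.fl θ (s + k * H) x)‖ ^ 2 := by
      refine intervalIntegral.integral_congr fun s hs => ?_
      rw [uIcc_of_le hH0.le] at hs
      have h3 := (ray_conv hs.1 hk (hx _ (add_nonneg hs.1 hk))).2
      show ‖F θ (Z.mv (Z.mv x ((k * H) • ev θ)) (s • ev θ))‖ ^ 2 = _
      rw [h3]; rfl
    rw [h2, intervalIntegral.integral_comp_add_right (fun s => ‖F θ (Z.fl θ s x)‖ ^ 2)] at h1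
    have e1 : (0 : ℝ) + k * H = k * H := by ring
    have e2 : H + k * H = ((k + 1 : ℕ) : ℝ) * H := by push_cast; ring
    rwa [e1, e2] at h1
  have hsum := intervalIntegral.sum_integral_adjacent_intervals
    (f := fun s => ‖F θ (Z.fl θ s x)‖ ^ 2) (μ := volume) (a := fun k : ℕ => (k : ℝ) * H) (n := n)
    (fun k _ => hint _ _ (by positivity) (by push_cast; nlinarith))
  have h1 : ∫ s in (0 : ℝ)..(n * H), ‖F θ (Z.fl θ s x)‖ ^ 2 ≤ n * M := by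
    have h2 := Finset.sum_le_sum (s := Finset.range n) fun k _ => hpiece k
    rw [hsum] at h2
    simpa using h2
  have h2 : ∫ s in (0 : ℝ)..T, ‖F θ (Z.fl θ s x)‖ ^ 2 ≤
      ∫ s in (0 : ℝ)..(n * H), ‖F θ (Z.fl θ s x)‖ ^ 2 := by
    refine intervalIntegral.integral_mono_interval le_rfl hT.le hTn
      (Eventually.of_forall fun s => sq_nonneg _) (hint _ _ le_rfl (hT.le.trans hTn))
  have hq := nsq_nonneg (μ := Z.μ) (F θ)
  have hM0 : 0 ≤ M := by positivity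
  have h3 : (n : ℝ) * M ≤ 5 / ε * M := mul_le_mul_of_nonneg_right hn2 hM0
  unfold ces
  rw [zero_add]
  have h4 : T⁻¹ * (∫ s in (0 : ℝ)..T, ‖F θ (Z.fl θ s x)‖ ^ 2) ≤ T⁻¹ * (5 / ε * M) :=
    mul_le_mul_of_nonneg_left (by linarith) (inv_pos.2 hT).le
  have e : T⁻¹ * (5 / ε * M) = 20 / ε ^ 2 * nsq Z.μ (F θ) + 5 / 8 * ε ^ 2 * (Λ / T) ^ 2 := by
    rw [hM, hH]; field_simp; ring
  have h5 : 20 / ε ^ 2 * nsq Z.μ (F θ) ≤ 32 / ε ^ 2 * nsq Z.μ (F θ) := by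
    refine mul_le_mul_of_nonneg_right ?_ hq
    exact div_le_div_of_nonneg_right (by norm_num) (by positivity)
  have h6 : 5 / 8 * ε ^ 2 * (Λ / T) ^ 2 ≤ 1 * (Λ / T) ^ 2 := by
    refine mul_le_mul_of_nonneg_right ?_ (sq_nonneg _)
    nlinarith
  linarith

end Flat

end Pool.Agent.MP_b29402_an

end

-- part MP_b29402_an.Win
section

/-! Construction of the normalised window function. -/

open MeasureTheory Set Filter Topology ProbabilityTheory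
open scoped ComplexConjugate ENNReal

namespace Pool.Agent.MP_b29402_an

namespace Flat

variable {X : Type*} [MeasurableSpace X]

/-- the base family `u e^{-i c L} h ∘ fl θ L - h` -/
noncomputable def baseF (Z : Flat X) (L c u : ℝ) (h : X → ℂ) : ℝ → X → ℂ :=
  Z.FSF ![(u : ℂ) * ex (-(c * L)), -1] ![L, 0] (fun _ => h)

/-- the normalised first average -/
noncomputable def gF (Z : Flat X) (L c u m0 : ℝ) (h : X → ℂ) : ℝ → X → ℂ :=
  fun θ x => ((Real.sqrt m0 : ℝ) : ℂ)⁻¹ * Z.AvF L c (Z.baseF L c u h) θ x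

/-- the window function -/
noncomputable def wF (Z : Flat X) (L c u m0 : ℝ) (h : X → ℂ) : ℝ → X → ℂ :=
  Z.AvF L c (Z.gF L c u m0 h)

variable {Z : Flat X} {h : X → ℂ} {Lh L c u m0 : ℝ}

theorem Win_norm_inv (m0 : ℝ) : ‖((Real.sqrt m0 : ℝ) : ℂ)⁻¹‖ = (Real.sqrt m0)⁻¹ := by
  rw [norm_inv, Complex.norm_real, Real.norm_eq_abs, abs_of_nonneg (Real.sqrt_nonneg _)]

theorem Win_sum_norm (L c u : ℝ) :
    (∑ i, ‖(![(u : ℂ) * ex (-(c * L)), -1] : Fin 2 → ℂ) i‖) = |u| + 1 := by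
  simp [Fin.sum_univ_two, ex_norm]

theorem Win_tp (L c u y : ℝ) :
    tp (![(u : ℂ) * ex (-(c * L)), -1] : Fin 2 → ℂ) ![L, 0] y = (u : ℂ) * ex (L * (y - c)) - 1 := by
  have h1 : ex (L * (y - c)) = ex (-(c * L)) * ex (L * y) := by
    rw [← ex_add]; congr 1; ring
  simp only [tp, Fin.sum_univ_two, Matrix.cons_val_zero, Matrix.cons_val_one, zero_mul, ex_zero, h1]
  ring

theorem Win_gsym_le (L c u y : ℝ) : ‖gsym L c u y‖ ≤ |u| + 1 := by
  unfold gsym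
  rw [norm_mul]
  have h1 := Dk_le_one (L * (y - c))
  have h2 : ‖(u : ℂ) * ex (L * (y - c)) - 1‖ ≤ |u| + 1 := by
    refine (norm_sub_le _ _).trans ?_
    rw [norm_mul, ex_norm, Complex.norm_real, Real.norm_eq_abs, norm_one, mul_one]
  calc ‖Dk (L * (y - c))‖ * ‖(u : ℂ) * ex (L * (y - c)) - 1‖ ≤ 1 * (|u| + 1) :=
        mul_le_mul h1 h2 (norm_nonneg _) zero_le_one
    _ = |u| + 1 := one_mul _

theorem Win_bm_base (hm : Measurable h) (hb : ∀ x, ‖h x‖ ≤ 1) (θ : ℝ) :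
    BM (Z.X0 θ) ((|u| + 1) * 1) (Z.baseF L c u h θ) := by
  have h0 : BM (Z.X0 θ) 1 h := ⟨hm, fun x _ => hb x⟩
  have h1 := BM.fs (Z.aeflow θ) h0 (![(u : ℂ) * ex (-(c * L)), -1] : Fin 2 → ℂ) ![L, 0]
  rw [Win_sum_norm] at h1
  exact h1

theorem Win_bm_gF (hm : Measurable h) (hb : ∀ x, ‖h x‖ ≤ 1) (hL : 0 < L) (θ : ℝ) :
    BM (Z.X0 θ) ((Real.sqrt m0)⁻¹ * ((|u| + 1) * 1)) (Z.gF L c u m0 h θ) := by
  have h1 := BM.av (Z.aeflow θ) (Win_bm_base (Z := Z) (L := L) (c := c) (u := u) hm hb θ) hL c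
  refine ⟨h1.1.const_mul _, fun x hx => ?_⟩
  have h2 := h1.2 x hx
  show ‖((Real.sqrt m0 : ℝ) : ℂ)⁻¹ * Av (Z.fl θ) L c (Z.baseF L c u h θ) x‖ ≤ _
  rw [norm_mul, Win_norm_inv]
  exact mul_le_mul_of_nonneg_left h2 (inv_nonneg.2 (Real.sqrt_nonneg _))

/-- `fam_of_segLip`, `Fam.fs`, `Fam.av`, `Fam.smul`, `Fam.mono` -/
theorem fam_gF (hL0 : 0 ≤ Lh) (hm : Measurable h) (hb : ∀ x, ‖h x‖ ≤ 1) (hl : Z.SegLip Lh h)
    (hL : 0 < L) (h0 : 0 ≤ u) (h1 : u ≤ 1) (hm0 : 0 < m0) (Θ : Set ℝ) :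
    Z.Fam Θ (2 * L) (2 * Lh / Real.sqrt m0) (2 / Real.sqrt m0) (Z.gF L c u m0 h) := by
  have f0 := fam_of_segLip (Z := Z) hL0 zero_le_one hm hb hl Θ
  have f1 := f0.fs (![(u : ℂ) * ex (-(c * L)), -1] : Fin 2 → ℂ) (t := ![L, 0]) (S' := L) hL.le
    (fun i => by fin_cases i <;> simp [hL.le]) (fun i => by fin_cases i <;> simp [hL.le])
  have f2 := (f1.av hL c).smul (((Real.sqrt m0 : ℝ) : ℂ)⁻¹)
  rw [Win_sum_norm, Win_norm_inv, abs_of_nonneg h0] at f2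
  have hs : 0 < Real.sqrt m0 := Real.sqrt_pos.2 hm0
  have hi : 0 ≤ (Real.sqrt m0)⁻¹ := inv_nonneg.2 hs.le
  refine Fam.mono f2 (le_of_eq (by ring)) ?_ ?_
  · rw [div_eq_inv_mul]
    exact mul_le_mul_of_nonneg_left (mul_le_mul_of_nonneg_right (by linarith) hL0) hi
  · rw [div_eq_inv_mul]
    exact mul_le_mul_of_nonneg_left (by linarith) hi

/-- `SpecW.fs`, `SpecW.av`, `SpecW.smul`, `SpecW.congr` -/
theorem spec_gF (hm : Measurable h) (hb : ∀ x, ‖h x‖ ≤ 1) (hL : 0 < L) {θ : ℝ} {τ : Measure ℝ}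
    [IsFiniteMeasure τ] (hs : SpecW Z.μ (Z.fl θ) h τ (fun _ => 1)) :
    SpecW Z.μ (Z.fl θ) (Z.gF L c u m0 h θ) τ
      (fun y => ((Real.sqrt m0 : ℝ) : ℂ)⁻¹ * gsym L c u y) := by
  have h0 : BM (Z.X0 θ) 1 h := ⟨hm, fun x _ => hb x⟩
  have s1 := SpecW.fs (M := 1) (Z.aeflow θ) h0 measurable_const (fun _ => by simp) hs
    (![(u : ℂ) * ex (-(c * L)), -1] : Fin 2 → ℂ) ![L, 0]
  have hκ : Measurable fun y =>
      tp (![(u : ℂ) * ex (-(c * L)), -1] : Fin 2 → ℂ) ![L, 0] y * (1 : ℂ) :=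
    (tp_continuous _ _).measurable.mul_const _
  have hM : ∀ y, ‖tp (![(u : ℂ) * ex (-(c * L)), -1] : Fin 2 → ℂ) ![L, 0] y * (1 : ℂ)‖ ≤ |u| + 1 := by
    intro y
    rw [mul_one, ← Win_sum_norm L c u]
    exact tp_norm_le _ _ y
  have s2 := SpecW.av (Z.aeflow θ) (Win_bm_base (Z := Z) (L := L) (c := c) (u := u) hm hb θ) hκ hM
    s1 hL c
  refine SpecW.congr (s2.smul (((Real.sqrt m0 : ℝ) : ℂ)⁻¹)) fun y => ?_
  rw [Win_tp, mul_one]
  rfl

theorem spec_wF (hm : Measurable h) (hb : ∀ x, ‖h x‖ ≤ 1) (hL : 0 < L) {θ : ℝ} {τ : Measure ℝ}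
    [IsFiniteMeasure τ] (hs : SpecW Z.μ (Z.fl θ) h τ (fun _ => 1)) :
    SpecW Z.μ (Z.fl θ) (Z.wF L c u m0 h θ) τ (wsym L c u m0) := by
  have s1 := spec_gF (c := c) (u := u) (m0 := m0) hm hb hL hs
  have hκ : Measurable fun y => ((Real.sqrt m0 : ℝ) : ℂ)⁻¹ * gsym L c u y :=
    (gsym_continuous L c u).measurable.const_mul _
  have hM : ∀ y, ‖((Real.sqrt m0 : ℝ) : ℂ)⁻¹ * gsym L c u y‖ ≤ (Real.sqrt m0)⁻¹ * (|u| + 1) := by
    intro y
    rw [norm_mul, Win_norm_inv]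
    exact mul_le_mul_of_nonneg_left (Win_gsym_le L c u y) (inv_nonneg.2 (Real.sqrt_nonneg _))
  have s2 := SpecW.av (Z.aeflow θ)
    (Win_bm_gF (Z := Z) (c := c) (u := u) (m0 := m0) hm hb hL θ) hκ hM s1 hL c
  refine SpecW.congr s2 fun y => ?_
  unfold wsym
  congr 1
  ring

theorem Win_nsq_gF {K1 : ℝ} (hm : Measurable h) (hb : ∀ x, ‖h x‖ ≤ 1) (hL : 0 < L) (hm0 : 0 < m0)
    {θ : ℝ} {τ : Measure ℝ} [IsFiniteMeasure τ] (hs : SpecW Z.μ (Z.fl θ) h τ (fun _ => 1))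
    (hK : ∫ y, ‖gsym L c u y‖ ^ 2 ∂τ ≤ K1 * m0) : nsq Z.μ (Z.gF L c u m0 h θ) ≤ K1 := by
  rw [SpecW.nsq_eq (Z.aeflow θ) (spec_gF (c := c) (u := u) (m0 := m0) hm hb hL hs)]
  have e : ∀ y, ‖((Real.sqrt m0 : ℝ) : ℂ)⁻¹ * gsym L c u y‖ ^ 2 = m0⁻¹ * ‖gsym L c u y‖ ^ 2 := by
    intro y
    rw [norm_mul, Win_norm_inv, mul_pow, inv_pow, Real.sq_sqrt hm0.le]
  simp_rw [e]
  rw [integral_const_mul, inv_mul_le_iff₀ hm0]
  linarith

/-- `ε' = ε / (2 + 7 A)`, `e0 = min (1/3) (ε' / 6)`, `L = e0 T`, `Λ = 2 Lh / √m0 ≤ ω T ≤ T`. `nsq (gF θn) ≤ K1` (`spec_gF`,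
`SpecW.nsq_eq`); `Fam.sh` gives `nsq (gF θ) ≤ 4 K1 + 2 (28 e0 A)² =: K2'` for `θ ∈ Iv θn (A / T²)`; these `θ` are thick
with `ε'` (`ThickAt.near`), so `Fam.sup_av` gives `‖wF θ x‖² ≤ 4 K2' / (ε' e0) + ε'²`. `Fam.av`, `Fam.improve`,
`Fam.mono` (`3 e0 T ≤ T`). -/
theorem window (Z : Flat X) {ε A : ℝ} (hε : 0 < ε) (hA : 0 ≤ A) :
    ∃ e0 : ℝ, 0 < e0 ∧ e0 ≤ 1 / 3 ∧ ∀ K1 : ℝ, 0 < K1 → ∃ B : ℝ, 0 < B ∧
      ∀ (h : X → ℂ) (Lh T θn c u m0 ω : ℝ) (τ : Measure ℝ) [IsFiniteMeasure τ], 0 ≤ Lh →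
        Measurable h → (∀ x, ‖h x‖ ≤ 1) → Z.SegLip Lh h →
        SpecW Z.μ (Z.fl θn) h τ (fun _ => 1) → 1 ≤ T → Z.ThickAt T θn ε → 0 ≤ u → u ≤ 1 →
        0 < m0 → ω ≤ 1 → 2 * Lh / Real.sqrt m0 ≤ ω * T →
        ∫ y, ‖gsym (e0 * T) c u y‖ ^ 2 ∂τ ≤ K1 * m0 →
        Z.Fam (Iv θn (A / T ^ 2)) T (ω * T) B (Z.wF (e0 * T) c u m0 h) := by
  have hA2 : 0 < 2 + 7 * A := by linarith
  obtain ⟨ε', hε'def⟩ : ∃ ε' : ℝ, ε' = ε / (2 + 7 * A) := ⟨_, rfl⟩
  have hε' : 0 < ε' := by rw [hε'def]; positivity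
  have hεε : (2 + 7 * A) * ε' = ε := by rw [hε'def]; field_simp
  obtain ⟨e0, he0, he1, he2⟩ : ∃ e0 : ℝ, 0 < e0 ∧ e0 ≤ 1 / 3 ∧ e0 ≤ ε' / 6 :=
    ⟨min (1 / 3) (ε' / 6), lt_min (by norm_num) (by positivity), min_le_left _ _, min_le_right _ _⟩
  refine ⟨e0, he0, he1, fun K1 hK1 => ?_⟩
  obtain ⟨Q, hQdef⟩ : ∃ Q : ℝ, Q = 4 * K1 + 2 * (28 * e0 * A) ^ 2 := ⟨_, rfl⟩
  have hQ : 0 < Q := by rw [hQdef]; positivity
  have hB2 : 0 < 4 / (ε' * e0) * Q + ε' ^ 2 := by positivity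
  refine ⟨Real.sqrt (4 / (ε' * e0) * Q + ε' ^ 2), Real.sqrt_pos.2 hB2, ?_⟩
  intro h Lh T θn c u m0 ω τ _ hL0 hm hb hl hs hT hth h0 h1 hm0 hω hΛ hK
  have hT0 : 0 < T := by linarith
  have hL : 0 < e0 * T := by positivity
  have fg := fam_gF (Z := Z) (c := c) hL0 hm hb hl hL h0 h1 hm0 (Iv θn (A / T ^ 2))
  have hΛ0 : 0 ≤ 2 * Lh / Real.sqrt m0 := fg.hΛ
  have hΛT : 2 * Lh / Real.sqrt m0 ≤ T := hΛ.trans (by nlinarith)
  have hn0 := Win_nsq_gF (Z := Z) hm hb hL hm0 hs hK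
  have hθn : θn ∈ Iv θn (A / T ^ 2) := by
    rw [mem_Iv, sub_self, abs_zero]; positivity
  generalize 2 * Lh / Real.sqrt m0 = Λ at fg hΛ hΛ0 hΛT
  have hq : Λ / T ≤ 1 := (div_le_one hT0).2 hΛT
  have hq0 : 0 ≤ Λ / T := by positivity
  have hS : (2 + 7 * A) * (2 * (e0 * T)) < ε * T := by
    have a1 : (2 + 7 * A) * e0 ≤ (2 + 7 * A) * (ε' / 6) := mul_le_mul_of_nonneg_left he2 hA2.le
    have a2 : (2 + 7 * A) * (2 * e0) < ε := by nlinarith
    calc (2 + 7 * A) * (2 * (e0 * T)) = (2 + 7 * A) * (2 * e0) * T := by ring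
      _ < ε * T := mul_lt_mul_of_pos_right a2 hT0
  have hn : ∀ θ ∈ Iv θn (A / T ^ 2), nsq Z.μ (Z.gF (e0 * T) c u m0 h θ) ≤ Q := by
    intro θ hθ
    have a1 := fg.sh hT hA hth hθn hθ (mem_Iv.1 hθ) hS
    have a2 : 14 * Λ * (2 * (e0 * T)) * A / T ^ 2 = 28 * e0 * A * (Λ / T) := by
      field_simp; ring
    have a3 : 0 ≤ 28 * e0 * A := by positivity
    have a4 : 28 * e0 * A * (Λ / T) ≤ 28 * e0 * A := by nlinarith
    have a5 : (28 * e0 * A * (Λ / T)) ^ 2 ≤ (28 * e0 * A) ^ 2 :=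
      pow_le_pow_left₀ (by positivity) a4 2
    rw [a2] at a1
    rw [hQdef]
    linarith
  have fw := (fg.av hL c).improve (Real.sqrt_nonneg (4 / (ε' * e0) * Q + ε' ^ 2)) (by
    intro θ hθ x hx
    have hth' : Z.ThickAt T θ ε' := by
      rw [hε'def]; exact ThickAt.near hT hA hth (mem_Iv.1 hθ)
    have hH : 2 * (e0 * T) + e0 * T ≤ ε' * T / 2 := by nlinarith
    have a1 := fg.sup_av hT0 hε' hth' hθ hL hH c hx
    have a2 : 4 * T / (ε' * (e0 * T)) = 4 / (ε' * e0) := by field_simp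
    have a3 : Λ * ε' / (2 * T) = ε' / 2 * (Λ / T) := by field_simp
    have a4 : (ε' / 2 * (Λ / T)) ^ 2 ≤ (ε' / 2) ^ 2 :=
      pow_le_pow_left₀ (by positivity) (by nlinarith) 2
    have a5 : 4 / (ε' * e0) * nsq Z.μ (Z.gF (e0 * T) c u m0 h θ) ≤ 4 / (ε' * e0) * Q :=
      mul_le_mul_of_nonneg_left (hn θ hθ) (by positivity)
    rw [a2, a3] at a1
    refine Real.le_sqrt_of_sq_le ?_
    nlinarith [sq_nonneg ε'])
  exact Fam.mono fw (by nlinarith) hΛ le_rfl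

end Flat

end Pool.Agent.MP_b29402_an

end

-- part MP_b29402_an.Diff0
section

/-! Density theorem for nested partitions. -/

open MeasureTheory Set Filter Topology ProbabilityTheory
open scoped ComplexConjugate ENNReal

namespace Pool.Agent.MP_b29402_an

/-- a nested sequence of countable measurable partitions with small cells -/
structure Cells (Ω : Type*) [PseudoMetricSpace Ω] [MeasurableSpace Ω] (cell : ℕ → Ω → Set Ω) :
    Prop where
  mem : ∀ j z, z ∈ cell j z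
  meas : ∀ j z, MeasurableSet (cell j z)
  eq : ∀ j z z', z' ∈ cell j z → cell j z' = cell j z
  nest : ∀ j z, cell (j + 1) z ⊆ cell j z
  count : ∀ j, (range (cell j)).Countable
  small : ∀ r : ℝ, 0 < r → ∃ j0, ∀ j, j0 ≤ j → ∀ z, cell j z ⊆ Metric.ball z r

variable {Ω : Type*} [PseudoMetricSpace Ω] [MeasurableSpace Ω] [BorelSpace Ω]
  {cell : ℕ → Ω → Set Ω}

omit [BorelSpace Ω] in
/-- any set defined by a property of the cell of level `j` is a countable union of cells -/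
theorem Cells.measurableSet_of (h : Cells Ω cell) (j : ℕ) (Q : Set Ω → Prop) :
    MeasurableSet {z | Q (cell j z)} := by
  have e : {z | Q (cell j z)} = ⋃ C ∈ {C | C ∈ range (cell j) ∧ Q C}, C := by
    ext z
    simp only [mem_ofPred_eq, mem_iUnion, exists_prop]
    constructor
    · intro hz
      exact ⟨cell j z, ⟨mem_range_self z, hz⟩, h.mem j z⟩
    · rintro ⟨C, ⟨⟨w, rfl⟩, hQ⟩, hz⟩
      rwa [h.eq j w z hz]
  rw [e]
  refine MeasurableSet.biUnion ((h.count j).mono fun C hC => hC.1) ?_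
  rintro C ⟨⟨w, rfl⟩, -⟩
  exact h.meas j w

omit [BorelSpace Ω] in
theorem Diff0_anti (h : Cells Ω cell) (z : Ω) {i j : ℕ} (hij : i ≤ j) : cell j z ⊆ cell i z := by
  induction j, hij using Nat.le_induction with
  | base => exact Subset.rfl
  | succ j _ ih => exact (h.nest j z).trans ih

omit [BorelSpace Ω] in
theorem Diff0_sat (h : Cells Ω cell) (lam : Measure Ω) {G : Set Ω} (hG : MeasurableSet G)
    (c : ℝ≥0∞) (j : ℕ) {E : Set Ω} (hE : ∀ z ∈ E, cell j z ⊆ E)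
    (hb : ∀ z ∈ E, c * lam (cell j z) ≤ lam (cell j z \ G)) :
    MeasurableSet E ∧ c * lam E ≤ lam (E \ G) := by
  have hc : (cell j '' E).Countable := (h.count j).mono (image_subset_range _ _)
  have e : E = ⋃ C ∈ cell j '' E, C := by
    apply Subset.antisymm
    · intro z hz
      exact mem_biUnion (mem_image_of_mem _ hz) (h.mem j z)
    · refine iUnion₂_subset ?_
      rintro C ⟨w, hw, rfl⟩
      exact hE w hw
  have hm : ∀ C ∈ cell j '' E, MeasurableSet C := by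
    rintro C ⟨w, -, rfl⟩
    exact h.meas j w
  have hd : (cell j '' E).PairwiseDisjoint fun C : Set Ω => C := by
    rintro C ⟨w, -, rfl⟩ D ⟨v, -, rfl⟩ hne
    refine Set.disjoint_left.2 fun z h1 h2 => hne ?_
    rw [← h.eq j w z h1, ← h.eq j v z h2]
  have e2 : E \ G = ⋃ C ∈ cell j '' E, C \ G := by
    conv_lhs => rw [e]
    ext z
    simp only [Set.mem_sdiff, mem_iUnion, exists_prop]
    constructor
    · rintro ⟨⟨C, h1, h2⟩, h3⟩
      exact ⟨C, h1, h2, h3⟩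
    · rintro ⟨C, h1, h2, h3⟩
      exact ⟨⟨C, h1, h2⟩, h3⟩
  have hd2 : (cell j '' E).PairwiseDisjoint fun C : Set Ω => C \ G :=
    fun C hC D hD hne => (hd hC hD hne).mono sdiff_subset sdiff_subset
  refine ⟨by rw [e]; exact MeasurableSet.biUnion hc hm, ?_⟩
  have e3 : lam E = ∑' C : (cell j '' E), lam C := by
    conv_lhs => rw [e]
    exact measure_biUnion hc hd hm
  rw [e2, measure_biUnion hc hd2 fun C hC => (hm C hC).diff hG, e3, ← ENNReal.tsum_mul_left]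
  refine ENNReal.tsum_le_tsum ?_
  rintro ⟨C, w, hw, rfl⟩
  exact hb w hw

/-- Let `B = {z ∈ G | ∃ᶠ j, η λ (cell j z) < λ (cell j z \ G)}` (measurable). Take `U ⊇ B` open with
`λ (U \ B) < ε` (`MeasurableSet.exists_isOpen_diff_lt`, finite measures on metric spaces are outer
regular). For `z ∈ B` let `j z` be the least level with `cell j z ⊆ U` and bad ratio; the sets
`E j = {z | j is the least such level}` are measurable unions of cells of level `j`, pairwise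
disjoint, inside `U`, and `η λ (E j) ≤ λ (E j \ G)` (countable disjoint union of cells). So
`η λ B ≤ λ (U \ G) ≤ λ (U \ B) < ε`. -/
theorem Cells.null_frequently (h : Cells Ω cell) (lam : Measure Ω) [IsFiniteMeasure lam]
    {G : Set Ω} (hG : MeasurableSet G) {η : ℝ} (hη : 0 < η) :
    lam {z | z ∈ G ∧ ∃ᶠ j in atTop,
      ENNReal.ofReal η * lam (cell j z) < lam (cell j z \ G)} = 0 := by
  classical
  set c : ℝ≥0∞ := ENNReal.ofReal η with hc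
  have hc0 : c ≠ 0 := (ENNReal.ofReal_pos.2 hη).ne'
  set B := {z | z ∈ G ∧ ∃ᶠ j in atTop, c * lam (cell j z) < lam (cell j z \ G)} with hB
  have key : ∀ ε : ℝ≥0∞, ε ≠ 0 → c * lam B ≤ ε := by
    intro ε hε
    obtain ⟨U, hGU, hU, -, hlt⟩ := hG.exists_isOpen_sdiff_lt (measure_ne_top lam G) hε
    let P : ℕ → Ω → Prop := fun j z =>
      cell j z ⊆ U ∧ c * lam (cell j z) < lam (cell j z \ G)
    let E : ℕ → Set Ω := fun j => {z | P j z ∧ ∀ i, i < j → ¬ P i z}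
    have hsat : ∀ j, ∀ z ∈ E j, cell j z ⊆ E j := by
      intro j z hz w hw
      have e : ∀ i, i ≤ j → cell i w = cell i z := fun i hi =>
        h.eq i z w (Diff0_anti h z hi hw)
      refine ⟨?_, fun i hi => ?_⟩
      · show cell j w ⊆ U ∧ c * lam (cell j w) < lam (cell j w \ G)
        rw [e j le_rfl]
        exact hz.1
      · show ¬ (cell i w ⊆ U ∧ c * lam (cell i w) < lam (cell i w \ G))
        rw [e i hi.le]
        exact hz.2 i hi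
    have hE : ∀ j, MeasurableSet (E j) ∧ c * lam (E j) ≤ lam (E j \ G) := fun j =>
      Diff0_sat h lam hG c j (hsat j) fun z hz => hz.1.2.le
    have hcov : B ⊆ ⋃ j, E j := by
      rintro z ⟨hzG, hz⟩
      obtain ⟨r, hr, hball⟩ := Metric.isOpen_iff.1 hU z (hGU hzG)
      obtain ⟨j0, hj0⟩ := h.small r hr
      obtain ⟨j, hj, hbad⟩ := frequently_atTop.1 hz j0
      have hex : ∃ j, P j z := ⟨j, (hj0 j hj z).trans hball, hbad⟩
      exact mem_iUnion.2 ⟨Nat.find hex, Nat.find_spec hex, fun i hi => Nat.find_min hex hi⟩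
    have hdis : Pairwise (Function.onFun Disjoint fun j => E j \ G) := by
      intro i j hij
      refine Set.disjoint_left.2 fun z h1 h2 => ?_
      rcases lt_or_gt_of_ne hij with hl | hl
      · exact h2.1.2 i hl h1.1.1
      · exact h1.1.2 j hl h2.1.1
    calc c * lam B ≤ c * ∑' j, lam (E j) := by
          gcongr
          exact (measure_mono hcov).trans (measure_iUnion_le _)
      _ = ∑' j, c * lam (E j) := ENNReal.tsum_mul_left.symm
      _ ≤ ∑' j, lam (E j \ G) := ENNReal.tsum_le_tsum fun j => (hE j).2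
      _ = lam (⋃ j, E j \ G) := (measure_iUnion hdis fun j => (hE j).1.diff hG).symm
      _ ≤ lam (U \ G) := measure_mono (iUnion_subset fun j z hz =>
          ⟨hz.1.1.1 (h.mem j z), hz.2⟩)
      _ ≤ ε := hlt.le
  have h0 : c * lam B = 0 := by
    by_contra hne
    have hfin : c * lam B ≠ ⊤ := ENNReal.mul_ne_top ENNReal.ofReal_ne_top (measure_ne_top _ _)
    have h1 := key (c * lam B / 2) (ENNReal.div_ne_zero.2 ⟨hne, by simp⟩)
    exact absurd h1 (not_le.2 (ENNReal.half_lt_self hne hfin))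
  exact (mul_eq_zero.1 h0).resolve_left hc0

/-- the measurable sets `G ∩ {z | ∃ j ≥ j0, bad j z}` decrease to the null set above
(`tendsto_measure_iInter_atTop`). -/
theorem Cells.exists_good (h : Cells Ω cell) (lam : Measure Ω) [IsFiniteMeasure lam]
    {G : Set Ω} (hG : MeasurableSet G) {η γ : ℝ} (hη : 0 < η) (hγ : 0 < γ) :
    ∃ G' : Set Ω, MeasurableSet G' ∧ G' ⊆ G ∧ lam.real (G \ G') ≤ γ ∧ ∃ j0 : ℕ, ∀ z ∈ G', ∀ j,
      j0 ≤ j → lam.real (cell j z \ G) ≤ η * lam.real (cell j z) := by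
  let bad : ℕ → Set Ω := fun j =>
    {z | ENNReal.ofReal η * lam (cell j z) < lam (cell j z \ G)}
  have hbad : ∀ j, MeasurableSet (bad j) := fun j =>
    h.measurableSet_of j fun C => ENNReal.ofReal η * lam C < lam (C \ G)
  let A : ℕ → Set Ω := fun n => G ∩ ⋃ j ∈ {j | n ≤ j}, bad j
  have hA : ∀ n, MeasurableSet (A n) := fun n =>
    hG.inter (MeasurableSet.biUnion (Set.to_countable _) fun j _ => hbad j)
  have hanti : Antitone A := fun m n hmn =>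
    inter_subset_inter_right _ (biUnion_subset_biUnion_left fun j hj => hmn.trans hj)
  have hnull : lam (⋂ n, A n) = 0 := by
    refine measure_mono_null ?_ (h.null_frequently lam hG hη)
    intro z hz
    rw [mem_iInter] at hz
    refine ⟨(hz 0).1, frequently_atTop.2 fun n => ?_⟩
    obtain ⟨j, hj, hz'⟩ := mem_iUnion₂.1 (hz n).2
    exact ⟨j, hj, hz'⟩
  have ht := tendsto_measure_iInter_atTop (μ := lam) (fun n => (hA n).nullMeasurableSet) hanti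
    ⟨0, measure_ne_top _ _⟩
  rw [hnull] at ht
  obtain ⟨n, hn⟩ := (ht.eventually (gt_mem_nhds (ENNReal.ofReal_pos.2 hγ))).exists
  refine ⟨G \ A n, hG.diff (hA n), sdiff_subset, ?_, n, fun z hz j hj => ?_⟩
  · have h1 : G \ (G \ A n) ⊆ A n := fun z hz => by
      by_contra hc
      exact hz.2 ⟨hz.1, hc⟩
    exact ENNReal.toReal_le_of_le_ofReal hγ.le ((measure_mono h1).trans hn.le)
  · have h1 : lam (cell j z \ G) ≤ ENNReal.ofReal η * lam (cell j z) := by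
      by_contra hc
      exact hz.2 ⟨hz.1, mem_biUnion (show j ∈ {j | n ≤ j} from hj) (not_le.1 hc)⟩
    have h2 := ENNReal.toReal_mono
      (ENNReal.mul_ne_top ENNReal.ofReal_ne_top (measure_ne_top lam _)) h1
    rwa [ENNReal.toReal_mul, ENNReal.toReal_ofReal hη.le] at h2

end Pool.Agent.MP_b29402_an

end

-- part MP_b29402_an.Diff
section

/-! Density theorem for parabolic rectangles, through shifted dyadic grids. -/

open MeasureTheory Set Filter Topology ProbabilityTheory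
open scoped ComplexConjugate ENNReal

namespace Pool.Agent.MP_b29402_an

/-- the dyadic interval of level `j` of the grid shifted by `g / 3` which contains `x` -/
def dcell (g : Bool) (j : ℕ) (x : ℝ) : Set ℝ :=
  {y | ⌊(2 : ℝ) ^ j * (y - if g then 1 / 3 else 0)⌋ = ⌊(2 : ℝ) ^ j * (x - if g then 1 / 3 else 0)⌋}

theorem dcell_subset (g : Bool) (j : ℕ) (x : ℝ) : dcell g j x ⊆ Iv x (1 / 2 ^ j) := by
  intro y hy
  have h := Int.abs_sub_lt_one_of_floor_eq_floor hy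
  have h2 : (0 : ℝ) < 2 ^ j := by positivity
  rw [← mul_sub, sub_sub_sub_cancel_right, abs_mul, abs_of_pos h2] at h
  rw [mem_Iv, le_div_iff₀' h2]
  exact h.le

/-- `⌊⌊2 t⌋ / 2⌋ = ⌊t⌋` (`Int.floor_div_natCast`-type lemma) -/
theorem dcell_succ (g : Bool) (j : ℕ) (x : ℝ) : dcell g (j + 1) x ⊆ dcell g j x := by
  have h : ∀ t : ℝ, ⌊(2 : ℝ) ^ j * t⌋ = ⌊(2 : ℝ) ^ (j + 1) * t⌋ / (2 : ℕ) := fun t => by
    rw [← Int.floor_div_natCast]
    congr 1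
    push_cast
    ring
  intro y hy
  have hy' : ⌊(2 : ℝ) ^ (j + 1) * (y - if g then 1 / 3 else 0)⌋ =
      ⌊(2 : ℝ) ^ (j + 1) * (x - if g then 1 / 3 else 0)⌋ := hy
  change ⌊(2 : ℝ) ^ j * (y - if g then 1 / 3 else 0)⌋ = ⌊(2 : ℝ) ^ j * (x - if g then 1 / 3 else 0)⌋
  rw [h, h, hy']

theorem Diff_mono (g : Bool) {i j : ℕ} (h : i ≤ j) (x : ℝ) : dcell g j x ⊆ dcell g i x := by
  induction h with
  | refl => exact Subset.rfl
  | step _ ih => exact (dcell_succ g _ x).trans ih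

theorem Diff_int {a b : ℝ} (h : ⌊a⌋ ≠ ⌊b⌋) : ∃ k : ℤ, |k - b| ≤ |a - b| := by
  rcases lt_or_gt_of_ne h with h | h
  · have h1 : a < ⌊b⌋ := Int.floor_lt.1 h
    have h2 := Int.floor_le b
    refine ⟨⌊b⌋, ?_⟩
    rw [abs_of_nonpos (by linarith), abs_of_nonpos (by linarith)]
    linarith
  · have h1 : b < ⌊a⌋ := Int.floor_lt.1 h
    have h2 := Int.floor_le a
    refine ⟨⌊a⌋, ?_⟩
    rw [abs_of_nonneg (by linarith), abs_of_nonneg (by linarith)]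
    linarith

theorem Diff_out (g : Bool) (j : ℕ) {x r : ℝ} (hr : 6 * r < 1 / 2 ^ j)
    (h : ¬Iv x r ⊆ dcell g j x) :
    ∃ k : ℤ, |k - (2 : ℝ) ^ j * (x - if g then 1 / 3 else 0)| < 1 / 6 := by
  obtain ⟨y, hy, hy'⟩ := not_subset.1 h
  obtain ⟨k, hk⟩ := Diff_int hy'
  have h2 : (0 : ℝ) < 2 ^ j := by positivity
  rw [← mul_sub, sub_sub_sub_cancel_right, abs_mul, abs_of_pos h2] at hk
  rw [lt_div_iff₀ h2] at hr
  have h3 := mul_le_mul_of_nonneg_left (mem_Iv.1 hy) h2.le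
  exact ⟨k, by linarith⟩

/-- One third trick. If neither grid works, the interval (scaled by `2 ^ j`, length `< 1/3`) contains an
integer `k` and a point `k' + 2 ^ j / 3`; but `|3 (k - k') - 2 ^ j| ≥ 1` since `3 ∤ 2 ^ j`. -/
theorem exists_dcell_supset (j : ℕ) {x r : ℝ} (hr : 6 * r < 1 / 2 ^ j) :
    ∃ g, Iv x r ⊆ dcell g j x := by
  by_contra h
  rw [not_exists] at h
  obtain ⟨k, hk⟩ := Diff_out false j hr (h _)
  obtain ⟨k', hk'⟩ := Diff_out true j hr (h _)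
  simp only [Bool.false_eq_true, if_false, if_true, sub_zero, abs_lt] at hk hk'
  have h1 : |((3 * (k - k') - 2 ^ j : ℤ) : ℝ)| < 1 := by
    push_cast
    rw [abs_lt]
    constructor <;> linarith [hk.1, hk.2, hk'.1, hk'.2]
  have h2 : 3 * (k - k') - 2 ^ j = 0 := by
    rw [← Int.cast_abs, ← Int.cast_one, Int.cast_lt] at h1
    exact Int.abs_lt_one_iff.1 h1
  have h3 : (3 : ℤ) ∣ 2 ^ j := ⟨k - k', by linarith⟩
  exact absurd (Int.prime_three.dvd_of_dvd_pow h3) (by decide)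

theorem Diff_meas (g : Bool) (j : ℕ) (x : ℝ) : MeasurableSet (dcell g j x) :=
  measurableSet_eq_fun (Int.measurable_floor.comp ((measurable_id.sub_const _).const_mul _))
    measurable_const

theorem Diff_eq {g : Bool} {j : ℕ} {x y : ℝ} (h : y ∈ dcell g j x) : dcell g j y = dcell g j x := by
  have h' : ⌊(2 : ℝ) ^ j * (y - if g then 1 / 3 else 0)⌋ =
      ⌊(2 : ℝ) ^ j * (x - if g then 1 / 3 else 0)⌋ := h
  rw [dcell, dcell, h']

/-- product cells with levels `(2 j + a).toNat` and `j` -/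
theorem cells_prod (g g' : Bool) (a : ℤ) :
    Cells (ℝ × ℝ) (fun j p => dcell g (2 * (j : ℤ) + a).toNat p.1 ×ˢ dcell g' j p.2) := by
  refine ⟨fun j z => ⟨rfl, rfl⟩, fun j z => (Diff_meas _ _ _).prod (Diff_meas _ _ _),
    fun j z z' h => ?_, fun j z => prod_mono (Diff_mono g (by omega) _) (dcell_succ g' j _),
    fun j => ?_, fun r hr => ?_⟩
  · rw [Diff_eq h.1, Diff_eq h.2]
  · refine (countable_range fun q : ℤ × ℤ =>
      {y : ℝ | ⌊(2 : ℝ) ^ (2 * (j : ℤ) + a).toNat * (y - if g then 1 / 3 else 0)⌋ = q.1} ×ˢ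
      {y : ℝ | ⌊(2 : ℝ) ^ j * (y - if g' then 1 / 3 else 0)⌋ = q.2}).mono ?_
    rintro _ ⟨p, rfl⟩
    exact ⟨(_, _), rfl⟩
  · obtain ⟨n, hn⟩ := exists_pow_lt_of_lt_one hr (by norm_num : (1 / 2 : ℝ) < 1)
    rw [one_div_pow] at hn
    have h1 : ∀ (c : Bool) (i : ℕ) (x y : ℝ), n ≤ i → y ∈ dcell c i x → dist y x < r :=
      fun c i x y hi hy => (mem_Iv.1 (dcell_subset c n x (Diff_mono c hi x hy))).trans_lt hn
    refine ⟨n + a.natAbs, fun j hj z p hp => ?_⟩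
    rw [Metric.mem_ball, Prod.dist_eq, max_lt_iff]
    exact ⟨h1 _ _ _ _ (by omega) hp.1, h1 _ _ _ _ (by omega) hp.2⟩

theorem Diff_near {t : ℝ} (h0 : 0 < t) (h1 : t < 1) :
    ∃ j : ℕ, t < 1 / 2 ^ j ∧ (1 : ℝ) / 2 ^ j ≤ 2 * t := by
  classical
  have h : ∃ n : ℕ, (1 : ℝ) / 2 ^ (n + 1) ≤ t := by
    obtain ⟨n, hn⟩ := exists_pow_lt_of_lt_one h0 (by norm_num : (1 / 2 : ℝ) < 1)
    rw [one_div_pow] at hn
    exact ⟨n, (one_div_le_one_div_of_le (by positivity)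
      (pow_le_pow_right₀ (by norm_num) n.le_succ)).trans hn.le⟩
  refine ⟨Nat.find h, ?_, ?_⟩
  · rcases Nat.eq_zero_or_pos (Nat.find h) with h2 | h2
    · rw [h2]
      simpa using h1
    · have h3 := Nat.find_min h (Nat.sub_lt h2 one_pos)
      rw [show Nat.find h - 1 + 1 = Nat.find h by omega] at h3
      exact not_le.1 h3
  · have h2 := Nat.find_spec h
    rw [pow_succ, ← div_div] at h2
    linarith

theorem Diff_le {i j : ℕ} (h : (1 : ℝ) / 2 ^ j ≤ 1 / 2 ^ i) : i ≤ j :=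
  (pow_le_pow_iff_right₀ (by norm_num : (1 : ℝ) < 2)).1
    ((one_div_le_one_div (by positivity) (by positivity)).1 h)

theorem Diff_range {A b R : ℝ} {n i j : ℕ} (hA : 0 < A) (hb : 0 < b) (hR : 0 < R)
    (h1 : 24 * b ^ 2 / A ≤ 2 ^ n) (h2 : A / (3 * b ^ 2) ≤ 2 ^ n)
    (i1 : 6 * (A * R ^ 2) < 1 / 2 ^ i) (i2 : (1 : ℝ) / 2 ^ i ≤ 2 * (6 * (A * R ^ 2)))
    (j1 : 6 * (b * R) < 1 / 2 ^ j) (j2 : (1 : ℝ) / 2 ^ j ≤ 2 * (6 * (b * R))) :
    i ≤ 2 * j + n ∧ 2 * j ≤ i + n := by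
  have hn : (0 : ℝ) < 2 ^ n := by positivity
  have hR2 : 0 < R ^ 2 := by positivity
  rw [div_le_iff₀ hA] at h1
  rw [div_le_iff₀ (by positivity)] at h2
  constructor
  · refine Diff_le ?_
    have e : (1 : ℝ) / 2 ^ (2 * j + n) = (1 / 2 ^ j) ^ 2 / 2 ^ n := by
      rw [pow_add, pow_mul']
      field_simp
    have h3 := pow_le_pow_left₀ (by positivity) j2 2
    have h4 := mul_le_mul_of_nonneg_right h1 hR2.le
    have h5 := mul_le_mul_of_nonneg_right i1.le hn.le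
    rw [e, div_le_iff₀ hn]
    nlinarith
  · refine Diff_le ?_
    have e : (1 : ℝ) / 2 ^ (i + n) = 1 / 2 ^ i / 2 ^ n := by rw [pow_add, div_div]
    have e' : (1 : ℝ) / 2 ^ (2 * j) = (1 / 2 ^ j) ^ 2 := by rw [pow_mul', one_div_pow]
    have h3 := mul_le_mul_of_nonneg_right (pow_le_pow_left₀ (by positivity) j1.le 2) hn.le
    have h4 := mul_le_mul_of_nonneg_right h2 hR2.le
    rw [e, e', div_le_iff₀ hn]
    nlinarith

/-- For small `R` choose `j`, `i` with `6 b R < 1/2^j ≤ 12 b R`, `6 A R² < 1/2^i ≤ 12 A R²`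
(`exists_nat_pow_near`-type lemma); then `a = i - 2 j` satisfies `3 b²/A < 2 ^ a < 24 b²/A`, so it lies in a
finite set `s` of integers independent of `R`. Intersect the sets `G'` of `Cells.exists_good` over the
finitely many `(g, g', a)` (with `γ / (4 * card s + 1)`), and take `R1` so small that `j ≥` all `j0`. -/
theorem diff_rect (lam : Measure (ℝ × ℝ)) [IsFiniteMeasure lam] {G : Set (ℝ × ℝ)}
    (hG : MeasurableSet G) {A b η γ : ℝ} (hA : 0 < A) (hb : 0 < b) (hη : 0 < η) (hγ : 0 < γ) :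
    ∃ G' : Set (ℝ × ℝ), MeasurableSet G' ∧ G' ⊆ G ∧ lam.real (G \ G') ≤ γ ∧ ∃ R1 : ℝ, 0 < R1 ∧
      ∀ p ∈ G', ∀ R : ℝ, 0 < R → R ≤ R1 → ∃ I D : Set ℝ, MeasurableSet I ∧ MeasurableSet D ∧
        Iv p.1 (A * R ^ 2) ⊆ I ∧ I ⊆ Iv p.1 (12 * A * R ^ 2) ∧
        Iv p.2 (b * R) ⊆ D ∧ D ⊆ Iv p.2 (12 * b * R) ∧
        lam.real ((I ×ˢ D) \ G) ≤ η * lam.real (I ×ˢ D) := by
  obtain ⟨n, hn⟩ := pow_unbounded_of_one_lt (max (24 * b ^ 2 / A) (A / (3 * b ^ 2)))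
    (by norm_num : (1 : ℝ) < 2)
  rw [max_lt_iff] at hn
  set s : Finset (Bool × Bool × ℤ) :=
    Finset.univ ×ˢ Finset.univ ×ˢ Finset.Icc (-(n : ℤ)) n with hs
  have hγ' : 0 < γ / (s.card + 1) := by positivity
  choose Gq m1 m2 m3 j0 m4 using fun q : Bool × Bool × ℤ =>
    (cells_prod q.1 q.2.1 q.2.2).exists_good lam hG hη hγ'
  set J := s.sup j0 with hJ
  refine ⟨G ∩ ⋂ q ∈ s, Gq q, hG.inter (s.measurableSet_biInter fun q _ => m1 q), inter_subset_left,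
    ?_, min (1 / 2 ^ J / (12 * b)) (min 1 (1 / (12 * A))), by positivity,
    fun p hp R hR hR1 => ?_⟩
  · have h1 : G \ (G ∩ ⋂ q ∈ s, Gq q) ⊆ ⋃ q ∈ s, G \ Gq q := by
      rintro z ⟨hz, hz'⟩
      by_contra h
      simp only [mem_iUnion, not_exists] at h
      refine hz' ⟨hz, mem_iInter₂.2 fun q hq => ?_⟩
      by_contra h2
      exact h q hq ⟨hz, h2⟩
    refine (measureReal_mono h1 (measure_ne_top _ _)).trans ((measureReal_biUnion_finset_le _ _).trans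
      ((Finset.sum_le_sum fun q _ => m3 q).trans ?_))
    rw [Finset.sum_const, nsmul_eq_mul, mul_div_assoc', div_le_iff₀ (by positivity)]
    nlinarith
  · simp only [le_min_iff] at hR1
    obtain ⟨r1, r2, r3⟩ := hR1
    rw [le_div_iff₀ (by positivity)] at r1 r3
    have hJ1 : (1 : ℝ) / 2 ^ J ≤ 1 := by
      rw [div_le_one (by positivity)]
      exact one_le_pow₀ (by norm_num)
    have hAR : A * R ^ 2 ≤ A * R := by
      rw [sq]
      exact mul_le_mul_of_nonneg_left (mul_le_of_le_one_right hR.le r2) hA.le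
    obtain ⟨i, i1, i2⟩ := Diff_near (t := 6 * (A * R ^ 2)) (by positivity) (by linarith)
    obtain ⟨j, j1, j2⟩ := Diff_near (t := 6 * (b * R)) (by positivity) (by linarith)
    obtain ⟨a1, a2⟩ := Diff_range hA hb hR hn.1.le hn.2.le i1 i2 j1 j2
    obtain ⟨g, hg⟩ := exists_dcell_supset i (x := p.1) i1
    obtain ⟨g', hg'⟩ := exists_dcell_supset j (x := p.2) j1
    have hq : (g, g', (i : ℤ) - 2 * j) ∈ s := by
      simp only [hs, Finset.mem_product, Finset.mem_univ, Finset.mem_Icc, true_and]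
      omega
    have hj : J ≤ j := Diff_le (by linarith)
    have h1 := m4 _ p (mem_iInter₂.1 hp.2 _ hq) j ((Finset.le_sup hq).trans hj)
    have e : (2 * (j : ℤ) + ((i : ℤ) - 2 * j)).toNat = i := by omega
    simp only [e] at h1
    refine ⟨dcell g i p.1, dcell g' j p.2, Diff_meas _ _ _, Diff_meas _ _ _, hg,
      fun y hy => mem_Iv.2 ((mem_Iv.1 (dcell_subset _ _ _ hy)).trans (by linarith)), hg',
      fun y hy => mem_Iv.2 ((mem_Iv.1 (dcell_subset _ _ _ hy)).trans (by linarith)), h1⟩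

end Pool.Agent.MP_b29402_an

end
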