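import Pool.Agent.MP_b29402_an.Mg.Pl2

-- part MP_b29402_an.FB1
section

/-! First consequences of the definition of a flat surface. -/

open MeasureTheory Set Filter Topology ProbabilityTheory
open scoped ComplexConjugate ENNReal

namespace Pool.Agent.MP_b29402_an

namespace Flat

variable {X : Type*} [MeasurableSpace X] {Z : Flat X}

theorem reg_of_mem {x : X} {v : P2} (h : v ∈ Z.D x) : Z.reg x := by
  have := Z.star x v h 0 le_rfl zero_le_one
  rwa [zero_smul] at this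

theorem reg_of_V {x : X} {w : P2} (h : w ∈ Z.V x) : Z.reg x := by
  have := h.2 0 le_rfl zero_lt_one
  rwa [zero_smul] at this

theorem V_ne_zero {x : X} {w : P2} (h : w ∈ Z.V x) : w ≠ 0 := fun e => h.1 (e ▸ reg_of_V h)

theorem V_not_mem {x : X} {w : P2} (h : w ∈ Z.V x) : w ∉ Z.D x := h.1

theorem exists_ball {x : X} (h : Z.reg x) : ∃ r : ℝ, 0 < r ∧ Metric.ball 0 r ⊆ Z.D x := Metric.isOpen_iff.1 (Z.open_D x) 0 h

theorem FB1_line {x : X} {v : P2} {S : Set ℝ} (hS : Convex ℝ S) (h0 : (0 : ℝ) ∈ S)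
    (h : ∀ r ∈ S, r • v ∈ Z.D x) {s t : ℝ} (hs : s ∈ S) (ht : t ∈ S) :
    (t - s) • v ∈ Z.D (Z.mv x (s • v)) ∧ Z.mv (Z.mv x (s • v)) ((t - s) • v) = Z.mv x (t • v) := by
  rw [sub_smul]
  refine Z.conv x ((fun r : ℝ => r • v) '' S) (hS.linear_image (LinearMap.toSpanSingleton ℝ P2 v))
    ⟨0, h0, zero_smul _ _⟩ ?_ _ ⟨s, hs, rfl⟩ _ ⟨t, ht, rfl⟩
  rintro _ ⟨r, hr, rfl⟩
  exact h r hr

/-- `conv` with `K` the segment `[0, v]` -/
theorem seg_conv {x : X} {v : P2} (h : v ∈ Z.D x) {s t : ℝ} (hs0 : 0 ≤ s) (hs1 : s ≤ 1)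
    (ht0 : 0 ≤ t) (ht1 : t ≤ 1) :
    (t - s) • v ∈ Z.D (Z.mv x (s • v)) ∧ Z.mv (Z.mv x (s • v)) ((t - s) • v) = Z.mv x (t • v) := FB1_line (convex_Icc 0 1) ⟨le_rfl, zero_le_one⟩ (fun r hr => Z.star x v h r hr.1 hr.2)
    ⟨hs0, hs1⟩ ⟨ht0, ht1⟩

theorem reg_mv {x : X} {v : P2} (h : v ∈ Z.D x) : Z.reg (Z.mv x v) := by
  have := (seg_conv h zero_le_one le_rfl zero_le_one le_rfl).1
  rw [one_smul] at this
  exact reg_of_mem this

theorem back {x : X} {v : P2} (h : v ∈ Z.D x) :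
    -v ∈ Z.D (Z.mv x v) ∧ Z.mv (Z.mv x v) (-v) = x := by
  have := seg_conv h zero_le_one le_rfl le_rfl zero_le_one
  rwa [one_smul, zero_sub, neg_smul, one_smul, zero_smul, Z.mv_zero] at this

/-- translate a convex chart to a new base point -/
theorem shift_subset {x : X} {K : Set P2} (hK : Convex ℝ K) (h0 : (0 : P2) ∈ K) (hD : K ⊆ Z.D x)
    {a : P2} (ha : a ∈ K) : {w | a + w ∈ K} ⊆ Z.D (Z.mv x a) := fun w hw => by
  have := (Z.conv x K hK h0 hD a ha _ hw).1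
  rwa [add_sub_cancel_left] at this

theorem ball_shift {x : X} {r : ℝ} (h : Metric.ball 0 r ⊆ Z.D x) {a : P2} (ha : ‖a‖ < r) :
    Metric.ball 0 (r - ‖a‖) ⊆ Z.D (Z.mv x a) := fun w hw => by
  refine shift_subset (convex_ball 0 r) (Metric.mem_ball_self ((norm_nonneg a).trans_lt ha)) h
    (mem_ball_zero_iff.2 ha) (mem_ball_zero_iff.2 ?_)
  have := mem_ball_zero_iff.1 hw
  linarith [norm_add_le a w]

/-- `mv x` is locally a translation chart (`exists_tube`, `convex_tube`, `conv`) -/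
theorem local_mv {x : X} {v : P2} (h : v ∈ Z.D x) :
    ∃ δ : ℝ, 0 < δ ∧ (∀ b : P2, ‖b‖ < δ → v + b ∈ Z.D x ∧ b ∈ Z.D (Z.mv x v) ∧
        Z.mv (Z.mv x v) b = Z.mv x (v + b)) ∧
      ∀ a : P2, ‖a‖ < δ → a ∈ Z.D x ∧ v ∈ Z.D (Z.mv x a) ∧
        Z.mv (Z.mv x a) v = Z.mv (Z.mv x v) a := by
  obtain ⟨δ, hδ, hK⟩ := exists_tube (Z.open_D x) (Z.star x v h)
  have m0 : ∀ a : P2, ‖a‖ < δ → a ∈ {w : P2 | ∃ t : ℝ, 0 ≤ t ∧ t ≤ 1 ∧ ‖w - t • v‖ < δ} :=
    fun a ha => ⟨0, le_rfl, zero_le_one, by simpa using ha⟩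
  have m1 : ∀ a : P2, ‖a‖ < δ → v + a ∈ {w : P2 | ∃ t : ℝ, 0 ≤ t ∧ t ≤ 1 ∧ ‖w - t • v‖ < δ} :=
    fun a ha => ⟨1, zero_le_one, le_rfl, by simpa using ha⟩
  have hc := Z.conv x _ (convex_tube v δ) (m0 0 (by simpa using hδ)) hK
  have mv : v ∈ {w : P2 | ∃ t : ℝ, 0 ≤ t ∧ t ≤ 1 ∧ ‖w - t • v‖ < δ} := by
    simpa using m1 0 (by simpa using hδ)
  have k : ∀ b : P2, ‖b‖ < δ → v + b ∈ Z.D x ∧ b ∈ Z.D (Z.mv x v) ∧
      Z.mv (Z.mv x v) b = Z.mv x (v + b) := fun b hb => by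
    have := hc v mv _ (m1 b hb)
    rw [add_sub_cancel_left] at this
    exact ⟨hK (m1 b hb), this⟩
  refine ⟨δ, hδ, k, fun a ha => ?_⟩
  have := hc a (m0 a ha) _ (m1 a ha)
  rw [add_sub_cancel_right] at this
  exact ⟨hK (m0 a ha), this.1, this.2.trans (k a ha).2.2.symm⟩

/-- `t = sInf {t ∈ [0,1] | t • v ∉ D x}`, attained as `D x` is open -/
theorem exists_vis {x : X} (hx : Z.reg x) {v : P2} (h : v ∉ Z.D x) :
    ∃ t : ℝ, 0 < t ∧ t ≤ 1 ∧ t • v ∈ Z.V x := by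
  have hc : IsClosed {t : ℝ | t • v ∉ Z.D x} :=
    ((Z.open_D x).preimage (continuous_id.smul continuous_const)).isClosed_compl
  obtain ⟨t, ⟨ht, hv⟩, hm⟩ := (isCompact_Icc.inter_right hc).exists_isLeast
    ⟨1, ⟨zero_le_one, le_rfl⟩, by simpa using h⟩
  refine ⟨t, lt_of_le_of_ne ht.1 ?_, ht.2, hv, fun s h0 h1 => ?_⟩
  · rintro rfl
    exact hv (by rw [zero_smul]; exact hx)
  · by_contra hs
    rw [smul_smul] at hs
    have h2 : s * t ≤ t := by nlinarith [ht.1]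
    have h3 := hm ⟨⟨mul_nonneg h0 ht.1, h2.trans ht.2⟩, hs⟩
    have h4 : t = 0 := by nlinarith [ht.1]
    exact hv (by rw [h4, zero_smul]; exact hx)

theorem vfree {x : X} (hx : Z.reg x) {K : Set P2} (hK : Convex ℝ K) (h0 : (0 : P2) ∈ K)
    (h : ∀ w ∈ K, w ∉ Z.V x) : K ⊆ Z.D x := fun v hv => by
  by_contra hn
  obtain ⟨t, h1, h2, h3⟩ := exists_vis hx hn
  exact h _ (hK.smul_mem_of_zero_mem h0 hv ⟨h1.le, h2⟩) h3

theorem vis_unique {x : X} {w : P2} (h : w ∈ Z.V x) {t : ℝ} (ht : 0 < t) (h' : t • w ∈ Z.V x) :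
    t = 1 := by
  rcases lt_trichotomy t 1 with h1 | h1 | h1
  · exact absurd (h.2 t ht.le h1) h'.1
  · exact h1
  · have := h'.2 t⁻¹ (inv_nonneg.2 ht.le) (inv_lt_one_of_one_lt₀ h1)
    rw [smul_smul, inv_mul_cancel₀ ht.ne', one_smul] at this
    exact absurd this h.1

theorem lt_one_of_smul_mem {x : X} {w : P2} (h : w ∈ Z.V x) {t : ℝ} (h' : t • w ∈ Z.D x) :
    t < 1 := by
  by_contra hn
  have h1 : 1 ≤ t := not_lt.1 hn
  have ht : 0 < t := one_pos.trans_le h1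
  have := Z.star x _ h' t⁻¹ (inv_nonneg.2 ht.le) (inv_le_one_of_one_le₀ h1)
  rw [smul_smul, inv_mul_cancel₀ ht.ne', one_smul] at this
  exact h.1 this

/-- triangle with vertices `0, c, w`, without the vertex `w` -/
def FB1_K (c w : P2) : Set P2 :=
  {u | ∃ α β : ℝ, 0 ≤ α ∧ 0 ≤ β ∧ α + β ≤ 1 ∧ β < 1 ∧ u = α • c + β • w}

theorem FB1_zero (c w : P2) : (0 : P2) ∈ FB1_K c w :=
  ⟨0, 0, le_rfl, le_rfl, by norm_num, one_pos, by simp⟩

theorem FB1_left (c w : P2) : c ∈ FB1_K c w :=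
  ⟨1, 0, zero_le_one, le_rfl, by norm_num, one_pos, by simp⟩

theorem FB1_convex (c w : P2) : Convex ℝ (FB1_K c w) := by
  rintro _ ⟨α, β, h1, h2, h3, h4, rfl⟩ _ ⟨α', β', k1, k2, k3, k4, rfl⟩ a b ha hb hab
  refine ⟨a * α + b * α', a * β + b * β', by positivity, by positivity, by nlinarith, ?_, by module⟩
  have := (convex_Iio (1 : ℝ) : Convex ℝ _) (mem_Iio.2 h4) (mem_Iio.2 k4) ha hb hab
  simpa using this

/-- V-consistency. `K2 = {α c + β w | α, β ≥ 0, α + β ≤ 1, β < 1}` is convex, contains `0` and `c`, so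
`b - c ∈ D y` for `b ∈ K2`, `y = mv x c`; this gives the second half of `Vis`. If `w - c ∈ D y` then the
whole triangle translated by `-c` is a convex subset of `D y` containing `0`, `-c`, `w - c`, and `conv` at
`y` (`mv y (-c) = x` by `back`) gives `w ∈ D x`. -/
theorem vc {x : X} {w c : P2} (hw : w ∈ Z.V x)
    (h : ∀ α β : ℝ, 0 ≤ α → 0 ≤ β → α + β ≤ 1 → β < 1 → α • c + β • w ∈ Z.D x) :
    w - c ∈ Z.V (Z.mv x c) := by
  have hD : FB1_K c w ⊆ Z.D x := by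
    rintro _ ⟨α, β, h1, h2, h3, h4, rfl⟩
    exact h α β h1 h2 h3 h4
  have hc := Z.conv x _ (FB1_convex c w) (FB1_zero c w) hD c (FB1_left c w)
  refine ⟨fun hn => hw.1 ?_, fun t h0 h1 => ?_⟩
  · have hK : Convex ℝ (ctri (-c) 0 (w - c)) := convex_ctri _ _ _
    have := (Z.conv (Z.mv x c) _ hK (mid_mem_ctri _ _ _) ?_ _ (left_mem_ctri _ _ _) _
      (right_mem_ctri _ _ _)).1
    · rwa [(back (hD (FB1_left c w))).2, sub_neg_eq_add, sub_add_cancel] at this
    · rintro _ ⟨γ, α, β, h1, h2, h3, h4, rfl⟩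
      rcases lt_or_ge β 1 with h5 | h5
      · have := (hc _ ⟨α, β, h2, h3, by linarith, h5, rfl⟩).1
        convert this using 1
        obtain rfl : γ = 1 - α - β := by linarith
        module
      · obtain rfl : β = 1 := by linarith
        obtain rfl : γ = 0 := by linarith
        simpa using hn
  · have := (hc _ ⟨1 - t, t, by linarith, h0, by linarith, h1, rfl⟩).1
    convert this using 1
    module

/-- for `α > 0` the point `α c + β w` is `(α + β) • (c + t (w - c))`, `t = β / (α + β) < 1` -/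
theorem vc_convex {x : X} {w c : P2} (hw : w ∈ Z.V x) {K : Set P2} (hK : Convex ℝ K)
    (h0 : (0 : P2) ∈ K) (hD : K ⊆ Z.D x) (h : ∀ t : ℝ, 0 ≤ t → t < 1 → c + t • (w - c) ∈ K) :
    w - c ∈ Z.V (Z.mv x c) := by
  refine vc hw fun α β h1 h2 h3 h4 => ?_
  rcases h1.eq_or_lt with rfl | h5
  · simpa using hw.2 β h2 h4
  · have h6 : 0 < α + β := by linarith
    have := Z.star x _ (hD (h (β / (α + β)) (by positivity) ((div_lt_one h6).2 (by linarith))))
      (α + β) h6.le h3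
    convert this using 1
    rw [smul_add, smul_smul, mul_div_cancel₀ _ h6.ne']
    module

/-- `K2` (see `vc`) is convex and contains no point of `V x` (if `α c + β w = w` with `β < 1` then `w` is
a multiple of `c` with factor in `[0,1]`, so `w ∈ D x`), then `vfree` -/
theorem vc_tri {x : X} {w c : P2} (hw : w ∈ Z.V x) (hc : c ∈ Z.D x)
    (h : ∀ u ∈ ctri 0 c w, u ∈ Z.V x → u = w) : w - c ∈ Z.V (Z.mv x c) := by
  refine vc hw fun α β h1 h2 h3 h4 => vfree (reg_of_mem hc) (FB1_convex c w) (FB1_zero c w) ?_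
    ⟨α, β, h1, h2, h3, h4, rfl⟩
  rintro _ ⟨α, β, h1, h2, h3, h4, rfl⟩ hu
  have e := h _ ⟨1 - α - β, α, β, by linarith, h1, h2, by ring, by simp⟩ hu
  have h5 : 0 < 1 - β := by linarith
  have := Z.star x c hc (α / (1 - β)) (by positivity) ((div_le_one h5).2 (by linarith))
  refine hw.1 ?_
  convert this using 1
  have e2 : α • c = (1 - β) • w := by rw [sub_smul, one_smul, eq_sub_iff_add_eq, e]
  rw [div_eq_inv_mul, ← smul_smul, e2, smul_smul, inv_mul_cancel₀ h5.ne', one_smul]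

theorem vc_ray {x : X} {w : P2} (hw : w ∈ Z.V x) {t : ℝ} (h0 : 0 ≤ t) (h1 : t < 1) :
    (1 - t) • w ∈ Z.V (Z.mv x (t • w)) := by
  rw [sub_smul, one_smul]
  refine vc hw fun α β k1 k2 k3 k4 => ?_
  rw [smul_smul, ← add_smul]
  refine hw.2 _ (by positivity) ?_
  rcases k1.eq_or_lt with rfl | k5
  · simpa using k4
  · nlinarith

/-- otherwise `exists_vis` gives `t (1 + s) • v ∈ V x` with `t (1 + s) > 1`, and `vc_ray` contradicts
`star` at `mv x v` -/
theorem concat {x : X} {v : P2} (h : v ∈ Z.D x) {s : ℝ} (hs : 0 ≤ s)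
    (h' : s • v ∈ Z.D (Z.mv x v)) : (1 + s) • v ∈ Z.D x := by
  by_contra hn
  obtain ⟨t, h0, h1, hv⟩ := exists_vis (reg_of_mem h) hn
  rw [smul_smul] at hv
  have h2 : 1 < t * (1 + s) := by
    by_contra hc
    exact hv.1 (Z.star x v h _ (by positivity) (not_lt.1 hc))
  set u := t * (1 + s) with hu
  have u0 : 0 < u := by linarith
  have h3 : u - 1 ≤ s := by nlinarith
  have s0 : 0 < s := by linarith
  have k := vc_ray hv (inv_nonneg.2 u0.le) (inv_lt_one_of_one_lt₀ h2)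
  rw [smul_smul, smul_smul, inv_mul_cancel₀ u0.ne', one_smul, sub_mul, one_mul,
    inv_mul_cancel₀ u0.ne'] at k
  have := Z.star _ _ h' ((u - 1) / s) (div_nonneg (by linarith) hs) ((div_le_one s0).2 h3)
  rw [smul_smul, div_mul_cancel₀ _ s0.ne'] at this
  exact k.1 this

/-- `conv` with `K` the line -/
theorem line_conv {x : X} {v : P2} (h : ∀ t : ℝ, t • v ∈ Z.D x) (s t : ℝ) :
    s • v ∈ Z.D (Z.mv x (t • v)) ∧ Z.mv (Z.mv x (t • v)) (s • v) = Z.mv x ((s + t) • v) := by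
  have := FB1_line (Z := Z) convex_univ (mem_univ 0) (fun r _ => h r) (mem_univ t)
    (mem_univ (s + t))
  rwa [add_sub_cancel_right] at this

/-- forward version of `line_conv` -/
theorem ray_conv {x : X} {v : P2} {s t : ℝ} (hs : 0 ≤ s) (ht : 0 ≤ t) (h : (s + t) • v ∈ Z.D x) :
    s • v ∈ Z.D (Z.mv x (t • v)) ∧ Z.mv (Z.mv x (t • v)) (s • v) = Z.mv x ((s + t) • v) := by
  have := FB1_line (Z := Z) (x := x) (v := v) (convex_Icc 0 (s + t)) ⟨le_rfl, by linarith⟩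
    (fun r hr => ?_) (s := t) (t := s + t) ⟨ht, by linarith⟩ ⟨by linarith, le_rfl⟩
  · rwa [add_sub_cancel_right] at this
  · rcases hr.2.eq_or_lt with e | e
    · rwa [e]
    · have h0 : 0 < s + t := hr.1.trans_lt e
      have := Z.star x _ h (r / (s + t)) (div_nonneg hr.1 h0.le) ((div_le_one h0).2 hr.2)
      rwa [smul_smul, div_mul_cancel₀ _ h0.ne'] at this

/-- the set of regular `x` with `V x = ∅` (then `D x = univ` by `vfree`) is closed under moves (`conv`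
with `K = univ`); if it were nonempty it would contain the point given by `exV` (`conn`). -/
theorem V_nonempty {x : X} (hx : Z.reg x) : (Z.V x).Nonempty := by
  by_contra hn
  have k : ∀ y, Z.reg y → ¬ (Z.V y).Nonempty → univ ⊆ Z.D y := fun y hy h =>
    vfree hy convex_univ (mem_univ _) fun w _ hw => h ⟨w, hw⟩
  obtain ⟨y, w, hw⟩ := Z.exV
  have := Z.conn {y | univ ⊆ Z.D y} ⟨x, k x hx hn, hx⟩ (fun y hy v _ u _ =>
    shift_subset convex_univ (mem_univ _) hy (mem_univ v) (mem_univ _)) y (reg_of_V hw)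
  exact hw.1 (this (mem_univ w))

/-- `A` is closed under moves: for `x ∈ A`, `v ∈ D x` the set of `t ∈ [0,1]` with `mv x (t • v) ∈ A` is
locally constant (`seg_conv`), use `isPreconnected_Icc` or
`IsClosed.Icc_subset_of_forall_exists_gt`; then `conn`. -/
theorem loc_const {A : Set X}
    (h : ∀ x, Z.reg x → ∃ δ : ℝ, 0 < δ ∧ ∀ a : P2, ‖a‖ < δ → a ∈ Z.D x → (x ∈ A ↔ Z.mv x a ∈ A))
    {x0 : X} (h0 : Z.reg x0) (hA : x0 ∈ A) {x : X} (hx : Z.reg x) : x ∈ A := by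
  refine Z.conn A ⟨x0, hA, h0⟩ (fun y hy v hv => ?_) x hx
  have key := (isPreconnected_Icc (a := (0 : ℝ)) (b := 1)).induction₂'
    (fun s t => Z.mv y (s • v) ∈ A ↔ Z.mv y (t • v) ∈ A) (fun s hs => ?_)
    (fun _ _ _ _ _ _ a b => a.trans b) ⟨le_rfl, zero_le_one⟩ ⟨zero_le_one, le_rfl⟩
  · rw [zero_smul, Z.mv_zero, one_smul] at key
    exact key.1 hy
  · obtain ⟨δ, hδ, hd⟩ := h _ (reg_mv (Z.star y v hv s hs.1 hs.2))
    have c : Continuous fun t : ℝ => ‖(t - s) • v‖ := by fun_prop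
    have e : ∀ᶠ t in 𝓝 s, ‖(t - s) • v‖ < δ :=
      c.continuousAt.eventually_lt continuousAt_const (by simpa using hδ)
    filter_upwards [mem_nhdsWithin_of_mem_nhds e, self_mem_nhdsWithin] with t h1 h2
    obtain ⟨k1, k2⟩ := seg_conv hv hs.1 hs.2 h2.1 h2.2
    have := hd _ h1 k1
    rw [k2] at this
    exact ⟨this, this.symm⟩

theorem SC.neg {δ : X × P2} (h : Z.SC δ) : Z.SC (δ.1, -δ.2) := ⟨h.2, by simpa using h.1⟩

theorem seg_neg (δ : X × P2) : Z.seg (δ.1, -δ.2) = Z.seg δ := by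
  ext z
  constructor <;> rintro ⟨t, ht, rfl⟩ <;> exact ⟨-t, by rwa [abs_neg], by simp⟩

theorem SC.ne_zero {δ : X × P2} (h : Z.SC δ) : δ.2 ≠ 0 := V_ne_zero h.1

theorem SC.mem_D {δ : X × P2} (h : Z.SC δ) {t : ℝ} (ht : |t| < 1) : t • δ.2 ∈ Z.D δ.1 := by
  rw [abs_lt] at ht
  rcases le_total 0 t with h0 | h0
  · exact h.1.2 t h0 ht.2
  · simpa using h.2.2 (-t) (by linarith) (by linarith)

theorem mid_mem_seg (δ : X × P2) : δ.1 ∈ Z.seg δ := ⟨0, by simp, by rw [zero_smul, Z.mv_zero]⟩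

theorem SC.reg_of_mem_seg {δ : X × P2} (h : Z.SC δ) {z : X} (hz : z ∈ Z.seg δ) : Z.reg z := by
  obtain ⟨t, ht, rfl⟩ := hz
  exact reg_mv (h.mem_D ht)

theorem FB1_end {δ : X × P2} (h : Z.SC δ) {t : ℝ} (ht : |t| < 1) :
    (1 - t) • δ.2 ∈ Z.V (Z.mv δ.1 (t • δ.2)) := by
  rw [sub_smul, one_smul]
  refine vc h.1 fun α β k1 k2 k3 k4 => ?_
  rw [smul_smul, ← add_smul]
  refine h.mem_D ?_
  rw [abs_lt] at ht ⊢
  rcases k1.eq_or_lt with rfl | k5
  · constructor <;> linarith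
  · constructor <;> nlinarith

/-- the two end points seen from a point of the segment (`vc_convex` with the open segment) -/
theorem SC.ends {δ : X × P2} (h : Z.SC δ) {t : ℝ} (ht : |t| < 1) :
    (1 - t) • δ.2 ∈ Z.V (Z.mv δ.1 (t • δ.2)) ∧ (-1 - t) • δ.2 ∈ Z.V (Z.mv δ.1 (t • δ.2)) := by
  refine ⟨FB1_end h ht, ?_⟩
  have := FB1_end h.neg (t := -t) (by rwa [abs_neg])
  simp only [smul_neg, neg_smul, neg_neg] at this
  convert this using 1
  module

theorem SC.move {δ : X × P2} (h : Z.SC δ) {s t : ℝ} (hs : |s| < 1) (ht : |t| < 1) :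
    (t - s) • δ.2 ∈ Z.D (Z.mv δ.1 (s • δ.2)) ∧
      Z.mv (Z.mv δ.1 (s • δ.2)) ((t - s) • δ.2) = Z.mv δ.1 (t • δ.2) := FB1_line (convex_Ioo (-1) 1) ⟨by norm_num, one_pos⟩ (fun _ hr => h.mem_D (abs_lt.2 hr))
    (abs_lt.1 hs) (abs_lt.1 ht)

theorem measurable_mv (Z : Flat X) (x : X) : Measurable (Z.mv x) := Z.meas_mv.comp measurable_prodMk_left

theorem measurable_mv_left (Z : Flat X) (v : P2) : Measurable fun x => Z.mv x v := Z.meas_mv.comp measurable_prodMk_right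

theorem measurableSet_mem_D (Z : Flat X) (v : P2) : MeasurableSet {x | v ∈ Z.D x} := measurable_prodMk_right Z.meas_D

end Flat

end Pool.Agent.MP_b29402_an

end

-- part MP_b29402_an.FA1
section

/-! Area: maps which are locally translations and injective preserve area. -/

open MeasureTheory Set Filter Topology ProbabilityTheory
open scoped ComplexConjugate ENNReal

namespace Pool.Agent.MP_b29402_an

namespace Flat

variable {X : Type*} [MeasurableSpace X] {Z : Flat X}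

/-- `ψ` is locally a translate of an exponential map -/
def LocMove (Z : Flat X) (U : Set P2) (ψ : P2 → X) : Prop :=
  ∀ a ∈ U, ∃ δ : ℝ, 0 < δ ∧ ∃ y, ∀ a' ∈ U, ‖a' - a‖ < δ → a' - a ∈ Z.D y ∧ ψ a' = Z.mv y (a' - a)

theorem LocMove.mono {U U' : Set P2} {ψ : P2 → X} (h : Z.LocMove U ψ) (hU : U' ⊆ U) :
    Z.LocMove U' ψ := fun a ha => by
  obtain ⟨δ, hδ, y, hy⟩ := h a (hU ha)
  exact ⟨δ, hδ, y, fun a' ha' => hy a' (hU ha')⟩

/-- `local_mv` -/
theorem locMove_mv {x : X} {U : Set P2} (hU : U ⊆ Z.D x) : Z.LocMove U (Z.mv x) := fun a ha => by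
  obtain ⟨δ, hδ, h, -⟩ := local_mv (hU ha)
  refine ⟨δ, hδ, Z.mv x a, fun a' _ h' => ⟨(h _ h').2.1, ?_⟩⟩
  rw [(h _ h').2.2, add_sub_cancel]

theorem FA1_local {U : Set P2} {ψ : P2 → X} (h : Z.LocMove U ψ) {a : P2} (ha : a ∈ U) :
    ∃ δ : ℝ, 0 < δ ∧ ∀ A ⊆ U ∩ Metric.ball a δ, MeasurableSet A →
      MeasurableSet (ψ '' A) ∧ Z.μ (ψ '' A) = volume A := by
  obtain ⟨δ, hδ, y, hy⟩ := h a ha
  obtain ⟨c, K, hK, hcov⟩ := Z.charts
  have h0 : (0 : P2) ∈ Z.D y := by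
    have := (hy a ha (by simpa using hδ)).1
    rwa [sub_self] at this
  obtain ⟨i, b, hb, rfl⟩ := hcov y h0
  obtain ⟨ho, hc, hz, hD, -, hm⟩ := hK i
  obtain ⟨r, hr, hball⟩ := Metric.isOpen_iff.1 ho b hb
  refine ⟨min δ r, lt_min hδ hr, fun A hA hAm => ?_⟩
  have h1 : ∀ a' ∈ A, b - a + a' ∈ K i ∧ ψ a' = Z.mv (c i) (b - a + a') := by
    intro a' ha'
    have h2 : ‖a' - a‖ < min δ r := by simpa [dist_eq_norm] using (hA ha').2
    have e : b - a + a' - b = a' - a := by abel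
    have h3 : b - a + a' ∈ K i := hball (by
      rw [mem_ball_iff_norm, e]
      exact h2.trans_le (min_le_right _ _))
    refine ⟨h3, ?_⟩
    rw [(hy a' (hA ha').1 (h2.trans_le (min_le_left _ _))).2, ← (Z.conv _ _ hc hz hD b hb _ h3).2, e]
  have h2 : ψ '' A = Z.mv (c i) '' ((fun z => b - a + z) '' A) := by
    rw [image_image]
    exact image_congr fun a' ha' => (h1 a' ha').2
  have h3 := hm ((fun z => b - a + z) '' A) (by
    rintro _ ⟨a', ha', rfl⟩
    exact (h1 a' ha').1) (by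
    rw [image_add_left]
    exact measurable_const_add _ hAm)
  rw [h2]
  refine ⟨h3.1, ?_⟩
  rw [h3.2, image_add_left, measure_preimage_add]

/-- For `a ∈ U` with `y` as in `LocMove`: `y = mv (c i) b` with `b ∈ K i`, and for `a'` close to `a`,
`b + (a' - a) ∈ K i`, `ψ a' = mv (c i) (b + (a' - a))` (`conv`). Cover `U` by countably many such balls
(`TopologicalSpace.countable_cover_nhdsWithin` or Lindelof), disjointify (`disjointed`), each piece
`A n` has `ψ '' A n = mv (c i) '' (translate of A n)`, of measure `volume (A n)`; the images are pairwise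
disjoint by injectivity; `measure_iUnion`. -/
theorem LocMove.measure_image {U : Set P2} {ψ : P2 → X} (h : Z.LocMove U ψ) (hi : InjOn ψ U)
    (hU : MeasurableSet U) : MeasurableSet (ψ '' U) ∧ Z.μ (ψ '' U) = volume U := by
  rcases U.eq_empty_or_nonempty with rfl | hne
  · simp
  choose! δ hδ hA using fun a (ha : a ∈ U) => FA1_local h ha
  obtain ⟨t, htU, htc, hcov⟩ := TopologicalSpace.countable_cover_nhdsWithin
    (f := fun a => Metric.ball a (δ a)) (s := U)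
    fun a ha => mem_nhdsWithin_of_mem_nhds (Metric.ball_mem_nhds a (hδ a ha))
  have htne : t.Nonempty := by
    obtain ⟨a, ha⟩ := hne
    obtain ⟨b, hb, -⟩ := mem_iUnion₂.1 (hcov ha)
    exact ⟨b, hb⟩
  obtain ⟨s, rfl⟩ := htc.exists_eq_range htne
  set B : ℕ → Set P2 := fun n => U ∩ Metric.ball (s n) (δ (s n)) with hB
  have hBm : ∀ n, MeasurableSet (disjointed B n) :=
    MeasurableSet.disjointed fun n => hU.inter measurableSet_ball
  have hBU : ⋃ n, disjointed B n = U := by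
    rw [iUnion_disjointed]
    refine Subset.antisymm (iUnion_subset fun n => inter_subset_left) fun a ha => ?_
    obtain ⟨_, ⟨n, rfl⟩, hn⟩ := mem_iUnion₂.1 (hcov ha)
    exact mem_iUnion.2 ⟨n, ha, hn⟩
  have h1 : ∀ n, MeasurableSet (ψ '' disjointed B n) ∧
      Z.μ (ψ '' disjointed B n) = volume (disjointed B n) := fun n =>
    hA (s n) (htU (mem_range_self n)) _ (disjointed_subset B n) (hBm n)
  have h2 : Pairwise (Function.onFun Disjoint fun n => ψ '' disjointed B n) := fun m n hmn =>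
    disjoint_image_image fun a ha b hb hab => by
      have e := hi (disjointed_subset B m ha).1 (disjointed_subset B n hb).1 hab
      exact disjoint_left.1 (disjoint_disjointed B hmn) ha (e ▸ hb)
  rw [← hBU, image_iUnion, measure_iUnion h2 fun n => (h1 n).1,
    measure_iUnion (disjoint_disjointed B) hBm]
  exact ⟨MeasurableSet.iUnion fun n => (h1 n).1, tsum_congr fun n => (h1 n).2⟩

theorem measure_image_mv {x : X} {U : Set P2} (hD : U ⊆ Z.D x) (hi : InjOn (Z.mv x) U)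
    (hU : MeasurableSet U) : MeasurableSet (Z.mv x '' U) ∧ Z.μ (Z.mv x '' U) = volume U :=
  (locMove_mv hD).measure_image hi hU

/-- for measurable `E`: `volume (U ∩ mv x ⁻¹' E) = μ (mv x '' (U ∩ mv x ⁻¹' E)) ≤ μ E` -/
theorem map_le {x : X} {U : Set P2} (hD : U ⊆ Z.D x) (hi : InjOn (Z.mv x) U)
    (hU : MeasurableSet U) : (volume.restrict U).map (Z.mv x) ≤ Z.μ := by
  refine Measure.le_iff.2 fun E hE => ?_
  have hm := Z.measurable_mv x hE
  rw [Measure.map_apply (Z.measurable_mv x) hE, Measure.restrict_apply hm,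
    ← (measure_image_mv (inter_subset_right.trans hD) (hi.mono inter_subset_right)
      (hm.inter hU)).2]
  refine measure_mono ?_
  rintro _ ⟨a, ha, rfl⟩
  exact ha.1

theorem ae_chart {x : X} {U : Set P2} (hD : U ⊆ Z.D x) (hi : InjOn (Z.mv x) U)
    (hU : MeasurableSet U) {p : X → Prop} (h : ∀ᵐ z ∂Z.μ, p z) :
    ∀ᵐ a ∂(volume.restrict U), p (Z.mv x a) :=
  ae_of_ae_map (Z.measurable_mv x).aemeasurable (ae_mono (map_le hD hi hU) h)

/-- `Integrable.mono_measure`, `integral_map`, `integral_mono_measure` -/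
theorem setIntegral_le {x : X} {U : Set P2} (hD : U ⊆ Z.D x) (hi : InjOn (Z.mv x) U)
    (hU : MeasurableSet U) {g : X → ℝ} (hg : Measurable g) (h0 : ∀ z, 0 ≤ g z)
    (hint : Integrable g Z.μ) :
    IntegrableOn (fun a => g (Z.mv x a)) U ∧ ∫ a in U, g (Z.mv x a) ≤ ∫ z, g z ∂Z.μ := by
  have h1 := hint.mono_measure (map_le hD hi hU)
  refine ⟨(integrable_map_measure hg.aestronglyMeasurable (Z.measurable_mv x).aemeasurable).1 h1,
    ?_⟩
  rw [← integral_map (Z.measurable_mv x).aemeasurable hg.aestronglyMeasurable]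
  exact integral_mono_measure (map_le hD hi hU) (Eventually.of_forall h0) hint

theorem volume_le_one {x : X} {U : Set P2} (hD : U ⊆ Z.D x) (hi : InjOn (Z.mv x) U)
    (hU : MeasurableSet U) : volume U ≤ 1 := by
  rw [← (measure_image_mv hD hi hU).2]
  exact prob_le_one

/-- the pieces of a countable measurable partition of the regular points subordinate to the charts -/
theorem exists_partition (Z : Flat X) :
    ∃ (c : ℕ → X) (K A : ℕ → Set P2), (∀ i, IsOpen (K i) ∧ Convex ℝ (K i) ∧ (0 : P2) ∈ K i ∧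
      K i ⊆ Z.D (c i) ∧ InjOn (Z.mv (c i)) (K i) ∧ MeasurableSet (A i) ∧ A i ⊆ K i) ∧
      Pairwise (fun i j => Disjoint (Z.mv (c i) '' A i) (Z.mv (c j) '' A j)) ∧
      ∀ x, Z.reg x → ∃ i, x ∈ Z.mv (c i) '' A i := by
  obtain ⟨c, K, hK, hcov⟩ := Z.charts
  set S : ℕ → Set X := fun i => Z.mv (c i) '' K i with hS
  have hSm : ∀ i, MeasurableSet (disjointed S i) := MeasurableSet.disjointed fun i =>
    ((hK i).2.2.2.2.2 _ Subset.rfl (hK i).1.measurableSet).1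
  have hsub : ∀ i, Z.mv (c i) '' (K i ∩ Z.mv (c i) ⁻¹' disjointed S i) ⊆ disjointed S i := by
    rintro i _ ⟨a, ha, rfl⟩
    exact ha.2
  refine ⟨c, K, fun i => K i ∩ Z.mv (c i) ⁻¹' disjointed S i, fun i => ?_,
    fun i j hij => (disjoint_disjointed S hij).mono (hsub i) (hsub j), fun x hx => ?_⟩
  · obtain ⟨h1, h2, h3, h4, h5, -⟩ := hK i
    exact ⟨h1, h2, h3, h4, h5, h1.measurableSet.inter (Z.measurable_mv _ (hSm i)),
      inter_subset_left⟩
  · have h1 : x ∈ ⋃ i, disjointed S i := by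
      rw [iUnion_disjointed]
      exact mem_iUnion.2 (hcov x hx)
    obtain ⟨i, hi⟩ := mem_iUnion.1 h1
    obtain ⟨a, ha, rfl⟩ := disjointed_subset S i hi
    exact ⟨i, a, ⟨ha, hi⟩, rfl⟩

/-- a set of regular points whose trace on a neighbourhood of each of its points is everything: it is the
union of the images of the open sets `K i ∩ mv (c i) ⁻¹' E` -/
theorem measurableSet_of_open {E : Set X} (hr : ∀ x ∈ E, Z.reg x)
    (h : ∀ x ∈ E, ∃ δ : ℝ, 0 < δ ∧ ∀ a : P2, ‖a‖ < δ → a ∈ Z.D x → Z.mv x a ∈ E) :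
    MeasurableSet E := by
  obtain ⟨c, K, hK, hcov⟩ := Z.charts
  have h1 : E = ⋃ i, Z.mv (c i) '' (K i ∩ Z.mv (c i) ⁻¹' E) := by
    refine Subset.antisymm (fun x hx => ?_) (iUnion_subset ?_)
    · obtain ⟨i, a, ha, rfl⟩ := hcov x (hr x hx)
      exact mem_iUnion.2 ⟨i, a, ⟨ha, hx⟩, rfl⟩
    · rintro i _ ⟨a, ha, rfl⟩
      exact ha.2
  rw [h1]
  refine MeasurableSet.iUnion fun i => ?_
  obtain ⟨ho, hc, hz, hD, -, hm⟩ := hK i
  refine (hm _ inter_subset_left (IsOpen.measurableSet (Metric.isOpen_iff.2 fun b hb => ?_))).1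
  obtain ⟨r, hr0, hball⟩ := Metric.isOpen_iff.1 ho b hb.1
  obtain ⟨δ, hδ, hE⟩ := h _ hb.2
  refine ⟨min r δ, lt_min hr0 hδ, fun b' hb' => ?_⟩
  have h2 : b' ∈ K i := hball (Metric.ball_subset_ball (min_le_left _ _) hb')
  obtain ⟨h3, h4⟩ := Z.conv _ _ hc hz hD b hb.1 b' h2
  refine ⟨h2, ?_⟩
  rw [mem_preimage, ← h4]
  exact hE _ ((mem_ball_iff_norm.1 hb').trans_le (min_le_right _ _)) h3

end Flat

end Pool.Agent.MP_b29402_an

end

-- part MP_b29402_an.FB2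
section

/-! The visible singular points form a locally finite set. -/

open MeasureTheory Set Filter Topology ProbabilityTheory
open scoped ComplexConjugate ENNReal

namespace Pool.Agent.MP_b29402_an

namespace Flat

variable {X : Type*} [MeasurableSpace X] {Z : Flat X}

/-- Two visible points which are close, with a clean thin sector below them, coincide. Let `ρ` be as in
`hρ`. `c = (1 - η) w`, `c' = (1 - η) w'`, `y = mv x c`; `ctri 0 c c' ⊆ D x` (`vfree`), so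
`c' - c ∈ D y`, `mv y (c' - c) = mv x c'`. `η w ∈ V y`, `η w' ∈ V (mv x c')` (`vc_ray`). `vc_tri` at `y` (the
triangle lies in the ball of radius `ρ`) gives `η w - (c' - c) ∈ V (mv x c')`, so it equals `η w'`. -/
theorem eq_of_clean_sector {ρ : ℝ} (hρ : ∀ x, (Z.V x ∩ Metric.ball 0 ρ).Subsingleton) {x : X}
    {w w' : P2} (hw : w ∈ Z.V x) (hw' : w' ∈ Z.V x) {η : ℝ} (h0 : 0 < η) (h1 : η < 1)
    (hs : η * ‖w‖ < ρ / 4) (hs' : η * ‖w'‖ < ρ / 4) (hd : ‖w - w'‖ < ρ / 4)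
    (hc : ∀ u ∈ ctri 0 ((1 - η) • w) ((1 - η) • w'), u ∉ Z.V x) : w = w' := by
  have hρ0 : 0 < ρ := by
    have := mul_nonneg h0.le (norm_nonneg w)
    linarith
  have hK := vfree (reg_of_V hw) (convex_ctri _ _ _) (left_mem_ctri _ _ _) hc
  obtain ⟨h2, h3⟩ := Z.conv x _ (convex_ctri _ _ _) (left_mem_ctri _ _ _) hK _
    (mid_mem_ctri _ _ _) _ (right_mem_ctri _ _ _)
  have h4 := vc_ray hw (t := 1 - η) (by linarith) (by linarith)
  have h5 := vc_ray hw' (t := 1 - η) (by linarith) (by linarith)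
  rw [sub_sub_cancel] at h4 h5
  have n1 : ‖η • w‖ < ρ / 4 := by rwa [norm_smul, Real.norm_of_nonneg h0.le]
  have n2 : ‖η • w'‖ < ρ / 4 := by rwa [norm_smul, Real.norm_of_nonneg h0.le]
  have n3 : ‖(1 - η) • w' - (1 - η) • w‖ ≤ ρ / 4 := by
    rw [← smul_sub, norm_smul, Real.norm_of_nonneg (by linarith), norm_sub_rev]
    nlinarith [norm_nonneg (w - w')]
  have h6 := vc_tri h4 h2 fun u hu hu' => by
    have n4 : ‖u‖ ≤ ρ / 4 := norm_le_of_mem_ctri hu (by rw [norm_zero]; linarith) n3 n1.le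
    exact hρ _ ⟨hu', mem_ball_zero_iff.2 (by linarith)⟩ ⟨h4, mem_ball_zero_iff.2 (by linarith)⟩
  rw [h3] at h6
  have h7 := hρ _ ⟨h6, mem_ball_zero_iff.2 ((norm_sub_le _ _).trans_lt (by linarith))⟩
    ⟨h5, mem_ball_zero_iff.2 (by linarith)⟩
  have h8 : w - w' = η • w - ((1 - η) • w' - (1 - η) • w) - η • w' := by module
  rw [h7, sub_self] at h8
  exact sub_eq_zero.1 h8

theorem FB2_side {ρ : ℝ} (hρ : ∀ x, (Z.V x ∩ Metric.ball 0 ρ).Subsingleton) {x : X}
    {w w' q : P2} (hw : w ∈ Z.V x) (hw' : w' ∈ Z.V x) {η m r : ℝ} (h0 : 0 < η) (h1 : η < 1)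
    (hs : η * ‖w‖ < ρ / 4) (hs' : η * ‖w'‖ < ρ / 4) (hd : ‖w - w'‖ < ρ / 4)
    (hr : (1 - η) * ‖w‖ ≤ r) (hr' : (1 - η) * ‖w'‖ ≤ r)
    (hm : ∀ u ∈ Z.V x, ‖u‖ ≤ r → 0 < det2 q u → m ≤ det2 q u)
    (a1 : 0 < det2 q w) (a2 : det2 q w < m) (b1 : 0 < det2 q w') (b2 : det2 q w' < m) :
    w = w' := by
  refine eq_of_clean_sector hρ hw hw' h0 h1 hs hs' hd fun u hu hu' => ?_
  have hη : 0 < 1 - η := by linarith
  have n1 : ‖u‖ ≤ r := norm_le_of_mem_ctri hu
    (by rw [norm_zero]; exact (mul_nonneg hη.le (norm_nonneg w)).trans hr)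
    (by rwa [norm_smul, Real.norm_of_nonneg hη.le]) (by rwa [norm_smul, Real.norm_of_nonneg hη.le])
  obtain ⟨α, β, γ, hα, hβ, hγ, hsum, rfl⟩ := hu
  have e : det2 q (α • (0 : P2) + β • (1 - η) • w + γ • (1 - η) • w') =
      (1 - η) * (β * det2 q w + γ * det2 q w') := by
    simp only [det2, Prod.fst_add, Prod.snd_add, Prod.smul_fst, Prod.smul_snd, smul_eq_mul,
      Prod.fst_zero, Prod.snd_zero]
    ring
  have p1 : 0 < β * det2 q w + γ * det2 q w' := by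
    rcases hβ.lt_or_eq with hβ | hβ
    · exact add_pos_of_pos_of_nonneg (mul_pos hβ a1) (mul_nonneg hγ b1.le)
    · rcases hγ.lt_or_eq with hγ | hγ
      · exact add_pos_of_nonneg_of_pos (mul_nonneg hβ.le a1.le) (mul_pos hγ b1)
      · exact absurd (by rw [← hβ, ← hγ]; simp) (V_ne_zero hu')
  have p2 : β * det2 q w + γ * det2 q w' ≤ m := by
    have := mul_le_mul_of_nonneg_left a2.le hβ
    have := mul_le_mul_of_nonneg_left b2.le hγ
    have := mul_nonneg hα (a1.trans a2).le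
    have : α * m + β * m + γ * m = m := by rw [← add_mul, ← add_mul, hsum, one_mul]
    linarith
  have p3 := hm _ hu' n1 (by rw [e]; exact mul_pos hη p1)
  rw [e] at p3
  nlinarith

theorem FB2_det (p w : P2) : |det2 p w| ≤ 2 * ‖p‖ * ‖w - p‖ := by
  have e : det2 p w = p.1 * (w - p).2 - p.2 * (w - p).1 := by
    simp only [det2, Prod.fst_sub, Prod.snd_sub]
    ring
  rw [e]
  refine (abs_sub _ _).trans ?_
  rw [abs_mul, abs_mul]
  have h1 : |p.1| * |(w - p).2| ≤ ‖p‖ * ‖w - p‖ :=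
    mul_le_mul (norm_fst_le p) (norm_snd_le (w - p)) (abs_nonneg _) (norm_nonneg _)
  have h2 : |p.2| * |(w - p).1| ≤ ‖p‖ * ‖w - p‖ :=
    mul_le_mul (norm_snd_le p) (norm_fst_le (w - p)) (abs_nonneg _) (norm_nonneg _)
  linarith

theorem FB2_pos {p : P2} {t : ℝ} (h : ‖t • p - p‖ < ‖p‖) : 0 < t := by
  by_contra ht
  have e : t • p - p = (t - 1) • p := by module
  rw [e, norm_smul, Real.norm_eq_abs, abs_of_nonpos (by linarith)] at h
  nlinarith [norm_nonneg p]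

theorem FB2_near {x : X} {p : P2} (hp : p ≠ 0)
    (h : ∀ r < ‖p‖, (Z.V x ∩ Metric.closedBall 0 r).Finite) :
    ∃ δ : ℝ, 0 < δ ∧ (Metric.ball p δ ∩ Z.V x).Finite := by
  obtain ⟨ρ, hρ0, hρ⟩ := Z.thick0
  have hp0 : 0 < ‖p‖ := norm_pos_iff.2 hp
  obtain ⟨η, h0, h1, h2⟩ : ∃ η : ℝ, 0 < η ∧ η < 1 ∧ η * (2 * ‖p‖) ≤ ρ / 4 := by
    refine ⟨min (1 / 2) (ρ / 4 / (2 * ‖p‖)), by positivity,
      (min_le_left _ _).trans_lt (by norm_num), ?_⟩
    rw [← le_div_iff₀ (by positivity)]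
    exact min_le_right _ _
  have hF := h ((1 - η / 2) * ‖p‖) (by nlinarith)
  obtain ⟨m, hm0, hm⟩ : ∃ m : ℝ, 0 < m ∧ ∀ u ∈ Z.V x, ‖u‖ ≤ (1 - η / 2) * ‖p‖ →
      det2 p u ≠ 0 → m ≤ |det2 p u| := by
    have h3 : ∀ᶠ m in 𝓝[>] (0 : ℝ), ∀ u ∈ Z.V x ∩ Metric.closedBall 0 ((1 - η / 2) * ‖p‖),
        det2 p u ≠ 0 → m ≤ |det2 p u| := by
      rw [eventually_all_finite hF]
      intro u _
      by_cases h4 : det2 p u = 0
      · exact Eventually.of_forall fun _ h5 => absurd h4 h5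
      · exact ((eventually_le_nhds (abs_pos.2 h4)).filter_mono nhdsWithin_le_nhds).mono
          fun _ h5 _ => h5
    obtain ⟨m, h4, h5⟩ := (h3.and self_mem_nhdsWithin).exists
    exact ⟨m, h5, fun u hu hu' => h4 u ⟨hu, mem_closedBall_zero_iff.2 hu'⟩⟩
  obtain ⟨δ, d0, d1, d2, d3⟩ : ∃ δ : ℝ, 0 < δ ∧ δ ≤ η / 2 * ‖p‖ ∧ δ ≤ ρ / 8 ∧
      2 * ‖p‖ * δ ≤ m := by
    refine ⟨min (η / 2 * ‖p‖) (min (ρ / 8) (m / (2 * ‖p‖))), by positivity, min_le_left _ _,
      (min_le_right _ _).trans (min_le_left _ _), ?_⟩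
    rw [← le_div_iff₀' (by positivity)]
    exact (min_le_right _ _).trans (min_le_right _ _)
  have d4 : δ < ‖p‖ := by nlinarith
  have key : ∀ w ∈ Metric.ball p δ, η * ‖w‖ < ρ / 4 ∧ (1 - η) * ‖w‖ ≤ (1 - η / 2) * ‖p‖ ∧
      |det2 p w| < m := fun w hw => by
    rw [mem_ball_iff_norm] at hw
    have k1 : ‖w‖ < ‖p‖ + δ := by linarith [norm_sub_norm_le w p]
    have k2 := mul_lt_mul_of_pos_left (k1.trans (by linarith : ‖p‖ + δ < 2 * ‖p‖)) h0
    have k3 := mul_le_mul_of_nonneg_left k1.le (by linarith : 0 ≤ 1 - η)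
    have k4 := mul_lt_mul_of_pos_left hw (by positivity : 0 < 2 * ‖p‖)
    have k5 := mul_pos h0 d0
    exact ⟨by linarith, by linarith, by linarith [FB2_det p w]⟩
  have dist : ∀ w ∈ Metric.ball p δ, ∀ w' ∈ Metric.ball p δ, ‖w - w'‖ < ρ / 4 :=
    fun w hw w' hw' => by
      rw [mem_ball_iff_norm] at hw hw'
      linarith [norm_sub_le_norm_sub_add_norm_sub w p w', norm_sub_rev p w']
  have neg : ∀ u, det2 (-p) u = -det2 p u := fun u => by
    simp only [det2, Prod.fst_neg, Prod.snd_neg]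
    ring
  have s1 : {w ∈ Metric.ball p δ ∩ Z.V x | 0 < det2 p w}.Subsingleton := by
    rintro w ⟨⟨a1, a2⟩, a3⟩ w' ⟨⟨b1, b2⟩, b3⟩
    exact FB2_side hρ a2 b2 h0 h1 (key w a1).1 (key w' b1).1 (dist w a1 w' b1) (key w a1).2.1
      (key w' b1).2.1 (q := p) (m := m)
      (fun u hu hu' h3 => (hm u hu hu' h3.ne').trans (abs_of_pos h3).le)
      a3 ((le_abs_self _).trans_lt (key w a1).2.2) b3 ((le_abs_self _).trans_lt (key w' b1).2.2)
  have s2 : {w ∈ Metric.ball p δ ∩ Z.V x | det2 p w < 0}.Subsingleton := by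
    rintro w ⟨⟨a1, a2⟩, a3⟩ w' ⟨⟨b1, b2⟩, b3⟩
    refine FB2_side hρ a2 b2 h0 h1 (key w a1).1 (key w' b1).1 (dist w a1 w' b1) (key w a1).2.1
      (key w' b1).2.1 (q := -p) (m := m) (fun u hu hu' h3 => ?_) ?_ ?_ ?_ ?_
    · rw [neg] at h3 ⊢
      have h4 : det2 p u < 0 := neg_pos.1 h3
      exact (hm u hu hu' h4.ne).trans (abs_of_neg h4).le
    · rwa [neg, neg_pos]
    · rw [neg]
      exact (neg_le_abs _).trans_lt (key w a1).2.2
    · rwa [neg, neg_pos]
    · rw [neg]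
      exact (neg_le_abs _).trans_lt (key w' b1).2.2
  have s3 : {w ∈ Metric.ball p δ ∩ Z.V x | det2 p w = 0}.Subsingleton := by
    rintro w ⟨⟨a1, a2⟩, a3⟩ w' ⟨⟨b1, b2⟩, b3⟩
    obtain ⟨t, rfl⟩ := det2_eq_zero hp a3
    obtain ⟨t', rfl⟩ := det2_eq_zero hp b3
    have t0 := FB2_pos ((mem_ball_iff_norm.1 a1).trans d4)
    have t1 := FB2_pos ((mem_ball_iff_norm.1 b1).trans d4)
    have h3 := vis_unique a2 (div_pos t1 t0) (by rwa [smul_smul, div_mul_cancel₀ _ t0.ne'])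
    rw [(div_eq_one_iff_eq t0.ne').1 h3]
  refine ⟨δ, d0, ((s1.finite.union s2.finite).union s3.finite).subset fun w hw => ?_⟩
  rcases lt_trichotomy 0 (det2 p w) with h3 | h3 | h3
  · exact Or.inl (Or.inl ⟨hw, h3⟩)
  · exact Or.inr ⟨hw, h3.symm⟩
  · exact Or.inl (Or.inr ⟨hw, h3⟩)

/-- Suppose not. `R* = sInf {R | (V x ∩ closedBall 0 R).Infinite} > 0` (`thick0`). There is an injective
sequence `w n ∈ V x` with `‖w n‖ → R*` converging to some `w*` (compactness; `‖w*‖ = R*` because smaller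
balls contain finitely many points). At most one `w n` near `w*` has `det2 w* (w n) = 0` (`vis_unique`),
so infinitely many have the same sign, say `> 0`. `F = V x ∩ closedBall 0 ((1 - η/2) R*)` is finite; for
`n, m` large the triangle `ctri 0 ((1-η) w n) ((1-η) w m)` lies in this ball and its nonzero points have
`0 < det2 w* · <` the minimum of the positive values of `det2 w* ·` on `F`; `eq_of_clean_sector`. -/
theorem locfin (Z : Flat X) (x : X) (R : ℝ) : (Z.V x ∩ Metric.closedBall 0 R).Finite := by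
  have acc : ∀ r : ℝ, (Z.V x ∩ Metric.closedBall 0 r).Infinite →
      ∃ p ∈ derivedSet (Z.V x), p ∈ Metric.closedBall (0 : P2) r := fun r hr => by
    obtain ⟨p, h1, h2⟩ := hr.exists_accPt_of_subset_isCompact (isCompact_closedBall 0 r)
      inter_subset_right
    exact ⟨p, h2.mono (principal_mono.2 inter_subset_left), h1⟩
  by_contra hR
  obtain ⟨p, ⟨h1, h2⟩, h3⟩ := ((isCompact_closedBall (0 : P2) R).inter_left
    (isClosed_derivedSet (Z.V x))).exists_isMinOn (acc R hR) continuous_norm.continuousOn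
  have inf : ∀ δ : ℝ, 0 < δ → (Metric.ball p δ ∩ Z.V x).Infinite := fun δ hδ =>
    Set.Infinite.of_accPt (AccPt.nhds_inter h1 (Metric.ball_mem_nhds p hδ))
  have hp : p ≠ 0 := by
    rintro rfl
    obtain ⟨ρ, hρ0, hρ⟩ := Z.thick0
    refine inf ρ hρ0 ?_
    rw [inter_comm]
    exact (hρ x).finite
  obtain ⟨δ, hδ, h4⟩ := FB2_near (Z := Z) (x := x) hp fun r hr => by
    by_contra h5
    obtain ⟨q, h6, h7⟩ := acc r h5
    have h8 := mem_closedBall_zero_iff.1 h7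
    have h9 : ‖p‖ ≤ ‖q‖ := h3 ⟨h6, mem_closedBall_zero_iff.2
      (h8.trans (hr.le.trans (mem_closedBall_zero_iff.1 h2)))⟩
    linarith
  exact inf δ hδ h4

theorem countable_V (Z : Flat X) (x : X) : (Z.V x).Countable := by
  refine (countable_iUnion fun n : ℕ => (Z.locfin x n).countable).mono fun w hw => ?_
  obtain ⟨n, hn⟩ := exists_nat_ge ‖w‖
  exact mem_iUnion.2 ⟨n, hw, mem_closedBall_zero_iff.2 hn⟩

theorem finite_V_ctri (Z : Flat X) (x : X) (a b p : P2) : (Z.V x ∩ ctri a b p).Finite := by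
  obtain ⟨R, hR⟩ := (isCompact_ctri a b p).isBounded.subset_closedBall 0
  exact (Z.locfin x R).subset (inter_subset_inter_right _ hR)

/-- the finitely many other points of `V x ∩ closedBall 0 (‖w‖ + 1)` are not on the compact segment
`[0, w]` (`vis_unique`) -/
theorem near_seg {x : X} {w : P2} (hw : w ∈ Z.V x) :
    ∃ δ : ℝ, 0 < δ ∧ ∀ u ∈ Z.V x, ∀ t : ℝ, 0 ≤ t → t ≤ 1 → ‖u - t • w‖ < δ → u = w := by
  have hF : ((Z.V x ∩ Metric.closedBall 0 (‖w‖ + 1)) \ {w}).Finite := (Z.locfin x _).subset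
    fun _ h => h.1
  obtain ⟨δ, hδ, h⟩ := exists_tube hF.isClosed.isOpen_compl (v := w) fun t h0 _ h2 => by
    rcases h0.lt_or_eq with h0 | h0
    · exact h2.2 (by rw [vis_unique hw h0 h2.1.1, one_smul]; rfl)
    · exact V_ne_zero h2.1.1 (by rw [← h0, zero_smul])
  refine ⟨min δ 1, by positivity, fun u hu t h0 h1 h2 => ?_⟩
  by_contra h3
  refine h ⟨t, h0, h1, h2.trans_le (min_le_left _ _)⟩ ⟨⟨hu, mem_closedBall_zero_iff.2 ?_⟩, h3⟩
  have h4 := norm_sub_norm_le u (t • w)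
  rw [norm_smul, Real.norm_of_nonneg h0] at h4
  have h5 := mul_le_of_le_one_left (norm_nonneg w) h1
  linarith [min_le_right δ 1]

/-- `near_seg`, `vc_tri` -/
theorem sheet {x : X} {w : P2} (hw : w ∈ Z.V x) :
    ∃ δ : ℝ, 0 < δ ∧ ∀ a : P2, ‖a‖ < δ → a ∈ Z.D x ∧ w - a ∈ Z.V (Z.mv x a) := by
  obtain ⟨δ, hδ, h⟩ := near_seg hw
  obtain ⟨r, hr, h'⟩ := exists_ball (reg_of_V hw)
  refine ⟨min δ r, by positivity, fun a ha => ?_⟩
  have h1 : a ∈ Z.D x := h' (mem_ball_zero_iff.2 (ha.trans_le (min_le_right _ _)))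
  refine ⟨h1, vc_tri hw h1 ?_⟩
  rintro u ⟨α, β, γ, hα, hβ, hγ, hs, rfl⟩ hu
  refine h _ hu γ hγ (by linarith) ?_
  rw [smul_zero, zero_add, add_sub_cancel_right, norm_smul, Real.norm_of_nonneg hβ]
  exact (mul_le_of_le_one_left (norm_nonneg a) (by linarith)).trans_lt
    (ha.trans_le (min_le_left _ _))

/-- `countable_V`, `countable_dir`, `exists_vis` -/
theorem ae_ray {x : X} (hx : Z.reg x) : ∀ᵐ θ ∂(volume : Measure ℝ), x ∈ Z.X0 θ := by
  have h : (⋃ w ∈ Z.V x, {θ : ℝ | det2 (ev θ) w = 0}).Countable :=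
    (Z.countable_V x).biUnion fun w hw => countable_dir (V_ne_zero hw)
  refine (h.ae_notMem volume).mono fun θ hθ t => ?_
  by_contra ht
  obtain ⟨s, -, -, hs⟩ := exists_vis hx ht
  refine hθ (mem_iUnion₂.2 ⟨_, hs, ?_⟩)
  rw [smul_smul]
  exact det2_smul_self _ _

end Flat

end Pool.Agent.MP_b29402_an

end
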