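import Pool.Agent.MP_b29402_an.Mg.DkB

-- part MP_b29402_an.FB4
section

/-! Local structure of segments and triangles. -/

open MeasureTheory Set Filter Topology ProbabilityTheory
open scoped ComplexConjugate ENNReal

namespace Pool.Agent.MP_b29402_an

namespace Flat

variable {X : Type*} [MeasurableSpace X] {Z : Flat X}

theorem FB4_uniq {x : X} {q : P2} {a b : ℝ} (ha : a • q ∈ Z.V x) (hb : b • q ∈ Z.V x)
    (hab : 0 < a * b) : b = a := by
  have h0 : a ≠ 0 := fun h => by simp [h] at hab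
  have h1 : 0 < b / a := by
    have h2 : b / a = a * b / (a * a) := by field_simp
    rw [h2]
    exact div_pos hab (mul_self_pos.2 h0)
  have h3 : (b / a) • a • q = b • q := by rw [smul_smul, div_mul_cancel₀ _ h0]
  have h4 := vis_unique ha h1 (h3 ▸ hb)
  rwa [div_eq_one_iff_eq h0] at h4

/-- At a common point `z = mv y (τ q) = mv y' (τ' q')`, `q' = λ q`; `SC.ends` for both and `vis_unique`
give `λ = ± 1`, `τ' = ± τ`; then `y = mv z (-τ q) = y'` (`back`). -/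
theorem par_eq {δ γ : X × P2} (hδ : Z.SC δ) (hγ : Z.SC γ) (h : (Z.seg δ ∩ Z.seg γ).Nonempty)
    (hd : det2 δ.2 γ.2 = 0) : γ.1 = δ.1 ∧ (γ.2 = δ.2 ∨ γ.2 = -δ.2) := by
  obtain ⟨z, ⟨τ, hτ, hz⟩, τ', hτ', hz'⟩ := h
  obtain ⟨l, hl⟩ := det2_eq_zero hδ.ne_zero hd
  have hl0 : l ≠ 0 := fun h => hγ.ne_zero (by rw [hl, h, zero_smul])
  obtain ⟨e1, e2⟩ := hδ.ends hτ
  obtain ⟨e3, e4⟩ := hγ.ends hτ'
  rw [← hz] at e1 e2
  rw [← hz'] at e3 e4
  rw [hl, smul_smul] at e3 e4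
  obtain ⟨a1, a2⟩ := abs_lt.1 hτ
  obtain ⟨a3, a4⟩ := abs_lt.1 hτ'
  have key : τ' * l = τ ∧ (l = 1 ∨ l = -1) := by
    rcases lt_or_gt_of_ne hl0 with hn | hp
    · have b1 := FB4_uniq e2 e3
        (mul_pos_of_neg_of_neg (by linarith) (mul_neg_of_pos_of_neg (by linarith) hn))
      have b2 := FB4_uniq e1 e4
        (mul_pos (by linarith) (mul_pos_of_neg_of_neg (by linarith) hn))
      exact ⟨by linarith, Or.inr (by linarith)⟩
    · have b1 := FB4_uniq e1 e3 (mul_pos (by linarith) (mul_pos (by linarith) hp))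
      have b2 := FB4_uniq e2 e4
        (mul_pos_of_neg_of_neg (by linarith) (mul_neg_of_neg_of_pos (by linarith) hp))
      exact ⟨by linarith, Or.inl (by linarith)⟩
  have hv : τ' • γ.2 = τ • δ.2 := by rw [hl, smul_smul, key.1]
  refine ⟨?_, ?_⟩
  · have b1 := (back (hδ.mem_D hτ)).2
    have b2 := (back (hγ.mem_D hτ')).2
    rw [← hz] at b1
    rw [← hz', hv] at b2
    exact b2.symm.trans b1
  · rcases key.2 with h | h
    · exact Or.inl (by rw [hl, h, one_smul])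
    · exact Or.inr (by rw [hl, h, neg_one_smul])

/-- Wall propagation. `mv z c = mv y (τ q)`; `t q ∈ D (mv z c)` by `conv`, so `|τ + t| < 1` by
`SC.ends` and `lt_one_of_smul_mem`; `SC.move`. -/
theorem wall_prop {γ : X × P2} (hγ : Z.SC γ) {z : X} {K : Set P2} (hK : Convex ℝ K)
    (h0 : (0 : P2) ∈ K) (hD : K ⊆ Z.D z) {c : P2} {t : ℝ} (hc : c ∈ K) (hc' : c + t • γ.2 ∈ K)
    (h : Z.mv z c ∈ Z.seg γ) : Z.mv z (c + t • γ.2) ∈ Z.seg γ := by
  obtain ⟨τ, hτ, hz⟩ := h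
  obtain ⟨c1, c2⟩ := Z.conv z K hK h0 hD c hc _ hc'
  rw [add_sub_cancel_left, hz] at c1 c2
  obtain ⟨e1, e2⟩ := hγ.ends hτ
  obtain ⟨a1, a2⟩ := abs_lt.1 hτ
  have p1 : 0 < 1 - τ := by linarith
  have p2 : -1 - τ < 0 := by linarith
  have b1 : t / (1 - τ) < 1 := lt_one_of_smul_mem e1 (by
    rwa [smul_smul, div_mul_cancel₀ _ p1.ne'])
  have b2 : t / (-1 - τ) < 1 := lt_one_of_smul_mem e2 (by
    rwa [smul_smul, div_mul_cancel₀ _ p2.ne])
  rw [div_lt_one p1] at b1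
  rw [div_lt_one_of_neg p2] at b2
  have h3 : |τ + t| < 1 := abs_lt.2 ⟨by linarith, by linarith⟩
  have h4 := (hγ.move hτ h3).2
  rw [add_sub_cancel_left] at h4
  exact ⟨τ + t, h3, c2.symm.trans h4⟩

theorem FB4_diff {x x' : X} {r : ℝ} (hx : Metric.ball 0 r ⊆ Z.D x) (hx' : Metric.ball 0 r ⊆ Z.D x')
    {a b : P2} (ha : ‖a‖ < r / 4) (hb : ‖b‖ < r / 4) (he : Z.mv x a = Z.mv x' b) :
    Z.mv x (a - b) = x' := by
  have n1 := norm_nonneg a
  have n2 := norm_nonneg b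
  have h1 : Metric.ball 0 (r - ‖a‖) ⊆ Z.D (Z.mv x a) := ball_shift hx (by linarith)
  have h2 := (back (hx (mem_ball_zero_iff.2 (by linarith : ‖a‖ < r)))).2
  have h3 := (back (hx' (mem_ball_zero_iff.2 (by linarith : ‖b‖ < r)))).2
  have h4 := (Z.conv _ _ (convex_ball 0 _) (Metric.mem_ball_self (by linarith)) h1 (-a)
    (mem_ball_zero_iff.2 (by rw [norm_neg]; linarith)) (-b)
    (mem_ball_zero_iff.2 (by rw [norm_neg]; linarith))).2
  rw [h2, he, h3] at h4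
  have h5 : -b - -a = a - b := by abel
  rwa [h5] at h4

/-- Hausdorff property. Let `ball 0 r ⊆ D x`, `ball 0 r ⊆ D x'`, `r ≤ ε` with `Thick ε` (`thick_pos`).
If `mv x a = mv x' b` with `‖a‖, ‖b‖ < r/4` then (`ball_shift`, `back`, `conv` in the ball of radius `r/2` at
this point) `x' = mv x (a - b)`. By `Thick.inj` the vector `a - b` is the same for all such pairs; either it
is zero (then `x' = x`, done) or has norm `> 2 δ` for small `δ`. -/
theorem close_eq {x x' : X} (hx : Z.reg x) (hx' : Z.reg x') :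
    ∃ δ : ℝ, 0 < δ ∧ ∀ a b : P2, ‖a‖ < δ → ‖b‖ < δ → Z.mv x a = Z.mv x' b → x = x' ∧ a = b := by
  obtain ⟨r1, p1, h1⟩ := exists_ball hx
  obtain ⟨r2, p2, h2⟩ := exists_ball hx'
  obtain ⟨ε, p3, h3⟩ := Z.thick_pos
  obtain ⟨r, hr, k1, k2, k3⟩ : ∃ r : ℝ, 0 < r ∧ r ≤ r1 ∧ r ≤ r2 ∧ r ≤ ε :=
    ⟨min r1 (min r2 ε), lt_min p1 (lt_min p2 p3), min_le_left _ _,
      (min_le_right _ _).trans (min_le_left _ _), (min_le_right _ _).trans (min_le_right _ _)⟩
  have d1 : Metric.ball 0 r ⊆ Z.D x := (Metric.ball_subset_ball k1).trans h1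
  have d2 : Metric.ball 0 r ⊆ Z.D x' := (Metric.ball_subset_ball k2).trans h2
  by_cases hc : ∃ a0 b0 : P2, ‖a0‖ < r / 4 ∧ ‖b0‖ < r / 4 ∧ Z.mv x a0 = Z.mv x' b0 ∧ a0 ≠ b0
  · obtain ⟨a0, b0, m1, m2, m3, m4⟩ := hc
    have m5 : 0 < ‖a0 - b0‖ := norm_pos_iff.2 (sub_ne_zero.2 m4)
    refine ⟨min (r / 4) (‖a0 - b0‖ / 2), lt_min (by linarith) (by linarith), fun a b ha hb he => ?_⟩
    exfalso
    obtain ⟨ha1, ha2⟩ := lt_min_iff.1 ha
    obtain ⟨hb1, hb2⟩ := lt_min_iff.1 hb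
    have q1 := norm_sub_le a b
    have q2 := norm_sub_le a0 b0
    have q3 := norm_sub_le (a0 - b0) (a - b)
    have q4 : a - b = a0 - b0 := h3.inj (convex_ball 0 r) (Metric.mem_ball_self hr) d1
      (mem_ball_zero_iff.2 (by linarith)) (mem_ball_zero_iff.2 (by linarith)) (by linarith)
      ((FB4_diff d1 d2 ha1 hb1 he).trans (FB4_diff d1 d2 m1 m2 m3).symm)
    rw [q4] at q1
    linarith
  · refine ⟨r / 4, by linarith, fun a b ha hb he => ?_⟩
    have hab : a = b := by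
      by_contra hne
      exact hc ⟨a, b, ha, hb, he, hne⟩
    have h4 := FB4_diff d1 d2 ha hb he
    rw [hab, sub_self, Z.mv_zero] at h4
    exact ⟨h4, hab⟩

/-- By compactness of `closure K`: every `c* ∈ closure K` has a radius `δ*` such that the claim holds for
`‖a‖ < δ*`, `‖c' - c*‖ < δ*`. If `c* ∈ K`: `close_eq` with `x' = mv y c*` and `mv y c' = mv x' (c' - c*)`
(`conv`). Otherwise `c* - c' ∈ V (mv y c')` (`vc_convex`), impossible as `ball 0 (r/2) ⊆ D (mv x0 a)`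
(`ball_shift`). Finite subcover (or a sequence argument). -/
theorem local_structure {y x0 : X} {K : Set P2} (hK : Convex ℝ K) (h0 : (0 : P2) ∈ K)
    (hD : K ⊆ Z.D y) (hb : Bornology.IsBounded K)
    (hcl : ∀ w ∈ closure K, w ∉ K →
      w ∈ Z.V y ∧ ∀ c ∈ K, ∀ t : ℝ, 0 ≤ t → t < 1 → c + t • (w - c) ∈ K)
    (hx : Z.reg x0) :
    ∃ δ : ℝ, 0 < δ ∧ ∀ a : P2, ‖a‖ < δ → a ∈ Z.D x0 ∧
      ∀ c' ∈ K, Z.mv x0 a = Z.mv y c' → ∃ c ∈ K, x0 = Z.mv y c ∧ a = c' - c := by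
  obtain ⟨r, hr, hrD⟩ := exists_ball hx
  have key : ∃ δ : ℝ, 0 < δ ∧ ∀ a : P2, ‖a‖ < δ → ∀ c' ∈ closure K, c' ∈ K →
      Z.mv x0 a = Z.mv y c' → ∃ c ∈ K, x0 = Z.mv y c ∧ a = c' - c := by
    refine hb.isCompact_closure.induction_on (p := fun s => ∃ δ : ℝ, 0 < δ ∧ ∀ a : P2, ‖a‖ < δ →
      ∀ c' ∈ s, c' ∈ K → Z.mv x0 a = Z.mv y c' → ∃ c ∈ K, x0 = Z.mv y c ∧ a = c' - c) ?_ ?_ ?_ ?_
    · exact ⟨1, one_pos, fun a _ c' h => absurd h (notMem_empty _)⟩
    · rintro s t hst ⟨δ, hδ, h⟩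
      exact ⟨δ, hδ, fun a ha c' hc => h a ha c' (hst hc)⟩
    · rintro s t ⟨δ, hδ, h⟩ ⟨δ', hδ', h'⟩
      refine ⟨min δ δ', lt_min hδ hδ', fun a ha c' hc => ?_⟩
      rcases hc with hc | hc
      · exact h a (lt_min_iff.1 ha).1 c' hc
      · exact h' a (lt_min_iff.1 ha).2 c' hc
    · intro w hw
      by_cases hwK : w ∈ K
      · obtain ⟨δ, hδ, h⟩ := close_eq hx (reg_mv (hD hwK))
        refine ⟨Metric.ball w δ, mem_nhdsWithin_of_mem_nhds (Metric.ball_mem_nhds w hδ), δ, hδ,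
          fun a ha c' hc hcK he => ?_⟩
        obtain ⟨e1, e2⟩ := h a (c' - w) ha (mem_ball_iff_norm.1 hc)
          (he.trans (Z.conv y K hK h0 hD w hwK c' hcK).2.symm)
        exact ⟨w, hwK, e1, e2⟩
      · obtain ⟨hV, hT⟩ := hcl w hw hwK
        refine ⟨Metric.ball w (r / 2),
          mem_nhdsWithin_of_mem_nhds (Metric.ball_mem_nhds w (by linarith)), r / 2, by linarith,
          fun a ha c' hc hcK he => ?_⟩
        exfalso
        have h1 := vc_convex hV hK h0 hD (hT c' hcK)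
        rw [← he] at h1
        have h2 := mem_ball_iff_norm'.1 hc
        exact V_not_mem h1 (ball_shift hrD (by linarith) (mem_ball_zero_iff.2 (by linarith)))
  obtain ⟨δ, hδ, h⟩ := key
  refine ⟨min δ r, lt_min hδ hr, fun a ha => ⟨hrD (mem_ball_zero_iff.2 (lt_min_iff.1 ha).2), ?_⟩⟩
  exact fun c' hc => h a (lt_min_iff.1 ha).1 c' (subset_closure hc) hc

/-- `local_structure` with `K` the open segment -/
theorem local_seg {γ : X × P2} (hγ : Z.SC γ) {x0 : X} (hx : Z.reg x0) :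
    ∃ δ : ℝ, 0 < δ ∧ ∀ a : P2, ‖a‖ < δ → a ∈ Z.D x0 ∧
      (Z.mv x0 a ∈ Z.seg γ → x0 ∈ Z.seg γ ∧ ∃ t : ℝ, a = t • γ.2) := by
  have hcpt : IsCompact ((fun t : ℝ => t • γ.2) '' Icc (-1) 1) :=
    isCompact_Icc.image (by fun_prop)
  have hsub : (fun t : ℝ => t • γ.2) '' Ioo (-1) 1 ⊆ (fun t : ℝ => t • γ.2) '' Icc (-1) 1 :=
    image_mono Ioo_subset_Icc_self
  have hconv : Convex ℝ ((fun t : ℝ => t • γ.2) '' Ioo (-1) 1) :=
    (convex_Ioo (-1 : ℝ) 1).linear_image (LinearMap.toSpanSingleton ℝ P2 γ.2)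
  obtain ⟨δ, hδ, h⟩ := local_structure (Z := Z) (y := γ.1) hconv
    ⟨0, ⟨by norm_num, by norm_num⟩, zero_smul _ _⟩
    (by
      rintro _ ⟨t, ht, rfl⟩
      exact hγ.mem_D (abs_lt.2 ht))
    (hcpt.isBounded.subset hsub)
    (by
      intro w hw hwK
      obtain ⟨s, ⟨s1, s2⟩, rfl⟩ := closure_minimal hsub hcpt.isClosed hw
      constructor
      · rcases s1.eq_or_lt with e | s1
        · subst e
          simpa using hγ.2
        · rcases s2.eq_or_lt with e | s2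
          · subst e
            simpa using hγ.1
          · exact absurd ⟨s, ⟨s1, s2⟩, rfl⟩ hwK
      · rintro _ ⟨u, ⟨u1, u2⟩, rfl⟩ t t0 t1
        refine ⟨u + t * (s - u), ⟨by nlinarith, by nlinarith⟩, ?_⟩
        simp only
        rw [add_smul, mul_smul, sub_smul]) hx
  refine ⟨δ, hδ, fun a ha => ⟨(h a ha).1, ?_⟩⟩
  rintro ⟨t, ht, he⟩
  obtain ⟨_, ⟨u, hu, rfl⟩, e1, e2⟩ := (h a ha).2 _ ⟨t, abs_lt.1 ht, rfl⟩ he
  exact ⟨⟨u, abs_lt.2 hu, e1⟩, t - u, by rw [e2, sub_smul]⟩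

/-- `local_structure` with `K = tri (-q) q p` (`isCompact_ctri`, `eq_vertex_of_not_mem_tri`, `tri_toward`) -/
theorem local_tri {y : X} {q p : P2} (hq : Z.SC (y, q)) (hp : p ∈ Z.V y)
    (hD : tri (-q) q p ⊆ Z.D y) {x0 : X} (hx : Z.reg x0) :
    ∃ δ : ℝ, 0 < δ ∧ ∀ a : P2, ‖a‖ < δ → a ∈ Z.D x0 ∧
      (Z.mv x0 a ∈ Z.mv y '' tri (-q) q p → x0 ∈ Z.mv y '' tri (-q) q p) := by
  obtain ⟨δ, hδ, h⟩ := local_structure (Z := Z) (y := y) (convex_tri (-q) q p)
    ⟨1 / 2, 1 / 2, 0, by norm_num, by norm_num, le_rfl, by norm_num, by norm_num, by norm_num,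
      by norm_num, by simp⟩ hD
    ((isCompact_ctri (-q) q p).isBounded.subset (tri_subset_ctri _ _ _))
    (by
      intro w hw hwK
      have h1 := closure_minimal (tri_subset_ctri (-q) q p) (isCompact_ctri _ _ _).isClosed hw
      refine ⟨?_, fun c hc t t0 t1 => tri_toward hc h1 t0 t1⟩
      rcases eq_vertex_of_not_mem_tri h1 hwK with e | e | e
      · exact e ▸ hq.2
      · exact e ▸ hq.1
      · exact e ▸ hp) hx
  refine ⟨δ, hδ, fun a ha => ⟨(h a ha).1, ?_⟩⟩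
  rintro ⟨c', hc, he⟩
  obtain ⟨c, hc', e1, -⟩ := (h a ha).2 c' hc he.symm
  exact ⟨c, hc', e1.symm⟩

end Flat

end Pool.Agent.MP_b29402_an

end

-- part MP_b29402_an.GW
section

/-! Empty triangles and the first wall. -/

open MeasureTheory Set Filter Topology ProbabilityTheory
open scoped ComplexConjugate ENNReal

namespace Pool.Agent.MP_b29402_an

namespace Flat

variable {X : Type*} [MeasurableSpace X] {Z : Flat X}

lemma GW_det_comb (q a p : P2) (α β : ℝ) :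
    det2 q (α • a + β • p) = α * det2 q a + β * det2 q p := by
  simp only [det2, Prod.fst_add, Prod.snd_add, Prod.smul_fst, Prod.smul_snd, smul_eq_mul]; ring

lemma GW_det_comb' (q a p : P2) (α β : ℝ) :
    det2 (α • a + β • p) q = α * det2 a q + β * det2 p q := by
  simp only [det2, Prod.fst_add, Prod.snd_add, Prod.smul_fst, Prod.smul_snd, smul_eq_mul]; ring

lemma GW_det_self (a : P2) : det2 a a = 0 := by simp only [det2]; ring

lemma GW_det_smul (q a : P2) (t : ℝ) : det2 q (t • a) = t * det2 q a := by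
  simp only [det2, Prod.smul_fst, Prod.smul_snd, smul_eq_mul]; ring

lemma GW_det_smul' (q a : P2) (t : ℝ) : det2 (t • a) q = t * det2 a q := by
  simp only [det2, Prod.smul_fst, Prod.smul_snd, smul_eq_mul]; ring

lemma GW_det_add (q a b : P2) : det2 q (a + b) = det2 q a + det2 q b := by
  simp only [det2, Prod.fst_add, Prod.snd_add]; ring

lemma GW_convex (a p : P2) (P : ℝ → ℝ → Prop)
    (hP : ∀ α β α' β' s t : ℝ, 0 ≤ s → 0 ≤ t → s + t = 1 → P α β → P α' β' →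
      P (s * α + t * α') (s * β + t * β')) :
    Convex ℝ {v : P2 | ∃ α β, P α β ∧ v = α • a + β • p} := by
  rintro _ ⟨α, β, h, rfl⟩ _ ⟨α', β', h', rfl⟩ s t hs ht hst
  exact ⟨_, _, hP α β α' β' s t hs ht hst h h', by module⟩

lemma GW_exit {x y u v : ℝ} (hx : 0 < x) (hy : 0 < y) (h : u < 0 ∨ v < 0) :
    ∃ s : ℝ, 0 < s ∧ 0 ≤ x + s * u ∧ 0 ≤ y + s * v ∧ (x + s * u = 0 ∨ y + s * v = 0) := by
  have key : ∀ {x y u v : ℝ}, 0 < x → 0 < y → u < 0 → y * u ≤ x * v →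
      ∃ s : ℝ, 0 < s ∧ x + s * u = 0 ∧ 0 ≤ y + s * v := by
    intro x y u v hx hy hu h
    have hu' : 0 < -u := by linarith
    refine ⟨x / -u, div_pos hx hu', by field_simp [hu.ne]; ring, ?_⟩
    have : y + x / -u * v = (y * -u + x * v) / -u := by field_simp [hu.ne]; ring
    rw [this]
    exact div_nonneg (by linarith) hu'.le
  rcases le_total (y * u) (x * v) with h1 | h1
  · have hu : u < 0 := by
      rcases h with h | h
      · exact h
      · by_contra hn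
        nlinarith [mul_nonneg hy.le (not_lt.1 hn), mul_neg_of_pos_of_neg hx h]
    obtain ⟨s, s1, s2, s3⟩ := key hx hy hu h1
    exact ⟨s, s1, s2.ge, s3, Or.inl s2⟩
  · have hv : v < 0 := by
      rcases h with h | h
      · by_contra hn
        nlinarith [mul_nonneg hx.le (not_lt.1 hn), mul_neg_of_pos_of_neg hy h]
      · exact h
    obtain ⟨s, s1, s2, s3⟩ := key hy hx hv h1
    exact ⟨s, s1, s3, s2.ge, Or.inr s2⟩

lemma GW_move {γ : X × P2} (hγ : Z.SC γ) {z : X} {a p : P2} (P : ℝ → ℝ → Prop)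
    (hP : ∀ α β α' β' s t : ℝ, 0 ≤ s → 0 ≤ t → s + t = 1 → P α β → P α' β' →
      P (s * α + t * α') (s * β + t * β')) (h0 : P 0 0)
    (hD : ∀ α β, P α β → α • a + β • p ∈ Z.D z) {α β α2 β2 t : ℝ} (h1 : P α β) (h2 : P α2 β2)
    (he : α2 • a + β2 • p = α • a + β • p + t • γ.2)
    (h : Z.mv z (α • a + β • p) ∈ Z.seg γ) : Z.mv z (α2 • a + β2 • p) ∈ Z.seg γ := by
  rw [he]
  refine wall_prop hγ (GW_convex a p P hP) ⟨0, 0, h0, by simp⟩ ?_ ⟨α, β, h1, rfl⟩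
    ⟨α2, β2, h2, he.symm⟩ h
  rintro _ ⟨α, β, h, rfl⟩
  exact hD α β h

/-- Empty triangle. `K = {α a + β p | α, β ≥ 0, α + β < 1}` is convex. Suppose
`mv z (α a + β p) ∈ seg γ`. Write `γ.2 = α' a + β' p` (`exists_coords`); replacing `γ` by its negative
(`SC.neg`, `seg_neg`) assume `α' + β' ≤ 0`; one of `α', β'` is negative. Move along `t γ.2`, `t ≥ 0`, until
the first coordinate vanishes (explicit `t`); the point is still in `K`, `wall_prop`. If `β + t β' = 0` then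
`hside` gives `det2 a γ.2 = 0`, i.e. `β' = 0`, contradiction with `β > 0`. Otherwise `hvis`. -/
theorem empty_tri {F : Finset (X × P2)} (hF : ∀ γ ∈ F, Z.SC γ) {z : X} {a p : P2}
    (hap : det2 a p ≠ 0)
    (hD : ∀ α β : ℝ, 0 ≤ α → 0 ≤ β → α + β < 1 → α • a + β • p ∈ Z.D z)
    (hside : ∀ α : ℝ, 0 ≤ α → α < 1 → ∀ γ ∈ F, Z.mv z (α • a) ∈ Z.seg γ → det2 a γ.2 = 0)
    (hvis : ∀ β : ℝ, 0 < β → β < 1 → Z.mv z (β • p) ∉ Z.walls F)
    {α β : ℝ} (hα : 0 < α) (hβ : 0 < β) (hs : α + β < 1) :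
    Z.mv z (α • a + β • p) ∉ Z.walls F := by
  rintro ⟨γ, hγ, h⟩
  obtain ⟨α', β', hg⟩ := exists_coords hap γ.2
  obtain ⟨ε, hε, hε2⟩ : ∃ ε : ℝ, ε ≠ 0 ∧ ε * α' + ε * β' ≤ 0 := by
    rcases le_total (α' + β') 0 with h | h
    · exact ⟨1, one_ne_zero, by linarith⟩
    · exact ⟨-1, by norm_num, by linarith⟩
  have hneg : ε * α' < 0 ∨ ε * β' < 0 := by
    by_contra hn
    push Not at hn
    have h1 : ε * α' = 0 := by linarith [hn.1, hn.2]
    have h2 : ε * β' = 0 := by linarith [hn.1, hn.2]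
    apply (hF γ hγ).ne_zero
    rw [hg, (mul_eq_zero.1 h1).resolve_left hε, (mul_eq_zero.1 h2).resolve_left hε]
    simp
  obtain ⟨s, s0, s1, s2, s3⟩ := GW_exit hα hβ hneg
  have s4 : α + s * (ε * α') + (β + s * (ε * β')) < 1 := by
    nlinarith [mul_nonpos_of_nonneg_of_nonpos s0.le hε2]
  have key := GW_move (hF γ hγ) (fun α β => 0 ≤ α ∧ 0 ≤ β ∧ α + β < 1)
    (by
      rintro α β α' β' s t hs ht hst ⟨p1, p2, p3⟩ ⟨q1, q2, q3⟩
      refine ⟨by positivity, by positivity, ?_⟩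
      have := Convex.combo_le_max (α + β) (α' + β') hs ht hst
      simp only [smul_eq_mul] at this
      linarith [max_lt p3 q3])
    ⟨le_rfl, le_rfl, by norm_num⟩ (fun α β h => hD α β h.1 h.2.1 h.2.2)
    ⟨hα.le, hβ.le, hs⟩ ⟨s1, s2, s4⟩ (t := s * ε) (by rw [hg]; module) h
  rcases s2.eq_or_lt with h0 | h0
  · rw [← h0, zero_smul, add_zero] at key
    have := hside _ s1 (by linarith) γ hγ key
    rw [hg, GW_det_comb, GW_det_self, mul_zero, zero_add] at this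
    rw [(mul_eq_zero.1 this).resolve_right hap] at h0
    linarith
  · rw [s3.resolve_right h0.ne', zero_smul, zero_add] at key
    exact hvis _ h0 (by linarith) ⟨γ, hγ, key⟩

/-- a wall through a point of the ray `(0, w)` is not parallel to `w`: otherwise `wall_prop` along the
segment `K = {s w | 0 ≤ s ≤ t}` gives `z ∈ seg γ`, so `det2 q γ.2 = 0` and `det2 q w = 0`. -/
theorem not_parallel {F : Finset (X × P2)} (hF : ∀ γ ∈ F, Z.SC γ) {z : X} {q w : P2}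
    (hnc : ∀ γ ∈ F, z ∈ Z.seg γ → det2 q γ.2 = 0) (hq : 0 < det2 q w) {t : ℝ} (ht : 0 ≤ t)
    (hD : t • w ∈ Z.D z) {γ : X × P2} (hγ : γ ∈ F) (h : Z.mv z (t • w) ∈ Z.seg γ) :
    det2 w γ.2 ≠ 0 := by
  intro h0
  have hw : w ≠ 0 := by
    rintro rfl
    simp [det2] at hq
  obtain ⟨l, hl⟩ := det2_eq_zero hw h0
  have hl0 : l ≠ 0 := by
    rintro rfl
    exact (hF γ hγ).ne_zero (by simpa using hl)
  have e : t • w + (-t / l) • γ.2 = 0 := by
    rw [hl, smul_smul, div_mul_cancel₀ _ hl0]; module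
  have key := wall_prop (hF γ hγ) (K := segment ℝ 0 (t • w)) (convex_segment _ _)
    (left_mem_segment _ _ _) (by
      rintro _ ⟨a, b, ha, hb, hab, rfl⟩
      rw [smul_zero, zero_add]
      exact Z.star z _ hD b hb (by linarith)) (t := -t / l) (right_mem_segment _ _ _)
    (by rw [e]; exact left_mem_segment _ _ _) h
  rw [e, Z.mv_zero] at key
  have := hnc γ hγ key
  rw [hl, GW_det_smul] at this
  exact (mul_ne_zero hl0 hq.ne') this

/-- `S = {t ∈ (0,1) | mv z (t w) ∈ walls}`, `t0 = sInf S ∈ [0,1)`, `x0 = mv z (t0 w)`. By `local_seg` for the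
finitely many walls and `not_parallel`, no `t ≠ t0` close to `t0` is in `S` (`seg_conv`); so `t0 ∈ S`. -/
theorem exists_first_wall {F : Finset (X × P2)} (hF : ∀ γ ∈ F, Z.SC γ) {z : X} {q w : P2}
    (hnc : ∀ γ ∈ F, z ∈ Z.seg γ → det2 q γ.2 = 0) (hw : w ∈ Z.V z) (hq : 0 < det2 q w)
    (h : ∃ t : ℝ, 0 < t ∧ t < 1 ∧ Z.mv z (t • w) ∈ Z.walls F) :
    ∃ t0 : ℝ, 0 < t0 ∧ t0 < 1 ∧ Z.mv z (t0 • w) ∈ Z.walls F ∧
      ∀ t : ℝ, 0 < t → t < t0 → Z.mv z (t • w) ∉ Z.walls F := by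
  set S : Set ℝ := {t | 0 < t ∧ t < 1 ∧ Z.mv z (t • w) ∈ Z.walls F} with hS
  have hne : S.Nonempty := h
  have hbd : BddBelow S := ⟨0, fun t ht => ht.1.le⟩
  obtain ⟨t1, ht1⟩ := h
  have h0 : 0 ≤ sInf S := le_csInf hne fun t ht => ht.1.le
  have h1 : sInf S < 1 := (csInf_le hbd ht1).trans_lt ht1.2.1
  have hmem : sInf S ∈ S := by
    by_contra hn
    have hD := hw.2 _ h0 h1
    have hev : ∀ᶠ a in 𝓝 (0 : P2), ∀ γ ∈ F, Z.mv (Z.mv z (sInf S • w)) a ∈ Z.seg γ →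
        Z.mv z (sInf S • w) ∈ Z.seg γ ∧ ∃ t : ℝ, a = t • γ.2 := by
      rw [eventually_all_finset]
      intro γ hγ
      obtain ⟨δ, hδ, hl⟩ := local_seg (hF γ hγ) (reg_mv hD)
      filter_upwards [Metric.ball_mem_nhds (0 : P2) hδ] with a ha
      exact (hl a (by simpa using ha)).2
    have hc : Tendsto (fun t : ℝ => t • w - sInf S • w) (𝓝 (sInf S)) (𝓝 0) := by
      have : Continuous fun t : ℝ => t • w - sInf S • w := by fun_prop
      simpa using this.tendsto (sInf S)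
    obtain ⟨t, ht, htS⟩ := mem_closure_iff_nhds.1 (csInf_mem_closure hne hbd) _ (hc.eventually hev)
    obtain ⟨t0, t1, γ, hγ, hm⟩ := htS
    have hK : Convex ℝ ((fun s : ℝ => s • w) '' Ico 0 1) :=
      (convex_Ico (0 : ℝ) 1).linear_image (LinearMap.toSpanSingleton ℝ P2 w)
    have hcv := (Z.conv z _ hK ⟨0, ⟨le_rfl, one_pos⟩, by simp⟩
      (by rintro _ ⟨s, hs, rfl⟩; exact hw.2 s hs.1 hs.2) _ ⟨sInf S, ⟨h0, h1⟩, rfl⟩ _
      ⟨t, ⟨t0.le, t1⟩, rfl⟩).2
    obtain ⟨a1, r, a2⟩ := ht γ hγ (by rw [hcv]; exact hm)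
    have a3 := not_parallel hF hnc hq h0 hD hγ a1
    have a4 := congrArg (det2 w) a2
    rw [← sub_smul, GW_det_smul, GW_det_smul, GW_det_self, mul_zero] at a4
    rw [(mul_eq_zero.1 a4.symm).resolve_right a3, zero_smul, ← sub_smul] at a2
    have a5 := (smul_eq_zero.1 a2).resolve_right (V_ne_zero hw)
    apply hn
    rw [← sub_eq_zero.1 a5]
    exact ⟨t0, t1, γ, hγ, hm⟩
  exact ⟨sInf S, hmem.1, hmem.2.1, hmem.2.2, fun t t0 t1 hm =>
    absurd (csInf_le hbd ⟨t0, t1.trans h1, hm⟩) (not_le.2 t1)⟩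

/-- the visible point of smallest angle in a triangle -/
lemma GW_min {z : X} {a E : P2} (hΔ : det2 a E ≠ 0) (ha : a ∈ Z.D z)
    (hne : (Z.V z ∩ ctri 0 a E).Nonempty) :
    ∃ l s : ℝ, 0 < l ∧ l ≤ 1 ∧ 0 < s ∧ s ≤ 1 ∧ l • ((1 - s) • a + s • E) ∈ Z.V z ∧
      ∀ α β : ℝ, 0 ≤ α → 0 ≤ β → α + β ≤ 1 → (α = 0 → β < l) →
        α • a + β • ((1 - s) • a + s • E) ∉ Z.V z := by
  obtain ⟨u, ⟨hu, c0, α1, β1, p0, p1, p2, p3, hue⟩, hmin⟩ := Set.exists_min_image _
    (fun u => det2 a u / (det2 a u + det2 u E)) (Z.finite_V_ctri z 0 a E) hne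
  rw [smul_zero, zero_add] at hue
  have hf : ∀ α β : ℝ, det2 a (α • a + β • E) / (det2 a (α • a + β • E) +
      det2 (α • a + β • E) E) = β / (α + β) := by
    intro α β
    rw [GW_det_comb, GW_det_comb', GW_det_self, GW_det_self,
      show α * 0 + β * det2 a E + (α * det2 a E + β * 0) = (α + β) * det2 a E by ring,
      mul_zero, zero_add, mul_div_mul_right _ _ hΔ]
  have hβ : 0 < β1 := by
    refine lt_of_le_of_ne p2 fun h => hu.1 ?_
    rw [hue, ← h, zero_smul, add_zero]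
    exact Z.star z _ ha _ p1 (by linarith)
  have hl : 0 < α1 + β1 := by linarith
  have hs0 : 0 < β1 / (α1 + β1) := div_pos hβ hl
  have hs1 : β1 / (α1 + β1) ≤ 1 := (div_le_one hl).2 (by linarith)
  have hue' : (α1 + β1) • ((1 - β1 / (α1 + β1)) • a + (β1 / (α1 + β1)) • E) = u := by
    rw [hue, smul_add, smul_smul, smul_smul]
    congr 2 <;> field_simp
    ring
  refine ⟨α1 + β1, β1 / (α1 + β1), hl, by linarith, hs0, hs1, hue'.symm ▸ hu, ?_⟩
  intro α β q1 q2 q3 q4 hV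
  rw [hue] at hmin
  simp only [hf] at hmin
  generalize β1 / (α1 + β1) = s at *
  have e : α • a + β • ((1 - s) • a + s • E) = (α + β * (1 - s)) • a + (β * s) • E := by module
  have h1 := hmin _ ⟨hV, 1 - α - β, α + β * (1 - s), β * s, by linarith,
    add_nonneg q1 (mul_nonneg q2 (by linarith)), by positivity, by ring, by rw [e]; simp⟩
  rw [e, hf, show α + β * (1 - s) + β * s = α + β by ring] at h1
  have h2 : 0 < α + β := by
    refine lt_of_le_of_ne (by linarith) fun h => V_ne_zero hV ?_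
    rw [show α = 0 by linarith, show β = 0 by linarith]; simp
  rw [le_div_iff₀ h2] at h1
  have h3 : α = 0 := by nlinarith
  apply hV.1
  have h4 := hu.2 (β / (α1 + β1)) (by positivity) ((div_lt_one hl).2 (q4 h3))
  rwa [← hue', smul_smul, div_mul_cancel₀ _ hl.ne', ← zero_add (β • _), ← zero_smul ℝ a,
    ← h3] at h4

/-- Rotate about `z` along the first wall. `w0 = t0 w`, `mv z w0 = mv y (τ g)` with `g = ± γ.2` oriented so
that `0 ≤ det2 q g`, `E = w0 + (1 - τ) g`, `det2 w0 E ≠ 0`. `V z` meets `ctri 0 w0 E` (else `vfree`, `conv` give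
`E - w0 ∈ D (mv z w0)` against `SC.ends`). Points of it are `l ((1 - s) w0 + s E)`, `0 < l ≤ 1`, `0 < s ≤ 1`;
take `w1` with minimal `s` (`finite_V_ctri`), `E' = (1 - s) w0 + s E`, `w1 = l E'`.
`K = {α w0 + β E' | α, β ≥ 0, α + β ≤ 1, α = 0 → β < l}` is convex, without visible point, so `⊆ D z`; its side
`α + β = 1, α > 0` lies in `seg γ` (`wall_prop` from `w0`). If a wall `γ'` passed through `β E'`, `0 < β < l`, it
is not parallel to `E'` (`not_parallel`); follow it in the direction of increasing `α` until `β = 0` (a wall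
point on `(0, w0)`, or `w0`) or `α + β = 1`; in the last cases `γ' = γ` by disjointness, so `α + β` is constant
along it: contradiction. `‖w1‖ ≤ max ‖w0‖ ‖E‖ ≤ ‖w‖ + 2 L`. If no wall meets `(0, w)` take `w1 = w`. -/
theorem exists_visible {F : Finset (X × P2)} (hF : Z.Disj F) {L : ℝ} (hL0 : 0 ≤ L)
    (hL : ∀ γ ∈ F, ‖γ.2‖ ≤ L) {z : X} {q w : P2}
    (hnc : ∀ γ ∈ F, z ∈ Z.seg γ → det2 q γ.2 = 0) (hw : w ∈ Z.V z) (hq : 0 < det2 q w) :
    ∃ w1 ∈ Z.V z, 0 < det2 q w1 ∧ ‖w1‖ ≤ ‖w‖ + 2 * L ∧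
      ∀ t : ℝ, 0 < t → t < 1 → Z.mv z (t • w1) ∉ Z.walls F := by
  by_cases h : ∃ t : ℝ, 0 < t ∧ t < 1 ∧ Z.mv z (t • w) ∈ Z.walls F
  swap
  · exact ⟨w, hw, hq, by linarith, fun t t0 t1 hm => h ⟨t, t0, t1, hm⟩⟩
  obtain ⟨t0, h0, h1, ⟨γ, hγ, hm⟩, hfirst⟩ := exists_first_wall hF.1 hnc hw hq h
  have hD0 : t0 • w ∈ Z.D z := hw.2 t0 h0.le h1
  have hnp := not_parallel hF.1 hnc hq h0.le hD0 hγ hm
  obtain ⟨c, c0, c1, c2, c3⟩ : ∃ c : ℝ, c ≠ 0 ∧ |c| ≤ 2 ∧ 0 ≤ c * det2 q γ.2 ∧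
      c • γ.2 ∈ Z.V (Z.mv z (t0 • w)) := by
    obtain ⟨τ, hτ, he⟩ := hm
    obtain ⟨e1, e2⟩ := (hF.1 γ hγ).ends hτ
    rw [← he] at e1 e2
    rw [abs_lt] at hτ
    rcases le_total 0 (det2 q γ.2) with hd | hd
    · exact ⟨1 - τ, by linarith, abs_le.2 ⟨by linarith, by linarith⟩,
        mul_nonneg (by linarith) hd, e1⟩
    · exact ⟨-1 - τ, by linarith, abs_le.2 ⟨by linarith, by linarith⟩,
        mul_nonneg_of_nonpos_of_nonpos (by linarith) hd, e2⟩
  obtain ⟨a, ha⟩ : ∃ a, a = t0 • w := ⟨_, rfl⟩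
  have hqa : 0 < det2 q a := by rw [ha, GW_det_smul]; positivity
  have hag : det2 a γ.2 ≠ 0 := by rw [ha, GW_det_smul']; exact mul_ne_zero h0.ne' hnp
  have hna : ‖a‖ ≤ ‖w‖ := by
    rw [ha, norm_smul, Real.norm_of_nonneg h0.le]
    exact mul_le_of_le_one_left (norm_nonneg _) h1.le
  rw [← ha] at hD0 hm c3
  have hΔ : det2 a (a + c • γ.2) ≠ 0 := by
    rw [GW_det_add, GW_det_self, zero_add, GW_det_smul]; exact mul_ne_zero c0 hag
  have hne : (Z.V z ∩ ctri 0 a (a + c • γ.2)).Nonempty := by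
    by_contra hn
    have hK := vfree (reg_of_V hw) (convex_ctri 0 a (a + c • γ.2)) (left_mem_ctri _ _ _)
      (fun u hu hV => hn ⟨u, hV, hu⟩)
    have := (Z.conv z _ (convex_ctri _ _ _) (left_mem_ctri _ _ _) hK a (mid_mem_ctri _ _ _) _
      (right_mem_ctri _ _ _)).1
    rw [add_sub_cancel_left] at this
    exact c3.1 this
  obtain ⟨l, s, l0, l1, s0, s1, hV, hfree⟩ := GW_min hΔ hD0 hne
  obtain ⟨E, hE⟩ : ∃ E, E = a + (s * c) • γ.2 := ⟨_, rfl⟩
  rw [show (1 - s) • a + s • (a + c • γ.2) = E by rw [hE]; module] at hV hfree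
  have hqE : 0 < det2 q E := by
    rw [hE, GW_det_add, GW_det_smul, mul_assoc]
    linarith [mul_nonneg s0.le c2]
  have hsc : s * c ≠ 0 := mul_ne_zero s0.ne' c0
  have haE : det2 a E ≠ 0 := by
    rw [hE, GW_det_add, GW_det_self, zero_add, GW_det_smul]; exact mul_ne_zero hsc hag
  refine ⟨l • E, hV, by rw [GW_det_smul]; positivity, ?_, ?_⟩
  · have a1 : ‖E‖ ≤ ‖w‖ + 2 * L := by
      rw [hE]
      refine (norm_add_le _ _).trans (add_le_add hna ?_)
      rw [norm_smul, Real.norm_eq_abs, abs_mul, abs_of_pos s0]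
      exact mul_le_mul (by nlinarith [abs_nonneg c]) (hL γ hγ) (norm_nonneg _) (by norm_num)
    rw [norm_smul, Real.norm_of_nonneg l0.le]
    exact (mul_le_of_le_one_left (norm_nonneg _) l1).trans a1
  rintro t t0' t1 ⟨γ', hγ', hm'⟩
  let P : ℝ → ℝ → Prop := fun α β => 0 ≤ α ∧ 0 ≤ β ∧ α + β ≤ 1 ∧ (α = 0 → β < l)
  have hP : ∀ α β α' β' s t : ℝ, 0 ≤ s → 0 ≤ t → s + t = 1 → P α β → P α' β' →
      P (s * α + t * α') (s * β + t * β') := by
    rintro α β α' β' s t hs ht hst ⟨p1, p2, p3, p4⟩ ⟨q1, q2, q3, q4⟩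
    refine ⟨by positivity, by positivity, by nlinarith, fun h => ?_⟩
    have b1 : s * α = 0 := by linarith [mul_nonneg hs p1, mul_nonneg ht q1]
    have b2 : t * α' = 0 := by linarith [mul_nonneg hs p1, mul_nonneg ht q1]
    rcases mul_eq_zero.1 b1 with b1 | b1
    · have b3 : t = 1 := by linarith
      rw [b3, one_mul] at b2
      rw [b1, b3]; linarith [q4 b2]
    · rcases mul_eq_zero.1 b2 with b2 | b2
      · have b3 : s = 1 := by linarith
        rw [b2, b3]; linarith [p4 b1]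
      · have := Convex.combo_le_max β β' hs ht hst
        simp only [smul_eq_mul] at this
        exact this.trans_lt (max_lt (p4 b1) (q4 b2))
  have hP0 : P 0 0 := ⟨le_rfl, le_rfl, by norm_num, fun _ => l0⟩
  have hKD : ∀ α β, P α β → α • a + β • E ∈ Z.D z := fun α β h =>
    vfree (reg_of_V hw) (GW_convex a E P hP) ⟨0, 0, hP0, by simp⟩ (by
      rintro _ ⟨α, β, h, rfl⟩
      exact hfree α β h.1 h.2.1 h.2.2.1 h.2.2.2) ⟨α, β, h, rfl⟩
  rw [smul_smul] at hm'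
  have b0 : 0 < t * l := by positivity
  have b1 : t * l < l := by nlinarith
  have hPb : P 0 (t * l) := ⟨le_rfl, b0.le, by linarith, fun _ => b1⟩
  have hnp' := not_parallel hF.1 hnc hqE b0.le (by simpa using hKD _ _ hPb) hγ' hm'
  obtain ⟨α', β', hg⟩ := exists_coords haE γ'.2
  have hα' : α' ≠ 0 := by
    rintro rfl
    apply hnp'
    rw [hg, GW_det_comb, GW_det_self]; ring
  have hu : 0 < α' * α' := mul_self_pos.2 hα'
  obtain ⟨r, r0, r1, r2, r3⟩ := GW_exit (u := α' * β') (v := -(α' * α' + α' * β')) b0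
    (show 0 < 1 - t * l by linarith) (by
      by_contra hn
      push Not at hn
      linarith [hn.1, hn.2])
  have r4 : 0 < r * (α' * α') := by positivity
  have hP2 : P (r * (α' * α')) (t * l + r * (α' * β')) :=
    ⟨r4.le, r1, by linarith, fun h => absurd h r4.ne'⟩
  have key := GW_move (hF.1 γ' hγ') P hP hP0 hKD hPb hP2 (t := r * α') (by rw [hg]; module)
    (by simpa using hm')
  rcases r2.eq_or_lt with r5 | r5
  · have key2 := GW_move (hF.1 γ hγ) P hP hP0 hKD (α := 1) (β := 0)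
      ⟨zero_le_one, le_rfl, by norm_num, fun h => absurd h one_ne_zero⟩ hP2
      (t := (t * l + r * (α' * β')) * (s * c)) (by
        rw [show r * (α' * α') = 1 - (t * l + r * (α' * β')) by linarith, hE]; module)
      (by simpa using hm)
    have hγγ : γ' = γ := by
      by_contra hne'
      exact Set.disjoint_left.1 (hF.2 γ' hγ' γ hγ hne') key key2
    rw [hγγ] at hg
    have e1 : (s * c * α') • a + (s * c * β') • E = (-1 : ℝ) • a + (1 : ℝ) • E := by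
      have : (s * c) • γ.2 = (-1 : ℝ) • a + (1 : ℝ) • E := by rw [hE]; module
      rw [← this, hg]; module
    obtain ⟨e2, e3⟩ := coords_unique haE e1
    have e4 : α' + β' = 0 := by
      have : s * c * (α' + β') = 0 := by linarith
      exact (mul_eq_zero.1 this).resolve_left hsc
    have e5 : α' * α' + α' * β' = 0 := by rw [← mul_add, e4, mul_zero]
    rw [e5] at r5
    linarith
  · have r6 := r3.resolve_right r5.ne'
    rw [r6, zero_smul, add_zero, ha, smul_smul] at key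
    refine hfirst _ (by positivity) ?_ ⟨γ', hγ', key⟩
    have : r * (α' * α') < 1 := by linarith
    nlinarith

end Flat

end Pool.Agent.MP_b29402_an

end
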