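import Pool.Agent.MP_b29402_an.Mg.Pl2

-- part MP_b29402_an.I1
section

/-! Straight paths: restriction, uniqueness, concatenation, reparametrisation. -/

open MeasureTheory Set Filter Topology ProbabilityTheory
open scoped ComplexConjugate ENNReal

namespace Pool.Agent.MP_b29402_an

theorem io_zero (sc : ℝ) : io sc 0 = 0 := by simp [io]

theorem io_add (sc : ℝ) (a b : P2) : io sc (a + b) = io sc a + io sc b := by
  simp only [io, Prod.fst_add, Prod.snd_add, Complex.ofReal_add]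
  ring

theorem io_sub (sc : ℝ) (a b : P2) : io sc (a - b) = io sc a - io sc b := by
  simp only [io, Prod.fst_sub, Prod.snd_sub, Complex.ofReal_sub]
  ring

theorem io_smul (sc t : ℝ) (a : P2) : io sc (t • a) = (t : ℂ) * io sc a := by
  simp only [io, Prod.smul_fst, Prod.smul_snd, smul_eq_mul, Complex.ofReal_mul]
  ring

theorem io_continuous (sc : ℝ) : Continuous (io sc) := by
  unfold io
  fun_prop

theorem norm_io_le {sc : ℝ} (hsc : 0 < sc) (a : P2) : ‖io sc a‖ ≤ 2 / sc * ‖a‖ := by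
  have h1 := Complex.norm_le_abs_re_add_abs_im ((a.1 : ℂ) + (a.2 : ℂ) * Complex.I)
  have h2 : |a.1| ≤ ‖a‖ := norm_fst_le a
  have h3 : |a.2| ≤ ‖a‖ := norm_snd_le a
  simp only [Complex.add_re, Complex.ofReal_re, Complex.mul_re, Complex.I_re, mul_zero,
    Complex.ofReal_im, Complex.I_im, sub_zero, add_zero, Complex.add_im, Complex.mul_im, mul_one,
    zero_add] at h1
  rw [io, norm_div, Complex.norm_real, Real.norm_of_nonneg hsc.le, div_mul_eq_mul_div]
  exact div_le_div_of_nonneg_right (by linarith) hsc.le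

theorem norm_le_io {sc : ℝ} (hsc : 0 < sc) (a : P2) : ‖a‖ ≤ sc * ‖io sc a‖ := by
  have h1 := Complex.abs_re_le_norm ((a.1 : ℂ) + (a.2 : ℂ) * Complex.I)
  have h2 := Complex.abs_im_le_norm ((a.1 : ℂ) + (a.2 : ℂ) * Complex.I)
  simp only [Complex.add_re, Complex.ofReal_re, Complex.mul_re, Complex.I_re, mul_zero,
    Complex.ofReal_im, Complex.I_im, sub_zero, add_zero, Complex.add_im, Complex.mul_im, mul_one,
    zero_add] at h1 h2
  rw [io, norm_div, Complex.norm_real, Real.norm_of_nonneg hsc.le, mul_div_cancel₀ _ hsc.ne',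
    Prod.norm_def]
  exact max_le h1 h2

theorem io_bijective {sc : ℝ} (hsc : 0 < sc) : Function.Bijective (io sc) := by
  refine ⟨fun a b h => ?_, fun z => ⟨(sc * z.re, sc * z.im), ?_⟩⟩
  · have h1 := norm_le_io hsc (a - b)
    rw [io_sub, h, sub_self, norm_zero, mul_zero] at h1
    exact sub_eq_zero.1 (norm_le_zero_iff.1 h1)
  · have h1 : (sc : ℂ) ≠ 0 := Complex.ofReal_ne_zero.2 hsc.ne'
    simp only [io, Complex.ofReal_mul]
    rw [mul_assoc, ← mul_add, Complex.re_add_im, mul_div_cancel_left₀ _ h1]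

theorem io_ev {sc : ℝ} (hsc : 0 < sc) (θ : ℝ) : io sc (sc • ev θ) = dir θ := by
  have h1 : (sc : ℂ) ≠ 0 := Complex.ofReal_ne_zero.2 hsc.ne'
  rw [io_smul, io, mul_div_cancel₀ _ h1, dir, Complex.exp_mul_I]
  simp only [ev]
  push_cast
  linear_combination (-Complex.sin (2 * Real.pi * θ)) * Complex.I_mul_I

theorem norm_dir (θ : ℝ) : ‖dir θ‖ = 1 := by
  have h : (2 * Real.pi * θ : ℂ) = ((2 * Real.pi * θ : ℝ) : ℂ) := by push_cast; rfl
  rw [dir, norm_mul, Complex.norm_I, h, Complex.norm_exp_ofReal_mul_I, one_mul]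

namespace TransSurf

variable {X : Type*} [TopologicalSpace X] {S : TransSurf X} {v : ℂ} {γ γ' : ℝ → X} {I : Set ℝ}

theorem Straight.mono (h : S.Straight v γ I) {I' : Set ℝ} (hI : I' ⊆ I) : S.Straight v γ I' := fun t ht => by
  obtain ⟨e, he, h1⟩ := h t (hI ht)
  exact ⟨e, he, h1.filter_mono (nhdsWithin_mono _ hI)⟩

theorem Straight.congr (h : S.Straight v γ I) (he : EqOn γ' γ I) : S.Straight v γ' I := fun t ht => by
  obtain ⟨e, hm, h1⟩ := h t ht
  refine ⟨e, hm, ?_⟩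
  filter_upwards [h1, self_mem_nhdsWithin] with s hs hsI
  rwa [he hsI, he ht]

theorem Straight.not_sing (h : S.Straight v γ I) {t : ℝ} (ht : t ∈ I) : γ t ∉ S.sing := by
  obtain ⟨e, hm, h1⟩ := h t ht
  exact (S.cover _).2 ⟨e, hm, (h1.self_of_nhdsWithin ht).1⟩

/-- locally `γ s = e.symm (e (γ t) + (s - t) v)` -/
theorem Straight.continuousOn (h : S.Straight v γ I) : ContinuousOn γ I := fun t ht => by
  obtain ⟨e, -, h1⟩ := h t ht
  have h0 := (h1.self_of_nhdsWithin ht).1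
  have h2 : ContinuousAt (fun s : ℝ => e.symm (e (γ t) + ((s - t : ℝ) : ℂ) * v)) t :=
    ContinuousAt.comp_of_eq (f := fun s : ℝ => e (γ t) + ((s - t : ℝ) : ℂ) * v)
      (e.continuousAt_symm (e.map_source h0)) (by fun_prop) (by simp)
  refine h2.continuousWithinAt.congr_of_eventuallyEq ?_ (by simp [e.left_inv h0])
  filter_upwards [h1] with s hs
  rw [← hs.2, e.left_inv hs.1]

/-- the defining property holds in every chart around `γ t` (`trans`, continuity) -/
theorem Straight.chart (h : S.Straight v γ I) {t : ℝ} (ht : t ∈ I) {e : OpenPartialHomeomorph X ℂ}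
    (he : e ∈ S.atlas) (hs : γ t ∈ e.source) :
    ∀ᶠ s in 𝓝[I] t, γ s ∈ e.source ∧ e (γ s) = e (γ t) + ((s - t : ℝ) : ℂ) * v := by
  obtain ⟨e0, h0, h1⟩ := h t ht
  obtain ⟨c, hc⟩ := S.trans e0 h0 e he (γ t) ⟨(h1.self_of_nhdsWithin ht).1, hs⟩
  have h2 : Tendsto γ (𝓝[I] t) (𝓝 (γ t)) := h.continuousOn t ht
  filter_upwards [h1, h2.eventually hc, h2.eventually (e.open_source.mem_nhds hs)] with s a1 a2 a3
  refine ⟨a3, ?_⟩
  rw [a2, a1.2, hc.self_of_nhds]
  ring

/-- the same for a cone chart -/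
theorem Straight.cone (h : S.Straight v γ I) {t : ℝ} (ht : t ∈ I) {z : X} {k : ℕ}
    {φ : OpenPartialHomeomorph X ℂ} (hc : S.ConeAt z k φ) (hs : γ t ∈ φ.source) (hz : γ t ≠ z) :
    ∀ᶠ s in 𝓝[I] t, γ s ∈ φ.source ∧ φ (γ s) ^ k = φ (γ t) ^ k + ((s - t : ℝ) : ℂ) * v := by
  obtain ⟨e, he, h0, c, h1⟩ := hc.2.2.2 (γ t) hs hz
  have h2 : Tendsto γ (𝓝[I] t) (𝓝 (γ t)) := h.continuousOn t ht
  filter_upwards [h.chart ht he h0, h2.eventually h1, h2.eventually (φ.open_source.mem_nhds hs)]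
    with s a1 a2 a3
  refine ⟨a3, ?_⟩
  have a4 := a1.2
  rw [a2, h1.self_of_nhds] at a4
  linear_combination a4

/-- the set of times where they agree is relatively open (`Straight.chart`, injectivity of the chart) and
relatively closed (continuity, Hausdorff) -/
theorem Straight.unique [T2Space X] (h : S.Straight v γ I) (h' : S.Straight v γ' I)
    (hI : IsPreconnected I) {t0 : ℝ} (ht : t0 ∈ I) (he : γ t0 = γ' t0) : EqOn γ γ' I := by
  have := Subtype.preconnectedSpace hI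
  have h1 : IsClopen {t : I | γ t = γ' t} := by
    refine ⟨isClosed_eq h.continuousOn.domRestrict h'.continuousOn.domRestrict,
      isOpen_iff_mem_nhds.2 fun t htt => ?_⟩
    have h2 : γ t = γ' t := htt
    obtain ⟨e, hm, h3⟩ := h t t.2
    have h4 := h'.chart t.2 hm (h2 ▸ (h3.self_of_nhdsWithin t.2).1)
    refine (eventually_nhds_subtype_iff I t fun s => γ s = γ' s).2 ?_
    filter_upwards [h3, h4] with s a1 a2
    exact e.injOn a1.1 a2.1 (by rw [a1.2, a2.2, h2])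
  intro t htI
  have h5 : (⟨t, htI⟩ : I) ∈ {t : I | γ t = γ' t} := by
    rw [h1.eq_univ ⟨⟨t0, ht⟩, he⟩]
    exact mem_univ _
  exact h5

theorem I1_union {A B : Set ℝ} (hB : IsClosed B) (h : S.Straight v γ A) (h' : S.Straight v γ B)
    {t : ℝ} (ht : t ∈ A) : ∃ e ∈ S.atlas, ∀ᶠ s in 𝓝[A ∪ B] t,
      γ s ∈ e.source ∧ e (γ s) = e (γ t) + ((s - t : ℝ) : ℂ) * v := by
  obtain ⟨e, hm, h1⟩ := h t ht
  refine ⟨e, hm, ?_⟩
  rw [nhdsWithin_union, eventually_sup]
  refine ⟨h1, ?_⟩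
  by_cases htB : t ∈ B
  · exact h'.chart htB hm (h1.self_of_nhdsWithin ht).1
  · filter_upwards [mem_nhdsWithin_of_mem_nhds (hB.isOpen_compl.mem_nhds htB), self_mem_nhdsWithin]
      with s a1 a2
    exact absurd a2 a1

/-- `nhdsWithin_union`, `Straight.chart` at `b` -/
theorem Straight.union {a b c : ℝ} (hab : a ≤ b) (hbc : b ≤ c) (h : S.Straight v γ (Icc a b))
    (h' : S.Straight v γ (Icc b c)) : S.Straight v γ (Icc a c) := by
  rw [← Icc_union_Icc_eq_Icc hab hbc]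
  rintro t (ht | ht)
  · exact I1_union isClosed_Icc h h' ht
  · rw [union_comm]
    exact I1_union isClosed_Icc h' h ht

theorem Straight.affine (h : S.Straight v γ I) (a b : ℝ) {J : Set ℝ}
    (hJ : ∀ s ∈ J, a + b * s ∈ I) : S.Straight ((b : ℂ) * v) (fun s => γ (a + b * s)) J := fun t ht => by
  obtain ⟨e, hm, h1⟩ := h _ (hJ t ht)
  have h2 : Tendsto (fun s : ℝ => a + b * s) (𝓝[J] t) (𝓝[I] (a + b * t)) :=
    ContinuousWithinAt.tendsto_nhdsWithin (f := fun s : ℝ => a + b * s) (by fun_prop) hJ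
  refine ⟨e, hm, ?_⟩
  filter_upwards [h2.eventually h1] with s hs
  refine ⟨hs.1, ?_⟩
  rw [hs.2]
  push_cast
  ring

theorem straight_chart {e : OpenPartialHomeomorph X ℂ} (he : e ∈ S.atlas) (z : ℂ)
    (hI : ∀ t ∈ I, z + (t : ℂ) * v ∈ e.target) :
    S.Straight v (fun t => e.symm (z + (t : ℂ) * v)) I := fun t ht => by
  refine ⟨e, he, ?_⟩
  filter_upwards [self_mem_nhdsWithin] with s hs
  refine ⟨e.map_target (hI s hs), ?_⟩
  rw [e.right_inv (hI s hs), e.right_inv (hI t ht)]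
  push_cast
  ring

/-- at a regular point use the translated chart with `k = 1`
(`e.transHomeomorph (Homeomorph.addRight (-e z))`) -/
theorem exists_coneAt (S : TransSurf X) (z : X) : ∃ k φ, S.ConeAt z k φ := by
  by_cases hz : z ∈ S.sing
  · exact S.cone z hz
  · obtain ⟨e, he, h0⟩ := (S.cover z).1 hz
    refine ⟨1, e.transHomeomorph (Homeomorph.addRight (-e z)), le_rfl, h0, by simp,
      fun x hx _ => ⟨e, he, hx, e z, Eventually.of_forall fun y => by simp⟩⟩

variable {sc : ℝ}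

theorem zero_mem_Dom {x : X} : (0 : P2) ∈ S.Dom sc x ↔ x ∉ S.sing := by
  constructor
  · rintro ⟨γ, h0, h⟩
    exact h0 ▸ h.not_sing (left_mem_Icc.2 zero_le_one)
  · intro hx
    obtain ⟨e, he, h0⟩ := (S.cover x).1 hx
    exact ⟨fun _ => x, rfl, fun t _ => ⟨e, he, Eventually.of_forall fun s =>
      ⟨h0, by rw [io_zero, mul_zero, add_zero]⟩⟩⟩

theorem mov_spec [T2Space X] {x : X} {w : P2} (h0 : γ 0 = x)
    (h : S.Straight (io sc w) γ (Icc 0 1)) {t : ℝ} (ht0 : 0 ≤ t) (ht1 : t ≤ 1) :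
    t • w ∈ S.Dom sc x ∧ S.mov sc x (t • w) = γ t := by
  have h1 : S.Straight (io sc (t • w)) (fun s => γ (0 + t * s)) (Icc 0 1) := by
    rw [io_smul]
    exact h.affine 0 t fun s hs => ⟨by nlinarith [hs.1], by nlinarith [hs.1, hs.2]⟩
  have h2 : γ (0 + t * 0) = x := by rw [mul_zero, add_zero, h0]
  have h3 : t • w ∈ S.Dom sc x := ⟨_, h2, h1⟩
  refine ⟨h3, ?_⟩
  rw [mov, dif_pos h3, h3.choose_spec.2.unique h1 isPreconnected_Icc (left_mem_Icc.2 zero_le_one)
    (h3.choose_spec.1.trans h2.symm) (right_mem_Icc.2 zero_le_one)]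
  simp

theorem mov_straight [T2Space X] {x : X} {w : P2} (h : w ∈ S.Dom sc x) :
    S.Straight (io sc w) (fun t => S.mov sc x (t • w)) (Icc 0 1) := by
  obtain ⟨γ, h0, h1⟩ := h
  exact h1.congr fun t ht => (mov_spec h0 h1 ht.1 ht.2).2

theorem mov_zero [T2Space X] (x : X) : S.mov sc x 0 = x := by
  by_cases h : (0 : P2) ∈ S.Dom sc x
  · obtain ⟨γ, h0, h1⟩ := h
    have h2 := (mov_spec h0 h1 le_rfl zero_le_one).2
    rwa [smul_zero, h0] at h2
  · rw [mov, dif_neg h]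

theorem mov_not_sing [T2Space X] {x : X} {w : P2} (h : w ∈ S.Dom sc x) :
    S.mov sc x w ∉ S.sing := by
  have h1 := (mov_straight h).not_sing (right_mem_Icc.2 zero_le_one)
  rwa [one_smul] at h1

/-- inside a disc of a chart -/
theorem mov_chart [T2Space X] {e : OpenPartialHomeomorph X ℂ} (he : e ∈ S.atlas) {x : X}
    (hx : x ∈ e.source) {z : ℂ} {r : ℝ} (hr : Metric.ball z r ⊆ e.target)
    (h1 : e x ∈ Metric.ball z r) {w : P2} (h2 : e x + io sc w ∈ Metric.ball z r) :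
    w ∈ S.Dom sc x ∧ S.mov sc x w = e.symm (e x + io sc w) := by
  have h3 : S.Straight (io sc w) (fun t => e.symm (e x + (t : ℂ) * io sc w)) (Icc 0 1) :=
    straight_chart he _ fun t ht => hr (by
      have h4 := (convex_ball z r).add_smul_mem h1 h2 ht
      rwa [Complex.real_smul] at h4)
  have h5 := mov_spec (x := x) (by simp [e.left_inv hx]) h3 zero_le_one le_rfl
  simpa using h5

end TransSurf

end Pool.Agent.MP_b29402_an

end

-- part MP_b29402_an.I2
section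

/-! The exponential map is locally a chart; openness and convexity properties. -/

open MeasureTheory Set Filter Topology ProbabilityTheory
open scoped ComplexConjugate ENNReal

namespace Pool.Agent.MP_b29402_an

namespace TransSurf

variable {X : Type*} [TopologicalSpace X] [T2Space X] {S : TransSurf X} {sc : ℝ}

/-- the fan property up to time `t`, read in the chart `e` -/
def I2_Q (S : TransSurf X) (v : ℂ) (γ : ℝ → X) (t : ℝ) (e : OpenPartialHomeomorph X ℂ) : Prop :=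
  ∀ᶠ b in 𝓝 (0 : ℂ), ∃ γb : ℝ → X, γb 0 = γ 0 ∧ S.Straight (v + b) γb (Icc 0 t) ∧
    γb t ∈ e.source ∧ e (γb t) = e (γ t) + (t : ℂ) * b

omit [T2Space X] in
theorem I2_chg {v : ℂ} {γ : ℝ → X} {t : ℝ} {e e' : OpenPartialHomeomorph X ℂ} (he : e ∈ S.atlas)
    (he' : e' ∈ S.atlas) (hs : γ t ∈ e.source) (hs' : γ t ∈ e'.source) (h : S.I2_Q v γ t e) :
    S.I2_Q v γ t e' := by
  obtain ⟨c, hc⟩ := S.trans e he e' he' (γ t) ⟨hs, hs'⟩
  have h1 : ∀ᶠ y in 𝓝 (γ t), y ∈ e'.source ∧ e' y = e y + c :=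
    (e'.open_source.eventually_mem hs').and hc
  have h2 : Tendsto (fun b : ℂ => e (γ t) + (t : ℂ) * b) (𝓝 0) (𝓝 (e (γ t))) := by
    have : Continuous fun b : ℂ => e (γ t) + (t : ℂ) * b := by fun_prop
    simpa using this.tendsto 0
  have h3 : Tendsto (fun b : ℂ => e.symm (e (γ t) + (t : ℂ) * b)) (𝓝 0) (𝓝 (γ t)) := by
    have h4 := (e.continuousAt_symm (e.map_source hs)).tendsto.comp h2
    rwa [e.left_inv hs] at h4
  have h5 := hc.self_of_nhds
  filter_upwards [h, h3.eventually h1] with b ⟨γb, k0, k1, k2, k3⟩ k4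
  rw [← k3, e.left_inv k2] at k4
  refine ⟨γb, k0, k1, k4.1, ?_⟩
  rw [k4.2, k3, h5]
  ring

theorem I2_step {v : ℂ} {γ : ℝ → X} (h : S.Straight v γ (Icc 0 1)) {t0 : ℝ}
    (ht0 : t0 ∈ Icc (0 : ℝ) 1) :
    ∃ e ∈ S.atlas, ∃ η : ℝ, 0 < η ∧ (∀ t ∈ Icc (0 : ℝ) 1, |t - t0| < η → γ t ∈ e.source) ∧
      ∀ t ∈ Icc (0 : ℝ) 1, ∀ t' ∈ Icc (0 : ℝ) 1, |t - t0| < η → |t' - t0| < η →
        S.I2_Q v γ t e → S.I2_Q v γ t' e := by
  obtain ⟨e, he, hev⟩ := h t0 ht0
  obtain ⟨η1, hη1, hb⟩ := Metric.mem_nhdsWithin_iff.1 hev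
  have hb' : ∀ s ∈ Icc (0 : ℝ) 1, |s - t0| < η1 →
      γ s ∈ e.source ∧ e (γ s) = e (γ t0) + ((s - t0 : ℝ) : ℂ) * v := fun s hs hl =>
    hb ⟨by rwa [Metric.mem_ball, Real.dist_eq], hs⟩
  have hs0 : γ t0 ∈ e.source := (hb' t0 ht0 (by simpa using hη1)).1
  obtain ⟨r, hr, hball⟩ := Metric.isOpen_iff.1 e.open_target _ (e.map_source hs0)
  have hv : 0 < ‖v‖ + 1 := by positivity
  refine ⟨e, he, min η1 (r / 2 / (‖v‖ + 1)), lt_min hη1 (by positivity),
    fun t ht hl => (hb' t ht (hl.trans_le (min_le_left _ _))).1, ?_⟩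
  intro t ht t' ht' hl hl' hQ
  set z0 : ℂ := e (γ t0) - (t0 : ℂ) * v with hz0
  have hγ : ∀ s ∈ Icc (0 : ℝ) 1, |s - t0| < min η1 (r / 2 / (‖v‖ + 1)) →
      e (γ s) = z0 + (s : ℂ) * v := by
    intro s hs hl
    rw [(hb' s hs (hl.trans_le (min_le_left _ _))).2, hz0]
    push_cast
    ring
  have hsmall : ∀ᶠ b in 𝓝 (0 : ℂ), ‖b‖ < r / 2 := by
    filter_upwards [Metric.ball_mem_nhds (0 : ℂ) (half_pos hr)] with b hb
    simpa using hb
  filter_upwards [hQ, hsmall] with b ⟨γb, k0, k1, k2, k3⟩ hbs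
  have htar : ∀ s ∈ uIcc t t', z0 + (s : ℂ) * (v + b) ∈ e.target := by
    intro s hs
    have hs1 : s ∈ Icc (0 : ℝ) 1 := uIcc_subset_Icc ht ht' hs
    have hs2 : |s - t0| < r / 2 / (‖v‖ + 1) := by
      have a1 := abs_lt.1 (hl.trans_le (min_le_right _ _))
      have a2 := abs_lt.1 (hl'.trans_le (min_le_right _ _))
      rcases mem_uIcc.1 hs with a3 | a3 <;> exact abs_lt.2 ⟨by linarith, by linarith⟩
    refine hball ?_
    rw [Metric.mem_ball, dist_eq_norm]
    have e1 : z0 + (s : ℂ) * (v + b) - e (γ t0) = ((s - t0 : ℝ) : ℂ) * v + (s : ℂ) * b := by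
      rw [hz0]
      push_cast
      ring
    rw [e1]
    have e2 : ‖((s - t0 : ℝ) : ℂ) * v‖ ≤ r / 2 := by
      rw [norm_mul, Complex.norm_real, Real.norm_eq_abs]
      rw [lt_div_iff₀ hv] at hs2
      nlinarith [abs_nonneg (s - t0)]
    have e3 : ‖(s : ℂ) * b‖ ≤ ‖b‖ := by
      rw [norm_mul, Complex.norm_real, Real.norm_eq_abs, abs_of_nonneg hs1.1]
      exact mul_le_of_le_one_left (norm_nonneg _) hs1.2
    linarith [norm_add_le (((s - t0 : ℝ) : ℂ) * v) ((s : ℂ) * b)]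
  have hline := straight_chart (S := S) he z0 htar
  have hat : e.symm (z0 + (t : ℂ) * (v + b)) = γb t := by
    have : z0 + (t : ℂ) * (v + b) = e (γb t) := by
      rw [k3, hγ t ht hl]
      ring
    rw [this, e.left_inv k2]
  have hend : ∀ x : X, x = e.symm (z0 + (t' : ℂ) * (v + b)) →
      x ∈ e.source ∧ e x = e (γ t') + (t' : ℂ) * b := by
    rintro x rfl
    refine ⟨e.map_target (htar t' right_mem_uIcc), ?_⟩
    rw [e.right_inv (htar t' right_mem_uIcc), hγ t' ht' hl']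
    ring
  rcases le_total t t' with hle | hle
  · rw [uIcc_of_le hle] at hline
    have hE : EqOn (fun s : ℝ => if s ≤ t then γb s else e.symm (z0 + (s : ℂ) * (v + b)))
        (fun s : ℝ => e.symm (z0 + (s : ℂ) * (v + b))) (Icc t t') := by
      intro s hs
      by_cases hst : s ≤ t
      · have : s = t := le_antisymm hst hs.1
        simp only [this, le_refl, if_true, hat]
      · simp only [hst, if_false]
    refine ⟨fun s : ℝ => if s ≤ t then γb s else e.symm (z0 + (s : ℂ) * (v + b)), ?_, ?_,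
      hend _ (hE ⟨hle, le_rfl⟩)⟩
    · simp only [ht.1, if_true, k0]
    · refine Straight.union ht.1 hle (k1.congr fun s hs => ?_) (hline.congr hE)
      simp only [hs.2, if_true]
  · rw [uIcc_of_ge hle] at hline
    have hE := (k1.mono (Icc_subset_Icc_left ht'.1)).unique hline isPreconnected_Icc
      (right_mem_Icc.2 hle) hat.symm
    exact ⟨γb, k0, k1.mono (Icc_subset_Icc_right hle), hend _ (hE (left_mem_Icc.2 hle))⟩

/-- Fan lemma. Let `Q t`: for every chart `e ∈ atlas` with `γ t ∈ e.source`, for all `b` near `0` there is `γb` with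
`γb 0 = γ 0`, `Straight (v + b) γb (Icc 0 t)`, `γb t ∈ e.source`, `e (γb t) = e (γ t) + t b` (if it holds for one chart it
holds for all, by `trans`). `Q 0` is clear. Let `t* ∈ [0,1]`, `e` a chart at `γ t*`, `ball (e (γ t*)) r ⊆ e.target`,
`η` such that `Straight.chart` holds for `|s - t*| < η` and `η ‖v‖ < r / 4`. If `Q t` with `|t - t*| < η` then `Q t'` for
`t ≤ t' < t* + η`, `t' ≤ 1`: extend `γb` after `t` by `e.symm (e (γb t) + (s - t) (v + b))` (`straight_chart`,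
`Straight.congr`, `Straight.union`). Conclude with `sSup {t ∈ [0,1] | ∀ s ∈ [0,t], Q s}` or
`IsClosed.Icc_subset_of_forall_exists_gt` or the Lebesgue number lemma. -/
theorem fan {v : ℂ} {γ : ℝ → X} (h : S.Straight v γ (Icc 0 1)) {e : OpenPartialHomeomorph X ℂ}
    (he : e ∈ S.atlas) (hs : γ 1 ∈ e.source) :
    ∀ᶠ b in 𝓝 (0 : ℂ), ∃ γb : ℝ → X, γb 0 = γ 0 ∧ S.Straight (v + b) γb (Icc 0 1) ∧
      γb 1 ∈ e.source ∧ e (γb 1) = e (γ 1) + b := by
  let Q : ℝ → Prop := fun t => ∀ e ∈ S.atlas, γ t ∈ e.source → S.I2_Q v γ t e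
  have h0 : Q 0 := by
    intro e0 he0 hs0
    refine Eventually.of_forall fun b => ⟨γ, rfl, ?_, hs0, by simp⟩
    intro t ht
    have ht0 : t = 0 := le_antisymm ht.2 ht.1
    refine ⟨e0, he0, eventually_nhdsWithin_of_forall fun s hs => ?_⟩
    have hs1 : s = 0 := le_antisymm hs.2 hs.1
    rw [ht0, hs1]
    exact ⟨hs0, by simp⟩
  have h1 : Q 0 → Q 1 := by
    refine (isPreconnected_Icc (a := (0 : ℝ)) (b := 1)).induction₂' (fun s t => Q s → Q t) ?_
      (fun _ _ _ _ _ _ a b c => b (a c)) (left_mem_Icc.2 zero_le_one) (right_mem_Icc.2 zero_le_one)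
    intro t0 ht0
    obtain ⟨e0, he0, η, hη, k1, k2⟩ := I2_step h ht0
    have k3 : ∀ t ∈ Icc (0 : ℝ) 1, ∀ t' ∈ Icc (0 : ℝ) 1, |t - t0| < η → |t' - t0| < η →
        Q t → Q t' := fun t ht t' ht' hl hl' hQ e' he' hs' =>
      I2_chg he0 he' (k1 t' ht' hl') hs' (k2 t ht t' ht' hl hl' (hQ e0 he0 (k1 t ht hl)))
    have k4 : |t0 - t0| < η := by simpa using hη
    filter_upwards [self_mem_nhdsWithin,
      mem_nhdsWithin_of_mem_nhds (Metric.ball_mem_nhds t0 hη)] with t ht hl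
    rw [Metric.mem_ball, Real.dist_eq] at hl
    exact ⟨k3 t0 ht0 t ht k4 hl, k3 t ht t0 ht0 hl k4⟩
  have h2 := h1 h0 e he hs
  unfold I2_Q at h2
  simpa using h2

theorem mov_local {x : X} {w : P2} (h : w ∈ S.Dom sc x) {e : OpenPartialHomeomorph X ℂ}
    (he : e ∈ S.atlas) (hs : S.mov sc x w ∈ e.source) :
    ∀ᶠ w' in 𝓝 w, w' ∈ S.Dom sc x ∧ S.mov sc x w' ∈ e.source ∧
      e (S.mov sc x w') = e (S.mov sc x w) + io sc (w' - w) := by
  obtain ⟨γ, h0, hγ⟩ := h
  have h1 := (mov_spec h0 hγ zero_le_one le_rfl).2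
  rw [one_smul] at h1
  rw [h1] at hs ⊢
  have h2 : Tendsto (fun w' : P2 => io sc (w' - w)) (𝓝 w) (𝓝 0) := by
    have : Continuous fun w' : P2 => io sc (w' - w) :=
      (io_continuous sc).comp (continuous_id.sub continuous_const)
    have h3 := this.tendsto w
    rwa [sub_self, io_zero] at h3
  filter_upwards [h2.eventually (fan hγ he hs)] with w' ⟨γb, k0, k1, k2, k3⟩
  rw [← io_add, add_sub_cancel] at k1
  have h4 := mov_spec (k0.trans h0) k1 zero_le_one le_rfl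
  rw [one_smul] at h4
  rw [h4.2]
  exact ⟨h4.1, k2, k3⟩

theorem I2_chart {x : X} {w : P2} (h : w ∈ S.Dom sc x) :
    ∃ e ∈ S.atlas, S.mov sc x w ∈ e.source := (S.cover _).1 (mov_not_sing h)

theorem I2_line {x : X} {p d : P2} {I : Set ℝ} (h : ∀ s ∈ I, p + s • d ∈ S.Dom sc x) :
    S.Straight (io sc d) (fun s => S.mov sc x (p + s • d)) I := by
  intro t ht
  obtain ⟨e, he, hs⟩ := I2_chart (h t ht)
  refine ⟨e, he, eventually_nhdsWithin_of_eventually_nhds ?_⟩
  have h1 : Continuous fun s : ℝ => p + s • d := by fun_prop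
  filter_upwards [(h1.tendsto t).eventually (mov_local (h t ht) he hs)] with s ⟨_, k2, k3⟩
  refine ⟨k2, ?_⟩
  rw [k3, add_sub_add_left_eq_sub, ← sub_smul, io_smul]

theorem isOpen_Dom (x : X) : IsOpen (S.Dom sc x) := by
  rw [isOpen_iff_mem_nhds]
  intro w hw
  obtain ⟨e, he, hs⟩ := I2_chart hw
  exact (mov_local hw he hs).mono fun _ k => k.1

theorem star_Dom (x : X) {v : P2} (hv : v ∈ S.Dom sc x) {t : ℝ} (h0 : 0 ≤ t) (h1 : t ≤ 1) :
    t • v ∈ S.Dom sc x := by
  obtain ⟨γ, k0, k1⟩ := hv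
  exact (mov_spec k0 k1 h0 h1).1

/-- `t ↦ mov x (a + t • (b - a))` is straight with velocity `io (b - a)` by `mov_local`; `mov_spec` -/
theorem conv_Dom (x : X) (K : Set P2) (hK : Convex ℝ K) (hD : K ⊆ S.Dom sc x) {a b : P2}
    (ha : a ∈ K) (hb : b ∈ K) :
    b - a ∈ S.Dom sc (S.mov sc x a) ∧ S.mov sc (S.mov sc x a) (b - a) = S.mov sc x b := by
  have h1 : S.Straight (io sc (b - a)) (fun s => S.mov sc x (a + s • (b - a))) (Icc 0 1) :=
    I2_line fun s hs => hD (hK.add_smul_sub_mem ha hb hs)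
  have h2 := mov_spec (x := S.mov sc x a) (by simp) h1 zero_le_one le_rfl
  simpa using h2

theorem continuousOn_mov (x : X) : ContinuousOn (S.mov sc x) (S.Dom sc x) := by
  intro w hw
  obtain ⟨e, he, hs⟩ := I2_chart hw
  refine ContinuousAt.continuousWithinAt ?_
  have h1 : Continuous fun w' : P2 => e (S.mov sc x w) + io sc (w' - w) :=
    continuous_const.add ((io_continuous sc).comp (continuous_id.sub continuous_const))
  have h2 : ContinuousAt (fun w' : P2 => e.symm (e (S.mov sc x w) + io sc (w' - w))) w := by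
    refine ContinuousAt.comp (g := e.symm) ?_ h1.continuousAt
    rw [sub_self, io_zero, add_zero]
    exact e.continuousAt_symm (e.map_source hs)
  refine h2.congr ?_
  filter_upwards [mov_local hw he hs] with w' ⟨_, k2, k3⟩
  rw [← k3, e.left_inv k2]

theorem back_Dom {x : X} {v : P2} (h : v ∈ S.Dom sc x) :
    -v ∈ S.Dom sc (S.mov sc x v) ∧ S.mov sc (S.mov sc x v) (-v) = x := by
  have h1 : S.Straight (io sc (-v)) (fun s => S.mov sc x (v + s • (-v))) (Icc 0 1) := by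
    refine I2_line fun s hs => ?_
    have h2 := star_Dom x h (t := 1 - s) (by linarith [hs.2]) (by linarith [hs.1])
    rwa [sub_smul, one_smul, sub_eq_add_neg, ← smul_neg] at h2
  have h2 := mov_spec (x := S.mov sc x v) (by simp) h1 zero_le_one le_rfl
  simpa [mov_zero] using h2

/-- if `w ∈ V x` then `(1 - t) w ∈ V (mov x (t w))`; if `(1 - t) w` were in the domain, concatenate the two straight
paths (`mov_straight`, `Straight.affine`, `Straight.union`) -/
theorem vis_ray {x : X} {w : P2} (h : Vis (S.Dom sc x) w) {t : ℝ} (h0 : 0 ≤ t) (h1 : t < 1) :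
    Vis (S.Dom sc (S.mov sc x (t • w))) ((1 - t) • w) := by
  refine ⟨fun hc => h.1 ?_, fun s hs0 hs1 => ?_⟩
  · have k1 : S.Straight (io sc w) (fun s => S.mov sc x (0 + s • w)) (Icc 0 t) := by
      refine I2_line fun s hs => ?_
      rw [zero_add]
      exact h.2 s hs.1 (hs.2.trans_lt h1)
    have k2 : S.Straight (io sc w)
        (fun s => S.mov sc (S.mov sc x (t • w)) (-(t • w) + s • w)) (Icc t 1) := by
      refine I2_line fun s hs => ?_
      have hp : 0 < 1 - t := sub_pos.2 h1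
      have h2 := star_Dom _ hc (t := (s - t) / (1 - t)) (div_nonneg (sub_nonneg.2 hs.1) hp.le)
        ((div_le_one hp).2 (by linarith [hs.2]))
      rwa [smul_smul, div_mul_cancel₀ _ hp.ne', sub_smul, sub_eq_neg_add] at h2
    refine ⟨fun s => if s ≤ t then S.mov sc x (0 + s • w) else
      S.mov sc (S.mov sc x (t • w)) (-(t • w) + s • w), ?_, ?_⟩
    · simp only [h0, if_true, zero_smul, add_zero, mov_zero]
    · refine Straight.union h0 h1.le (k1.congr fun s hs => ?_) (k2.congr fun s hs => ?_)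
      · simp only [hs.2, if_true]
      · by_cases hst : s ≤ t
        · have : s = t := le_antisymm hst hs.1
          simp only [this, le_refl, if_true, zero_add, neg_add_cancel, mov_zero]
        · simp only [hst, if_false]
  · have hK : Convex ℝ ((fun u : ℝ => u • w) '' Ico 0 1) :=
      (convex_Ico (0 : ℝ) 1).linear_image (LinearMap.toSpanSingleton ℝ P2 w)
    have hD : (fun u : ℝ => u • w) '' Ico 0 1 ⊆ S.Dom sc x := by
      rintro _ ⟨u, hu, rfl⟩
      exact h.2 u hu.1 hu.2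
    have h2 := (conv_Dom x _ hK hD (a := t • w) (b := (t + s * (1 - t)) • w) ⟨t, ⟨h0, h1⟩, rfl⟩
      ⟨t + s * (1 - t), ⟨by nlinarith, by nlinarith⟩, rfl⟩).1
    rwa [← sub_smul, add_sub_cancel_left, ← smul_smul] at h2

end TransSurf

end Pool.Agent.MP_b29402_an

end

-- part MP_b29402_an.I3
section

/-! Straight paths near a cone point. -/

open MeasureTheory Set Filter Topology ProbabilityTheory
open scoped ComplexConjugate ENNReal

namespace Pool.Agent.MP_b29402_an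

/-- the lift of a segment which avoids `0` under `z ↦ z ^ k`: `u t = u0 * (1 + t v / u0 ^ k) ^ (1/k)` with the principal
branch; `1 + t c` lies in the slit plane for `t ∈ [0, T0]` (if `1 + t c` were a nonpositive real then `c` is real
and `1 + t' c = 0` for some `t' ≤ t`); `Complex.cpow_nat_inv_pow`, `continuousAt_cpow_const`. -/
theorem exists_root_path {k : ℕ} (hk : 1 ≤ k) {u0 v : ℂ} (hu : u0 ≠ 0) {T0 : ℝ}
    (h : ∀ t ∈ Icc (0 : ℝ) T0, u0 ^ k + (t : ℂ) * v ≠ 0) :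
    ∃ u : ℝ → ℂ, u 0 = u0 ∧ ContinuousOn u (Icc 0 T0) ∧
      ∀ t ∈ Icc (0 : ℝ) T0, u t ^ k = u0 ^ k + (t : ℂ) * v := by
  have ha : u0 ^ k ≠ 0 := pow_ne_zero k hu
  have hk0 : k ≠ 0 := by omega
  obtain ⟨c, hc⟩ : ∃ c : ℂ, c = v / u0 ^ k := ⟨_, rfl⟩
  have hmul : ∀ t : ℝ, u0 ^ k * (1 + (t : ℂ) * c) = u0 ^ k + (t : ℂ) * v := by
    intro t
    rw [hc]
    field_simp
  have hslit : ∀ t ∈ Icc (0 : ℝ) T0, 1 + (t : ℂ) * c ∈ Complex.slitPlane := by
    intro t ht
    by_contra hn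
    rw [Complex.mem_slitPlane_iff, not_or, not_lt, not_not] at hn
    obtain ⟨h1, h2⟩ := hn
    have h1' : 1 + t * c.re ≤ 0 := by simpa using h1
    have h2' : t * c.im = 0 := by simpa using h2
    have ht0 : t ≠ 0 := by
      intro h0
      rw [h0] at h1'
      linarith
    have htp : 0 < t := lt_of_le_of_ne ht.1 (Ne.symm ht0)
    have him : c.im = 0 := by
      rcases mul_eq_zero.1 h2' with h0 | h0
      · exact absurd h0 ht0
      · exact h0
    have hre : c.re < 0 := by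
      by_contra hcon
      have := mul_nonneg htp.le (not_lt.1 hcon)
      linarith
    have hre' : 0 < -c.re := by linarith
    have hs : 1 / (-c.re) ∈ Icc (0 : ℝ) T0 := by
      refine ⟨by positivity, le_trans ?_ ht.2⟩
      rw [div_le_iff₀ hre']
      linarith
    apply h _ hs
    rw [← hmul]
    have h0 : 1 + ((1 / (-c.re) : ℝ) : ℂ) * c = 0 := by
      apply Complex.ext
      · have : 1 + 1 / (-c.re) * c.re = 0 := by
          have := hre.ne
          field_simp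
          ring
        rw [Complex.add_re, Complex.re_ofReal_mul, Complex.one_re, Complex.zero_re]
        exact this
      · rw [Complex.add_im, Complex.im_ofReal_mul, Complex.one_im, Complex.zero_im, him]
        ring
    rw [h0, mul_zero]
  refine ⟨fun t => u0 * (1 + (t : ℂ) * c) ^ ((k : ℂ)⁻¹), by simp, ?_, ?_⟩
  · refine continuousOn_const.mul ?_
    refine ContinuousOn.cpow_const ?_ hslit
    fun_prop
  · intro t _
    show (u0 * (1 + (t : ℂ) * c) ^ ((k : ℂ)⁻¹)) ^ k = _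
    rw [mul_pow, Complex.cpow_nat_inv_pow _ hk0, hmul]

namespace TransSurf

variable {X : Type*} [TopologicalSpace X] [T2Space X] {S : TransSurf X} {sc : ℝ} {z : X} {k : ℕ}
  {φ : OpenPartialHomeomorph X ℂ}

omit [T2Space X] in
/-- `γ t = φ.symm (u t)` with `u` from `exists_root_path`; `‖u t‖ ^ k ≤ r ^ k` -/
theorem cone_lift (hc : S.ConeAt z k φ) {r : ℝ} (hr0 : 0 ≤ r)
    (hr : Metric.closedBall 0 r ⊆ φ.target) {x : X} (hx : x ∈ φ.source) (hxz : x ≠ z) {v : ℂ}
    {T0 : ℝ} (hv : ∀ t ∈ Icc (0 : ℝ) T0, φ x ^ k + (t : ℂ) * v ≠ 0 ∧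
      ‖φ x ^ k + (t : ℂ) * v‖ ≤ r ^ k) :
    ∃ γ : ℝ → X, γ 0 = x ∧ S.Straight v γ (Icc 0 T0) ∧ ∀ t ∈ Icc (0 : ℝ) T0,
      γ t ∈ φ.source ∧ φ (γ t) ^ k = φ x ^ k + (t : ℂ) * v := by
  obtain ⟨hk, hzs, hz0, hch⟩ := hc
  have hk0 : k ≠ 0 := by omega
  have hu0 : φ x ≠ 0 := by
    intro h0
    exact hxz (φ.injOn hx hzs (by rw [h0, hz0]))
  obtain ⟨u, hu, huc, hup⟩ := exists_root_path hk hu0 (v := v) (T0 := T0) (fun t ht => (hv t ht).1)
  have hut : ∀ t ∈ Icc (0 : ℝ) T0, u t ∈ φ.target := by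
    intro t ht
    apply hr
    rw [mem_closedBall_zero_iff]
    have h1 : ‖u t‖ ^ k ≤ r ^ k := by
      rw [← norm_pow, hup t ht]
      exact (hv t ht).2
    exact (pow_le_pow_iff_left₀ (norm_nonneg _) hr0 hk0).1 h1
  have hsrc : ∀ t ∈ Icc (0 : ℝ) T0, φ.symm (u t) ∈ φ.source := fun t ht => φ.map_target (hut t ht)
  have hval : ∀ t ∈ Icc (0 : ℝ) T0, φ (φ.symm (u t)) ^ k = φ x ^ k + (t : ℂ) * v := by
    intro t ht
    rw [φ.right_inv (hut t ht), hup t ht]
  have hcont : ContinuousOn (fun t => φ.symm (u t)) (Icc 0 T0) :=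
    φ.continuousOn_symm.comp huc hut
  refine ⟨fun t => φ.symm (u t), ?_, ?_, fun t ht => ⟨hsrc t ht, hval t ht⟩⟩
  · show φ.symm (u 0) = x
    rw [hu, φ.left_inv hx]
  · intro t ht
    have hne : φ.symm (u t) ≠ z := by
      intro h0
      have h1 := hval t ht
      rw [h0, hz0, zero_pow hk0] at h1
      exact (hv t ht).1 h1.symm
    obtain ⟨e, he, hes, c, hc⟩ := hch _ (hsrc t ht) hne
    refine ⟨e, he, ?_⟩
    have hT : Tendsto (fun s => φ.symm (u s)) (𝓝[Icc 0 T0] t) (𝓝 (φ.symm (u t))) := hcont t ht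
    have h1 := hT.eventually hc
    have h2 := hT.eventually (e.open_source.mem_nhds hes)
    have h3 : e (φ.symm (u t)) = φ (φ.symm (u t)) ^ k + c := hc.self_of_nhds
    filter_upwards [h1, h2, self_mem_nhdsWithin] with s hs1 hs2 hs3
    refine ⟨hs2, ?_⟩
    show e (φ.symm (u s)) = e (φ.symm (u t)) + ((s - t : ℝ) : ℂ) * v
    rw [hs1, h3, hval s hs3, hval t ht]
    push_cast
    ring

/-- for `t < 1`, `cone_lift` on `[0, t]` and `Straight.unique` give `γ t ∈ φ.source`, `φ (γ t) ^ k = (1 - t) φ x ^ k`, so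
`φ (γ t) → 0` and `γ t = φ.symm (φ (γ t)) → z` as `t → 1-`; continuity of `γ` gives `γ 1 = z ∈ sing`. -/
theorem cone_stop (hc : S.ConeAt z k φ) (hz : z ∈ S.sing) {r : ℝ}
    (hr : Metric.closedBall 0 r ⊆ φ.target) {x : X} (hx : x ∈ φ.source) (hxr : ‖φ x‖ ≤ r) {v : ℂ}
    (hv : φ x ^ k + v = 0) : ¬ ∃ γ : ℝ → X, γ 0 = x ∧ S.Straight v γ (Icc 0 1) := by
  rintro ⟨γ, h0, hγ⟩
  have hk : 1 ≤ k := hc.1
  have hk0 : k ≠ 0 := by omega
  have hzs : z ∈ φ.source := hc.2.1
  have hz0 : φ z = 0 := hc.2.2.1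
  have hr0 : 0 ≤ r := (norm_nonneg _).trans hxr
  have hxz : x ≠ z := by
    intro h
    have := hγ.not_sing (t := 0) ⟨le_rfl, zero_le_one⟩
    rw [h0, h] at this
    exact this hz
  have hu0 : φ x ≠ 0 := by
    intro h
    exact hxz (φ.injOn hx hzs (by rw [h, hz0]))
  have hv' : v = -φ x ^ k := by linear_combination hv
  have hform : ∀ s : ℝ, φ x ^ k + (s : ℂ) * v = ((1 - s : ℝ) : ℂ) * φ x ^ k := by
    intro s
    rw [hv']
    push_cast
    ring
  have hkey : ∀ t ∈ Ico (0 : ℝ) 1, γ t ∈ φ.source ∧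
      φ (γ t) ^ k = ((1 - t : ℝ) : ℂ) * φ x ^ k := by
    intro t ht
    obtain ⟨γ', h0', hγ', hp⟩ := cone_lift hc hr0 hr hx hxz (v := v) (T0 := t) (by
      intro s hs
      have hs1 : 0 < 1 - s := by linarith [hs.2, ht.2]
      rw [hform]
      refine ⟨mul_ne_zero (Complex.ofReal_ne_zero.2 hs1.ne') (pow_ne_zero k hu0), ?_⟩
      rw [norm_mul, Complex.norm_real, Real.norm_of_nonneg hs1.le, norm_pow]
      have h1 : ‖φ x‖ ^ k ≤ r ^ k := pow_le_pow_left₀ (norm_nonneg _) hxr k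
      have h2 : 0 ≤ ‖φ x‖ ^ k := by positivity
      nlinarith [hs.1])
    have hγt : S.Straight v γ (Icc 0 t) := hγ.mono (Icc_subset_Icc le_rfl ht.2.le)
    have heq := hγt.unique hγ' isPreconnected_Icc (t0 := 0) ⟨le_rfl, ht.1⟩ (by rw [h0, h0'])
    have h1 : γ t = γ' t := heq ⟨ht.1, le_rfl⟩
    rw [h1, ← hform]
    exact hp t ⟨ht.1, le_rfl⟩
  have : (𝓝[Ico (0 : ℝ) 1] 1).NeBot := right_nhdsWithin_Ico_neBot zero_lt_one
  have hT1 : Tendsto γ (𝓝[Ico (0 : ℝ) 1] 1) (𝓝 (γ 1)) :=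
    (hγ.continuousOn 1 ⟨zero_le_one, le_rfl⟩).mono Ico_subset_Icc_self
  have hT2 : Tendsto (fun t => φ (γ t)) (𝓝[Ico (0 : ℝ) 1] 1) (𝓝 0) := by
    have h1 : Tendsto (fun t : ℝ => ((1 - t : ℝ) : ℂ) * φ x ^ k) (𝓝[Ico (0 : ℝ) 1] 1) (𝓝 0) := by
      have h2 : Continuous fun t : ℝ => ((1 - t : ℝ) : ℂ) * φ x ^ k := by fun_prop
      have h3 := (h2.tendsto 1).mono_left (nhdsWithin_le_nhds (s := Ico (0 : ℝ) 1))
      simpa using h3
    rw [Metric.tendsto_nhds] at h1 ⊢
    intro ε hε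
    filter_upwards [h1 (ε ^ k) (by positivity), self_mem_nhdsWithin] with t ht1 ht2
    rw [dist_zero_right, ← (hkey t ht2).2, norm_pow] at ht1
    rw [dist_zero_right]
    exact lt_of_pow_lt_pow_left₀ k hε.le ht1
  have hT3 : Tendsto γ (𝓝[Ico (0 : ℝ) 1] 1) (𝓝 z) := by
    have h0t : (0 : ℂ) ∈ φ.target := by
      rw [← hz0]
      exact φ.map_source hzs
    have h1 : Tendsto φ.symm (𝓝 0) (𝓝 (φ.symm 0)) := φ.continuousAt_symm h0t
    have h2 : φ.symm 0 = z := by
      rw [← hz0]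
      exact φ.left_inv hzs
    rw [h2] at h1
    refine (h1.comp hT2).congr' ?_
    filter_upwards [self_mem_nhdsWithin] with t ht
    exact φ.left_inv (hkey t ht).1
  have h1 : γ 1 = z := tendsto_nhds_unique hT1 hT3
  have := hγ.not_sing (t := 1) ⟨zero_le_one, le_rfl⟩
  rw [h1] at this
  exact this hz

/-- If the segment `φ x ^ k + t io w`, `t ∈ [0,1]`, avoids `0` then `w ∈ Dom` (`cone_lift`). If it vanishes at `t0`, then
`t0 • w ∉ Dom` (`cone_stop`), it vanishes only there, and `t • w ∈ Dom` for `t < t0`. For `x = z` the domain is empty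
(`zero_mem_Dom`). -/
theorem cone_vis (hc : S.ConeAt z k φ) (hz : z ∈ S.sing) {r : ℝ} (hr0 : 0 < r)
    (hr : Metric.closedBall 0 r ⊆ φ.target) {x : X} (hx : x ∈ φ.source) (hxr : ‖φ x‖ ≤ r / 2)
    {w : P2} (hw : ‖io sc w‖ ≤ (r / 2) ^ k) :
    Vis (S.Dom sc x) w ↔ x ≠ z ∧ φ x ^ k + io sc w = 0 := by
  have hk : 1 ≤ k := hc.1
  have hzs : z ∈ φ.source := hc.2.1
  have hz0 : φ z = 0 := hc.2.2.1
  have hxr' : ‖φ x‖ ≤ r := by linarith
  have hnorm : ∀ s : ℝ, 0 ≤ s → s ≤ 1 → ‖φ x ^ k + (s : ℂ) * io sc w‖ ≤ r ^ k := by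
    intro s hs0 hs1
    have h1 : ‖φ x ^ k‖ ≤ (r / 2) ^ k := by
      rw [norm_pow]
      exact pow_le_pow_left₀ (norm_nonneg _) hxr k
    have h2 : ‖(s : ℂ) * io sc w‖ ≤ (r / 2) ^ k := by
      rw [norm_mul, Complex.norm_real, Real.norm_of_nonneg hs0]
      exact (mul_le_of_le_one_left (norm_nonneg _) hs1).trans hw
    have h3 : (2 : ℝ) ≤ 2 ^ k := by
      calc (2 : ℝ) = 2 ^ 1 := by norm_num
        _ ≤ 2 ^ k := pow_le_pow_right₀ (by norm_num) hk
    have h4 : r ^ k = 2 ^ k * (r / 2) ^ k := by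
      rw [← mul_pow]
      congr 1
      ring
    have h5 : 0 ≤ (r / 2) ^ k := by positivity
    have h6 := norm_add_le (φ x ^ k) ((s : ℂ) * io sc w)
    rw [h4]
    nlinarith
  constructor
  · rintro ⟨h1, h2⟩
    have hxz : x ≠ z := by
      intro h
      have h3 := h2 0 le_rfl zero_lt_one
      rw [zero_smul, zero_mem_Dom, h] at h3
      exact h3 hz
    refine ⟨hxz, ?_⟩
    by_contra hne
    by_cases hall : ∀ s ∈ Icc (0 : ℝ) 1, φ x ^ k + (s : ℂ) * io sc w ≠ 0
    · obtain ⟨γ, h0, hγ, -⟩ := cone_lift hc hr0.le hr hx hxz (v := io sc w) (T0 := 1)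
        (fun s hs => ⟨hall s hs, hnorm s hs.1 hs.2⟩)
      exact h1 ⟨γ, h0, hγ⟩
    · simp only [not_forall, not_not, exists_prop] at hall
      obtain ⟨s, hs, hs0⟩ := hall
      have hs1 : s < 1 := by
        refine lt_of_le_of_ne hs.2 ?_
        intro h
        rw [h] at hs0
        apply hne
        simpa using hs0
      have h3 := h2 s hs.1 hs1
      exact cone_stop hc hz hr hx hxr' (v := io sc (s • w)) (by rw [io_smul]; exact hs0) h3
  · rintro ⟨hxz, h0⟩
    refine ⟨cone_stop hc hz hr hx hxr' h0, ?_⟩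
    intro t ht0 ht1
    have hu0 : φ x ≠ 0 := by
      intro h
      exact hxz (φ.injOn hx hzs (by rw [h, hz0]))
    have hv' : io sc w = -φ x ^ k := by linear_combination h0
    obtain ⟨γ, h0', hγ, -⟩ := cone_lift hc hr0.le hr hx hxz (v := io sc (t • w)) (T0 := 1) (by
      intro s hs
      have hst : s * t < 1 := by nlinarith [hs.1, hs.2]
      have he : (s : ℂ) * io sc (t • w) = ((s * t : ℝ) : ℂ) * io sc w := by
        rw [io_smul]
        push_cast
        ring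
      rw [he]
      refine ⟨?_, hnorm _ (mul_nonneg hs.1 ht0) hst.le⟩
      have h1 : φ x ^ k + ((s * t : ℝ) : ℂ) * io sc w = ((1 - s * t : ℝ) : ℂ) * φ x ^ k := by
        rw [hv']
        push_cast
        ring
      rw [h1]
      exact mul_ne_zero (Complex.ofReal_ne_zero.2 (by linarith)) (pow_ne_zero k hu0))
    exact ⟨γ, h0', hγ⟩

end TransSurf

end Pool.Agent.MP_b29402_an

end
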