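import Pool.Agent.MP_b29402_an.Mg.I3

-- part MP_b29402_an.I4
section

/-! Uniform local structure of the visible singular points. -/

open MeasureTheory Set Filter Topology ProbabilityTheory
open scoped ComplexConjugate ENNReal

namespace Pool.Agent.MP_b29402_an

namespace TransSurf

variable {X : Type*} [TopologicalSpace X] [T2Space X] [CompactSpace X] {S : TransSurf X} {sc : ℝ}

theorem I4_io_lt (hsc : 0 < sc) {w : P2} {a : ℝ} (hw : ‖w‖ < sc * a / 2) : ‖io sc w‖ < a := by
  have h1 := norm_io_le hsc w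
  have h2 : 2 / sc * ‖w‖ < 2 / sc * (sc * a / 2) := mul_lt_mul_of_pos_left hw (by positivity)
  have h3 : 2 / sc * (sc * a / 2) = a := by field_simp
  linarith

omit [T2Space X] [CompactSpace X] in
theorem I4_radius {z : X} {k : ℕ} {φ : OpenPartialHomeomorph X ℂ} (hc : S.ConeAt z k φ) :
    ∃ r : ℝ, 0 < r ∧ Metric.closedBall 0 r ⊆ φ.target := by
  have h0 : (0 : ℂ) ∈ φ.target := by
    rw [← hc.2.2.1]; exact φ.map_source hc.2.1
  obtain ⟨r, hr0, hr⟩ := Metric.isOpen_iff.1 φ.open_target 0 h0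
  exact ⟨r / 2, by positivity, (Metric.closedBall_subset_ball (by linarith)).trans hr⟩

omit [T2Space X] [CompactSpace X] in
theorem I4_roots (φ : OpenPartialHomeomorph X ℂ) {k : ℕ} (hk : 1 ≤ k) (c : ℂ) :
    {x | x ∈ φ.source ∧ φ x ^ k = c}.encard ≤ k := by
  classical
  have h1 : {x | x ∈ φ.source ∧ φ x ^ k = c}.encard ≤
      (((Polynomial.nthRoots k c).toFinset : Finset ℂ) : Set ℂ).encard := by
    refine Set.encard_le_encard_of_injOn (f := φ) ?_ (φ.injOn.mono fun x hx => hx.1)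
    intro x hx
    rw [Finset.mem_coe, Multiset.mem_toFinset, Polynomial.mem_nthRoots hk]
    exact hx.2
  refine h1.trans ?_
  rw [Set.encard_coe_eq_coe_finsetCard]
  exact_mod_cast (Multiset.toFinset_card_le _).trans (Polynomial.card_nthRoots k c)

omit [TopologicalSpace X] [T2Space X] [CompactSpace X] in
theorem I4_union (F : Finset X) (A : X → Set X) (k : X → ℕ) (h : ∀ s ∈ F, (A s).encard ≤ k s) :
    (⋃ s ∈ F, A s).encard ≤ ((∑ s ∈ F, k s : ℕ) : ℕ∞) := by
  classical
  induction F using Finset.induction_on with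
  | empty => simp
  | insert a F ha ih =>
    rw [Finset.set_biUnion_insert, Finset.sum_insert ha, Nat.cast_add]
    exact (Set.encard_union_le _ _).trans (add_le_add (h a (Finset.mem_insert_self _ _))
      (ih fun s hs => h s (Finset.mem_insert_of_mem hs)))

/-- Choose cone charts `(k s, φ s)` and radii `r s` at the singular points. Every `z` has an open neighbourhood `U z`
and `ρ z > 0` with: if `z ∉ sing`, `ball 0 (ρ z) ⊆ Dom x` for `x ∈ U z` (`mov_chart`, `norm_io_le`); if `z ∈ sing`,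
`U z = φ.source ∩ φ ⁻¹' ball 0 (r/2)` and `cone_vis` applies for `‖w‖ < ρ z`. Finite subcover, `ρ` the minimum. -/
theorem exists_uniform (S : TransSurf X) (hsc : 0 < sc) :
    ∃ (k : X → ℕ) (φ : X → OpenPartialHomeomorph X ℂ) (ρ : ℝ), 0 < ρ ∧
      (∀ s ∈ S.sing, S.ConeAt s (k s) (φ s)) ∧
      ∀ x, Metric.ball 0 ρ ⊆ S.Dom sc x ∨ ∃ s ∈ S.sing, x ∈ (φ s).source ∧
        ∀ w : P2, ‖w‖ < ρ → Vis (S.Dom sc x) w → φ s x ^ k s + io sc w = 0 := by
  choose k φ hφ using S.exists_coneAt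
  have key : ∃ ρ : ℝ, 0 < ρ ∧ ∀ x ∈ (univ : Set X), Metric.ball 0 ρ ⊆ S.Dom sc x ∨
      ∃ s ∈ S.sing, x ∈ (φ s).source ∧
        ∀ w : P2, ‖w‖ < ρ → Vis (S.Dom sc x) w → φ s x ^ k s + io sc w = 0 := by
    have mono : ∀ (ρ ρ' : ℝ) (x : X), ρ' ≤ ρ → (Metric.ball 0 ρ ⊆ S.Dom sc x ∨
        ∃ s ∈ S.sing, x ∈ (φ s).source ∧
          ∀ w : P2, ‖w‖ < ρ → Vis (S.Dom sc x) w → φ s x ^ k s + io sc w = 0) →
        (Metric.ball 0 ρ' ⊆ S.Dom sc x ∨ ∃ s ∈ S.sing, x ∈ (φ s).source ∧
          ∀ w : P2, ‖w‖ < ρ' → Vis (S.Dom sc x) w → φ s x ^ k s + io sc w = 0) := by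
      intro ρ ρ' x hle h
      rcases h with h | ⟨s, hs, hx, h⟩
      · exact Or.inl ((Metric.ball_subset_ball hle).trans h)
      · exact Or.inr ⟨s, hs, hx, fun w hw => h w (lt_of_lt_of_le hw hle)⟩
    refine IsCompact.induction_on (p := fun A : Set X => ∃ ρ : ℝ, 0 < ρ ∧ ∀ x ∈ A,
      Metric.ball 0 ρ ⊆ S.Dom sc x ∨ ∃ s ∈ S.sing, x ∈ (φ s).source ∧
        ∀ w : P2, ‖w‖ < ρ → Vis (S.Dom sc x) w → φ s x ^ k s + io sc w = 0)
      isCompact_univ ⟨1, one_pos, fun x hx => hx.elim⟩ ?_ ?_ ?_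
    · rintro A B hAB ⟨ρ, hρ, h⟩
      exact ⟨ρ, hρ, fun x hx => h x (hAB hx)⟩
    · rintro A B ⟨ρ, hρ, h⟩ ⟨ρ', hρ', h'⟩
      refine ⟨min ρ ρ', lt_min hρ hρ', ?_⟩
      rintro x (hx | hx)
      · exact mono ρ _ x (min_le_left _ _) (h x hx)
      · exact mono ρ' _ x (min_le_right _ _) (h' x hx)
    · intro z _
      by_cases hz : z ∈ S.sing
      · obtain ⟨r, hr0, hr⟩ := I4_radius (hφ z)
        refine ⟨(φ z).source ∩ φ z ⁻¹' Metric.ball 0 (r / 2), ?_, sc * (r / 2) ^ k z / 2,
          by positivity, ?_⟩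
        · refine mem_nhdsWithin_of_mem_nhds (IsOpen.mem_nhds
            ((φ z).isOpen_inter_preimage Metric.isOpen_ball) ⟨(hφ z).2.1, ?_⟩)
          rw [mem_preimage, (hφ z).2.2.1]
          exact Metric.mem_ball_self (by positivity)
        · rintro x ⟨hx, hx2⟩
          refine Or.inr ⟨z, hz, hx, fun w hw hv => ?_⟩
          have h1 : ‖φ z x‖ ≤ r / 2 := by
            have := hx2
            rw [mem_preimage, mem_ball_zero_iff] at this
            exact this.le
          have h2 : ‖io sc w‖ ≤ (r / 2) ^ k z := (I4_io_lt hsc hw).le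
          exact ((cone_vis (hφ z) hz hr0 hr hx h1 h2).1 hv).2
      · obtain ⟨e, he, hze⟩ := (S.cover z).1 hz
        obtain ⟨r, hr0, hr⟩ := Metric.isOpen_iff.1 e.open_target (e z) (e.map_source hze)
        refine ⟨e.source ∩ e ⁻¹' Metric.ball (e z) (r / 2), ?_, sc * (r / 2) / 2,
          by positivity, ?_⟩
        · refine mem_nhdsWithin_of_mem_nhds (IsOpen.mem_nhds
            (e.isOpen_inter_preimage Metric.isOpen_ball) ⟨hze, ?_⟩)
          exact Metric.mem_ball_self (by positivity)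
        · rintro x ⟨hx, hx2⟩
          refine Or.inl fun w hw => ?_
          rw [mem_preimage, mem_ball_iff_norm] at hx2
          rw [mem_ball_zero_iff] at hw
          have h2 := I4_io_lt hsc hw
          refine (mov_chart he hx hr (z := e z) ?_ ?_).1
          · rw [mem_ball_iff_norm]; linarith
          · rw [mem_ball_iff_norm]
            have h3 : e x + io sc w - e z = (e x - e z) + io sc w := by ring
            rw [h3]
            have := norm_add_le (e x - e z) (io sc w)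
            linarith
  obtain ⟨ρ, hρ, h⟩ := key
  exact ⟨k, φ, ρ, hρ, fun s _ => hφ s, fun x => h x (mem_univ x)⟩

/-- `exists_uniform`, `io_bijective` -/
theorem thick0_Dom (S : TransSurf X) (hsc : 0 < sc) :
    ∃ ρ : ℝ, 0 < ρ ∧ ∀ x, ({w | Vis (S.Dom sc x) w} ∩ Metric.ball 0 ρ).Subsingleton := by
  obtain ⟨k, φ, ρ, hρ, -, h⟩ := S.exists_uniform hsc
  refine ⟨ρ, hρ, fun x => ?_⟩
  rintro a ⟨ha, ha'⟩ b ⟨hb, hb'⟩
  rcases h x with h | ⟨s, -, -, h⟩
  · exact (ha.1 (h ha')).elim
  · have h1 := h a (mem_ball_zero_iff.1 ha') ha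
    have h2 := h b (mem_ball_zero_iff.1 hb') hb
    exact (io_bijective hsc).1 (add_left_cancel (h1.trans h2.symm))

/-- `N = ∑ s ∈ sing, k s`. For `‖w‖ < ρ` the set lies in the union over `s` of
`{x ∈ (φ s).source | φ s x ^ k s = -io w}`, which injects into the `k s`-th roots (`Polynomial.nthRoots`,
`Polynomial.card_nthRoots`). For general `w` take `t < 1` with `(1 - t) ‖w‖ < ρ`; `x ↦ mov x (t w)` is injective on the
set (`back_Dom`) with values in the set for `(1 - t) w` (`vis_ray`). -/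
theorem card_Dom (S : TransSurf X) (hsc : 0 < sc) :
    ∃ N : ℕ, ∀ w : P2, {x | Vis (S.Dom sc x) w}.encard ≤ N := by
  obtain ⟨k, φ, ρ, hρ, hc, h⟩ := S.exists_uniform hsc
  refine ⟨∑ s ∈ S.sing, k s, ?_⟩
  have small : ∀ w : P2, ‖w‖ < ρ →
      {x | Vis (S.Dom sc x) w}.encard ≤ ((∑ s ∈ S.sing, k s : ℕ) : ℕ∞) := by
    intro w hw
    refine le_trans (Set.encard_le_encard ?_) (I4_union S.sing
      (fun s => {x | x ∈ (φ s).source ∧ φ s x ^ k s = -io sc w}) k
      fun s hs => I4_roots (φ s) (hc s hs).1 _)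
    intro x hx
    rcases h x with h | ⟨s, hs, hxs, h⟩
    · exact (hx.1 (h (mem_ball_zero_iff.2 hw))).elim
    · exact mem_biUnion hs ⟨hxs, eq_neg_of_add_eq_zero_left (h w hw hx)⟩
  intro w
  have hw1 : 0 < ‖w‖ + 1 := by positivity
  obtain ⟨δ, hδ0, hδ1, hδ⟩ : ∃ δ : ℝ, 0 < δ ∧ δ ≤ 1 ∧ δ * ‖w‖ < ρ := by
    refine ⟨min 1 (ρ / (‖w‖ + 1)), lt_min one_pos (by positivity), min_le_left _ _, ?_⟩
    have h1 : min 1 (ρ / (‖w‖ + 1)) * ‖w‖ ≤ ρ / (‖w‖ + 1) * ‖w‖ :=
      mul_le_mul_of_nonneg_right (min_le_right _ _) (norm_nonneg _)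
    have h2 : ρ / (‖w‖ + 1) * ‖w‖ < ρ / (‖w‖ + 1) * (‖w‖ + 1) :=
      mul_lt_mul_of_pos_left (by linarith) (by positivity)
    have h3 : ρ / (‖w‖ + 1) * (‖w‖ + 1) = ρ := by field_simp
    linarith
  have t0 : 0 ≤ 1 - δ := by linarith
  have t1 : 1 - δ < 1 := by linarith
  have hn : ‖(1 - (1 - δ)) • w‖ < ρ := by
    rw [sub_sub_cancel, norm_smul, Real.norm_of_nonneg hδ0.le]; exact hδ
  refine le_trans ?_ (small _ hn)
  refine Set.encard_le_encard_of_injOn (f := fun x => S.mov sc x ((1 - δ) • w))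
    (fun x hx => vis_ray hx t0 t1) ?_
  intro x hx y hy hxy
  have h1 := (back_Dom (hx.2 _ t0 t1)).2
  have h2 := (back_Dom (hy.2 _ t0 t1)).2
  have h3 : S.mov sc x ((1 - δ) • w) = S.mov sc y ((1 - δ) • w) := hxy
  rw [← h1, h3, h2]

omit [CompactSpace X] in
/-- `x = φ.symm u` with `u = r / 2 ≠ 0`, `io w = -u ^ k`, `cone_vis` -/
theorem exV_Dom (S : TransSurf X) (hsc : 0 < sc) (hne : S.sing.Nonempty) :
    ∃ x w, Vis (S.Dom sc x) w := by
  obtain ⟨s, hs⟩ := hne
  obtain ⟨k, φ, hc⟩ := S.exists_coneAt s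
  obtain ⟨r, hr0, hr⟩ := I4_radius hc
  have hn : ‖((r / 2 : ℝ) : ℂ)‖ = r / 2 := by
    rw [Complex.norm_real, Real.norm_of_nonneg (by positivity)]
  have hu : ((r / 2 : ℝ) : ℂ) ∈ φ.target := by
    refine hr ?_
    rw [mem_closedBall_zero_iff, hn]; linarith
  obtain ⟨w, hw⟩ := (io_bijective hsc).2 (-((r / 2 : ℝ) : ℂ) ^ k)
  have hx := φ.right_inv hu
  refine ⟨φ.symm ((r / 2 : ℝ) : ℂ), w, (cone_vis hc hs hr0 hr (φ.map_target hu) ?_ ?_).2 ⟨?_, ?_⟩⟩
  · rw [hx, hn]
  · rw [hw, norm_neg, norm_pow, hn]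
  · intro h
    rw [h, hc.2.2.1] at hx
    rw [← hx, norm_zero] at hn
    linarith
  · rw [hx, hw, add_neg_cancel]

end TransSurf

end Pool.Agent.MP_b29402_an

end

-- part MP_b29402_an.I5
section

/-! Connectedness of the regular part through straight moves. -/

open MeasureTheory Set Filter Topology ProbabilityTheory
open scoped ComplexConjugate ENNReal

namespace Pool.Agent.MP_b29402_an

/-- image of `Ioo 0 r ×ˢ univ` under `(ρ, θ) ↦ ρ e^{iθ}`, or transport from the punctured plane -/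
theorem isPreconnected_punctured_ball (r : ℝ) :
    IsPreconnected (Metric.ball (0 : ℂ) r \ {0}) := by
  have hpc : IsPreconnected ((Ioo (0 : ℝ) r) ×ˢ (univ : Set ℝ)) :=
    isPreconnected_Ioo.prod isPreconnected_univ
  have hc : Continuous (fun p : ℝ × ℝ => (p.1 : ℂ) * Complex.exp ((p.2 : ℂ) * Complex.I)) := by
    fun_prop
  have him := hpc.image _ hc.continuousOn
  have heq : (fun p : ℝ × ℝ => (p.1 : ℂ) * Complex.exp ((p.2 : ℂ) * Complex.I)) ''
      ((Ioo (0 : ℝ) r) ×ˢ (univ : Set ℝ)) = Metric.ball (0 : ℂ) r \ {0} := by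
    ext z
    constructor
    · rintro ⟨⟨ρ, θ⟩, ⟨⟨h1, h2⟩, -⟩, rfl⟩
      have hn : ‖(ρ : ℂ) * Complex.exp ((θ : ℂ) * Complex.I)‖ = ρ := by
        rw [norm_mul, Complex.norm_exp_ofReal_mul_I, mul_one, Complex.norm_real,
          Real.norm_eq_abs, abs_of_pos h1]
      refine ⟨?_, ?_⟩
      · rw [mem_ball_zero_iff]
        show ‖(ρ : ℂ) * Complex.exp ((θ : ℂ) * Complex.I)‖ < r
        rw [hn]; exact h2
      · intro h0
        have h0' : (ρ : ℂ) * Complex.exp ((θ : ℂ) * Complex.I) = 0 := h0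
        rw [h0', norm_zero] at hn
        exact absurd hn (ne_of_lt h1)
    · rintro ⟨h1, h2⟩
      rw [mem_ball_zero_iff] at h1
      have h2' : z ≠ 0 := h2
      exact ⟨(‖z‖, Complex.arg z), ⟨⟨norm_pos_iff.mpr h2', h1⟩, mem_univ _⟩,
        Complex.norm_mul_exp_arg_mul_I z⟩
  rw [← heq]
  exact him

namespace TransSurf

variable {X : Type*} [TopologicalSpace X] [T2Space X] {S : TransSurf X} {sc : ℝ}

/-- all points of a small chart disc around `x` are `mov x w` (`mov_chart`, `io_bijective`), and one can move back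
(`back_Dom`) -/
theorem eventually_iff (hsc : 0 < sc) {A : Set X}
    (hA : ∀ x ∈ A, ∀ v ∈ S.Dom sc x, S.mov sc x v ∈ A) {x : X} (hx : x ∉ S.sing) :
    ∀ᶠ y in 𝓝 x, y ∉ S.sing ∧ (y ∈ A ↔ x ∈ A) := by
  obtain ⟨e, he, hxe⟩ := (S.cover x).mp hx
  obtain ⟨r, hr, hball⟩ := Metric.isOpen_iff.mp e.open_target (e x) (e.map_source hxe)
  have h1 : ∀ᶠ y in 𝓝 x, y ∈ e.source := e.open_source.mem_nhds hxe
  have h2 : ∀ᶠ y in 𝓝 x, e y ∈ Metric.ball (e x) r :=
    (e.continuousAt hxe).eventually (Metric.ball_mem_nhds _ hr)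
  filter_upwards [h1, h2] with y hy1 hy2
  refine ⟨(S.cover y).mpr ⟨e, he, hy1⟩, ?_⟩
  obtain ⟨w, hw⟩ := (io_bijective hsc).2 (e y - e x)
  have hsum : e x + io sc w = e y := by rw [hw]; ring
  have hm := mov_chart (S := S) (sc := sc) he hxe hball (Metric.mem_ball_self hr)
    (w := w) (by rw [hsum]; exact hy2)
  have hmov : S.mov sc x w = y := by rw [hm.2, hsum, e.left_inv hy1]
  constructor
  · intro hyA
    have hb := back_Dom hm.1
    rw [hmov] at hb
    have := hA y hyA _ hb.1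
    rwa [hb.2] at this
  · intro hxA
    have := hA x hxA _ hm.1
    rwa [hmov] at this

theorem I5_dich (hsc : 0 < sc) {A : Set X}
    (hA : ∀ x ∈ A, ∀ v ∈ S.Dom sc x, S.mov sc x v ∈ A) (z : X) :
    (∀ᶠ y in 𝓝 z, y ∉ S.sing → y ∈ A) ∨ (∀ᶠ y in 𝓝 z, y ∉ S.sing → y ∉ A) := by
  by_cases hz : z ∈ S.sing
  · obtain ⟨k, φ, -, hs, h0, hreg⟩ := S.cone z hz
    have h0t : (0 : ℂ) ∈ φ.target := h0 ▸ φ.map_source hs
    obtain ⟨r, hr, hball⟩ := Metric.isOpen_iff.mp φ.open_target 0 h0t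
    have hP : IsPreconnected (φ.symm '' (Metric.ball (0 : ℂ) r \ {0})) :=
      (isPreconnected_punctured_ball r).image _
        (φ.continuousOn_symm.mono (fun w hw => hball hw.1))
    have hO1 : IsOpen {y : X | y ∉ S.sing ∧ y ∈ A} := by
      rw [isOpen_iff_mem_nhds]
      rintro y ⟨hy1, hy2⟩
      filter_upwards [eventually_iff hsc hA hy1] with u hu
      exact ⟨hu.1, hu.2.mpr hy2⟩
    have hO2 : IsOpen {y : X | y ∉ S.sing ∧ y ∉ A} := by
      rw [isOpen_iff_mem_nhds]
      rintro y ⟨hy1, hy2⟩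
      filter_upwards [eventually_iff hsc hA hy1] with u hu
      exact ⟨hu.1, fun h => hy2 (hu.2.mp h)⟩
    have hdis : Disjoint {y : X | y ∉ S.sing ∧ y ∈ A} {y : X | y ∉ S.sing ∧ y ∉ A} := by
      rw [Set.disjoint_left]
      rintro y ⟨-, h1⟩ ⟨-, h2⟩
      exact h2 h1
    have hsub : φ.symm '' (Metric.ball (0 : ℂ) r \ {0}) ⊆
        {y : X | y ∉ S.sing ∧ y ∈ A} ∪ {y : X | y ∉ S.sing ∧ y ∉ A} := by
      rintro y ⟨w, ⟨hw1, hw2⟩, rfl⟩
      have hwt : w ∈ φ.target := hball hw1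
      have hne : φ.symm w ≠ z := by
        intro h
        have h' : φ (φ.symm w) = φ z := by rw [h]
        rw [φ.right_inv hwt, h0] at h'
        exact hw2 h'
      obtain ⟨e, he, hye, -⟩ := hreg _ (φ.map_target hwt) hne
      have hns : φ.symm w ∉ S.sing := (S.cover _).mpr ⟨e, he, hye⟩
      by_cases hyA : φ.symm w ∈ A
      · exact Or.inl ⟨hns, hyA⟩
      · exact Or.inr ⟨hns, hyA⟩
    have hnear : ∀ᶠ y in 𝓝 z, y ∉ S.sing → y ∈ φ.symm '' (Metric.ball (0 : ℂ) r \ {0}) := by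
      have h1 : ∀ᶠ y in 𝓝 z, y ∈ φ.source := φ.open_source.mem_nhds hs
      have h2 : ∀ᶠ y in 𝓝 z, φ y ∈ Metric.ball (0 : ℂ) r :=
        (φ.continuousAt hs).eventually (by rw [h0]; exact Metric.ball_mem_nhds _ hr)
      filter_upwards [h1, h2] with y hy1 hy2 hys
      refine ⟨φ y, ⟨hy2, ?_⟩, φ.left_inv hy1⟩
      intro h
      have h' : φ y = φ z := by rw [h0]; exact h
      have : y = z := φ.injOn hy1 hs h'
      exact hys (this ▸ hz)
    rcases hP.subset_or_subset hO1 hO2 hdis hsub with h | h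
    · left
      filter_upwards [hnear] with y hy hys
      exact (h (hy hys)).2
    · right
      filter_upwards [hnear] with y hy hys
      exact (h (hy hys)).2
  · by_cases hzA : z ∈ A
    · left
      filter_upwards [eventually_iff hsc hA hz] with y hy _
      exact hy.2.mpr hzA
    · right
      filter_upwards [eventually_iff hsc hA hz] with y hy _
      exact fun h => hzA (hy.2.mp h)

omit [T2Space X] in
theorem I5_dense (S : TransSurf X) (z : X) : ∃ᶠ y in 𝓝 z, y ∉ S.sing := by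
  by_cases hz : z ∈ S.sing
  · obtain ⟨k, φ, -, hs, h0, hreg⟩ := S.cone z hz
    have h0t : (0 : ℂ) ∈ φ.target := h0 ▸ φ.map_source hs
    have hsz : φ.symm 0 = z := by rw [← h0, φ.left_inv hs]
    have ht : Tendsto φ.symm (𝓝[≠] (0 : ℂ)) (𝓝 z) := by
      have := (φ.continuousAt_symm h0t).tendsto
      rw [hsz] at this
      exact this.mono_left nhdsWithin_le_nhds
    have hev : ∀ᶠ w in 𝓝[≠] (0 : ℂ), φ.symm w ∉ S.sing := by
      have h1 : ∀ᶠ w in 𝓝[≠] (0 : ℂ), w ∈ φ.target :=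
        mem_nhdsWithin_of_mem_nhds (φ.open_target.mem_nhds h0t)
      filter_upwards [h1, self_mem_nhdsWithin] with w hwt hw0
      have hne : φ.symm w ≠ z := by
        intro h
        have h' : φ (φ.symm w) = φ z := by rw [h]
        rw [φ.right_inv hwt, h0] at h'
        exact hw0 h'
      obtain ⟨e, he, hye, -⟩ := hreg _ (φ.map_target hwt) hne
      exact (S.cover _).mpr ⟨e, he, hye⟩
    exact ht.frequently hev.frequently
  · intro h
    exact h.self_of_nhds hz

/-- `A1 = {x ∉ sing | x ∈ A}`, `A2 = {x ∉ sing | x ∉ A}` are open (`eventually_iff`). For `s ∈ sing` the punctured disc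
`φ.symm '' (ball 0 r \ {0})` is preconnected, consists of regular points, so lies in `A1` or in `A2`. The set
`A1 ∪ {s ∈ sing | ∀ᶠ y in 𝓝[≠] s, y ∈ A1}` is open and its complement is the analogous open set for `A2`
(`𝓝[≠] s` is nontrivial); `isClopen_iff`. -/
theorem conn_Dom [ConnectedSpace X] (hsc : 0 < sc) (A : Set X)
    (h0 : ∃ x ∈ A, (0 : P2) ∈ S.Dom sc x) (hA : ∀ x ∈ A, ∀ v ∈ S.Dom sc x, S.mov sc x v ∈ A)
    (x : X) (hx : (0 : P2) ∈ S.Dom sc x) : x ∈ A := by
  obtain ⟨x0, hx0A, hx0⟩ := h0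
  rw [zero_mem_Dom] at hx0 hx
  have hop : IsOpen {z : X | ∀ᶠ y in 𝓝 z, y ∉ S.sing → y ∈ A} := isOpen_setOfPred_eventually_nhds
  have hcl : IsClosed {z : X | ∀ᶠ y in 𝓝 z, y ∉ S.sing → y ∈ A} := by
    have heq : {z : X | ∀ᶠ y in 𝓝 z, y ∉ S.sing → y ∈ A}ᶜ =
        {z : X | ∀ᶠ y in 𝓝 z, y ∉ S.sing → y ∉ A} := by
      ext z
      simp only [mem_compl_iff, mem_ofPred_eq]
      constructor
      · intro h
        exact (I5_dich hsc hA z).resolve_left h
      · intro h h'
        obtain ⟨y, hy, hy1, hy2⟩ := ((I5_dense S z).and_eventually (h.and h')).exists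
        exact hy1 hy (hy2 hy)
    rw [← isOpen_compl_iff, heq]
    exact isOpen_setOfPred_eventually_nhds
  have hU : {z : X | ∀ᶠ y in 𝓝 z, y ∉ S.sing → y ∈ A} = univ := by
    refine IsClopen.eq_univ ⟨hcl, hop⟩ ⟨x0, ?_⟩
    show ∀ᶠ y in 𝓝 x0, y ∉ S.sing → y ∈ A
    filter_upwards [eventually_iff hsc hA hx0] with y hy _
    exact hy.2.mpr hx0A
  have hxU : x ∈ {z : X | ∀ᶠ y in 𝓝 z, y ∉ S.sing → y ∈ A} := by rw [hU]; exact mem_univ _
  exact Filter.Eventually.self_of_nhds hxU hx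

end TransSurf

end Pool.Agent.MP_b29402_an

end

-- part MP_b29402_an.I6
section

/-! Second countability, measure exact charts, measurability. -/

open MeasureTheory Set Filter Topology ProbabilityTheory
open scoped ComplexConjugate ENNReal

namespace Pool.Agent.MP_b29402_an

open Pointwise in
/-- `io sc = (sc⁻¹ • ·) ∘ Complex.measurableEquivRealProd.symm`; `Complex.volume_preserving_equiv_real_prod`,
`Measure.addHaar_image_homothety` / `Measure.addHaar_smul`, translation invariance, `finrank ℝ ℂ = 2` -/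
theorem volume_image_io {sc : ℝ} (hsc : 0 < sc) (z : ℂ) (A : Set P2) :
    ENNReal.ofReal (sc ^ 2) * volume ((fun w => z + io sc w) '' A) = volume A := by
  have h1 : (fun w => z + io sc w) '' A =
      (fun u => z + u) '' (sc⁻¹ • (Complex.measurableEquivRealProd ⁻¹' A)) := by
    ext u
    constructor
    · rintro ⟨w, hw, rfl⟩
      refine ⟨_, ⟨(w.1 : ℂ) + (w.2 : ℂ) * Complex.I, ?_, rfl⟩, ?_⟩
      · simpa [Complex.measurableEquivRealProd_apply] using hw
      · simp only [io, Complex.real_smul]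
        push_cast
        ring
    · rintro ⟨_, ⟨u, hu, rfl⟩, rfl⟩
      refine ⟨(u.re, u.im), by simpa [Complex.measurableEquivRealProd_apply] using hu, ?_⟩
      simp only [io, Complex.real_smul, Complex.re_add_im]
      push_cast
      ring
  rw [h1, Set.image_add_left, measure_preimage_add, Measure.addHaar_smul,
    Complex.volume_preserving_equiv_real_prod.measure_preimage_equiv, Complex.finrank_real_complex,
    ← mul_assoc, ← ENNReal.ofReal_mul (by positivity), abs_of_nonneg (by positivity)]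
  have : sc ^ 2 * sc⁻¹ ^ 2 = 1 := by field_simp
  rw [this]
  simp

theorem measurableEmbedding_io {sc : ℝ} (hsc : 0 < sc) (z : ℂ) :
    MeasurableEmbedding (fun w => z + io sc w) :=
  Continuous.measurableEmbedding (continuous_const.add (io_continuous sc))
    fun _ _ h => (io_bijective hsc).1 (add_left_cancel h)

theorem I6_io_inv {sc : ℝ} (hsc : 0 < sc) (u : ℂ) : io sc (sc * u.re, sc * u.im) = u := by
  have : (sc : ℂ) ≠ 0 := by exact_mod_cast hsc.ne'
  simp only [io]
  push_cast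
  rw [div_eq_iff this]
  conv_rhs => rw [← Complex.re_add_im u]
  ring

namespace TransSurf

variable {X : Type*} [TopologicalSpace X] [T2Space X] [CompactSpace X] {sc : ℝ}

omit [T2Space X] in
/-- finitely many cone charts (`exists_coneAt`) cover `X`; `OpenPartialHomeomorph.secondCountableTopology_source`,
`TopologicalSpace.secondCountableTopology_of_countable_cover` -/
theorem secondCountable (S : TransSurf X) : SecondCountableTopology X := by
  choose k φ h using S.exists_coneAt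
  obtain ⟨t, ht⟩ := isCompact_univ.elim_finite_subcover (fun z => (φ z).source)
    (fun z => (φ z).open_source) (fun z _ => mem_iUnion.mpr ⟨z, (h z).2.1⟩)
  have : ∀ i : t, SecondCountableTopology (φ i).source := fun i =>
    (φ i).secondCountableTopology_source
  refine TopologicalSpace.secondCountableTopology_of_countable_cover
    (U := fun i : t => (φ i).source) (fun i => (φ i).open_source) ?_
  refine eq_univ_of_forall fun x => ?_
  obtain ⟨i, hi, hx⟩ := mem_iUnion₂.mp (ht (mem_univ x))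
  exact mem_iUnion.mpr ⟨⟨i, hi⟩, hx⟩

omit [T2Space X] [CompactSpace X] in
theorem I6_meas_chart [MeasurableSpace X] [BorelSpace X] (e : OpenPartialHomeomorph X ℂ)
    {B : Set ℂ} (hB : MeasurableSet B) : MeasurableSet (e.source ∩ e ⁻¹' B) := by
  classical
  have hm : Measurable (e.source.piecewise e fun _ => (0 : ℂ)) :=
    ContinuousOn.measurable_piecewise e.continuousOn continuousOn_const
      e.open_source.measurableSet
  have : e.source ∩ e ⁻¹' B = e.source ∩ (e.source.piecewise e fun _ => (0 : ℂ)) ⁻¹' B := by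
    ext y
    by_cases hy : y ∈ e.source
    · simp [hy]
    · simp [hy]
  rw [this]
  exact e.open_source.measurableSet.inter (hm hB)

omit [CompactSpace X] in
theorem I6_local [MeasurableSpace X] [BorelSpace X] (S : TransSurf X) (hsc : 0 < sc)
    (μ : Measure X)
    (hμ : ∀ e ∈ S.atlas, ∀ A ⊆ e.source, MeasurableSet A →
      μ A = ENNReal.ofReal (sc ^ 2) * volume (e '' A)) {x : X} (hx : x ∉ S.sing) :
    ∃ K : Set P2, (IsOpen K ∧ Convex ℝ K ∧ (0 : P2) ∈ K ∧ K ⊆ S.Dom sc x ∧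
        InjOn (S.mov sc x) K ∧ ∀ A ⊆ K, MeasurableSet A →
          MeasurableSet (S.mov sc x '' A) ∧ μ (S.mov sc x '' A) = volume A) ∧
      S.mov sc x '' K ∈ 𝓝 x := by
  obtain ⟨e, he, hxe⟩ := (S.cover x).mp hx
  obtain ⟨r, hr0, hr⟩ := Metric.isOpen_iff.mp e.open_target (e x) (e.map_source hxe)
  have hin : ∀ w ∈ Metric.ball (0 : P2) (r * sc / 2), e x + io sc w ∈ Metric.ball (e x) r := by
    intro w hw
    rw [mem_ball_zero_iff] at hw
    rw [mem_ball_iff_norm, add_sub_cancel_left]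
    calc ‖io sc w‖ ≤ 2 / sc * ‖w‖ := norm_io_le hsc w
      _ < 2 / sc * (r * sc / 2) := by gcongr
      _ = r := by field_simp
  have hmov : ∀ w ∈ Metric.ball (0 : P2) (r * sc / 2),
      w ∈ S.Dom sc x ∧ S.mov sc x w = e.symm (e x + io sc w) := fun w hw =>
    mov_chart he hxe hr (Metric.mem_ball_self hr0) (hin w hw)
  have himg : ∀ A ⊆ Metric.ball (0 : P2) (r * sc / 2),
      S.mov sc x '' A = e.source ∩ e ⁻¹' ((fun w => e x + io sc w) '' A) := by
    intro A hA
    ext y
    constructor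
    · rintro ⟨w, hw, rfl⟩
      rw [(hmov w (hA hw)).2]
      refine ⟨e.map_target (hr (hin w (hA hw))), w, hw, ?_⟩
      rw [e.right_inv (hr (hin w (hA hw)))]
    · rintro ⟨hy, w, hw, hwy⟩
      refine ⟨w, hw, ?_⟩
      rw [(hmov w (hA hw)).2]
      simp only at hwy
      rw [hwy, e.left_inv hy]
  refine ⟨Metric.ball 0 (r * sc / 2), ⟨Metric.isOpen_ball, convex_ball _ _,
    Metric.mem_ball_self (by positivity), fun w hw => (hmov w hw).1, ?_, ?_⟩, ?_⟩
  · intro w hw w' hw' h
    rw [(hmov w hw).2, (hmov w' hw').2] at h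
    have := e.symm.injOn (hr (hin w hw)) (hr (hin w' hw')) h
    exact (io_bijective hsc).1 (add_left_cancel this)
  · intro A hA hAm
    have hB : MeasurableSet ((fun w => e x + io sc w) '' A) :=
      (measurableEmbedding_io hsc (e x)).measurableSet_image.mpr hAm
    have hm := I6_meas_chart e hB
    rw [himg A hA]
    refine ⟨hm, ?_⟩
    rw [hμ e he _ inter_subset_left hm, ← volume_image_io hsc (e x) A]
    congr 2
    ext u
    constructor
    · rintro ⟨y, hy, rfl⟩
      exact hy.2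
    · rintro ⟨w, hw, rfl⟩
      have ht := hr (hin w (hA hw))
      refine ⟨e.symm (e x + io sc w), ⟨e.map_target ht, w, hw, ?_⟩, e.right_inv ht⟩
      rw [e.right_inv ht]
  · rw [himg _ Subset.rfl]
    refine inter_mem (e.open_source.mem_nhds hxe) ?_
    refine (e.continuousAt hxe).preimage_mem_nhds ?_
    refine mem_of_superset (Metric.ball_mem_nhds (e x) (half_pos hr0)) fun u hu => ?_
    obtain ⟨w, hw⟩ := (io_bijective hsc).2 (u - e x)
    refine ⟨w, ?_, by simp [hw]⟩
    rw [mem_ball_zero_iff]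
    rw [mem_ball_iff_norm] at hu
    calc ‖w‖ ≤ sc * ‖io sc w‖ := norm_le_io hsc w
      _ < sc * (r / 2) := by rw [hw]; gcongr
      _ = r * sc / 2 := by ring

/-- For a regular `x` take a chart `e`, a disc `ball (e x) r ⊆ e.target`, `K = ball 0 δ` with `2 δ / sc ≤ r`;
`mov x w = e.symm (e x + io w)` on `K` (`mov_chart`); the image of `K` is a neighbourhood of `x`. Countably many of
them cover the regular points (`TopologicalSpace.countable_cover_nhdsWithin`; there is a regular point as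
`μ sing = 0`; `Set.Countable.exists_eq_range`). Images of measurable sets: `e.symm` is continuous and injective on
`e.target`; `mov x '' A = e.source ∩ e ⁻¹' (e x + io '' A)` is measurable (`ContinuousOn.measurable_piecewise` or
`MeasurableSet.image_of_continuousOn_injOn`), its measure is given by `hμ` and `volume_image_io`. -/
theorem charts_Dom [MeasurableSpace X] [BorelSpace X] (S : TransSurf X) (hsc : 0 < sc)
    (μ : Measure X) [IsProbabilityMeasure μ] (h0 : μ (S.sing : Set X) = 0)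
    (hμ : ∀ e ∈ S.atlas, ∀ A ⊆ e.source, MeasurableSet A →
      μ A = ENNReal.ofReal (sc ^ 2) * volume (e '' A)) :
    ∃ (c : ℕ → X) (K : ℕ → Set P2),
      (∀ i, IsOpen (K i) ∧ Convex ℝ (K i) ∧ (0 : P2) ∈ K i ∧ K i ⊆ S.Dom sc (c i) ∧
        InjOn (S.mov sc (c i)) (K i) ∧ ∀ A ⊆ K i, MeasurableSet A →
          MeasurableSet (S.mov sc (c i) '' A) ∧ μ (S.mov sc (c i) '' A) = volume A) ∧
      ∀ x, (0 : P2) ∈ S.Dom sc x → ∃ i, x ∈ S.mov sc (c i) '' K i := by
  classical
  have := S.secondCountable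
  have hloc : ∀ x : X, ∃ K : Set P2, x ∉ S.sing → (IsOpen K ∧ Convex ℝ K ∧ (0 : P2) ∈ K ∧
      K ⊆ S.Dom sc x ∧ InjOn (S.mov sc x) K ∧ ∀ A ⊆ K, MeasurableSet A →
          MeasurableSet (S.mov sc x '' A) ∧ μ (S.mov sc x '' A) = volume A) ∧
      S.mov sc x '' K ∈ 𝓝 x := by
    intro x
    by_cases hx : x ∈ S.sing
    · exact ⟨∅, fun h => absurd hx h⟩
    · obtain ⟨K, hK⟩ := I6_local S hsc μ hμ hx
      exact ⟨K, fun _ => hK⟩
  choose K hK using hloc
  obtain ⟨t, hts, htc, hcov⟩ := TopologicalSpace.countable_cover_nhdsWithin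
    (s := {x : X | x ∉ S.sing}) (f := fun x => S.mov sc x '' K x)
    (fun x hx => mem_nhdsWithin_of_mem_nhds (hK x hx).2)
  have hne : t.Nonempty := by
    by_contra hne
    rw [not_nonempty_iff_eq_empty] at hne
    subst hne
    have hall : (S.sing : Set X) = univ := by
      refine eq_univ_of_forall fun x => ?_
      by_contra hx
      simpa using hcov (show x ∈ {x : X | x ∉ S.sing} from hx)
    rw [hall, measure_univ] at h0
    exact one_ne_zero h0
  obtain ⟨c, hc⟩ := htc.exists_eq_range hne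
  refine ⟨c, fun i => K (c i), fun i => (hK (c i) (hts (hc ▸ mem_range_self i))).1, ?_⟩
  intro x hx
  obtain ⟨y, hy, hxy⟩ := mem_iUnion₂.mp (hcov (show x ∈ {x : X | x ∉ S.sing} from zero_mem_Dom.mp hx))
  rw [hc] at hy
  obtain ⟨i, rfl⟩ := hy
  exact ⟨i, hxy⟩

omit [CompactSpace X] in
/-- near `(x0, v0)`: with a tube `K ⊆ Dom x0` around `[0, v0]` (`exists_tube`, `convex_tube`) and a chart `e` at `x0`,
`x = mov x0 (a x)` with `a x = io⁻¹ (e x - e x0)` continuous at `x0`, `a x0 = 0`; `conv_Dom` gives `v ∈ Dom x` and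
`mov x v = mov x0 (a x + v)`; `continuousOn_mov`. -/
theorem joint_local (S : TransSurf X) (hsc : 0 < sc) {x0 : X} {v0 : P2} (h : v0 ∈ S.Dom sc x0) :
    (∀ᶠ p in 𝓝 (x0, v0), p.2 ∈ S.Dom sc p.1) ∧
      ContinuousAt (fun p : X × P2 => S.mov sc p.1 p.2) (x0, v0) := by
  have hx0 : x0 ∉ S.sing := by
    have := star_Dom x0 h le_rfl zero_le_one
    rw [zero_smul] at this
    exact zero_mem_Dom.mp this
  obtain ⟨e, he, hxe⟩ := (S.cover x0).mp hx0
  obtain ⟨r, hr0, hr⟩ := Metric.isOpen_iff.mp e.open_target (e x0) (e.map_source hxe)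
  obtain ⟨δ, hδ, hK⟩ := exists_tube (isOpen_Dom (S := S) (sc := sc) x0) (v := v0)
    fun t h0 h1 => star_Dom x0 h h0 h1
  let a : X → P2 := fun x => (sc * (e x - e x0).re, sc * (e x - e x0).im)
  have hea : ContinuousAt (fun x => e x - e x0) x0 := (e.continuousAt hxe).sub continuousAt_const
  have ha : ContinuousAt a x0 :=
    (continuousAt_const.mul (Complex.continuous_re.continuousAt.comp hea)).prodMk
      (continuousAt_const.mul (Complex.continuous_im.continuousAt.comp hea))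
  have ha0 : a x0 = 0 := by simp [a]
  have ha1 : ContinuousAt (fun p : X × P2 => a p.1) (x0, v0) :=
    ContinuousAt.comp (f := Prod.fst) (x := (x0, v0)) ha continuousAt_fst
  have hb : ContinuousAt (fun p : X × P2 => a p.1 + p.2) (x0, v0) := ha1.add continuousAt_snd
  have e1 : ∀ᶠ p : X × P2 in 𝓝 (x0, v0), p.1 ∈ e.source ∧ e p.1 ∈ Metric.ball (e x0) r := by
    have : ∀ᶠ x in 𝓝 x0, x ∈ e.source ∧ e x ∈ Metric.ball (e x0) r :=
      (e.open_source.eventually_mem hxe).and
        ((e.continuousAt hxe).eventually_mem (Metric.ball_mem_nhds _ hr0))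
    exact (continuousAt_fst (p := (x0, v0))).eventually this
  have e2 : ∀ᶠ p : X × P2 in 𝓝 (x0, v0), a p.1 ∈ Metric.ball (0 : P2) δ := by
    refine ha1.eventually_mem ?_
    simp only [ha0]
    exact Metric.ball_mem_nhds _ hδ
  have e3 : ∀ᶠ p : X × P2 in 𝓝 (x0, v0), a p.1 + p.2 ∈ Metric.ball v0 δ := by
    refine hb.eventually_mem ?_
    simp only [ha0, zero_add]
    exact Metric.ball_mem_nhds _ hδ
  have key : ∀ᶠ p : X × P2 in 𝓝 (x0, v0),
      p.2 ∈ S.Dom sc p.1 ∧ S.mov sc p.1 p.2 = S.mov sc x0 (a p.1 + p.2) := by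
    filter_upwards [e1, e2, e3] with p h1 h2 h3
    have hio : e x0 + io sc (a p.1) = e p.1 := by
      simp only [a]
      rw [I6_io_inv hsc]
      ring
    have hm := (mov_chart (S := S) (sc := sc) he hxe hr (Metric.mem_ball_self hr0)
      (w := a p.1) (by rw [hio]; exact h1.2)).2
    rw [hio, e.left_inv h1.1] at hm
    have := conv_Dom (S := S) (sc := sc) x0 _ (convex_tube v0 δ) hK (a := a p.1) (b := a p.1 + p.2)
      ⟨0, le_rfl, zero_le_one, by simpa using h2⟩
      ⟨1, zero_le_one, le_rfl, by simpa [dist_eq_norm] using h3⟩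
    rw [hm, add_sub_cancel_left] at this
    exact this
  refine ⟨key.mono fun p hp => hp.1, ?_⟩
  have hc : ContinuousAt (S.mov sc x0) (a x0 + v0) := by
    rw [ha0, zero_add]
    exact (continuousOn_mov x0).continuousAt ((isOpen_Dom x0).mem_nhds h)
  have hc2 : ContinuousAt (fun p : X × P2 => S.mov sc x0 (a p.1 + p.2)) (x0, v0) :=
    ContinuousAt.comp (f := fun p : X × P2 => a p.1 + p.2) (x := (x0, v0)) hc hb
  exact hc2.congr (key.mono fun p hp => hp.2.symm)

omit [CompactSpace X] in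
theorem I6_isOpen (S : TransSurf X) (hsc : 0 < sc) : IsOpen {p : X × P2 | p.2 ∈ S.Dom sc p.1} :=
  isOpen_iff_mem_nhds.mpr fun p hp => (joint_local S hsc (x0 := p.1) (v0 := p.2) hp).1

theorem measurableSet_Dom [MeasurableSpace X] [BorelSpace X] (S : TransSurf X) (hsc : 0 < sc) :
    MeasurableSet {p : X × P2 | p.2 ∈ S.Dom sc p.1} :=
  (I6_isOpen S hsc).measurableSet

/-- piecewise: continuous on the open set of `joint_local`, equal to `p.1` elsewhere
(`ContinuousOn.measurable_piecewise`; the product is a Borel space by `secondCountable`) -/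
theorem measurable_mov [MeasurableSpace X] [BorelSpace X] (S : TransSurf X) (hsc : 0 < sc) :
    Measurable fun p : X × P2 => S.mov sc p.1 p.2 := by
  classical
  have hm : Measurable ({p : X × P2 | p.2 ∈ S.Dom sc p.1}.piecewise
      (fun p : X × P2 => S.mov sc p.1 p.2) Prod.fst) :=
    ContinuousOn.measurable_piecewise
      (fun p hp => (joint_local S hsc (x0 := p.1) (v0 := p.2) hp).2.continuousWithinAt)
      continuous_fst.continuousOn (measurableSet_Dom S hsc)
  convert hm using 1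
  funext p
  by_cases hp : p.2 ∈ S.Dom sc p.1
  · rw [piecewise_eq_of_mem _ _ _ (show p ∈ {p : X × P2 | p.2 ∈ S.Dom sc p.1} from hp)]
  · rw [piecewise_eq_of_notMem _ _ _ (show p ∉ {p : X × P2 | p.2 ∈ S.Dom sc p.1} from hp)]
    simp only [mov, dif_neg hp]

end TransSurf

end Pool.Agent.MP_b29402_an

end
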