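import Pool.Agent.MP_b29402_an.Mg.Apx
import Pool.Agent.MP_b29402_an.Mg.DkB

-- part MP_b29402_an.TA2
section

/-! Theorem A: spectral disjointness gives decay of the mean squares of the circle averages. -/

open MeasureTheory Set Filter Topology ProbabilityTheory
open scoped ComplexConjugate ENNReal

namespace Pool.Agent.MP_b29402_an

/-- the upper bound along rays which is provided by the geometry -/
def RayBound (H : ℝ → ℝ → ℂ) (σ : Kernel ℝ ℝ) (C : ℝ) (Θ : ℝ → Set ℝ) : Prop :=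
  ∀ (n : ℕ) (a : Fin n → ℂ) (t : Fin n → ℝ) (t0 : ℝ), (∀ i, 0 < t0 + t i) → ∀ δ : ℝ, 0 < δ →
    ∀ᶠ N in atTop, ∀ᵐ θ ∂PP, θ ∈ Θ N →
      ces (fun s => ∑ i, a i * H θ (s + t i)) t0 N ≤ C * ∫ y, ‖tp a t y‖ ^ 2 ∂(σ θ) + δ

theorem TA2_meas {H : ℝ → ℝ → ℂ} (hH : Measurable (Function.uncurry H)) (S : Set ℝ) :
    Measurable fun s => ∫ θ in S, H θ s ∂PP :=
  (hH.stronglyMeasurable.integral_prod_left (μ := PP.restrict S)).measurable

theorem TA2_int {H : ℝ → ℝ → ℂ} (hH : Measurable (Function.uncurry H))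
    (hb : ∀ θ s, ‖H θ s‖ ≤ 1) (s : ℝ) : Integrable (fun θ => H θ s) PP :=
  (integrable_const (1 : ℝ)).mono'
    (hH.comp (measurable_id.prodMk measurable_const)).aestronglyMeasurable
    (Eventually.of_forall fun θ => hb θ s)

theorem TA2_norm {H : ℝ → ℝ → ℂ} (hb : ∀ θ s, ‖H θ s‖ ≤ 1) (S : Set ℝ) (s : ℝ) :
    ‖∫ θ in S, H θ s ∂PP‖ ≤ PP.real S := by
  simpa using norm_setIntegral_le_of_norm_le_const (μ := PP) (s := S) (f := fun θ => H θ s)
    (C := 1) (measure_lt_top _ _) fun θ _ => hb θ s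

theorem TA2_comb_meas {b : ℝ → ℂ} (hb : Measurable b) {n : ℕ} (a : Fin n → ℂ) (t : Fin n → ℝ) :
    Measurable fun s => ∑ i, a i * b (s + t i) :=
  Finset.measurable_sum _ fun i _ => (hb.comp (measurable_id.add_const (t i))).const_mul _

theorem TA2_comb_le {b : ℝ → ℂ} (hb : ∀ s, ‖b s‖ ≤ 1) {n : ℕ} (a : Fin n → ℂ) (t : Fin n → ℝ)
    (s : ℝ) : ‖∑ i, a i * b (s + t i)‖ ≤ ∑ i, ‖a i‖ :=
  (norm_sum_le _ _).trans (Finset.sum_le_sum fun i _ => by
    rw [norm_mul]
    exact mul_le_of_le_one_right (norm_nonneg _) (hb _))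

theorem TA2_tp_meas {n : ℕ} (a : Fin n → ℂ) (t : Fin n → ℝ) :
    Measurable fun y => ‖tp a t y‖ ^ 2 := ((tp_continuous a t).norm.pow 2).measurable

theorem TA2_tp_le {n : ℕ} (a : Fin n → ℂ) (t : Fin n → ℝ) (y : ℝ) :
    |‖tp a t y‖ ^ 2| ≤ (∑ i, ‖a i‖) ^ 2 := by
  rw [abs_of_nonneg (by positivity)]
  exact pow_le_pow_left₀ (norm_nonneg _) (tp_norm_le a t y) 2

theorem TA2_amgm {p y ε : ℝ} (hp : 0 ≤ p) (hy : 0 ≤ y) (hε : 0 < ε) :
    Real.sqrt (p * y) ≤ (ε * p + y / ε) / 2 := by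
  refine Real.sqrt_le_iff.2 ⟨by positivity, ?_⟩
  have h : ε * p * (y / ε) = p * y := by field_simp
  nlinarith [sq_nonneg (ε * p - y / ε)]

/-- one piece of the partition -/
theorem TA2_piece {A B : ℝ → ℂ} (hA : Measurable A) (hB : Measurable B) (hA1 : ∀ s, ‖A s‖ ≤ 1)
    {p : ℝ} (hp1 : p ≤ 1) (hB1 : ∀ s, ‖B s‖ ≤ p) {k : ℕ} (a : Fin k → ℂ) (t : Fin k → ℝ)
    {t0 N x z ε : ℝ} (hN : 0 < N) (hx : 0 ≤ x) (hz : 0 ≤ z) (hε : 0 < ε)
    (h1 : ces (fun s => B s - ∑ j, a j * B (s + t j)) t0 N ≤ p * x)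
    (h2 : ces (fun s => ∑ j, conj (a j) * A (s + -t j)) t0 N ≤ z) :
    ‖cin B A t0 N‖ ≤ (ε * p + x / ε) / 2 + p * ((ε + z / ε) / 2) +
      (∑ j, ‖a j‖ * (2 * |t j|)) / N := by
  have hp : 0 ≤ p := (norm_nonneg _).trans (hB1 0)
  have hB2 : ∀ s, ‖B s‖ ≤ 1 := fun s => (hB1 s).trans hp1
  have hS : 0 ≤ ∑ j, ‖a j‖ := Finset.sum_nonneg fun _ _ => norm_nonneg _
  have hv := TA2_comb_meas hB a t
  have hv1 := TA2_comb_le hB2 a t
  have hw := TA2_comb_meas hA (fun j => conj (a j)) (fun j => -t j)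
  have hw1 : ∀ s, ‖∑ j, conj (a j) * A (s + -t j)‖ ≤ 1 + ∑ j, ‖a j‖ := fun s => by
    have := TA2_comb_le hA1 (fun j => conj (a j)) (fun j => -t j) s
    simp only [RCLike.norm_conj] at this
    linarith
  have hu1 : ∀ s, ‖B s - ∑ j, a j * B (s + t j)‖ ≤ 1 + ∑ j, ‖a j‖ := fun s =>
    (norm_sub_le _ _).trans (add_le_add (hB2 s) (hv1 s))
  have hA2 : ∀ s, ‖A s‖ ≤ 1 + ∑ j, ‖a j‖ := fun s => by linarith [hA1 s]
  have hu : Measurable fun s => B s - ∑ j, a j * B (s + t j) := hB.sub hv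
  have e : cin B A t0 N = cin (fun s => B s - ∑ j, a j * B (s + t j)) A t0 N +
      cin (fun s => ∑ j, a j * B (s + t j)) A t0 N := by
    rw [← cin_add_left hu hv hA hu1 (fun s => by linarith [hv1 s]) hA2]
    simp only [sub_add_cancel]
  have k1 : ‖cin (fun s => B s - ∑ j, a j * B (s + t j)) A t0 N‖ ≤ (ε * p + x / ε) / 2 := by
    refine (norm_cin_le hu hA hu1 hA2 t0 hN).trans ?_
    have a1 : Real.sqrt (ces A t0 N) ≤ 1 :=
      Real.sqrt_le_iff.2 ⟨zero_le_one, ces_le hA1 t0 hN⟩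
    exact (mul_le_of_le_one_right (Real.sqrt_nonneg _) a1).trans
      ((Real.sqrt_le_sqrt h1).trans (TA2_amgm hp hx hε))
  have k2 : ‖cin B (fun s => ∑ j, conj (a j) * A (s + -t j)) t0 N‖ ≤ p * ((ε + z / ε) / 2) := by
    refine (norm_cin_le hB hw (fun s => by linarith [hB2 s]) hw1 t0 hN).trans ?_
    have a1 : Real.sqrt (ces B t0 N) ≤ p := Real.sqrt_le_iff.2 ⟨hp, ces_le hB1 t0 hN⟩
    have a2 := (Real.sqrt_le_sqrt h2).trans
      (by simpa using TA2_amgm zero_le_one hz hε : Real.sqrt z ≤ (ε + z / ε) / 2)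
    exact mul_le_mul a1 a2 (Real.sqrt_nonneg _) hp
  have k3 := cin_shift hB hA hB2 hA1 a t t0 hN
  rw [mul_one, mul_one] at k3
  rw [e]
  have k4 := norm_le_norm_add_norm_sub' (cin (fun s => ∑ j, a j * B (s + t j)) A t0 N)
    (cin B (fun s => ∑ j, conj (a j) * A (s + -t j)) t0 N)
  linarith [norm_add_le (cin (fun s => B s - ∑ j, a j * B (s + t j)) A t0 N)
    (cin (fun s => ∑ j, a j * B (s + t j)) A t0 N)]

theorem TA2_split {H : ℝ → ℝ → ℂ} (hH : Measurable (Function.uncurry H))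
    (hb : ∀ θ s, ‖H θ s‖ ≤ 1) {n : ℕ} {J : Fin n → Set ℝ} (hJ : ∀ i, MeasurableSet (J i))
    (hd : Pairwise (fun i j => Disjoint (J i) (J j))) (hU : (⋃ i, J i) = Ico 0 1) {T : Set ℝ}
    (hT : MeasurableSet T) (s : ℝ) :
    ∫ θ in T, H θ s ∂PP = ∑ i, ∫ θ in J i ∩ T, H θ s ∂PP := by
  rw [← integral_iUnion_fintype (fun i => (hJ i).inter hT)
    (fun i j hij => (hd hij).mono inter_subset_left inter_subset_left)
    (fun i => (TA2_int hH hb s).integrableOn), ← iUnion_inter, hU]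
  refine setIntegral_congr_set ?_
  have : ∀ᵐ θ ∂PP, θ ∈ Ico (0 : ℝ) 1 := ae_restrict_mem measurableSet_Ico
  filter_upwards [this] with θ hθ
  exact propext ⟨fun h => ⟨hθ, h⟩, fun h => h.2⟩

/-- `ces_integral_le` with `W θ s = ∑ i, a i * H θ (s + t i)`, `J ∩ Θ N`,
`g θ = C * ∫ ‖tp a t y‖² dσ θ + δ` (`integrable_kint`), monotonicity in the set. -/
theorem ray_integral {H : ℝ → ℝ → ℂ} (hH : Measurable (Function.uncurry H))
    (hb : ∀ θ s, ‖H θ s‖ ≤ 1) {σ : Kernel ℝ ℝ} [IsFiniteKernel σ] {C : ℝ} (hC : 0 ≤ C)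
    {Θ : ℝ → Set ℝ} (hΘ : ∀ N, MeasurableSet (Θ N)) (hr : RayBound H σ C Θ) {n : ℕ}
    (a : Fin n → ℂ) (t : Fin n → ℝ) {t0 : ℝ} (ht : ∀ i, 0 < t0 + t i) {J : Set ℝ}
    (hJ : MeasurableSet J) {δ : ℝ} (hδ : 0 < δ) :
    ∀ᶠ N in atTop, ces (fun s => ∑ i, a i * ∫ θ in J ∩ Θ N, H θ (s + t i) ∂PP) t0 N ≤
      PP.real J * (C * ∫ θ in J, ∫ y, ‖tp a t y‖ ^ 2 ∂(σ θ) ∂PP + δ) := by
  filter_upwards [hr n a t t0 ht δ hδ, eventually_gt_atTop 0] with N h hN
  have hk := integrable_kint σ (TA2_tp_meas a t) (TA2_tp_le a t)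
  have hg : Integrable (fun θ => C * ∫ y, ‖tp a t y‖ ^ 2 ∂(σ θ) + δ) PP :=
    (hk.const_mul C).add (integrable_const δ)
  have hg0 : ∀ θ, 0 ≤ C * ∫ y, ‖tp a t y‖ ^ 2 ∂(σ θ) + δ := fun θ =>
    add_nonneg (mul_nonneg hC (integral_nonneg fun y => by positivity)) hδ.le
  have hW : Measurable (Function.uncurry fun θ s => ∑ i, a i * H θ (s + t i)) :=
    Finset.measurable_sum _ fun i _ =>
      (hH.comp (measurable_fst.prodMk (measurable_snd.add_const (t i)))).const_mul _
  have k := ces_integral_le hW (fun θ s => TA2_comb_le (hb θ) a t s) (hJ.inter (hΘ N)) hg t0 hN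
    (h.mono fun θ h1 h2 => h1 h2.2)
  have e : (fun s => ∑ i, a i * ∫ θ in J ∩ Θ N, H θ (s + t i) ∂PP) =
      fun s => ∫ θ in J ∩ Θ N, ∑ i, a i * H θ (s + t i) ∂PP := by
    funext s
    rw [integral_finsetSum _ fun i _ => (TA2_int hH hb _).integrableOn.const_mul _]
    simp only [integral_const_mul]
  rw [e]
  refine k.trans (mul_le_mul (measureReal_mono inter_subset_left) ?_
    (integral_nonneg fun θ => hg0 θ) measureReal_nonneg)
  refine (setIntegral_mono_set hg.integrableOn (Eventually.of_forall hg0)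
    inter_subset_left.eventuallyLE).trans ?_
  rw [integral_add (hk.const_mul C).integrableOn (integrable_const δ), integral_const_mul,
    setIntegral_const, smul_eq_mul]
  have : PP.real J ≤ 1 := measureReal_le_one
  nlinarith

/-- Data from `apx`; `t0 = 1 + ∑ i j, |t i j|`. Put `A s = ∫ θ in Θ N, H θ s`,
`A i s = ∫ θ in J i ∩ Θ N, H θ s` (`A = ∑ A i`, `‖A i‖ ≤ PP (J i)`, `‖A‖ ≤ 1`),
`v i s = ∑ j, a i j * A i (s + t i j)`, `u i = A i - v i`. Then
`ces A = cin A A = ∑ i, cin (u i) A + ∑ i, cin (v i) A`.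
`‖cin (u i) A‖ ≤ √(ces (u i))` and `ray_integral` with the coefficients of `tp_cons`.
`cin (v i) A = cin (A i) (w i) + O(1/N)` (`cin_shift`), `w i s = ∑ j, conj (a i j) * A (s + -t i j)`,
`‖cin (A i) (w i)‖ ≤ PP (J i) * √(ces (w i))`, `ray_integral` with `J = univ`, `tp_conj`, `integral_Sg`.
Sum with Cauchy-Schwarz over `i` (`∑ PP (J i) = 1`): `∑ √(p i * x i) ≤ √(∑ x i)`,
`∑ p i * √(x i) ≤ √(∑ p i * x i)`. Total `≤ 2 √(C δ' + o(1)) + o(1)`. -/
theorem thick_part_small {H : ℝ → ℝ → ℂ} (hH : Measurable (Function.uncurry H))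
    (hb : ∀ θ s, ‖H θ s‖ ≤ 1) {σ : Kernel ℝ ℝ} [IsFiniteKernel σ] (hs : mJ σ ⟂ₘ nJ σ) {C : ℝ}
    (hC : 0 ≤ C) {Θ : ℝ → Set ℝ} (hΘ : ∀ N, MeasurableSet (Θ N)) (hr : RayBound H σ C Θ)
    {δ : ℝ} (hδ : 0 < δ) :
    ∀ᶠ N in atTop, ces (fun s => ∫ θ in Θ N, H θ s ∂PP) 0 N ≤ δ := by
  obtain ⟨ε, hε, rfl⟩ : ∃ ε, 0 < ε ∧ δ = 4 * ε := ⟨δ / 4, by positivity, by ring⟩
  obtain ⟨n, J, k, a, t, hJ, hd, hU, hx, hz⟩ :=
    apx σ hs (δ := ε ^ 2 / (2 * (C + 1))) (by positivity)
  have hCδ : C * (ε ^ 2 / (2 * (C + 1))) ≤ ε ^ 2 / 2 := by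
    rw [← mul_div_assoc, div_le_div_iff₀ (by positivity) (by positivity)]
    nlinarith [sq_nonneg ε]
  obtain ⟨η, hη, hnη⟩ : ∃ η, 0 < η ∧ (n + 1) * η = ε ^ 2 / 2 :=
    ⟨ε ^ 2 / 2 / (n + 1), by positivity, by field_simp⟩
  obtain ⟨t0, ht0, ht⟩ : ∃ t0 : ℝ, 0 < t0 ∧ ∀ i j, |t i j| < t0 := by
    have h0 : ∀ i, 0 ≤ ∑ j, |t i j| := fun i => Finset.sum_nonneg fun _ _ => abs_nonneg _
    have h1 : 0 ≤ ∑ i, ∑ j, |t i j| := Finset.sum_nonneg fun i _ => h0 i
    refine ⟨1 + ∑ i, ∑ j, |t i j|, by linarith, fun i j => ?_⟩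
    have a1 := Finset.single_le_sum (f := fun j => |t i j|) (fun _ _ => abs_nonneg _)
      (Finset.mem_univ j)
    have a2 := Finset.single_le_sum (f := fun i => ∑ j, |t i j|) (fun i _ => h0 i)
      (Finset.mem_univ i)
    linarith
  have E1 := eventually_all.2 fun i => ray_integral hH hb hC hΘ hr
    (Fin.cons 1 (fun j => -a i j) : Fin (k i + 1) → ℂ) (Fin.cons 0 (t i) : Fin (k i + 1) → ℝ)
    (t0 := t0) (fun j => by
      refine Fin.cases ?_ (fun j => ?_) j
      · simpa using ht0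
      · have := abs_lt.1 (ht i j)
        simp only [Fin.cons_succ]
        linarith) (hJ i) hη
  have E2 := eventually_all.2 fun i => ray_integral hH hb hC hΘ hr
    (fun j => conj (a i j)) (fun j => -t i j) (t0 := t0)
    (fun j => by linarith [(abs_lt.1 (ht i j)).2]) MeasurableSet.univ hη
  have E3 : ∀ K : ℝ, ∀ᶠ N : ℝ in atTop, K / N ≤ ε := fun K =>
    (tendsto_const_nhds.div_atTop tendsto_id).eventually (ge_mem_nhds hε)
  filter_upwards [E1, E2, E3 t0, E3 (∑ i, ∑ j, ‖a i j‖ * (2 * |t i j|)), eventually_gt_atTop 0]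
    with N h1 h2 h3 h4 hN
  have hA := TA2_meas hH (Θ N)
  have hA1 : ∀ s, ‖∫ θ in Θ N, H θ s ∂PP‖ ≤ 1 := fun s =>
    (TA2_norm hb _ s).trans measureReal_le_one
  set x : Fin n → ℝ := fun i => ∫ θ in J i, ∫ y, ‖1 - tp (a i) (t i) y‖ ^ 2 ∂(σ θ) ∂PP with hxd
  set z : Fin n → ℝ := fun i => ∫ y, ‖tp (a i) (t i) y‖ ^ 2 ∂(Sg σ) with hzd
  have hx0 : ∀ i, 0 ≤ x i := fun i =>
    integral_nonneg fun θ => integral_nonneg fun y => by positivity
  have hz0 : ∀ i, 0 ≤ z i := fun i => integral_nonneg fun y => by positivity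
  have key : ∀ i, ‖cin (fun s => ∫ θ in J i ∩ Θ N, H θ s ∂PP) (fun s => ∫ θ in Θ N, H θ s ∂PP)
      t0 N‖ ≤ (ε * PP.real (J i) + (C * x i + η) / ε) / 2 +
        PP.real (J i) * ((ε + (C * z i + η) / ε) / 2) + (∑ j, ‖a i j‖ * (2 * |t i j|)) / N := by
    intro i
    refine TA2_piece hA (TA2_meas hH _) hA1 measureReal_le_one
      (fun s => (TA2_norm hb _ s).trans (measureReal_mono inter_subset_left)) (a i) (t i) hN
      (by have := hx0 i; positivity) (by have := hz0 i; positivity) hε ?_ ?_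
    · have := h1 i
      simp only [Fin.sum_univ_succ, Fin.cons_zero, Fin.cons_succ, tp_cons, one_mul, add_zero,
        neg_mul, Finset.sum_neg_distrib, ← sub_eq_add_neg] at this
      exact this
    · have := h2 i
      simp only [univ_inter, tp_conj, RCLike.norm_conj, probReal_univ, one_mul,
        Measure.restrict_univ] at this
      rw [← integral_Sg σ (TA2_tp_meas _ _) (TA2_tp_le _ _)] at this
      exact this
  have hp : ∑ i, PP.real (J i) ≤ 1 := by
    have := sum_measureReal_le_measureReal_univ (μ := PP) (s := Finset.univ) (t := J)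
      (fun i _ => hJ i) (fun i _ j _ hij => hd hij)
    simpa using this
  have e : cin (fun s => ∫ θ in Θ N, H θ s ∂PP) (fun s => ∫ θ in Θ N, H θ s ∂PP) t0 N =
      ∑ i, cin (fun s => ∫ θ in J i ∩ Θ N, H θ s ∂PP) (fun s => ∫ θ in Θ N, H θ s ∂PP) t0 N := by
    rw [← cin_sum_left Finset.univ (fun i => TA2_meas hH _) hA
      (fun i s => (TA2_norm hb _ s).trans measureReal_le_one) hA1]
    congr 1
    funext s
    exact TA2_split hH hb hJ hd hU (hΘ N) s
  have k1 : ces (fun s => ∫ θ in Θ N, H θ s ∂PP) t0 N ≤ 3 * ε := by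
    have a1 := (norm_sum_le _ _).trans (Finset.sum_le_sum (s := Finset.univ) fun i _ => key i)
    rw [← e, cin_self, Complex.norm_real] at a1
    refine (Real.le_norm_self _).trans (a1.trans ?_)
    have b1 : ∑ i, (ε * PP.real (J i) + (C * x i + η) / ε) / 2 =
        (ε * ∑ i, PP.real (J i) + (C * ∑ i, x i + n * η) / ε) / 2 := by
      rw [← Finset.sum_div, Finset.sum_add_distrib, ← Finset.mul_sum, ← Finset.sum_div,
        Finset.sum_add_distrib, ← Finset.mul_sum]
      simp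
    have b2 : ∑ i, PP.real (J i) * ((ε + (C * z i + η) / ε) / 2) =
        (ε * ∑ i, PP.real (J i) + (C * ∑ i, PP.real (J i) * z i + η * ∑ i, PP.real (J i)) / ε)
          / 2 := by
      simp only [Finset.mul_sum, ← Finset.sum_add_distrib, Finset.sum_div]
      exact Finset.sum_congr rfl fun i _ => by ring
    rw [Finset.sum_add_distrib, Finset.sum_add_distrib, b1, b2, ← Finset.sum_div]
    have c1 : (C * ∑ i, x i + n * η) / ε ≤ ε := by
      rw [div_le_iff₀ hε]
      nlinarith [mul_le_mul_of_nonneg_left hx hC]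
    have c2 : (C * ∑ i, PP.real (J i) * z i + η * ∑ i, PP.real (J i)) / ε ≤ ε := by
      rw [div_le_iff₀ hε]
      have : (0 : ℝ) ≤ n * η := by positivity
      nlinarith [mul_le_mul_of_nonneg_left hz hC, mul_le_mul_of_nonneg_left hp hη.le]
    nlinarith [mul_le_mul_of_nonneg_left hp hε.le]
  have k2 := ces_start_le hA hA1 ht0.le hN
  rw [one_pow, mul_one] at k2
  linarith

/-- `∫ θ, H θ s = ∫ θ in Θ N + ∫ θ in (Θ N)ᶜ`, the second has norm at most `γ`; `ces_add_le`, `ces_le`. -/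
theorem thmA {H : ℝ → ℝ → ℂ} (hH : Measurable (Function.uncurry H))
    (hb : ∀ θ s, ‖H θ s‖ ≤ 1) {σ : Kernel ℝ ℝ} [IsFiniteKernel σ] (hs : mJ σ ⟂ₘ nJ σ)
    (hr : ∀ γ : ℝ, 0 < γ → ∃ C : ℝ, 0 ≤ C ∧ ∃ Θ : ℝ → Set ℝ, (∀ N, MeasurableSet (Θ N)) ∧
      (∀ᶠ N in atTop, PP.real (Θ N)ᶜ ≤ γ) ∧ RayBound H σ C Θ) :
    Tendsto (fun N => ces (fun s => ∫ θ, H θ s ∂PP) 0 N) atTop (𝓝 0) := by
  refine Metric.tendsto_nhds.2 fun ε hε => ?_
  obtain ⟨C, hC, Θ, hΘ, h1, h2⟩ := hr (Real.sqrt (ε / 8)) (by positivity)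
  filter_upwards [h1, thick_part_small hH hb hs hC hΘ h2 (δ := ε / 8) (by positivity),
    eventually_gt_atTop 0] with N a1 a2 hN
  have e : (fun s => ∫ θ, H θ s ∂PP) =
      fun s => ∫ θ in Θ N, H θ s ∂PP + ∫ θ in (Θ N)ᶜ, H θ s ∂PP :=
    funext fun s => (integral_add_compl (hΘ N) (TA2_int hH hb s)).symm
  have k := ces_add_le (TA2_meas hH (Θ N)) (TA2_meas hH (Θ N)ᶜ)
    (fun s => (TA2_norm hb _ s).trans measureReal_le_one)
    (fun s => (TA2_norm hb _ s).trans measureReal_le_one) 0 hN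
  have k2 := ces_le (fun s => (TA2_norm hb (Θ N)ᶜ s).trans a1) 0 hN
  rw [Real.sq_sqrt (by positivity)] at k2
  rw [Real.dist_eq, sub_zero, abs_of_nonneg (ces_nonneg _ _ hN), e]
  linarith

end Pool.Agent.MP_b29402_an

end

-- part MP_b29402_an.Boch
section

/-! Bochner's theorem on the line. -/

open MeasureTheory Set Filter Topology ProbabilityTheory
open scoped ComplexConjugate ENNReal

namespace Pool.Agent.MP_b29402_an

theorem Boch_gauss_int (ε t : ℝ) :
    ∫ s : ℝ, Real.exp (-(ε * s ^ 2)) * Real.exp (-(ε * (s - t) ^ 2))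
      = Real.sqrt (Real.pi / (2 * ε)) * Real.exp (-(ε * t ^ 2 / 2)) := by
  have h1 : ∀ s : ℝ, Real.exp (-(ε * s ^ 2)) * Real.exp (-(ε * (s - t) ^ 2))
      = Real.exp (-(2 * ε) * (s - t / 2) ^ 2) * Real.exp (-(ε * t ^ 2 / 2)) := by
    intro s
    rw [← Real.exp_add, ← Real.exp_add]
    congr 1
    ring
  simp_rw [h1]
  rw [integral_mul_const]
  congr 1
  rw [integral_sub_right_eq_self (fun u : ℝ => Real.exp (-(2 * ε) * u ^ 2)) (t / 2)]
  exact integral_gaussian (2 * ε)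

theorem Boch_gauss_integrable {ε : ℝ} (hε : 0 < ε) :
    Integrable (fun s : ℝ => Real.exp (-(ε * s ^ 2))) := by
  have := integrable_exp_neg_mul_sq hε
  simpa only [neg_mul] using this

/-- the regularised density is nonnegative: apply the hypothesis to
`g s = ex (-(s x)) * exp (-ε s²)`; by Fubini and the substitution `s = t + s'`,
`∫∫ g s * conj (g s') * C (s - s') = ∫ ex (-(t x)) * C t * (∫ exp (-ε ((t + s')² + s'²)) ds') dt`
and the inner integral is `√(π / (2 ε)) * exp (-ε t² / 2)` (`integral_gaussian`, complete the square). -/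
theorem bochner_density_nonneg (C : ℝ → ℂ) (hc : Continuous C) {M : ℝ} (hb : ∀ t, ‖C t‖ ≤ M)
    (hpd : ∀ g : ℝ → ℂ, Continuous g → Integrable g →
      0 ≤ (∫ s, ∫ s', g s * conj (g s') * C (s - s')).re)
    {ε : ℝ} (hε : 0 < ε) (x : ℝ) :
    0 ≤ (∫ t, ex (-(t * x)) * ((Real.exp (-(ε * t ^ 2 / 2)) : ℝ) : ℂ) * C t).re := by
  have hexc := ex_continuous
  set g : ℝ → ℂ := fun s => ex (-(s * x)) * ((Real.exp (-(ε * s ^ 2)) : ℝ) : ℂ) with hg
  have hgc : Continuous g := by
    rw [hg]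
    fun_prop
  have hgi : Integrable g := by
    refine (Boch_gauss_integrable hε).mono' hgc.aestronglyMeasurable (ae_of_all _ fun s => ?_)
    simp only [hg, norm_mul, ex_norm, one_mul, Complex.norm_real, Real.norm_eq_abs,
      abs_of_pos (Real.exp_pos _), le_refl]
  have h0 := hpd g hgc hgi
  set K : ℝ → ℝ → ℂ := fun s t => ex (-(t * x)) * C t *
    ((Real.exp (-(ε * s ^ 2)) * Real.exp (-(ε * (s - t) ^ 2)) : ℝ) : ℂ) with hK
  have h1 : ∀ s, ∫ s', g s * conj (g s') * C (s - s') = ∫ t, K s t := by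
    intro s
    rw [← integral_sub_left_eq_self (fun s' => g s * conj (g s') * C (s - s')) volume s]
    refine integral_congr_ae (ae_of_all _ fun t => ?_)
    simp only [hg, hK, map_mul, ex_conj, Complex.conj_ofReal, sub_sub_cancel, neg_neg]
    have : ex (-(t * x)) = ex (-(s * x)) * ex ((s - t) * x) := by
      rw [← ex_add]; congr 1; ring
    rw [this]
    push_cast
    ring
  have hM : 0 ≤ M := (norm_nonneg _).trans (hb 0)
  have hKi : Integrable (Function.uncurry K) (volume.prod volume) := by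
    have hε3 : 0 < ε / 3 := by positivity
    have hI := ((Boch_gauss_integrable hε3).mul_prod (Boch_gauss_integrable hε3)).const_mul M
    refine hI.mono' ?_ (ae_of_all _ fun p => ?_)
    · refine Continuous.aestronglyMeasurable ?_
      rw [hK]
      unfold Function.uncurry
      fun_prop
    · obtain ⟨s, t⟩ := p
      simp only [hK, Function.uncurry_apply_pair, norm_mul, ex_norm, one_mul, Complex.norm_real,
        Real.norm_eq_abs, abs_of_pos (Real.exp_pos _)]
      refine mul_le_mul (hb t) ?_ (by positivity) hM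
      rw [← Real.exp_add, ← Real.exp_add]
      refine Real.exp_le_exp.2 ?_
      have : 0 ≤ s ^ 2 + (s - t) ^ 2 - (s ^ 2 + t ^ 2) / 3 := by
        nlinarith [sq_nonneg (3 * s - 2 * t), sq_nonneg s, sq_nonneg t]
      nlinarith [mul_nonneg hε.le this]
  simp_rw [h1] at h0
  rw [integral_integral_swap hKi] at h0
  have h2 : ∀ t, ∫ s, K s t = ((Real.sqrt (Real.pi / (2 * ε)) : ℝ) : ℂ) *
      (ex (-(t * x)) * ((Real.exp (-(ε * t ^ 2 / 2)) : ℝ) : ℂ) * C t) := by
    intro t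
    simp only [hK]
    rw [integral_const_mul, integral_complex_ofReal, Boch_gauss_int]
    push_cast
    ring
  simp_rw [h2] at h0
  rw [integral_const_mul, Complex.re_ofReal_mul] at h0
  have hs : 0 < Real.sqrt (Real.pi / (2 * ε)) := Real.sqrt_pos.2 (by positivity)
  exact nonneg_of_mul_nonneg_right h0 hs |> fun h => h

/-- the transform of an integrable function -/
noncomputable def Boch_P (F : ℝ → ℂ) (x : ℝ) : ℂ := ∫ t, ex (-(t * x)) * F t

theorem Boch_P_continuous {F : ℝ → ℂ} (hi : Integrable F) : Continuous (Boch_P F) := by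
  have hexc := ex_continuous
  refine continuous_of_dominated (bound := fun t => ‖F t‖) (fun x => ?_)
    (fun x => ae_of_all _ fun t => ?_) hi.norm (ae_of_all _ fun t => by fun_prop)
  · exact (Continuous.aestronglyMeasurable (by fun_prop)).mul hi.1
  · simp only [norm_mul, ex_norm, one_mul, le_refl]

theorem Boch_P_norm_le {F : ℝ → ℂ} (x : ℝ) : ‖Boch_P F x‖ ≤ ∫ t, ‖F t‖ := by
  refine (norm_integral_le_integral_norm _).trans (le_of_eq ?_)
  simp only [norm_mul, ex_norm, one_mul]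

theorem Boch_P_im {F : ℝ → ℂ} (hh : ∀ t, F (-t) = conj (F t)) (x : ℝ) :
    (Boch_P F x).im = 0 := by
  rw [← Complex.conj_eq_iff_im]
  unfold Boch_P
  rw [← integral_conj, ← integral_neg_eq_self (fun t => ex (-(t * x)) * F t)]
  refine integral_congr_ae (ae_of_all _ fun t => ?_)
  simp only [map_mul, ex_conj, hh, neg_mul]

theorem Boch_gauss_ft {δ : ℝ} (hδ : 0 < δ) (t : ℝ) :
    ∫ x : ℝ, ex (-(t * x)) * ((Real.exp (-(δ * x ^ 2)) : ℝ) : ℂ)
      = ((Real.sqrt (Real.pi / δ) * Real.exp (-((4 * δ)⁻¹ * t ^ 2)) : ℝ) : ℂ) := by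
  have h := fourierIntegral_gaussian (b := (δ : ℂ)) (by simpa using hδ) (-(t : ℂ))
  have h1 : ∀ x : ℝ, ex (-(t * x)) * ((Real.exp (-(δ * x ^ 2)) : ℝ) : ℂ)
      = Complex.exp (Complex.I * (-(t : ℂ)) * x) * Complex.exp (-(δ : ℂ) * x ^ 2) := by
    intro x
    unfold ex
    push_cast
    congr 2 <;> ring
  simp_rw [h1]
  rw [h]
  have h2 : ((Real.pi : ℂ) / δ) ^ (1 / 2 : ℂ) = ((Real.sqrt (Real.pi / δ) : ℝ) : ℂ) := by
    rw [Real.sqrt_eq_rpow, Complex.ofReal_cpow (by positivity)]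
    push_cast
    rfl
  rw [h2]
  push_cast
  congr 2
  ring

theorem Boch_P_gauss {F : ℝ → ℂ} (hi : Integrable F) {M : ℝ} (hb : ∀ t, ‖F t‖ ≤ M)
    {δ : ℝ} (hδ : 0 < δ) :
    ‖∫ x, Boch_P F x * ((Real.exp (-(δ * x ^ 2)) : ℝ) : ℂ)‖ ≤ 2 * Real.pi * M := by
  have hexc := ex_continuous
  set K : ℝ → ℝ → ℂ := fun x t => F t *
    (ex (-(t * x)) * ((Real.exp (-(δ * x ^ 2)) : ℝ) : ℂ)) with hK
  have h1 : ∀ x, Boch_P F x * ((Real.exp (-(δ * x ^ 2)) : ℝ) : ℂ) = ∫ t, K x t := by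
    intro x
    unfold Boch_P
    rw [← integral_mul_const]
    refine integral_congr_ae (ae_of_all _ fun t => ?_)
    simp only [hK]
    ring
  have hKi : Integrable (Function.uncurry K) (volume.prod volume) := by
    have hI := (Boch_gauss_integrable hδ).mul_prod hi.norm
    refine hI.mono' ?_ (ae_of_all _ fun p => ?_)
    · rw [hK]
      unfold Function.uncurry
      exact (hi.1.comp_snd).mul (Continuous.aestronglyMeasurable (by fun_prop))
    · obtain ⟨s, t⟩ := p
      simp only [hK, Function.uncurry_apply_pair, norm_mul, ex_norm, one_mul, Complex.norm_real,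
        Real.norm_eq_abs, abs_of_pos (Real.exp_pos _)]
      rw [mul_comm]
  simp_rw [h1]
  rw [integral_integral_swap hKi]
  have h2 : ∀ t, ∫ x, K x t = F t *
      ((Real.sqrt (Real.pi / δ) * Real.exp (-((4 * δ)⁻¹ * t ^ 2)) : ℝ) : ℂ) := by
    intro t
    simp only [hK]
    rw [integral_const_mul, Boch_gauss_ft hδ]
  simp_rw [h2]
  have hδ4 : 0 < (4 * δ)⁻¹ := by positivity
  have hI := ((Boch_gauss_integrable hδ4).const_mul (Real.sqrt (Real.pi / δ))).const_mul M
  refine (norm_integral_le_of_norm_le hI (ae_of_all _ fun t => ?_)).trans (le_of_eq ?_)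
  · rw [norm_mul, Complex.norm_real, Real.norm_eq_abs, abs_of_nonneg (by positivity)]
    exact mul_le_mul_of_nonneg_right (hb t) (by positivity)
  · rw [integral_const_mul, integral_const_mul]
    have h3 := integral_gaussian (4 * δ)⁻¹
    simp only [neg_mul] at h3
    rw [h3, ← Real.sqrt_mul (by positivity)]
    have h4 : Real.pi / δ * (Real.pi / (4 * δ)⁻¹) = (2 * Real.pi) ^ 2 := by
      field_simp
      norm_num
    rw [h4, Real.sqrt_sq (by positivity), mul_comm]

theorem Boch_P_integrable {F : ℝ → ℂ} (hi : Integrable F) {M : ℝ} (hb : ∀ t, ‖F t‖ ≤ M)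
    (him : ∀ x, (Boch_P F x).im = 0) (hre : ∀ x, 0 ≤ (Boch_P F x).re) :
    Integrable (Boch_P F) := by
  have hPc := Boch_P_continuous hi
  have hnorm : ∀ x, ‖Boch_P F x‖ = (Boch_P F x).re := by
    intro x
    rw [← Complex.abs_re_eq_norm.2 (him x), abs_of_nonneg (hre x)]
  refine ⟨hPc.aestronglyMeasurable, ?_⟩
  set G : ℕ → ℝ → ℝ := fun n x =>
    (Boch_P F x).re * Real.exp (-((1 / ((n : ℝ) + 1)) * x ^ 2)) with hG
  have hGc : ∀ n, Continuous (G n) := by
    intro n
    rw [hG]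
    fun_prop
  have hG0 : ∀ n x, 0 ≤ G n x := fun n x => mul_nonneg (hre x) (Real.exp_pos _).le
  have hGi : ∀ n, Integrable (G n) := by
    intro n
    have hδ : 0 < 1 / ((n : ℝ) + 1) := by positivity
    refine ((Boch_gauss_integrable hδ).const_mul (∫ t, ‖F t‖)).mono'
      (hGc n).aestronglyMeasurable (ae_of_all _ fun x => ?_)
    rw [Real.norm_eq_abs, abs_of_nonneg (hG0 n x)]
    refine mul_le_mul_of_nonneg_right ?_ (Real.exp_pos _).le
    rw [← hnorm]
    exact Boch_P_norm_le x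
  have hGb : ∀ n, ∫ x, G n x ≤ 2 * Real.pi * M := by
    intro n
    have hδ : 0 < 1 / ((n : ℝ) + 1) := by positivity
    have h := Boch_P_gauss hi hb hδ
    have h1 : ∀ x, Boch_P F x * ((Real.exp (-((1 / ((n : ℝ) + 1)) * x ^ 2)) : ℝ) : ℂ)
        = ((G n x : ℝ) : ℂ) := by
      intro x
      simp only [hG]
      rw [Complex.ofReal_mul]
      congr 1
      exact Complex.ext (by simp) (by simp [him])
    simp_rw [h1] at h
    rw [integral_complex_ofReal, Complex.norm_real, Real.norm_eq_abs] at h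
    exact (le_abs_self _).trans h
  have hlim : ∀ x, Tendsto (fun n => ENNReal.ofReal (G n x)) atTop
      (𝓝 (ENNReal.ofReal (Boch_P F x).re)) := by
    intro x
    refine (ENNReal.continuous_ofReal.tendsto _).comp ?_
    have h1 : Tendsto (fun n : ℕ => (Boch_P F x).re * Real.exp (-((1 / ((n : ℝ) + 1)) * x ^ 2)))
        atTop (𝓝 ((Boch_P F x).re * Real.exp (-(0 * x ^ 2)))) :=
      (((tendsto_one_div_add_atTop_nhds_zero_nat.mul_const _).neg).rexp).const_mul _
    rw [zero_mul, neg_zero, Real.exp_zero, mul_one] at h1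
    exact h1
  unfold HasFiniteIntegral
  have h2 : ∫⁻ x, ‖Boch_P F x‖ₑ = ∫⁻ x, liminf (fun n => ENNReal.ofReal (G n x)) atTop := by
    refine lintegral_congr fun x => ?_
    rw [(hlim x).liminf_eq, ← hnorm, ofReal_norm]
  rw [h2]
  refine (lintegral_liminf_le fun n => (hGc n).measurable.ennreal_ofReal).trans_lt ?_
  refine lt_of_le_of_lt (liminf_le_of_frequently_le' (Frequently.of_forall fun n => ?_))
    (ENNReal.ofReal_lt_top (r := 2 * Real.pi * M))
  rw [← ofReal_integral_eq_lintegral_ofReal (hGi n) (ae_of_all _ (hG0 n))]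
  exact ENNReal.ofReal_le_ofReal (hGb n)

open FourierTransform in
theorem Boch_inversion {F : ℝ → ℂ} (hc : Continuous F) (hi : Integrable F)
    (hP : Integrable (Boch_P F)) (t : ℝ) :
    F t = ∫ y, ex (t * y) * ((((2 * Real.pi)⁻¹ : ℝ) : ℂ) * Boch_P F y) := by
  have h2pi : (0 : ℝ) < 2 * Real.pi := by positivity
  have h1 : 𝓕 F = fun w => Boch_P F (2 * Real.pi * w) := by
    ext w
    rw [Real.fourier_real_eq_integral_exp_smul]
    unfold Boch_P ex
    refine integral_congr_ae (ae_of_all _ fun v => ?_)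
    simp only [smul_eq_mul]
    congr 2
    push_cast
    ring
  have h2 : Integrable (𝓕 F) := by
    rw [h1]
    exact hP.comp_mul_left' h2pi.ne'
  have h3 := congrFun (hc.fourierInv_fourier_eq hi h2) t
  rw [Real.fourierInv_eq', h1] at h3
  rw [← h3]
  have h4 := Measure.integral_comp_mul_left
    (fun y => ex (t * y) * ((((2 * Real.pi)⁻¹ : ℝ) : ℂ) * Boch_P F y)) (2 * Real.pi)
  rw [abs_of_pos (inv_pos.2 h2pi)] at h4
  have h5 : (∫ y, ex (t * y) * ((((2 * Real.pi)⁻¹ : ℝ) : ℂ) * Boch_P F y)) =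
      (2 * Real.pi) • ∫ x, ex (t * (2 * Real.pi * x)) *
        ((((2 * Real.pi)⁻¹ : ℝ) : ℂ) * Boch_P F (2 * Real.pi * x)) := by
    rw [h4, smul_smul, mul_inv_cancel₀ h2pi.ne', one_smul]
  rw [h5, ← integral_smul]
  refine integral_congr_ae (ae_of_all _ fun v => ?_)
  have hpi : (Real.pi : ℂ) ≠ 0 := by exact_mod_cast Real.pi_ne_zero
  simp only [smul_eq_mul, Complex.real_smul]
  have h6 : Complex.exp (((2 * Real.pi * inner ℝ v t : ℝ) : ℂ) * Complex.I)
      = ex (t * (2 * Real.pi * v)) := by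
    unfold ex
    congr 3
    simp only [RCLike.inner_apply, conj_trivial]
    ring
  rw [h6]
  push_cast
  field_simp

/-- Let `F t = exp (-ε t²/2) C t` (continuous, integrable), `p x = (2π)⁻¹ ∫ ex (-(t x)) F t`, which
is real (`hh`) and nonnegative. `p` is integrable: multiply by a gaussian `exp (-δ x²/2)`, Fubini
gives `∫ p x exp (-δ x²/2) dx = ∫ F t N(0,δ)(dt) ≤ M`, monotone convergence as `δ → 0`. Then
Fourier inversion (`Continuous.fourierInv_fourier_eq` / `MeasureTheory.Integrable.fourierInv_fourier_eq`,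
mind the `2π` normalisation), or again the gaussian computation and dominated convergence, gives
`∫ ex (t y) p y dy = F t`. Take `τ = volume.withDensity (ofReal p)`. -/
theorem bochner_reg (C : ℝ → ℂ) (hc : Continuous C) {M : ℝ} (hb : ∀ t, ‖C t‖ ≤ M)
    (hh : ∀ t, C (-t) = conj (C t))
    (hpd : ∀ g : ℝ → ℂ, Continuous g → Integrable g →
      0 ≤ (∫ s, ∫ s', g s * conj (g s') * C (s - s')).re)
    {ε : ℝ} (hε : 0 < ε) :
    ∃ τ : Measure ℝ, IsFiniteMeasure τ ∧
      ∀ t, ((Real.exp (-(ε * t ^ 2 / 2)) : ℝ) : ℂ) * C t = ∫ y, ex (t * y) ∂τ := by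
  set F : ℝ → ℂ := fun t => ((Real.exp (-(ε * t ^ 2 / 2)) : ℝ) : ℂ) * C t with hF
  have hM : 0 ≤ M := (norm_nonneg _).trans (hb 0)
  have hFc : Continuous F := by
    rw [hF]
    fun_prop
  have hFn : ∀ t, ‖F t‖ ≤ M * Real.exp (-(ε / 2 * t ^ 2)) := by
    intro t
    simp only [hF, norm_mul, Complex.norm_real, Real.norm_eq_abs, abs_of_pos (Real.exp_pos _)]
    rw [mul_comm, show ε * t ^ 2 / 2 = ε / 2 * t ^ 2 by ring]
    exact mul_le_mul_of_nonneg_right (hb t) (Real.exp_pos _).le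
  have hFb : ∀ t, ‖F t‖ ≤ M := by
    intro t
    refine (hFn t).trans (mul_le_of_le_one_right hM ?_)
    rw [Real.exp_le_one_iff]
    have : 0 ≤ ε / 2 * t ^ 2 := by positivity
    linarith
  have hFi : Integrable F :=
    ((Boch_gauss_integrable (half_pos hε)).const_mul M).mono' hFc.aestronglyMeasurable
      (ae_of_all _ hFn)
  have hFh : ∀ t, F (-t) = conj (F t) := by
    intro t
    simp only [hF, map_mul, Complex.conj_ofReal, hh, neg_sq]
  have him := Boch_P_im hFh
  have hre : ∀ x, 0 ≤ (Boch_P F x).re := by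
    intro x
    have := bochner_density_nonneg C hc hb hpd hε x
    simpa only [Boch_P, hF, mul_assoc] using this
  have hP := Boch_P_integrable hFi hFb him hre
  have hPc := Boch_P_continuous hFi
  have h2pi : (0 : ℝ) < (2 * Real.pi)⁻¹ := by positivity
  set p : ℝ → ℝ := fun y => (2 * Real.pi)⁻¹ * (Boch_P F y).re with hp
  have hp0 : ∀ y, 0 ≤ p y := fun y => mul_nonneg h2pi.le (hre y)
  have hpc : Continuous p := by
    rw [hp]
    fun_prop
  have hpi : Integrable p := hP.re.const_mul _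
  refine ⟨volume.withDensity fun y => ENNReal.ofReal (p y),
    isFiniteMeasure_withDensity_ofReal hpi.2, fun t => ?_⟩
  rw [integral_withDensity_eq_integral_toReal_smul hpc.measurable.ennreal_ofReal
    (ae_of_all _ fun _ => ENNReal.ofReal_lt_top)]
  refine (Boch_inversion hFc hFi hP t).trans (integral_congr_ae (ae_of_all _ fun y => ?_))
  simp only [ENNReal.toReal_ofReal (hp0 y), Complex.real_smul]
  rw [mul_comm]
  congr 1
  simp only [hp]
  rw [Complex.ofReal_mul]
  congr 1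
  exact Complex.ext (by simp) (by simp [him])

theorem Boch_charFun (τ : Measure ℝ) (t : ℝ) : charFun τ t = ∫ y, ex (t * y) ∂τ := by
  rw [charFun_apply_real]
  unfold ex
  simp only [Complex.ofReal_mul]

/-- `τ n` from `bochner_reg` with `ε = 1/(n+1)` has mass `C 0`. If `C 0 = 0` all `τ n` vanish, so
`C = 0`, take `τ = 0`. Otherwise normalise to probability measures; their `charFun`
(`charFun_apply_real`) converge pointwise to `C / C 0`, so `isTightMeasureSet_of_tendsto_charFun`,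
`isCompact_closure_of_isTightMeasureSet` give a cluster point along an ultrafilter (see the proof of
`ProbabilityMeasure.tendsto_of_tight_of_separatesPoints`), whose characteristic function is
`C / C 0` (`ProbabilityMeasure.tendsto_iff_forall_integral_rclike_tendsto`). -/
theorem bochner (C : ℝ → ℂ) (hc : Continuous C) {M : ℝ} (hb : ∀ t, ‖C t‖ ≤ M)
    (hh : ∀ t, C (-t) = conj (C t))
    (hpd : ∀ g : ℝ → ℂ, Continuous g → Integrable g →
      0 ≤ (∫ s, ∫ s', g s * conj (g s') * C (s - s')).re) :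
    ∃ τ : Measure ℝ, IsFiniteMeasure τ ∧ ∀ t, C t = ∫ y, ex (t * y) ∂τ := by
  have hpos : ∀ n : ℕ, 0 < 1 / ((n : ℝ) + 1) := fun n => by positivity
  choose τ hfin hτ using fun n : ℕ => bochner_reg C hc hb hh hpd (hpos n)
  have hmass : ∀ n, C 0 = (((τ n).real univ : ℝ) : ℂ) := by
    intro n
    have h := hτ n 0
    simpa [ex_zero] using h
  by_cases h0 : C 0 = 0
  · refine ⟨0, inferInstance, fun t => ?_⟩
    have h1 : τ 0 = 0 := by
      have h2 := hmass 0
      rw [h0] at h2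
      have h3 : (τ 0).real univ = 0 := by exact_mod_cast h2.symm
      have := hfin 0
      exact Measure.measure_univ_eq_zero.1 ((measureReal_eq_zero_iff (measure_ne_top _ _)).1 h3)
    have h4 := hτ 0 t
    rw [h1, integral_zero_measure] at h4
    rw [integral_zero_measure]
    refine (mul_eq_zero.1 h4).resolve_left ?_
    exact_mod_cast (Real.exp_pos _).ne'
  · set m : ℝ := (τ 0).real univ with hm
    have hCm : C 0 = (m : ℂ) := hmass 0
    have hmn : ∀ n, (τ n).real univ = m := by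
      intro n
      have := (hmass n).symm.trans hCm
      exact_mod_cast this
    have hm0 : 0 < m := by
      refine lt_of_le_of_ne measureReal_nonneg fun h => h0 ?_
      rw [hCm, ← h]
      simp
    set μ : ℕ → Measure ℝ := fun n => ENNReal.ofReal m⁻¹ • τ n with hμ
    have hprob : ∀ n, IsProbabilityMeasure (μ n) := by
      intro n
      constructor
      have := hfin n
      simp only [hμ, Measure.smul_apply, smul_eq_mul]
      rw [← ofReal_measureReal (μ := τ n) (s := univ), hmn n,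
        ← ENNReal.ofReal_mul (by positivity), inv_mul_cancel₀ hm0.ne', ENNReal.ofReal_one]
    have hchar : ∀ n t, charFun (μ n) t = ((m⁻¹ : ℝ) : ℂ) *
        (((Real.exp (-(1 / ((n : ℝ) + 1) * t ^ 2 / 2)) : ℝ) : ℂ) * C t) := by
      intro n t
      rw [Boch_charFun, hτ n t]
      simp only [hμ]
      rw [integral_smul_measure, ENNReal.toReal_ofReal (by positivity), Complex.real_smul]
    have hlim : ∀ t, Tendsto (fun n => charFun (μ n) t) atTop (𝓝 (((m⁻¹ : ℝ) : ℂ) * C t)) := by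
      intro t
      simp_rw [hchar]
      refine Tendsto.const_mul _ ?_
      have h1 : Tendsto (fun n : ℕ => Real.exp (-(1 / ((n : ℝ) + 1) * t ^ 2 / 2)))
          atTop (𝓝 (Real.exp (-(0 * t ^ 2 / 2)))) :=
        (((tendsto_one_div_add_atTop_nhds_zero_nat.mul_const _).div_const _).neg).rexp
      rw [zero_mul, zero_div, neg_zero, Real.exp_zero] at h1
      have h2 := (h1.ofReal).mul_const (C t)
      rwa [Complex.ofReal_one, one_mul] at h2
    have htight : IsTightMeasureSet (Set.range μ) :=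
      isTightMeasureSet_of_tendsto_charFun (f := fun t => ((m⁻¹ : ℝ) : ℂ) * C t)
        (by fun_prop) hlim
    set P : ℕ → ProbabilityMeasure ℝ := fun n => ⟨μ n, hprob n⟩ with hP
    have hcomp : IsCompact (closure (Set.range P)) := by
      refine isCompact_closure_of_isTightMeasureSet (htight.subset ?_)
      rintro _ ⟨_, ⟨n, rfl⟩, rfl⟩
      exact ⟨n, rfl⟩
    obtain ⟨ν, -, φ, hφ, hν⟩ := hcomp.tendsto_subseq (x := P)
      (fun n => subset_closure ⟨n, rfl⟩)
    have hν2 := ProbabilityMeasure.tendsto_iff_tendsto_charFun.1 hν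
    refine ⟨ENNReal.ofReal m • (ν : Measure ℝ), ?_, fun t => ?_⟩
    · constructor
      simp
    · have h1 : charFun (ν : Measure ℝ) t = ((m⁻¹ : ℝ) : ℂ) * C t :=
        tendsto_nhds_unique (hν2 t) ((hlim t).comp hφ.tendsto_atTop)
      rw [integral_smul_measure, ← Boch_charFun, h1, ENNReal.toReal_ofReal hm0.le,
        Complex.real_smul, ← mul_assoc, ← Complex.ofReal_mul, mul_inv_cancel₀ hm0.ne']
      simp

end Pool.Agent.MP_b29402_an

end

-- part MP_b29402_an.KerM
section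

/-! Measurability of a family of finite measures from that of the Fourier transforms. -/

open MeasureTheory Set Filter Topology ProbabilityTheory
open scoped ComplexConjugate ENNReal

namespace Pool.Agent.MP_b29402_an

theorem KerM_gauss {v : ℝ} (hv : 0 < v) (s : ℝ) :
    ∫ t, ex (t * s) ∂(gaussianReal 0 ⟨v, hv.le⟩) = (Real.exp (-(v * s ^ 2 / 2)) : ℂ) := by
  have h := charFun_gaussianReal (μ := 0) (v := ⟨v, hv.le⟩) s
  rw [charFun_apply_real] at h
  rw [Complex.ofReal_exp]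
  refine Eq.trans (integral_congr_ae (ae_of_all _ fun t => ?_)) (h.trans ?_)
  · simp only [ex]
    push_cast
    rw [mul_comm (t : ℂ)]
  · congr 1
    push_cast
    simp
    exact Or.inl rfl

theorem KerM_joint (τ : ℝ → Measure ℝ) (hf : ∀ θ, IsFiniteMeasure (τ θ))
    (hm : ∀ t, Measurable fun θ => ∫ y, ex (t * y) ∂(τ θ)) :
    Measurable fun q : ℝ × ℝ => ∫ y, ex (q.1 * y) ∂(τ q.2) :=
  measurable_uncurry_of_continuous_of_measurable (u := fun t θ => ∫ y, ex (t * y) ∂(τ θ))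
    (fun _ => continuous_of_dominated (bound := fun _ => 1)
      (fun _ => (ex_continuous.comp (continuous_const.mul continuous_id)).aestronglyMeasurable)
      (fun _ => ae_of_all _ fun _ => (ex_norm _).le) (integrable_const _)
      (ae_of_all _ fun _ => ex_continuous.comp (continuous_id.mul continuous_const))) hm

theorem KerM_lim (a y : ℝ) :
    Tendsto (fun n : ℕ => gaussianReal y ⟨(1 / ((n : ℝ) + 1) ^ 2) ^ 2, sq_nonneg _⟩
      (Iic (a + 1 / ((n : ℝ) + 1)))) atTop (𝓝 ((Iic a).indicator 1 y)) := by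
  have e : ∀ n : ℕ, gaussianReal y ⟨(1 / ((n : ℝ) + 1) ^ 2) ^ 2, sq_nonneg _⟩
      (Iic (a + 1 / ((n : ℝ) + 1))) =
      gaussianReal 0 1 {s | y + 1 / ((n : ℝ) + 1) ^ 2 * s ≤ a + 1 / ((n : ℝ) + 1)} := fun n => by
    have h1 := gaussianReal_map_const_mul (μ := 0) (v := 1) (1 / ((n : ℝ) + 1) ^ 2)
    have h2 := gaussianReal_map_const_add (μ := 0)
      (v := ⟨(1 / ((n : ℝ) + 1) ^ 2) ^ 2, sq_nonneg _⟩) y
    rw [mul_zero, mul_one] at h1
    rw [zero_add] at h2
    rw [← h2, Measure.map_apply (by fun_prop) measurableSet_Iic]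
    erw [← h1]
    rw [Measure.map_apply (by fun_prop) (measurableSet_Iic.preimage (by fun_prop))]
    rfl
  have e' : (Iic a).indicator (1 : ℝ → ℝ≥0∞) y = gaussianReal 0 1 {_s : ℝ | y ≤ a} := by
    by_cases h : y ≤ a
    · simp [h]
    · simp [h]
  simp only [e, e']
  refine tendsto_measure_of_tendsto_indicator_of_isFiniteMeasure atTop _
    (fun n => measurableSet_le (by fun_prop) measurable_const) fun s => ?_
  by_cases h : y ≤ a
  · filter_upwards [eventually_ge_atTop ⌈s⌉₊] with n hn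
    have h1 : s ≤ (n : ℝ) + 1 := by
      have : (⌈s⌉₊ : ℝ) ≤ n := by exact_mod_cast hn
      linarith [Nat.le_ceil s]
    have h2 : 1 / ((n : ℝ) + 1) ^ 2 * s ≤ 1 / ((n : ℝ) + 1) := by
      calc 1 / ((n : ℝ) + 1) ^ 2 * s ≤ 1 / ((n : ℝ) + 1) ^ 2 * ((n : ℝ) + 1) := by gcongr
        _ = 1 / ((n : ℝ) + 1) := by field_simp
    exact ⟨fun _ => h, fun _ => show y + _ ≤ a + _ by linarith⟩
  · have t0 : Tendsto (fun n : ℕ => 1 / ((n : ℝ) + 1)) atTop (𝓝 0) :=
      tendsto_one_div_add_atTop_nhds_zero_nat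
    have t1 : Tendsto (fun n : ℕ => a + 1 / ((n : ℝ) + 1) - (1 / ((n : ℝ) + 1)) ^ 2 * s) atTop
        (𝓝 (a + 0 - 0 ^ 2 * s)) := (t0.const_add a).sub ((t0.pow 2).mul_const s)
    filter_upwards [t1.eventually_lt_const (show a + 0 - 0 ^ 2 * s < y by
      simpa using not_le.1 h)] with n hn
    rw [div_pow, one_pow] at hn
    exact ⟨fun h' => absurd (show y + _ ≤ a + _ from h') (by linarith), fun h' => absurd h' h⟩

/-- `(θ, t) ↦ ∫ ex (t y) dτ θ` is jointly measurable (continuous in `t`, measurable in `θ`: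
`measurable_uncurry_of_continuous_of_measurable`). With `N = gaussianReal 0 v`:
`exp (-v (y - b)²/2) = ∫ ex (t (y - b)) dN(t)` (`charFun_gaussianReal`), so by Fubini
`∫ exp (-v (y - b)²/2) dτ θ (y) = ∫ ex (-(t b)) (∫ ex (t y) dτ θ) dN(t)`, jointly measurable in `(θ, b)`. -/
theorem measurable_gauss_integral (τ : ℝ → Measure ℝ) (hf : ∀ θ, IsFiniteMeasure (τ θ))
    (hm : ∀ t, Measurable fun θ => ∫ y, ex (t * y) ∂(τ θ)) {v : ℝ} (hv : 0 < v) :
    Measurable fun p : ℝ × ℝ => ∫ y, Real.exp (-(v * (y - p.2) ^ 2 / 2)) ∂(τ p.1) := by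
  have e : (fun p : ℝ × ℝ => ∫ y, Real.exp (-(v * (y - p.2) ^ 2 / 2)) ∂(τ p.1)) = fun p =>
      (∫ t, ex (-(t * p.2)) * ∫ y, ex (t * y) ∂(τ p.1) ∂(gaussianReal 0 ⟨v, hv.le⟩)).re := by
    funext p
    have i1 : Integrable (Function.uncurry fun y t : ℝ => ex (t * (y - p.2)))
        ((τ p.1).prod (gaussianReal 0 ⟨v, hv.le⟩)) :=
      (integrable_const (1 : ℝ)).mono'
        (ex_continuous.comp (by fun_prop : Continuous fun q : ℝ × ℝ =>
          q.2 * (q.1 - p.2))).aestronglyMeasurable (ae_of_all _ fun q => (ex_norm _).le)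
    have h := integral_integral_swap i1
    simp only [KerM_gauss hv] at h
    rw [integral_complex_ofReal] at h
    have h2 : ∀ t : ℝ, ∫ y, ex (t * (y - p.2)) ∂(τ p.1) =
        ex (-(t * p.2)) * ∫ y, ex (t * y) ∂(τ p.1) := fun t => by
      rw [← integral_const_mul]
      refine integral_congr_ae (ae_of_all _ fun y => ?_)
      beta_reduce
      rw [← ex_add]
      congr 1
      ring
    simp only [h2] at h
    rw [← h, Complex.ofReal_re]
  rw [e]
  refine Complex.measurable_re.comp (StronglyMeasurable.integral_prod_right'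
    (f := fun q : (ℝ × ℝ) × ℝ => ex (-(q.2 * q.1.2)) * ∫ y, ex (q.2 * y) ∂(τ q.1.1))
    (Measurable.stronglyMeasurable ?_)).measurable
  exact (ex_continuous.measurable.comp (by fun_prop)).mul
    ((KerM_joint τ hf hm).comp (measurable_snd.prodMk (measurable_fst.comp measurable_fst)))

/-- Integrate the previous function over `b ∈ Iic a` and normalise:
`Φ v y = √(v/(2π)) ∫ b in Iic a, exp (-v (y - b)²/2) ∈ [0,1]` tends, as `v → ∞`, to `1` for `y < a`,
to `0` for `y > a`, and equals `1/2` at `y = a`. Dominated convergence: `θ ↦ τ θ (Iio a) + τ θ {a} / 2`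
is measurable for every `a`; then `τ θ (Iic a)` is the limit of these functions at `a + 1/(n+1)`. -/
theorem measurable_Iic_of_fourier (τ : ℝ → Measure ℝ) (hf : ∀ θ, IsFiniteMeasure (τ θ))
    (hm : ∀ t, Measurable fun θ => ∫ y, ex (t * y) ∂(τ θ)) (a : ℝ) :
    Measurable fun θ => τ θ (Iic a) := by
  have key : ∀ (w : NNReal) (c : ℝ), w ≠ 0 →
      (Measurable fun y => gaussianReal y w (Iic c)) ∧
      Measurable fun θ => ∫⁻ y, gaussianReal y w (Iic c) ∂(τ θ) := fun w c hw => by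
    have hw0 : (0 : ℝ) < w := by exact_mod_cast pos_iff_ne_zero.2 hw
    have m1 : Measurable (Function.uncurry fun y b : ℝ => gaussianPDF y w b) :=
      measurable_uncurry_gaussianPDF.comp
        (measurable_fst.prodMk (measurable_const.prodMk measurable_snd))
    simp only [gaussianReal_apply _ hw]
    refine ⟨m1.lintegral_prod_right', ?_⟩
    have e : ∀ θ, ∫⁻ y, (∫⁻ b in Iic c, gaussianPDF y w b) ∂(τ θ) = ∫⁻ b in Iic c, ENNReal.ofReal
        ((√(2 * Real.pi * w))⁻¹ * ∫ y, Real.exp (-((w : ℝ)⁻¹ * (y - b) ^ 2 / 2)) ∂(τ θ)) :=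
      fun θ => by
        rw [lintegral_lintegral_swap m1.aemeasurable]
        refine lintegral_congr fun b => ?_
        have i1 : Integrable (fun y => Real.exp (-((w : ℝ)⁻¹ * (y - b) ^ 2 / 2))) (τ θ) :=
          (integrable_const (1 : ℝ)).mono' (Continuous.aestronglyMeasurable (by fun_prop))
            (ae_of_all _ fun y => by
              rw [Real.norm_eq_abs, abs_of_pos (Real.exp_pos _), Real.exp_le_one_iff,
                neg_nonpos]
              positivity)
        rw [← integral_const_mul, ofReal_integral_eq_lintegral_ofReal (i1.const_mul _)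
          (ae_of_all _ fun y => by positivity)]
        refine lintegral_congr fun y => ?_
        unfold gaussianPDF gaussianPDFReal
        congr 3
        field_simp
        ring
    simp only [e]
    exact (((measurable_gauss_integral τ hf hm (inv_pos.2 hw0)).const_mul
      (√(2 * Real.pi * w))⁻¹).ennreal_ofReal).lintegral_prod_right'
  have hw : ∀ n : ℕ, (⟨(1 / ((n : ℝ) + 1) ^ 2) ^ 2, sq_nonneg _⟩ : NNReal) ≠ 0 := fun n h => by
    have h1 : (1 / ((n : ℝ) + 1) ^ 2) ^ 2 = 0 := congrArg NNReal.toReal h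
    have h2 : 0 < (1 / ((n : ℝ) + 1) ^ 2) ^ 2 := by positivity
    exact h2.ne' h1
  refine ENNReal.measurable_of_tendsto (fun n : ℕ => (key _ (a + 1 / ((n : ℝ) + 1)) (hw n)).2)
    (tendsto_pi_nhds.2 fun θ => ?_)
  rw [← lintegral_indicator_one measurableSet_Iic]
  exact tendsto_lintegral_of_dominated_convergence (fun _ => 1) (fun n => (key _ _ (hw n)).1)
    (fun n => ae_of_all _ fun y => prob_le_one) (by simp) (ae_of_all _ fun y => KerM_lim a y)

/-- π-λ argument (`Measurable.measure_of_isPiSystem` or `MeasurableSpace.induction_on_inter` with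
`borel_eq_generateFrom_Iic`, `isPiSystem_Iic`); total mass from `t = 0`. -/
theorem measurable_of_fourier (τ : ℝ → Measure ℝ) (hf : ∀ θ, IsFiniteMeasure (τ θ))
    (hm : ∀ t, Measurable fun θ => ∫ y, ex (t * y) ∂(τ θ)) : Measurable τ := by
  refine Measurable.measure_of_isPiSystem (borel_eq_generateFrom_Iic ℝ) isPiSystem_Iic ?_ ?_
  · rintro s ⟨a, rfl⟩
    exact measurable_Iic_of_fourier τ hf hm a
  · have e : (fun θ => τ θ univ) = fun θ => ENNReal.ofReal (∫ y, ex (0 * y) ∂(τ θ)).re := by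
      funext θ
      simp [ex_zero]
    rw [e]
    exact (Complex.measurable_re.comp (hm 0)).ennreal_ofReal

end Pool.Agent.MP_b29402_an

end
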