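import Pool.Agent.MP_b29402_an.Mg.DkC

-- part MP_b29402_an.SelH
section

/-! Selection, step 1: a point around which a measure grows at most linearly at all scales. -/

open MeasureTheory Set Filter Topology ProbabilityTheory
open scoped ComplexConjugate ENNReal

namespace Pool.Agent.MP_b29402_an

variable (τ : Measure ℝ) [IsFiniteMeasure τ]

theorem SelH_cover (a δ y : ℝ) (n : ℕ) (h0 : a ≤ y) (h1 : y ≤ a + ((n : ℝ) + 1) * δ) :
    ∃ i ∈ Finset.range (n + 1), a + (i : ℝ) * δ ≤ y ∧ y ≤ a + ((i : ℝ) + 1) * δ := by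
  induction n with
  | zero => exact ⟨0, by simp, by simpa using h0, h1⟩
  | succ n ih =>
    rcases le_total y (a + ((n : ℝ) + 1) * δ) with h | h
    · obtain ⟨i, hi, h2⟩ := ih h
      exact ⟨i, Finset.mem_range.2 (by have := Finset.mem_range.1 hi; omega), h2⟩
    · exact ⟨n + 1, by simp, by exact_mod_cast h, h1⟩

theorem SelH_mono {c c' r r' : ℝ} (h : |c - c'| + r ≤ r') : τ.real (Iv c r) ≤ τ.real (Iv c' r') := by
  refine measureReal_mono (fun y hy => ?_) (measure_ne_top _ _)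
  rw [mem_Iv] at hy ⊢
  linarith [abs_sub_le y c c']

/-- cover `Iv x s` by the `n` intervals of radius `s / n` centred at `x - s + (2 i + 1) s / n` -/
theorem exists_heavy (x : ℝ) {s : ℝ} (hs : 0 < s) {n : ℕ} (hn : 0 < n) :
    ∃ x', |x' - x| ≤ s - s / n ∧ τ.real (Iv x s) ≤ n * τ.real (Iv x' (s / n)) := by
  obtain ⟨k, rfl⟩ : ∃ k, n = k + 1 := ⟨n - 1, by omega⟩
  obtain ⟨δ, hδ⟩ : ∃ δ, δ = s / ((k + 1 : ℕ) : ℝ) := ⟨_, rfl⟩
  have hk : (0 : ℝ) < ((k + 1 : ℕ) : ℝ) := by positivity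
  have h1 : ((k : ℝ) + 1) * δ = s := by
    rw [hδ]
    push_cast
    field_simp
  have hδ0 : 0 < δ := hδ ▸ div_pos hs hk
  rw [← hδ]
  have hsub : Iv x s ⊆ ⋃ i ∈ Finset.range (k + 1), Iv (x - s + (2 * (i : ℝ) + 1) * δ) δ := by
    intro y hy
    obtain ⟨i, hi, h2, h3⟩ := SelH_cover (x - s) (2 * δ) y k hy.1 (by linarith [hy.2])
    exact mem_biUnion hi ⟨by linarith, by linarith⟩
  have hsum : ∑ _i ∈ Finset.range (k + 1), τ.real (Iv x s) ≤ ∑ i ∈ Finset.range (k + 1),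
      ((k + 1 : ℕ) : ℝ) * τ.real (Iv (x - s + (2 * (i : ℝ) + 1) * δ) δ) := by
    rw [← Finset.mul_sum, Finset.sum_const, Finset.card_range, nsmul_eq_mul]
    exact mul_le_mul_of_nonneg_left ((measureReal_mono hsub (measure_ne_top _ _)).trans
      (measureReal_biUnion_finset_le _ _)) hk.le
  obtain ⟨i, hi, h⟩ := Finset.exists_le_of_sum_le ⟨0, by simp⟩ hsum
  refine ⟨_, ?_, h⟩
  have h2 : (i : ℝ) ≤ k := by exact_mod_cast Nat.lt_succ_iff.1 (Finset.mem_range.1 hi)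
  have h3 : 0 ≤ (i : ℝ) * δ := by positivity
  have h4 : (i : ℝ) * δ ≤ k * δ := by gcongr
  rw [abs_le]
  constructor <;> linarith

/-- `x0` from `exists_heavy` with `n = 8`. If it is not doubling, `x1` from `exists_heavy` for
`Iv x0 (s/2)` with `n = 4` has mass `> 32 m(x0) ≥ 4 m(x)`; as `Iv x1 (s/2) ⊆ Iv x (4 s)` has mass
`≤ 128 m(x) ≤ 128 m(x1)`, `x1` is doubling. -/
theorem doubling_step (x : ℝ) {s : ℝ} (hs : 0 < s)
    (hd : τ.real (Iv x (4 * s)) ≤ 128 * τ.real (Iv x s)) :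
    ∃ x', |x' - x| ≤ 11 / 8 * s ∧ τ.real (Iv x s) ≤ 8 * τ.real (Iv x' (s / 8)) ∧
      τ.real (Iv x' (4 * (s / 8))) ≤ 128 * τ.real (Iv x' (s / 8)) := by
  obtain ⟨x0, h1, h2⟩ := exists_heavy τ x hs (n := 8) (by norm_num)
  push_cast at h1 h2
  rcases le_total (τ.real (Iv x0 (4 * (s / 8)))) (128 * τ.real (Iv x0 (s / 8))) with h | h
  · exact ⟨x0, by linarith, h2, h⟩
  obtain ⟨x1, h3, h4⟩ := exists_heavy τ x0 (by positivity : 0 < 4 * (s / 8)) (n := 4) (by norm_num)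
  push_cast at h3 h4
  rw [show 4 * (s / 8) / 4 = s / 8 by ring] at h3 h4
  have h5 := abs_sub_le x1 x0 x
  have h6 : τ.real (Iv x1 (4 * (s / 8))) ≤ τ.real (Iv x (4 * s)) := SelH_mono τ (by linarith)
  have h7 : 0 ≤ τ.real (Iv x1 (s / 8)) := measureReal_nonneg
  exact ⟨x1, by linarith, by linarith, by linarith⟩

/-- Iterate `doubling_step`: `c j` with `s j = s0 / 8 ^ j`, `m j = τ (Iv (c j) (s j))`,
`m j ≤ 8 m (j+1)`; Cauchy (`cauchySeq_of_le_geometric`, `dist_le_of_le_geometric_of_tendsto`), limit `c0`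
with `|c0 - c j| ≤ (11/7) s j`. So `τ (Iv c0 u) ≤ 128 m i` if `u ≤ 2.4 s i` and `m j ≤ τ (Iv c0 t)` if
`2.6 s j ≤ t`. Given `t ≤ u ≤ 2 s0` take `i` largest with `u ≤ 2.4 s i` (so `u > 0.3 s i`), `j` least with
`2.6 s j ≤ t` (`j ≥ 1`, `t < 20.8 s j`, `j ≥ i`), `m i ≤ 8 ^ (j - i) m j`, `8 ^ (j - i) = s i / s j ≤ 70 u / t`. -/
theorem exists_growth_point (x0 : ℝ) {s0 : ℝ} (hs : 0 < s0)
    (hd : τ.real (Iv x0 (4 * s0)) ≤ 128 * τ.real (Iv x0 s0)) :
    ∃ c0, |c0 - x0| ≤ 2 * s0 ∧ τ.real (Iv x0 s0) ≤ 8 * τ.real (Iv c0 s0) ∧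
      ∀ t u, 0 < t → t ≤ u → u ≤ 2 * s0 →
        τ.real (Iv c0 u) ≤ 10000 * (u / t) * τ.real (Iv c0 t) := by
  obtain ⟨s, hsd⟩ : ∃ s : ℕ → ℝ, ∀ j, s j = s0 * (1 / 8) ^ j := ⟨_, fun _ => rfl⟩
  have s0' : s 0 = s0 := by rw [hsd]; simp
  have sp : ∀ j, 0 < s j := fun j => by rw [hsd]; positivity
  have ss : ∀ j, s (j + 1) = s j / 8 := fun j => by rw [hsd, hsd, pow_succ]; ring
  have step : ∀ (j : ℕ) (x : ℝ), τ.real (Iv x (4 * s j)) ≤ 128 * τ.real (Iv x (s j)) →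
      ∃ x', |x' - x| ≤ 11 / 8 * s j ∧ τ.real (Iv x (s j)) ≤ 8 * τ.real (Iv x' (s (j + 1))) ∧
        τ.real (Iv x' (4 * s (j + 1))) ≤ 128 * τ.real (Iv x' (s (j + 1))) := fun j x h => by
    rw [ss]
    exact doubling_step τ x (sp j) h
  choose! f hf using step
  obtain ⟨c, c0', cs⟩ : ∃ c : ℕ → ℝ, c 0 = x0 ∧ ∀ j, c (j + 1) = f j (c j) :=
    ⟨fun j => Nat.rec x0 f j, rfl, fun _ => rfl⟩
  have hP : ∀ j, τ.real (Iv (c j) (4 * s j)) ≤ 128 * τ.real (Iv (c j) (s j)) := fun j => by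
    induction j with
    | zero => rwa [c0', s0']
    | succ j ih => rw [cs]; exact (hf j _ ih).2.2
  have hdist : ∀ j, dist (c j) (c (j + 1)) ≤ 11 / 8 * s0 * (1 / 8) ^ j := fun j => by
    rw [dist_comm, Real.dist_eq, cs, mul_assoc, ← hsd]
    exact (hf j _ (hP j)).1
  have hm : ∀ j, τ.real (Iv (c j) (s j)) ≤ 8 * τ.real (Iv (c (j + 1)) (s (j + 1))) := fun j => by
    rw [cs]
    exact (hf j _ (hP j)).2.1
  obtain ⟨z, hz⟩ := cauchySeq_tendsto_of_complete
    (cauchySeq_of_le_geometric (1 / 8) (11 / 8 * s0) (by norm_num) hdist)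
  have hzd : ∀ j, |z - c j| ≤ 11 / 7 * s j := fun j => by
    have := dist_le_of_le_geometric_of_tendsto (1 / 8) (11 / 8 * s0) (by norm_num) hdist hz j
    rw [dist_comm, Real.dist_eq] at this
    rw [hsd]
    exact this.trans_eq (by ring)
  have hmono : Monotone fun j => τ.real (Iv (c j) (s j)) / s j :=
    monotone_nat_of_le_succ fun j => by
      have h1 := hm j
      have h2 := sp j
      have e : τ.real (Iv (c (j + 1)) (s (j + 1))) / s (j + 1) =
          8 * τ.real (Iv (c (j + 1)) (s (j + 1))) / s j := by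
        generalize τ.real (Iv (c (j + 1)) (s (j + 1))) = a
        rw [ss]
        field_simp
      rw [e]
      gcongr
  have hlow : ∀ j t, 13 / 5 * s j ≤ t → τ.real (Iv (c j) (s j)) ≤ τ.real (Iv z t) :=
    fun j t h => SelH_mono τ (by linarith [hzd j, abs_sub_comm (c j) z, sp j])
  refine ⟨z, by linarith [hzd 0, c0' ▸ s0' ▸ hzd 0], ?_, fun t u ht htu hu => ?_⟩
  · have h1 := hm 0
    rw [c0', s0'] at h1
    have h2 := hlow (0 + 1) s0 (by rw [ss, s0']; linarith)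
    linarith
  · have hu0 : 0 < u := ht.trans_le htu
    obtain ⟨i, i1, i2⟩ := exists_nat_pow_near_of_lt_one (x := u / (12 / 5 * s0)) (y := 1 / 8)
      (by positivity) (by rw [div_le_one (by positivity)]; linarith) (by norm_num) (by norm_num)
    obtain ⟨l, l1, l2⟩ := exists_nat_pow_near_of_lt_one (x := t / (13 / 5 * s0)) (y := 1 / 8)
      (by positivity) (by rw [div_le_one (by positivity)]; linarith) (by norm_num) (by norm_num)
    rw [lt_div_iff₀ (by positivity)] at i1 l1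
    rw [div_le_iff₀ (by positivity)] at i2 l2
    have a1 : 12 / 5 * s (i + 1) < u := by rw [hsd]; linarith
    have a2 : u ≤ 12 / 5 * s i := by rw [hsd]; linarith
    have a3 : 13 / 5 * s (l + 1) < t := by rw [hsd]; linarith
    have a4 : t ≤ 13 / 5 * s l := by rw [hsd]; linarith
    have a5 := ss i
    have a6 := ss l
    have hij : i ≤ l + 1 := by
      by_contra hn
      have : (1 / 8 : ℝ) ^ i ≤ (1 / 8) ^ (l + 1) :=
        pow_le_pow_of_le_one (by norm_num) (by norm_num) (by omega)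
      have h2 : s i ≤ s (l + 1) := by rw [hsd, hsd]; gcongr
      linarith [sp i]
    have b1 : τ.real (Iv z u) ≤ τ.real (Iv (c i) (4 * s i)) :=
      SelH_mono τ (by linarith [hzd i, sp i])
    have b2 := hlow (l + 1) t a3.le
    have b3 : τ.real (Iv (c i) (s i)) / s i ≤ τ.real (Iv (c (l + 1)) (s (l + 1))) / s (l + 1) :=
      hmono hij
    have b4 : s i / s (l + 1) ≤ 70 * (u / t) := by
      rw [← mul_div_assoc, div_le_div_iff₀ (sp _) ht]
      have p1 := sp i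
      have p2 := sp (l + 1)
      calc s i * t ≤ (10 / 3 * u) * (104 / 5 * s (l + 1)) :=
            mul_le_mul (by linarith) (by linarith) ht.le (by positivity)
        _ ≤ _ := by nlinarith [mul_pos hu0 p2]
    have b5 : 0 ≤ τ.real (Iv z t) := measureReal_nonneg
    rw [div_le_iff₀ (sp i)] at b3
    have b6 : 0 < u / t := by positivity
    calc τ.real (Iv z u) ≤ 128 * τ.real (Iv (c i) (s i)) := b1.trans (hP i)
      _ ≤ 128 * (s i / s (l + 1) * τ.real (Iv (c (l + 1)) (s (l + 1)))) := by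
          refine mul_le_mul_of_nonneg_left (b3.trans_eq ?_) (by norm_num)
          ring
      _ ≤ 128 * (70 * (u / t) * τ.real (Iv z t)) := by
          refine mul_le_mul_of_nonneg_left
            (mul_le_mul b4 b2 measureReal_nonneg (by positivity)) (by norm_num)
      _ ≤ _ := by nlinarith [mul_nonneg b6.le b5]

end Pool.Agent.MP_b29402_an

end

-- part MP_b29402_an.SelA
section

/-! Selection, step 2: the starting interval. -/

open MeasureTheory Set Filter Topology ProbabilityTheory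
open scoped ComplexConjugate ENNReal

namespace Pool.Agent.MP_b29402_an

variable (τ : Measure ℝ) [IsFiniteMeasure τ]

/-- `Besicovitch.ae_tendsto_rnDeriv volume τ` and `Measure.rnDeriv_lt_top`: for a.e. `x` the ratio
`volume (closedBall x r) / τ (closedBall x r)` has a finite limit `l` as `r → 0+`, so
`2 r ≤ (l + 1) τ (closedBall x r)` for small `r`. -/
theorem ae_linear_lower :
    ∀ᵐ x ∂τ, ∃ m : ℕ, 0 < m ∧ ∀ s : ℝ, 0 < s → s ≤ 1 / m → s / m ≤ τ.real (Iv x s) := by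
  filter_upwards [Besicovitch.ae_tendsto_rnDeriv (volume : Measure ℝ) τ,
    Measure.rnDeriv_lt_top (volume : Measure ℝ) τ] with x hx hl
  set l := (volume : Measure ℝ).rnDeriv τ x
  have hlt : l < l + 1 := ENNReal.lt_add_right hl.ne one_ne_zero
  have hev := hx.eventually (gt_mem_nhds hlt)
  obtain ⟨δ, hδ, hδ'⟩ := (mem_nhdsGT_iff_exists_Ioo_subset).1 hev
  have hδ0 : (0 : ℝ) < δ := hδ
  have hL : l + 1 ≠ ∞ := ENNReal.add_ne_top.2 ⟨hl.ne, ENNReal.one_ne_top⟩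
  obtain ⟨m, hm⟩ := exists_nat_gt (max (l + 1).toReal (1 / δ))
  have hm1 : (l + 1).toReal < m := lt_of_le_of_lt (le_max_left _ _) hm
  have hm2 : 1 / δ < m := lt_of_le_of_lt (le_max_right _ _) hm
  have hm0 : (0 : ℝ) < m := lt_trans (by positivity) hm2
  refine ⟨m, by exact_mod_cast hm0, fun s hs hs1 => ?_⟩
  have hsδ : s < δ := by
    refine lt_of_le_of_lt hs1 ?_
    rw [div_lt_iff₀ hm0]
    rw [div_lt_iff₀ hδ0] at hm2
    linarith
  have h1 : volume (Metric.closedBall x s) / τ (Metric.closedBall x s) < l + 1 := hδ' ⟨hs, hsδ⟩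
  have h2 : volume (Metric.closedBall x s) ≤ (l + 1) * τ (Metric.closedBall x s) :=
    (ENNReal.div_le_iff_le_mul (Or.inr hL) (Or.inl (measure_ne_top _ _))).1 h1.le
  have h3 := ENNReal.toReal_mono (ENNReal.mul_ne_top hL (measure_ne_top _ _)) h2
  rw [Real.volume_closedBall, ENNReal.toReal_ofReal (by linarith), ENNReal.toReal_mul] at h3
  rw [Iv_eq_closedBall, div_le_iff₀ hm0, measureReal_def]
  have h4 : 0 ≤ (τ (Metric.closedBall x s)).toReal := ENNReal.toReal_nonneg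
  nlinarith

/-- Let `b i = τ (Iv x (2 ^ (-i)))`, `i : ℤ`, bounded by the total mass, `b i ≥ 2 ^ (-i) / m` for large
`i`. Maximise `3 ^ i * b i` over `i ≤ i*` (it tends to `0` at `-∞`; only finitely many `i` compete); as
`3 ^ i* b i* ≥ (3/2) ^ i* / m → ∞` the maximiser is as large as we like. -/
theorem exists_growth_scale {x : ℝ} {m : ℕ} (hm : 0 < m)
    (hx : ∀ s : ℝ, 0 < s → s ≤ 1 / m → s / m ≤ τ.real (Iv x s)) {R0 : ℝ} (hR : 0 < R0) :
    ∃ s0 : ℝ, 0 < s0 ∧ s0 ≤ R0 ∧ 0 < τ.real (Iv x s0) ∧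
      ∀ k : ℕ, τ.real (Iv x (2 ^ k * s0)) ≤ 3 ^ k * τ.real (Iv x s0) := by
  have hm0 : (0 : ℝ) < m := by exact_mod_cast hm
  set T := τ.real univ
  have hT : ∀ A, τ.real A ≤ T := fun A => measureReal_mono (subset_univ A)
  obtain ⟨n1, hn1⟩ := pow_unbounded_of_one_lt (T * m / R0) (by norm_num : (1 : ℝ) < 3 / 2)
  obtain ⟨n2, hn2⟩ := pow_unbounded_of_one_lt (R0 * m) (by norm_num : (1 : ℝ) < 2)
  set n := max n1 n2
  have h1 : T * m / R0 < (3 / 2) ^ n :=
    lt_of_lt_of_le hn1 (pow_le_pow_right₀ (by norm_num) (le_max_left _ _))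
  have h2 : R0 * m < 2 ^ n :=
    lt_of_lt_of_le hn2 (pow_le_pow_right₀ (by norm_num) (le_max_right _ _))
  set s1 := R0 / 2 ^ n with hs1
  have hs10 : 0 < s1 := by positivity
  have hs11 : s1 ≤ 1 / m := by
    rw [hs1, div_le_div_iff₀ (by positivity) hm0]
    linarith
  have h3 : T / 3 ^ n < s1 / m := by
    rw [div_pow, div_lt_div_iff₀ hR (by positivity)] at h1
    rw [hs1, div_div, div_lt_div_iff₀ (by positivity) (by positivity)]
    nlinarith
  let g : ℕ → ℝ := fun k => τ.real (Iv x (2 ^ k * s1)) / 3 ^ k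
  have hg0 : s1 / m ≤ g 0 := by
    simpa [g] using hx s1 hs10 hs11
  obtain ⟨k0, hk0, hmax⟩ := Finset.exists_max_image (Finset.range (n + 1)) g ⟨0, by simp⟩
  have hk0n : k0 ≤ n := by simpa [Nat.lt_succ_iff] using hk0
  have hg00 : g 0 ≤ g k0 := hmax 0 (by simp)
  have hall : ∀ j, g j ≤ g k0 := by
    intro j
    by_cases hj : j ≤ n
    · exact hmax j (by simpa [Nat.lt_succ_iff] using hj)
    · have hT0 : 0 ≤ T := measureReal_nonneg
      have : g j ≤ T / 3 ^ n :=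
        div_le_div₀ hT0 (hT _) (by positivity) (pow_le_pow_right₀ (by norm_num) (by omega))
      linarith
  refine ⟨2 ^ k0 * s1, by positivity, ?_, ?_, fun k => ?_⟩
  · calc 2 ^ k0 * s1 ≤ 2 ^ n * s1 :=
          mul_le_mul_of_nonneg_right (pow_le_pow_right₀ (by norm_num) hk0n) hs10.le
      _ = R0 := by rw [hs1]; field_simp
  · have : 0 < g k0 := lt_of_lt_of_le (by positivity) (hg0.trans hg00)
    exact (div_pos_iff_of_pos_right (by positivity)).1 this
  · have h := hall (k + k0)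
    simp only [g] at h
    rw [div_le_div_iff₀ (by positivity) (by positivity), pow_add, pow_add, mul_assoc] at h
    have h4 : (0 : ℝ) < 3 ^ k0 := by positivity
    refine le_of_mul_le_mul_right ?_ h4
    linarith

/-- `Y m = {x ∈ Y | ∀ s ∈ (0, 1/m], s/m ≤ τ (Iv x s)}` has positive outer measure for some `m`
(`ae_linear_lower`, countable subadditivity). `Besicovitch.ae_tendsto_measure_inter_div τ (Y m)`
together with `ae_linear_lower` (absolutely continuous restriction; `τ.restrict (Y m) ≠ 0`) gives `x0`;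
`exists_growth_scale` with `R0` replaced by a small radius (also `≤ 1/m`, `≤ 1/(m M)`). -/
theorem exists_start {Y : Set ℝ} (hY : 0 < τ Y) {γ R0 M : ℝ} (hγ : 0 < γ) (hR : 0 < R0)
    (hM : 0 < M) :
    ∃ (x0 s0 : ℝ) (Y' : Set ℝ), 0 < s0 ∧ s0 ≤ R0 ∧ Y' ⊆ Y ∧ 0 < τ.real (Iv x0 s0) ∧
      (∀ k : ℕ, τ.real (Iv x0 (2 ^ k * s0)) ≤ 3 ^ k * τ.real (Iv x0 s0)) ∧
      (1 - γ) * τ.real (Iv x0 (4 * s0)) ≤ τ.real (Y' ∩ Iv x0 (4 * s0)) ∧
      ∀ y ∈ Y', ∀ s : ℝ, 0 < s → s ≤ s0 → M * s ^ 2 ≤ τ.real (Iv y s) := by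
  let Z : ℕ → Set ℝ := fun m =>
    {x | x ∈ Y ∧ 0 < m ∧ ∀ s : ℝ, 0 < s → s ≤ 1 / m → s / m ≤ τ.real (Iv x s)}
  have hZ : ∃ m, τ (Z m) ≠ 0 := by
    by_contra hcon
    push Not at hcon
    have h1 : τ (⋃ m, Z m) = 0 := measure_iUnion_null hcon
    have h2 : Y ≤ᵐ[τ] (⋃ m, Z m : Set ℝ) := by
      filter_upwards [ae_linear_lower τ] with x hx hxY
      obtain ⟨m, hm, hx⟩ := hx
      exact mem_iUnion.2 ⟨m, hxY, hm, hx⟩
    have := measure_mono_ae h2
    rw [h1] at this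
    exact absurd hY (not_lt.2 this)
  obtain ⟨m, hm⟩ := hZ
  have hm' : 0 < m := by
    obtain ⟨z, hz⟩ := nonempty_of_measure_ne_zero hm
    exact hz.2.1
  have hm0 : (0 : ℝ) < m := by exact_mod_cast hm'
  have : (ae (τ.restrict (Z m))).NeBot := by
    rw [ae_neBot, Ne, Measure.restrict_eq_zero]
    exact hm
  obtain ⟨x0, hx1, m1, hm1, hx2⟩ := ((Besicovitch.ae_tendsto_measure_inter_div τ (Z m)).and
    (ae_restrict_of_ae (ae_linear_lower τ))).exists
  have hlt : ENNReal.ofReal (1 - γ) < 1 := by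
    rw [ENNReal.ofReal_lt_one]
    linarith
  have hev := hx1.eventually (lt_mem_nhds hlt)
  obtain ⟨δ, hδ, hδ'⟩ := (mem_nhdsGT_iff_exists_Ioo_subset).1 hev
  have hδ0 : (0 : ℝ) < δ := hδ
  obtain ⟨s0, hs0, hs1, hs2, hs3⟩ := exists_growth_scale τ hm1 hx2
    (R0 := min (min R0 (δ / 8)) (min (1 / m) (1 / (m * M)))) (by positivity)
  have ha : s0 ≤ R0 := hs1.trans ((min_le_left _ _).trans (min_le_left _ _))
  have hb : s0 ≤ δ / 8 := hs1.trans ((min_le_left _ _).trans (min_le_right _ _))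
  have hc : s0 ≤ 1 / m := hs1.trans ((min_le_right _ _).trans (min_le_left _ _))
  have hd : s0 ≤ 1 / (m * M) := hs1.trans ((min_le_right _ _).trans (min_le_right _ _))
  refine ⟨x0, s0, Z m, hs0, ha, fun z hz => hz.1, hs2, hs3, ?_, fun y hy s hs hss => ?_⟩
  · have h1 : ENNReal.ofReal (1 - γ) <
        τ (Z m ∩ Metric.closedBall x0 (4 * s0)) / τ (Metric.closedBall x0 (4 * s0)) :=
      hδ' ⟨by positivity, by linarith⟩
    have h2 := ENNReal.mul_le_of_le_div h1.le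
    have h3 := ENNReal.toReal_mono (measure_ne_top _ _) h2
    rw [ENNReal.toReal_mul] at h3
    rw [Iv_eq_closedBall, measureReal_def, measureReal_def]
    refine le_trans (mul_le_mul_of_nonneg_right ?_ ENNReal.toReal_nonneg) h3
    rw [ENNReal.toReal_ofReal']
    exact le_max_left _ _
  · refine le_trans ?_ (hy.2.2 s hs (hss.trans hc))
    have h1 : s ≤ 1 / (m * M) := hss.trans hd
    rw [le_div_iff₀ (by positivity)] at h1
    rw [le_div_iff₀ hm0]
    nlinarith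

end Pool.Agent.MP_b29402_an

end

-- part MP_b29402_an.SelB
section

/-! Selection lemma: two unpolluted windows at comparable distance. -/

open MeasureTheory Set Filter Topology ProbabilityTheory
open scoped ComplexConjugate ENNReal

namespace Pool.Agent.MP_b29402_an

variable (τ : Measure ℝ) [IsFiniteMeasure τ]

/-- If `2 ^ k t ≤ 2 s0` use `h3`. Otherwise let `k0 ≤ k` be least with `s0 < 2 ^ k0 t` (so
`2 ^ k0 t ≤ 2 s0`); `Iv c0 (2 ^ k t) ⊆ Iv x0 (2 ^ (k - k0 + 2) s0)`, then `h1`, `h2`, `h3` with `u = s0`,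
`s0 / t < 2 ^ k0 ≤ 3 ^ k0`. -/
theorem growth_all {x0 c0 s0 : ℝ} (hs : 0 < s0) (h0 : |c0 - x0| ≤ 2 * s0)
    (h1 : ∀ k : ℕ, τ.real (Iv x0 (2 ^ k * s0)) ≤ 3 ^ k * τ.real (Iv x0 s0))
    (h2 : τ.real (Iv x0 s0) ≤ 8 * τ.real (Iv c0 s0))
    (h3 : ∀ t u, 0 < t → t ≤ u → u ≤ 2 * s0 →
      τ.real (Iv c0 u) ≤ 10000 * (u / t) * τ.real (Iv c0 t))
    {t : ℝ} (ht : 0 < t) (hts : t ≤ s0) (k : ℕ) :
    τ.real (Iv c0 (2 ^ k * t)) ≤ 720000 * 3 ^ k * τ.real (Iv c0 t) := by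
  have m0 : 0 ≤ τ.real (Iv c0 t) := measureReal_nonneg
  have p23 : ∀ j : ℕ, (2 : ℝ) ^ j ≤ 3 ^ j := fun j => pow_le_pow_left₀ (by norm_num) (by norm_num) j
  have p1 : ∀ j : ℕ, (1 : ℝ) ≤ 2 ^ j := fun j => one_le_pow₀ (by norm_num)
  by_cases hk : 2 ^ k * t ≤ 2 * s0
  · have h4 := h3 t (2 ^ k * t) ht (le_mul_of_one_le_left ht.le (p1 k)) hk
    rw [mul_div_assoc, div_self ht.ne', mul_one] at h4
    refine h4.trans (mul_le_mul_of_nonneg_right ?_ m0)
    have := p23 k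
    have := p1 k
    linarith
  · push Not at hk
    have hex : ∃ j : ℕ, s0 < 2 ^ j * t := ⟨k, by linarith⟩
    classical
    have a1 : s0 < 2 ^ Nat.find hex * t := Nat.find_spec hex
    have a2 : Nat.find hex ≤ k := Nat.find_min' hex (by linarith)
    have a3 : 2 ^ Nat.find hex * t ≤ 2 * s0 := by
      rcases Nat.eq_zero_or_pos (Nat.find hex) with h | h
      · rw [h]; simp; linarith
      · have a4 := Nat.find_min hex (Nat.sub_one_lt_of_lt h)
        push Not at a4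
        obtain ⟨i, hi⟩ : ∃ i, Nat.find hex = i + 1 := ⟨Nat.find hex - 1, by omega⟩
        rw [hi] at a4 ⊢
        rw [Nat.add_sub_cancel] at a4
        rw [pow_succ]; linarith
    generalize Nat.find hex = k0 at a1 a2 a3
    obtain ⟨j, rfl⟩ := Nat.exists_eq_add_of_le a2
    have b1 : (2 : ℝ) ^ (k0 + j) * t ≤ 2 ^ j * (2 * s0) := by
      rw [pow_add, mul_comm (2 ^ k0 : ℝ), mul_assoc]
      exact mul_le_mul_of_nonneg_left a3 (by positivity)
    have b2 : 2 * s0 ≤ 2 ^ j * (2 * s0) := le_mul_of_one_le_left (by positivity) (p1 j)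
    have b3 : Iv c0 (2 ^ (k0 + j) * t) ⊆ Iv x0 (2 ^ (j + 2) * s0) := by
      have e : (2 : ℝ) ^ (j + 2) * s0 = 2 * (2 ^ j * (2 * s0)) := by ring
      obtain ⟨l, r⟩ := abs_le.1 h0
      exact Icc_subset_Icc (by rw [e]; linarith) (by rw [e]; linarith)
    have b4 := h3 t s0 ht hts (by linarith)
    have b5 : s0 / t ≤ 3 ^ k0 := ((div_le_iff₀ ht).2 a1.le).trans (p23 k0)
    have b6 : τ.real (Iv c0 s0) ≤ 10000 * 3 ^ k0 * τ.real (Iv c0 t) :=
      b4.trans (mul_le_mul_of_nonneg_right (by linarith) m0)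
    calc τ.real (Iv c0 (2 ^ (k0 + j) * t)) ≤ τ.real (Iv x0 (2 ^ (j + 2) * s0)) :=
          measureReal_mono b3
      _ ≤ 3 ^ (j + 2) * τ.real (Iv x0 s0) := h1 _
      _ ≤ 3 ^ (j + 2) * (8 * (10000 * 3 ^ k0 * τ.real (Iv c0 t))) :=
          mul_le_mul_of_nonneg_left (by linarith) (by positivity)
      _ = 720000 * 3 ^ (k0 + j) * τ.real (Iv c0 t) := by ring

/-- `K1_le_tsum`, `lintegral_tsum`, `∑ 4 / 4 ^ k * 3 ^ (k + 2) = 144`. -/
theorem integral_K1_le {c0 R C : ℝ} (hR : 0 < R) (hC : 0 ≤ C)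
    (h : ∀ k : ℕ, τ.real (Iv c0 (2 ^ k * (R / 4))) ≤ C * 3 ^ k * τ.real (Iv c0 (R / 4))) :
    ∫ y, K1 R c0 y ∂τ ≤ 144 * C * τ.real (Iv c0 (R / 4)) := by
  set m := τ.real (Iv c0 (R / 4)) with hm
  have m0 : 0 ≤ m := measureReal_nonneg
  have hK : ∀ y, 0 ≤ K1 R c0 y := fun y => by unfold K1; positivity
  have hmeas : Measurable fun y => K1 R c0 y := by unfold K1; fun_prop
  rw [integral_eq_lintegral_of_nonneg_ae (ae_of_all _ hK) hmeas.aestronglyMeasurable]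
  refine ENNReal.toReal_le_of_le_ofReal (by positivity) ?_
  have hI : ∀ k : ℕ, MeasurableSet (Iv c0 (2 ^ k * R)) := fun k => measurableSet_Icc
  have hs : HasSum (fun k : ℕ => 36 * C * m * (3 / 4 : ℝ) ^ k) (144 * C * m) := by
    have := (hasSum_geometric_of_lt_one (r := (3 / 4 : ℝ)) (by norm_num) (by norm_num)).mul_left
      (36 * C * m)
    have e : 36 * C * m * (1 - 3 / 4 : ℝ)⁻¹ = 144 * C * m := by norm_num; ring
    rwa [e] at this
  calc ∫⁻ y, ENNReal.ofReal (K1 R c0 y) ∂τ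
      ≤ ∫⁻ y, ∑' k : ℕ,
          (Iv c0 (2 ^ k * R)).indicator (fun _ => ENNReal.ofReal (4 / 4 ^ k)) y ∂τ :=
        lintegral_mono fun y => K1_le_tsum hR c0 y
    _ = ∑' k : ℕ, ENNReal.ofReal (4 / 4 ^ k) * τ (Iv c0 (2 ^ k * R)) := by
        rw [lintegral_tsum fun k => (measurable_const.indicator (hI k)).aemeasurable]
        exact tsum_congr fun k => lintegral_indicator_const (hI k) _
    _ ≤ ∑' k : ℕ, ENNReal.ofReal (36 * C * m * (3 / 4 : ℝ) ^ k) := by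
        refine ENNReal.tsum_le_tsum fun k => ?_
        rw [← ofReal_measureReal (measure_ne_top τ _), ← ENNReal.ofReal_mul (by positivity)]
        refine ENNReal.ofReal_le_ofReal ?_
        have h1 := h (k + 2)
        have e : (2 : ℝ) ^ (k + 2) * (R / 4) = 2 ^ k * R := by ring
        rw [e] at h1
        refine (mul_le_mul_of_nonneg_left h1 (by positivity)).trans (le_of_eq ?_)
        rw [div_pow]
        field_simp
        ring
    _ = ENNReal.ofReal (144 * C * m) := by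
        rw [← ENNReal.ofReal_tsum_of_nonneg (fun k => by positivity) hs.summable, hs.tsum_eq]

/-- cover `Iv c R` by 256 intervals of radius `R/256`; an interval meeting the set lies in
`Iv y (R/64)` for a point `y` of the set, hence has mass `≤ a`. -/
theorem measure_light_le (c : ℝ) {R a : ℝ} (hR : 0 < R) (ha : 0 ≤ a) :
    τ.real {y | |y - c| ≤ R ∧ τ.real (Iv y (R / 64)) < a} ≤ 256 * a := by
  set S := {y | |y - c| ≤ R ∧ τ.real (Iv y (R / 64)) < a} with hS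
  have hcov : S ⊆ ⋃ i ∈ Finset.range 256,
      S ∩ Icc (c - R + i * (R / 128)) (c - R + (i + 1) * (R / 128)) := by
    intro y hy
    obtain ⟨l, r⟩ := abs_le.1 hy.1
    have h0 : 0 ≤ (y - (c - R)) / (R / 128) := div_nonneg (by linarith) (by positivity)
    by_cases he : y = c + R
    · refine mem_iUnion₂.2 ⟨255, by simp, hy, ?_, ?_⟩
      · rw [he]; push_cast; linarith
      · rw [he]; push_cast; linarith
    · have hlt : y < c + R := lt_of_le_of_ne (by linarith) he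
      refine mem_iUnion₂.2 ⟨⌊(y - (c - R)) / (R / 128)⌋₊, ?_, hy, ?_, ?_⟩
      · rw [Finset.mem_range, Nat.floor_lt h0, div_lt_iff₀ (by positivity)]
        push_cast; linarith
      · have := (le_div_iff₀ (by positivity)).1 (Nat.floor_le h0)
        linarith
      · have := (div_lt_iff₀ (by positivity)).1 (Nat.lt_floor_add_one ((y - (c - R)) / (R / 128)))
        linarith
  have hone : ∀ i : ℕ,
      τ.real (S ∩ Icc (c - R + i * (R / 128)) (c - R + (i + 1) * (R / 128))) ≤ a := by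
    intro i
    rcases (S ∩ Icc (c - R + i * (R / 128)) (c - R + (i + 1) * (R / 128))).eq_empty_or_nonempty
      with h | ⟨y, hy, y1, y2⟩
    · rw [h]; simpa using ha
    · refine (measureReal_mono (s₂ := Iv y (R / 64)) ?_).trans hy.2.le
      rintro z ⟨-, z1, z2⟩
      exact ⟨by linarith, by linarith⟩
  calc τ.real S ≤ τ.real (⋃ i ∈ Finset.range 256,
        S ∩ Icc (c - R + i * (R / 128)) (c - R + (i + 1) * (R / 128))) :=
        measureReal_mono hcov (measure_ne_top _ _)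
    _ ≤ ∑ i ∈ Finset.range 256,
        τ.real (S ∩ Icc (c - R + i * (R / 128)) (c - R + (i + 1) * (R / 128))) :=
        measureReal_biUnion_finset_le _ _
    _ ≤ ∑ _i ∈ Finset.range 256, a := Finset.sum_le_sum fun i _ => hone i
    _ = 256 * a := by simp

end Pool.Agent.MP_b29402_an

end

-- part MP_b29402_an.SelS
section

/-! Selection lemma: two unpolluted windows at comparable distance. -/

open MeasureTheory Set Filter Topology ProbabilityTheory
open scoped ComplexConjugate ENNReal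

namespace Pool.Agent.MP_b29402_an

theorem SelS_mem {c r y : ℝ} : y ∈ Iv c r ↔ |y - c| ≤ r := by
  unfold Iv
  rw [mem_Icc, abs_le]
  constructor <;> intro h <;> constructor <;> linarith [h.1, h.2]

theorem SelS_sub {c r c' r' : ℝ} (h : |c - c'| + r ≤ r') : Iv c r ⊆ Iv c' r' := fun y hy => by
  rw [SelS_mem] at hy ⊢
  have := abs_sub_le y c c'
  linarith

theorem SelS_small (τ : Measure ℝ) [IsFiniteMeasure τ] {c s m : ℝ} (h : τ {c} = 0) (hs : 0 < s)
    (hm : 0 < m) : ∃ n : ℕ, τ.real (Iv c (s / 2 ^ n)) ≤ m := by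
  have h1 : Antitone fun n : ℕ => Iv c (s / 2 ^ n) := fun a b hab => SelS_sub (by
    rw [sub_self, abs_zero, zero_add]
    exact div_le_div_of_nonneg_left hs.le (by positivity) (pow_le_pow_right₀ (by norm_num) hab))
  have h2 := tendsto_measure_iInter_atTop (μ := τ)
    (fun n : ℕ => (show MeasurableSet (Iv c (s / 2 ^ n)) from measurableSet_Icc).nullMeasurableSet)
    h1 ⟨0, measure_ne_top _ _⟩
  have h3 : τ (⋂ n : ℕ, Iv c (s / 2 ^ n)) = 0 := by
    refine measure_mono_null (fun y hy => ?_) h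
    rw [mem_iInter] at hy
    have h4 : Tendsto (fun n : ℕ => s / 2 ^ n) atTop (𝓝 0) :=
      tendsto_const_nhds.div_atTop (tendsto_pow_atTop_atTop_of_one_lt (by norm_num))
    have h5 : |y - c| ≤ 0 := ge_of_tendsto' h4 fun n => SelS_mem.1 (hy n)
    exact sub_eq_zero.1 (abs_nonpos_iff.1 h5)
  rw [h3] at h2
  obtain ⟨n, hn⟩ := (h2.eventually (gt_mem_nhds (ENNReal.ofReal_pos.2 hm))).exists
  exact ⟨n, ENNReal.toReal_le_of_le_ofReal hm.le hn.le⟩

theorem SelS_int (τ : Measure ℝ) [IsFiniteMeasure τ] {R : ℝ} (hR : 0 < R) (c : ℝ) :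
    Integrable (K1 R c) τ ∧ Integrable (K2 R c) τ :=
  ⟨Integrable.of_bound (K1_continuous hR c).aestronglyMeasurable 1 (Eventually.of_forall fun y => by
      rw [Real.norm_of_nonneg (K1_nonneg _ _ _)]; exact K1_le_one hR c y),
    Integrable.of_bound (K2_continuous hR c).aestronglyMeasurable 1 (Eventually.of_forall fun y => by
      rw [Real.norm_of_nonneg (K2_nonneg _ _ _)]; exact K2_le_one hR c y)⟩

theorem SelS_bad (τ : Measure ℝ) [IsFiniteMeasure τ] {s β : ℝ} (hs : 0 < s) (hβ : 0 ≤ β) (c : ℝ)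
    (n : ℕ) : τ.real (⋃ j ∈ Finset.range n, {y | |y - c| ≤ s / 2 ^ j ∧
      τ.real (Iv y (s / 2 ^ j / 64)) < β * ∫ y, K2 (s / 2 ^ j) c y ∂τ}) ≤
      1024 * β * ∫ y, K1 s c y ∂τ := by
  refine (measureReal_biUnion_finset_le _ _).trans ((Finset.sum_le_sum fun j _ =>
    measure_light_le τ c (by positivity)
      (mul_nonneg hβ (integral_nonneg (K2_nonneg _ _)))).trans ?_)
  rw [← Finset.mul_sum, ← Finset.mul_sum, ← integral_finsetSum _ fun j _ =>
    (SelS_int τ (by positivity) c).2]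
  have h1 : ∫ y, ∑ j ∈ Finset.range n, K2 (s / 2 ^ j) c y ∂τ ≤ ∫ y, 4 * K1 s c y ∂τ :=
    integral_mono (integrable_finsetSum _ fun j _ => (SelS_int τ (by positivity) c).2)
      ((SelS_int τ hs c).1.const_mul 4) fun y => sum_K2_le hs c y n
  rw [integral_const_mul] at h1
  nlinarith [mul_le_mul_of_nonneg_left h1 hβ]

theorem SelS_scale {s d : ℝ} {n : ℕ} (h0 : d ≤ s) (hn : s / 2 ^ n < d) :
    ∃ j < n, s / 2 ^ j / 2 < d ∧ d ≤ s / 2 ^ j := by
  induction n with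
  | zero => simp only [pow_zero, div_one] at hn; exact absurd h0 hn.not_ge
  | succ n ih =>
    rcases lt_or_ge (s / 2 ^ n) d with h | h
    · obtain ⟨j, hj, h'⟩ := ih h
      exact ⟨j, hj.trans n.lt_succ_self, h'⟩
    · exact ⟨n, n.lt_succ_self, by rwa [div_div, ← pow_succ], h⟩

/-- Let `C = 720000`, `C2 = 144 C`, `β = 1 / (8192 C2)`, `γ = 1/1000`. Take `x0 s0 Y'` from
`exists_start` (with `M' = 80000 M`), `c0` from `exists_growth_point` (`τ (Iv x0 (4 s0)) ≤ 9 τ (Iv x0 s0)`),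
`m = τ (Iv c0 s0) > 0`, `τ (Iv x0 (4 s0)) ≤ 72 m`, `Iv c0 s0 ⊆ Iv x0 (4 s0)`. `R j = s0 / 2 ^ j`,
`κ j = ∫ K2 (R j) c0`. No atom: `τ (Iv c0 (R n)) ≤ m / 2` for some `n` (`tendsto_measure_iInter_atTop`).
`Bad j = {y | |y - c0| ≤ R j ∧ τ (Iv y (R j / 64)) < β κ j}`; `∑ j < n, τ (Bad j) ≤ 256 β ∑ κ j ≤
1024 β ∫ K1 s0 c0 ≤ 1024 β C2 m = m / 8` (`measure_light_le`, `sum_K2_le`, `integral_K1_le`, `growth_all`).
If every point of `Y' ∩ Iv c0 s0` were in `Iv c0 (R n) ∪ ⋃ j < n, Bad j`, then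
`τ (Y' ∩ Iv x0 (4 s0)) ≤ τ (Iv x0 (4 s0)) - m + 5 m / 8 < (1 - γ) τ (Iv x0 (4 s0))`. So there is
`σ ∈ Y'` and `j < n` with `R j / 2 < |σ - c0| ≤ R j`, `σ ∉ Bad j`; `R = R j`. Main window:
`integral_K1_le`; masses: `M' (R/64)² ≤ τ (Iv σ (R/64))`, and
`M' R² ≤ τ (Iv σ R) ≤ τ (Iv c0 (2 R)) ≤ 80000 τ (Iv c0 (R/4))`. -/
theorem selection : ∃ β : ℝ, 0 < β ∧ ∀ (τ : Measure ℝ) [IsFiniteMeasure τ], (∀ a, τ {a} = 0) →
    ∀ Y : Set ℝ, 0 < τ Y → ∀ R0 M : ℝ, 0 < R0 → 0 < M →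
      ∃ R c0 s : ℝ, 0 < R ∧ R ≤ R0 ∧ s ∈ Y ∧ R / 2 < |s - c0| ∧ |s - c0| ≤ R ∧
        β * ∫ y, K1 R c0 y ∂τ ≤ τ.real (Iv c0 (1 / 4 * R)) ∧
        β * ∫ y, K2 R c0 y ∂τ ≤ τ.real (Iv s (1 / 64 * R)) ∧
        M * R ^ 2 ≤ τ.real (Iv c0 (1 / 4 * R)) ∧ M * R ^ 2 ≤ τ.real (Iv s (1 / 64 * R)) := by
  refine ⟨1 / (8192 * (144 * 720000)), by norm_num, fun τ _ hat Y hY R0 M hR0 hM => ?_⟩
  obtain ⟨x0, s0, Y', hs, hsR, hY', hp, h1, hd, hq⟩ :=
    exists_start τ hY (γ := 1 / 1000) (M := 80000 * M) (by norm_num) hR0 (by positivity)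
  have h9 : τ.real (Iv x0 (4 * s0)) ≤ 9 * τ.real (Iv x0 s0) := by
    have := h1 2
    norm_num at this
    exact this
  obtain ⟨c0, h0, h2, h3⟩ := exists_growth_point τ x0 hs (by linarith)
  have hK : ∀ R, 0 < R → R ≤ s0 → ∫ y, K1 R c0 y ∂τ ≤ 144 * 720000 * τ.real (Iv c0 (R / 4)) :=
    fun R hR hRs => integral_K1_le τ hR (by norm_num)
      (growth_all τ hs h0 h1 h2 h3 (by linarith) (by linarith))
  have hm : 0 < τ.real (Iv c0 s0) := by linarith
  obtain ⟨n, hn⟩ := SelS_small τ (hat c0) hs (half_pos hm)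
  have hb := SelS_bad τ hs (β := 1 / (8192 * (144 * 720000))) (by norm_num) c0 n
  have hK0 := hK s0 hs le_rfl
  have hq4 : τ.real (Iv c0 (s0 / 4)) ≤ τ.real (Iv c0 s0) :=
    measureReal_mono (SelS_sub (by rw [sub_self, abs_zero]; linarith))
  have hsub : Iv c0 s0 ⊆ Iv x0 (4 * s0) := SelS_sub (by linarith)
  obtain ⟨σ, hσ, hσ0, hσn, hσb⟩ : ∃ σ ∈ Y', σ ∈ Iv c0 s0 ∧ σ ∉ Iv c0 (s0 / 2 ^ n) ∧
      σ ∉ ⋃ j ∈ Finset.range n, {y | |y - c0| ≤ s0 / 2 ^ j ∧ τ.real (Iv y (s0 / 2 ^ j / 64)) <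
        1 / (8192 * (144 * 720000)) * ∫ y, K2 (s0 / 2 ^ j) c0 y ∂τ} := by
    by_contra hc
    generalize (⋃ j ∈ Finset.range n, {y | |y - c0| ≤ s0 / 2 ^ j ∧
      τ.real (Iv y (s0 / 2 ^ j / 64)) <
        1 / (8192 * (144 * 720000)) * ∫ y, K2 (s0 / 2 ^ j) c0 y ∂τ}) = B at hb hc
    have k1 : Y' ∩ Iv x0 (4 * s0) ⊆ (Iv x0 (4 * s0) \ Iv c0 s0) ∪ (Iv c0 (s0 / 2 ^ n) ∪ B) := by
      intro y hy
      by_contra hy'
      simp only [mem_union, Set.mem_sdiff, not_or, not_and, not_not] at hy'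
      exact hc ⟨y, hy.1, hy'.1 hy.2, hy'.2.1, hy'.2.2⟩
    have k2 := (measureReal_mono (μ := τ) k1).trans ((measureReal_union_le _ _).trans
      (add_le_add_right (measureReal_union_le _ _) _))
    rw [measureReal_sdiff hsub (show MeasurableSet (Iv c0 s0) from measurableSet_Icc)] at k2
    linarith
  rw [SelS_mem] at hσ0 hσn
  obtain ⟨j, hj, k1, k2⟩ := SelS_scale hσ0 (not_le.1 hσn)
  have hR : 0 < s0 / 2 ^ j := by positivity
  have hRs : s0 / 2 ^ j ≤ s0 := div_le_self hs.le (one_le_pow₀ (by norm_num))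
  have hb' : 1 / (8192 * (144 * 720000)) * ∫ y, K2 (s0 / 2 ^ j) c0 y ∂τ ≤
      τ.real (Iv σ (s0 / 2 ^ j / 64)) := by
    by_contra hc
    exact hσb (mem_iUnion₂.2 ⟨j, Finset.mem_range.2 hj, k2, not_le.1 hc⟩)
  generalize s0 / 2 ^ j = R at k1 k2 hR hRs hb'
  have e4 : 1 / 4 * R = R / 4 := by ring
  have e64 : 1 / 64 * R = R / 64 := by ring
  have n4 : 0 ≤ τ.real (Iv c0 (R / 4)) := measureReal_nonneg
  refine ⟨R, c0, σ, hR, hRs.trans hsR, hY' hσ, k1, k2, ?_, ?_, ?_, ?_⟩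
  · rw [e4]
    linarith [hK R hR hRs]
  · rw [e64]
    exact hb'
  · rw [e4]
    have a1 := hq σ hσ R hR hRs
    have a2 : τ.real (Iv σ R) ≤ τ.real (Iv c0 (2 * R)) := measureReal_mono (SelS_sub (by linarith))
    have a3 := h3 (R / 4) (2 * R) (by linarith) (by linarith) (by linarith)
    have a4 : 2 * R / (R / 4) = 8 := by field_simp; norm_num
    rw [a4] at a3
    linarith
  · rw [e64]
    have a1 := hq σ hσ (R / 64) (by linarith) (by linarith)
    have a2 : 0 ≤ M * R ^ 2 := by positivity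
    nlinarith

end Pool.Agent.MP_b29402_an

end
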