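import Pool.Agent.MP_b29402_an.Mg.MWt
import Pool.Agent.MP_b29402_an.Mg.Diff
import Pool.Agent.MP_b29402_an.Mg.SelS
import Pool.Agent.MP_b29402_an.Mg.DkC
import Pool.Agent.MP_b29402_an.Mg.Fam1
import Pool.Agent.MP_b29402_an.Mg.SpecB
import Pool.Agent.MP_b29402_an.Mg.Core

-- part MP_b29402_an.Data1
section

/-! The spectral part of the construction of the two windows. -/

open MeasureTheory Set Filter Topology ProbabilityTheory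
open scoped ComplexConjugate ENNReal

namespace Pool.Agent.MP_b29402_an

variable (σ : Kernel ℝ ℝ) [IsFiniteKernel σ]

/-- `lam = mJ + nJ`, `E = I ×ˢ D`: `lam (E ∩ G) ≤ (1 + C) nJ E` and `lam E = lam (E ∩ G) + lam (E \ G)`,
so `lam (E \ G) ≤ η lam E` gives `lam (E \ G) ≤ 2 η (1 + C) nJ E`; `nJ_prod`, `PP_le`. -/
theorem defect_le {G : Set (ℝ × ℝ)} (hG : MeasurableSet G) {C : ℝ} (hC : 0 < C)
    (hle : (mJ σ).restrict G ≤ ENNReal.ofReal C • (nJ σ).restrict G) {I D : Set ℝ}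
    (hI : MeasurableSet I) (hD : MeasurableSet D) {η θ ρ : ℝ} (hη : 0 ≤ η) (hη' : η ≤ 1 / 2)
    (hρ : 0 ≤ ρ) (hIs : I ⊆ Iv θ ρ)
    (h : (mJ σ + nJ σ).real ((I ×ˢ D) \ G) ≤ η * (mJ σ + nJ σ).real (I ×ˢ D)) :
    (mJ σ + nJ σ).real ((I ×ˢ D) \ G) ≤ 4 * η * (1 + C) * ρ * (Sg σ).real D := by
  have hE : MeasurableSet (I ×ˢ D) := hI.prod hD
  have h1 : (mJ σ) ((I ×ˢ D) ∩ G) ≤ ENNReal.ofReal C * (nJ σ) ((I ×ˢ D) ∩ G) := by
    have := hle (I ×ˢ D)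
    rwa [Measure.smul_apply, Measure.restrict_apply hE, Measure.restrict_apply hE,
      smul_eq_mul] at this
  have h2 : (mJ σ).real ((I ×ˢ D) ∩ G) ≤ C * (nJ σ).real ((I ×ˢ D) ∩ G) := by
    have h3 := ENNReal.toReal_mono
      (ENNReal.mul_ne_top ENNReal.ofReal_ne_top (measure_ne_top _ _)) h1
    rwa [ENNReal.toReal_mul, ENNReal.toReal_ofReal hC.le] at h3
  have h3 : (nJ σ).real ((I ×ˢ D) ∩ G) ≤ (nJ σ).real (I ×ˢ D) :=
    measureReal_mono inter_subset_left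
  have h4 : (mJ σ + nJ σ).real ((I ×ˢ D) ∩ G) =
      (mJ σ).real ((I ×ˢ D) ∩ G) + (nJ σ).real ((I ×ˢ D) ∩ G) :=
    measureReal_add_apply (measure_ne_top _ _) (measure_ne_top _ _)
  have h5 : (mJ σ + nJ σ).real ((I ×ˢ D) ∩ G) + (mJ σ + nJ σ).real ((I ×ˢ D) \ G) =
      (mJ σ + nJ σ).real (I ×ˢ D) := measureReal_inter_add_sdiff hG
  have h6 : PP.real I ≤ 2 * ρ := by
    have h7 : PP I ≤ ENNReal.ofReal (2 * ρ) := by
      calc PP I ≤ volume I := PP_le I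
        _ ≤ volume (Iv θ ρ) := measure_mono hIs
        _ = ENNReal.ofReal (2 * ρ) := by
          rw [Iv, Real.volume_Icc]; congr 1; ring
    exact ENNReal.toReal_le_of_le_ofReal (by positivity) h7
  have h8 : (nJ σ).real (I ×ˢ D) ≤ 2 * ρ * (Sg σ).real D := by
    rw [nJ_prod]
    exact mul_le_mul_of_nonneg_right h6 measureReal_nonneg
  have h9 : (mJ σ + nJ σ).real ((I ×ˢ D) ∩ G) ≤ (1 + C) * (2 * ρ * (Sg σ).real D) := by
    rw [h4]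
    have h10 : (nJ σ).real ((I ×ˢ D) ∩ G) ≤ 2 * ρ * (Sg σ).real D := h3.trans h8
    have h11 := mul_le_mul_of_nonneg_left h10 hC.le
    linarith
  have hx : 0 ≤ (mJ σ + nJ σ).real ((I ×ˢ D) \ G) := measureReal_nonneg
  rw [← h5] at h
  have h12 := mul_le_mul_of_nonneg_left h9 hη
  have h13 := mul_le_mul_of_nonneg_right hη' hx
  nlinarith

/-- sections `G^y = {θ | (θ, y) ∈ G}`: `nJ G = ∫⁻ y, PP (G^y) dSg` (`Measure.prod_apply_symm`), so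
`Y0 = {y | 2 κ ≤ PP (G^y)}` has positive measure for some `κ = 1/(n+1)`. If `nJ (G \ G') ≤ γ :=
κ * Sg Y0 / 2`, Markov gives `Sg {y | κ < PP ((G \ G')^y)} ≤ Sg Y0 / 2`, and on the rest of `Y0` one has
`κ ≤ PP (G'^y)`. -/
theorem exists_sections {G : Set (ℝ × ℝ)} (hG : MeasurableSet G) (hpos : 0 < nJ σ G) :
    ∃ κ γ : ℝ, 0 < κ ∧ 0 < γ ∧ ∀ G' : Set (ℝ × ℝ), MeasurableSet G' → G' ⊆ G →
      (nJ σ).real (G \ G') ≤ γ → 0 < Sg σ {y | κ ≤ PP.real {θ | (θ, y) ∈ G'}} := by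
  have hform : ∀ S : Set (ℝ × ℝ), MeasurableSet S →
      nJ σ S = ∫⁻ y, PP {θ | (θ, y) ∈ S} ∂(Sg σ) := by
    intro S hS
    rw [nJ, Measure.prod_apply_symm hS]
    rfl
  obtain ⟨n, hn⟩ : ∃ n : ℕ,
      0 < Sg σ {y | 2 * (1 / ((n : ℝ) + 1)) ≤ PP.real {θ | (θ, y) ∈ G}} := by
    by_contra hcon
    push Not at hcon
    have h0 : ∀ n : ℕ, Sg σ {y | 2 * (1 / ((n : ℝ) + 1)) ≤ PP.real {θ | (θ, y) ∈ G}} = 0 :=
      fun n => le_antisymm (hcon n) zero_le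
    have h1 : Sg σ (⋃ n : ℕ, {y | 2 * (1 / ((n : ℝ) + 1)) ≤ PP.real {θ | (θ, y) ∈ G}}) = 0 :=
      measure_iUnion_null h0
    have h2 : ∀ᵐ y ∂(Sg σ), PP {θ | (θ, y) ∈ G} = 0 := by
      rw [ae_iff]
      refine measure_mono_null ?_ h1
      intro y hy
      have hy' : PP {θ | (θ, y) ∈ G} ≠ 0 := hy
      have hp : 0 < PP.real {θ | (θ, y) ∈ G} := ENNReal.toReal_pos hy' (measure_ne_top _ _)
      obtain ⟨n, hn⟩ := exists_nat_one_div_lt (half_pos hp)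
      exact mem_iUnion.2 ⟨n, by show 2 * (1 / ((n : ℝ) + 1)) ≤ PP.real {θ | (θ, y) ∈ G}; linarith⟩
    rw [hform G hG, lintegral_congr_ae h2, lintegral_zero] at hpos
    exact lt_irrefl _ hpos
  obtain ⟨κ, hκ⟩ : ∃ κ : ℝ, κ = 1 / ((n : ℝ) + 1) := ⟨_, rfl⟩
  rw [← hκ] at hn
  have hκ0 : 0 < κ := by rw [hκ]; positivity
  obtain ⟨Y0, hY0⟩ : ∃ Y0 : Set ℝ, Y0 = {y | 2 * κ ≤ PP.real {θ | (θ, y) ∈ G}} := ⟨_, rfl⟩
  rw [← hY0] at hn
  have hm : 0 < (Sg σ).real Y0 := ENNReal.toReal_pos hn.ne' (measure_ne_top _ _)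
  refine ⟨κ, κ * (Sg σ).real Y0 / 2, hκ0, by positivity, ?_⟩
  intro G' hG' hsub hγ
  have hd : MeasurableSet (G \ G') := hG.diff hG'
  have hmeas : Measurable fun y => PP {θ | (θ, y) ∈ G \ G'} :=
    measurable_measure_prodMk_right hd
  have hM : ENNReal.ofReal κ * Sg σ {y | ENNReal.ofReal κ ≤ PP {θ | (θ, y) ∈ G \ G'}} ≤
      nJ σ (G \ G') := by
    rw [hform _ hd]
    exact mul_meas_ge_le_lintegral₀ hmeas.aemeasurable _
  have hM' : κ * (Sg σ).real {y | ENNReal.ofReal κ ≤ PP {θ | (θ, y) ∈ G \ G'}} ≤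
      (nJ σ).real (G \ G') := by
    have h3 := ENNReal.toReal_mono (measure_ne_top _ _) hM
    rwa [ENNReal.toReal_mul, ENNReal.toReal_ofReal hκ0.le] at h3
  have hB : (Sg σ).real {y | ENNReal.ofReal κ ≤ PP {θ | (θ, y) ∈ G \ G'}} ≤
      (Sg σ).real Y0 / 2 := by
    have h4 := hM'.trans hγ
    have h5 : κ * (Sg σ).real Y0 / 2 = κ * ((Sg σ).real Y0 / 2) := by ring
    rw [h5] at h4
    exact le_of_mul_le_mul_left h4 hκ0
  have hcov : Y0 ⊆ {y | κ ≤ PP.real {θ | (θ, y) ∈ G'}} ∪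
      {y | ENNReal.ofReal κ ≤ PP {θ | (θ, y) ∈ G \ G'}} := by
    intro y hy
    rw [hY0] at hy
    have hy' : 2 * κ ≤ PP.real {θ | (θ, y) ∈ G} := hy
    by_cases hb : ENNReal.ofReal κ ≤ PP {θ | (θ, y) ∈ G \ G'}
    · exact Or.inr hb
    · left
      have hlt : PP.real {θ | (θ, y) ∈ G \ G'} ≤ κ :=
        ENNReal.toReal_le_of_le_ofReal hκ0.le (not_le.1 hb).le
      have hs : {θ | (θ, y) ∈ G} ⊆ {θ | (θ, y) ∈ G'} ∪ {θ | (θ, y) ∈ G \ G'} := by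
        intro θ hθ
        by_cases h' : (θ, y) ∈ G'
        · exact Or.inl h'
        · exact Or.inr ⟨hθ, h'⟩
      have h6 : PP.real {θ | (θ, y) ∈ G} ≤
          PP.real {θ | (θ, y) ∈ G'} + PP.real {θ | (θ, y) ∈ G \ G'} :=
        (measureReal_mono hs).trans (measureReal_union_le _ _)
      show κ ≤ PP.real {θ | (θ, y) ∈ G'}
      linarith
  have h7 : (Sg σ).real Y0 ≤ (Sg σ).real {y | κ ≤ PP.real {θ | (θ, y) ∈ G'}} +
      (Sg σ).real {y | ENNReal.ofReal κ ≤ PP {θ | (θ, y) ∈ G \ G'}} :=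
    (measureReal_mono hcov).trans (measureReal_union_le _ _)
  have h8 : 0 < (Sg σ).real {y | κ ≤ PP.real {θ | (θ, y) ∈ G'}} := by linarith
  exact pos_iff_ne_zero.2 fun h0 => by
    rw [Measure.real, h0] at h8
    simp at h8

theorem Data1_mass {τ : Measure ℝ} [IsFiniteMeasure τ] {Kr : ℝ → ℝ} (hc : Continuous Kr)
    (h0 : ∀ y, 0 ≤ Kr y) (h1 : ∀ y, Kr y ≤ 1) {W : Set ℝ} (hW : MeasurableSet W)
    (hge : ∀ y ∈ W, 1 / 625 ≤ Kr y) : τ.real W ≤ 625 * ∫ y, Kr y ∂τ := by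
  have hi : Integrable Kr τ := by
    refine Integrable.of_bound hc.aestronglyMeasurable 1 (ae_of_all _ fun y => ?_)
    rw [Real.norm_eq_abs, abs_of_nonneg (h0 y)]
    exact h1 y
  have h2 : ∫ y, W.indicator (fun _ => (1 / 625 : ℝ)) y ∂τ ≤ ∫ y, Kr y ∂τ := by
    refine integral_mono ((integrable_const _).indicator hW) hi fun y => ?_
    by_cases hy : y ∈ W
    · rw [indicator_of_mem hy]; exact hge y hy
    · rw [indicator_of_notMem hy]; exact h0 y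
  rw [integral_indicator_const _ hW, smul_eq_mul] at h2
  linarith

theorem Data1_win {G : Set (ℝ × ℝ)} (hG : MeasurableSet G) {C : ℝ} (hC : 0 < C)
    (hle : (mJ σ).restrict G ≤ ENNReal.ofReal C • (nJ σ).restrict G) {Θg : Set ℝ}
    {Kr : ℝ → ℝ} (hc : Continuous Kr) (h0 : ∀ y, 0 ≤ Kr y) (h1 : ∀ y, Kr y ≤ 1)
    {β A η η' M R cen r s b : ℝ} (hβ : 0 < β) (hA : 0 < A) (hb : 0 < b) (hR : 0 < R)
    (hη0 : 0 ≤ η') (hη1 : η' ≤ 1 / 2) (hη2 : η' * (48 * (1 + C) * A * (625 / β + 1)) ≤ η)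
    (hM : M * R ^ 2 ≤ (Sg σ).real (Iv cen (r * R)))
    (hK : β * ∫ y, Kr y ∂(Sg σ) ≤ (Sg σ).real (Iv cen (r * R)))
    (hin : Iv cen (7 * r / 4 * R) ⊆ Iv s (b * R))
    (hge : ∀ y ∈ Iv s (12 * b * R), 1 / 625 ≤ Kr y)
    (hrect : ∀ θ ∈ Θg, ∃ I D : Set ℝ, MeasurableSet I ∧ MeasurableSet D ∧
        Iv θ (A * R ^ 2) ⊆ I ∧ I ⊆ Iv θ (12 * A * R ^ 2) ∧
        Iv s (b * R) ⊆ D ∧ D ⊆ Iv s (12 * b * R) ∧
        (mJ σ + nJ σ).real ((I ×ˢ D) \ G) ≤ η' * (mJ σ + nJ σ).real (I ×ˢ D)) :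
    WinFacts σ G Θg Kr (625 / β + 1) A η M R cen r := by
  have hm0 : 0 ≤ (Sg σ).real (Iv cen (r * R)) := measureReal_nonneg
  have hint : ∫ y, Kr y ∂(Sg σ) ≤ 1 / β * (Sg σ).real (Iv cen (r * R)) := by
    rw [one_div, ← div_eq_inv_mul, le_div_iff₀ hβ]
    linarith
  have hq : 0 ≤ 1 / β * (Sg σ).real (Iv cen (r * R)) := by positivity
  have hKe : (625 / β + 1) * (Sg σ).real (Iv cen (r * R)) =
      625 * (1 / β * (Sg σ).real (Iv cen (r * R))) + (Sg σ).real (Iv cen (r * R)) := by ring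
  have hbig : (Sg σ).real (Iv s (12 * b * R)) ≤ (625 / β + 1) * (Sg σ).real (Iv cen (r * R)) := by
    have h2 := Data1_mass (τ := Sg σ) hc h0 h1 (measurableSet_Iv s (12 * b * R)) hge
    rw [hKe]
    linarith
  have hsub : Iv s (b * R) ⊆ Iv s (12 * b * R) := by
    intro y hy
    rw [mem_Iv] at hy ⊢
    have : 0 < b * R := mul_pos hb hR
    linarith
  refine ⟨hM, by rw [hKe]; linarith, (measureReal_mono (hin.trans hsub)).trans hbig, ?_⟩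
  intro θ hθ
  obtain ⟨I, D, hI, hD, hI1, hI2, hD1, hD2, hr⟩ := hrect θ hθ
  have hρ : 0 ≤ 12 * A * R ^ 2 := by positivity
  have h3 := defect_le σ hG hC hle hI hD hη0 hη1 hρ hI2 hr
  have h4 : (mJ σ + nJ σ).real ((Iv θ (A * R ^ 2) ×ˢ Iv cen (7 * r / 4 * R)) \ G) ≤
      (mJ σ + nJ σ).real ((I ×ˢ D) \ G) :=
    measureReal_mono (sdiff_subset_sdiff_left (prod_mono hI1 (hin.trans hD1)))
  have h5 : (Sg σ).real D ≤ (625 / β + 1) * (Sg σ).real (Iv cen (r * R)) :=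
    (measureReal_mono hD2).trans hbig
  have h6 : 0 ≤ 4 * η' * (1 + C) * (12 * A * R ^ 2) := by positivity
  have h7 := mul_le_mul_of_nonneg_left h5 h6
  have h8 : 0 ≤ R ^ 2 * (Sg σ).real (Iv cen (r * R)) := by positivity
  have h9 := mul_le_mul_of_nonneg_right hη2 h8
  calc (mJ σ + nJ σ).real ((Iv θ (A * R ^ 2) ×ˢ Iv cen (7 * r / 4 * R)) \ G)
      ≤ 4 * η' * (1 + C) * (12 * A * R ^ 2) *
        ((625 / β + 1) * (Sg σ).real (Iv cen (r * R))) := h4.trans (h3.trans h7)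
    _ = η' * (48 * (1 + C) * A * (625 / β + 1)) * (R ^ 2 * (Sg σ).real (Iv cen (r * R))) := by
        ring
    _ ≤ η * (R ^ 2 * (Sg σ).real (Iv cen (r * R))) := h9
    _ = η * R ^ 2 * (Sg σ).real (Iv cen (r * R)) := by ring

/-- `β` from `selection`, `κ0 γ` from `exists_sections`, `K = 625 / β + 1`. Given `A η M R0`: apply
`diff_rect` to `lam = mJ + nJ` with `(A, b = 2)` and `(A, b = 7/256)`, `η' = min (1/2) (η / (48 (1 + C) A K))`,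
`γ / 2`; `G' = G'₁ ∩ G'₂`; `Y = {y | κ0 ≤ PP.real {θ | (θ, y) ∈ G'}}`; `selection` with
`min R0 (min R1 R1')`; `Θg = {θ ∈ Ico 0 1 | (θ, s) ∈ G'}`.
Main window: `Iv c0 (7/16 R) ⊆ Iv s (2 R) ⊆ D ⊆ Iv s (24 R) ⊆ Iv c0 (25 R)` where `K1 ≥ 1/625` (`K1_ge`),
so `Sg D ≤ 625 ∫ K1 ≤ K m0`. Side window: `D ⊆ Iv s (84/256 R)` where `R/6 ≤ |y - c0| ≤ 6 R`, `K2 ≥ 1/36`
(`K2_ge`). Then `defect_le` with `ρ = 12 A R²`. -/
theorem data_spectral (hna : ∀ a, Sg σ {a} = 0) {G : Set (ℝ × ℝ)} (hG : MeasurableSet G)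
    (hpos : 0 < nJ σ G) {C : ℝ} (hC : 0 < C)
    (hle : (mJ σ).restrict G ≤ ENNReal.ofReal C • (nJ σ).restrict G) :
    ∃ κ0 K : ℝ, 0 < κ0 ∧ 0 < K ∧ ∀ A η M R0 : ℝ, 0 < A → 0 < η → 0 < M → 0 < R0 →
      ∃ (R c0 s : ℝ) (Θg : Set ℝ), 0 < R ∧ R ≤ R0 ∧ R / 2 < |s - c0| ∧ |s - c0| ≤ R ∧
        MeasurableSet Θg ∧ Θg ⊆ Ico 0 1 ∧ κ0 ≤ PP.real Θg ∧
        WinFacts σ G Θg (K1 R c0) K A η M R c0 (1 / 4) ∧
        WinFacts σ G Θg (K2 R c0) K A η M R s (1 / 64) := by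
  obtain ⟨β, hβ, hsel⟩ := selection
  obtain ⟨κ0, γ, hκ0, hγ, hsec⟩ := exists_sections σ hG hpos
  refine ⟨κ0, 625 / β + 1, hκ0, by positivity, ?_⟩
  intro A η M R0 hA hη hM hR0
  have hden : 0 < 48 * (1 + C) * A * (625 / β + 1) := by positivity
  obtain ⟨η', hη0, hη1, hη2⟩ : ∃ η' : ℝ, 0 < η' ∧ η' ≤ 1 / 2 ∧
      η' * (48 * (1 + C) * A * (625 / β + 1)) ≤ η :=
    ⟨min (1 / 2) (η / (48 * (1 + C) * A * (625 / β + 1))), lt_min (by norm_num) (by positivity),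
      min_le_left _ _, (le_div_iff₀ hden).1 (min_le_right _ _)⟩
  obtain ⟨G1, hG1, hs1, hd1, R1, hR1, hr1⟩ := diff_rect (mJ σ + nJ σ) hG hA
    (by norm_num : (0 : ℝ) < 2) hη0 (half_pos hγ)
  obtain ⟨G2, hG2, hs2, hd2, R2, hR2, hr2⟩ := diff_rect (mJ σ + nJ σ) hG hA
    (by norm_num : (0 : ℝ) < 7 / 256) hη0 (half_pos hγ)
  have hlam : ∀ S : Set (ℝ × ℝ), (nJ σ).real S ≤ (mJ σ + nJ σ).real S := by
    intro S
    rw [measureReal_add_apply (measure_ne_top _ _) (measure_ne_top _ _)]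
    have : 0 ≤ (mJ σ).real S := measureReal_nonneg
    linarith
  have hdiff : (nJ σ).real (G \ (G1 ∩ G2)) ≤ γ := by
    have h1 : G \ (G1 ∩ G2) ⊆ (G \ G1) ∪ (G \ G2) := by
      intro p hp
      by_cases h : p ∈ G1
      · exact Or.inr ⟨hp.1, fun h' => hp.2 ⟨h, h'⟩⟩
      · exact Or.inl ⟨hp.1, h⟩
    have h2 : (nJ σ).real (G \ (G1 ∩ G2)) ≤ (nJ σ).real (G \ G1) + (nJ σ).real (G \ G2) :=
      (measureReal_mono h1).trans (measureReal_union_le _ _)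
    have h3 := hlam (G \ G1)
    have h4 := hlam (G \ G2)
    linarith
  have hY := hsec (G1 ∩ G2) (hG1.inter hG2) (inter_subset_left.trans hs1) hdiff
  obtain ⟨R, c0, s, hR, hRle, hsY, hlo, hhi, hk1, hk2, hm1, hm2⟩ :=
    hsel (Sg σ) hna _ hY (min R0 (min R1 R2)) M (lt_min hR0 (lt_min hR1 hR2)) hM
  have hRR0 : R ≤ R0 := hRle.trans (min_le_left _ _)
  have hRR1 : R ≤ R1 := hRle.trans ((min_le_right _ _).trans (min_le_left _ _))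
  have hRR2 : R ≤ R2 := hRle.trans ((min_le_right _ _).trans (min_le_right _ _))
  have hsm : MeasurableSet {θ : ℝ | (θ, s) ∈ G1 ∩ G2} :=
    measurable_prodMk_right (hG1.inter hG2)
  refine ⟨R, c0, s, {θ : ℝ | (θ, s) ∈ G1 ∩ G2} ∩ Ico 0 1, hR, hRR0, hlo, hhi,
    hsm.inter measurableSet_Ico, inter_subset_right, ?_, ?_, ?_⟩
  · have h1 : PP ({θ : ℝ | (θ, s) ∈ G1 ∩ G2} ∩ Ico 0 1) = PP {θ : ℝ | (θ, s) ∈ G1 ∩ G2} := by
      rw [PP, Measure.restrict_apply (hsm.inter measurableSet_Ico), Measure.restrict_apply hsm,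
        inter_assoc, inter_self]
    have h2 : κ0 ≤ PP.real {θ : ℝ | (θ, s) ∈ G1 ∩ G2} := hsY
    rw [Measure.real, h1]
    exact h2
  · refine Data1_win σ hG hC hle (K1_continuous hR c0) (K1_nonneg R c0) (K1_le_one hR c0)
      (s := s) (b := 2) hβ hA (by norm_num) hR hη0.le hη1 hη2 hm1 hk1 ?_ ?_ ?_
    · intro y hy
      rw [mem_Iv] at hy ⊢
      have h1 := abs_sub_le y c0 s
      rw [abs_sub_comm c0 s] at h1
      linarith
    · intro y hy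
      rw [mem_Iv] at hy
      have h1 := abs_sub_le y s c0
      have h2 := K1_ge hR (by norm_num : (1 : ℝ) ≤ 25) (c := c0) (y := y) (by linarith)
      norm_num at h2 ⊢
      exact h2
    · intro θ hθ
      exact hr1 (θ, s) hθ.1.1 R hR hRR1
  · refine Data1_win σ hG hC hle (K2_continuous hR c0) (K2_nonneg R c0) (K2_le_one hR c0)
      (s := s) (b := 7 / 256) hβ hA (by norm_num) hR hη0.le hη1 hη2 hm2 hk2 ?_ ?_ ?_
    · intro y hy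
      rw [mem_Iv] at hy ⊢
      linarith
    · intro y hy
      rw [mem_Iv] at hy
      have h1 := abs_sub_le y s c0
      have h3 := abs_sub_le s y c0
      rw [abs_sub_comm s y] at h3
      have h2 := K2_ge hR (by norm_num : (1 : ℝ) ≤ 6) (c := c0) (y := y) (by linarith)
        (by linarith)
      norm_num at h2 ⊢
      linarith
    · intro θ hθ
      exact hr2 (θ, s) hθ.1.2 R hR hRR2

end Pool.Agent.MP_b29402_an

end

-- part MP_b29402_an.Data2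
section

/-! Averaged comparison of the spectral measures in a window with the averaged spectral measure. -/

open MeasureTheory Set Filter Topology ProbabilityTheory
open scoped ComplexConjugate ENNReal

namespace Pool.Agent.MP_b29402_an

variable (σ : Kernel ℝ ℝ) [IsFiniteKernel σ]

theorem Data2_int {Ω : Type*} [MeasurableSpace Ω] (μ : Measure Ω) [IsFiniteMeasure μ] {φ : Ω → ℝ}
    (hφ : Measurable φ) {M : ℝ} (hM : ∀ y, |φ y| ≤ M) : Integrable φ μ :=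
  Integrable.of_bound hφ.aestronglyMeasurable M (Eventually.of_forall fun y => hM y)

theorem Data2_dens (μ : Measure ℝ) {W : Set ℝ} (hW : MeasurableSet W) {w : ℝ → ℂ}
    (hw : Measurable w) (ψ : ℝ → ℝ) :
    ∫ y in W, ψ y ∂(μ.withDensity fun y => ENNReal.ofReal (‖w y‖ ^ 2)) =
      ∫ y in W, ψ y * ‖w y‖ ^ 2 ∂μ := by
  have hm : Measurable fun y => ENNReal.ofReal (‖w y‖ ^ 2) := by fun_prop
  rw [restrict_withDensity hW, integral_withDensity_eq_integral_toReal_smul hm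
    (Eventually.of_forall fun _ => ENNReal.ofReal_lt_top)]
  refine integral_congr_ae (Eventually.of_forall fun y => ?_)
  simp only [ENNReal.toReal_ofReal (sq_nonneg ‖w y‖), smul_eq_mul, mul_comm]

theorem Data2_cmp {Ω : Type*} [MeasurableSpace Ω] {m n : Measure Ω} [IsFiniteMeasure m]
    [IsFiniteMeasure n] {G : Set Ω} (hG : MeasurableSet G) {a b : ℝ} (ha : 0 ≤ a) (hb : 0 ≤ b)
    (hle : ENNReal.ofReal a • m.restrict G ≤ ENNReal.ofReal b • n.restrict G) {S : Set Ω}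
    (hS : MeasurableSet S) {φ : Ω → ℝ} (hφ : Measurable φ) (h0 : ∀ y, 0 ≤ φ y)
    (h1 : ∀ y, φ y ≤ 1) :
    a * (∫ p in S, φ p ∂m - m.real (S \ G)) ≤ b * ∫ p in S, φ p ∂n := by
  have habs : ∀ y, |φ y| ≤ 1 := fun y => by rw [abs_of_nonneg (h0 y)]; exact h1 y
  have him : Integrable φ m := Data2_int m hφ habs
  have hin : Integrable φ n := Data2_int n hφ habs
  have e1 : ∫ p in S ∩ G, φ p ∂m + ∫ p in S \ G, φ p ∂m = ∫ p in S, φ p ∂m :=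
    integral_inter_add_sdiff hG him.integrableOn
  have e2 : ∫ p in S \ G, φ p ∂m ≤ m.real (S \ G) := by
    calc ∫ p in S \ G, φ p ∂m ≤ ∫ _ in S \ G, (1 : ℝ) ∂m :=
          integral_mono him.integrableOn (integrable_const _) h1
      _ = m.real (S \ G) := by simp
  have e3 : ∫ p in S ∩ G, φ p ∂n ≤ ∫ p in S, φ p ∂n :=
    setIntegral_mono_set hin.integrableOn (Eventually.of_forall h0)
      (LE.le.eventuallyLE inter_subset_left)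
  have e4 : a * ∫ p in S ∩ G, φ p ∂m ≤ b * ∫ p in S ∩ G, φ p ∂n := by
    have h2 : (ENNReal.ofReal a • m.restrict G).restrict S ≤
        (ENNReal.ofReal b • n.restrict G).restrict S := Measure.restrict_mono subset_rfl hle
    rw [Measure.restrict_smul, Measure.restrict_smul, Measure.restrict_restrict hS,
      Measure.restrict_restrict hS] at h2
    have h3 := integral_mono_measure h2 (Eventually.of_forall h0)
      (hin.integrableOn.smul_measure ENNReal.ofReal_ne_top)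
    rwa [integral_smul_measure, integral_smul_measure, ENNReal.toReal_ofReal ha,
      ENNReal.toReal_ofReal hb, smul_eq_mul, smul_eq_mul] at h3
  calc a * (∫ p in S, φ p ∂m - m.real (S \ G)) ≤ a * ∫ p in S ∩ G, φ p ∂m :=
        mul_le_mul_of_nonneg_left (by linarith) ha
    _ ≤ b * ∫ p in S ∩ G, φ p ∂n := e4
    _ ≤ _ := mul_le_mul_of_nonneg_left e3 hb

theorem Data2_PP {θ d : ℝ} (hd : 0 < d) (hJ : Icc θ (θ + d) ⊆ Ico 0 1) :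
    PP (Icc θ (θ + d)) ≠ 0 ∧ PP.real (Icc θ (θ + d)) = d := by
  have h : PP (Icc θ (θ + d)) = ENNReal.ofReal d := by
    rw [PP_eq hJ, Real.volume_Icc]; congr 1; ring
  refine ⟨by rw [h]; simpa using hd, ?_⟩
  rw [Measure.real, h, ENNReal.toReal_ofReal hd.le]

theorem Data2_kint {g : ℝ → ℝ} (hg : Measurable g) {M : ℝ} (hM : ∀ y, |g y| ≤ M) {W : Set ℝ}
    (hW : MeasurableSet W) : Integrable (fun θ => ∫ y in W, g y ∂(σ θ)) PP := by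
  have h := integrable_kint σ (hg.indicator hW) (M := M) (fun y => by
    by_cases hy : y ∈ W
    · rw [indicator_of_mem hy]; exact hM y
    · rw [indicator_of_notMem hy, abs_zero]; exact (abs_nonneg _).trans (hM y))
  simpa only [integral_indicator hW] using h

omit [IsFiniteKernel σ] in
theorem Data2_Sg {m0 : ℝ} (hm : 0 < m0) (W : Set ℝ) (ψ : ℝ → ℝ) :
    ∫ y, ψ y ∂((ENNReal.ofReal m0)⁻¹ • (Sg σ).restrict W) = m0⁻¹ * ∫ y in W, ψ y ∂(Sg σ) := by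
  rw [integral_smul_measure, ENNReal.toReal_inv, ENNReal.toReal_ofReal hm.le, smul_eq_mul]

theorem Data2_D {G : Set (ℝ × ℝ)} {W Θ J : Set ℝ} (hJ : J ⊆ Θ) {D : ℝ}
    (hD : (mJ σ + nJ σ).real ((Θ ×ˢ W) \ G) ≤ D) :
    (mJ σ).real ((J ×ˢ W) \ G) ≤ D ∧ (nJ σ).real ((J ×ˢ W) \ G) ≤ D := by
  have h1 : (mJ σ + nJ σ).real ((J ×ˢ W) \ G) ≤ D :=
    (measureReal_mono (sdiff_subset_sdiff_left (prod_mono hJ subset_rfl)) (measure_ne_top _ _)).trans hD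
  rw [measureReal_add_apply] at h1
  have h2 : 0 ≤ (mJ σ).real ((J ×ˢ W) \ G) := measureReal_nonneg
  have h3 : 0 ≤ (nJ σ).real ((J ×ˢ W) \ G) := measureReal_nonneg
  constructor <;> linarith

theorem Data2_g {w : ℝ → ℂ} {m0 : ℝ} (hm : 0 < m0) (hw4 : ∀ y, m0 * ‖w y‖ ^ 2 ≤ 4) {ψ : ℝ → ℝ}
    (h0 : ∀ y, 0 ≤ ψ y) (h1 : ∀ y, ψ y ≤ 1) (y : ℝ) :
    ψ y * ‖w y‖ ^ 2 ≤ 4 / m0 * ψ y ∧ |ψ y * ‖w y‖ ^ 2| ≤ 4 / m0 := by
  have h2 : ‖w y‖ ^ 2 ≤ 4 / m0 := by rw [le_div_iff₀ hm, mul_comm]; exact hw4 y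
  have h3 : ψ y * ‖w y‖ ^ 2 ≤ 4 / m0 * ψ y := by
    rw [mul_comm]; exact mul_le_mul_of_nonneg_right h2 (h0 y)
  refine ⟨h3, ?_⟩
  rw [abs_of_nonneg (mul_nonneg (h0 y) (sq_nonneg _))]
  exact h3.trans (mul_le_of_le_one_right (by positivity) (h1 y))

/-- `J = Icc θ (θ + d)`, `PP.real J = d`. With `F θ' = ∫ ψ d(σ θ').withDensity = ∫ ψ ‖w‖² dσ θ'`:
`∫ θ' in J, F θ' ≥ ∫ p in J ×ˢ W, ψ ‖w‖² dmJ ≥ (w0/m0) ∫ p in (J ×ˢ W) ∩ G, ψ dmJ ≥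
(w0 c/m0) ∫ p in (J ×ˢ W) ∩ G, ψ dnJ ≥ (w0 c / m0) (d ∫ y in W, ψ dSg - D)` (`setIntegral_mJ`,
`integral_mono_measure`, `setIntegral_nJ`). Then `exists_setAverage_le`-type lemma
(`exists_le_setAverage` is the other one). -/
theorem avg_lower {G : Set (ℝ × ℝ)} (hG : MeasurableSet G) {c : ℝ} (hc : 0 < c)
    (hle : ENNReal.ofReal c • (nJ σ).restrict G ≤ (mJ σ).restrict G) {W Θ : Set ℝ}
    (hW : MeasurableSet W) (hΘ : Θ ⊆ Ico 0 1) {w : ℝ → ℂ} (hw : Measurable w) {m0 w0 D : ℝ}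
    (hm : 0 < m0) (hw0 : 0 < w0) (hw4 : ∀ y, m0 * ‖w y‖ ^ 2 ≤ 4)
    (hwl : ∀ y ∈ W, w0 ≤ m0 * ‖w y‖ ^ 2) (hD : (mJ σ + nJ σ).real ((Θ ×ˢ W) \ G) ≤ D)
    {θ d : ℝ} (hd : 0 < d) (hJ : Icc θ (θ + d) ⊆ Θ) {ψ : ℝ → ℝ} (hψ : Measurable ψ)
    (h0 : ∀ y, 0 ≤ ψ y) (h1 : ∀ y, ψ y ≤ 1) :
    ∃ θ' ∈ Icc θ (θ + d),
      w0 * c * ∫ y, ψ y ∂((ENNReal.ofReal m0)⁻¹ • (Sg σ).restrict W) - w0 * c * D / (m0 * d) ≤
        ∫ y, ψ y ∂((σ θ').withDensity fun y => ENNReal.ofReal (‖w y‖ ^ 2)) := by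
  obtain ⟨hP0, hPd⟩ := Data2_PP hd (hJ.trans hΘ)
  have habs : ∀ y, |ψ y| ≤ 1 := fun y => by rw [abs_of_nonneg (h0 y)]; exact h1 y
  have hg : Measurable fun y => ψ y * ‖w y‖ ^ 2 := by fun_prop
  have hgb := fun y => (Data2_g hm hw4 h0 h1 y).2
  obtain ⟨θ', hθ', hav⟩ := exists_setAverage_le hP0 (measure_ne_top _ _)
    (Data2_kint σ hψ habs hW).integrableOn
  refine ⟨θ', hθ', ?_⟩
  rw [setAverage_eq, hPd, smul_eq_mul, ← setIntegral_mJ σ hψ habs measurableSet_Icc hW] at hav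
  have hc1 := Data2_cmp (m := nJ σ) (n := mJ σ) hG hc.le zero_le_one (by simpa using hle)
    (measurableSet_Icc.prod hW : MeasurableSet (Icc θ (θ + d) ×ˢ W))
    (φ := fun p => ψ p.2) (hψ.comp measurable_snd) (fun p => h0 p.2) (fun p => h1 p.2)
  rw [setIntegral_nJ σ hψ habs, hPd, one_mul] at hc1
  have hD2 := (Data2_D σ hJ hD).2
  have e1 := Data2_dens (σ θ') MeasurableSet.univ hw ψ
  rw [Measure.restrict_univ, Measure.restrict_univ] at e1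
  have e2 : ∫ y in W, ψ y * ‖w y‖ ^ 2 ∂(σ θ') ≤ ∫ y, ψ y * ‖w y‖ ^ 2 ∂(σ θ') :=
    setIntegral_le_integral (Data2_int _ hg hgb)
      (Eventually.of_forall fun y => mul_nonneg (h0 y) (sq_nonneg _))
  have e3 : w0 / m0 * ∫ y in W, ψ y ∂(σ θ') ≤ ∫ y in W, ψ y * ‖w y‖ ^ 2 ∂(σ θ') := by
    rw [← integral_const_mul]
    refine setIntegral_mono_on ((Data2_int _ hψ habs).const_mul _).integrableOn
      (Data2_int _ hg hgb).integrableOn hW fun y hy => ?_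
    rw [mul_comm]
    refine mul_le_mul_of_nonneg_left ?_ (h0 y)
    rw [div_le_iff₀ hm, mul_comm]; exact hwl y hy
  rw [e1, Data2_Sg σ hm]
  refine le_trans ?_ (e3.trans e2)
  set I := ∫ y in W, ψ y ∂(Sg σ)
  have e4 : c * (d * I - D) ≤ ∫ p in Icc θ (θ + d) ×ˢ W, ψ p.2 ∂(mJ σ) :=
    le_trans (mul_le_mul_of_nonneg_left (by linarith) hc.le) hc1
  have e5 : d⁻¹ * (c * (d * I - D)) ≤ ∫ y in W, ψ y ∂(σ θ') :=
    le_trans (mul_le_mul_of_nonneg_left e4 (by positivity)) hav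
  calc w0 * c * (m0⁻¹ * I) - w0 * c * D / (m0 * d) = w0 / m0 * (d⁻¹ * (c * (d * I - D))) := by
        field_simp
    _ ≤ _ := mul_le_mul_of_nonneg_left e5 (by positivity)

/-- `∫ θ' in J, ∫ y in W, ψ ‖w‖² dσ θ' ≤ (4/m0) ∫ p in J ×ˢ W, ψ dmJ ≤
(4/m0) (C ∫ p in J ×ˢ W, ψ dnJ + D)`. -/
theorem avg_upper {G : Set (ℝ × ℝ)} (hG : MeasurableSet G) {C : ℝ} (hC : 0 < C)
    (hle : (mJ σ).restrict G ≤ ENNReal.ofReal C • (nJ σ).restrict G) {W Θ : Set ℝ}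
    (hW : MeasurableSet W) (hΘ : Θ ⊆ Ico 0 1) {w : ℝ → ℂ} (hw : Measurable w) {m0 D : ℝ}
    (hm : 0 < m0) (hw4 : ∀ y, m0 * ‖w y‖ ^ 2 ≤ 4)
    (hD : (mJ σ + nJ σ).real ((Θ ×ˢ W) \ G) ≤ D)
    {θ d : ℝ} (hd : 0 < d) (hJ : Icc θ (θ + d) ⊆ Θ) {ψ : ℝ → ℝ} (hψ : Measurable ψ)
    (h0 : ∀ y, 0 ≤ ψ y) (h1 : ∀ y, ψ y ≤ 1) :
    ∃ θ' ∈ Icc θ (θ + d),
      ∫ y in W, ψ y ∂((σ θ').withDensity fun y => ENNReal.ofReal (‖w y‖ ^ 2)) ≤
        4 * C * ∫ y, ψ y ∂((ENNReal.ofReal m0)⁻¹ • (Sg σ).restrict W) + 4 * D / (m0 * d) := by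
  obtain ⟨hP0, hPd⟩ := Data2_PP hd (hJ.trans hΘ)
  have habs : ∀ y, |ψ y| ≤ 1 := fun y => by rw [abs_of_nonneg (h0 y)]; exact h1 y
  have hg : Measurable fun y => ψ y * ‖w y‖ ^ 2 := by fun_prop
  have hgb := fun y => (Data2_g hm hw4 h0 h1 y).2
  obtain ⟨θ', hθ', hav⟩ := exists_le_setAverage hP0 (measure_ne_top _ _)
    (Data2_kint σ hψ habs hW).integrableOn
  refine ⟨θ', hθ', ?_⟩
  rw [setAverage_eq, hPd, smul_eq_mul, ← setIntegral_mJ σ hψ habs measurableSet_Icc hW] at hav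
  have hc1 := Data2_cmp (m := mJ σ) (n := nJ σ) hG zero_le_one hC.le (by simpa using hle)
    (measurableSet_Icc.prod hW : MeasurableSet (Icc θ (θ + d) ×ˢ W))
    (φ := fun p => ψ p.2) (hψ.comp measurable_snd) (fun p => h0 p.2) (fun p => h1 p.2)
  rw [setIntegral_nJ σ hψ habs, hPd, one_mul] at hc1
  have hD1 := (Data2_D σ hJ hD).1
  have e3 : ∫ y in W, ψ y * ‖w y‖ ^ 2 ∂(σ θ') ≤ 4 / m0 * ∫ y in W, ψ y ∂(σ θ') := by
    rw [← integral_const_mul]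
    exact integral_mono (Data2_int _ hg hgb) ((Data2_int _ hψ habs).const_mul _)
      fun y => (Data2_g hm hw4 h0 h1 y).1
  rw [Data2_dens (σ θ') hW hw ψ, Data2_Sg σ hm]
  refine e3.trans ?_
  set I := ∫ y in W, ψ y ∂(Sg σ)
  have e5 : ∫ y in W, ψ y ∂(σ θ') ≤ d⁻¹ * (C * (d * I) + D) :=
    hav.trans (mul_le_mul_of_nonneg_left (by linarith) (by positivity))
  calc 4 / m0 * ∫ y in W, ψ y ∂(σ θ') ≤ 4 / m0 * (d⁻¹ * (C * (d * I) + D)) :=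
        mul_le_mul_of_nonneg_left e5 (by positivity)
    _ = _ := by field_simp

end Pool.Agent.MP_b29402_an

end

-- part MP_b29402_an.Data3
section

/-! From the spectral facts on a window and the window function to a datum. -/

open MeasureTheory Set Filter Topology ProbabilityTheory
open scoped ComplexConjugate ENNReal

namespace Pool.Agent.MP_b29402_an

namespace Flat

variable {X : Type*} [MeasurableSpace X]

/-- With `m0 = (Sg σ).real (Iv cen (r * (1/T)))`, `W = Iv cen (7 * r / 4 * (1/T))`,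
`τ θ = (σ θ).withDensity ‖w‖²`, `Sm = (ofReal m0)⁻¹ • (Sg σ).restrict W`: `SpecW.withDensity`,
`isFiniteMeasure_withDensity_sq`, `avg_lower`, `avg_upper` with `Θ = Iv θn (A * (1/T)²)`, `d = α / T²`,
`D = η (1/T)² m0`, so that `D / (m0 d) = η / α`. -/
theorem datum_of_facts {Z : Flat X} (σ : Kernel ℝ ℝ) [IsFiniteKernel σ] {G : Set (ℝ × ℝ)}
    (hG : MeasurableSet G) {c C : ℝ} (hc : 0 < c) (hC : 0 < C)
    (hle : ENNReal.ofReal c • (nJ σ).restrict G ≤ (mJ σ).restrict G)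
    (hge : (mJ σ).restrict G ≤ ENNReal.ofReal C • (nJ σ).restrict G)
    {Θg : Set ℝ} {Kr : ℝ → ℝ} {K A η M T cen r θn θ1 B ω w0 : ℝ} (hT : 0 < T) (hr : 0 < r)
    (hM : 0 < M) (hW : WinFacts σ G Θg Kr K A η M (1 / T) cen r) (hθn : θn ∈ Θg)
    (hI : Iv θn (A * (1 / T) ^ 2) ⊆ Ico 0 1)
    (hθ1 : Iv θ1 (1 / T ^ 2) ⊆ Iv θn (A * (1 / T) ^ 2)) {f : ℝ → X → ℂ} {w : ℝ → ℂ}
    (hf : Z.Fam (Iv θ1 (1 / T ^ 2)) T (ω * T) B f) (hw : Measurable w)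
    (hs : ∀ θ, SpecW Z.μ (Z.fl θ) (f θ) (σ θ) w) (hw0 : 0 < w0)
    (hw4 : ∀ y, (Sg σ).real (Iv cen (r * (1 / T))) * ‖w y‖ ^ 2 ≤ 4)
    (hwl : ∀ y ∈ Iv cen (7 * r / 4 * (1 / T)),
      w0 ≤ (Sg σ).real (Iv cen (r * (1 / T))) * ‖w y‖ ^ 2)
    (h1 : w0 * c * η ≤ ω) (h2 : 4 * η ≤ ω) :
    ∃ (τ : ℝ → Measure ℝ) (Sm : Measure ℝ), Z.Datum T θ1 cen r B (w0 * c) (4 * C) K ω f τ Sm := by
  obtain ⟨hW1, -, hW3, hW4⟩ := hW
  set m0 : ℝ := (Sg σ).real (Iv cen (r * (1 / T))) with hm0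
  have hm : 0 < m0 := lt_of_lt_of_le (by positivity) hW1
  set W : Set ℝ := Iv cen (7 * r / 4 * (1 / T)) with hWd
  have hWm : MeasurableSet W := measurableSet_Iv _ _
  have hWe : Iv cen (7 * r / 4 / T) = W := by
    rw [hWd]; congr 1; ring
  have hre : Iv cen (r / T) = Iv cen (r * (1 / T)) := by congr 1; ring
  have hsub : Iv cen (r * (1 / T)) ⊆ W := by
    intro y hy
    rw [hWd]
    rw [mem_Iv] at hy ⊢
    have : r * (1 / T) ≤ 7 * r / 4 * (1 / T) := by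
      have h3 : 0 < 1 / T := by positivity
      nlinarith [mul_pos hr h3]
    linarith
  have hwb : ∀ y, ‖w y‖ ≤ Real.sqrt (4 / m0) := by
    intro y
    apply Real.le_sqrt_of_sq_le
    rw [le_div_iff₀ hm]
    have := hw4 y
    linarith
  have hne : (ENNReal.ofReal m0)⁻¹ ≠ ∞ := by
    rw [ENNReal.inv_ne_top]
    exact (ENNReal.ofReal_pos.2 hm).ne'
  have hreal : ∀ s : Set ℝ, MeasurableSet s →
      ((ENNReal.ofReal m0)⁻¹ • (Sg σ).restrict W).real s = m0⁻¹ * (Sg σ).real (s ∩ W) := by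
    intro s hs
    rw [measureReal_ennreal_smul_apply, ENNReal.toReal_inv, ENNReal.toReal_ofReal hm.le,
      measureReal_restrict_apply hs]
  have hD := hW4 θn hθn
  refine ⟨fun θ => (σ θ).withDensity fun y => ENNReal.ofReal (‖w y‖ ^ 2),
    (ENNReal.ofReal m0)⁻¹ • (Sg σ).restrict W, hf, fun θ => isFiniteMeasure_withDensity_sq hwb,
    Measure.smul_finite _ hne, fun θ _ => (hs θ).withDensity hw, ?_, ?_, ?_, ?_⟩
  · rw [hre, hreal _ (measurableSet_Iv _ _), inter_eq_left.2 hsub, ← hm0,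
      inv_mul_cancel₀ hm.ne']
  · rw [hreal _ MeasurableSet.univ, univ_inter, inv_mul_le_iff₀ hm]
    linarith
  · intro θ α hα hJ ψ hψ h0 h1'
    have hd : 0 < α / T ^ 2 := by positivity
    obtain ⟨θ', hθ', hb⟩ := avg_lower σ hG hc hle hWm hI hw hm hw0 hw4 hwl hD hd
      (hJ.trans hθ1) hψ h0 h1'
    refine ⟨θ', hθ', le_trans ?_ hb⟩
    have e : w0 * c * (η * (1 / T) ^ 2 * m0) / (m0 * (α / T ^ 2)) = w0 * c * η / α := by
      field_simp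
    rw [e]
    have : w0 * c * η / α ≤ ω / α := div_le_div_of_nonneg_right h1 hα.le
    linarith
  · intro θ α hα hJ ψ hψ h0 h1'
    have hd : 0 < α / T ^ 2 := by positivity
    obtain ⟨θ', hθ', hb⟩ := avg_upper σ hG hC hge hWm hI hw hm hw4 hD hd
      (hJ.trans hθ1) hψ h0 h1'
    refine ⟨θ', hθ', ?_⟩
    rw [hWe]
    refine le_trans hb ?_
    have e : 4 * (η * (1 / T) ^ 2 * m0) / (m0 * (α / T ^ 2)) = 4 * η / α := by
      field_simp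
    rw [e]
    have : 4 * η / α ≤ ω / α := div_le_div_of_nonneg_right h2 hα.le
    linarith

theorem Data3_PP_Icc (a : ℝ) {ρ : ℝ} (hρ : 0 ≤ ρ) : PP.real (Icc a (a + ρ)) ≤ ρ := by
  have h := PP_le (Icc a (a + ρ))
  rw [Real.volume_Icc, add_sub_cancel_left] at h
  exact ENNReal.toReal_le_of_le_ofReal hρ h

/-- choice of the base direction: the four exceptional sets have measure at most `κ0/4`, `κ0/8`, `κ0/8`
(`markov_kint`, `integral_mono` with the pointwise bounds), `κ0/8` (the two ends of `[0,1)`). -/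
theorem exists_base_dir (σ : Kernel ℝ ℝ) [IsFiniteKernel σ] {Θg Bad : Set ℝ} {κ0 ρ a1 a2 : ℝ}
    (hκ : 0 < κ0) (hΘ : Θg ⊆ Ico 0 1) (hΘm : κ0 ≤ PP.real Θg) (hB : PP.real Bad ≤ κ0 / 4)
    (hρ0 : 0 ≤ ρ) (hρ : ρ ≤ κ0 / 32) {ψ1 ψ2 : ℝ → ℝ} (m1 : Measurable ψ1) (m2 : Measurable ψ2)
    (n1 : ∀ y, 0 ≤ ψ1 y) (n2 : ∀ y, 0 ≤ ψ2 y) (b1 : ∀ y, ψ1 y ≤ 4) (b2 : ∀ y, ψ2 y ≤ 4)
    (ha1 : 0 < a1) (ha2 : 0 < a2) (i1 : ∫ y, ψ1 y ∂(Sg σ) ≤ κ0 / 8 * a1)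
    (i2 : ∫ y, ψ2 y ∂(Sg σ) ≤ κ0 / 8 * a2) :
    ∃ θ ∈ Θg, θ ∉ Bad ∧ Iv θ ρ ⊆ Ico 0 1 ∧ ∫ y, ψ1 y ∂(σ θ) ≤ a1 ∧ ∫ y, ψ2 y ∂(σ θ) ≤ a2 := by
  by_contra hcon
  have k1 : PP.real {θ | a1 < ∫ y, ψ1 y ∂(σ θ)} ≤ κ0 / 8 := by
    refine (markov_kint σ m1 n1 b1 ha1).trans ?_
    rw [div_le_iff₀ ha1]; exact i1
  have k2 : PP.real {θ | a2 < ∫ y, ψ2 y ∂(σ θ)} ≤ κ0 / 8 := by
    refine (markov_kint σ m2 n2 b2 ha2).trans ?_
    rw [div_le_iff₀ ha2]; exact i2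
  have k3 := Data3_PP_Icc 0 hρ0
  have k4 := Data3_PP_Icc (1 - ρ) hρ0
  have hsub : Θg ⊆ Bad ∪ ({θ | a1 < ∫ y, ψ1 y ∂(σ θ)} ∪ ({θ | a2 < ∫ y, ψ2 y ∂(σ θ)} ∪
      (Icc 0 (0 + ρ) ∪ Icc (1 - ρ) (1 - ρ + ρ)))) := by
    intro θ hθ
    by_contra hn
    simp only [mem_union, not_or, mem_ofPred_eq, not_lt, mem_Icc, not_and, not_le] at hn
    obtain ⟨hn1, hn2, hn3, hn4, hn5⟩ := hn
    obtain ⟨t0, t1⟩ := hΘ hθ
    have u1 : 0 + ρ < θ := hn4 t0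
    have u2 : θ < 1 - ρ := by
      by_contra hh
      have := hn5 (not_lt.1 hh)
      linarith
    refine hcon ⟨θ, hθ, hn1, ?_, hn2, hn3⟩
    intro y hy
    obtain ⟨y0, y1⟩ := hy
    exact ⟨by linarith, by linarith⟩
  have h5 := measureReal_mono (μ := PP) hsub
  have h6 := measureReal_union_le (μ := PP) Bad ({θ | a1 < ∫ y, ψ1 y ∂(σ θ)} ∪
    ({θ | a2 < ∫ y, ψ2 y ∂(σ θ)} ∪ (Icc 0 (0 + ρ) ∪ Icc (1 - ρ) (1 - ρ + ρ))))
  have h7 := measureReal_union_le (μ := PP) {θ | a1 < ∫ y, ψ1 y ∂(σ θ)}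
    ({θ | a2 < ∫ y, ψ2 y ∂(σ θ)} ∪ (Icc 0 (0 + ρ) ∪ Icc (1 - ρ) (1 - ρ + ρ)))
  have h8 := measureReal_union_le (μ := PP) {θ | a2 < ∫ y, ψ2 y ∂(σ θ)}
    (Icc 0 (0 + ρ) ∪ Icc (1 - ρ) (1 - ρ + ρ))
  have h9 := measureReal_union_le (μ := PP) (Icc (0 : ℝ) (0 + ρ)) (Icc (1 - ρ) (1 - ρ + ρ))
  linarith

end Flat

end Pool.Agent.MP_b29402_an

end

-- part MP_b29402_an.ThB
section

/-! Theorem B: spectral disjointness of the directional flows. -/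

open MeasureTheory Set Filter Topology ProbabilityTheory
open scoped ComplexConjugate ENNReal

namespace Pool.Agent.MP_b29402_an

namespace Flat

variable {X : Type*} [MeasurableSpace X]

theorem ThB_sqrt {Lh ω T m : ℝ} (hω : 0 < ω) (hT : 0 < T)
    (h : (4 * Lh ^ 2 / ω ^ 2 + 1) * (1 / T) ^ 2 ≤ m) : 0 < m ∧ 2 * Lh / Real.sqrt m ≤ ω * T := by
  have hm : 0 < m := lt_of_lt_of_le (by positivity) h
  refine ⟨hm, ?_⟩
  rw [div_le_iff₀ (Real.sqrt_pos.2 hm), mul_comm (ω * T), ← div_le_iff₀ (mul_pos hω hT)]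
  refine Real.le_sqrt_of_sq_le (le_trans ?_ h)
  have h1 : (2 * Lh / (ω * T)) ^ 2 = 4 * Lh ^ 2 / ω ^ 2 * (1 / T) ^ 2 := by
    field_simp
    ring
  rw [h1, add_mul]
  exact le_add_of_nonneg_right (by positivity)

theorem ThB_int (S : Measure ℝ) [IsFiniteMeasure S] {ψ Kr : ℝ → ℝ} {e κ K m : ℝ} (he : 0 < e)
    (hκ : 0 < κ) (h0 : ∀ y, 0 ≤ ψ y) (hc : Continuous Kr) (k0 : ∀ y, 0 ≤ Kr y)
    (k1 : ∀ y, Kr y ≤ 1) (hle : ∀ y, ψ y ≤ 16 / e ^ 2 * Kr y) (hK : ∫ y, Kr y ∂S ≤ K * m) :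
    ∫ y, ψ y ∂S ≤ κ / 8 * (128 * K / (e ^ 2 * κ) * m) := by
  have hi : Integrable Kr S := Integrable.of_bound hc.aestronglyMeasurable 1
    (Eventually.of_forall fun y => by rw [Real.norm_of_nonneg (k0 y)]; exact k1 y)
  have h1 : ∫ y, ψ y ∂S ≤ ∫ y, 16 / e ^ 2 * Kr y ∂S :=
    integral_mono_of_nonneg (Eventually.of_forall h0) (hi.const_mul _) (Eventually.of_forall hle)
  rw [integral_const_mul] at h1
  refine h1.trans ((mul_le_mul_of_nonneg_left hK (by positivity)).trans_eq ?_)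
  field_simp
  ring

theorem ThB_sq (L c y : ℝ) {u : ℝ} (h0 : 0 ≤ u) (h1 : u ≤ 1) : ‖gsym L c u y‖ ^ 2 ≤ 4 :=
  (pow_le_pow_left₀ (norm_nonneg _) (gsym_le L c y h0 h1) 2).trans_eq (by norm_num)

/-- `G c C` from `exists_comparable`; `κ0 K` from `data_spectral`; `εa` from `nondiv_all` (`η = κ0/4`); `R2 a0` from
`exists_cyl_dir` at `εa`; `A = R2² + 1`; `e0` from `window` at `(εa / R2, A)`; `K1 = 128 K / (e0² κ0)`, `B` from it;
`w0 = e0²/100`; `ε = εa / R2 / (2 + 7 A)`, `l = εa / R2`. Given `ω` (`≤ 1`): `η = ω / (4 + w0 c)`, `M = 4 Lh²/ω² + 1`,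
`R0 = min (1/(16 R2)) (min 1 (κ0/(32 A)))`; `data_spectral` gives `R c0 s Θg`; `T = 1/R` (rewrite `R = 1/T`),
`T' = T / R2 ≥ 16`. `θn` from `exists_base_dir` with `Bad = {θ | ¬ ThickAt T' θ εa}`, `ρ = A R²`,
`ψ1 = ‖gsym (e0 T) c0 0 ·‖²`, `ψ2 = ‖gsym (e0 T) c0 1 ·‖²`, `a_i = K1 m_i` (`gsym_main`, `gsym_side`, `gsym_le`).
`θ1, ℓ` from `exists_cyl_dir` at level `T'`; `ThickAt.level`, `ThickAt.near`; `window` for `u = 0, 1` (both with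
centre `c0`), `Fam.mono_set`, `spec_wF`, `wsym_le`, `wsym_ge_main`, `wsym_ge_side`, `datum_of_facts`. -/
theorem exists_data (Z : Flat X) {h : X → ℂ} {Lh : ℝ} (hL0 : 0 ≤ Lh) (hm : Measurable h)
    (hb : ∀ x, ‖h x‖ ≤ 1) (hl : Z.SegLip Lh h) (σ : Kernel ℝ ℝ) [IsFiniteKernel σ]
    (hs : ∀ θ, SpecW Z.μ (Z.fl θ) h (σ θ) (fun _ => 1)) (hna : ∀ a, Sg σ {a} = 0)
    (hns : ¬ mJ σ ⟂ₘ nJ σ) :
    ∃ ε B c C K a0 l : ℝ, 0 < ε ∧ 0 < B ∧ 0 < c ∧ 0 < C ∧ 0 < K ∧ 0 < a0 ∧ 0 < l ∧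
      ∀ ω : ℝ, 0 < ω → ω ≤ 1 →
        ∃ (T θ1 ℓ c0 s : ℝ) (f1 f2 : ℝ → X → ℂ) (τ1 τ2 : ℝ → Measure ℝ) (S1 S2 : Measure ℝ),
          1 ≤ T ∧ Z.ThickAt T θ1 ε ∧ l * T ≤ ℓ ∧ ℓ ≤ 1 * T ∧
          a0 ≤ Z.μ.real (Z.Per (ℓ • ev θ1)) ∧ 1 / T / 2 < |s - c0| ∧ |s - c0| ≤ 1 / T ∧
          Z.Datum T θ1 c0 (1 / 4) B c C K ω f1 τ1 S1 ∧
          Z.Datum T θ1 s (1 / 64) B c C K ω f2 τ2 S2 := by
  obtain ⟨G, hG, hpos, c, C, hc, hC, hle, hge⟩ := exists_comparable _ _ hns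
  obtain ⟨κ0, K, hκ, hK, hds⟩ := data_spectral σ hna hG hpos hC hge
  obtain ⟨εa, hεa, -, hnd⟩ := Z.nondiv_all (η := κ0 / 4) (by positivity)
  obtain ⟨R2, a0, hR2, ha0, hcyl⟩ := Z.exists_cyl_dir hεa
  have hR0 : 0 < R2 := one_pos.trans_le hR2
  obtain ⟨A, hA⟩ : ∃ A, A = R2 ^ 2 + 1 := ⟨_, rfl⟩
  have hA0 : 0 < A := by
    rw [hA]
    positivity
  obtain ⟨e0, he0, he3, hwin⟩ := Z.window (div_pos hεa hR0) hA0.le
  have he1 : e0 ≤ 1 := he3.trans (by norm_num)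
  obtain ⟨B, hB, hw⟩ := hwin (128 * K / (e0 ^ 2 * κ0)) (by positivity)
  have hw0 : 0 < e0 ^ 2 / 100 := by positivity
  refine ⟨εa / R2 / (2 + 7 * A), B, e0 ^ 2 / 100 * c, 4 * C, K, a0, εa / R2, by positivity, hB,
    by positivity, by positivity, hK, ha0, by positivity, fun ω hω hω1 => ?_⟩
  obtain ⟨η, hη⟩ : ∃ η, η = ω / (4 + e0 ^ 2 / 100 * c) := ⟨_, rfl⟩
  have hη0 : 0 < η := by
    rw [hη]
    positivity
  have hη1 : η * (4 + e0 ^ 2 / 100 * c) = ω := by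
    rw [hη]
    exact div_mul_cancel₀ _ (by positivity)
  have hη2 : 0 < e0 ^ 2 / 100 * c * η := by positivity
  have hM : 0 < 4 * Lh ^ 2 / ω ^ 2 + 1 := by positivity
  obtain ⟨R, c0, s, Θg, hR, hRR, hs1, hs2, -, hΘ, hΘm, hW1, hW2⟩ := hds A η _
    (min (1 / (16 * R2)) (min 1 (κ0 / (32 * A)))) hA0 hη0 hM (by positivity)
  obtain ⟨T, rfl⟩ : ∃ T, R = 1 / T := ⟨1 / R, (one_div_one_div R).symm⟩
  have hT : 0 < T := one_div_pos.1 hR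
  obtain ⟨hr1, hr2⟩ := le_min_iff.1 hRR
  obtain ⟨hr2, hr3⟩ := le_min_iff.1 hr2
  have hT1 : 1 ≤ T := (div_le_one hT).1 hr2
  have hT16 : 16 ≤ T / R2 := by
    rw [le_div_iff₀ hR0]
    exact le_of_one_div_le_one_div hT hr1
  have hρ : A * (1 / T) ^ 2 ≤ κ0 / 32 := by
    have h1 : A * (1 / T) ≤ κ0 / 32 :=
      (mul_le_mul_of_nonneg_left hr3 hA0.le).trans_eq (by field_simp)
    rw [sq, ← mul_assoc]
    exact (mul_le_of_le_one_right (by positivity) hr2).trans h1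
  obtain ⟨hm1, hq1⟩ := ThB_sqrt hω hT hW1.1
  obtain ⟨hm2, hq2⟩ := ThB_sqrt hω hT hW2.1
  obtain ⟨θn, hθn, hth, hI, hi1, hi2⟩ := exists_base_dir σ hκ hΘ hΘm (hnd _ hT16)
    (by positivity) hρ (ψ1 := fun y => ‖gsym (e0 * T) c0 0 y‖ ^ 2)
    (ψ2 := fun y => ‖gsym (e0 * T) c0 1 y‖ ^ 2)
    ((gsym_continuous _ _ _).norm.pow 2).measurable ((gsym_continuous _ _ _).norm.pow 2).measurable
    (fun _ => sq_nonneg _) (fun _ => sq_nonneg _) (fun y => ThB_sq _ _ y le_rfl zero_le_one)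
    (fun y => ThB_sq _ _ y zero_le_one le_rfl) (mul_pos (by positivity) hm1)
    (mul_pos (by positivity) hm2)
    (ThB_int _ he0 hκ (fun _ => sq_nonneg _) (K1_continuous hR c0) (K1_nonneg _ _)
      (K1_le_one hR _) (gsym_main he0 he1 hT c0) hW1.2.1)
    (ThB_int _ he0 hκ (fun _ => sq_nonneg _) (K2_continuous hR c0) (K2_nonneg _ _)
      (K2_le_one hR _) (gsym_side he0 he1 hT c0) hW2.2.1)
  have hth1 : Z.ThickAt (T / R2) θn εa := not_not.1 hth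
  obtain ⟨θ1, ℓ, hθ1, hℓ1, hℓ2, hper⟩ := hcyl _ θn (le_trans (by norm_num) hT16) hth1
  have hth2 : Z.ThickAt T θn (εa / R2) := by
    have h1 := hth1.level (div_pos hT hR0) hR2
    rwa [div_mul_cancel₀ _ hR0.ne'] at h1
  have hAT : A / T ^ 2 = 1 / T ^ 2 + 1 / (T / R2) ^ 2 := by
    rw [hA]
    field_simp
    ring
  have hAT' : A * (1 / T) ^ 2 = A / T ^ 2 := by field_simp
  have hsub : Iv θ1 (1 / T ^ 2) ⊆ Iv θn (A / T ^ 2) := fun θ hθ => by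
    rw [mem_Iv] at hθ ⊢
    rw [hAT]
    exact (abs_sub_le θ θ1 θn).trans (add_le_add hθ hθ1)
  have hL : 0 < e0 * T := mul_pos he0 hT
  obtain ⟨τ1, S1, hD1⟩ := datum_of_facts σ hG hc hC hle hge hT (by norm_num) hM hW1 hθn hI
    (hAT' ▸ hsub) ((hw h Lh T θn c0 0 _ ω (σ θn) hL0 hm hb hl (hs θn) hT1 hth2 le_rfl zero_le_one
      hm1 hω1 hq1 hi1).mono_set hsub) (wsym_continuous _ _ _ _).measurable
    (fun θ => spec_wF hm hb hL (hs θ)) hw0 (fun y => wsym_le _ _ y le_rfl zero_le_one hm1)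
    (fun y hy => wsym_ge_main he0 he1 hT hm1 hy) (by linarith) (by linarith)
  obtain ⟨τ2, S2, hD2⟩ := datum_of_facts σ hG hc hC hle hge hT (by norm_num) hM hW2 hθn hI
    (hAT' ▸ hsub) ((hw h Lh T θn c0 1 _ ω (σ θn) hL0 hm hb hl (hs θn) hT1 hth2 zero_le_one le_rfl
      hm2 hω1 hq2 hi2).mono_set hsub) (wsym_continuous _ _ _ _).measurable
    (fun θ => spec_wF hm hb hL (hs θ)) hw0 (fun y => wsym_le _ _ y zero_le_one le_rfl hm2)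
    (fun y hy => wsym_ge_side he0 he1 hT hm2 hs1 hs2 hy) (by linarith) (by linarith)
  refine ⟨T, θ1, ℓ, c0, s, _, _, τ1, τ2, S1, S2, hT1, hth2.near hT1 hA0.le ?_, ?_, ?_, hper, hs1,
    hs2, hD1, hD2⟩
  · rw [hAT]
    exact hθ1.trans (le_add_of_nonneg_left (by positivity))
  · exact le_of_eq_of_le (by ring) hℓ1
  · exact hℓ2.trans_eq (by field_simp)

/-- `exists_data`, `core` for `r = 1/4` and `r = 1/64` with `lp = 1`, `ζ = l / 50`, `two_windows_false` -/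
theorem thmB (Z : Flat X) {h : X → ℂ} {Lh : ℝ} (hL0 : 0 ≤ Lh) (hm : Measurable h)
    (hb : ∀ x, ‖h x‖ ≤ 1) (hl : Z.SegLip Lh h) (σ : Kernel ℝ ℝ) [IsFiniteKernel σ]
    (hs : ∀ θ, SpecW Z.μ (Z.fl θ) h (σ θ) (fun _ => 1)) (hna : ∀ a, Sg σ {a} = 0) :
    mJ σ ⟂ₘ nJ σ := by
  by_contra hns
  obtain ⟨ε, B, c, C, K, a0, l, hε, hB, hc, hC, hK, ha, hl0, H⟩ :=
    Z.exists_data hL0 hm hb hl σ hs hna hns
  have hζ : 0 < l / 50 := by positivity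
  obtain ⟨ω1, h1, c1⟩ := Z.core hε (r := 1 / 4) (by norm_num) hB hc hC hK ha one_pos hζ
  obtain ⟨ω2, h2, c2⟩ := Z.core hε (r := 1 / 64) (by norm_num) hB hc hC hK ha one_pos hζ
  have hω : 0 < min 1 (min ω1 ω2) := lt_min one_pos (lt_min h1 h2)
  obtain ⟨T, θ1, ℓ, c0, s, f1, f2, τ1, τ2, S1, S2, hT, hth, hℓ1, hℓ2, hper, hs1, hs2, hD1, hD2⟩ :=
    H _ hω (min_le_left _ _)
  have hT0 : 0 < T := one_pos.trans_le hT
  have hℓ : 0 < ℓ := (mul_pos hl0 hT0).trans_le hℓ1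
  obtain ⟨y, hy1, hy2⟩ := c1 T θ1 c0 _ f1 τ1 S1 hT hω.le
    ((min_le_right _ _).trans (min_le_left _ _)) hth hD1 ℓ hℓ hℓ2 hper
  obtain ⟨y', hy3, hy4⟩ := c2 T θ1 s _ f2 τ2 S2 hT hω.le
    ((min_le_right _ _).trans (min_le_right _ _)) hth hD2 ℓ hℓ hℓ2 hper
  exact two_windows_false hT0 hl0 hℓ1 hℓ2 hs1 hs2 hy1 hy3 hy2 hy4

end Flat

end Pool.Agent.MP_b29402_an

end
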