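import Pool.Agent.MP_b29402_an.Mg.SpecB
import Pool.Agent.MP_b29402_an.Mg.SpecM
import Pool.Agent.MP_b29402_an.Mg.KerM
import Pool.Agent.MP_b29402_an.Mg.ThB
import Pool.Agent.MP_b29402_an.Mg.I6

-- part MP_b29402_an.SpecC
section

/-! Existence of spectral measures, of the spectral kernel, and absence of atoms. -/

open MeasureTheory Set Filter Topology ProbabilityTheory
open scoped ComplexConjugate ENNReal

namespace Pool.Agent.MP_b29402_an

variable {X : Type*} [MeasurableSpace X] {μ : Measure X} [IsProbabilityMeasure μ]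

/-- `C t = ∫ f (φ t x) * conj (f x)` is Lipschitz, bounded by `B²`, hermitian (`AEFlow.corr` with
`s = 0`), and `∫∫ g s * conj (g s') * C (s - s') = ∫ ‖∫ g s * f (φ s x) ds‖² dμ ≥ 0` (`AEFlow.corr`,
Fubini: `g` integrable, `f` bounded on `X0`). Apply `bochner`. -/
theorem exists_spec {φ : ℝ → X → X} {X0 : Set X} (h : AEFlow μ φ X0) {B L : ℝ} {f : X → ℂ}
    (hf : BM X0 B f) (hL : ∀ x ∈ X0, ∀ s t, ‖f (φ s x) - f (φ t x)‖ ≤ L * |s - t|) :
    ∃ τ : Measure ℝ, IsFiniteMeasure τ ∧ SpecW μ φ f τ (fun _ => 1) := by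
  obtain ⟨-, i1, b1⟩ := SpecM_corr h hf
  have hB := (hf.ab h.ae).nonneg
  have lip : LipschitzWith (|L| * B).toNNReal fun t => ∫ x, f (φ t x) * conj (f x) ∂μ := by
    refine LipschitzWith.of_dist_le' fun s t => ?_
    rw [dist_eq_norm, Real.dist_eq, ← integral_sub (i1 s) (i1 t)]
    refine (norm_integral_le_of_norm_le_const (C := |L| * B * |s - t|)
      (h.ae.mono fun x hx => ?_)).trans (by simp)
    rw [← sub_mul, norm_mul, RCLike.norm_conj, mul_right_comm]
    exact mul_le_mul ((hL x hx s t).trans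
      (mul_le_mul_of_nonneg_right (le_abs_self L) (abs_nonneg _))) (hf.2 x hx) (norm_nonneg _)
      (by positivity)
  obtain ⟨τ, h1, h2⟩ := bochner _ lip.continuous b1
    (fun t => by
      have e := h.corr hf.1 hf.1 0 t
      rw [zero_sub] at e
      rw [← e, ← integral_conj]
      refine integral_congr_ae (ae_of_all _ fun x => ?_)
      simp only [h.zero, map_mul, Complex.conj_conj]
      ring)
    fun g cg ig => by
      rw [SpecM_quad h hf volume cg.measurable ig, Complex.ofReal_re]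
      exact nsq_nonneg _
  exact ⟨τ, h1, fun t => by simpa using h2 t⟩

/-- `choose` with `exists_spec`, `measurable_of_fourier` (the correlation is measurable in `θ` by
`StronglyMeasurable.integral_prod_right`), masses are `nsq ≤ B²` (`SpecW.nsq_eq`). -/
theorem exists_kernel {φ : ℝ → ℝ → X → X} {X0 : ℝ → Set X} (h : ∀ θ, AEFlow μ (φ θ) (X0 θ))
    (hm : ∀ t, Measurable fun p : ℝ × X => φ p.1 t p.2) {B L : ℝ} {f : X → ℂ}
    (hf : ∀ θ, BM (X0 θ) B f)
    (hL : ∀ θ, ∀ x ∈ X0 θ, ∀ s t, ‖f (φ θ s x) - f (φ θ t x)‖ ≤ L * |s - t|) :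
    ∃ σ : Kernel ℝ ℝ, IsFiniteKernel σ ∧ ∀ θ, SpecW μ (φ θ) f (σ θ) (fun _ => 1) := by
  choose τ h1 h2 using fun θ => exists_spec (h θ) (hf θ) (hL θ)
  have mτ : Measurable τ := measurable_of_fourier τ h1 fun t => by
    have e : (fun θ => ∫ y, ex (t * y) ∂(τ θ)) = fun θ => ∫ x, f (φ θ t x) * conj (f x) ∂μ :=
      funext fun θ => by simpa using (h2 θ t).symm
    rw [e]
    exact (StronglyMeasurable.integral_prod_right'
      (f := fun q : ℝ × X => f (φ q.1 t q.2) * conj (f q.2))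
      (((hf 0).1.comp (hm t)).mul (Complex.continuous_conj.measurable.comp
        ((hf 0).1.comp measurable_snd))).stronglyMeasurable).measurable
  refine ⟨⟨τ, mτ⟩, ⟨ENNReal.ofReal (B ^ 2), ENNReal.ofReal_lt_top, fun θ => ?_⟩, h2⟩
  have e := (h2 θ).nsq_eq (h θ)
  have b := ((hf θ).ab (h θ).ae).nsq_le
  simp only [norm_one, one_pow, integral_const, smul_eq_mul, mul_one] at e
  show τ θ univ ≤ _
  rw [← ofReal_measureReal, ← e]
  exact ENNReal.ofReal_le_ofReal b

end Pool.Agent.MP_b29402_an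

end

-- part MP_b29402_an.Atom
section

/-! Weak mixing kills the atoms of the spectral measure of a function of mean zero. -/

open MeasureTheory Set Filter Topology ProbabilityTheory
open scoped ComplexConjugate ENNReal

namespace Pool.Agent.MP_b29402_an

variable {X : Type*} [MeasurableSpace X] {μ : Measure X} [IsProbabilityMeasure μ]
  {φ : ℝ → X → X} {X0 : Set X} {τ : Measure ℝ} [IsFiniteMeasure τ]

theorem Atom_aux1 {g : ℝ → ℂ} (hg : Measurable g) {C : ℝ} (hC : ∀ s, ‖g s‖ ≤ C) {L M : ℝ}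
    (hL : 0 < L) (hM : L ≤ M) :
    Integrable (fun s => (Ioc 0 L).indicator (fun _ => (L : ℂ)⁻¹) s * g s)
      (volume.restrict (Ioc 0 M)) ∧
    ∫ s in Ioc 0 M, (Ioc 0 L).indicator (fun _ => (L : ℂ)⁻¹) s * g s =
      (L : ℂ)⁻¹ * ∫ s in (0 : ℝ)..L, g s := by
  have e : (fun s => (Ioc 0 L).indicator (fun _ => (L : ℂ)⁻¹) s * g s) =
      (Ioc 0 L).indicator (fun s => (L : ℂ)⁻¹ * g s) := by
    funext s
    by_cases hs : s ∈ Ioc 0 L
    · simp [indicator_of_mem hs]
    · simp [indicator_of_notMem hs]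
  have hi : Integrable g (volume.restrict (Ioc 0 M)) :=
    Integrable.of_bound hg.aestronglyMeasurable C (ae_of_all _ hC)
  rw [e]
  refine ⟨(hi.const_mul _).indicator measurableSet_Ioc, ?_⟩
  rw [integral_indicator measurableSet_Ioc, Measure.restrict_restrict measurableSet_Ioc,
    inter_eq_left.2 (Ioc_subset_Ioc_right hM), intervalIntegral.integral_of_le hL.le,
    integral_const_mul]

theorem Atom_aux2 {g : ℝ → ℂ} (hg : Measurable g) {C : ℝ} (hC : ∀ s, ‖g s‖ ≤ C) {L L' : ℝ}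
    (hL : 0 < L) (hL' : 0 < L') :
    ∫ s in Ioc 0 (max L L'), ((Ioc 0 L).indicator (fun _ => (L : ℂ)⁻¹) s -
        (Ioc 0 L').indicator (fun _ => (L' : ℂ)⁻¹) s) * g s =
      (L : ℂ)⁻¹ * (∫ s in (0 : ℝ)..L, g s) - (L' : ℂ)⁻¹ * ∫ s in (0 : ℝ)..L', g s := by
  obtain ⟨h1, h2⟩ := Atom_aux1 hg hC hL (le_max_left L L')
  obtain ⟨h3, h4⟩ := Atom_aux1 hg hC hL' (le_max_right L L')
  simp only [sub_mul]
  rw [integral_sub h1 h3, h2, h4]

/-- the difference of two averages is `Op` with `ϱ = volume.restrict (Ioc 0 (max L L'))` and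
`k s = ex (-(c s)) * (indicator (Ioc 0 L) L⁻¹ s - indicator (Ioc 0 L') L'⁻¹ s)` at every point of
`X0`; its symbol is the difference of the symbols; `SpecW.op`, `SpecW.nsq_eq`, `nsq_congr`. -/
theorem nsq_av_sub_av (h : AEFlow μ φ X0) {B L L' : ℝ} {f : X → ℂ} (hf : BM X0 B f)
    (hs : SpecW μ φ f τ (fun _ => 1)) (hL : 0 < L) (hL' : 0 < L') (c : ℝ) :
    nsq μ (fun x => Av φ L c f x - Av φ L' c f x) =
      ∫ y, ‖Dk (L * (y - c)) - Dk (L' * (y - c))‖ ^ 2 ∂τ := by
  set d : ℝ → ℂ := fun s => (Ioc 0 L).indicator (fun _ => (L : ℂ)⁻¹) s -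
    (Ioc 0 L').indicator (fun _ => (L' : ℂ)⁻¹) s with hd
  have hdm : Measurable d :=
    (measurable_const.indicator measurableSet_Ioc).sub
      (measurable_const.indicator measurableSet_Ioc)
  have hem : Measurable fun s : ℝ => ex (-(c * s)) :=
    (ex_continuous.comp (by fun_prop)).measurable
  have hkm : Measurable fun s => d s * ex (-(c * s)) := hdm.mul hem
  have hkb : ∀ s, ‖d s * ex (-(c * s))‖ ≤ ‖(L : ℂ)⁻¹‖ + ‖(L' : ℂ)⁻¹‖ := by
    intro s
    rw [norm_mul, ex_norm, mul_one]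
    exact (norm_sub_le _ _).trans (add_le_add (norm_indicator_le_norm_self _ _)
      (norm_indicator_le_norm_self _ _))
  have hop := SpecW.op h hf (κ := fun _ => 1) measurable_const (M := 1) (by simp) hs
    (volume.restrict (Ioc 0 (max L L'))) hkm hkb
  have h1 : (fun x => Av φ L c f x - Av φ L' c f x) =ᵐ[μ]
      Op φ (volume.restrict (Ioc 0 (max L L'))) (fun s => d s * ex (-(c * s))) f := by
    filter_upwards [h.ae] with x hx
    have hgm : Measurable fun s : ℝ => ex (-(c * s)) * f (φ s x) :=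
      hem.mul (hf.1.comp (h.meas.comp (measurable_id.prodMk measurable_const)))
    have hgb : ∀ s, ‖ex (-(c * s)) * f (φ s x)‖ ≤ B := by
      intro s
      rw [norm_mul, ex_norm, one_mul]
      exact hf.2 _ (h.inv s x hx)
    have := Atom_aux2 hgm hgb hL hL'
    simp only [Av, Op, mul_assoc]
    exact this.symm
  rw [nsq_congr h1, hop.nsq_eq h]
  refine integral_congr_ae (ae_of_all _ fun y => ?_)
  have hgm : Measurable fun s : ℝ => ex (s * (y - c)) :=
    (ex_continuous.comp (by fun_prop)).measurable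
  have h2 := Atom_aux2 hgm (C := 1) (fun s => (ex_norm _).le) hL hL'
  rw [Dk_eq_avg L _ hL, Dk_eq_avg L' _ hL'] at h2
  have h3 : sym (volume.restrict (Ioc 0 (max L L'))) (fun s => d s * ex (-(c * s))) y =
      Dk (L * (y - c)) - Dk (L' * (y - c)) := by
    rw [← h2, sym]
    refine integral_congr_ae (ae_of_all _ fun s => ?_)
    simp only [hd]
    rw [mul_assoc, ← ex_add]
    congr 2
    ring
  simp only [h3, mul_one]

omit [IsProbabilityMeasure μ] in
theorem Atom_aux3 (F : Lp ℂ 2 μ) {g : X → ℂ} (hg : (F : X → ℂ) =ᵐ[μ] g) :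
    ‖F‖ ^ 2 = nsq μ g := by
  rw [← nsq_congr hg, @norm_sq_eq_re_inner ℂ, L2.inner_def, nsq,
    ← integral_re (L2.integrable_inner F F)]
  refine integral_congr_ae (ae_of_all _ fun x => ?_)
  simp only
  rw [← @norm_sq_eq_re_inner ℂ]

theorem Atom_aux4 (a : ℝ) :
    Tendsto (fun n : ℕ => ∫ y, ‖Dk (((n : ℝ) + 1) * (y - a)) -
      ({a} : Set ℝ).indicator (fun _ => (1 : ℂ)) y‖ ^ 2 ∂τ) atTop (𝓝 0) := by
  have h0 : (0 : ℝ) = ∫ _ : ℝ, (0 : ℝ) ∂τ := by simp
  rw [h0]
  refine tendsto_integral_of_dominated_convergence (fun _ => 4) (fun n => ?_)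
    (integrable_const _) (fun n => ae_of_all _ fun y => ?_) (ae_of_all _ fun y => ?_)
  · refine (Measurable.pow_const (Measurable.norm ?_) 2).aestronglyMeasurable
    exact (Dk_continuous.comp (by fun_prop)).measurable.sub
      (measurable_const.indicator (measurableSet_singleton a))
  · rw [Real.norm_eq_abs, abs_of_nonneg (by positivity)]
    have h1 : ‖Dk (((n : ℝ) + 1) * (y - a)) - ({a} : Set ℝ).indicator (fun _ => (1 : ℂ)) y‖
        ≤ 2 := by
      refine (norm_sub_le _ _).trans ?_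
      have := Dk_le_one (((n : ℝ) + 1) * (y - a))
      have h2 := norm_indicator_le_norm_self (s := ({a} : Set ℝ)) (fun _ => (1 : ℂ)) y
      rw [norm_one] at h2
      linarith
    nlinarith [norm_nonneg (Dk (((n : ℝ) + 1) * (y - a)) -
      ({a} : Set ℝ).indicator (fun _ => (1 : ℂ)) y)]
  · by_cases hy : y = a
    · subst hy
      simp [Dk_zero]
    · have h1 : Tendsto (fun n : ℕ => Dk (((n : ℝ) + 1) * (y - a))) atTop (𝓝 0) :=
        (Dk_tendsto (y - a) (sub_ne_zero.2 hy)).comp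
          (tendsto_atTop_add_const_right _ _ tendsto_natCast_atTop_atTop)
      have h2 : ({a} : Set ℝ).indicator (fun _ => (1 : ℂ)) y = 0 :=
        indicator_of_notMem (by simpa using hy) _
      simp only [h2, sub_zero]
      simpa using h1.norm.pow 2

theorem Atom_aux5 (a L L' : ℝ) :
    ∫ y, ‖Dk (L * (y - a)) - Dk (L' * (y - a))‖ ^ 2 ∂τ ≤
      2 * ∫ y, ‖Dk (L * (y - a)) - ({a} : Set ℝ).indicator (fun _ => (1 : ℂ)) y‖ ^ 2 ∂τ +
      2 * ∫ y, ‖Dk (L' * (y - a)) - ({a} : Set ℝ).indicator (fun _ => (1 : ℂ)) y‖ ^ 2 ∂τ := by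
  have hi : ∀ L : ℝ, Integrable (fun y => ‖Dk (L * (y - a)) -
      ({a} : Set ℝ).indicator (fun _ => (1 : ℂ)) y‖ ^ 2) τ := by
    intro L
    refine Integrable.of_bound ?_ 4 (ae_of_all _ fun y => ?_)
    · refine (Measurable.pow_const (Measurable.norm ?_) 2).aestronglyMeasurable
      exact (Dk_continuous.comp (by fun_prop)).measurable.sub
        (measurable_const.indicator (measurableSet_singleton a))
    · rw [Real.norm_eq_abs, abs_of_nonneg (by positivity)]
      have h1 : ‖Dk (L * (y - a)) - ({a} : Set ℝ).indicator (fun _ => (1 : ℂ)) y‖ ≤ 2 := by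
        refine (norm_sub_le _ _).trans ?_
        have := Dk_le_one (L * (y - a))
        have h2 := norm_indicator_le_norm_self (s := ({a} : Set ℝ)) (fun _ => (1 : ℂ)) y
        rw [norm_one] at h2
        linarith
      nlinarith [norm_nonneg (Dk (L * (y - a)) - ({a} : Set ℝ).indicator (fun _ => (1 : ℂ)) y)]
  rw [← integral_const_mul, ← integral_const_mul,
    ← integral_add ((hi L).const_mul 2) ((hi L').const_mul 2)]
  refine integral_mono_of_nonneg (ae_of_all _ fun y => by positivity)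
    (((hi L).const_mul 2).add ((hi L').const_mul 2)) (ae_of_all _ fun y => ?_)
  simp only
  set u := Dk (L * (y - a))
  set v := Dk (L' * (y - a))
  set w := ({a} : Set ℝ).indicator (fun _ => (1 : ℂ)) y
  have h1 : ‖u - v‖ ≤ ‖u - w‖ + ‖v - w‖ := by
    have : u - v = (u - w) - (v - w) := by ring
    rw [this]
    exact norm_sub_le _ _
  nlinarith [norm_nonneg (u - v), norm_nonneg (u - w), norm_nonneg (v - w),
    sq_nonneg (‖u - w‖ - ‖v - w‖)]

theorem Atom_aux6 (a L : ℝ) : τ.real {a} ≤ ∫ y, ‖Dk (L * (y - a)) * 1‖ ^ 2 ∂τ := by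
  have hi : Integrable (fun y => ‖Dk (L * (y - a)) * 1‖ ^ 2) τ := by
    refine Integrable.of_bound ?_ 1 (ae_of_all _ fun y => ?_)
    · exact ((((Dk_continuous.comp (by fun_prop)).mul continuous_const).norm.pow 2 :
        Continuous fun y : ℝ => ‖Dk (L * (y - a)) * 1‖ ^ 2)).aestronglyMeasurable
    · rw [Real.norm_eq_abs, abs_of_nonneg (by positivity), mul_one]
      exact pow_le_one₀ (norm_nonneg _) (Dk_le_one _)
  refine le_trans ?_ (setIntegral_le_integral (s := {a}) hi (ae_of_all _ fun y => by positivity))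
  rw [integral_singleton]
  simp [Dk_zero]

/-- `f n = Av φ (n+1) a f` is Cauchy in `Lp ℂ 2 μ` (`nsq_av_sub_av`; `Dk ((n+1)(y-a))` tends to the
indicator of `{a}` in `L²(τ)` by dominated convergence, `Dk_tendsto`, `Dk_zero`), let `F` be the limit.
`‖F‖² = lim ∫ ‖Dk ((n+1)(y-a))‖² dτ = τ {a}`. By `Av_shift_le` and invariance of `μ`,
`F ∘ φ t = ex (a t) F` a.e. (`Lp.compMeasurePreserving` is an isometry, or pass to a.e. convergent
subsequences). Weak mixing: `F = c` a.e.; `∫ F = lim ∫ f n = 0` (`integral_av`), so `c = 0`. -/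
theorem spec_noAtom (h : AEFlow μ φ X0) {B : ℝ} {f : X → ℂ} (hf : BM X0 B f)
    (hs : SpecW μ φ f τ (fun _ => 1)) (hwm : WeakMixing μ φ) (h0 : ∫ x, f x ∂μ = 0) (a : ℝ) :
    τ {a} = 0 := by
  have hp : ∀ n : ℕ, (0 : ℝ) < (n : ℝ) + 1 := fun n => by positivity
  set g : ℕ → X → ℂ := fun n => Av φ ((n : ℝ) + 1) a f with hg
  have hbm : ∀ n, BM X0 B (g n) := fun n => hf.av h (hp n) a
  have hab : ∀ n, AB μ B (g n) := fun n => (hbm n).ab h.ae
  set F : ℕ → Lp ℂ 2 μ := fun n => (hab n).memLp.toLp (g n) with hF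
  have hFg : ∀ n, (F n : X → ℂ) =ᵐ[μ] g n := fun n => (hab n).memLp.coeFn_toLp
  have hc : CauchySeq F := by
    rw [Metric.cauchySeq_iff]
    intro ε hε
    obtain ⟨N, hN⟩ := eventually_atTop.1 ((Atom_aux4 (τ := τ) a).eventually
      (gt_mem_nhds (show (0 : ℝ) < ε ^ 2 / 4 by positivity)))
    refine ⟨N, fun m hm n hn => ?_⟩
    have h1 : ‖F m - F n‖ ^ 2 = nsq μ (fun x => g m x - g n x) := by
      refine Atom_aux3 _ ?_
      filter_upwards [Lp.coeFn_sub (F m) (F n), hFg m, hFg n] with x h1 h2 h3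
      rw [h1, Pi.sub_apply, h2, h3]
    have h2 := nsq_av_sub_av h hf hs (hp m) (hp n) a
    have h3 := Atom_aux5 (τ := τ) a ((m : ℝ) + 1) ((n : ℝ) + 1)
    have h4 := hN m hm
    have h5 := hN n hn
    rw [dist_eq_norm]
    refine lt_of_pow_lt_pow_left₀ 2 hε.le ?_
    rw [h1]
    simp only [hg]
    rw [h2]
    linarith
  obtain ⟨G, hG⟩ := cauchySeq_tendsto_of_complete hc
  have hB : 0 ≤ B := (hf.ab h.ae).nonneg
  have heig : ∀ t : ℝ, (fun x => G (φ t x)) =ᵐ[μ]
      fun x => Complex.exp (a * t * Complex.I) * G x := by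
    intro t
    have hU : Continuous (Lp.compMeasurePreserving (E := ℂ) (p := 2) (φ t) (h.mp t)) :=
      (Lp.isometry_compMeasurePreserving (h.mp t)).continuous
    have h1 : Tendsto (fun n => Lp.compMeasurePreserving (φ t) (h.mp t) (F n) - ex (a * t) • F n)
        atTop (𝓝 (Lp.compMeasurePreserving (φ t) (h.mp t) G - ex (a * t) • G)) :=
      ((hU.tendsto G).comp hG).sub (hG.const_smul _)
    have h2 : ∀ n : ℕ, ‖Lp.compMeasurePreserving (φ t) (h.mp t) (F n) - ex (a * t) • F n‖ ≤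
        2 * |t| * B / ((n : ℝ) + 1) := by
      intro n
      have h3 : ‖Lp.compMeasurePreserving (φ t) (h.mp t) (F n) - ex (a * t) • F n‖ ^ 2 =
          nsq μ (fun x => g n (φ t x) - ex (a * t) * g n x) := by
        refine Atom_aux3 _ ?_
        filter_upwards [Lp.coeFn_sub (Lp.compMeasurePreserving (φ t) (h.mp t) (F n))
          (ex (a * t) • F n), Lp.coeFn_compMeasurePreserving (F n) (h.mp t),
          Lp.coeFn_smul (ex (a * t)) (F n), hFg n,
          (h.mp t).quasiMeasurePreserving.ae_eq_comp (hFg n)] with x e1 e2 e3 e4 e5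
        rw [e1, Pi.sub_apply, e2, e3, e5, Pi.smul_apply, e4, smul_eq_mul, Function.comp_apply]
      have h4 : AB μ (2 * |t| * B / ((n : ℝ) + 1))
          (fun x => g n (φ t x) - ex (a * t) * g n x) := by
        refine ⟨((hbm n).comp h t).1.sub ((hbm n).1.const_mul _), ?_⟩
        filter_upwards [h.ae] with x hx
        exact Av_shift_le h hf (hp n) a t hx
      refine le_of_pow_le_pow_left₀ two_ne_zero (by positivity) ?_
      rw [h3]
      exact h4.nsq_le
    have h5 : Tendsto (fun n : ℕ => 2 * |t| * B / ((n : ℝ) + 1)) atTop (𝓝 0) :=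
      tendsto_const_nhds.div_atTop
        (tendsto_atTop_add_const_right _ _ tendsto_natCast_atTop_atTop)
    have h6 : Lp.compMeasurePreserving (φ t) (h.mp t) G - ex (a * t) • G = 0 :=
      tendsto_nhds_unique h1 (squeeze_zero_norm h2 h5)
    have h7 := sub_eq_zero.1 h6
    filter_upwards [Lp.coeFn_compMeasurePreserving G (h.mp t), Lp.coeFn_smul (ex (a * t)) G]
      with x e1 e2
    rw [h7, e2, Pi.smul_apply, smul_eq_mul, Function.comp_apply] at e1
    rw [← e1, ex]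
    push_cast
    rfl
  obtain ⟨c, hc'⟩ := hwm a G (Lp.memLp G) heig
  have h8 : ∀ n : ℕ, τ.real {a} ≤ ‖F n - G‖ ^ 2 := by
    intro n
    have h1 : ‖F n - G‖ ^ 2 = nsq μ (fun x => g n x - c) := by
      refine Atom_aux3 _ ?_
      filter_upwards [Lp.coeFn_sub (F n) G, hFg n, hc'] with x e1 e2 e3
      rw [e1, Pi.sub_apply, e2, e3]
    have h2 := (hab n).nsq_sub_mean_le c
    have h3 : ∫ y, g n y ∂μ = 0 := by
      simp only [hg]
      rw [integral_av h hf (hp n) a, h0, mul_zero]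
    have h4 := (SpecW.av h hf (κ := fun _ => 1) measurable_const (M := 1) (by simp) hs (hp n)
      a).nsq_eq h
    have h5 := Atom_aux6 (τ := τ) a ((n : ℝ) + 1)
    rw [h3] at h2
    simp only [sub_zero] at h2
    rw [h1]
    refine le_trans ?_ h2
    rw [← h4] at h5
    exact h5
  have h9 : Tendsto (fun n => ‖F n - G‖ ^ 2) atTop (𝓝 0) := by
    have := (tendsto_iff_norm_sub_tendsto_zero.1 hG).pow 2
    simpa using this
  have h10 : τ.real {a} ≤ 0 := ge_of_tendsto' h9 h8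
  exact (measureReal_eq_zero_iff (measure_ne_top _ _)).1 (le_antisymm h10 measureReal_nonneg)

end Pool.Agent.MP_b29402_an

end

-- part MP_b29402_an.FMain
section

/-! The main theorem for abstract flat surfaces. -/

open MeasureTheory Set Filter Topology ProbabilityTheory
open scoped ComplexConjugate ENNReal

namespace Pool.Agent.MP_b29402_an

namespace Flat

variable {X : Type*} [MeasurableSpace X]

/-- `c θ` is an infinite unit speed ray in direction `θ` -/
def IsRay (Z : Flat X) (θ : ℝ) (c : ℝ → X) : Prop :=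
  ∀ t : ℝ, 0 < t → ∀ s : ℝ, 0 ≤ s → s • ev θ ∈ Z.D (c t) ∧ Z.fl θ s (c t) = c (t + s)

/-- `C = 32/ε²`, `Θ N = {θ | ThickAt N θ ε}`. Given `n a t t0`: take `t*` with `t* ≤ t i` for all `i` and `0 < t0 + t*`
(minimum, or `1 - t0` if `n = 0`), `S = ∑ |t i - t*|`, `g = FSF a (t - t*) h` (`fam_of_segLip`, `Fam.fs` with `Θ = univ`),
`x0 = c θ (t0 + t*)`; `g θ (fl θ u x0) = ∑ a i * h (c θ (t0 + u + t i))` for `u ≥ 0`; translate the interval
(`intervalIntegral.integral_comp_add_left`); `Fam.box` at level `N`; `nsq (g θ) = ∫ ‖tp a t‖² dσ θ` (`SpecW.fs`,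
`SpecW.nsq_eq`, `tp_shift`); `(Λ / N)² ≤ δ` and `S ≤ ε N / 4` for large `N`. -/
theorem rayBound (Z : Flat X) {h : X → ℂ} {Lh : ℝ} (hL0 : 0 ≤ Lh) (hm : Measurable h)
    (hb : ∀ x, ‖h x‖ ≤ 1) (hl : Z.SegLip Lh h) (σ : Kernel ℝ ℝ) [IsFiniteKernel σ]
    (hs : ∀ θ, SpecW Z.μ (Z.fl θ) h (σ θ) (fun _ => 1)) {c : ℝ → ℝ → X}
    (hc : ∀ᵐ θ ∂PP, Z.IsRay θ (c θ)) {ε : ℝ} (hε : 0 < ε) (hε1 : ε ≤ 1) :
    RayBound (fun θ s => h (c θ s)) σ (32 / ε ^ 2) (fun N => {θ | Z.ThickAt N θ ε}) := by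
  intro n a t t0 ht δ hδ
  obtain ⟨ts, hts, hts0⟩ : ∃ ts : ℝ, (∀ i, ts ≤ t i) ∧ 0 < t0 + ts := by
    rcases isEmpty_or_nonempty (Fin n) with hn | hn
    · exact ⟨1 - t0, fun i => hn.elim i, by linarith⟩
    · obtain ⟨j, hj⟩ := Finite.exists_min t
      exact ⟨t j, hj, ht j⟩
  have hS0 : 0 ≤ ∑ i, |t i - ts| := Finset.sum_nonneg fun i _ => abs_nonneg _
  have hfam := (fam_of_segLip hL0 zero_le_one hm hb hl univ).fs a (t := fun i => t i - ts)
    (S' := ∑ i, |t i - ts|) hS0 (fun i => sub_nonneg.2 (hts i))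
    (fun i => (le_abs_self _).trans
      (Finset.single_le_sum (f := fun i => |t i - ts|) (fun j _ => abs_nonneg _) (Finset.mem_univ i)))
  have e1 : ∀ᶠ N : ℝ in atTop, 0 + ∑ i, |t i - ts| ≤ ε * N / 4 :=
    ((tendsto_id.const_mul_atTop hε).atTop_div_const (by norm_num : (0 : ℝ) < 4)).eventually_ge_atTop _
  have e2 : ∀ᶠ N : ℝ in atTop, ((∑ i, ‖a i‖) * Lh / N) ^ 2 ≤ δ := by
    have h1 : Tendsto (fun N : ℝ => ((∑ i, ‖a i‖) * Lh / N) ^ 2) atTop (𝓝 (0 ^ 2)) :=
      (tendsto_const_nhds.div_atTop tendsto_id).pow 2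
    exact h1.eventually (ge_mem_nhds (by simpa using hδ))
  filter_upwards [e1, e2, eventually_gt_atTop 0] with N h1 h2 hN
  filter_upwards [hc] with θ hθ hth
  have hbox := hfam.box hN hε hε1 hth (mem_univ θ) h1 (x := c θ (t0 + ts))
    (fun s hs' => (hθ _ hts0 s hs').1)
  have hn : nsq Z.μ (Z.FSF a (fun i => t i - ts) (fun _ => h) θ) =
      ∫ y, ‖tp a t y‖ ^ 2 ∂(σ θ) := by
    have := ((hs θ).fs (Z.aeflow θ) (B := 1) (M := 1) ⟨hm, fun x _ => hb x⟩ measurable_const
      (fun _ => by simp) a (fun i => t i - ts)).nsq_eq (Z.aeflow θ)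
    simp only [mul_one, tp_shift] at this
    exact this
  have hces : ces (fun s => ∑ i, a i * h (c θ (s + t i))) t0 N =
      ces (fun s => Z.FSF a (fun i => t i - ts) (fun _ => h) θ (Z.fl θ s (c θ (t0 + ts)))) 0 N := by
    unfold ces
    congr 1
    have e := intervalIntegral.integral_comp_add_left (a := 0) (b := N)
      (fun s => ‖∑ i, a i * h (c θ (s + t i))‖ ^ 2) t0
    rw [add_zero] at e
    rw [← e, zero_add]
    refine intervalIntegral.integral_congr fun s hs' => ?_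
    rw [uIcc_of_le hN.le] at hs'
    have q1 : Z.fl θ s (c θ (t0 + ts)) = c θ (t0 + ts + s) := (hθ _ hts0 s hs'.1).2
    have q2 : ∀ i, Z.fl θ (t i - ts) (c θ (t0 + ts + s)) = c θ (t0 + s + t i) := fun i => by
      rw [(hθ (t0 + ts + s) (by linarith [hs'.1]) _ (sub_nonneg.2 (hts i))).2]
      congr 1
      ring
    simp only [FSF, FS, q1, q2]
  rw [hn] at hbox
  rw [hces]
  linarith

/-- `exists_kernel` (`aeflow`, `measurable_fl_dir`, `SegLip.flow`), `spec_noAtom`, `Sg_noAtoms`, `thmB`, `thmA` with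
`nondiv_all`, `isClosed_thickAt`, `rayBound`. -/
theorem flat_main_one (Z : Flat X) (hwm : ∀ᵐ θ ∂PP, WeakMixing Z.μ (Z.fl θ)) {c : ℝ → ℝ → X}
    (hcm : Measurable (Function.uncurry c)) (hc : ∀ᵐ θ ∂PP, Z.IsRay θ (c θ)) {h : X → ℂ}
    {Lh : ℝ} (hL0 : 0 ≤ Lh) (hm : Measurable h) (hb : ∀ x, ‖h x‖ ≤ 1) (hl : Z.SegLip Lh h)
    (h0 : ∫ x, h x ∂Z.μ = 0) :
    Tendsto (fun N => ces (fun s => ∫ θ, h (c θ s) ∂PP) 0 N) atTop (𝓝 0) := by
  obtain ⟨σ, hσ, hs⟩ := exists_kernel (φ := Z.fl) (X0 := Z.X0) Z.aeflow Z.measurable_fl_dir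
    (B := 1) (L := Lh) (f := h) (fun θ => ⟨hm, fun x _ => hb x⟩)
    (fun θ x hx s t => SegLip.flow hL0 hl θ hx s t)
  have hna : ∀ a, Sg σ {a} = 0 := Sg_noAtoms σ (by
    filter_upwards [hwm] with θ hθ a
    exact spec_noAtom (Z.aeflow θ) (B := 1) ⟨hm, fun x _ => hb x⟩ (hs θ) hθ h0 a)
  refine thmA (H := fun θ s => h (c θ s)) (hm.comp hcm) (fun θ s => hb _)
    (thmB Z hL0 hm hb hl σ hs hna) fun γ hγ => ?_
  obtain ⟨ε, hε, hε1, hT⟩ := nondiv_all Z hγ
  exact ⟨32 / ε ^ 2, by positivity, fun N => {θ | Z.ThickAt N θ ε},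
    fun N => (Z.isClosed_thickAt N ε).measurableSet,
    (eventually_ge_atTop 16).mono fun N hN => hT N hN,
    rayBound Z hL0 hm hb hl σ hs hc hε hε1⟩

/-- apply `flat_main_one` to `h = (g - ∫ g) / (2 M + 1)` -/
theorem flat_main (Z : Flat X) (hwm : ∀ᵐ θ ∂PP, WeakMixing Z.μ (Z.fl θ)) {c : ℝ → ℝ → X}
    (hcm : Measurable (Function.uncurry c)) (hc : ∀ᵐ θ ∂PP, Z.IsRay θ (c θ)) {g : X → ℝ}
    {L M : ℝ} (hm : Measurable g) (hb : ∀ x, |g x| ≤ M)
    (hl : ∀ x, ∀ v ∈ Z.D x, |g (Z.mv x v) - g x| ≤ L * ‖v‖) :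
    Tendsto (fun N => ces (fun s => (((∫ θ, g (c θ s) ∂PP) - ∫ x, g x ∂Z.μ : ℝ) : ℂ)) 0 N)
      atTop (𝓝 0) := by
  obtain ⟨x0, -⟩ := Z.exV
  have hM : 0 ≤ M := (abs_nonneg _).trans (hb x0)
  have hK : 0 < 2 * M + 1 := by linarith
  have hint : Integrable g Z.μ :=
    Integrable.of_bound hm.aestronglyMeasurable M (ae_of_all _ fun x => hb x)
  have hmean : |∫ x, g x ∂Z.μ| ≤ M := by
    have := norm_integral_le_of_norm_le_const (μ := Z.μ) (f := g) (C := M)
      (ae_of_all _ fun x => hb x)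
    simpa using this
  have key := flat_main_one Z hwm hcm hc
    (h := fun x => (((g x - ∫ x, g x ∂Z.μ) / (2 * M + 1) : ℝ) : ℂ)) (Lh := |L|) (abs_nonneg _)
    (Complex.measurable_ofReal.comp ((hm.sub_const _).div_const _))
    (fun x => by
      rw [Complex.norm_real, Real.norm_eq_abs, abs_div, abs_of_pos hK, div_le_one hK]
      have := abs_sub (g x) (∫ x, g x ∂Z.μ)
      linarith [hb x])
    (fun x v hv => by
      rw [← Complex.ofReal_sub, Complex.norm_real, Real.norm_eq_abs, ← sub_div, abs_div,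
        abs_of_pos hK, sub_sub_sub_cancel_right, div_le_iff₀ hK]
      have h1 : L * ‖v‖ ≤ |L| * ‖v‖ := mul_le_mul_of_nonneg_right (le_abs_self L) (norm_nonneg v)
      have h2 : 0 ≤ |L| * ‖v‖ * M := by positivity
      nlinarith [hl x v hv])
    (by
      rw [integral_complex_ofReal, integral_div, integral_sub hint (integrable_const _)]
      simp)
  have hrw : ∀ s : ℝ, ∫ θ, (((g (c θ s) - ∫ x, g x ∂Z.μ) / (2 * M + 1) : ℝ) : ℂ) ∂PP =
      ((((∫ θ, g (c θ s) ∂PP) - ∫ x, g x ∂Z.μ) / (2 * M + 1) : ℝ) : ℂ) := fun s => by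
    have hi : Integrable (fun θ => g (c θ s)) PP :=
      Integrable.of_bound
        (hm.comp (hcm.comp (measurable_id.prodMk measurable_const))).aestronglyMeasurable M
        (ae_of_all _ fun θ => hb _)
    rw [integral_complex_ofReal, integral_div, integral_sub hi (integrable_const _)]
    simp
  simp only [hrw] at key
  have key2 := key.const_mul ((2 * M + 1) ^ 2)
  rw [mul_zero] at key2
  refine key2.congr fun N => ?_
  unfold ces
  rw [mul_left_comm, ← intervalIntegral.integral_const_mul]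
  congr 1
  refine intervalIntegral.integral_congr fun s _ => ?_
  simp only [Complex.norm_real, Real.norm_eq_abs, sq_abs]
  field_simp

end Flat

end Pool.Agent.MP_b29402_an

end

-- part MP_b29402_an.I7
section

/-! The abstract flat surface of a translation surface; marking a point; comparison of the flows. -/

open MeasureTheory Set Filter Topology ProbabilityTheory
open scoped ComplexConjugate ENNReal

namespace Pool.Agent.MP_b29402_an

namespace TransSurf

variable {X : Type*} [TopologicalSpace X] [T2Space X] [CompactSpace X] [ConnectedSpace X]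
  [MeasurableSpace X] [BorelSpace X]

/-- `sc = √a`; collect the fields -/
theorem exists_flat (S : TransSurf X) (hne : S.sing.Nonempty) {μ : Measure X} (hμ : S.IsArea μ) :
    ∃ (sc : ℝ) (Z : Flat X), 0 < sc ∧ Z.μ = μ ∧ Z.D = S.Dom sc ∧ Z.mv = S.mov sc := by
  obtain ⟨hp, h0, a, ha, hA⟩ := hμ
  have hsc : 0 < √a := Real.sqrt_pos.2 ha
  obtain ⟨N, hN⟩ := S.card_Dom hsc
  refine ⟨√a,
    { μ := μ
      D := S.Dom √a
      mv := S.mov √a
      N := N
      prob := hp
      ae_reg := (measure_eq_zero_iff_ae_notMem.1 h0).mono fun x hx => zero_mem_Dom.2 hx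
      mv_zero := mov_zero
      open_D := isOpen_Dom
      star := fun x v hv t h0 h1 => star_Dom x hv h0 h1
      conv := fun x K hK _ hD a ha b hb => conv_Dom x K hK hD ha hb
      thick0 := S.thick0_Dom hsc
      card := hN
      exV := S.exV_Dom hsc hne
      conn := conn_Dom hsc
      charts := S.charts_Dom hsc μ h0 (by rw [Real.sq_sqrt ha.le]; exact hA)
      meas_mv := S.measurable_mov hsc
      meas_D := S.measurableSet_Dom hsc }, hsc, rfl, rfl, rfl⟩

omit [CompactSpace X] [ConnectedSpace X] in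
/-- If `sing` is nonempty take `S' = S`. Otherwise pick `p0 ≠ p` (in a chart at `p`), `sing' = {p0}`,
`atlas' = {e.restrOpen {p0}ᶜ _ | e ∈ atlas}`, cone chart at `p0` with `k = 1` (translated chart, as in
`exists_coneAt`); `μ {p0} = 0` as the image of a point has volume zero. -/
theorem exists_marked (S : TransSurf X) {μ : Measure X} (hμ : S.IsArea μ) {p : X}
    (hp : p ∉ S.sing) :
    ∃ S' : TransSurf X, S'.sing.Nonempty ∧ p ∉ S'.sing ∧ S'.IsArea μ ∧
      ∀ v γ I, S'.Straight v γ I → S.Straight v γ I := by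
  rcases S.sing.eq_empty_or_nonempty with h0 | hne
  swap
  · exact ⟨S, hne, hp, hμ, fun _ _ _ h => h⟩
  obtain ⟨e, he, hpe⟩ := (S.cover p).1 hp
  obtain ⟨z, hz, hzp⟩ : ∃ z ∈ e.target, z ≠ e p := by
    have h1 : ∀ᶠ z in 𝓝[≠] (e p), z ∈ e.target :=
      mem_nhdsWithin_of_mem_nhds (e.open_target.mem_nhds (e.map_source hpe))
    obtain ⟨z, h2, h3⟩ := (h1.and self_mem_nhdsWithin).exists
    exact ⟨z, h2, h3⟩
  have hp0 : e.symm z ∈ e.source := e.map_target hz
  have hne : p ≠ e.symm z := fun h => hzp (by rw [h, e.right_inv hz])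
  generalize e.symm z = q at hp0 hne
  have ho : IsOpen ({q}ᶜ : Set X) := isOpen_compl_singleton
  obtain ⟨hprob, -, a, ha, hA⟩ := hμ
  refine ⟨
    { sing := {q}
      atlas := {f | ∃ g ∈ S.atlas, f = g.restrOpen {q}ᶜ ho}
      cover := fun x => ?_
      trans := ?_
      cone := fun s hs => ?_ }, Finset.singleton_nonempty q, ?_, ⟨hprob, ?_, a, ha, ?_⟩, ?_⟩
  · rw [Finset.mem_singleton]
    constructor
    · intro hx
      obtain ⟨g, hg, hxg⟩ := (S.cover x).1 (by rw [h0]; exact Finset.notMem_empty x)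
      exact ⟨_, ⟨g, hg, rfl⟩, hxg, hx⟩
    · rintro ⟨_, ⟨g, -, rfl⟩, hx⟩
      exact hx.2
  · rintro _ ⟨g, hg, rfl⟩ _ ⟨g', hg', rfl⟩ x hx
    exact S.trans g hg g' hg' x ⟨hx.1.1, hx.2.1⟩
  · rw [Finset.mem_singleton.1 hs]
    obtain ⟨k, φ, h1, h2, h3, h4⟩ := S.exists_coneAt q
    refine ⟨k, φ, h1, h2, h3, fun x hx hxq => ?_⟩
    obtain ⟨g, hg, hxg, hc⟩ := h4 x hx hxq
    exact ⟨_, ⟨g, hg, rfl⟩, ⟨hxg, hxq⟩, hc⟩
  · exact fun h => hne (Finset.mem_singleton.1 h)
  · change μ ((({q} : Finset X) : Set X)) = 0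
    rw [Finset.coe_singleton, hA e he {q} (singleton_subset_iff.2 hp0) (measurableSet_singleton q),
      image_singleton, measure_singleton, mul_zero]
  · rintro _ ⟨g, hg, rfl⟩ A hs hm
    exact hA g hg A (fun x hx => (hs hx).1) hm
  · intro v γ I h t ht
    obtain ⟨_, ⟨g, hg, rfl⟩, h1⟩ := h t ht
    exact ⟨g, hg, h1.mono fun s hs => ⟨hs.1.1, hs.2⟩⟩

omit [CompactSpace X] [ConnectedSpace X] [MeasurableSpace X] [BorelSpace X] in
/-- for `t ≠ 0` the path `s ↦ mov x ((s / t) • w)`, `w = (sc t) • ev θ`, is straight with velocity `dir θ` on `uIcc 0 t`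
(`mov_straight`, `Straight.affine`, `io_ev`); `Straight.unique` for `S`. For `t = 0` both sides are `x`. -/
theorem flow_eq {S S' : TransSurf X} (h : ∀ v γ I, S'.Straight v γ I → S.Straight v γ I) {sc : ℝ}
    (hsc : 0 < sc) {θ t : ℝ} {x : X} (hx : (sc * t) • ev θ ∈ S'.Dom sc x) :
    S.flow θ t x = S'.mov sc x ((sc * t) • ev θ) := by
  rcases eq_or_ne t 0 with rfl | ht
  · rw [mul_zero, zero_smul, mov_zero]
    unfold flow
    split_ifs with h1
    · exact h1.choose_spec.1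
    · rfl
  have h1 := (mov_straight hx).affine 0 t⁻¹ (J := uIcc 0 t) fun s hs => by
    rw [zero_add]
    rcases lt_or_gt_of_ne ht with h2 | h2
    · rw [uIcc_of_ge h2.le] at hs
      refine ⟨mul_nonneg_of_nonpos_of_nonpos (inv_nonpos.2 h2.le) hs.2, ?_⟩
      rw [inv_mul_eq_div, div_le_one_of_neg h2]
      exact hs.1
    · rw [uIcc_of_le h2.le] at hs
      refine ⟨mul_nonneg (inv_nonneg.2 h2.le) hs.1, ?_⟩
      rw [inv_mul_eq_div, div_le_one h2]
      exact hs.2
  have h2 : ((t⁻¹ : ℝ) : ℂ) * io sc ((sc * t) • ev θ) = dir θ := by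
    rw [← io_smul, smul_smul, mul_comm sc t, inv_mul_cancel_left₀ ht, io_ev hsc]
  rw [h2] at h1
  have h3 : S'.mov sc x ((0 + t⁻¹ * 0) • (sc * t) • ev θ) = x := by
    rw [mul_zero, add_zero, zero_smul, mov_zero]
  have hex : ∃ γ : ℝ → X, γ 0 = x ∧ S.Straight (dir θ) γ (uIcc 0 t) := ⟨_, h3, h _ _ _ h1⟩
  have h4 := hex.choose_spec.2.unique (h _ _ _ h1) isPreconnected_uIcc left_mem_uIcc
    (hex.choose_spec.1.trans h3.symm) right_mem_uIcc
  unfold flow
  rw [dif_pos hex, h4]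
  simp only [zero_add, inv_mul_cancel₀ ht, one_smul]

omit [CompactSpace X] [ConnectedSpace X] [BorelSpace X] in
/-- an eigenfunction of `Z.fl θ` with frequency `a` is one of `S.flow θ` with frequency `a sc` (`flow_eq`, `ae_line`) -/
theorem weakMixing_flat {S S' : TransSurf X}
    (h : ∀ v γ I, S'.Straight v γ I → S.Straight v γ I) {sc : ℝ} (hsc : 0 < sc) {Z : Flat X}
    (hD : Z.D = S'.Dom sc) (hm : Z.mv = S'.mov sc) {θ : ℝ} (hw : WeakMixing Z.μ (S.flow θ)) :
    WeakMixing Z.μ (Z.fl θ) := by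
  intro a f hf he
  refine hw (a * sc) f hf fun t => ?_
  filter_upwards [he (sc * t), Z.ae_line (ev θ)] with x h1 h2
  rw [flow_eq h hsc (hD ▸ h2 (sc * t)), ← hm]
  refine h1.trans ?_
  push_cast
  rw [mul_assoc (a : ℂ) sc t]

omit [CompactSpace X] [ConnectedSpace X] [BorelSpace X] in
/-- `u ↦ c ((t + u s) / sc)` is straight on `[0,1]` with velocity `(s / sc) dir θ = io (s • ev θ)`; `mov_spec` -/
theorem isRay_of_straight {S' : TransSurf X} {sc : ℝ} (hsc : 0 < sc) {Z : Flat X}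
    (hD : Z.D = S'.Dom sc) (hm : Z.mv = S'.mov sc) {θ : ℝ} {c : ℝ → X}
    (hc : S'.Straight (dir θ) c (Ioi 0)) : Z.IsRay θ (fun t => c (t / sc)) := by
  intro t ht s hs
  have h1 := hc.affine (t / sc) (s / sc) (J := Icc 0 1) fun u hu =>
    add_pos_of_pos_of_nonneg (div_pos ht hsc) (mul_nonneg (div_nonneg hs hsc.le) hu.1)
  have h2 : ((s / sc : ℝ) : ℂ) * dir θ = io sc (s • ev θ) := by
    rw [← io_ev hsc, ← io_smul, smul_smul, div_mul_cancel₀ _ hsc.ne']
  rw [h2] at h1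
  have h3 := mov_spec (x := c (t / sc)) (by simp) h1 zero_le_one le_rfl
  rw [one_smul, mul_one, ← add_div] at h3
  rw [Flat.fl, hD, hm]
  exact h3

end TransSurf

end Pool.Agent.MP_b29402_an

end

-- part MP_b29402_an.I9
section

/-! Existence of measurable families of rays leaving a cone point. -/

open MeasureTheory Set Filter Topology ProbabilityTheory
open scoped ComplexConjugate ENNReal

namespace Pool.Agent.MP_b29402_an

namespace TransSurf

variable {X : Type*} [TopologicalSpace X] [T2Space X]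

theorem I9_io {sc : ℝ} (hsc : 0 < sc) (t θ : ℝ) : io sc ((sc * t) • ev θ) = (t : ℂ) * dir θ := by
  rw [mul_comm sc, mul_smul, io_smul, io_ev hsc]

theorem I9_pow {k : ℕ} (hk : 1 ≤ k) (ρ θ : ℝ) :
    ((ρ : ℂ) * Complex.exp ((Real.pi / 2 + 2 * Real.pi * θ) * Complex.I / k)) ^ k =
      ((ρ ^ k : ℝ) : ℂ) * dir θ := by
  have h : (k : ℂ) ≠ 0 := Nat.cast_ne_zero.2 (by omega)
  rw [mul_pow, ← Complex.exp_nat_mul, mul_div_cancel₀ _ h, add_mul, Complex.exp_add,
    Complex.exp_pi_div_two_mul_I, dir, Complex.ofReal_pow]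

theorem I9_norm (k : ℕ) {ρ : ℝ} (hρ : 0 ≤ ρ) (θ : ℝ) :
    ‖(ρ : ℂ) * Complex.exp ((Real.pi / 2 + 2 * Real.pi * θ) * Complex.I / k)‖ = ρ := by
  have h : ((Real.pi : ℂ) / 2 + 2 * Real.pi * θ) * Complex.I / k =
      (((Real.pi / 2 + 2 * Real.pi * θ) / k : ℝ) : ℂ) * Complex.I := by
    push_cast
    ring
  rw [h, norm_mul, Complex.norm_exp_ofReal_mul_I, mul_one, Complex.norm_of_nonneg hρ]

/-- `mov_local`, `io_ev` -/
theorem straight_of_line {S : TransSurf X} {sc : ℝ} (hsc : 0 < sc) {x : X} {θ a : ℝ} {I : Set ℝ}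
    (h : ∀ t ∈ I, (sc * (t - a)) • ev θ ∈ S.Dom sc x) :
    S.Straight (dir θ) (fun t => S.mov sc x ((sc * (t - a)) • ev θ)) I := by
  intro t ht
  obtain ⟨e, he, hs⟩ := (S.cover _).1 (mov_not_sing (h t ht))
  have hc : Continuous fun s : ℝ => (sc * (s - a)) • ev θ := by fun_prop
  refine ⟨e, he, ((hc.tendsto t).eventually (mov_local (h t ht) he hs)).filter_mono
    nhdsWithin_le_nhds |>.mono fun s hs' => ⟨hs'.2.1, hs'.2.2.trans ?_⟩⟩
  rw [← sub_smul, show sc * (s - a) - sc * (t - a) = sc * (s - t) by ring, I9_io hsc]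

/-- Cone chart `(k, φ)` at `p`, `closedBall 0 r ⊆ φ.target`, `a = (r/2) ^ k`,
`x θ = φ.symm ((r/2) * exp (i (π/2 + 2 π θ) / k))`, so `φ (x θ) ^ k = a * dir θ`; `cone_vis` gives the second claim.
For `0 < t ≤ a`, `cone_lift` and `mov_spec` give `mov (x θ) ((sc (t - a)) • ev θ) ∈ φ.source` with
`φ (·) ^ k = t * dir θ` and norm of `φ (·)` equal to `t ^ (1/k) → 0`, hence the limit. -/
theorem exists_start_pts {S : TransSurf X} {sc : ℝ} (hsc : 0 < sc) {p : X} (hp : p ∈ S.sing) :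
    ∃ (x : ℝ → X) (a : ℝ), 0 < a ∧ Continuous x ∧ ∀ θ,
      Vis (S.Dom sc (x θ)) (-((sc * a) • ev θ)) ∧
      Tendsto (fun t => S.mov sc (x θ) ((sc * (t - a)) • ev θ)) (𝓝[>] 0) (𝓝 p) := by
  obtain ⟨k, φ, hc⟩ : ∃ k φ, S.ConeAt p k φ := S.cone p hp
  have h0 : (0 : ℂ) ∈ φ.target := hc.2.2.1 ▸ φ.map_source hc.2.1
  obtain ⟨r, hr0, hr⟩ := Metric.nhds_basis_closedBall.mem_iff.1 (φ.open_target.mem_nhds h0)
  have r2 : 0 < r / 2 := half_pos hr0
  obtain ⟨u, uc, u1, u2⟩ : ∃ u : ℝ → ℂ, Continuous u ∧ (∀ θ, ‖u θ‖ = r / 2) ∧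
      ∀ θ, u θ ^ k = (((r / 2) ^ k : ℝ) : ℂ) * dir θ :=
    ⟨fun θ => ((r / 2 : ℝ) : ℂ) * Complex.exp ((Real.pi / 2 + 2 * Real.pi * θ) * Complex.I / k),
      by fun_prop, I9_norm k r2.le, I9_pow hc.1 _⟩
  have u3 : ∀ θ, u θ ∈ φ.target := fun θ =>
    hr (mem_closedBall_zero_iff.2 (by rw [u1]; linarith))
  have ha : 0 < (r / 2) ^ k := pow_pos r2 k
  have har : (r / 2) ^ k ≤ r ^ k := pow_le_pow_left₀ r2.le (by linarith) k
  refine ⟨fun θ => φ.symm (u θ), (r / 2) ^ k, ha, φ.continuousOn_symm.comp_continuous uc u3,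
    fun θ => ?_⟩
  have x1 : φ.symm (u θ) ∈ φ.source := φ.map_target (u3 θ)
  have x2 : φ (φ.symm (u θ)) = u θ := φ.right_inv (u3 θ)
  have x3 : φ.symm (u θ) ≠ p := fun e => by
    have h1 := u1 θ
    rw [← x2, e, hc.2.2.1, norm_zero] at h1
    exact r2.ne h1
  constructor
  · have e : io sc (-((sc * (r / 2) ^ k) • ev θ)) = -((((r / 2) ^ k : ℝ) : ℂ) * dir θ) := by
      rw [← neg_smul, ← mul_neg, I9_io hsc, Complex.ofReal_neg, neg_mul]
    refine (cone_vis hc hp hr0 hr x1 (by rw [x2, u1]) ?_).2 ⟨x3, by rw [x2, u2, e, add_neg_cancel]⟩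
    rw [e, norm_neg, norm_mul, norm_dir, mul_one, Complex.norm_of_nonneg ha.le]
  generalize (r / 2) ^ k = a at *
  have key : ∀ t ∈ Ioc 0 a, S.mov sc (φ.symm (u θ)) ((sc * (t - a)) • ev θ) ∈ φ.source ∧
      ‖φ (S.mov sc (φ.symm (u θ)) ((sc * (t - a)) • ev θ))‖ ^ k = t := fun t ht => by
    have e : ∀ s : ℝ, φ (φ.symm (u θ)) ^ k + (s : ℂ) * io sc ((sc * (t - a)) • ev θ) =
        ((a + s * (t - a) : ℝ) : ℂ) * dir θ := fun s => by
      rw [x2, u2, I9_io hsc]
      push_cast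
      ring
    obtain ⟨γ, g0, g1, g2⟩ := cone_lift hc hr0.le hr x1 x3 (v := io sc ((sc * (t - a)) • ev θ))
      (T0 := 1) fun s hs => by
        have b1 : 0 < a + s * (t - a) := by nlinarith [hs.1, hs.2, ht.1, ht.2]
        have b2 : a + s * (t - a) ≤ a := by nlinarith [hs.1, hs.2, ht.1, ht.2]
        rw [← norm_ne_zero_iff, e, norm_mul, norm_dir, mul_one, Complex.norm_of_nonneg b1.le]
        exact ⟨b1.ne', b2.trans har⟩
    have g3 := (mov_spec g0 g1 zero_le_one le_rfl).2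
    rw [one_smul] at g3
    obtain ⟨g4, g5⟩ := g2 1 ⟨zero_le_one, le_rfl⟩
    rw [g3, ← norm_pow, g5, e, norm_mul, norm_dir, mul_one, one_mul, add_sub_cancel,
      Complex.norm_of_nonneg ht.1.le]
    exact ⟨g4, rfl⟩
  have l1 : Tendsto (fun t => φ (S.mov sc (φ.symm (u θ)) ((sc * (t - a)) • ev θ))) (𝓝[>] 0)
      (𝓝 0) := by
    refine NormedAddGroup.tendsto_nhds_zero.2 fun ε hε => ?_
    filter_upwards [Ioc_mem_nhdsGT ha, Ioo_mem_nhdsGT (pow_pos hε k)] with t h1 h2
    exact lt_of_pow_lt_pow_left₀ k hε.le ((key t h1).2.trans_lt h2.2)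
  have l2 := (φ.continuousAt_symm h0).tendsto.comp l1
  have l3 : φ.symm 0 = p := by rw [← hc.2.2.1, φ.left_inv hc.2.1]
  rw [l3] at l2
  refine l2.congr' ?_
  filter_upwards [Ioc_mem_nhdsGT ha] with t h1
  exact φ.left_inv (key t h1).1

/-- `Z` from `exists_flat`, `c θ t = mov (x θ) ((sc (t - a)) • ev θ)` (`Z.meas_mv`). If `(sc (t - a)) • ev θ ∉ D (x θ)` for
some `t > 0` then `t > a`, `exists_vis` gives a second visible point on the line, `sc_of_two` (with `K` the line) a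
saddle connection parallel to `ev θ`; this happens for countably many `θ` (`countable_hol`, `countable_dir`). -/
theorem exists_rays [CompactSpace X] [ConnectedSpace X] [MeasurableSpace X] [BorelSpace X]
    (S : TransSurf X) {μ : Measure X} (hμ : S.IsArea μ) {p : X} (hp : p ∈ S.sing) :
    ∃ c, S.IsRays p c := by
  obtain ⟨sc, Z, hsc, -, hD, hm⟩ := exists_flat S ⟨p, hp⟩ hμ
  obtain ⟨x, a, ha, hx, h⟩ := exists_start_pts hsc hp
  refine ⟨fun θ t => S.mov sc (x θ) ((sc * (t - a)) • ev θ), ?_, ae_restrict_of_ae ?_⟩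
  · have hc : Continuous fun q : ℝ × ℝ => (sc * (q.2 - a)) • ev q.1 :=
      (continuous_const.mul (continuous_snd.sub continuous_const)).smul
        (continuous_ev.comp continuous_fst)
    exact (S.measurable_mov hsc).comp ((hx.measurable.comp measurable_fst).prodMk hc.measurable)
  have hB : (⋃ q ∈ {q : P2 | ∃ y, Z.SC (y, q)}, {θ : ℝ | det2 (ev θ) q = 0}).Countable := by
    refine Z.countable_hol.biUnion fun q hq => countable_dir fun e => ?_
    obtain ⟨y, hy, -⟩ := hq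
    subst e
    exact hy.1 (by simpa using hy.2 0 le_rfl one_pos)
  filter_upwards [measure_eq_zero_iff_ae_notMem.1 (hB.measure_zero volume)] with θ hθ
  refine ⟨(h θ).2, straight_of_line hsc fun t ht => by_contra fun hn => hθ ?_⟩
  have h1 := (h θ).1
  have hta : a < t := by
    by_contra h2
    have h3 := h1.2 ((a - t) / a) (div_nonneg (by linarith) ha.le)
      ((div_lt_one ha).2 (by linarith [mem_Ioi.1 ht]))
    rw [← neg_smul, smul_smul] at h3
    refine hn (by convert h3 using 2; field_simp; ring)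
  rw [← hD] at hn h1
  obtain ⟨τ, t0, -, h2⟩ := Z.exists_vis (x := x θ)
    (by simpa [Flat.reg] using h1.2 0 le_rfl one_pos) hn
  rw [smul_smul] at h2
  obtain ⟨δ, h3, b, hb, c, hc, h4⟩ := Z.sc_of_two (K := (Submodule.span ℝ {ev θ} : Submodule ℝ P2))
    (Submodule.convex _) (Submodule.zero_mem _) h1 h2
    (Submodule.neg_mem _ (Submodule.smul_mem _ _ (Submodule.mem_span_singleton_self _)))
    (Submodule.smul_mem _ _ (Submodule.mem_span_singleton_self _)) fun e => by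
      rw [← neg_smul] at e
      have h5 := smul_left_injective ℝ (ev_ne_zero θ) e
      have h6 : 0 < τ * (sc * (t - a)) := mul_pos t0 (mul_pos hsc (sub_pos.2 hta))
      linarith [mul_pos hsc ha]
  obtain ⟨s, hs⟩ := Submodule.mem_span_singleton.1
    (Submodule.smul_mem _ (1 / 2 : ℝ) (Submodule.sub_mem _ hc hb))
  refine mem_biUnion (x := δ.2) ⟨δ.1, h3⟩ ?_
  rw [mem_ofPred_eq, h4, ← hs, det2_smul_self]

end TransSurf

end Pool.Agent.MP_b29402_an

end
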