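import Pool.Agent.MP_b29402_an.Mg.I3
import Pool.Agent.MP_b29402_an.Mg.Apx
import Pool.Agent.MP_b29402_an.Mg.I9

-- part MP_b29402_an.I8
section

/-! Functions which are Lipschitz along straight paths are dense. -/

open MeasureTheory Set Filter Topology ProbabilityTheory
open scoped ComplexConjugate ENNReal

namespace Pool.Agent.MP_b29402_an

/-- a local Lipschitz bound at every point gives the global one (`IsClosed.Icc_subset_of_forall_exists_gt` for
`{t | |f t - f 0| ≤ L t}`) -/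
theorem abs_sub_le_of_local {f : ℝ → ℝ} {L : ℝ} (hf : ContinuousOn f (Icc 0 1))
    (h : ∀ t ∈ Icc (0 : ℝ) 1, ∀ᶠ s in 𝓝[Icc 0 1] t, |f s - f t| ≤ L * |s - t|) :
    |f 1 - f 0| ≤ L := by
  have hc : IsClosed ({t : ℝ | |f t - f 0| ≤ L * t} ∩ Icc 0 1) := by
    have h1 : ContinuousOn (fun t => |f t - f 0| - L * t) (Icc 0 1) :=
      (hf.sub continuousOn_const).abs.sub (continuousOn_const.mul continuousOn_id)
    have h2 := h1.preimage_isClosed_of_isClosed isClosed_Icc (isClosed_Iic (a := (0 : ℝ)))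
    convert h2 using 1
    ext t
    simp only [mem_inter_iff, mem_ofPred_eq, mem_preimage, mem_Iic, sub_nonpos]
    exact and_comm
  have h3 := hc.Icc_subset_of_forall_mem_nhdsWithin (by simp) (fun x hx => by
    have h4 : 𝓝[>] x ≤ 𝓝[Icc 0 1] x :=
      nhdsWithin_le_iff.mpr (Icc_mem_nhdsGT_of_mem hx.2)
    filter_upwards [h4 (h x (Ico_subset_Icc_self hx.2)), self_mem_nhdsWithin] with s hs hxs
    have h5 : |f x - f 0| ≤ L * x := hx.1
    have h6 : |f s - f x| ≤ L * |s - x| := hs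
    have h7 : x < s := hxs
    rw [abs_of_pos (sub_pos.mpr h7)] at h6
    have h8 := abs_sub_le (f s) (f x) (f 0)
    change |f s - f 0| ≤ L * s
    linarith)
  have h9 : |f 1 - f 0| ≤ L * 1 := h3 (right_mem_Icc.mpr zero_le_one)
  rwa [mul_one] at h9

namespace TransSurf

variable {X : Type*} [TopologicalSpace X] [T2Space X] [CompactSpace X]

/-- Lipschitz along straight paths -/
def PathLip (S : TransSurf X) (g : C(X, ℝ)) : Prop :=
  ∃ L : ℝ, ∀ (v : ℂ) (γ : ℝ → X), S.Straight v γ (Icc 0 1) → |g (γ 1) - g (γ 0)| ≤ L * ‖v‖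

omit [T2Space X] [CompactSpace X] in
/-- a chart centred at `x` in which all straight paths are straight after taking a power -/
theorem I8_chart (S : TransSurf X) (x : X) :
    ∃ (k : ℕ) (φ : OpenPartialHomeomorph X ℂ), 1 ≤ k ∧ x ∈ φ.source ∧ φ x = 0 ∧
      ∀ (v : ℂ) (γ : ℝ → X) (I : Set ℝ), S.Straight v γ I → ∀ t ∈ I, γ t ∈ φ.source →
        ∀ᶠ s in 𝓝[I] t, γ s ∈ φ.source ∧
          φ (γ s) ^ k = φ (γ t) ^ k + ((s - t : ℝ) : ℂ) * v := by
  by_cases hx : x ∈ S.sing
  · obtain ⟨k, φ, h⟩ := S.cone x hx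
    refine ⟨k, φ, h.1, h.2.1, h.2.2.1, fun v γ I hγ t ht hs => hγ.cone ht h hs fun he => ?_⟩
    exact hγ.not_sing ht (he ▸ hx)
  · obtain ⟨e, he, hs⟩ := (S.cover x).mp hx
    refine ⟨1, e.transHomeomorph (Homeomorph.addRight (-e x)), le_rfl, hs, add_neg_cancel (e x),
      fun v γ I hγ t ht hs' => ?_⟩
    filter_upwards [hγ.chart ht he hs'] with s h1
    refine ⟨h1.1, ?_⟩
    change (e (γ s) + -e x) ^ 1 = (e (γ t) + -e x) ^ 1 + _
    rw [h1.2]
    ring

omit [CompactSpace X] in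
/-- Cone chart `(k, φ)` at `x` (`exists_coneAt`), `r > 0` with `closedBall 0 r ⊆ φ.target` and `y ∉ C = φ.symm '' closedBall 0 r`
(compact, closed). `g z = max 0 (r ^ k - ‖φ z ^ k‖)` on `φ.source`, `0` elsewhere; continuous (on the open sets `φ.source`
and `Cᶜ`, where it vanishes). Along a straight path use `abs_sub_le_of_local` with `L = ‖v‖`: at `γ t ∉ C`, locally zero; at
`γ t ∈ φ.source`, `γ t ≠ x`: `Straight.cone`; at `γ t = x` (then `x ∉ sing`) the chart must be the translated flat chart: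
treat regular `x` directly with `k = 1`, `φ = e - e x` and `Straight.chart`. -/
theorem exists_sep (S : TransSurf X) {x y : X} (hxy : x ≠ y) :
    ∃ g : C(X, ℝ), S.PathLip g ∧ g x ≠ g y := by
  classical
  obtain ⟨k, φ, hk, hx, h0, hφ⟩ := I8_chart S x
  have hn : φ '' (φ.source ∩ {y}ᶜ) ∈ 𝓝 (0 : ℂ) := by
    rw [← h0]
    exact φ.image_mem_nhds hx (inter_mem (φ.open_source.mem_nhds hx)
      (isOpen_compl_singleton.mem_nhds hxy))
  obtain ⟨r, hr, hr'⟩ := Metric.nhds_basis_closedBall.mem_iff.mp hn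
  have hsub : φ.symm '' Metric.closedBall 0 r ⊆ φ.source ∩ {y}ᶜ := by
    rintro _ ⟨w, hw, rfl⟩
    obtain ⟨z, hz, rfl⟩ := hr' hw
    rwa [φ.left_inv hz.1]
  have hC : IsClosed (φ.symm '' Metric.closedBall 0 r) := by
    refine ((isCompact_closedBall 0 r).image_of_continuousOn
      (φ.continuousOn_symm.mono fun w hw => ?_)).isClosed
    obtain ⟨z, hz, rfl⟩ := hr' hw
    exact φ.map_source hz.1
  let G : X → ℝ := fun z => if z ∈ φ.source then max (r ^ k - ‖φ z ^ k‖) 0 else 0
  have G1 : ∀ z ∈ φ.source, G z = max (r ^ k - ‖φ z ^ k‖) 0 := fun z hz => if_pos hz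
  have G0 : ∀ z, z ∉ φ.symm '' Metric.closedBall 0 r → G z = 0 := by
    intro z hz
    by_cases hs : z ∈ φ.source
    · rw [G1 z hs, max_eq_right_iff, sub_nonpos, norm_pow]
      refine pow_le_pow_left₀ hr.le (not_lt.mp fun h => hz ⟨φ z, ?_, φ.left_inv hs⟩) k
      exact mem_closedBall_zero_iff.mpr h.le
    · exact if_neg hs
  have hG : Continuous G := by
    rw [continuous_iff_continuousAt]
    intro z
    by_cases hs : z ∈ φ.source
    · have h1 : ContinuousAt (fun z => max (r ^ k - ‖φ z ^ k‖) 0) z :=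
        (continuousAt_const.sub ((φ.continuousAt hs).pow k).norm).max continuousAt_const
      refine h1.congr ?_
      filter_upwards [φ.open_source.mem_nhds hs] with w hw
      exact (G1 w hw).symm
    · refine (continuousAt_const (y := (0 : ℝ))).congr ?_
      filter_upwards [hC.isOpen_compl.mem_nhds fun h => hs (hsub h).1] with w hw
      exact (G0 w hw).symm
  refine ⟨⟨G, hG⟩, ⟨1, fun v γ hγ => ?_⟩, ?_⟩
  · rw [one_mul]
    refine abs_sub_le_of_local (f := fun t => G (γ t))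
      (hG.comp_continuousOn hγ.continuousOn) fun t ht => ?_
    by_cases hs : γ t ∈ φ.source
    · filter_upwards [hφ v γ _ hγ t ht hs] with s h1
      rw [G1 _ h1.1, G1 _ hs]
      refine (abs_max_sub_max_le_abs _ _ _).trans ?_
      have h2 : r ^ k - ‖φ (γ s) ^ k‖ - (r ^ k - ‖φ (γ t) ^ k‖)
          = -(‖φ (γ s) ^ k‖ - ‖φ (γ t) ^ k‖) := by ring
      rw [h2, abs_neg]
      refine (abs_norm_sub_norm_le _ _).trans ?_
      rw [h1.2, add_sub_cancel_left, norm_mul, Complex.norm_real, Real.norm_eq_abs, mul_comm]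
    · have h1 : γ t ∉ φ.symm '' Metric.closedBall 0 r := fun h => hs (hsub h).1
      filter_upwards [hγ.continuousOn t ht (hC.isOpen_compl.mem_nhds h1)] with s h2
      rw [G0 _ h2, G0 _ h1, sub_zero, abs_zero]
      positivity
  · change G x ≠ G y
    rw [G0 y fun h => (hsub h).2 rfl, G1 x hx, h0, zero_pow (by omega), norm_zero, sub_zero]
    exact (lt_max_of_lt_left (pow_pos hr k)).ne'

/-- the set is a subalgebra (products: the functions are bounded) which separates points;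
`ContinuousMap.subalgebra_topologicalClosure_eq_top_of_separatesPoints` -/
theorem dense_pathLip (S : TransSurf X) : Dense {g : C(X, ℝ) | S.PathLip g} := by
  let A : Subalgebra ℝ C(X, ℝ) :=
    { carrier := {g | S.PathLip g}
      mul_mem' := by
        rintro g h ⟨L, hg⟩ ⟨M, hh⟩
        refine ⟨‖g‖ * M + ‖h‖ * L, fun v γ hγ => ?_⟩
        have h1 : (g * h) (γ 1) - (g * h) (γ 0)
            = g (γ 1) * (h (γ 1) - h (γ 0)) + h (γ 0) * (g (γ 1) - g (γ 0)) := by
          simp only [ContinuousMap.mul_apply]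
          ring
        have h2 : |g (γ 1)| * |h (γ 1) - h (γ 0)| ≤ ‖g‖ * (M * ‖v‖) :=
          mul_le_mul (g.norm_coe_le_norm _) (hh v γ hγ) (abs_nonneg _) (norm_nonneg _)
        have h3 : |h (γ 0)| * |g (γ 1) - g (γ 0)| ≤ ‖h‖ * (L * ‖v‖) :=
          mul_le_mul (h.norm_coe_le_norm _) (hg v γ hγ) (abs_nonneg _) (norm_nonneg _)
        rw [h1]
        refine (abs_add_le _ _).trans ?_
        rw [abs_mul, abs_mul]
        linarith
      add_mem' := by
        rintro g h ⟨L, hg⟩ ⟨M, hh⟩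
        refine ⟨L + M, fun v γ hγ => ?_⟩
        have h1 : (g + h) (γ 1) - (g + h) (γ 0)
            = (g (γ 1) - g (γ 0)) + (h (γ 1) - h (γ 0)) := by
          simp only [ContinuousMap.add_apply]
          ring
        rw [h1]
        refine (abs_add_le _ _).trans ?_
        linarith [hg v γ hγ, hh v γ hγ]
      algebraMap_mem' := fun c => ⟨0, fun v γ _ => by simp⟩ }
  have hA : A.SeparatesPoints := by
    intro x y hxy
    obtain ⟨g, hg, hne⟩ := S.exists_sep hxy
    exact ⟨g, ⟨g, hg, rfl⟩, hne⟩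
  have h := ContinuousMap.subalgebra_topologicalClosure_eq_top_of_separatesPoints A hA
  rw [dense_iff_closure_eq]
  exact congrArg (fun B : Subalgebra ℝ C(X, ℝ) => (B : Set C(X, ℝ))) h

omit [CompactSpace X] in
/-- `mov_straight`, `norm_io_le` -/
theorem PathLip.seg {S S' : TransSurf X} (h : ∀ v γ I, S'.Straight v γ I → S.Straight v γ I)
    {g : C(X, ℝ)} (hg : S.PathLip g) {sc : ℝ} (hsc : 0 < sc) :
    ∃ L : ℝ, ∀ x, ∀ w ∈ S'.Dom sc x, |g (S'.mov sc x w) - g x| ≤ L * ‖w‖ := by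
  obtain ⟨L, hL⟩ := hg
  refine ⟨|L| * (2 / sc), fun x w hw => ?_⟩
  have h1 := hL _ _ (h _ _ _ (mov_straight hw))
  simp only [one_smul, zero_smul, mov_zero] at h1
  calc _ ≤ L * ‖io sc w‖ := h1
    _ ≤ |L| * (2 / sc * ‖w‖) :=
        mul_le_mul (le_abs_self L) (norm_io_le hsc w) (norm_nonneg _) (abs_nonneg L)
    _ = _ := by ring

end TransSurf

end Pool.Agent.MP_b29402_an

end

-- part MP_b29402_an.KvN
section

/-! Koopman-von Neumann lemma and the passage to all continuous functions. -/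

open MeasureTheory Set Filter Topology ProbabilityTheory
open scoped ComplexConjugate ENNReal

namespace Pool.Agent.MP_b29402_an

theorem KvN_ii {b : ℝ → ℝ} (hb : Measurable b) {M : ℝ} (hM : ∀ s, ‖b s‖ ≤ M) (x y : ℝ) :
    IntervalIntegrable b volume x y :=
  intervalIntegrable_iff.2 (Measure.integrableOn_of_bounded
    (by rw [uIoc]; exact measure_Ioc_lt_top.ne) hb.aestronglyMeasurable (ae_of_all _ hM))

theorem KvN_major {m : ℝ → ℝ} (h0 : ∀ N, 1 ≤ N → 0 ≤ m N) (h1 : ∀ N, 1 ≤ N → m N ≤ 1)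
    (h : Tendsto m atTop (𝓝 0)) : ∃ β : ℝ → ℝ, Antitone β ∧ (∀ N, 1 ≤ N → m N ≤ β N) ∧
      (∀ N, 0 ≤ β N) ∧ Tendsto β atTop (𝓝 0) := by
  have hbd : ∀ N : ℝ, BddAbove (m '' Ici (max N 1)) := fun N =>
    ⟨1, by rintro _ ⟨x, hx, rfl⟩; exact h1 x ((le_max_right _ _).trans hx)⟩
  have hne : ∀ N : ℝ, (m '' Ici (max N 1)).Nonempty := fun N => ⟨_, _, self_mem_Ici, rfl⟩
  have hle : ∀ N : ℝ, m (max N 1) ≤ sSup (m '' Ici (max N 1)) := fun N =>
    le_csSup (hbd N) ⟨_, self_mem_Ici, rfl⟩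
  have hpos : ∀ N : ℝ, 0 ≤ sSup (m '' Ici (max N 1)) := fun N =>
    (h0 _ (le_max_right _ _)).trans (hle N)
  refine ⟨fun N => sSup (m '' Ici (max N 1)), fun x y hxy => ?_, fun N hN => ?_, hpos, ?_⟩
  · exact csSup_le_csSup (hbd x) (hne y) (image_mono (Ici_subset_Ici.2 (max_le_max_right _ hxy)))
  · exact le_csSup (hbd N) ⟨N, (max_eq_left hN).le, rfl⟩
  · refine tendsto_order.2 ⟨fun a ha => Eventually.of_forall fun N => ha.trans_le (hpos N),
      fun a ha => ?_⟩
    obtain ⟨K, hK⟩ := eventually_atTop.1 (h.eventually (gt_mem_nhds (half_pos ha)))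
    filter_upwards [eventually_ge_atTop K] with N hN
    refine lt_of_le_of_lt (csSup_le (hne N) ?_) (half_lt_self ha)
    rintro _ ⟨x, hx, rfl⟩
    exact (hK x (hN.trans ((le_max_left _ _).trans hx))).le

/-- Put `β N = ⨆ M ≥ max N 1, M⁻¹ ∫ s in 0..M, b s` (antitone, tends to `0`), `τ t = √(β t) + 1/t`
(antitone and positive on `[1, ∞)`), `G = {t | t ≤ 1 ∨ b t ≤ τ t}`. For `N ≥ 1`:
`Gᶜ ∩ [-N, N] ⊆ {t ∈ [0, N] | τ N < b t}`, of measure `≤ N β N / τ N ≤ N √(β N)` (Markov). -/
theorem kvn_one {b : ℝ → ℝ} (hb : Measurable b) (h0 : ∀ s, 0 ≤ b s) (h1 : ∀ s, b s ≤ 1)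
    (h : Tendsto (fun N : ℝ => N⁻¹ * ∫ s in (0 : ℝ)..N, b s) atTop (𝓝 0)) :
    ∃ G : Set ℝ, MeasurableSet G ∧
      Tendsto (fun N : ℝ => (volume (G ∩ Icc (-N) N)).toReal / (2 * N)) atTop (𝓝 1) ∧
      Tendsto b (atTop ⊓ 𝓟 G) (𝓝 0) := by
  have hn : ∀ s, ‖b s‖ ≤ 1 := fun s => by rw [Real.norm_eq_abs, abs_of_nonneg (h0 s)]; exact h1 s
  obtain ⟨β, hβa, hβm, hβ0, hβ⟩ := KvN_major (fun N hN => mul_nonneg (inv_nonneg.2 (by linarith))
    (intervalIntegral.integral_nonneg (by linarith) fun s _ => h0 s)) (fun N hN => by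
      have h2 : ∫ s in (0 : ℝ)..N, b s ≤ ∫ _ in (0 : ℝ)..N, (1 : ℝ) :=
        intervalIntegral.integral_mono_on (by linarith) (KvN_ii hb hn _ _)
          intervalIntegrable_const fun s _ => h1 s
      rw [intervalIntegral.integral_const, sub_zero, smul_eq_mul, mul_one] at h2
      rw [inv_mul_le_iff₀ (by linarith), mul_one]
      exact h2) h
  set τ : ℝ → ℝ := fun t => Real.sqrt (β t) + (max t 1)⁻¹ with hτ
  have hm1 : ∀ t : ℝ, 0 < max t 1 := fun t => lt_of_lt_of_le one_pos (le_max_right _ _)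
  have hτa : Antitone τ := fun x y hxy => add_le_add (Real.sqrt_le_sqrt (hβa hxy))
    (inv_anti₀ (hm1 x) (max_le_max_right _ hxy))
  have hτp : ∀ t, 0 < τ t := fun t =>
    add_pos_of_nonneg_of_pos (Real.sqrt_nonneg _) (inv_pos.2 (hm1 t))
  have hsq : Tendsto (fun t => Real.sqrt (β t)) atTop (𝓝 0) := by
    simpa using hβ.sqrt
  have hτ0 : Tendsto τ atTop (𝓝 0) := by
    have h2 : Tendsto (fun t : ℝ => (max t 1)⁻¹) atTop (𝓝 0) :=
      (tendsto_atTop_mono (fun t => le_max_left t 1) tendsto_id).inv_tendsto_atTop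
    simpa using hsq.add h2
  set G : Set ℝ := Iio 0 ∪ {t | b t ≤ τ t} with hG
  have hGm : MeasurableSet G := measurableSet_Iio.union (measurableSet_le hb hτa.measurable)
  refine ⟨G, hGm, ?_, ?_⟩
  · have key : ∀ N : ℝ, 1 ≤ N → volume.real (Icc (-N) N \ G) ≤ N * Real.sqrt (β N) := by
      intro N hN
      have hN0 : (0 : ℝ) < N := by linarith
      have hi : Integrable b (volume.restrict (Icc 0 N)) :=
        Integrable.of_bound hb.aestronglyMeasurable 1 (ae_of_all _ hn)
      have h2 := mul_meas_ge_le_integral_of_nonneg (ae_of_all _ h0) hi (τ N)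
      have h3 : volume.real (Icc (-N) N \ G) ≤
          (volume.restrict (Icc 0 N)).real {x | τ N ≤ b x} := by
        rw [measureReal_restrict_apply (measurableSet_le measurable_const hb)]
        refine measureReal_mono (fun t ht => ?_)
          (ne_top_of_le_ne_top measure_Icc_lt_top.ne (measure_mono inter_subset_right))
        have h4 := ht.2
        simp only [hG, mem_union, mem_Iio, mem_setOf_eq, not_or, not_lt, not_le] at h4
        exact ⟨(hτa ht.1.2).trans h4.2.le, h4.1, ht.1.2⟩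
      have h5 : ∫ x in Icc 0 N, b x ≤ N * β N := by
        rw [integral_Icc_eq_integral_Ioc, ← intervalIntegral.integral_of_le hN0.le]
        have := hβm N hN
        rwa [inv_mul_le_iff₀ hN0] at this
      have h6 : β N ≤ τ N * Real.sqrt (β N) := by
        have h7 : Real.sqrt (β N) ≤ τ N := le_add_of_nonneg_right (inv_pos.2 (hm1 N)).le
        calc β N = Real.sqrt (β N) * Real.sqrt (β N) := (Real.mul_self_sqrt (hβ0 N)).symm
          _ ≤ _ := mul_le_mul_of_nonneg_right h7 (Real.sqrt_nonneg _)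
      refine le_of_mul_le_mul_left ?_ (hτp N)
      calc τ N * volume.real (Icc (-N) N \ G) ≤ _ := mul_le_mul_of_nonneg_left h3 (hτp N).le
        _ ≤ N * β N := h2.trans h5
        _ ≤ N * (τ N * Real.sqrt (β N)) := mul_le_mul_of_nonneg_left h6 hN0.le
        _ = _ := by ring
    have h2 : Tendsto (fun N : ℝ => volume.real (Icc (-N) N \ G) / (2 * N)) atTop (𝓝 0) := by
      refine squeeze_zero' ?_ ?_ hsq
      · filter_upwards [eventually_ge_atTop (1 : ℝ)] with N hN
        exact div_nonneg measureReal_nonneg (by linarith)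
      · filter_upwards [eventually_ge_atTop (1 : ℝ)] with N hN
        rw [div_le_iff₀ (by linarith)]
        nlinarith [key N hN, Real.sqrt_nonneg (β N)]
    have h3 := (tendsto_const_nhds (x := (1 : ℝ))).sub h2
    rw [sub_zero] at h3
    refine h3.congr' ?_
    filter_upwards [eventually_ge_atTop (1 : ℝ)] with N hN
    have h4 := measureReal_inter_add_diff (μ := volume) (s := Icc (-N) N) hGm
      measure_Icc_lt_top.ne
    rw [Real.volume_real_Icc_of_le (by linarith)] at h4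
    have h5 : (volume (G ∩ Icc (-N) N)).toReal = 2 * N - volume.real (Icc (-N) N \ G) := by
      rw [inter_comm, ← measureReal_def]
      linarith
    rw [h5, sub_div, div_self (by linarith)]
  · refine squeeze_zero' (Eventually.of_forall h0) ?_ (hτ0.mono_left inf_le_left)
    rw [eventually_inf_principal]
    filter_upwards [eventually_ge_atTop (0 : ℝ)] with t ht htG
    rcases htG with h2 | h2
    · exact absurd h2 (not_lt.2 ht)
    · exact h2

/-- apply `kvn_one` to `b s = ∑' j, 2⁻¹ ^ (j + 1) * min 1 (‖a j s‖ ^ 2)`: its means tend to `0`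
(finite part plus a tail `≤ 2⁻¹ ^ J`), and `min 1 ‖a j s‖² ≤ 2 ^ (j + 1) * b s`. -/
theorem kvn {a : ℕ → ℝ → ℂ} (ha : ∀ j, Measurable (a j)) (hM : ∀ j, ∃ M, ∀ s, ‖a j s‖ ≤ M)
    (h : ∀ j, Tendsto (fun N => ces (a j) 0 N) atTop (𝓝 0)) :
    ∃ G : Set ℝ, MeasurableSet G ∧
      Tendsto (fun N : ℝ => (volume (G ∩ Icc (-N) N)).toReal / (2 * N)) atTop (𝓝 1) ∧
      ∀ j, Tendsto (a j) (atTop ⊓ 𝓟 G) (𝓝 0) := by
  set u : ℕ → ℝ → ℝ := fun j s => min (((j : ℝ) + 1)⁻¹) (‖a j s‖ ^ 2) with hu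
  have hp : ∀ j : ℕ, (0 : ℝ) < ((j : ℝ) + 1)⁻¹ := fun j => by positivity
  have hu0 : ∀ j s, 0 ≤ u j s := fun j s => le_min (hp j).le (by positivity)
  have hu1 : ∀ j s, u j s ≤ 1 := fun j s => (min_le_left _ _).trans
    (inv_le_one_of_one_le₀ (by linarith [Nat.cast_nonneg (α := ℝ) j]))
  have hbd : ∀ s, BddAbove (range fun j => u j s) := fun s =>
    ⟨1, by rintro _ ⟨j, rfl⟩; exact hu1 j s⟩
  set b : ℝ → ℝ := fun s => ⨆ j, u j s with hb
  have hle : ∀ j s, u j s ≤ b s := fun j s => le_ciSup (hbd s) j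
  have hb0 : ∀ s, 0 ≤ b s := fun s => (hu0 0 s).trans (hle 0 s)
  have hb1 : ∀ s, b s ≤ 1 := fun s => ciSup_le fun j => hu1 j s
  have hsq : ∀ j, Measurable fun s => ‖a j s‖ ^ 2 := fun j => (ha j).norm.pow_const 2
  have hbm : Measurable b := Measurable.iSup fun j => measurable_const.min (hsq j)
  have hii : ∀ j (x y : ℝ), IntervalIntegrable (fun s => ‖a j s‖ ^ 2) volume x y := by
    intro j x y
    obtain ⟨M, hM⟩ := hM j
    refine KvN_ii (hsq j) (M := M ^ 2) (fun s => ?_) x y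
    rw [Real.norm_eq_abs, abs_of_nonneg (by positivity)]
    exact pow_le_pow_left₀ (norm_nonneg _) (hM s) 2
  have hJ : ∀ (J : ℕ) (s : ℝ),
      b s ≤ ((J : ℝ) + 1)⁻¹ + ∑ j ∈ Finset.range J, ‖a j s‖ ^ 2 := by
    intro J s
    refine ciSup_le fun j => ?_
    have h1 : 0 ≤ ∑ j ∈ Finset.range J, ‖a j s‖ ^ 2 := Finset.sum_nonneg fun _ _ => by positivity
    rcases lt_or_ge j J with hj | hj
    · have h2 : ‖a j s‖ ^ 2 ≤ ∑ j ∈ Finset.range J, ‖a j s‖ ^ 2 :=
        Finset.single_le_sum (f := fun j => ‖a j s‖ ^ 2) (fun _ _ => by positivity)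
          (Finset.mem_range.2 hj)
      have h3 : u j s ≤ ‖a j s‖ ^ 2 := min_le_right _ _
      linarith [hp J]
    · have h2 : ((j : ℝ) + 1)⁻¹ ≤ ((J : ℝ) + 1)⁻¹ :=
        inv_anti₀ (by positivity) (by exact_mod_cast Nat.succ_le_succ hj)
      have h3 : u j s ≤ ((j : ℝ) + 1)⁻¹ := min_le_left _ _
      linarith
  have hmean : Tendsto (fun N : ℝ => N⁻¹ * ∫ s in (0 : ℝ)..N, b s) atTop (𝓝 0) := by
    refine tendsto_order.2 ⟨fun e he => ?_, fun e he => ?_⟩
    · filter_upwards [eventually_ge_atTop (0 : ℝ)] with N hN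
      exact he.trans_le (mul_nonneg (inv_nonneg.2 hN)
        (intervalIntegral.integral_nonneg hN fun s _ => hb0 s))
    · obtain ⟨J, hJe⟩ := exists_nat_one_div_lt (half_pos he)
      rw [one_div] at hJe
      have h1 : Tendsto (fun N => ∑ j ∈ Finset.range J, ces (a j) 0 N) atTop (𝓝 0) := by
        simpa using tendsto_finset_sum (Finset.range J) fun j _ => h j
      filter_upwards [eventually_gt_atTop (0 : ℝ), h1.eventually (gt_mem_nhds (half_pos he))]
        with N hN h2
      have hs : IntervalIntegrable (fun s => ∑ j ∈ Finset.range J, ‖a j s‖ ^ 2) volume 0 N := by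
        have := IntervalIntegrable.sum (Finset.range J) fun j _ => hii j 0 N
        refine this.congr fun s _ => ?_
        simp
      have h3 : ∫ s in (0 : ℝ)..N, b s ≤
          ∫ s in (0 : ℝ)..N, (((J : ℝ) + 1)⁻¹ + ∑ j ∈ Finset.range J, ‖a j s‖ ^ 2) :=
        intervalIntegral.integral_mono_on hN.le (KvN_ii hbm (M := 1) (fun s => by
          rw [Real.norm_eq_abs, abs_of_nonneg (hb0 s)]; exact hb1 s) _ _)
          (intervalIntegrable_const.add hs) fun s _ => hJ J s
      rw [intervalIntegral.integral_add intervalIntegrable_const hs,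
        intervalIntegral.integral_finset_sum fun j _ => hii j 0 N,
        intervalIntegral.integral_const, sub_zero, smul_eq_mul] at h3
      simp only [ces, zero_add, ← Finset.mul_sum] at h2
      have h4 := mul_le_mul_of_nonneg_left h3 (inv_pos.2 hN).le
      rw [mul_add, ← mul_assoc, inv_mul_cancel₀ hN.ne', one_mul] at h4
      linarith
  obtain ⟨G, hG, hG1, hG2⟩ := kvn_one hbm hb0 hb1 hmean
  refine ⟨G, hG, hG1, fun j => ?_⟩
  rw [Metric.tendsto_nhds]
  intro e he
  filter_upwards [hG2.eventually (gt_mem_nhds (lt_min (hp j) (pow_pos he 2)))] with s hs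
  have h1 := (hle j s).trans_lt hs
  rw [dist_zero_right]
  rcases min_lt_iff.1 h1 with h2 | h2
  · exact absurd h2 (not_lt.2 (min_le_left _ _))
  · exact lt_of_pow_lt_pow_left₀ 2 he.le (h2.trans_le (min_le_right _ _))

theorem KvN_near {X Y : Type*} [TopologicalSpace X] [CompactSpace X] [MeasurableSpace X]
    [BorelSpace X] [MeasurableSpace Y] (ν : Measure Y) [IsProbabilityMeasure ν] {u : Y → X}
    (hu : Measurable u) (h g : C(X, ℝ)) :
    |(∫ y, h (u y) ∂ν) - ∫ y, g (u y) ∂ν| ≤ ‖h - g‖ := by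
  have hi : ∀ k : C(X, ℝ), Integrable (fun y => k (u y)) ν := fun k =>
    Integrable.of_bound (k.continuous.measurable.comp hu).aestronglyMeasurable ‖k‖
      (ae_of_all _ fun y => k.norm_coe_le_norm _)
  rw [← integral_sub (hi h) (hi g), ← Real.norm_eq_abs]
  have := norm_integral_le_of_norm_le_const (μ := ν) (f := fun y => h (u y) - g (u y))
    (C := ‖h - g‖) (ae_of_all _ fun y => (h - g).norm_coe_le_norm (u y))
  simpa using this

theorem KvN_PP (f : ℝ → ℝ) : ∫ θ in (0 : ℝ)..1, f θ = ∫ θ, f θ ∂PP := by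
  rw [intervalIntegral.integral_of_le zero_le_one, integral_Ioc_eq_integral_Ioo, PP,
    integral_Ico_eq_integral_Ioo]

/-- `C(X, ℝ)` is separable (`ContinuousMap.instSeparableSpace`), so `D` has a countable dense subset
(`exists_countable_dense_subset` type lemma: `Dense.exists_countable_dense_subset`), enumerate it
(`D` is nonempty), apply `kvn` to `a j s = (∫ θ, g j (c θ s) dPP) - ∫ g j`, and approximate:
both `∫ θ, h (c θ s) dPP` and `∫ h dμ` move by at most `‖h - g‖`. `Tendsto.liminf_eq`;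
`∫ θ in 0..1 = ∫ θ in Ioc 0 1 = ∫ dPP` (`integral_Ico_eq_integral_Ioc`-type lemma). -/
theorem illum_of_ces {X : Type*} [TopologicalSpace X] [T2Space X] [CompactSpace X]
    [SecondCountableTopology X]
    [MeasurableSpace X] [BorelSpace X] (μ : Measure X) [IsProbabilityMeasure μ]
    {c : ℝ → ℝ → X} (hc : Measurable (Function.uncurry c)) {D : Set C(X, ℝ)} (hD : Dense D)
    (h : ∀ g ∈ D, Tendsto
      (fun N => ces (fun s => (((∫ θ, g (c θ s) ∂PP) - ∫ x, g x ∂μ : ℝ) : ℂ)) 0 N) atTop (𝓝 0)) :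
    Illum μ c := by
  have : SecondCountableTopology C(X, ℝ) := UniformSpace.secondCountable_of_separable _
  obtain ⟨T, hTD, hTc, hT⟩ := hD.exists_countable_dense_subset
  obtain ⟨g, rfl⟩ := hTc.exists_eq_range hT.nonempty
  have hcs : ∀ s, Measurable fun θ => c θ s := fun s =>
    hc.comp (measurable_id.prodMk measurable_const)
  obtain ⟨G, hG, hG1, hG2⟩ := kvn
    (a := fun j s => (((∫ θ, g j (c θ s) ∂PP) - ∫ x, g j x ∂μ : ℝ) : ℂ)) (fun j => by
      refine Complex.measurable_ofReal.comp (Measurable.sub_const ?_ _)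
      exact (StronglyMeasurable.integral_prod_left (μ := PP) (f := fun θ s => g j (c θ s))
        ((g j).continuous.measurable.comp hc).stronglyMeasurable).measurable)
    (fun j => ⟨‖g j‖ + ‖g j‖, fun s => by
      have h1 := KvN_near PP (hcs s) (g j) 0
      have h2 := KvN_near μ measurable_id (g j) 0
      simp only [ContinuousMap.zero_apply, integral_zero, sub_zero, id] at h1 h2
      rw [Complex.norm_real, Real.norm_eq_abs]
      exact (abs_sub _ _).trans (add_le_add h1 h2)⟩)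
    fun j => h _ (hTD ⟨j, rfl⟩)
  refine ⟨G, hG, hG1.liminf_eq, fun k => ?_⟩
  rw [Metric.tendsto_nhds]
  intro e he
  obtain ⟨j, hj⟩ := (show DenseRange g from hT).exists_dist_lt k (show 0 < e / 3 by positivity)
  rw [dist_eq_norm] at hj
  filter_upwards [Metric.tendsto_nhds.1 (hG2 j) (e / 3) (by positivity)] with s hs
  rw [dist_zero_right, Complex.norm_real, Real.norm_eq_abs] at hs
  have h1 := KvN_near PP (hcs s) k (g j)
  have h2 := KvN_near μ measurable_id k (g j)
  simp only [id] at h2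
  rw [KvN_PP, Real.dist_eq]
  rw [abs_lt] at hs ⊢
  rw [abs_le] at h1 h2
  constructor <;> linarith [hs.1, hs.2, h1.1, h1.2, h2.1, h2.2]

/-- the integrals agree for all `t > 0` -/
theorem Illum.congr {X : Type*} [TopologicalSpace X] [MeasurableSpace X] {μ : Measure X}
    {c c' : ℝ → ℝ → X} (h : Illum μ c) (he : ∀ᵐ θ ∂PP, ∀ t, 0 < t → c' θ t = c θ t) :
    Illum μ c' := by
  obtain ⟨G, hG, h1, h2⟩ := h
  refine ⟨G, hG, h1, fun k => (h2 k).congr' ?_⟩
  filter_upwards [(eventually_gt_atTop (0 : ℝ)).filter_mono inf_le_left] with t ht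
  rw [KvN_PP, KvN_PP]
  exact integral_congr_ae (he.mono fun θ hθ => by simp only [hθ t ht])

end Pool.Agent.MP_b29402_an

end

-- part MP_b29402_an.IFin
section

/-! Final assembly. -/

open MeasureTheory Set Filter Topology ProbabilityTheory
open scoped ComplexConjugate ENNReal

namespace Pool.Agent.MP_b29402_an

namespace TransSurf

variable {X : Type*} [TopologicalSpace X] [T2Space X] [CompactSpace X] [ConnectedSpace X]
  [MeasurableSpace X] [BorelSpace X]

/-- `exists_flat` for `S'`, `secondCountable`, `illum_of_ces` with `dense_pathLip`, `ces_rescale`, `flat_main` for the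
rays `c θ (t / sc)` (`isRay_of_straight`, `weakMixing_flat`, `PathLip.seg`). -/
theorem illum_of_rays {S S' : TransSurf X} (h : ∀ v γ I, S'.Straight v γ I → S.Straight v γ I)
    (hne : S'.sing.Nonempty) {μ : Measure X} (hμ : S'.IsArea μ)
    (hwm : ∀ᵐ θ ∂PP, WeakMixing μ (S.flow θ)) {c : ℝ → ℝ → X}
    (hcm : Measurable (Function.uncurry c))
    (hc : ∀ᵐ θ ∂PP, S'.Straight (dir θ) (c θ) (Ioi 0)) : Illum μ c := by
  obtain ⟨sc, Z, hsc, rfl, hD, hm⟩ := S'.exists_flat hne hμ
  have := S'.secondCountable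
  refine illum_of_ces Z.μ hcm S.dense_pathLip fun g hg => ?_
  obtain ⟨L, hL⟩ := PathLip.seg h hg hsc
  refine ces_rescale hsc ?_
  refine Z.flat_main (c := fun θ t => c θ (t / sc)) (L := L) (M := ‖g‖)
    (hwm.mono fun θ hθ => weakMixing_flat h hsc hD hm hθ) ?_
    (hc.mono fun θ hθ => isRay_of_straight hsc hD hm hθ) g.continuous.measurable
    (fun x => g.norm_coe_le_norm x) ?_
  · exact hcm.comp (measurable_fst.prodMk (measurable_snd.div_const sc))
  · rw [hD, hm]; exact hL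

/-- `exists_marked`, `exists_flat`, `c θ t = mov p ((sc t) • ev θ)`, `ae_ray`, `straight_of_line` (`a = 0`),
`illum_of_rays`, `Illum.congr`, `flow_eq`. -/
theorem illum_regular (S : TransSurf X) {μ : Measure X} (hμ : S.IsArea μ)
    (hwm : ∀ᵐ θ ∂PP, WeakMixing μ (S.flow θ)) {p : X} (hp : p ∉ S.sing) :
    Illum μ (fun θ t => S.flow θ t p) := by
  obtain ⟨S', hne, hp', hμ', h⟩ := S.exists_marked hμ hp
  obtain ⟨sc, Z, hsc, -, hD, hm⟩ := S'.exists_flat hne hμ'
  have hreg : Z.reg p := by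
    change (0 : P2) ∈ Z.D p
    rw [hD]
    exact zero_mem_Dom.2 hp'
  have hae : ∀ᵐ θ ∂PP, ∀ t : ℝ, t • ev θ ∈ S'.Dom sc p := by
    rw [← hD]
    exact ae_restrict_of_ae (Flat.ae_ray hreg)
  have hcm : Measurable (Function.uncurry fun θ t => S'.mov sc p ((sc * (t - 0)) • ev θ)) := by
    rw [← hm]
    refine (Z.measurable_mv p).comp (Continuous.measurable ?_)
    exact (continuous_const.mul (continuous_snd.sub continuous_const)).smul
      (continuous_ev.comp continuous_fst)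
  refine (illum_of_rays h hne hμ' hwm hcm (hae.mono fun θ hθ =>
    straight_of_line hsc fun t _ => hθ _)).congr (hae.mono fun θ hθ t _ => ?_)
  rw [sub_zero]
  exact flow_eq h hsc (hθ _)

theorem main (S : TransSurf X) (μ : Measure X) (hμ : S.IsArea μ)
    (hwm : ∀ᵐ θ ∂(volume.restrict (Ico (0 : ℝ) 1)), WeakMixing μ (S.flow θ)) :
    (∀ p, p ∉ S.sing → Illum μ (fun θ t => S.flow θ t p)) ∧
      ∀ p ∈ S.sing, (∃ c, S.IsRays p c) ∧ ∀ c, S.IsRays p c → Illum μ c :=
  ⟨fun _ hp => illum_regular S hμ hwm hp, fun p hp => ⟨exists_rays S hμ hp, fun _ hc =>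
    illum_of_rays (fun _ _ _ h => h) ⟨p, hp⟩ hμ hwm hc.1 (hc.2.mono fun _ h => h.2)⟩⟩

end TransSurf

end Pool.Agent.MP_b29402_an

end
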